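import Mathlib

set_option autoImplicit false
set_option linter.unusedVariables false

namespace Pool.Agent.FedTour

variable {V C : Type*}

/-- `z` is untouched by colour `a` and is both the end and the start of a two-coloured
directed path with two arcs avoiding `a`. -/
def Bad (adj : V → V → Prop) (c : V → V → C) (a : C) (z : V) : Prop :=
  (∀ u, adj u z → c u z ≠ a) ∧ (∀ u, adj z u → c z u ≠ a) ∧
  (∃ p q, adj p q ∧ adj q z ∧ c p q ≠ c q z ∧ c p q ≠ a) ∧
  (∃ r s, adj z r ∧ adj r s ∧ c z r ≠ c r s ∧ c r s ≠ a)

theorem no_triangle_aux (adj : V → V → Prop) (c : V → V → C)
    (hirr : ∀ u, ¬ adj u u)
    (has : ∀ u v, adj u v → ¬ adj v u)
    (htot : ∀ u v, u = v ∨ adj u v ∨ adj v u)
    (hR : ∀ a b d e, adj a b → adj b d → adj d e →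
      c a b = c b d ∨ c b d = c d e ∨ c a b = c d e)
    (hb : ∀ a, ∃ z, Bad adj c a z) (a0 : C) : False := by
  obtain ⟨w0, i0, o0, ⟨p0, q0, h01, h02, h03, h0a⟩, ⟨r0, s0, h04, h05, h06, h0b⟩⟩ := hb (a0)
  obtain ⟨w1, i1, o1, ⟨p1, q1, h11, h12, h13, h1a⟩, ⟨r1, s1, h14, h15, h16, h1b⟩⟩ := hb (c q0 w0)
  obtain ⟨w2, i2, o2, ⟨p2, q2, h21, h22, h23, h2a⟩, ⟨r2, s2, h24, h25, h26, h2b⟩⟩ := hb (c p0 q0)
  obtain ⟨w3, i3, o3, ⟨p3, q3, h31, h32, h33, h3a⟩, ⟨r3, s3, h34, h35, h36, h3b⟩⟩ := hb (c r0 s0)
  rcases htot w0 w1 with rfl | e2 | e67
  · exact i1 _ h02 rfl
  · rcases hR _ _ _ _ h02 e2 h14 with e3 | e4 | e66
    · exact i1 _ e2 e3.symm
    · rcases hR _ _ _ _ h01 h02 e2 with e5 | e6 | e7
      · exact h03 e5
      · exact o1 _ h14 (e4.symm.trans e6.symm)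
      · rcases htot w1 w2 with rfl | e9 | e13
        · exact o2 _ h14 (e4.symm.trans e7.symm)
        · rcases hR _ _ _ _ h02 e2 e9 with e10 | e11 | e12
          · exact h03 (e7.trans e10.symm)
          · exact i2 _ e9 (e11.symm.trans e7.symm)
          · exact o1 _ e9 e12.symm
        · rcases hR _ _ _ _ e13 h14 h15 with e14 | e15 | e16
          · exact o2 _ e13 ((e14.trans e4.symm).trans e7.symm)
          · exact h16 e15
          · rcases hR _ _ _ _ h22 e13 h14 with e17 | e64 | e65
            · rcases htot w0 w2 with rfl | e19 | e26
              · exact h16 (e4.symm.trans e16)
              · rcases hR _ _ _ _ e19 e13 h14 with e20 | e24 | e25
                · rcases hR _ _ _ _ h01 h02 e19 with e21 | e22 | e23
                  · exact h03 e21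
                  · exact h1b ((e16.symm.trans e20.symm).trans e22.symm)
                  · exact h16 ((((e4.symm.trans e7.symm).trans e23).trans e20).trans e16)
                · exact h16 (e24.symm.trans e16)
                · exact i2 _ e19 ((e25.trans e4.symm).trans e7.symm)
              · rcases hR _ _ _ _ h22 e26 e2 with e27 | e62 | e63
                · rcases hR _ _ _ _ e26 h04 h05 with e28 | e32 | e33
                  · rcases hR _ _ _ _ h01 h02 h04 with e29 | e30 | e31
                    · exact h03 e29
                    · exact h1b ((((e16.symm.trans e17.symm).trans e27).trans e28).trans e30.symm)
                    · exact h16 ((((((e4.symm.trans e7.symm).trans e31).trans e28.symm).trans e27.symm).trans e17).trans e16)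
                  · exact h06 e32
                  · rcases htot w2 w3 with rfl | e36 | e58
                    · exact i3 _ h22 (e27.trans e33)
                    · rcases hR _ _ _ _ h22 e36 h34 with e37 | e38 | e57
                      · exact i3 _ e36 ((e37.symm.trans e27).trans e33)
                      · rcases hR _ _ _ _ h21 h22 e36 with e39 | e40 | e41
                        · exact h23 e39
                        · exact o3 _ h34 (((e38.symm.trans e40.symm).trans e27).trans e33)
                        · rcases htot w1 w3 with rfl | e43 | e50
                          · exact h23 (e41.trans e17.symm)
                          · rcases hR _ _ _ _ e26 e2 e43 with e44 | e45 | e49
                            · exact h16 ((((e4.symm.trans e44.symm).trans e27.symm).trans e17).trans e16)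
                            · rcases hR _ _ _ _ e13 e43 h34 with e46 | e47 | e48
                              · exact h16 (((e4.symm.trans e45).trans e46.symm).trans e16)
                              · exact h2a ((((e41.trans e38).trans e47.symm).trans e45.symm).trans e7.symm)
                              · exact h23 (((e41.trans e38).trans e48.symm).trans e17.symm)
                            · exact i3 _ e43 (e49.symm.trans e33)
                          · rcases hR _ _ _ _ e50 h14 h15 with e51 | e55 | e56
                            · rcases hR _ _ _ _ h22 e36 e50 with e52 | e53 | e54
                              · exact h23 (e41.trans e52.symm)
                              · exact h2a ((((e41.trans e53).trans e51).trans e4.symm).trans e7.symm)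
                              · exact h16 (((e51.symm.trans e54.symm).trans e17).trans e16)
                            · exact h16 e55
                            · exact o3 _ e50 ((((e56.trans e16.symm).trans e17.symm).trans e27).trans e33)
                      · exact o3 _ h34 ((e57.symm.trans e27).trans e33)
                    · rcases hR _ _ _ _ e58 e13 h14 with e59 | e60 | e61
                      · exact o3 _ e58 (((e59.trans e17.symm).trans e27).trans e33)
                      · exact h16 (e60.symm.trans e16)
                      · exact i2 _ e58 ((e61.trans e4.symm).trans e7.symm)
                · exact o2 _ e26 (e62.trans e7.symm)
                · exact h16 (((e4.symm.trans e63.symm).trans e17).trans e16)
            · exact h16 (e64.symm.trans e16)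
            · exact i2 _ h22 ((e65.trans e4.symm).trans e7.symm)
    · exact o1 _ h14 e66.symm
  · rcases hR _ _ _ _ h02 h04 h05 with e68 | e129 | e130
    · rcases hR _ _ _ _ e67 h04 h05 with e69 | e70 | e71
      · exact o1 _ e67 (e69.trans e68.symm)
      · exact h06 e70
      · rcases hR _ _ _ _ h12 e67 h04 with e72 | e127 | e128
        · rcases htot w1 w3 with rfl | e74 | e123
          · exact i3 _ h12 (e72.trans e71)
          · rcases hR _ _ _ _ h12 e74 h34 with e75 | e76 | e122
            · exact i3 _ e74 ((e75.symm.trans e72).trans e71)
            · rcases hR _ _ _ _ h11 h12 e74 with e77 | e78 | e79
              · exact h13 e77
              · exact o3 _ h34 (((e76.symm.trans e78.symm).trans e72).trans e71)
              · rcases htot w0 w3 with rfl | e81 | e115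
                · exact h13 (e79.trans e72.symm)
                · rcases hR _ _ _ _ e67 e81 h34 with e82 | e83 | e114
                  · exact i3 _ e81 (e82.symm.trans e71)
                  · rcases hR _ _ _ _ h01 h02 e81 with e84 | e85 | e86
                    · exact h03 e84
                    · exact h1a (((e79.trans e76).trans e83.symm).trans e85.symm)
                    · rcases htot w2 w3 with rfl | e88 | e110
                      · exact o2 _ h34 (e83.symm.trans e86.symm)
                      · rcases hR _ _ _ _ e88 h34 h35 with e89 | e90 | e91
                        · exact o2 _ e88 ((e89.trans e83.symm).trans e86.symm)
                        · exact h36 e90
                        · rcases hR _ _ _ _ h22 e88 h34 with e92 | e108 | e109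
                          · rcases htot w1 w2 with rfl | e94 | e101
                            · exact h36 (e76.symm.trans e91)
                            · rcases hR _ _ _ _ e94 e88 h34 with e95 | e99 | e100
                              · rcases hR _ _ _ _ h11 h12 e94 with e96 | e97 | e98
                                · exact h13 e96
                                · exact h3b ((((e91.symm.trans e95.symm).trans e97.symm).trans e72).trans e71)
                                · exact h36 ((((e76.symm.trans e79.symm).trans e98).trans e95).trans e91)
                              · exact h36 (e99.symm.trans e91)
                              · exact i2 _ e94 ((e100.trans e83.symm).trans e86.symm)
                            · rcases hR _ _ _ _ e101 e67 e81 with e102 | e106 | e107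
                              · rcases hR _ _ _ _ h22 e101 e74 with e103 | e104 | e105
                                · exact h3b ((((e91.symm.trans e92.symm).trans e103).trans e102).trans e71)
                                · exact h13 (((e79.trans e104.symm).trans e102).trans e72.symm)
                                · exact h36 (((e76.symm.trans e105.symm).trans e92).trans e91)
                              · exact h13 ((((e79.trans e76).trans e83.symm).trans e106.symm).trans e72.symm)
                              · exact o2 _ e101 (e107.trans e86.symm)
                          · exact h36 (e108.symm.trans e91)
                          · exact i2 _ h22 ((e109.trans e83.symm).trans e86.symm)
                      · rcases hR _ _ _ _ h12 e74 e110 with e111 | e112 | e113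
                        · exact h13 (e79.trans e111.symm)
                        · exact i2 _ e110 (((e112.symm.trans e76).trans e83.symm).trans e86.symm)
                        · exact o3 _ e110 ((e113.symm.trans e72).trans e71)
                  · exact h13 (((e79.trans e76).trans e114.symm).trans e72.symm)
                · rcases hR _ _ _ _ e115 h04 h05 with e116 | e120 | e121
                  · rcases hR _ _ _ _ h12 e74 e115 with e117 | e118 | e119
                    · exact h13 (e79.trans e117.symm)
                    · exact h1a (((e79.trans e118).trans e116).trans e68.symm)
                    · exact h06 (((e116.symm.trans e119.symm).trans e72).trans e71)
                  · exact h06 e120
                  · exact o3 _ e115 e121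
            · exact o3 _ h34 ((e122.symm.trans e72).trans e71)
          · rcases hR _ _ _ _ e123 e67 h04 with e124 | e125 | e126
            · exact o3 _ e123 (e124.trans e71)
            · exact h06 (e125.symm.trans e71)
            · exact i1 _ e123 (e126.trans e68.symm)
        · exact h06 (e127.symm.trans e71)
        · exact i1 _ h12 (e128.trans e68.symm)
    · exact h06 e129
    · rcases hR _ _ _ _ e67 h04 h05 with e131 | e172 | e173
      · rcases hR _ _ _ _ h01 h02 h04 with e132 | e133 | e134
        · exact h03 e132
        · exact h06 (e133.symm.trans e130)
        · rcases htot w0 w2 with rfl | e137 | e156
          · exact o2 _ h04 e134.symm
          · rcases hR _ _ _ _ e67 e137 h24 with e138 | e139 | e155
            · exact i2 _ e137 ((e138.symm.trans e131).trans e134.symm)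
            · rcases hR _ _ _ _ h01 h02 e137 with e140 | e141 | e154
              · exact h03 e140
              · rcases hR _ _ _ _ h12 e67 e137 with e142 | e152 | e153
                · rcases htot w1 w2 with rfl | e144 | e148
                  · exact has _ _ e67 e137
                  · rcases hR _ _ _ _ h12 e144 h24 with e145 | e146 | e147
                    · exact i2 _ e144 (((e145.symm.trans e142).trans e131).trans e134.symm)
                    · exact o1 _ e144 ((e146.trans e139.symm).trans e141.symm)
                    · exact h03 (((((e134.trans e131.symm).trans e142.symm).trans e147).trans e139.symm).trans e141.symm)
                  · rcases hR _ _ _ _ e67 e137 e148 with e149 | e150 | e151
                    · exact h03 (((e134.trans e131.symm).trans e149).trans e141.symm)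
                    · exact i1 _ e148 (e150.symm.trans e141.symm)
                    · exact o2 _ e148 ((e151.symm.trans e131).trans e134.symm)
                · exact h03 (((e134.trans e131.symm).trans e152).trans e141.symm)
                · exact i1 _ h12 (e153.trans e141.symm)
              · exact o2 _ h24 (e139.symm.trans e154.symm)
            · exact o2 _ h24 ((e155.symm.trans e131).trans e134.symm)
          · rcases hR _ _ _ _ e156 h04 h05 with e157 | e158 | e159
            · exact o2 _ e156 (e157.trans e134.symm)
            · exact h03 ((e134.trans e158).trans e130.symm)
            · rcases hR _ _ _ _ h22 e156 h04 with e160 | e170 | e171
              · rcases htot w1 w2 with rfl | e162 | e166
                · exact h03 (((e134.trans e131.symm).trans e159).trans e130.symm)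
                · rcases hR _ _ _ _ e162 e156 h04 with e163 | e164 | e165
                  · exact o1 _ e162 ((e163.trans e159).trans e130.symm)
                  · exact h03 (((e134.trans e164.symm).trans e159).trans e130.symm)
                  · exact i2 _ e162 (e165.trans e134.symm)
                · rcases hR _ _ _ _ h22 e166 e67 with e167 | e168 | e169
                  · exact i1 _ e166 (((e167.symm.trans e160).trans e159).trans e130.symm)
                  · exact o2 _ e166 ((e168.trans e131).trans e134.symm)
                  · exact h03 (((((e134.trans e131.symm).trans e169.symm).trans e160).trans e159).trans e130.symm)
              · exact h03 (((e134.trans e170.symm).trans e159).trans e130.symm)
              · exact i2 _ h22 (e171.trans e134.symm)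
      · exact h06 e172
      · exact o1 _ e67 (e173.trans e130.symm)

theorem triangle_aux (adj : V → V → Prop) (c : V → V → C)
    (hirr : ∀ u, ¬ adj u u)
    (has : ∀ u v, adj u v → ¬ adj v u)
    (htot : ∀ u v, u = v ∨ adj u v ∨ adj v u)
    (hR : ∀ a b d e, adj a b → adj b d → adj d e → a = e ∨
      c a b = c b d ∨ c b d = c d e ∨ c a b = c d e)
    (hb : ∀ a, ∃ z, Bad adj c a z) (x y z : V) (hxy : adj x y) (hyz : adj y z) (hzx : adj z x)
    (n1 : c x y ≠ c y z) (n2 : c y z ≠ c z x) (n3 : c x y ≠ c z x) : False := by
  obtain ⟨w1, i1, o1, ⟨p1, q1, h11, h12, h13, h1a⟩, ⟨r1, s1, h14, h15, h16, h1b⟩⟩ := hb (c x y)
  obtain ⟨w2, i2, o2, ⟨p2, q2, h21, h22, h23, h2a⟩, ⟨r2, s2, h24, h25, h26, h2b⟩⟩ := hb (c y z)
  obtain ⟨w3, i3, o3, ⟨p3, q3, h31, h32, h33, h3a⟩, ⟨r3, s3, h34, h35, h36, h3b⟩⟩ := hb (c z x)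
  rcases htot y w2 with rfl | e2 | e960
  · exact o2 _ hyz rfl
  · rcases htot x w2 with rfl | e4 | e616
    · exact has _ _ hxy e2
    · rcases hR _ _ _ _ hyz hzx e4 with rfl | e6 | e7 | e615
      · exact hirr _ e2
      · exact n2 e6
      · rcases htot z w3 with rfl | e9 | e377
        · exact o3 _ hzx rfl
        · rcases htot y w1 with rfl | e11 | e163
          · exact i1 _ hxy rfl
          · rcases htot w1 w3 with rfl | e17 | e77
            · rcases hR _ _ _ _ hzx hxy e11 with rfl | e14 | e15 | e16
              · exact hirr _ e9
              · exact n3 e14.symm
              · exact i1 _ e11 e15.symm
              · exact i3 _ e11 e16.symm
            · rcases hR _ _ _ _ hxy e11 e17 with rfl | e19 | e20 | e76
              · exact i3 _ hzx rfl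
              · exact i1 _ e11 e19.symm
              · rcases hR _ _ _ _ hzx hxy e11 with rfl | e73 | e74 | e75
                · rcases htot z w2 with rfl | e23 | e28
                  · exact has _ _ hzx e4
                  · rcases hR _ _ _ _ hxy hyz e23 with rfl | e25 | e26 | e27
                    · exact has _ _ hxy e2
                    · exact n1 e25
                    · exact i2 _ e23 e26.symm
                    · exact o1 _ e23 e27.symm
                  · rcases hR _ _ _ _ e28 hzx hxy with rfl | e30 | e71 | e72
                    · exact hirr _ e2
                    · rcases hR _ _ _ _ e2 e28 e9 with rfl | e32 | e69 | e70
                      · exact has _ _ hyz e9
                      · rcases htot x w3 with rfl | e40 | e60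
                        · exact n2 e20
                        · rcases hR _ _ _ _ hzx e40 h34 with rfl | e42 | e43 | e59
                          · exact has _ _ h34 e9
                          · exact i3 _ e40 e42.symm
                          · rcases hR _ _ _ _ hyz hzx e40 with rfl | e45 | e46 | e47
                            · exact has _ _ hyz e9
                            · exact n2 e45
                            · exact o3 _ h34 (e43.symm.trans e46.symm)
                            · rcases htot w2 w3 with rfl | e49 | e54
                              · exact has _ _ e9 e28
                              · rcases hR _ _ _ _ e4 e49 h34 with rfl | e51 | e52 | e53
                                · exact has _ _ h34 e40
                                · exact i3 _ e49 (e51.symm.trans e7.symm)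
                                · exact o2 _ e49 ((e52.trans e43.symm).trans e47.symm)
                                · exact n2 (((e47.trans e43).trans e53.symm).trans e7.symm)
                              · rcases hR _ _ _ _ hzx e40 e54 with rfl | e56 | e57 | e58
                                · exact has _ _ hzx e4
                                · exact n2 (e47.trans e56.symm)
                                · exact i2 _ e54 (e57.symm.trans e47.symm)
                                · exact o3 _ e54 e58.symm
                          · exact o3 _ h34 e59.symm
                        · rcases hR _ _ _ _ e60 hxy e2 with rfl | e62 | e67 | e68
                          · exact has _ _ e4 e60
                          · rcases hR _ _ _ _ e9 e60 e4 with rfl | e64 | e65 | e66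
                            · exact has _ _ hzx e4
                            · exact n1 ((e62.symm.trans e64.symm).trans e20.symm)
                            · exact n3 ((e62.symm.trans e65).trans e7.symm)
                            · exact n2 ((e20.trans e66).trans e7.symm)
                          · exact n3 ((e67.trans e32).trans e30)
                          · exact o3 _ e60 ((e68.trans e32).trans e30)
                      · exact n2 ((e20.trans e69.symm).trans e30)
                      · exact i2 _ e2 (e70.trans e20.symm)
                    · exact n3 e71.symm
                    · exact i1 _ e28 e72
                · exact n3 e73.symm
                · exact i1 _ e11 e74.symm
                · exact i3 _ e17 (e20.symm.trans e75.symm)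
              · exact o1 _ e17 e76.symm
            · rcases hR _ _ _ _ hzx hxy e11 with rfl | e79 | e80 | e81
              · exact has _ _ e9 e77
              · exact n3 e79.symm
              · exact i1 _ e11 e80.symm
              · rcases htot y w3 with rfl | e83 | e119
                · exact has _ _ hyz e9
                · rcases hR _ _ _ _ hzx hxy e83 with rfl | e85 | e86 | e118
                  · exact hirr _ e9
                  · exact n3 e85.symm
                  · rcases hR _ _ _ _ e83 e77 h14 with rfl | e88 | e89 | e117
                    · exact has _ _ h14 e11
                    · exact i1 _ e77 (e88.symm.trans e86.symm)
                    · rcases hR _ _ _ _ hxy e11 h14 with rfl | e114 | e115 | e116
                      · rcases hR _ _ _ _ h14 hxy hyz with rfl | e96 | e97 | e98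
                        · exact has _ _ e9 e77
                        · exact o1 _ h14 e96
                        · exact n1 e97
                        · rcases hR _ _ _ _ h14 hxy e2 with rfl | e100 | e101 | e113
                          · exact has _ _ h14 e4
                          · exact n1 (e100.symm.trans e98)
                          · rcases htot w1 w2 with rfl | e103 | e108
                            · exact has _ _ h14 e4
                            · rcases hR _ _ _ _ e83 e77 e103 with rfl | e105 | e106 | e107
                              · exact hirr _ e2
                              · exact n1 (((e86.trans e105).trans e89).trans e98)
                              · exact i2 _ e103 ((e106.symm.trans e89).trans e98)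
                              · exact o1 _ e103 (e107.symm.trans e86.symm)
                            · rcases hR _ _ _ _ e2 e108 h14 with rfl | e110 | e111 | e112
                              · exact hirr _ hxy
                              · exact i1 _ e108 (e110.symm.trans e101.symm)
                              · exact o2 _ e108 (e111.trans e98)
                              · exact n1 ((e101.trans e112).trans e98)
                          · exact i2 _ e2 (e113.symm.trans e98)
                      · exact n3 (e114.trans e81.symm)
                      · exact o3 _ e77 ((e89.trans e115.symm).trans e81.symm)
                      · exact o1 _ h14 e116.symm
                    · exact o1 _ h14 (e117.symm.trans e86.symm)
                  · exact i3 _ e83 e118.symm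
                · rcases hR _ _ _ _ e119 hyz hzx with rfl | e121 | e161 | e162
                  · exact i3 _ hzx rfl
                  · rcases hR _ _ _ _ h32 e119 e11 with rfl | e125 | e159 | e160
                    · exact has _ _ h32 e77
                    · rcases htot x w3 with rfl | e127 | e150
                      · exact n1 e121
                      · rcases hR _ _ _ _ e127 e119 e11 with rfl | e129 | e148 | e149
                        · exact has _ _ hxy e11
                        · rcases hR _ _ _ _ hzx e127 h34 with rfl | e134 | e135 | e147
                          · exact has _ _ h34 e9
                          · exact n2 ((e121.symm.trans e129.symm).trans e134.symm)
                          · rcases htot w2 w3 with rfl | e137 | e142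
                            · exact has _ _ e2 e119
                            · rcases hR _ _ _ _ e4 e137 h34 with rfl | e139 | e140 | e141
                              · exact has _ _ h34 e127
                              · exact i3 _ e137 (e139.symm.trans e7.symm)
                              · exact o2 _ e137 (((e140.trans e135.symm).trans e129).trans e121)
                              · exact n2 ((((e121.symm.trans e129.symm).trans e135).trans e141.symm).trans e7.symm)
                            · rcases hR _ _ _ _ hzx e127 e142 with rfl | e144 | e145 | e146
                              · exact has _ _ hzx e4
                              · exact n2 ((e121.symm.trans e129.symm).trans e144.symm)
                              · exact i2 _ e142 ((e145.symm.trans e129).trans e121)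
                              · exact o3 _ e142 e146.symm
                          · exact o3 _ h34 e147.symm
                        · exact n2 ((e121.symm.trans e148).trans e81.symm)
                        · exact i3 _ e127 (e149.trans e81.symm)
                      · rcases hR _ _ _ _ e150 hxy e11 with rfl | e152 | e157 | e158
                        · exact has _ _ e11 e119
                        · rcases hR _ _ _ _ h32 e150 e4 with rfl | e154 | e155 | e156
                          · exact o2 _ h32 (e125.trans e121)
                          · exact n1 (((e152.symm.trans e154.symm).trans e125).trans e121)
                          · exact n3 ((e152.symm.trans e155).trans e7.symm)
                          · exact n2 (((e121.symm.trans e125.symm).trans e156).trans e7.symm)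
                        · exact n3 (e157.trans e81.symm)
                        · exact o3 _ e150 (e158.trans e81.symm)
                    · exact n2 ((e121.symm.trans e159).trans e81.symm)
                    · exact i3 _ h32 (e160.trans e81.symm)
                  · exact n2 e161
                  · exact o3 _ e119 e162
          · rcases htot z w2 with rfl | e165 | e201
            · exact has _ _ hzx e4
            · rcases hR _ _ _ _ hyz e165 h24 with rfl | e167 | e168 | e200
              · exact has _ _ h24 e2
              · exact i2 _ e165 e167.symm
              · rcases hR _ _ _ _ hxy hyz e165 with rfl | e170 | e171 | e172
                · exact has _ _ hxy e2
                · exact n1 e170
                · exact o2 _ h24 (e168.symm.trans e171.symm)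
                · rcases hR _ _ _ _ e163 hyz e165 with rfl | e174 | e198 | e199
                  · exact has _ _ e2 e163
                  · rcases hR _ _ _ _ e163 e2 h24 with rfl | e176 | e177 | e197
                    · exact i1 _ h24 (e168.symm.trans e172.symm)
                    · exact i2 _ e2 (e176.symm.trans e174)
                    · rcases htot w1 w2 with rfl | e179 | e192
                      · exact has _ _ e2 e163
                      · rcases hR _ _ _ _ h12 e163 e2 with rfl | e181 | e190 | e191
                        · exact has _ _ h12 e179
                        · rcases hR _ _ _ _ h12 e179 h24 with rfl | e187 | e188 | e189
                          · rcases hR _ _ _ _ e4 h24 h12 with rfl | e184 | e185 | e186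
                            · exact n1 e174
                            · exact n3 (((e172.trans e168).trans e184.symm).trans e7.symm)
                            · exact n1 ((((e172.trans e168).trans e185).trans e181).trans e174)
                            · exact n2 (((e174.symm.trans e181.symm).trans e186.symm).trans e7.symm)
                          · exact i2 _ e179 ((e187.symm.trans e181).trans e174)
                          · exact o1 _ e179 ((e188.trans e168.symm).trans e172.symm)
                          · exact n1 ((((e172.trans e168).trans e189.symm).trans e181).trans e174)
                        · exact n1 ((((e172.trans e168).trans e177.symm).trans e190.symm).trans e174)
                        · exact i1 _ h12 (((e191.trans e177).trans e168.symm).trans e172.symm)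
                      · rcases hR _ _ _ _ hyz e165 e192 with rfl | e194 | e195 | e196
                        · exact has _ _ e2 e192
                        · exact n1 (e172.trans e194.symm)
                        · exact i1 _ e192 (e195.symm.trans e172.symm)
                        · exact o2 _ e192 e196.symm
                    · exact n1 (((e172.trans e168).trans e197.symm).trans e174)
                  · exact n1 (e172.trans e198.symm)
                  · exact o1 _ e163 (e199.trans e172.symm)
              · exact o2 _ h24 e200.symm
            · rcases htot x w1 with rfl | e203 | e352
              · exact o1 _ hxy rfl
              · rcases hR _ _ _ _ e2 e201 e9 with rfl | e205 | e310 | e331
                · exact has _ _ hyz e9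
                · rcases hR _ _ _ _ e4 e201 e9 with rfl | e207 | e292 | e309
                  · exact i3 _ hzx rfl
                  · rcases hR _ _ _ _ e201 e9 h34 with rfl | e225 | e226 | e291
                    · rcases hR _ _ _ _ hxy e2 h35 with rfl | e210 | e211 | e212
                      · exact has _ _ h35 e4
                      · exact n3 (((e210.trans e205).trans e207.symm).trans e7.symm)
                      · exact h3b (((e211.symm.trans e205).trans e207.symm).trans e7.symm)
                      · rcases hR _ _ _ _ e163 e2 h35 with rfl | e214 | e223 | e224
                        · exact i1 _ h35 e212.symm
                        · rcases hR _ _ _ _ e163 hyz e9 with rfl | e216 | e217 | e222
                          · exact o3 _ e163 (((e214.trans e205).trans e207.symm).trans e7.symm)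
                          · exact n2 ((((e216.symm.trans e214).trans e205).trans e207.symm).trans e7.symm)
                          · rcases hR _ _ _ _ e9 h34 h35 with rfl | e219 | e220 | e221
                            · exact n3 ((e212.trans e207.symm).trans e7.symm)
                            · exact i2 _ h34 (e219.symm.trans e217.symm)
                            · exact h36 e220
                            · exact n1 ((e212.trans e221.symm).trans e217.symm)
                          · exact i3 _ e9 ((((e222.symm.trans e214).trans e205).trans e207.symm).trans e7.symm)
                        · exact n3 ((((e212.trans e223.symm).trans e205).trans e207.symm).trans e7.symm)
                        · exact o1 _ e163 (e224.trans e212.symm)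
                    · exact i3 _ e9 ((e225.symm.trans e207.symm).trans e7.symm)
                    · rcases htot w2 w3 with rfl | e228 | e249
                      · exact has _ _ e9 e201
                      · rcases hR _ _ _ _ hxy e2 e228 with rfl | e230 | e231 | e232
                        · exact has _ _ e4 e228
                        · exact n3 (((e230.trans e205).trans e207.symm).trans e7.symm)
                        · exact i3 _ e228 (((e231.symm.trans e205).trans e207.symm).trans e7.symm)
                        · rcases hR _ _ _ _ e163 e2 e228 with rfl | e234 | e247 | e248
                          · exact i1 _ e228 e232.symm
                          · rcases hR _ _ _ _ e163 hyz e9 with rfl | e236 | e237 | e246
                            · exact i1 _ e228 e232.symm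
                            · exact n2 ((((e236.symm.trans e234).trans e205).trans e207.symm).trans e7.symm)
                            · rcases hR _ _ _ _ e4 e228 h34 with rfl | e243 | e244 | e245
                              · rcases hR _ _ _ _ h34 hxy e2 with rfl | e240 | e241 | e242
                                · exact has _ _ h34 e4
                                · exact n1 ((e240.symm.trans e226.symm).trans e237.symm)
                                · exact n3 (((e241.trans e205).trans e207.symm).trans e7.symm)
                                · exact n2 (((((e237.trans e226).trans e242).trans e205).trans e207.symm).trans e7.symm)
                              · exact n3 ((e232.trans e243.symm).trans e7.symm)
                              · exact n1 (((e232.trans e244).trans e226.symm).trans e237.symm)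
                              · exact n2 (((e237.trans e226).trans e245.symm).trans e7.symm)
                            · exact o3 _ h34 (((((e226.symm.trans e246.symm).trans e234).trans e205).trans e207.symm).trans e7.symm)
                          · exact n3 ((((e232.trans e247.symm).trans e205).trans e207.symm).trans e7.symm)
                          · exact o1 _ e163 (e248.trans e232.symm)
                      · rcases htot x w3 with rfl | e251 | e260
                        · exact i3 _ hzx rfl
                        · rcases hR _ _ _ _ e251 e249 e201 with rfl | e253 | e258 | e259
                          · exact has _ _ hxy hyz
                          · rcases hR _ _ _ _ hyz hzx e251 with rfl | e255 | e256 | e257
                            · exact has _ _ hyz e9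
                            · exact n2 e255
                            · exact o3 _ e249 (e253.symm.trans e256.symm)
                            · exact i2 _ e249 (e253.symm.trans e257.symm)
                          · exact o3 _ e249 ((e258.trans e207.symm).trans e7.symm)
                          · exact i3 _ e251 ((e259.trans e207.symm).trans e7.symm)
                        · rcases hR _ _ _ _ e260 hxy e2 with rfl | e262 | e289 | e290
                          · exact has _ _ e4 e260
                          · rcases hR _ _ _ _ e201 e9 e260 with rfl | e267 | e268 | e288
                            · exact has _ _ hxy e2
                            · exact o3 _ h34 (((e226.symm.trans e267.symm).trans e207.symm).trans e7.symm)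
                            · rcases hR _ _ _ _ hyz e9 e249 with rfl | e274 | e275 | e287
                              · exact hirr _ e2
                              · exact n1 ((e262.symm.trans e268.symm).trans e274.symm)
                              · rcases htot w1 w3 with rfl | e277 | e282
                                · exact has _ _ e203 e260
                                · rcases hR _ _ _ _ e277 e249 e201 with rfl | e279 | e280 | e281
                                  · exact has _ _ hyz e163
                                  · exact o1 _ e277 (((e279.trans e275.symm).trans e268).trans e262)
                                  · exact n3 (((((e262.symm.trans e268.symm).trans e275).trans e280).trans e207.symm).trans e7.symm)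
                                  · exact i3 _ e277 ((e281.trans e207.symm).trans e7.symm)
                                · rcases hR _ _ _ _ e201 e9 e282 with rfl | e284 | e285 | e286
                                  · exact has _ _ e2 e163
                                  · exact n3 ((((e262.symm.trans e268.symm).trans e284.symm).trans e207.symm).trans e7.symm)
                                  · exact i1 _ e282 ((e285.symm.trans e268).trans e262)
                                  · exact o3 _ e282 ((e286.symm.trans e207.symm).trans e7.symm)
                              · exact i2 _ e249 e287.symm
                            · exact n3 (((e262.symm.trans e288.symm).trans e207.symm).trans e7.symm)
                          · exact n3 (((e289.trans e205).trans e207.symm).trans e7.symm)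
                          · exact o3 _ e260 (((e290.trans e205).trans e207.symm).trans e7.symm)
                    · exact o3 _ h34 ((e291.symm.trans e207.symm).trans e7.symm)
                  · rcases hR _ _ _ _ e201 hzx hxy with rfl | e294 | e295 | e296
                    · exact hirr _ e2
                    · exact i3 _ e9 (e292.symm.trans e294)
                    · exact n3 e295.symm
                    · rcases hR _ _ _ _ e203 e163 e2 with rfl | e298 | e307 | e308
                      · exact has _ _ hxy e2
                      · rcases hR _ _ _ _ e201 hzx e203 with rfl | e300 | e301 | e306
                        · exact has _ _ e2 e163
                        · exact n3 (e296.symm.trans e300)
                        · rcases hR _ _ _ _ e163 hyz e9 with rfl | e303 | e304 | e305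
                          · exact i1 _ e9 (e292.symm.trans e296)
                          · exact n2 ((e303.symm.trans e298.symm).trans e301.symm)
                          · exact n1 ((e296.symm.trans e292).trans e304.symm)
                          · exact n3 ((((e296.symm.trans e292).trans e305.symm).trans e298.symm).trans e301.symm)
                        · exact o1 _ e163 ((e298.symm.trans e306.symm).trans e296)
                      · exact o1 _ e163 ((e307.trans e205).trans e296)
                      · exact i1 _ e203 ((e308.trans e205).trans e296)
                  · exact i3 _ e9 (e309.symm.trans e7.symm)
                · rcases hR _ _ _ _ e201 hzx hxy with rfl | e312 | e313 | e314
                  · exact hirr _ e2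
                  · exact i3 _ e9 (e310.symm.trans e312)
                  · exact n3 e313.symm
                  · rcases hR _ _ _ _ e201 hzx e203 with rfl | e316 | e317 | e330
                    · exact has _ _ e2 e163
                    · exact n3 (e314.symm.trans e316)
                    · rcases hR _ _ _ _ e163 hyz e9 with rfl | e319 | e328 | e329
                      · exact i1 _ e9 (e310.symm.trans e314)
                      · rcases hR _ _ _ _ e203 e163 e2 with rfl | e321 | e322 | e323
                        · exact has _ _ hxy e2
                        · exact n2 ((e319.symm.trans e321.symm).trans e317.symm)
                        · exact i2 _ e2 (e322.symm.trans e319)
                        · rcases hR _ _ _ _ e163 e2 e201 with rfl | e325 | e326 | e327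
                          · exact has _ _ hyz e163
                          · exact n2 (((e319.symm.trans e325).trans e323.symm).trans e317.symm)
                          · exact n3 (((e314.symm.trans e326.symm).trans e323.symm).trans e317.symm)
                          · exact n1 ((e314.symm.trans e327.symm).trans e319)
                      · exact n1 ((e314.symm.trans e310).trans e328.symm)
                      · exact o1 _ e163 ((e329.trans e310.symm).trans e314)
                    · exact i1 _ e203 (e330.symm.trans e314)
                · rcases hR _ _ _ _ hzx hxy e2 with rfl | e333 | e334 | e351
                  · exact has _ _ hzx e4
                  · exact n3 e333.symm
                  · rcases hR _ _ _ _ e203 e163 e2 with rfl | e336 | e349 | e350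
                    · exact has _ _ hxy e2
                    · rcases hR _ _ _ _ e163 hyz e9 with rfl | e338 | e347 | e348
                      · exact i1 _ e9 (e331.symm.trans e334.symm)
                      · rcases hR _ _ _ _ e201 hzx e203 with rfl | e340 | e345 | e346
                        · exact has _ _ e2 e163
                        · rcases hR _ _ _ _ e163 e2 e201 with rfl | e342 | e343 | e344
                          · exact has _ _ hyz e163
                          · exact n1 ((e334.trans e342.symm).trans e338)
                          · exact n3 ((e334.trans e343).trans e340)
                          · exact n2 ((e338.symm.trans e344).trans e340)
                        · exact n2 ((e338.symm.trans e336.symm).trans e345.symm)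
                        · exact o2 _ e201 ((e346.trans e336).trans e338)
                      · exact n1 ((e334.trans e331).trans e347.symm)
                      · exact o1 _ e163 ((e348.trans e331.symm).trans e334.symm)
                    · exact o1 _ e163 (e349.trans e334.symm)
                    · exact i1 _ e203 (e350.trans e334.symm)
                  · exact i3 _ e9 (e331.symm.trans e351.symm)
              · rcases hR _ _ _ _ e352 hxy hyz with rfl | e354 | e355 | e356
                · exact has _ _ hyz e163
                · exact o1 _ e352 e354
                · exact n1 e355
                · rcases hR _ _ _ _ e352 e4 e201 with rfl | e358 | e359 | e376
                  · exact has _ _ hyz e163
                  · exact n2 ((e356.symm.trans e358).trans e7.symm)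
                  · rcases hR _ _ _ _ e352 hxy e2 with rfl | e361 | e362 | e375
                    · exact has _ _ e2 e163
                    · exact n1 (e361.symm.trans e356)
                    · rcases hR _ _ _ _ e163 e2 e201 with rfl | e364 | e365 | e366
                      · exact has _ _ hyz e163
                      · exact o1 _ e163 (e364.trans e362.symm)
                      · exact n3 (((e362.trans e365).trans e359.symm).trans e7.symm)
                      · rcases hR _ _ _ _ e163 hyz e9 with rfl | e368 | e369 | e374
                        · exact o3 _ e163 ((e366.trans e359.symm).trans e7.symm)
                        · exact n2 (((e368.symm.trans e366).trans e359.symm).trans e7.symm)
                        · rcases hR _ _ _ _ e2 e201 e9 with rfl | e371 | e372 | e373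
                          · exact has _ _ hyz e9
                          · exact n3 (((e362.trans e371).trans e359.symm).trans e7.symm)
                          · exact n2 (((e369.trans e372.symm).trans e359.symm).trans e7.symm)
                          · exact n1 ((e362.trans e373).trans e369.symm)
                        · exact i3 _ e9 (((e374.symm.trans e366).trans e359.symm).trans e7.symm)
                    · exact i2 _ e2 (e375.symm.trans e356)
                  · exact o2 _ e201 (e376.symm.trans e356)
        · rcases hR _ _ _ _ e377 hzx hxy with rfl | e541 | e542 | e543
          · rcases hR _ _ _ _ hzx hxy e2 with rfl | e380 | e381 | e540
            · exact has _ _ hzx e4
            · exact n3 e380.symm
            · rcases htot w1 w3 with rfl | e383 | e469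
              · exact i1 _ hxy rfl
              · rcases hR _ _ _ _ e383 hyz hzx with rfl | e385 | e467 | e468
                · exact o1 _ hxy rfl
                · rcases htot w1 w2 with rfl | e387 | e404
                  · exact has _ _ e2 e383
                  · rcases hR _ _ _ _ e383 e2 h24 with rfl | e389 | e390 | e403
                    · exact has _ _ h24 e387
                    · exact n1 ((e381.trans e389.symm).trans e385)
                    · rcases hR _ _ _ _ h12 e383 e2 with rfl | e392 | e401 | e402
                      · exact has _ _ h12 e387
                      · rcases hR _ _ _ _ h12 e387 h24 with rfl | e398 | e399 | e400
                        · rcases hR _ _ _ _ e4 h24 h12 with rfl | e395 | e396 | e397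
                          · exact n1 e385
                          · exact n3 (((e381.trans e390).trans e395.symm).trans e7.symm)
                          · exact n1 ((((e381.trans e390).trans e396).trans e392).trans e385)
                          · exact n2 (((e385.symm.trans e392.symm).trans e397.symm).trans e7.symm)
                        · exact i2 _ e387 ((e398.symm.trans e392).trans e385)
                        · exact o1 _ e387 ((e399.trans e390.symm).trans e381.symm)
                        · exact n1 ((((e381.trans e390).trans e400.symm).trans e392).trans e385)
                      · exact n1 ((e381.trans e401.symm).trans e385)
                      · exact i1 _ h12 (e402.trans e381.symm)
                    · exact o2 _ h24 (e403.symm.trans e385)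
                  · rcases hR _ _ _ _ e4 e404 e383 with rfl | e406 | e465 | e466
                    · exact hirr _ hxy
                    · rcases htot r1 w3 with rfl | e412 | e429
                      · rcases hR _ _ _ _ hzx hxy h15 with rfl | e409 | e410 | e411
                        · exact h16 e385
                        · exact n3 e409.symm
                        · exact h1b e410.symm
                        · exact o3 _ h15 e411.symm
                      · rcases hR _ _ _ _ e412 e2 e404 with rfl | e414 | e427 | e428
                        · exact hirr _ h14
                        · rcases hR _ _ _ _ e412 hyz hzx with rfl | e424 | e425 | e426
                          · rcases hR _ _ _ _ e404 h14 hxy with rfl | e417 | e422 | e423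
                            · exact hirr _ e2
                            · rcases hR _ _ _ _ h14 hxy hyz with rfl | e419 | e420 | e421
                              · exact has _ _ hyz e383
                              · exact n3 (((e419.symm.trans e417.symm).trans e406.symm).trans e7.symm)
                              · exact n1 e420
                              · exact n2 (((e421.symm.trans e417.symm).trans e406.symm).trans e7.symm)
                            · exact o1 _ h14 e422
                            · exact n3 ((e423.symm.trans e406.symm).trans e7.symm)
                          · exact n1 ((e381.trans e414.symm).trans e424)
                          · exact n2 e425
                          · exact n3 ((e381.trans e414.symm).trans e426)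
                        · exact n3 (((e381.trans e427).trans e406.symm).trans e7.symm)
                        · exact i3 _ e412 ((e428.trans e406.symm).trans e7.symm)
                      · rcases hR _ _ _ _ e404 e383 e429 with rfl | e431 | e432 | e464
                        · exact has _ _ h14 e404
                        · exact n2 (((e385.symm.trans e431.symm).trans e406.symm).trans e7.symm)
                        · rcases hR _ _ _ _ e2 e404 h14 with rfl | e434 | e435 | e463
                          · exact hirr _ e429
                          · exact n3 (((e381.trans e434).trans e406.symm).trans e7.symm)
                          · rcases hR _ _ _ _ hzx hxy e429 with rfl | e460 | e461 | e462
                            · rcases hR _ _ _ _ hxy hyz h15 with rfl | e438 | e439 | e459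
                              · exact h16 ((e435.symm.trans e406.symm).trans e7.symm)
                              · exact n1 e438
                              · rcases htot z w2 with rfl | e441 | e450
                                · exact has _ _ hzx e4
                                · rcases hR _ _ _ _ e441 e404 e383 with rfl | e443 | e448 | e449
                                  · exact has _ _ hxy hzx
                                  · rcases hR _ _ _ _ hxy hyz e441 with rfl | e445 | e446 | e447
                                    · exact has _ _ hxy e2
                                    · exact n1 e445
                                    · exact n2 (((e446.trans e443).trans e406.symm).trans e7.symm)
                                    · exact n3 (((e447.trans e443).trans e406.symm).trans e7.symm)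
                                  · exact n2 (((e385.symm.trans e448.symm).trans e406.symm).trans e7.symm)
                                  · exact i2 _ e441 (e449.trans e385)
                                · rcases hR _ _ _ _ e383 e2 e450 with rfl | e452 | e453 | e458
                                  · exact has _ _ hyz e383
                                  · exact n1 ((e381.trans e452.symm).trans e385)
                                  · rcases hR _ _ _ _ e4 e450 h15 with rfl | e455 | e456 | e457
                                    · exact n2 e439
                                    · exact n3 (((e381.trans e453).trans e455.symm).trans e7.symm)
                                    · exact n1 (((e381.trans e453).trans e456).trans e439.symm)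
                                    · exact n2 ((e439.trans e457.symm).trans e7.symm)
                                  · exact o2 _ e450 (e458.symm.trans e385)
                              · exact h1b e459.symm
                            · exact n3 e460.symm
                            · exact n1 ((e461.trans e432.symm).trans e385)
                            · exact n2 ((e385.symm.trans e432).trans e462.symm)
                          · exact o1 _ h14 (e463.symm.trans e381.symm)
                        · exact o3 _ e429 ((e464.symm.trans e406.symm).trans e7.symm)
                    · exact o2 _ e404 (e465.trans e385)
                    · exact n2 ((e385.symm.trans e466.symm).trans e7.symm)
                · exact n2 e467
                · exact i3 _ e383 e468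
              · rcases hR _ _ _ _ hzx hxy e469 with rfl | e537 | e538 | e539
                · rcases htot z w2 with rfl | e472 | e477
                  · exact has _ _ hzx e4
                  · rcases hR _ _ _ _ hxy hyz e472 with rfl | e474 | e475 | e476
                    · exact has _ _ hxy e2
                    · exact n1 e474
                    · exact i2 _ e472 e475.symm
                    · exact o1 _ e472 e476.symm
                  · rcases hR _ _ _ _ e477 hzx hxy with rfl | e479 | e535 | e536
                    · exact hirr _ e2
                    · rcases hR _ _ _ _ e2 e477 h14 with rfl | e481 | e482 | e534
                      · exact has _ _ hyz h14
                      · exact n3 ((e381.trans e481).trans e479)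
                      · rcases hR _ _ _ _ h32 e2 e477 with rfl | e484 | e532 | e533
                        · exact has _ _ hyz h32
                        · rcases hR _ _ _ _ h32 hyz h14 with rfl | e529 | e530 | e531
                          · rcases hR _ _ _ _ h32 hyz hzx with rfl | e526 | e527 | e528
                            · rcases htot z s3 with rfl | e500 | e517
                              · rcases hR _ _ _ _ h34 h35 hzx with rfl | e497 | e498 | e499
                                · exact hirr _ hxy
                                · exact h36 e497
                                · exact h3b e498
                                · exact o3 _ h34 e499
                              · rcases hR _ _ _ _ e2 e477 e500 with rfl | e502 | e503 | e516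
                                · exact has _ _ hyz e500
                                · exact n3 ((e381.trans e502).trans e479)
                                · rcases hR _ _ _ _ hzx hxy h34 with rfl | e505 | e506 | e515
                                  · exact h3b (e503.symm.trans e479)
                                  · exact n3 e505.symm
                                  · rcases hR _ _ _ _ hxy hyz e500 with rfl | e512 | e513 | e514
                                    · rcases hR _ _ _ _ h34 h35 e4 with rfl | e509 | e510 | e511
                                      · exact hirr _ e2
                                      · exact h36 e509
                                      · exact h3b (e510.trans e7.symm)
                                      · exact n3 ((e506.trans e511).trans e7.symm)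
                                    · exact n1 e512
                                    · exact n2 ((e513.trans e503.symm).trans e479)
                                    · exact n3 ((e514.trans e503.symm).trans e479)
                                  · exact o3 _ h34 e515.symm
                                · exact o1 _ e500 (e516.symm.trans e381.symm)
                              · rcases hR _ _ _ _ e517 hzx hxy with rfl | e519 | e524 | e525
                                · exact has _ _ h34 h35
                                · rcases hR _ _ _ _ h34 h35 e517 with rfl | e521 | e522 | e523
                                  · exact has _ _ hxy hzx
                                  · exact h36 e521
                                  · exact h3b (e522.trans e519)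
                                  · exact o3 _ h34 (e523.trans e519)
                                · exact n3 e524.symm
                                · exact i1 _ e517 e525
                            · exact n1 ((e381.trans e484.symm).trans e526)
                            · exact n2 e527
                            · exact n3 ((e381.trans e484.symm).trans e528)
                          · exact n1 ((e381.trans e484.symm).trans e529)
                          · exact n2 ((e530.trans e482.symm).trans e479)
                          · exact n3 ((((e381.trans e484.symm).trans e531).trans e482.symm).trans e479)
                        · exact n3 ((e381.trans e532).trans e479)
                        · exact i3 _ h32 (e533.trans e479)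
                      · exact o1 _ h14 (e534.symm.trans e381.symm)
                    · exact n3 e535.symm
                    · exact i1 _ e477 e536
                · exact n3 e537.symm
                · exact i1 _ e469 e538.symm
                · exact o3 _ e469 e539.symm
            · exact o3 _ e2 e540.symm
          · exact o3 _ e377 e541
          · exact n3 e542.symm
          · rcases htot w1 w3 with rfl | e545 | e550
            · exact o1 _ e377 e543
            · rcases hR _ _ _ _ e545 e377 hzx with rfl | e547 | e548 | e549
              · exact o1 _ hxy rfl
              · exact o1 _ e545 (e547.trans e543)
              · exact n3 (e543.symm.trans e548)
              · exact i3 _ e545 e549
            · rcases htot w2 w3 with rfl | e552 | e561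
              · exact i3 _ e4 e7.symm
              · rcases hR _ _ _ _ e552 e377 hzx with rfl | e554 | e559 | e560
                · exact has _ _ hxy e2
                · rcases hR _ _ _ _ e4 e552 e550 with rfl | e556 | e557 | e558
                  · exact o1 _ hxy rfl
                  · exact n3 (((e543.symm.trans e554.symm).trans e556.symm).trans e7.symm)
                  · exact i1 _ e550 ((e557.symm.trans e554).trans e543)
                  · exact o3 _ e550 (e558.symm.trans e7.symm)
                · exact n3 (e543.symm.trans e559)
                · exact i3 _ e552 e560
              · rcases htot x w3 with rfl | e563 | e572
                · exact has _ _ hzx e377
                · rcases hR _ _ _ _ hzx e563 e561 with rfl | e565 | e566 | e571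
                  · exact has _ _ hzx e4
                  · exact i3 _ e563 e565.symm
                  · rcases hR _ _ _ _ hyz hzx e563 with rfl | e568 | e569 | e570
                    · exact n1 e543.symm
                    · exact n2 e568
                    · exact o3 _ e561 (e566.symm.trans e569.symm)
                    · exact i2 _ e561 (e566.symm.trans e570.symm)
                  · exact o3 _ e561 e571.symm
                · rcases hR _ _ _ _ h32 e572 e4 with rfl | e574 | e613 | e614
                  · exact has _ _ h32 e561
                  · rcases hR _ _ _ _ h32 e377 hzx with rfl | e576 | e611 | e612
                    · exact has _ _ h32 e572
                    · rcases htot z w1 with rfl | e578 | e602
                      · exact i1 _ e377 e543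
                      · rcases hR _ _ _ _ e377 e578 h14 with rfl | e580 | e581 | e601
                        · exact has _ _ h14 e550
                        · exact i1 _ e578 (e580.symm.trans e543)
                        · rcases hR _ _ _ _ hxy hyz e578 with rfl | e583 | e584 | e600
                          · exact o1 _ hxy rfl
                          · exact n1 e583
                          · rcases htot w1 w2 with rfl | e586 | e591
                            · exact o2 _ h14 (e581.symm.trans e584.symm)
                            · rcases hR _ _ _ _ e377 e578 e586 with rfl | e588 | e589 | e590
                              · exact has _ _ e4 e572
                              · exact n1 ((e543.symm.trans e588).trans e584.symm)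
                              · exact i2 _ e586 (e589.symm.trans e584.symm)
                              · exact o1 _ e586 (e590.symm.trans e543)
                            · rcases hR _ _ _ _ e572 e4 e591 with rfl | e593 | e594 | e599
                              · exact has _ _ e377 e578
                              · exact n3 ((((e543.symm.trans e576.symm).trans e574).trans e593).trans e7.symm)
                              · rcases hR _ _ _ _ e561 e591 h14 with rfl | e596 | e597 | e598
                                · exact has _ _ h14 e550
                                · exact o3 _ e561 ((e596.trans e594.symm).trans e7.symm)
                                · exact n2 ((((e584.trans e581).trans e597.symm).trans e594.symm).trans e7.symm)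
                                · exact i2 _ e561 ((e598.trans e581.symm).trans e584.symm)
                              · exact i1 _ e591 (((e599.symm.trans e574.symm).trans e576).trans e543)
                          · exact o1 _ h14 (e581.symm.trans e600.symm)
                        · exact o1 _ h14 (e601.symm.trans e543)
                      · rcases hR _ _ _ _ e602 hzx hxy with rfl | e604 | e609 | e610
                        · exact i1 _ hxy rfl
                        · rcases hR _ _ _ _ h32 e550 e602 with rfl | e606 | e607 | e608
                          · exact has _ _ h32 e377
                          · exact i1 _ e550 ((e606.symm.trans e576).trans e543)
                          · exact o3 _ e550 (e607.trans e604)
                          · exact n3 (((e543.symm.trans e576.symm).trans e608).trans e604)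
                        · exact n3 e609.symm
                        · exact o1 _ e602 e610
                    · exact n3 (e543.symm.trans e611)
                    · exact i3 _ h32 e612
                  · exact o3 _ e572 (e613.trans e7.symm)
                  · exact i3 _ h32 (e614.trans e7.symm)
      · exact i2 _ e4 e615.symm
    · rcases hR _ _ _ _ e616 hxy hyz with rfl | e618 | e958 | e959
      · exact i2 _ hyz rfl
      · rcases htot z w2 with rfl | e620 | e689
        · exact n3 e618.symm
        · rcases hR _ _ _ _ hyz e620 e616 with rfl | e622 | e623 | e688
          · exact hirr _ hxy
          · exact i2 _ e620 e622.symm
          · rcases hR _ _ _ _ hyz e620 h24 with rfl | e625 | e626 | e687
            · exact has _ _ h24 e2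
            · exact n1 ((e618.symm.trans e623.symm).trans e625.symm)
            · rcases htot w1 w2 with rfl | e628 | e682
              · exact o1 _ h24 ((e626.symm.trans e623).trans e618)
              · rcases htot z w1 with rfl | e630 | e639
                · exact o1 _ e620 (e623.trans e618)
                · rcases hR _ _ _ _ e630 e628 e616 with rfl | e632 | e637 | e638
                  · exact has _ _ hxy hyz
                  · rcases hR _ _ _ _ hxy hyz e630 with rfl | e634 | e635 | e636
                    · exact has _ _ e616 e628
                    · exact n1 e634
                    · exact i2 _ e628 (e632.symm.trans e635.symm)
                    · exact o1 _ e628 (e632.symm.trans e636.symm)
                  · exact o1 _ e628 (e637.trans e618)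
                  · exact i1 _ e630 (e638.trans e618)
                · rcases hR _ _ _ _ e639 hzx hxy with rfl | e641 | e680 | e681
                  · exact i1 _ hxy rfl
                  · rcases hR _ _ _ _ h12 e639 e620 with rfl | e643 | e678 | e679
                    · exact has _ _ h12 e628
                    · rcases htot y w1 with rfl | e645 | e665
                      · exact n2 e641
                      · rcases hR _ _ _ _ e645 e639 e620 with rfl | e647 | e663 | e664
                        · exact has _ _ hxy e616
                        · rcases hR _ _ _ _ e645 e628 e616 with rfl | e649 | e661 | e662
                          · exact hirr _ hxy
                          · rcases htot w1 w3 with rfl | e651 | e656
                            · exact i3 _ h12 (e643.trans e641)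
                            · rcases hR _ _ _ _ hxy e645 e651 with rfl | e653 | e654 | e655
                              · exact i3 _ hzx rfl
                              · exact n3 ((e653.trans e647).trans e641)
                              · exact i3 _ e651 ((e654.symm.trans e647).trans e641)
                              · exact o1 _ e651 e655.symm
                            · rcases hR _ _ _ _ e656 e628 e616 with rfl | e658 | e659 | e660
                              · exact i3 _ hzx rfl
                              · exact o3 _ e656 (((e658.trans e649.symm).trans e647).trans e641)
                              · exact n3 ((((e618.symm.trans e659.symm).trans e649.symm).trans e647).trans e641)
                              · exact i1 _ e656 (e660.trans e618)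
                          · exact o1 _ e628 (e661.trans e618)
                          · exact n3 (((e618.symm.trans e662.symm).trans e647).trans e641)
                        · exact n3 (((e618.symm.trans e623.symm).trans e663.symm).trans e641)
                        · exact i1 _ e645 ((e664.trans e623).trans e618)
                      · rcases hR _ _ _ _ e665 hyz e620 with rfl | e667 | e676 | e677
                        · exact has _ _ e2 e665
                        · rcases hR _ _ _ _ e665 e2 e616 with rfl | e669 | e670 | e675
                          · exact has _ _ hzx e639
                          · exact i2 _ e2 (e669.symm.trans e667)
                          · rcases hR _ _ _ _ h12 e665 e2 with rfl | e672 | e673 | e674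
                            · exact has _ _ h12 e628
                            · exact n2 (((e667.symm.trans e672.symm).trans e643).trans e641)
                            · exact n1 (((e618.symm.trans e670.symm).trans e673.symm).trans e667)
                            · exact n3 ((((e618.symm.trans e670.symm).trans e674.symm).trans e643).trans e641)
                          · exact n1 ((e618.symm.trans e675.symm).trans e667)
                        · exact n1 ((e618.symm.trans e623.symm).trans e676.symm)
                        · exact o1 _ e665 ((e677.trans e623).trans e618)
                    · exact n3 (((e618.symm.trans e623.symm).trans e678.symm).trans e641)
                    · exact i1 _ h12 ((e679.trans e623).trans e618)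
                  · exact n3 e680.symm
                  · exact o1 _ e639 e681
              · rcases hR _ _ _ _ hyz e620 e682 with rfl | e684 | e685 | e686
                · exact has _ _ e2 e682
                · exact n1 ((e618.symm.trans e623.symm).trans e684.symm)
                · exact i1 _ e682 ((e685.symm.trans e623).trans e618)
                · exact o2 _ e682 e686.symm
            · exact o2 _ h24 e687.symm
          · exact n1 (e618.symm.trans e688.symm)
        · rcases htot y w1 with rfl | e691 | e853
          · exact i1 _ hxy rfl
          · rcases htot w1 w3 with rfl | e697 | e733
            · rcases hR _ _ _ _ hzx hxy e691 with rfl | e694 | e695 | e696
              · exact o3 _ hzx rfl
              · exact n3 e694.symm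
              · exact i1 _ e691 e695.symm
              · exact i3 _ e691 e696.symm
            · rcases hR _ _ _ _ hxy e691 e697 with rfl | e699 | e700 | e732
              · exact i3 _ hzx rfl
              · exact i1 _ e691 e699.symm
              · rcases hR _ _ _ _ hzx hxy e691 with rfl | e729 | e730 | e731
                · rcases hR _ _ _ _ e689 hzx hxy with rfl | e703 | e727 | e728
                  · exact has _ _ hxy e616
                  · rcases hR _ _ _ _ e2 e689 e697 with rfl | e705 | e725 | e726
                    · exact has _ _ hyz e697
                    · rcases htot x w3 with rfl | e707 | e716
                      · exact n2 e700
                      · rcases hR _ _ _ _ e2 e616 e707 with rfl | e709 | e710 | e715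
                        · exact has _ _ hyz e697
                        · exact n3 (((e618.symm.trans e709.symm).trans e705).trans e703)
                        · rcases hR _ _ _ _ hyz hzx e707 with rfl | e712 | e713 | e714
                          · exact has _ _ hyz e697
                          · exact n2 e712
                          · exact n3 ((e618.symm.trans e710).trans e713.symm)
                          · exact n1 ((e618.symm.trans e710).trans e714.symm)
                        · exact i3 _ e707 ((e715.symm.trans e705).trans e703)
                      · rcases hR _ _ _ _ e716 hxy e2 with rfl | e718 | e723 | e724
                        · exact has _ _ e689 e697
                        · rcases hR _ _ _ _ e689 e697 e716 with rfl | e720 | e721 | e722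
                          · exact has _ _ hxy e2
                          · exact n2 ((e700.trans e720.symm).trans e703)
                          · exact n1 ((e718.symm.trans e721.symm).trans e700.symm)
                          · exact n3 ((e718.symm.trans e722.symm).trans e703)
                        · exact n3 ((e723.trans e705).trans e703)
                        · exact o3 _ e716 ((e724.trans e705).trans e703)
                    · exact n2 ((e700.trans e725.symm).trans e703)
                    · exact i2 _ e2 (e726.trans e700.symm)
                  · exact n3 e727.symm
                  · exact i1 _ e689 e728
                · exact n3 e729.symm
                · exact i1 _ e691 e730.symm
                · exact i3 _ e697 (e700.symm.trans e731.symm)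
              · exact o1 _ e697 e732.symm
            · rcases htot w1 w2 with rfl | e735 | e748
              · exact o1 _ e616 e618
              · rcases hR _ _ _ _ e733 e735 e616 with rfl | e737 | e746 | e747
                · exact i3 _ hzx rfl
                · rcases hR _ _ _ _ e691 e735 e616 with rfl | e739 | e744 | e745
                  · exact hirr _ hxy
                  · rcases hR _ _ _ _ hzx hxy e691 with rfl | e741 | e742 | e743
                    · exact has _ _ e689 e735
                    · exact n3 e741.symm
                    · exact i1 _ e691 e742.symm
                    · exact o3 _ e733 ((e737.trans e739.symm).trans e743.symm)
                  · exact i1 _ e733 ((e737.trans e744).trans e618)
                  · exact i1 _ e691 (e745.trans e618)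
                · exact o1 _ e735 (e746.trans e618)
                · exact i1 _ e733 (e747.trans e618)
              · rcases htot x w1 with rfl | e750 | e785
                · exact has _ _ hxy e691
                · rcases hR _ _ _ _ hzx hxy e691 with rfl | e755 | e756 | e757
                  · exact has _ _ hzx e750
                  · exact n3 e755.symm
                  · exact i1 _ e691 e756.symm
                  · rcases hR _ _ _ _ hxy e691 h14 with rfl | e759 | e760 | e784
                    · exact has _ _ h14 e750
                    · exact n3 (e759.trans e757.symm)
                    · rcases htot y w3 with rfl | e762 | e771
                      · exact o3 _ e691 e757.symm
                      · rcases hR _ _ _ _ e762 e733 h14 with rfl | e764 | e769 | e770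
                        · exact has _ _ h14 e691
                        · rcases hR _ _ _ _ hzx hxy e762 with rfl | e766 | e767 | e768
                          · exact o3 _ hzx rfl
                          · exact n3 e766.symm
                          · exact i1 _ e733 (e764.symm.trans e767.symm)
                          · exact o3 _ e733 (e764.symm.trans e768.symm)
                        · exact o3 _ e733 ((e769.trans e760.symm).trans e757.symm)
                        · exact i3 _ e762 ((e770.trans e760.symm).trans e757.symm)
                      · rcases hR _ _ _ _ e771 hyz hzx with rfl | e773 | e782 | e783
                        · exact i3 _ hzx rfl
                        · rcases hR _ _ _ _ e771 e2 e748 with rfl | e775 | e776 | e781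
                          · exact has _ _ e691 e771
                          · exact i2 _ e2 (e775.symm.trans e773)
                          · rcases hR _ _ _ _ e771 e2 e616 with rfl | e778 | e779 | e780
                            · exact n1 e773
                            · exact i2 _ e2 (e778.symm.trans e773)
                            · exact i1 _ e748 ((e776.symm.trans e779).trans e618)
                            · exact n1 ((e618.symm.trans e780.symm).trans e773)
                          · exact o2 _ e748 (e781.symm.trans e773)
                        · exact n2 e782
                        · exact o3 _ e771 e783
                    · exact o1 _ h14 e784.symm
                · rcases hR _ _ _ _ e748 e785 hxy with rfl | e787 | e851 | e852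
                  · exact has _ _ hxy e616
                  · rcases hR _ _ _ _ e785 hxy hyz with rfl | e848 | e849 | e850
                    · rcases hR _ _ _ _ e733 hzx hxy with rfl | e845 | e846 | e847
                      · rcases hR _ _ _ _ h32 e2 e689 with rfl | e791 | e843 | e844
                        · exact has _ _ hyz h32
                        · rcases hR _ _ _ _ h32 hyz hzx with rfl | e840 | e841 | e842
                          · rcases hR _ _ _ _ e2 e689 h14 with rfl | e794 | e795 | e839
                            · exact has _ _ hyz h14
                            · exact n3 ((e791.trans e794).trans e787)
                            · rcases hR _ _ _ _ hxy hyz h14 with rfl | e836 | e837 | e838
                              · rcases htot p1 w3 with rfl | e810 | e823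
                                · rcases hR _ _ _ _ hxy h11 h12 with rfl | e807 | e808 | e809
                                  · exact has _ _ hxy hyz
                                  · exact h1a e807.symm
                                  · exact h13 e808
                                  · exact i1 _ h12 e809.symm
                                · rcases hR _ _ _ _ e810 e2 e689 with rfl | e812 | e821 | e822
                                  · exact has _ _ hyz e810
                                  · rcases hR _ _ _ _ e810 hyz hzx with rfl | e818 | e819 | e820
                                    · rcases hR _ _ _ _ e616 h11 h12 with rfl | e815 | e816 | e817
                                      · exact hirr _ e689
                                      · exact h1a (e815.symm.trans e618)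
                                      · exact h13 e816
                                      · exact i1 _ h12 (e817.symm.trans e618)
                                    · exact n1 ((e791.trans e812.symm).trans e818)
                                    · exact n2 e819
                                    · exact n3 ((e791.trans e812.symm).trans e820)
                                  · exact n3 ((e791.trans e821).trans e787)
                                  · exact i3 _ e810 (e822.trans e787)
                                · rcases hR _ _ _ _ h12 hzx hxy with rfl | e825 | e834 | e835
                                  · exact has _ _ h11 e823
                                  · rcases hR _ _ _ _ e823 h11 h12 with rfl | e827 | e832 | e833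
                                    · exact has _ _ hxy hzx
                                    · rcases hR _ _ _ _ hzx hxy e823 with rfl | e829 | e830 | e831
                                      · exact has _ _ h11 h12
                                      · exact n3 e829.symm
                                      · exact h1a (e827.symm.trans e830.symm)
                                      · exact h13 ((e827.symm.trans e831.symm).trans e825.symm)
                                    · exact h13 e832
                                    · exact o3 _ e823 (e833.trans e825)
                                  · exact n3 e834.symm
                                  · exact i1 _ h12 e835
                              · exact n1 e836
                              · exact n2 ((e837.trans e795.symm).trans e787)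
                              · exact n3 ((e838.trans e795.symm).trans e787)
                            · exact o1 _ h14 (e839.symm.trans e791.symm)
                          · exact i2 _ e2 (e791.symm.trans e840)
                          · exact n2 e841
                          · exact i3 _ h32 e842
                        · exact o3 _ e2 (e843.trans e787)
                        · exact i3 _ h32 (e844.trans e787)
                      · exact o3 _ e733 e845
                      · exact n3 e846.symm
                      · exact i1 _ e733 e847
                    · exact i1 _ e748 (e787.trans e848)
                    · exact n1 e849
                    · exact o2 _ e748 (e787.trans e850)
                  · exact o1 _ e785 e851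
                  · exact i1 _ e748 e852
          · rcases htot x w1 with rfl | e855 | e929
            · exact o1 _ hxy rfl
            · rcases hR _ _ _ _ e616 e855 e853 with rfl | e857 | e858 | e928
              · exact has _ _ hxy e616
              · exact i1 _ e855 (e857.symm.trans e618)
              · rcases hR _ _ _ _ e853 hyz hzx with rfl | e860 | e873 | e874
                · exact hirr _ e855
                · rcases hR _ _ _ _ e853 e2 e689 with rfl | e862 | e863 | e872
                  · exact has _ _ hyz e853
                  · exact i2 _ e2 (e862.symm.trans e860)
                  · rcases hR _ _ _ _ e853 e2 e616 with rfl | e865 | e866 | e871
                    · exact hirr _ e855
                    · exact i2 _ e2 (e865.symm.trans e860)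
                    · rcases hR _ _ _ _ e689 hzx e855 with rfl | e868 | e869 | e870
                      · exact has _ _ e2 e853
                      · exact n3 (((e618.symm.trans e866.symm).trans e863).trans e868)
                      · exact n2 ((e860.symm.trans e858.symm).trans e869.symm)
                      · exact n1 (((((e618.symm.trans e866.symm).trans e863).trans e870).trans e858).trans e860)
                    · exact n1 ((e618.symm.trans e871.symm).trans e860)
                  · exact o2 _ e689 (e872.symm.trans e860)
                · exact n2 e873
                · rcases htot w1 w3 with rfl | e876 | e889
                  · exact o3 _ e853 e874
                  · rcases hR _ _ _ _ e616 e855 e876 with rfl | e886 | e887 | e888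
                    · rcases hR _ _ _ _ e876 e689 hzx with rfl | e879 | e884 | e885
                      · exact has _ _ e616 e876
                      · rcases hR _ _ _ _ e689 hzx hxy with rfl | e881 | e882 | e883
                        · exact has _ _ hxy e616
                        · exact o3 _ e689 e881
                        · exact n3 e882.symm
                        · exact o1 _ e876 (e879.trans e883)
                      · exact o3 _ e689 e884
                      · exact i3 _ e876 e885
                    · exact n3 (((e618.symm.trans e886).trans e858).trans e874)
                    · exact i3 _ e876 ((e887.symm.trans e858).trans e874)
                    · exact o1 _ e876 (e888.symm.trans e618)
                  · rcases hR _ _ _ _ e889 e853 hyz with rfl | e891 | e892 | e893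
                    · exact o3 _ hzx rfl
                    · exact o3 _ e889 (e891.trans e874)
                    · exact n2 (e892.symm.trans e874)
                    · rcases hR _ _ _ _ e889 e853 e2 with rfl | e895 | e896 | e927
                      · exact o2 _ e889 e893
                      · exact n2 ((e893.symm.trans e895).trans e874)
                      · rcases htot x w3 with rfl | e898 | e907
                        · exact n2 ((e893.symm.trans e858).trans e874)
                        · rcases hR _ _ _ _ e898 e889 e853 with rfl | e900 | e905 | e906
                          · exact hirr _ hxy
                          · rcases hR _ _ _ _ e2 e616 e898 with rfl | e902 | e903 | e904
                            · exact has _ _ e853 e889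
                            · exact n3 (((e618.symm.trans e902.symm).trans e896.symm).trans e874)
                            · exact n1 (((e618.symm.trans e903).trans e900).trans e893)
                            · exact n2 ((((e893.symm.trans e900.symm).trans e904.symm).trans e896.symm).trans e874)
                          · exact n2 ((e893.symm.trans e905).trans e874)
                          · exact i3 _ e898 (e906.trans e874)
                        · rcases hR _ _ _ _ e907 hxy e2 with rfl | e909 | e925 | e926
                          · exact o2 _ e889 e893
                          · rcases hR _ _ _ _ h32 e907 e855 with rfl | e914 | e923 | e924
                            · exact has _ _ h32 e889
                            · rcases hR _ _ _ _ h32 e889 e853 with rfl | e920 | e921 | e922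
                              · rcases hR _ _ _ _ h31 e2 e616 with rfl | e917 | e918 | e919
                                · exact h33 (e909.symm.trans e914.symm)
                                · exact h3a ((e917.trans e896.symm).trans e874)
                                · exact n3 (((e618.symm.trans e918.symm).trans e896.symm).trans e874)
                                · exact h33 (((e919.trans e618).trans e909.symm).trans e914.symm)
                              · exact n1 (((e909.symm.trans e914.symm).trans e920).trans e893)
                              · exact n2 ((e893.symm.trans e921).trans e874)
                              · exact n3 (((e909.symm.trans e914.symm).trans e922).trans e874)
                            · exact n3 (((e909.symm.trans e923).trans e858).trans e874)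
                            · exact i3 _ h32 ((e924.trans e858).trans e874)
                          · exact n3 ((e925.trans e896.symm).trans e874)
                          · exact o3 _ e907 ((e926.trans e896.symm).trans e874)
                      · exact i2 _ e2 (e927.symm.trans e893)
              · exact o1 _ e853 (e928.symm.trans e618)
            · rcases hR _ _ _ _ e929 hxy hyz with rfl | e931 | e932 | e933
              · exact has _ _ hyz e853
              · exact o1 _ e929 e931
              · exact n1 e932
              · rcases hR _ _ _ _ e929 hxy e2 with rfl | e935 | e936 | e957
                · exact has _ _ e2 e853
                · exact n1 (e935.symm.trans e933)
                · rcases hR _ _ _ _ h12 e929 hxy with rfl | e938 | e955 | e956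
                  · exact has _ _ h12 e853
                  · rcases htot w1 w2 with rfl | e945 | e950
                    · exact has _ _ e2 e853
                    · rcases hR _ _ _ _ h12 e945 e616 with rfl | e947 | e948 | e949
                      · exact has _ _ h12 e929
                      · exact i2 _ e945 ((e947.symm.trans e938).trans e933)
                      · exact o1 _ e945 (e948.trans e618)
                      · exact n1 (((e618.symm.trans e949.symm).trans e938).trans e933)
                    · rcases hR _ _ _ _ e2 e950 e929 with rfl | e952 | e953 | e954
                      · exact hirr _ hxy
                      · exact i1 _ e950 (e952.symm.trans e936.symm)
                      · exact o2 _ e950 (e953.trans e933)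
                      · exact n1 ((e936.trans e954).trans e933)
                  · exact n1 (e955.symm.trans e933)
                  · exact i1 _ h12 e956
                · exact i2 _ e2 (e957.symm.trans e933)
      · exact n1 e958
      · exact o2 _ e616 e959
  · rcases htot w2 w3 with rfl | e966 | e1519
    · rcases hR _ _ _ _ e960 hyz hzx with rfl | e963 | e964 | e965
      · exact i3 _ hzx rfl
      · exact o2 _ e960 e963
      · exact n2 e964
      · exact o3 _ e960 e965
    · rcases htot x w3 with rfl | e968 | e1400
      · exact i3 _ hzx rfl
      · rcases hR _ _ _ _ hyz hzx e968 with rfl | e1329 | e1330 | e1331
        · rcases hR _ _ _ _ e960 hyz hzx with rfl | e1326 | e1327 | e1328
          · rcases htot s2 y with rfl | e976 | e985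
            · rcases hR _ _ _ _ h24 h25 hyz with rfl | e973 | e974 | e975
              · exact has _ _ hxy hyz
              · exact h26 e973
              · exact h2b e974
              · exact o2 _ h24 e975
            · rcases hR _ _ _ _ e976 hyz hzx with rfl | e978 | e983 | e984
              · exact has _ _ h24 h25
              · rcases hR _ _ _ _ h24 h25 e976 with rfl | e980 | e981 | e982
                · exact hirr _ hxy
                · exact h26 e980
                · exact h2b (e981.trans e978)
                · exact o2 _ h24 (e982.trans e978)
              · exact n2 e983
              · exact i3 _ e976 e984
            · rcases hR _ _ _ _ hyz hzx h24 with rfl | e991 | e992 | e1325
              · rcases hR _ _ _ _ hzx hxy h25 with rfl | e988 | e989 | e990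
                · exact h2b rfl
                · exact n3 e988.symm
                · exact h26 e989
                · exact o3 _ h25 e990.symm
              · exact n2 e991
              · rcases hR _ _ _ _ h32 hyz hzx with rfl | e998 | e1323 | e1324
                · rcases hR _ _ _ _ h31 hxy hyz with rfl | e995 | e996 | e997
                  · exact h3a rfl
                  · exact h33 e995
                  · exact n1 e996
                  · exact i2 _ h31 e997
                · rcases htot w1 y with rfl | e1000 | e1214
                  · exact i1 _ hxy rfl
                  · rcases hR _ _ _ _ e1000 hyz hzx with rfl | e1002 | e1212 | e1213
                    · exact o1 _ hxy rfl
                    · rcases htot w2 w1 with rfl | e1004 | e1207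
                      · exact n1 e1002
                      · rcases hR _ _ _ _ h22 e1004 e1000 with rfl | e1006 | e1205 | e1206
                        · exact has _ _ hxy h22
                        · rcases hR _ _ _ _ h22 hxy hyz with rfl | e1202 | e1203 | e1204
                          · rcases hR _ _ _ _ e1004 e1000 e985 with rfl | e1009 | e1010 | e1201
                            · exact has _ _ hxy e985
                            · exact n2 ((e1002.symm.trans e1009.symm).trans e1006.symm)
                            · rcases hR _ _ _ _ e1004 e1000 h34 with rfl | e1012 | e1013 | e1200
                              · exact has _ _ hxy h34
                              · exact n2 ((e1002.symm.trans e1012.symm).trans e1006.symm)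
                              · rcases hR _ _ _ _ h21 hzx hxy with rfl | e1015 | e1016 | e1017
                                · exact h2a rfl
                                · exact h23 e1015
                                · exact n3 e1016.symm
                                · rcases hR _ _ _ _ hzx hxy e985 with rfl | e1197 | e1198 | e1199
                                  · rcases hR _ _ _ _ h25 hzx hxy with rfl | e1020 | e1021 | e1022
                                    · exact n3 e992.symm
                                    · exact h26 (e992.symm.trans e1020.symm)
                                    · exact n3 e1021.symm
                                    · rcases hR _ _ _ _ hzx hxy h34 with rfl | e1194 | e1195 | e1196
                                      · rcases hR _ _ _ _ h24 h25 h35 with rfl | e1025 | e1026 | e1193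
                                        · exact h3b rfl
                                        · exact n3 ((e1022.symm.trans e1025.symm).trans e992.symm)
                                        · rcases htot r1 y with rfl | e1032 | e1176
                                          · rcases hR _ _ _ _ hzx hxy h15 with rfl | e1029 | e1030 | e1031
                                            · exact h16 e1002
                                            · exact n3 e1029.symm
                                            · exact h1b e1030.symm
                                            · exact o3 _ h15 e1031.symm
                                          · rcases hR _ _ _ _ e1032 hyz hzx with rfl | e1034 | e1174 | e1175
                                            · exact has _ _ h14 e1004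
                                            · rcases htot q2 w1 with rfl | e1036 | e1045
                                              · exact has _ _ hyz e1000
                                              · rcases hR _ _ _ _ h25 e1036 e1000 with rfl | e1038 | e1039 | e1044
                                                · exact n1 e1022.symm
                                                · exact i1 _ e1036 (e1038.symm.trans e1022)
                                                · rcases hR _ _ _ _ h24 h25 e1036 with rfl | e1041 | e1042 | e1043
                                                  · exact hirr _ e1004
                                                  · exact n3 ((e1022.symm.trans e1041.symm).trans e992.symm)
                                                  · exact n1 (((e1022.symm.trans e1042).trans e1039).trans e1002)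
                                                  · exact n2 (((e1002.symm.trans e1039.symm).trans e1043.symm).trans e992.symm)
                                                · exact n1 ((e1022.symm.trans e1044).trans e1002)
                                              · rcases hR _ _ _ _ e1045 hzx hxy with rfl | e1047 | e1172 | e1173
                                                · exact has _ _ h14 e1032
                                                · rcases htot r1 w2 with rfl | e1049 | e1058
                                                  · exact has _ _ h14 e1004
                                                  · rcases hR _ _ _ _ e1049 e1004 e1000 with rfl | e1051 | e1056 | e1057
                                                    · exact has _ _ hxy e1049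
                                                    · rcases hR _ _ _ _ e1049 hxy hyz with rfl | e1053 | e1054 | e1055
                                                      · exact has _ _ hyz e1032
                                                      · exact n3 ((e1053.symm.trans e1051).trans e1006.symm)
                                                      · exact n1 e1054
                                                      · exact n2 ((e1055.symm.trans e1051).trans e1006.symm)
                                                    · exact n2 ((e1002.symm.trans e1056.symm).trans e1006.symm)
                                                    · exact i2 _ e1049 (e1057.trans e1002)
                                                  · rcases hR _ _ _ _ hzx e1058 e1032 with rfl | e1060 | e1170 | e1171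
                                                    · exact has _ _ hxy hzx
                                                    · rcases htot p1 y with rfl | e1066 | e1157
                                                      · rcases hR _ _ _ _ hxy h11 h12 with rfl | e1063 | e1064 | e1065
                                                        · exact has _ _ hzx e1045
                                                        · exact h1a e1063.symm
                                                        · exact h13 e1064
                                                        · exact i1 _ h12 e1065.symm
                                                      · rcases htot q1 y with rfl | e1070 | e1148
                                                        · exact has _ _ h12 e1000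
                                                        · rcases hR _ _ _ _ h11 h12 e1045 with rfl | e1072 | e1073 | e1135
                                                          · exact has _ _ hyz e1066
                                                          · exact h13 e1072
                                                          · rcases hR _ _ _ _ h11 h12 e1000 with rfl | e1075 | e1076 | e1077
                                                            · exact has _ _ h11 e1070
                                                            · exact h13 e1075
                                                            · exact n2 (((e1002.symm.trans e1076.symm).trans e1073).trans e1047)
                                                            · rcases hR _ _ _ _ e1070 hyz hzx with rfl | e1079 | e1133 | e1134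
                                                              · exact i2 _ h11 (e1077.trans e1002)
                                                              · rcases hR _ _ _ _ e1066 hyz hzx with rfl | e1081 | e1131 | e1132
                                                                · exact o2 _ h11 (e1077.trans e1002)
                                                                · rcases htot q2 q1 with rfl | e1101 | e1114
                                                                  · exact has _ _ hyz e1070
                                                                  · rcases hR _ _ _ _ hxy hyz e1101 with rfl | e1103 | e1104 | e1109
                                                                    · exact n1 e1079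
                                                                    · exact n1 e1103
                                                                    · rcases hR _ _ _ _ h21 e1101 h12 with rfl | e1106 | e1107 | e1108
                                                                      · exact n3 (e1017.symm.trans e1047)
                                                                      · exact n1 ((e1017.symm.trans e1106).trans e1104.symm)
                                                                      · exact n2 (((e1104.trans e1107).trans e1073).trans e1047)
                                                                      · exact n3 (((e1017.symm.trans e1108).trans e1073).trans e1047)
                                                                    · rcases hR _ _ _ _ hyz e1101 h12 with rfl | e1111 | e1112 | e1113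
                                                                      · exact has _ _ h14 e1032
                                                                      · exact n1 (e1109.trans e1111.symm)
                                                                      · exact n3 (((e1109.trans e1112).trans e1073).trans e1047)
                                                                      · exact n2 ((e1113.trans e1073).trans e1047)
                                                                  · rcases hR _ _ _ _ e1114 hzx hxy with rfl | e1116 | e1125 | e1126
                                                                    · exact has _ _ h12 e1000
                                                                    · rcases hR _ _ _ _ h11 e1114 h35 with rfl | e1122 | e1123 | e1124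
                                                                      · rcases hR _ _ _ _ h35 h11 h12 with rfl | e1119 | e1120 | e1121
                                                                        · exact has _ _ hyz e1000
                                                                        · exact n1 ((((e1022.symm.trans e1026).trans e1119).trans e1077).trans e1002)
                                                                        · exact n2 ((((e1002.symm.trans e1077.symm).trans e1120).trans e1073).trans e1047)
                                                                        · exact n3 ((((e1022.symm.trans e1026).trans e1121).trans e1073).trans e1047)
                                                                      · exact n2 (((e1002.symm.trans e1077.symm).trans e1122).trans e1116)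
                                                                      · exact n3 (((e1022.symm.trans e1026).trans e1123.symm).trans e1116)
                                                                      · exact n1 ((((e1022.symm.trans e1026).trans e1124.symm).trans e1077).trans e1002)
                                                                    · exact n3 e1125.symm
                                                                    · rcases hR _ _ _ _ h11 e1114 hzx with rfl | e1128 | e1129 | e1130
                                                                      · exact n1 e1081
                                                                      · exact n1 (((e1126.symm.trans e1128.symm).trans e1077).trans e1002)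
                                                                      · exact n3 (e1126.symm.trans e1129)
                                                                      · exact n2 ((e1002.symm.trans e1077.symm).trans e1130)
                                                                · exact n2 e1131
                                                                · exact i3 _ e1066 e1132
                                                              · exact n2 e1133
                                                              · exact i3 _ e1070 e1134
                                                          · rcases hR _ _ _ _ e1070 hyz hzx with rfl | e1137 | e1146 | e1147
                                                            · exact h13 ((e1135.trans e1047).trans e1006)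
                                                            · rcases hR _ _ _ _ h12 e1045 h35 with rfl | e1143 | e1144 | e1145
                                                              · rcases hR _ _ _ _ e1045 h35 e1070 with rfl | e1140 | e1141 | e1142
                                                                · exact has _ _ h14 e1032
                                                                · exact n3 (((e1022.symm.trans e1026).trans e1140.symm).trans e1047)
                                                                · exact n1 (((e1022.symm.trans e1026).trans e1141).trans e1137)
                                                                · exact n2 ((e1137.symm.trans e1142.symm).trans e1047)
                                                              · exact h13 (e1135.trans e1143.symm)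
                                                              · exact n3 (((e1022.symm.trans e1026).trans e1144.symm).trans e1047)
                                                              · exact i1 _ h12 ((e1145.trans e1026.symm).trans e1022)
                                                            · exact n2 e1146
                                                            · exact i3 _ e1070 e1147
                                                        · rcases hR _ _ _ _ e1058 e1032 e1148 with rfl | e1150 | e1151 | e1156
                                                          · exact has _ _ hxy e1148
                                                          · exact n2 ((e1034.symm.trans e1150.symm).trans e1060.symm)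
                                                          · rcases hR _ _ _ _ hzx hxy e1148 with rfl | e1153 | e1154 | e1155
                                                            · exact has _ _ h12 e1045
                                                            · exact n3 e1153.symm
                                                            · exact n1 ((e1154.trans e1151.symm).trans e1034)
                                                            · exact n2 ((e1034.symm.trans e1151).trans e1155.symm)
                                                          · exact o3 _ e1148 (e1156.symm.trans e1060.symm)
                                                      · rcases hR _ _ _ _ e1058 e1032 e1157 with rfl | e1159 | e1160 | e1169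
                                                        · exact has _ _ hxy e1157
                                                        · exact n2 ((e1034.symm.trans e1159.symm).trans e1060.symm)
                                                        · rcases hR _ _ _ _ hzx hxy e1157 with rfl | e1166 | e1167 | e1168
                                                          · rcases hR _ _ _ _ h21 h11 h12 with rfl | e1163 | e1164 | e1165
                                                            · exact n3 (e1017.symm.trans e1047)
                                                            · exact h1a (e1163.symm.trans e1017)
                                                            · exact h13 e1164
                                                            · exact i1 _ h12 (e1165.symm.trans e1017)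
                                                          · exact n3 e1166.symm
                                                          · exact n1 ((e1167.trans e1160.symm).trans e1034)
                                                          · exact n2 ((e1034.symm.trans e1160).trans e1168.symm)
                                                        · exact o3 _ e1157 (e1169.symm.trans e1060.symm)
                                                    · exact o2 _ e1058 (e1170.trans e1034)
                                                    · exact n2 (e1034.symm.trans e1171.symm)
                                                · exact n3 e1172.symm
                                                · exact o1 _ e1045 e1173
                                            · exact n2 e1174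
                                            · exact i3 _ e1032 e1175
                                          · rcases hR _ _ _ _ e1004 e1000 e1176 with rfl | e1178 | e1179 | e1192
                                            · exact has _ _ hxy e1176
                                            · exact n2 ((e1002.symm.trans e1178.symm).trans e1006.symm)
                                            · rcases hR _ _ _ _ hzx hxy e1176 with rfl | e1189 | e1190 | e1191
                                              · rcases hR _ _ _ _ e1004 h14 h35 with rfl | e1182 | e1187 | e1188
                                                · exact n3 (e1022.symm.trans e1026)
                                                · rcases hR _ _ _ _ h24 h25 h15 with rfl | e1184 | e1185 | e1186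
                                                  · exact h16 (e1182.symm.trans e1006.symm)
                                                  · exact n3 ((e1022.symm.trans e1184.symm).trans e992.symm)
                                                  · exact h1b (e1185.symm.trans e1022)
                                                  · exact h16 (((e1182.symm.trans e1006.symm).trans e992).trans e1186)
                                                · exact o1 _ h14 ((e1187.trans e1026.symm).trans e1022)
                                                · exact n3 (((e1022.symm.trans e1026).trans e1188.symm).trans e1006.symm)
                                              · exact n3 e1189.symm
                                              · exact n1 ((e1190.trans e1179.symm).trans e1002)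
                                              · exact n2 ((e1002.symm.trans e1179).trans e1191.symm)
                                            · exact o3 _ e1176 (e1192.symm.trans e1006.symm)
                                        · exact h3b (e1193.symm.trans e992.symm)
                                      · exact n3 e1194.symm
                                      · exact n1 ((e1195.trans e1013.symm).trans e1002)
                                      · exact n2 ((e1002.symm.trans e1013).trans e1196.symm)
                                  · exact n3 e1197.symm
                                  · exact n1 ((e1198.trans e1010.symm).trans e1002)
                                  · exact n2 ((e1002.symm.trans e1010).trans e1199.symm)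
                              · exact o3 _ h34 (e1200.symm.trans e1006.symm)
                            · exact o3 _ e985 (e1201.symm.trans e1006.symm)
                          · exact i1 _ e1004 (e1006.symm.trans e1202)
                          · exact n1 e1203
                          · exact i2 _ h22 e1204
                        · exact o2 _ e1004 (e1205.trans e1002)
                        · exact i2 _ h22 (e1206.trans e1002)
                      · rcases hR _ _ _ _ e1207 hxy hyz with rfl | e1209 | e1210 | e1211
                        · exact has _ _ hyz e1000
                        · exact o1 _ e1207 e1209
                        · exact n1 e1210
                        · exact i2 _ e1207 e1211
                    · exact n2 e1212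
                    · exact i3 _ e1000 e1213
                  · rcases hR _ _ _ _ hzx hxy e1214 with rfl | e1320 | e1321 | e1322
                    · rcases htot q1 y with rfl | e1221 | e1307
                      · rcases hR _ _ _ _ h11 hyz hzx with rfl | e1218 | e1219 | e1220
                        · exact h1a rfl
                        · exact h13 e1218
                        · exact n2 e1219
                        · exact i3 _ h11 e1220
                      · rcases hR _ _ _ _ e1221 hyz hzx with rfl | e1223 | e1305 | e1306
                        · exact has _ _ hzx h12
                        · rcases hR _ _ _ _ h12 hzx hxy with rfl | e1225 | e1303 | e1304
                          · exact hirr _ e1221
                          · rcases htot r1 w2 with rfl | e1231 | e1244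
                            · rcases hR _ _ _ _ hyz hzx h15 with rfl | e1228 | e1229 | e1230
                              · exact h1b rfl
                              · exact n2 e1228
                              · exact h16 e1229
                              · exact o2 _ h15 e1230.symm
                            · rcases hR _ _ _ _ e1231 hxy hyz with rfl | e1233 | e1242 | e1243
                              · exact hirr _ h14
                              · rcases hR _ _ _ _ h14 e1231 h24 with rfl | e1235 | e1236 | e1237
                                · exact has _ _ hzx h24
                                · exact o1 _ h14 (e1235.trans e1233)
                                · exact n3 ((e1233.symm.trans e1236).trans e992.symm)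
                                · rcases hR _ _ _ _ hxy hyz h14 with rfl | e1239 | e1240 | e1241
                                  · exact hirr _ e1231
                                  · exact n1 e1239
                                  · exact n2 ((e1240.trans e1237).trans e992.symm)
                                  · exact n3 ((e1241.trans e1237).trans e992.symm)
                              · exact n1 e1242
                              · exact i2 _ e1231 e1243
                            · rcases hR _ _ _ _ hyz hzx e1244 with rfl | e1246 | e1247 | e1302
                              · exact has _ _ hyz h14
                              · exact n2 e1246
                              · rcases hR _ _ _ _ hxy hyz h14 with rfl | e1249 | e1250 | e1301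
                                · exact hirr _ e1244
                                · exact n1 e1249
                                · rcases htot r1 y with rfl | e1252 | e1280
                                  · exact has _ _ hyz h14
                                  · rcases hR _ _ _ _ e1252 hyz hzx with rfl | e1254 | e1278 | e1279
                                    · exact hirr _ e1244
                                    · rcases hR _ _ _ _ e1244 e1252 e985 with rfl | e1256 | e1257 | e1277
                                      · exact has _ _ hxy e985
                                      · exact n2 ((e1254.symm.trans e1256.symm).trans e1247.symm)
                                      · rcases hR _ _ _ _ h22 e1244 e1252 with rfl | e1262 | e1275 | e1276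
                                        · exact has _ _ hxy h22
                                        · rcases hR _ _ _ _ h22 hxy e985 with rfl | e1272 | e1273 | e1274
                                          · rcases hR _ _ _ _ h25 h22 hxy with rfl | e1265 | e1266 | e1267
                                            · exact n3 e992.symm
                                            · exact h26 (((e992.symm.trans e1247).trans e1262.symm).trans e1265.symm)
                                            · exact n3 ((e1266.symm.trans e1262).trans e1247.symm)
                                            · rcases hR _ _ _ _ hzx hxy e985 with rfl | e1269 | e1270 | e1271
                                              · exact i1 _ h25 e1267
                                              · exact n3 e1269.symm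
                                              · exact n1 ((e1270.trans e1257.symm).trans e1254)
                                              · exact n2 ((e1254.symm.trans e1257).trans e1271.symm)
                                          · exact n3 ((e1272.symm.trans e1262).trans e1247.symm)
                                          · exact n1 ((e1273.trans e1257.symm).trans e1254)
                                          · exact n2 ((((e1254.symm.trans e1257).trans e1274.symm).trans e1262).trans e1247.symm)
                                        · exact n2 ((e1254.symm.trans e1275.symm).trans e1247.symm)
                                        · exact i2 _ h22 (e1276.trans e1254)
                                      · exact o3 _ e985 (e1277.symm.trans e1247.symm)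
                                    · exact n2 e1278
                                    · exact i3 _ e1252 e1279
                                  · rcases hR _ _ _ _ hzx hxy e1280 with rfl | e1282 | e1283 | e1300
                                    · exact has _ _ hzx e1244
                                    · exact n3 e1282.symm
                                    · rcases hR _ _ _ _ e1221 e1280 h15 with rfl | e1297 | e1298 | e1299
                                      · rcases hR _ _ _ _ e1280 h15 h12 with rfl | e1286 | e1287 | e1296
                                        · exact has _ _ hxy hzx
                                        · exact h1b (e1286.symm.trans e1283.symm)
                                        · rcases hR _ _ _ _ h32 e1280 h15 with rfl | e1293 | e1294 | e1295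
                                          · rcases hR _ _ _ _ h31 h12 h14 with rfl | e1290 | e1291 | e1292
                                            · exact h3a (e1287.trans e1225)
                                            · exact h3a (e1290.trans e1225)
                                            · exact n2 ((e1250.trans e1291.symm).trans e1225)
                                            · exact h33 ((e1292.trans e1250.symm).trans e998.symm)
                                          · exact n1 ((e1283.trans e1293.symm).trans e998)
                                          · exact n3 (((e1283.trans e1294).trans e1287).trans e1225)
                                          · exact n2 (((e998.symm.trans e1295).trans e1287).trans e1225)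
                                        · exact n3 ((e1283.trans e1296).trans e1225)
                                      · exact n1 ((e1283.trans e1297.symm).trans e1223)
                                      · exact h1b (e1298.symm.trans e1283.symm)
                                      · exact h16 ((e1250.symm.trans e1223.symm).trans e1299)
                                    · exact o3 _ e1280 e1300.symm
                                · exact o1 _ h14 e1301.symm
                              · exact o2 _ e1244 e1302.symm
                          · exact n3 e1303.symm
                          · exact i1 _ h12 e1304
                        · exact n2 e1305
                        · exact i3 _ e1221 e1306
                      · rcases hR _ _ _ _ h12 hzx hxy with rfl | e1309 | e1318 | e1319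
                        · exact hirr _ e1307
                        · rcases hR _ _ _ _ h32 e1307 h12 with rfl | e1311 | e1316 | e1317
                          · exact has _ _ hyz h32
                          · rcases hR _ _ _ _ hxy e1307 h12 with rfl | e1313 | e1314 | e1315
                            · exact has _ _ hxy hyz
                            · exact n1 ((e1313.trans e1311.symm).trans e998)
                            · exact n2 (((e998.symm.trans e1311).trans e1314).trans e1309)
                            · exact n3 (e1315.trans e1309)
                          · exact o3 _ e1307 (e1316.trans e1309)
                          · exact n2 ((e998.symm.trans e1317).trans e1309)
                        · exact n3 e1318.symm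
                        · exact i1 _ h12 e1319
                    · exact n3 e1320.symm
                    · exact i1 _ e1214 e1321.symm
                    · exact o3 _ e1214 e1322.symm
                · exact n2 e1323
                · exact i3 _ h32 e1324
              · exact o2 _ h24 e1325.symm
          · exact o2 _ e960 e1326
          · exact n2 e1327
          · exact i3 _ e960 e1328
        · exact n2 e1329
        · exact i3 _ e968 e1330.symm
        · rcases hR _ _ _ _ e960 hyz hzx with rfl | e1333 | e1334 | e1335
          · exact o2 _ e966 e1331.symm
          · exact o2 _ e960 e1333
          · exact n2 e1334
          · rcases htot x w2 with rfl | e1337 | e1369
            · exact n3 e1335
            · rcases hR _ _ _ _ e1337 e960 hyz with rfl | e1339 | e1367 | e1368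
              · exact has _ _ hxy hyz
              · rcases hR _ _ _ _ e1337 e966 h34 with rfl | e1341 | e1342 | e1366
                · exact has _ _ h34 e968
                · exact i3 _ e966 ((e1341.symm.trans e1339).trans e1335)
                · rcases hR _ _ _ _ hzx e968 h34 with rfl | e1363 | e1364 | e1365
                  · rcases hR _ _ _ _ h34 hzx hxy with rfl | e1349 | e1350 | e1351
                    · exact n1 e1331.symm
                    · exact o3 _ h34 e1349
                    · exact n3 e1350.symm
                    · rcases htot w1 w3 with rfl | e1353 | e1358
                      · exact o1 _ h34 e1351
                      · rcases hR _ _ _ _ e1353 h34 hzx with rfl | e1355 | e1356 | e1357
                        · exact o1 _ hxy rfl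
                        · exact o1 _ e1353 (e1355.trans e1351)
                        · exact n3 (e1351.symm.trans e1356)
                        · exact i3 _ e1353 e1357
                      · rcases hR _ _ _ _ e1337 e966 e1358 with rfl | e1360 | e1361 | e1362
                        · exact has _ _ e968 e1358
                        · exact n3 ((((e1351.symm.trans e1342.symm).trans e1360.symm).trans e1339).trans e1335)
                        · exact i1 _ e1358 ((e1361.symm.trans e1342).trans e1351)
                        · exact o3 _ e1358 ((e1362.symm.trans e1339).trans e1335)
                  · exact n2 (e1331.trans e1363.symm)
                  · exact o2 _ e966 ((e1342.trans e1364.symm).trans e1331.symm)
                  · exact o3 _ h34 e1365.symm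
                · exact o3 _ h34 ((e1366.symm.trans e1339).trans e1335)
              · exact n2 (e1367.symm.trans e1335)
              · exact i2 _ e1337 e1368
            · rcases hR _ _ _ _ e1369 hxy hyz with rfl | e1371 | e1398 | e1399
              · exact has _ _ hyz e960
              · rcases hR _ _ _ _ h22 e1369 e968 with rfl | e1373 | e1396 | e1397
                · exact has _ _ h22 e966
                · rcases hR _ _ _ _ h22 e960 hyz with rfl | e1393 | e1394 | e1395
                  · rcases htot w1 w2 with rfl | e1383 | e1388
                    · exact i1 _ h22 (e1373.trans e1371)
                    · rcases hR _ _ _ _ e1383 e1369 e968 with rfl | e1385 | e1386 | e1387
                      · exact has _ _ e966 e1383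
                      · exact o1 _ e1383 (e1385.trans e1371)
                      · exact n1 ((e1371.symm.trans e1386).trans e1331.symm)
                      · exact i2 _ e1383 (e1387.trans e1331.symm)
                    · rcases hR _ _ _ _ hyz h22 e1388 with rfl | e1390 | e1391 | e1392
                      · exact i1 _ hxy rfl
                      · exact n1 ((e1371.symm.trans e1373.symm).trans e1390.symm)
                      · exact i1 _ e1388 ((e1391.symm.trans e1373).trans e1371)
                      · exact o2 _ e1388 e1392.symm
                  · exact n3 (((e1371.symm.trans e1373.symm).trans e1393).trans e1335)
                  · exact n2 (e1394.symm.trans e1335)
                  · exact n1 ((e1371.symm.trans e1373.symm).trans e1395)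
                · exact n1 ((e1371.symm.trans e1396).trans e1331.symm)
                · exact i2 _ h22 (e1397.trans e1331.symm)
              · exact n1 e1398
              · exact o2 _ e1369 e1399
      · rcases hR _ _ _ _ e960 hyz hzx with rfl | e1402 | e1403 | e1404
        · exact has _ _ e966 e1400
        · exact o2 _ e960 e1402
        · exact n2 e1403
        · rcases htot y w3 with rfl | e1406 | e1487
          · exact has _ _ hxy e1400
          · rcases hR _ _ _ _ e960 e1406 e1400 with rfl | e1408 | e1409 | e1486
            · exact has _ _ e966 e1400
            · exact i3 _ e1406 (e1408.symm.trans e1404)
            · rcases hR _ _ _ _ e960 e1406 h34 with rfl | e1411 | e1412 | e1485
              · exact has _ _ h34 e966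
              · exact o3 _ e1400 ((e1409.symm.trans e1411.symm).trans e1404)
              · rcases hR _ _ _ _ hzx hxy e1406 with rfl | e1414 | e1415 | e1484
                · exact n2 e1409
                · exact n3 e1414.symm
                · rcases htot w1 w3 with rfl | e1417 | e1479
                  · exact o1 _ h34 (e1412.symm.trans e1415.symm)
                  · rcases htot z w3 with rfl | e1419 | e1470
                    · exact n1 e1415
                    · rcases hR _ _ _ _ e960 hyz e1419 with rfl | e1421 | e1422 | e1469
                      · exact has _ _ e960 e1406
                      · exact n2 (e1421.symm.trans e1404)
                      · rcases htot z w2 with rfl | e1424 | e1456
                        · exact has _ _ hyz e960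
                        · rcases hR _ _ _ _ hyz e1424 e966 with rfl | e1426 | e1427 | e1455
                          · exact has _ _ hxy e1400
                          · exact i2 _ e1424 e1426.symm
                          · rcases hR _ _ _ _ e1424 e960 e1406 with rfl | e1429 | e1430 | e1431
                            · exact has _ _ e966 e1424
                            · exact i3 _ e966 ((e1427.symm.trans e1429).trans e1404)
                            · exact n3 ((e1415.trans e1430.symm).trans e1404)
                            · rcases htot w1 w2 with rfl | e1433 | e1450
                              · exact o1 _ e966 ((e1427.symm.trans e1431).trans e1415.symm)
                              · rcases hR _ _ _ _ e1433 e960 e1406 with rfl | e1435 | e1448 | e1449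
                                · exact has _ _ e966 e1433
                                · rcases hR _ _ _ _ h12 e1433 e966 with rfl | e1437 | e1446 | e1447
                                  · exact has _ _ h12 e1417
                                  · rcases hR _ _ _ _ h12 e1417 e1400 with rfl | e1443 | e1444 | e1445
                                    · rcases hR _ _ _ _ e1419 e1400 h12 with rfl | e1440 | e1441 | e1442
                                      · exact has _ _ hzx h12
                                      · exact n1 (((e1415.trans e1409).trans e1440.symm).trans e1422.symm)
                                      · exact n3 (((((e1415.trans e1409).trans e1441).trans e1437).trans e1435).trans e1404)
                                      · exact n2 ((((e1422.trans e1442).trans e1437).trans e1435).trans e1404)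
                                    · exact i3 _ e1417 (((e1443.symm.trans e1437).trans e1435).trans e1404)
                                    · exact o1 _ e1417 ((e1444.trans e1409.symm).trans e1415.symm)
                                    · exact n3 (((((e1415.trans e1409).trans e1445.symm).trans e1437).trans e1435).trans e1404)
                                  · exact n3 (((((e1415.trans e1431.symm).trans e1427).trans e1446.symm).trans e1435).trans e1404)
                                  · exact i1 _ h12 (((e1447.trans e1427.symm).trans e1431).trans e1415.symm)
                                · exact n3 ((e1415.trans e1448.symm).trans e1404)
                                · exact o1 _ e1433 (e1449.trans e1415.symm)
                              · rcases hR _ _ _ _ hyz e1424 e1450 with rfl | e1452 | e1453 | e1454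
                                · exact i1 _ hxy rfl
                                · exact n1 ((e1415.trans e1431.symm).trans e1452.symm)
                                · exact i1 _ e1450 ((e1453.symm.trans e1431).trans e1415.symm)
                                · exact o2 _ e1450 e1454.symm
                          · exact o2 _ e966 e1455.symm
                        · rcases hR _ _ _ _ e1456 e1419 e1400 with rfl | e1458 | e1459 | e1460
                          · exact has _ _ hzx e1456
                          · exact o2 _ e1456 (e1458.trans e1422.symm)
                          · exact n1 (((e1415.trans e1409).trans e1459.symm).trans e1422.symm)
                          · rcases hR _ _ _ _ h22 e1456 e1419 with rfl | e1462 | e1467 | e1468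
                            · exact has _ _ h22 e966
                            · rcases hR _ _ _ _ h22 e960 hyz with rfl | e1464 | e1465 | e1466
                              · exact has _ _ h22 e1456
                              · exact n3 (((((e1415.trans e1409).trans e1460.symm).trans e1462.symm).trans e1464).trans e1404)
                              · exact n2 (e1465.symm.trans e1404)
                              · exact n1 ((((e1415.trans e1409).trans e1460.symm).trans e1462.symm).trans e1466)
                            · exact n1 ((((e1415.trans e1409).trans e1460.symm).trans e1467).trans e1422.symm)
                            · exact i2 _ h22 (e1468.trans e1422.symm)
                      · exact i3 _ e1419 (e1469.symm.trans e1404)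
                    · rcases hR _ _ _ _ e1470 hzx hxy with rfl | e1472 | e1473 | e1474
                      · exact has _ _ hxy e1400
                      · exact o3 _ e1470 e1472
                      · exact n3 e1473.symm
                      · rcases hR _ _ _ _ e1417 e1470 hzx with rfl | e1476 | e1477 | e1478
                        · exact has _ _ e1400 e1417
                        · exact o1 _ e1417 (e1476.trans e1474)
                        · exact n3 (e1474.symm.trans e1477)
                        · exact i3 _ e1417 e1478
                  · rcases hR _ _ _ _ e960 e1406 e1479 with rfl | e1481 | e1482 | e1483
                    · exact has _ _ e966 e1479
                    · exact n3 ((e1415.trans e1481.symm).trans e1404)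
                    · exact i1 _ e1479 (e1482.symm.trans e1415.symm)
                    · exact o3 _ e1479 (e1483.symm.trans e1404)
                · exact o3 _ h34 (e1412.symm.trans e1484.symm)
              · exact o3 _ h34 (e1485.symm.trans e1404)
            · exact o3 _ e1400 (e1486.symm.trans e1404)
          · rcases hR _ _ _ _ e1487 hyz hzx with rfl | e1489 | e1517 | e1518
            · exact hirr _ e1400
            · rcases hR _ _ _ _ h22 e966 e1487 with rfl | e1491 | e1515 | e1516
              · exact has _ _ h22 e960
              · rcases hR _ _ _ _ h22 e960 hyz with rfl | e1512 | e1513 | e1514
                · rcases hR _ _ _ _ hxy hyz h22 with rfl | e1498 | e1499 | e1500
                  · exact has _ _ e966 e1400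
                  · exact n1 e1498
                  · exact i2 _ h22 e1499.symm
                  · rcases htot w1 w2 with rfl | e1502 | e1507
                    · exact i1 _ h22 e1500.symm
                    · rcases hR _ _ _ _ e1502 e966 e1487 with rfl | e1504 | e1505 | e1506
                      · exact has _ _ e960 e1502
                      · exact o1 _ e1502 ((e1504.trans e1491.symm).trans e1500.symm)
                      · exact n1 (((e1500.trans e1491).trans e1505).trans e1489)
                      · exact i2 _ e1502 (e1506.trans e1489)
                    · rcases hR _ _ _ _ hyz h22 e1507 with rfl | e1509 | e1510 | e1511
                      · exact i1 _ hxy rfl
                      · exact n1 (e1500.trans e1509.symm)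
                      · exact i1 _ e1507 (e1510.symm.trans e1500.symm)
                      · exact o2 _ e1507 e1511.symm
                · exact i3 _ e966 ((e1491.symm.trans e1512).trans e1404)
                · exact n2 (e1513.symm.trans e1404)
                · exact i2 _ h22 e1514
              · exact o2 _ e966 (e1515.trans e1489)
              · exact i2 _ h22 (e1516.trans e1489)
            · exact n2 e1517
            · exact o3 _ e1487 e1518
    · rcases hR _ _ _ _ e1519 e960 hyz with rfl | e1521 | e1782 | e1783
      · exact o3 _ hzx rfl
      · rcases hR _ _ _ _ e960 hyz hzx with rfl | e1779 | e1780 | e1781
        · rcases htot w2 w1 with rfl | e1524 | e1678
          · exact o1 _ hxy rfl
          · rcases hR _ _ _ _ hyz hzx e1524 with rfl | e1526 | e1527 | e1677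
            · exact i1 _ hxy rfl
            · exact n2 e1526
            · rcases hR _ _ _ _ h31 h32 e1519 with rfl | e1533 | e1534 | e1672
              · rcases hR _ _ _ _ hzx h31 h32 with rfl | e1530 | e1531 | e1532
                · exact n3 e1521.symm
                · exact h3a e1530.symm
                · exact h33 e1531
                · exact i3 _ h32 e1532.symm
              · exact h33 e1533
              · rcases hR _ _ _ _ e1524 h14 h15 with rfl | e1540 | e1666 | e1667
                · rcases hR _ _ _ _ h14 h15 hxy with rfl | e1537 | e1538 | e1539
                  · exact n3 e1527.symm
                  · exact h16 e1537
                  · exact h1b e1538
                  · exact o1 _ h14 e1539
                · rcases htot w1 w3 with rfl | e1542 | e1599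
                  · exact has _ _ e1519 e1524
                  · rcases htot y w1 with rfl | e1566 | e1575
                    · exact n3 e1527.symm
                    · rcases hR _ _ _ _ e1566 e1542 e1519 with rfl | e1568 | e1573 | e1574
                      · exact hirr _ hxy
                      · rcases hR _ _ _ _ hxy e1566 h14 with rfl | e1570 | e1571 | e1572
                        · exact has _ _ h14 e1524
                        · exact o1 _ e1542 (e1568.symm.trans e1570.symm)
                        · exact i3 _ e1542 (((e1568.symm.trans e1571).trans e1540.symm).trans e1527.symm)
                        · exact n3 ((e1572.trans e1540.symm).trans e1527.symm)
                      · exact o1 _ e1542 (e1573.trans e1521)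
                      · exact i1 _ e1566 (e1574.trans e1521)
                    · rcases hR _ _ _ _ e1519 e1524 e1575 with rfl | e1577 | e1578 | e1598
                      · exact has _ _ hxy e1519
                      · exact n3 ((e1521.symm.trans e1577).trans e1527.symm)
                      · rcases htot z w3 with rfl | e1580 | e1589
                        · exact n3 e1521.symm
                        · rcases hR _ _ _ _ e1580 e1519 e1524 with rfl | e1582 | e1587 | e1588
                          · exact has _ _ hyz e1575
                          · rcases hR _ _ _ _ e1575 hyz e1580 with rfl | e1584 | e1585 | e1586
                            · exact has _ _ e1519 e1524
                            · exact n2 ((e1584.symm.trans e1578.symm).trans e1527.symm)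
                            · exact n1 ((e1521.symm.trans e1582.symm).trans e1585.symm)
                            · exact n3 ((((e1521.symm.trans e1582.symm).trans e1586.symm).trans e1578.symm).trans e1527.symm)
                          · exact n3 ((e1521.symm.trans e1587).trans e1527.symm)
                          · exact i3 _ e1580 (e1588.trans e1527.symm)
                        · rcases hR _ _ _ _ e1589 hzx hxy with rfl | e1591 | e1592 | e1593
                          · exact has _ _ hxy e1519
                          · exact o3 _ e1589 e1591
                          · exact n3 e1592.symm
                          · rcases hR _ _ _ _ e1524 e1542 e1589 with rfl | e1595 | e1596 | e1597
                            · exact has _ _ hxy hyz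
                            · exact i3 _ e1542 (e1595.symm.trans e1527.symm)
                            · exact o1 _ e1542 (e1596.trans e1593)
                            · exact n3 ((e1593.symm.trans e1597.symm).trans e1527.symm)
                      · exact o1 _ e1575 (e1598.symm.trans e1521)
                  · rcases hR _ _ _ _ h32 e1599 h14 with rfl | e1663 | e1664 | e1665
                    · rcases hR _ _ _ _ e1599 h14 h15 with rfl | e1602 | e1603 | e1604
                      · exact h1b (e1534.trans e1521)
                      · exact o3 _ e1599 ((e1602.trans e1540.symm).trans e1527.symm)
                      · exact h16 e1603
                      · rcases htot y w3 with rfl | e1610 | e1654
                        · exact has _ _ hxy e1519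
                        · rcases hR _ _ _ _ e1610 e1519 e1524 with rfl | e1612 | e1652 | e1653
                          · exact has _ _ e1599 e1610
                          · rcases hR _ _ _ _ e1610 e1599 h14 with rfl | e1649 | e1650 | e1651
                            · rcases hR _ _ _ _ e1599 h14 hyz with rfl | e1615 | e1616 | e1617
                              · exact n1 (e1521.symm.trans e1534.symm)
                              · exact h16 (e1615.symm.trans e1604)
                              · exact n2 ((e1616.symm.trans e1540.symm).trans e1527.symm)
                              · rcases hR _ _ _ _ hzx hxy h15 with rfl | e1646 | e1647 | e1648
                                · rcases htot p1 w3 with rfl | e1624 | e1637
                                  · rcases hR _ _ _ _ h14 h32 h11 with rfl | e1621 | e1622 | e1623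
                                    · exact hirr _ h12
                                    · exact n3 ((((e1521.symm.trans e1534.symm).trans e1621.symm).trans e1540.symm).trans e1527.symm)
                                    · exact h1a ((e1622.symm.trans e1534).trans e1521)
                                    · exact o3 _ h11 ((e1623.symm.trans e1540.symm).trans e1527.symm)
                                  · rcases hR _ _ _ _ e1624 e1519 e1524 with rfl | e1626 | e1635 | e1636
                                    · exact has _ _ h11 h12
                                    · rcases hR _ _ _ _ e1624 e1599 h14 with rfl | e1632 | e1633 | e1634
                                      · rcases hR _ _ _ _ hxy h11 h12 with rfl | e1629 | e1630 | e1631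
                                        · exact hirr _ e1524
                                        · exact h1a e1629.symm
                                        · exact h13 e1630
                                        · exact i1 _ h12 e1631.symm
                                      · exact n1 (((e1521.symm.trans e1626.symm).trans e1632).trans e1604)
                                      · exact n2 (((e1604.symm.trans e1633).trans e1540.symm).trans e1527.symm)
                                      · exact n3 ((((e1521.symm.trans e1626.symm).trans e1634).trans e1540.symm).trans e1527.symm)
                                    · exact n3 ((e1521.symm.trans e1635).trans e1527.symm)
                                    · exact i3 _ e1624 (e1636.trans e1527.symm)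
                                  · rcases hR _ _ _ _ h14 h32 e1637 with rfl | e1639 | e1640 | e1645
                                    · exact has _ _ h11 h12
                                    · exact n3 ((((e1521.symm.trans e1534.symm).trans e1639.symm).trans e1540.symm).trans e1527.symm)
                                    · rcases hR _ _ _ _ e1637 h11 h12 with rfl | e1642 | e1643 | e1644
                                      · exact has _ _ h14 h32
                                      · exact h1a (((e1642.symm.trans e1640.symm).trans e1534).trans e1521)
                                      · exact h13 e1643
                                      · exact i1 _ h12 (((e1644.symm.trans e1640.symm).trans e1534).trans e1521)
                                    · exact o3 _ e1637 ((e1645.symm.trans e1540.symm).trans e1527.symm)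
                                · exact n3 e1646.symm
                                · exact n1 ((e1647.trans e1604.symm).trans e1617)
                                · exact n2 ((e1617.symm.trans e1604).trans e1648.symm)
                            · exact h1b (((e1604.symm.trans e1649.symm).trans e1612).trans e1521)
                            · exact h16 (e1650.symm.trans e1604)
                            · exact n3 ((((e1521.symm.trans e1612.symm).trans e1651).trans e1540.symm).trans e1527.symm)
                          · exact n3 ((e1521.symm.trans e1652).trans e1527.symm)
                          · exact i3 _ e1610 (e1653.trans e1527.symm)
                        · rcases hR _ _ _ _ e1654 hyz hzx with rfl | e1656 | e1661 | e1662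
                          · exact hirr _ e1519
                          · rcases hR _ _ _ _ h14 h32 e1654 with rfl | e1658 | e1659 | e1660
                            · exact n3 e1527.symm
                            · exact n3 ((((e1521.symm.trans e1534.symm).trans e1658.symm).trans e1540.symm).trans e1527.symm)
                            · exact n1 (((e1521.symm.trans e1534.symm).trans e1659).trans e1656)
                            · exact n2 (((e1656.symm.trans e1660.symm).trans e1540.symm).trans e1527.symm)
                          · exact n2 e1661
                          · exact o3 _ e1654 e1662
                    · exact i1 _ e1599 ((e1663.symm.trans e1534).trans e1521)
                    · exact o3 _ e1599 ((e1664.trans e1540.symm).trans e1527.symm)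
                    · exact n3 ((((e1521.symm.trans e1534.symm).trans e1665).trans e1540.symm).trans e1527.symm)
                · exact h16 e1666
                · rcases hR _ _ _ _ e1519 e1524 h14 with rfl | e1669 | e1670 | e1671
                  · exact o3 _ h15 (e1667.symm.trans e1527.symm)
                  · exact n3 ((e1521.symm.trans e1669).trans e1527.symm)
                  · exact h16 (e1670.symm.trans e1667)
                  · exact o1 _ h14 (e1671.symm.trans e1521)
              · rcases hR _ _ _ _ h32 e1519 e1524 with rfl | e1674 | e1675 | e1676
                · exact i1 _ h31 (e1672.trans e1521)
                · exact h33 (e1672.trans e1674.symm)
                · exact n3 ((e1521.symm.trans e1675).trans e1527.symm)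
                · exact i3 _ h32 (e1676.trans e1527.symm)
            · exact o2 _ e1524 e1677.symm
          · rcases hR _ _ _ _ e1678 hxy hyz with rfl | e1776 | e1777 | e1778
            · rcases htot w1 w3 with rfl | e1681 | e1771
              · exact n3 e1521.symm
              · rcases hR _ _ _ _ h12 e1681 e1519 with rfl | e1683 | e1769 | e1770
                · exact has _ _ hzx h12
                · rcases hR _ _ _ _ h12 hzx hxy with rfl | e1766 | e1767 | e1768
                  · rcases hR _ _ _ _ e1681 e1519 h24 with rfl | e1686 | e1687 | e1765
                    · exact has _ _ hzx h24
                    · exact n1 ((e1521.symm.trans e1686.symm).trans e1683.symm)
                    · rcases hR _ _ _ _ hyz hzx h24 with rfl | e1762 | e1763 | e1764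
                      · rcases hR _ _ _ _ hzx hxy h25 with rfl | e1694 | e1695 | e1696
                        · exact h2b rfl
                        · exact n3 e1694.symm
                        · exact h26 e1695
                        · rcases htot w2 s1 with rfl | e1702 | e1753
                          · rcases hR _ _ _ _ h14 h15 hxy with rfl | e1699 | e1700 | e1701
                            · exact has _ _ hxy hzx
                            · exact h16 e1699
                            · exact h1b e1700
                            · exact o1 _ h14 e1701
                          · rcases hR _ _ _ _ e1681 e1519 e1702 with rfl | e1704 | e1705 | e1752
                            · exact has _ _ hzx e1702
                            · exact n1 ((e1521.symm.trans e1704.symm).trans e1683.symm)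
                            · rcases hR _ _ _ _ hyz hzx e1702 with rfl | e1749 | e1750 | e1751
                              · rcases hR _ _ _ _ hxy hyz h14 with rfl | e1708 | e1709 | e1748
                                · exact h1b rfl
                                · exact n1 e1708
                                · rcases hR _ _ _ _ h15 hyz hzx with rfl | e1711 | e1712 | e1713
                                  · exact n2 e1709
                                  · exact h16 (e1709.symm.trans e1711.symm)
                                  · exact n2 e1712
                                  · rcases htot q1 w3 with rfl | e1715 | e1724
                                    · exact has _ _ hxy e1519
                                    · rcases hR _ _ _ _ h15 e1715 e1519 with rfl | e1717 | e1718 | e1723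
                                      · exact n1 (e1713.trans e1709.symm)
                                      · exact i3 _ e1715 (e1717.symm.trans e1713)
                                      · rcases hR _ _ _ _ h14 h15 e1715 with rfl | e1720 | e1721 | e1722
                                        · exact hirr _ e1681
                                        · exact n2 ((e1709.trans e1720).trans e1713)
                                        · exact n3 (((e1521.symm.trans e1718.symm).trans e1721.symm).trans e1713)
                                        · exact n1 (((e1521.symm.trans e1718.symm).trans e1722.symm).trans e1709.symm)
                                      · exact n3 ((e1521.symm.trans e1723.symm).trans e1713)
                                    · rcases hR _ _ _ _ e1724 hyz hzx with rfl | e1726 | e1746 | e1747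
                                      · exact hirr _ e1519
                                      · rcases htot w2 s2 with rfl | e1728 | e1737
                                        · exact has _ _ hxy h25
                                        · rcases hR _ _ _ _ e1681 e1519 e1728 with rfl | e1730 | e1731 | e1736
                                          · exact has _ _ hzx e1728
                                          · exact n1 ((e1521.symm.trans e1730.symm).trans e1683.symm)
                                          · rcases hR _ _ _ _ hyz hzx e1728 with rfl | e1733 | e1734 | e1735
                                            · exact hirr _ h25
                                            · exact n2 e1733
                                            · exact n3 ((e1521.symm.trans e1731).trans e1734.symm)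
                                            · exact n1 ((e1521.symm.trans e1731).trans e1735.symm)
                                          · exact o2 _ e1728 (e1736.symm.trans e1683.symm)
                                        · rcases hR _ _ _ _ e1737 hxy hyz with rfl | e1739 | e1744 | e1745
                                          · exact n2 e1696.symm
                                          · rcases hR _ _ _ _ e1724 h25 e1737 with rfl | e1741 | e1742 | e1743
                                            · exact hirr _ e1519
                                            · exact n2 ((e1726.symm.trans e1741).trans e1696.symm)
                                            · exact n3 ((e1739.symm.trans e1742.symm).trans e1696.symm)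
                                            · exact n1 ((e1739.symm.trans e1743.symm).trans e1726)
                                          · exact n1 e1744
                                          · exact i2 _ e1737 e1745
                                      · exact n2 e1746
                                      · exact o3 _ e1724 e1747
                                · exact o1 _ h14 e1748.symm
                              · exact n2 e1749
                              · exact n3 ((e1521.symm.trans e1705).trans e1750.symm)
                              · exact n1 ((e1521.symm.trans e1705).trans e1751.symm)
                            · exact o2 _ e1702 (e1752.symm.trans e1683.symm)
                          · rcases hR _ _ _ _ e1753 hxy hyz with rfl | e1755 | e1760 | e1761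
                            · exact has _ _ h14 h15
                            · rcases hR _ _ _ _ h14 h15 e1753 with rfl | e1757 | e1758 | e1759
                              · exact has _ _ hxy hyz
                              · exact h16 e1757
                              · exact h1b (e1758.trans e1755)
                              · exact o1 _ h14 (e1759.trans e1755)
                            · exact n1 e1760
                            · exact i2 _ e1753 e1761
                      · exact n2 e1762
                      · exact n3 ((e1521.symm.trans e1687).trans e1763.symm)
                      · exact n1 ((e1521.symm.trans e1687).trans e1764.symm)
                    · exact o2 _ h24 (e1765.symm.trans e1683.symm)
                  · exact i3 _ e1681 (e1683.symm.trans e1766)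
                  · exact n3 e1767.symm
                  · exact i1 _ h12 e1768
                · exact o1 _ e1681 (e1769.trans e1521)
                · exact i1 _ h12 (e1770.trans e1521)
              · rcases hR _ _ _ _ e1771 hzx hxy with rfl | e1773 | e1774 | e1775
                · exact has _ _ hxy e1519
                · exact o3 _ e1771 e1773
                · exact n3 e1774.symm
                · exact i1 _ e1771 e1775
            · exact o1 _ e1678 e1776
            · exact n1 e1777
            · exact i2 _ e1678 e1778
        · exact o2 _ e960 e1779
        · exact n2 e1780
        · exact o3 _ e1519 (e1521.trans e1781)
      · exact o2 _ e960 e1782
      · exact i2 _ e1519 e1783

/-- In a tournament without a rainbow directed path with three arcs some colour has no bad vertex. -/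
theorem exists_good (adj : V → V → Prop) (c : V → V → C)
    (hirr : ∀ u, ¬ adj u u)
    (has : ∀ u v, adj u v → ¬ adj v u)
    (htot : ∀ u v, u = v ∨ adj u v ∨ adj v u)
    (hR : ∀ a b d e, adj a b → adj b d → adj d e → a = e ∨
      c a b = c b d ∨ c b d = c d e ∨ c a b = c d e) (a0 : C) :
    ∃ a, ∀ z, ¬ Bad adj c a z := by
  by_contra hcon
  push Not at hcon
  by_cases ht : ∃ x y z, adj x y ∧ adj y z ∧ adj z x ∧ c x y ≠ c y z ∧ c y z ≠ c z x ∧
      c x y ≠ c z x
  · obtain ⟨x, y, z, h1, h2, h3, n1, n2, n3⟩ := ht
    exact triangle_aux adj c hirr has htot hR hcon x y z h1 h2 h3 n1 n2 n3
  · refine no_triangle_aux adj c hirr has htot ?_ hcon a0
    intro a b d e h1 h2 h3
    rcases hR a b d e h1 h2 h3 with rfl | h
    · by_contra hn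
      push Not at hn
      exact ht ⟨a, b, d, h1, h2, h3, hn.1, hn.2.1, hn.2.2⟩
    · exact h

end Pool.Agent.FedTour
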