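import Pool.Agent.Lib.MP_fed786_co.H31Up

set_option autoImplicit false

namespace Pool.Agent.H31Fed
open Finset Pool.Agent.H66Fed

variable {V C : Type} [DecidableEq V] [DecidableEq C]
variable {adj : V → V → Prop} {col : V → V → C}

theorem RPath.trans {s v t : V} {S S' : Finset V} {A A' : Finset C} (p : RPath adj col s v S A)
    (q : RPath adj col v t S' A') (h : ∀ x ∈ S', x ∈ S → x = v) (hd : Disjoint A A') :
    RPath adj col s t (S ∪ S') (A ∪ A') := by
  induction q with
  | single => rwa [union_empty, union_eq_left.2 (singleton_subset_iff.2 p.end_mem)]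
  | @snoc t u S' A' q h1 h2 h3 ih =>
    have := (ih (fun x hx => h x (mem_insert_of_mem hx))
      (hd.mono_right (subset_insert _ _))).snoc h1 (by
        intro k
        rcases mem_union.1 k with k | k
        · exact h2 (h u (mem_insert_self _ _) k ▸ q.start_mem)
        · exact h2 k) (by
        intro k
        rcases mem_union.1 k with k | k
        · exact disjoint_left.1 hd k (mem_insert_self _ _)
        · exact h3 k)
    rwa [union_insert, union_insert]

theorem half_col {K r : ℕ} (hirr : ∀ v, ¬ adj v v) {V0 W W' : Finset V} {I A : Finset C} {v : V}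
    (h0 : ¬ HasP adj col V0 (K + 1)) (h1 : W ⊆ V0) (h2 : W' ⊆ W) (hh : Her adj col V0 I W)
    (hf : FreeS adj col I W) (hA : A.card = r + 1) (hI : I.card + (r + 1) = K)
    (hc : ∀ u ∈ W', ∀ v ∈ W', adj u v → col u v ∈ A) (hv : Full adj col W' r A v) :
    (I ∪ A).card = K ∧ ∃ H : Finset V, H.card ≤ (K + 1) ^ 2 ∧
      ∀ z ∈ V0 \ H, ∀ z' ∈ V0 \ H, adj v z → adj z z' → col z z' ∈ I ∪ A := by
  have key : ∀ Y ⊆ I, ∀ s P B, RPath adj col s v P B → P ⊆ W' →
      ∃ s' Q, RPath adj col s' v Q (Y ∪ B) ∧ Q ⊆ V0 := by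
    intro Y hY s P B p hP
    obtain ⟨s', Q, q1, q2, q3⟩ := hh s (h2 (hP p.start_mem)) Y hY
    exact ⟨s', _, RPath.trans q1 p (fun x hx hx' => q3 x hx' (h2 (hP hx)))
      ((hf.disj p (hP.trans h2)).symm.mono_left hY), union_subset q2 (hP.trans (h2.trans h1))⟩
  obtain ⟨⟨s, P, B, p1, p2, p3⟩, hv'⟩ := hv
  obtain rfl : B = A := eq_of_subset_of_card_le (path_cols hc p1 p2) (by omega)
  have hcard : (I ∪ B).card = K := by
    rw [card_union_of_disjoint (hf.disj p1 (p2.trans h2)).symm, hA, hI]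
  refine ⟨hcard, ?_⟩
  obtain ⟨s0, Q0, q1, q2⟩ := key I Subset.rfl s P B p1 p2
  have hall : ∀ x, ∃ s' Q, RPath adj col s' v Q ((I ∪ B).erase x) ∧ Q ⊆ V0 := by
    intro x
    rw [erase_union_distrib]
    by_cases k : x ∈ B
    · obtain ⟨s', P', B', r1, r2, r3, r4⟩ := hv' x k
      have : B' = B.erase x := eq_of_subset_of_card_le
        (subset_erase.2 ⟨path_cols hc r1 r2, r4⟩) (by rw [card_erase_of_mem k]; omega)
      exact key _ (erase_subset _ _) s' P' _ (this ▸ r1) r2
    · rw [erase_eq_of_notMem k]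
      exact key _ (erase_subset _ _) s P B p1 p2
  choose σ Q hQ using hall
  refine ⟨Q0 ∪ (I ∪ B).biUnion Q, ?_, ?_⟩
  · have k1 := card_biUnion_le_card_mul (I ∪ B) Q (K + 1) (fun x _ => by
      rw [RPath.card (hQ x).1, ← hcard]
      exact Nat.add_le_add_right card_erase_le _)
    have k2 := RPath.card q1
    have k3 := card_union_le Q0 ((I ∪ B).biUnion Q)
    rw [hcard] at k1 k2
    nlinarith
  intro z hz z' hz' k k'
  rw [mem_sdiff, mem_union, not_or] at hz hz'
  have k1 := ext_col h0 q1 q2 hcard hz.1 k hz.2.1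
  have k2 := (hQ (col v z)).1.snoc k (fun e => hz.2.2 (mem_biUnion.2 ⟨_, k1, e⟩))
    (notMem_erase _ _)
  rw [insert_erase k1] at k2
  refine ext_col h0 k2 (insert_subset hz.1 (hQ _).2) hcard hz'.1 k' fun e => ?_
  rcases mem_insert.1 e with e | e
  · rw [e] at k'; exact hirr _ k'
  · exact hz'.2.2 (mem_biUnion.2 ⟨_, k1, e⟩)

open Classical in
theorem out_mem2 {l c : ℕ} {F : ℝ} (hirr : ∀ v, ¬ adj v v) (hF : RB adj col l (c + 1) F)
    {V0 W : Finset V} {A : Finset C} (h0 : ¬ HasP adj col V0 (c + 1 + 1)) (h1 : W ⊆ V0)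
    (hA : A.card = c + 1) (hc : ∀ u ∈ W, ∀ v ∈ W, adj u v → col u v ∈ A) {y z : V} (hy : y ∈ V0)
    (hz : z ∈ V0) (hyz : adj y z) (hn : F * l ^ c + 1 < (W.filter fun u => adj u y).card) :
    col y z ∈ A := by
  by_contra k
  set N := (W.filter fun u => adj u y).erase z with hN
  have hNW : N ⊆ W := (erase_subset _ _).trans (filter_subset _ _)
  have h2 := hF c (by omega) N (fun t => if col t y = col y z then none else some (col t y)) (by
    intro s t P B p hP
    have hB := path_cols hc p (hP.trans hNW)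
    have hty : adj t y := (mem_filter.1 (mem_of_mem_erase (hP p.end_mem))).2
    have hyP : y ∉ P := fun e => hirr y (mem_filter.1 (mem_of_mem_erase (hP e))).2
    have hP0 := insert_subset hy (hP.trans (hNW.trans h1))
    refine ⟨fun x e e' => ?_, fun e => ?_, hA ▸ card_le_card hB⟩
    · simp only at e
      split_ifs at e with k1
      obtain rfl := Option.some.inj e
      have k2 : col y z ∉ insert (col t y) B := by
        intro k2
        rcases mem_insert.1 k2 with k2 | k2
        · exact k1 k2.symm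
        · exact k (hB k2)
      have := le_of_noP h0 ((p.snoc hty hyP e').snoc hyz (by
        intro k2
        rcases mem_insert.1 k2 with k2 | k2
        · rw [k2] at hyz; exact hirr _ hyz
        · exact notMem_erase _ _ (hP k2)) k2) (insert_subset hz hP0)
      rw [card_insert_of_notMem k2, card_insert_of_notMem e'] at this
      omega
    · simp only at e
      split_ifs at e with k1
      have e' : col t y ∉ B := fun k2 => k (k1 ▸ hB k2)
      have := le_of_noP h0 (p.snoc hty hyP e') hP0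
      rw [card_insert_of_notMem e'] at this
      omega)
  have h3 : (W.filter fun u => adj u y).card ≤ N.card + 1 := by
    have := pred_card_le_card_erase (s := W.filter fun u => adj u y) (a := z)
    rw [← hN] at this
    omega
  have h4 : ((W.filter fun u => adj u y).card : ℝ) ≤ N.card + 1 := by exact_mod_cast h3
  linarith

theorem bottom {l c r : ℕ} {F : ℝ} (h : Ctx adj col l (c + 1)) (hF : RB adj col l (c + 1) F)
    (hF' : RB (flip adj) (flip col) l (c + 1) F) {V0 W : Finset V} {I : Finset C}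
    (h0 : ¬ HasP adj col V0 (c + 1 + 1)) (nd : Node adj col V0 (c + 1) (r + 1) I W)
    (hr : 60 * (r + 1) ^ 2 ≤ l) (hW : l ^ (r + 1) < 2 * W.card)
    (hn : 4 * (F * l ^ c) + 2 * (c + 2) ^ 2 + 7 < V0.card) :
    ∃ A : Finset C, A.card = c + 1 ∧ NoTwo adj col A V0 := by
  classical
  have hrc : r ≤ c := by have := nd.card; omega
  have h0' : ¬ HasP (flip adj) (flip col) V0 (c + 1 + 1) := fun k => h0 k.of_reverse
  obtain ⟨A, W', w1, w2, w3, w4⟩ := dense2 h.hT h.irr (GR.lev h.gr) h.pos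
    (h.ih (r + 1) (by omega)) (h.ih r (by omega)) nd.no (by
      rw [pow_succ] at hW
      nlinarith [Nat.mul_le_mul_left (l ^ r) hr])
  have n1 := nonfull h (r := r) (by omega) W' A
  have n2 := nonfull h.flip (r := r) (by omega) W' A
  rw [w2] at n1 n2
  obtain ⟨v, v1, v2⟩ := exists_mem_notMem_of_card_lt_card
    (s := (W'.filter fun x => ¬ Full adj col W' r A x) ∪
      W'.filter fun x => ¬ Full (flip adj) (flip col) W' r A x) (t := W')
    ((card_union_le _ _).trans_lt (by
      have : (r + 1 + 1) * l ^ r = (r + 2) * l ^ r := rfl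
      omega))
  simp only [mem_union, mem_filter, not_or, not_and, not_not] at v2
  obtain ⟨a1, H, a2, a3⟩ := half_col h.irr h0 nd.sub w1 nd.her nd.free w2 nd.card w3 (v2.1 v1)
  obtain ⟨-, H', b2, b3⟩ := half_col h.flip.irr h0' nd.sub w1 nd.her' nd.free.flip w2 nd.card
    (fun u hu v hv k => w3 v hv u hu k) (v2.2 v1)
  obtain ⟨U, u1, u2, u3⟩ : ∃ U ⊆ V0, (∀ u ∈ U, ∀ v ∈ U, adj u v → col u v ∈ I ∪ A) ∧
      V0.card ≤ 2 * U.card + 2 * (c + 2) ^ 2 + 1 := by
    have k1 := split_at h.hT V0 v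
    have k2 := card_le_card_sdiff_add_card (s := V0.filter fun t => adj t v) (t := H')
    have k3 := card_le_card_sdiff_add_card (s := V0.filter fun t => flip adj t v) (t := H)
    have e : (c + 1 + 1) ^ 2 = (c + 2) ^ 2 := rfl
    by_cases k : ((V0.filter fun t => adj t v) \ H').card ≤
        ((V0.filter fun t => flip adj t v) \ H).card
    · refine ⟨(V0.filter fun t => flip adj t v) \ H, sdiff_subset.trans (filter_subset _ _),
        fun x hx y hy k' => ?_, by omega⟩
      rw [mem_sdiff, mem_filter] at hx hy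
      exact a3 x (mem_sdiff.2 ⟨hx.1.1, hx.2⟩) y (mem_sdiff.2 ⟨hy.1.1, hy.2⟩) hx.1.2 k'
    · refine ⟨(V0.filter fun t => adj t v) \ H', sdiff_subset.trans (filter_subset _ _),
        fun x hx y hy k' => ?_, by omega⟩
      rw [mem_sdiff, mem_filter] at hx hy
      exact b3 y (mem_sdiff.2 ⟨hy.1.1, hy.2⟩) x (mem_sdiff.2 ⟨hx.1.1, hx.2⟩) hy.1.2 k'
  refine ⟨I ∪ A, a1, fun x hx y hy z hz k1 k2 k3 k4 => ?_⟩
  have k5 : (U.card : ℝ) ≤ (U.filter fun t => adj t y).card +
      (U.filter fun t => flip adj t y).card + 1 := by exact_mod_cast split_at h.hT U y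
  have k6 : (V0.card : ℝ) ≤ 2 * U.card + 2 * (c + 2) ^ 2 + 1 := by exact_mod_cast u3
  by_cases k : F * l ^ c + 1 < (U.filter fun t => adj t y).card
  · exact k4 (out_mem2 h.irr hF h0 u1 a1 u2 hy hz k2 k)
  · exact k3 (out_mem2 h.flip.irr hF' h0' u1 a1 (fun u hu v hv k => u2 v hv u hu k) hy hx k1
      (by linarith))

theorem chain {l c M T m : ℕ} {F : ℝ} (h : Ctx adj col l (c + 1)) (hK : c + 1 ≤ M * l)
    (hM : 80 * M + 120 ≤ l) (hT : 1 ≤ T) (hTl : 60 * (225 * T) ^ 2 ≤ l) (hF0 : 0 ≤ F)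
    (hF : RB adj col l (c + 1) F) (hF' : RB (flip adj) (flip col) l (c + 1) F)
    (hm : 0 < m) (hml : 2 * m ≤ l)
    (hν : 1 ≤ ((l : ℝ) - 2 * m) * (1 / 2 * (1 - 1 / (m : ℝ)) ^ (c + 1)))
    (hn : 4 * (F * l ^ c) + 2 * (c + 2) ^ 2 + 7 ≤ l ^ (c + 1))
    (hfin : 2 * ((c + 1 : ℕ) * (4 * (2 * F + 1) / l + T / l ^ 2)) ≤ T * (1 - 2 / (l : ℝ)) ^ (c + 1))
    {V0 : Finset V} (h0 : ¬ HasP adj col V0 (c + 1 + 1)) : V0.card ≤ l ^ (c + 1) := by
  by_contra hcon
  have hcon' : (l : ℝ) ^ (c + 1) < V0.card := by exact_mod_cast not_le.1 hcon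
  have hl' : (8 : ℝ) ≤ l := by exact_mod_cast h.hl
  have hT' : (1 : ℝ) ≤ T := by exact_mod_cast hT
  set E : ℝ := 4 * (2 * F + 1) / l + T / l ^ 2 with hE
  set p : ℝ := 1 - 2 / l with hp
  have hE0 : 0 ≤ E := by positivity
  have hp0 : 0 ≤ p := by
    rw [hp, sub_nonneg, div_le_one (by linarith)]; linarith
  have hp1 : p ≤ 1 := by
    have : (0 : ℝ) ≤ 2 / l := by positivity
    rw [hp]; linarith
  have key : ∀ r, 1 ≤ r → r ≤ c + 1 → ∀ I W, Node adj col V0 (c + 1) r I W →
      (W.card : ℝ) ≤ (1 - (p ^ r / 2 - r * E / T)) * l ^ r := by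
    intro r
    induction r using Nat.strong_induction_on with
    | _ r ih =>
      intro h1 h2 I W nd
      by_cases hW : l ^ r < 2 * W.card
      swap
      · have k1 : 2 * (W.card : ℝ) ≤ l ^ r := by exact_mod_cast not_lt.1 hW
        have k2 := pow_le_one₀ hp0 hp1 (n := r)
        have k3 : 0 ≤ r * E / T := by positivity
        have k4 : (0 : ℝ) ≤ l ^ r := by positivity
        nlinarith
      by_cases hr : r ≤ 225 * T
      · obtain ⟨r, rfl⟩ : ∃ r', r = r' + 1 := ⟨r - 1, by omega⟩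
        obtain ⟨A, a1, a2⟩ := bottom h hF hF' h0 nd
          ((Nat.mul_le_mul_left 60 (Nat.pow_le_pow_left hr 2)).trans hTl) hW (by linarith)
        have := eg2 h.hT h.gr hm hml hν (c + 1) le_rfl A V0 ∅ a1 (disjoint_empty_right _)
          (inv_of_noP h0) (by rwa [union_empty])
        rw [card_empty, Nat.cast_zero, mul_zero, add_zero] at this
        linarith
      obtain ⟨r, rfl⟩ : ∃ r', r = r' + T := ⟨r - T, by omega⟩
      have k1 := block h hK hM hT h2 (by omega) (by nlinarith) hF hF' nd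
        (ih r (by omega) (by omega) (by omega)) hW
      refine k1.trans ?_
      rw [mul_comm]
      refine mul_le_mul_of_nonneg_right ?_ (by positivity)
      have k2 := pow_le_one₀ hp0 hp1 (n := T)
      have k3 : 0 ≤ r * E / T := by positivity
      have k4 : ((r + T : ℕ) : ℝ) * E / T = r * E / T + E := by
        push_cast; field_simp
      rw [k4, pow_add, add_assoc, ← hE, ← hp]
      nlinarith
  have k1 := key (c + 1) (by omega) le_rfl ∅ V0 (Node.top Subset.rfl h0)
  have k2 : ((c + 1 : ℕ) : ℝ) * E / T ≤ p ^ (c + 1) / 2 := by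
    rw [div_le_div_iff₀ (by linarith) (by norm_num)]
    linarith
  have k4 : (0 : ℝ) ≤ l ^ (c + 1) := by positivity
  nlinarith

end Pool.Agent.H31Fed
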