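import Pool.Agent.Lib.MP_fed786_co.H31Line

set_option autoImplicit false

namespace Pool.Agent.H31Fed
open Finset Pool.Agent.H66Fed

variable {V C : Type} [DecidableEq V] [DecidableEq C]
variable {adj : V → V → Prop} {col : V → V → C} {W : Finset V} {a : ℕ → C} {K l T : ℕ}
  {E F : V → Prop} {g : ℕ → V → ℕ} {I O : ℕ → Finset V}

/-- Points with coordinates in `M` on `D` and equal to `c` elsewhere. -/
def Box (K : ℕ) (D M : Finset ℕ) (c : Fin K → ℕ) : Finset (Fin K → ℕ) :=
  Fintype.piFinset fun i : Fin K => if (i : ℕ) ∈ D then M else {c i}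

theorem mem_box {D M : Finset ℕ} {c q : Fin K → ℕ} :
    q ∈ Box K D M c ↔ ∀ i : Fin K, ((i : ℕ) ∈ D → q i ∈ M) ∧ ((i : ℕ) ∉ D → q i = c i) := by
  rw [Box, Fintype.mem_piFinset]
  refine forall_congr' fun i => ?_
  by_cases k : (i : ℕ) ∈ D <;> simp [k]

theorem card_box {D : Finset ℕ} (hD : D ⊆ range K) (M : Finset ℕ) (c : Fin K → ℕ) :
    (Box K D M c).card = M.card ^ D.card := by
  rw [Box, Fintype.card_piFinset]
  have h1 : ∀ i : Fin K, (if (i : ℕ) ∈ D then M else {c i}).card =
      (fun n : ℕ => if n ∈ D then M.card else 1) i := by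
    intro i
    by_cases k : (i : ℕ) ∈ D <;> simp [k]
  rw [prod_congr rfl fun i _ => h1 i, Fin.prod_univ_eq_prod_range
    (fun n : ℕ => if n ∈ D then M.card else 1), prod_ite_mem, inter_eq_right.2 hD, prod_const]

theorem pt_inj_E (h : Base adj col W a K E F) (s : Sys adj col W a K l T E F g I O) {u v : V}
    (hu : u ∈ W) (hv : v ∈ W) (eu : E u) (ev : E v) (e : pt g K u = pt g K v) : u = v := by
  have key : ∀ u ∈ W, ∀ v ∈ W, E v → pt g K u = pt g K v → ¬ adj u v := by
    intro u hu v hv ev e huv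
    rcases h.hc u hu v hv huv with ⟨j, hj, k⟩ | k
    · exact s.prop j hj u v huv k (congrFun e ⟨j, hj⟩)
    · exact h.hEF v ev k.2.1
  by_contra k
  rcases h.hT u v k with k | k
  · exact key u hu v hv ev e k
  · exact key v hv u hu eu e.symm k

open Classical in
theorem beta_count (h : Base adj col W a K E F) (s : Sys adj col W a K l T E F g I O)
    (hl : 2 * T + 20 * K ≤ l) {D : Finset ℕ} (hD : D ⊆ range K) (hne : D.Nonempty) :
    (W.filter fun x => E x ∧ DD adj col a g K l T I x = D).card * (l - 2 * T) ^ D.card ≤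
      2 * ((Bad g K l (I K ∩ O K)).card * T ^ D.card) := by
  set μ := l - 2 * T with hμ
  have hM : (Ico T (l - T)).card = μ := by rw [Nat.card_Ico]; omega
  obtain ⟨d, hd⟩ : ∃ d, D.card = d + 1 := ⟨D.card - 1, by have := hne.card_pos; omega⟩
  have hdK : d + 1 ≤ K := by
    have := card_le_card hD
    rwa [card_range, hd] at this
  have main := card_mul_le_card_mul (s := W.filter fun x => E x ∧ DD adj col a g K l T I x = D)
    (t := Bad g K l (I K ∩ O K)) (fun x q => q ∈ Box K D (Ico T (l - T)) (pt g K x))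
    (m := μ ^ (d + 1) - (d + 1) * (10 * μ ^ d)) (n := T ^ (d + 1)) ?_ ?_
  · rw [hd]
    have h1 : μ ^ (d + 1) ≤ 2 * (μ ^ (d + 1) - (d + 1) * (10 * μ ^ d)) := by
      have : 2 * ((d + 1) * (10 * μ ^ d)) ≤ μ ^ (d + 1) := by
        rw [pow_succ]
        calc 2 * ((d + 1) * (10 * μ ^ d)) = μ ^ d * (20 * (d + 1)) := by ring
          _ ≤ μ ^ d * μ := Nat.mul_le_mul_left _ (by omega)
      omega
    calc _ ≤ (W.filter fun x => E x ∧ DD adj col a g K l T I x = D).card *
          (2 * (μ ^ (d + 1) - (d + 1) * (10 * μ ^ d))) := Nat.mul_le_mul_left _ h1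
      _ = 2 * ((W.filter fun x => E x ∧ DD adj col a g K l T I x = D).card *
          (μ ^ (d + 1) - (d + 1) * (10 * μ ^ d))) := by ring
      _ ≤ _ := Nat.mul_le_mul_left _ main
  · intro x hx
    rw [mem_filter] at hx
    obtain ⟨x1, x2, x3⟩ := hx
    set B := Box K D (Ico T (l - T)) (pt g K x) with hB
    let G : ℕ → Finset V := fun j => (I K ∩ O K).filter fun u =>
      pt g K u ∈ B ∧ ¬ Rich adj col (a j) g j (I j) u
    have hG : ∀ j ∈ D, ((G j).image (pt g K)).card ≤ 10 * μ ^ d := by
      intro j hj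
      have hjK : j < K := mem_range.1 (hD hj)
      refine card_image_le.trans ?_
      have hc : (Box K (D.erase j) (Ico T (l - T))
          (Function.update (pt g K x) ⟨j, hjK⟩ 0)).card = μ ^ d := by
        rw [card_box ((erase_subset _ _).trans hD), hM, card_erase_of_mem hj, hd]
        rfl
      rw [← hc]
      refine card_le_mul_card_image_of_maps_to
        (f := fun u => Function.update (pt g K u) ⟨j, hjK⟩ 0) ?_ 10 ?_
      · intro u hu
        have hu' := mem_box.1 (mem_filter.1 hu).2.1
        rw [mem_box]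
        intro i
        by_cases e : i = ⟨j, hjK⟩
        · subst e
          simp
        · have e' : (i : ℕ) ≠ j := fun k => e (Fin.ext k)
          simp only [Function.update_of_ne e, mem_erase, ne_eq, e', not_false_eq_true, true_and]
          exact hu' i
      · intro b _
        refine ln_ten h s.prop hjK (s.IW hjK.le) (fun u hu => s.IK hjK.le
          (mem_inter.1 (mem_filter.1 (mem_filter.1 hu).1).1).1)
          (fun u hu => (mem_filter.1 (mem_filter.1 hu).1).2.2) ?_
        intro u hu v hv i hi e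
        have := congrFun (((mem_filter.1 hv).2).trans ((mem_filter.1 hu).2).symm) ⟨i, hi⟩
        simpa only [pt, Function.update_of_ne
          (show (⟨i, hi⟩ : Fin K) ≠ ⟨j, hjK⟩ from fun k => e (congrArg Fin.val k))] using this
    have hU : (D.biUnion fun j => (G j).image (pt g K)).card ≤ (d + 1) * (10 * μ ^ d) := by
      rw [← hd]
      exact card_biUnion_le_card_mul _ _ _ hG
    have hBc : B.card = μ ^ (d + 1) := by rw [hB, card_box hD, hM, hd]
    have := le_card_sdiff (D.biUnion fun j => (G j).image (pt g K)) B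
    refine le_trans (by omega) (this.trans (card_le_card ?_))
    intro q hq
    rw [mem_sdiff] at hq
    rw [mem_bipartiteAbove]
    have hq' := mem_box.1 hq.1
    refine ⟨mem_sdiff.2 ⟨Fintype.mem_piFinset.2 fun i => ?_, fun k => hq.2 ?_⟩, hq.1⟩
    · rw [mem_range]
      by_cases k : (i : ℕ) ∈ D
      · have := mem_Ico.1 ((hq' i).1 k)
        omega
      · rw [(hq' i).2 k]; exact s.lt i i.2 x
    · obtain ⟨u, hu, rfl⟩ := mem_image.1 k
      obtain ⟨j, j1, j2⟩ := box_poor h s (by omega) x1 x2 (x3 ▸ hne) hu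
        (fun i hi => by
          rw [x3] at hi
          have := mem_Ico.1 ((hq' ⟨i, mem_range.1 (hD hi)⟩).1 hi)
          simp only [pt] at this
          omega)
        (fun i hi k => by
          rw [x3] at k
          exact (hq' ⟨i, hi⟩).2 k)
      rw [x3] at j1
      exact mem_biUnion.2 ⟨j, j1, mem_image_of_mem _ (mem_filter.2 ⟨hu, hq.1, j2⟩)⟩
  · intro q _
    have hc : (Box K D (Ico (l - T) l) q).card = T ^ (d + 1) := by
      rw [card_box hD, Nat.card_Ico, hd]
      congr 1
      omega
    rw [← hc]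
    refine card_le_card_of_injOn (pt g K) ?_ ?_
    · intro x hx
      rw [mem_coe, mem_bipartiteBelow, mem_filter] at hx
      obtain ⟨⟨x1, x2, x3⟩, x4⟩ := hx
      rw [mem_coe, mem_box]
      intro i
      refine ⟨fun k => ?_, fun k => (((mem_box.1 x4) i).2 k).symm⟩
      rw [← x3, DD, mem_filter, High, mem_filter] at k
      have := s.lt i i.2 x
      have := k.1.2
      rw [mem_Ico]
      simp only [pt]
      omega
    · intro u hu v hv e
      rw [mem_coe, mem_bipartiteBelow, mem_filter] at hu hv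
      exact pt_inj_E h s hu.1.1 hv.1.1 hu.1.2.1 hv.1.2.1 e

theorem pow_bound {t : ℚ} (ht : 0 ≤ t) (n : ℕ) : (1 + t) ^ n * (1 - n * t) ≤ 1 := by
  induction n with
  | zero => simp
  | succ n ih =>
    have h1 : 0 ≤ (1 + t) ^ n := by positivity
    have h2 : (1 + t) * (1 - ((n + 1 : ℕ) : ℚ) * t) ≤ 1 - n * t := by
      push_cast
      nlinarith [mul_nonneg ht ht, mul_nonneg (Nat.cast_nonneg (α := ℚ) n) (mul_nonneg ht ht)]
    calc (1 + t) ^ (n + 1) * (1 - ((n + 1 : ℕ) : ℚ) * t)
        = (1 + t) ^ n * ((1 + t) * (1 - ((n + 1 : ℕ) : ℚ) * t)) := by ring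
      _ ≤ (1 + t) ^ n * (1 - n * t) := mul_le_mul_of_nonneg_left h2 h1
      _ ≤ 1 := ih

open Classical in
theorem beta_total (h : Base adj col W a K E F) (s : Sys adj col W a K l T E F g I O)
    (hK : 0 < K) (hT : 3 ≤ T) (hl : 2 * T + 9 * K * T ≤ l) :
    4 * (W.filter fun x => E x ∧ (DD adj col a g K l T I x).Nonempty).card ≤
      (Bad g K l (I K ∩ O K)).card := by
  have hl' : 2 * T + 20 * K ≤ l := by nlinarith
  set b := (Bad g K l (I K ∩ O K)).card with hb
  set μ := l - 2 * T with hμ
  have hμ1 : 9 * K * T ≤ μ := by omega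
  have hμ0 : (0 : ℚ) < μ := by
    have : 0 < μ := by omega
    exact_mod_cast this
  set t : ℚ := T / μ with ht
  have ht0 : 0 ≤ t := by positivity
  have hKt : (K : ℚ) * t ≤ 1 / 9 := by
    rw [ht, ← mul_div_assoc, div_le_div_iff₀ hμ0 (by norm_num)]
    have : ((9 * K * T : ℕ) : ℚ) ≤ μ := by exact_mod_cast hμ1
    push_cast at this
    linarith
  have hpow : (1 + t) ^ K ≤ 9 / 8 := by
    have h1 := pow_bound ht0 K
    have h2 : 0 ≤ (1 + t) ^ K := by positivity
    nlinarith
  have hsum : ∑ D ∈ (range K).powerset.erase ∅, t ^ D.card ≤ 1 / 8 := by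
    have h1 : ∑ D ∈ (range K).powerset, t ^ D.card = (1 + t) ^ K := by
      have := prod_one_add (f := fun _ : ℕ => t) (range K)
      simp only [prod_const, card_range] at this
      exact this.symm
    have h2 := add_sum_erase (range K).powerset (fun D => t ^ D.card) (empty_mem_powerset _)
    simp only [card_empty, pow_zero] at h2
    linarith
  have h1 : (W.filter fun x => E x ∧ (DD adj col a g K l T I x).Nonempty).card ≤
      ∑ D ∈ (range K).powerset.erase ∅,
        (W.filter fun x => E x ∧ DD adj col a g K l T I x = D).card := by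
    refine le_trans (card_le_card ?_) card_biUnion_le
    intro x hx
    rw [mem_filter] at hx
    refine mem_biUnion.2 ⟨_, mem_erase.2 ⟨hx.2.2.ne_empty, mem_powerset.2 ?_⟩,
      mem_filter.2 ⟨hx.1, hx.2.1, rfl⟩⟩
    exact (filter_subset _ _).trans (filter_subset _ _)
  have h2 : ∀ D ∈ (range K).powerset.erase ∅,
      ((W.filter fun x => E x ∧ DD adj col a g K l T I x = D).card : ℚ) ≤ 2 * b * t ^ D.card := by
    intro D hD
    rw [mem_erase, mem_powerset] at hD
    have := beta_count h s hl' hD.2 (nonempty_iff_ne_empty.2 hD.1)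
    rw [ht, div_pow, ← mul_div_assoc, le_div_iff₀ (by positivity), mul_assoc]
    exact_mod_cast this
  have h3 := sum_le_sum h2
  rw [← mul_sum] at h3
  have h4 : ((W.filter fun x => E x ∧ (DD adj col a g K l T I x).Nonempty).card : ℚ) ≤
      ∑ D ∈ (range K).powerset.erase ∅,
        ((W.filter fun x => E x ∧ DD adj col a g K l T I x = D).card : ℚ) := by
    exact_mod_cast h1
  have h5 : (0 : ℚ) ≤ b := Nat.cast_nonneg _
  have h6 : (4 : ℚ) * (W.filter fun x => E x ∧ (DD adj col a g K l T I x).Nonempty).card ≤ b := by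
    nlinarith
  exact_mod_cast h6

theorem bad_card (h : Base adj col W a K E F) (s : Sys adj col W a K l T E F g I O)
    (hl : 2 * T ≤ l) : (Bad g K l (I K ∩ O K)).card + (I K ∩ O K).card = l ^ K := by
  have h1 : (I K ∩ O K).image (pt g K) ⊆ Fintype.piFinset (fun _ : Fin K => range l) := by
    intro q hq
    obtain ⟨u, _, rfl⟩ := mem_image.1 hq
    exact Fintype.mem_piFinset.2 fun i => mem_range.2 (s.lt i i.2 u)
  rw [← card_image_of_injOn (pt_inj h s hl), Bad, card_sdiff_add_card_eq_card h1,
    Fintype.card_piFinset]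
  simp

theorem one_side (h : Base adj col W a K E F) (hK : 0 < K)
    (s : Sys adj col W a K l (40 * K + 14) E F g I O)
    (hl : 2 * (40 * K + 14) + 9 * K * (40 * K + 14) ≤ l) :
    ∃ P : Finset V, (∀ x ∈ W, x ∉ I K → x ∈ P ∨ (F x ∧ x ∉ O K)) ∧
      2 * P.card + (I K ∩ O K).card ≤ l ^ K := by
  classical
  set T := 40 * K + 14 with hT
  have hl3 : 3 * T ≤ l := by nlinarith
  let Pl : ℕ → Finset V := fun j => (I j).filter fun x => x ∉ I (j + 1) ∧ ¬ (F x ∧ x ∉ O K) ∧
      ¬ (E x ∧ (DD adj col a g K l T I x).Nonempty)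
  refine ⟨(range K).biUnion Pl ∪ W.filter fun x => E x ∧ (DD adj col a g K l T I x).Nonempty,
    ?_, ?_⟩
  · intro x hx hx'
    by_contra k
    rw [not_or, mem_union, not_or] at k
    have key : ∀ j ≤ K, x ∈ I j := by
      intro j
      induction j with
      | zero => intro _; rw [s.I0]; exact hx
      | succ j ih =>
        intro hj
        by_contra k'
        exact k.1.1 (mem_biUnion.2 ⟨j, mem_range.2 hj, mem_filter.2 ⟨ih (by omega), k', k.2,
          fun k2 => k.1.2 (mem_filter.2 ⟨hx, k2⟩)⟩⟩)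
    exact hx' (key K le_rfl)
  · have h1 := beta_total h s hK (by omega) hl
    have h2 := bad_card h s (by omega)
    set b := (Bad g K l (I K ∩ O K)).card with hb
    have h3 : 4 * ((range K).biUnion Pl).card ≤ b := by
      have h4 : ∑ j ∈ range K, (Pl j).card * (T - 14) ≤ ∑ _j ∈ range K, b * 10 :=
        sum_le_sum fun j hj => plain_count h s hl3 (mem_range.1 hj)
      rw [← sum_mul, sum_const, card_range, smul_eq_mul, show T - 14 = 40 * K by omega] at h4
      have h5 : ((range K).biUnion Pl).card ≤ ∑ j ∈ range K, (Pl j).card := card_biUnion_le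
      apply Nat.le_of_mul_le_mul_left _ (show 0 < 10 * K by omega)
      nlinarith
    have := card_union_le ((range K).biUnion Pl)
      (W.filter fun x => E x ∧ (DD adj col a g K l T I x).Nonempty)
    omega

theorem endgame (h : Base adj col W a K E F) (hK : 0 < K) (hGR : GR adj col l)
    (hl : 2 * (40 * K + 14) + 9 * K * (40 * K + 14) ≤ l) : W.card ≤ l ^ K := by
  obtain ⟨g, I, O, s⟩ := exists_sys hGR W a (40 * K + 14) h.hEF K
  obtain ⟨P, p1, p2⟩ := one_side h hK s hl
  obtain ⟨P', q1, q2⟩ := one_side h.flip hK s.flip hl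
  rw [inter_comm] at q2
  have h1 : W ⊆ (I K ∩ O K) ∪ (P ∪ P') := by
    intro x hx
    simp only [mem_union, mem_inter]
    by_cases k1 : x ∈ I K
    · by_cases k2 : x ∈ O K
      · exact Or.inl ⟨k1, k2⟩
      · rcases q1 x hx k2 with k | k
        · exact Or.inr (Or.inr k)
        · exact (k.2 k1).elim
    · rcases p1 x hx k1 with k | k
      · exact Or.inr (Or.inl k)
      · rcases q1 x hx k.2 with k' | k'
        · exact Or.inr (Or.inr k')
        · exact (h.hEF x k'.1 k.1).elim
  have h2 := card_le_card h1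
  have h3 := card_union_le (I K ∩ O K) (P ∪ P')
  have h4 := card_union_le P P'
  omega

end Pool.Agent.H31Fed
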