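import Pool.Agent.Lib.MP_fed786_co.H31Dense

set_option autoImplicit false

namespace Pool.Agent.H31Fed
open Finset Pool.Agent.H66Fed

variable {V C : Type} [DecidableEq V] [DecidableEq C]
variable {adj : V → V → Prop} {col : V → V → C}

/-- After an arc from `G` with colour outside `R`, no second new colour can follow. -/
def TS (adj : V → V → Prop) (col : V → V → C) (S G : Finset V) (R : Finset C) : Prop :=
  ∀ x ∈ G, ∀ y ∈ S, ∀ z ∈ S, adj x y → adj y z → col x y ∉ R → col y z ∉ R → col y z = col x y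

omit [DecidableEq V] in
theorem eps_levels {l : ℕ} (hGR : GR adj col l) {S G : Finset V} {R : Finset C} (hG : G ⊆ S)
    (h : TS adj col S G R) : ∃ ε : V → ℕ, (∀ v, ε v < l + 2) ∧
      ∀ u ∈ G, ∀ v ∈ G, adj u v → ε u = ε v → col u v ∈ R := by
  classical
  choose F F1 F2 using GR.lev hGR
  let ε : V → ℕ := fun u => if k : ∃ w ∈ G, adj u w ∧ col u w ∉ R then
    (if ∃ w ∈ G, adj w u ∧ col w u ∉ R then F (col u k.choose) u else l) else l + 1
  refine ⟨ε, fun v => ?_, fun u hu v hv k e => ?_⟩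
  · simp only [ε]
    split_ifs with k _
    · have := F1 (col v k.choose) v
      omega
    · omega
    · omega
  by_contra k'
  have k1 : ∃ w ∈ G, adj u w ∧ col u w ∉ R := ⟨v, hv, k, k'⟩
  have k2 : ∃ w ∈ G, adj w v ∧ col w v ∉ R := ⟨u, hu, k, k'⟩
  simp only [ε, dif_pos k1, if_pos k2] at e
  have a1 := F1 (col u k1.choose) u
  split_ifs at e with k3 k4 k4
  · obtain ⟨w, w1, w2, w3⟩ := k3
    obtain ⟨b1, b2, b3⟩ := k1.choose_spec
    obtain ⟨d1, d2, d3⟩ := k4.choose_spec
    rw [h w w1 u (hG hu) _ (hG b1) w2 b2 w3 b3, ← h w w1 u (hG hu) v (hG hv) w2 k w3 k',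
      h u hu v (hG hv) _ (hG d1) k d2 k' d3] at e
    exact F2 _ u v k rfl e
  · omega
  · have := F1 (col v k4.choose) v
    omega
  · omega

open Classical in
theorem no_five {l K q : ℕ} (h : Ctx adj col l K) (hq : q ≤ K) {S S0 G L : Finset V}
    {R : Finset C} (hS : ¬ HasP adj col S (q + 6)) (h0 : S0 ⊆ S) (hG : G ⊆ S0)
    (hts : TS adj col S0 G R) (hL : L ⊆ S) (hf : FreeS adj col R L)
    (h1 : ∀ x ∈ L, ∀ z ∈ G, adj z x → col z x ∈ R)
    (h2 : ∀ x ∈ L, (l + 2) * (R.card * l ^ q) + 6 < (G.filter fun z => adj z x).card) :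
    ¬ HasP adj col L 5 := by
  rintro ⟨x, t, Q, B, p1, p2, p3⟩
  obtain ⟨ε, e1, e2⟩ := eps_levels h.gr hG hts
  have hx := p2 p1.start_mem
  set N := (G.filter fun z => adj z x) \ Q with hN
  have hNc : (l + 2) * (R.card * l ^ q) < N.card := by
    have k1 := le_card_sdiff Q (G.filter fun z => adj z x)
    have k2 := RPath.card p1
    have k3 := h2 x hx
    rw [← hN] at k1
    omega
  obtain ⟨i, _, hi⟩ : ∃ i ∈ range (l + 2), R.card * l ^ q < (N.filter fun z => ε z = i).card := by
    by_contra k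
    push Not at k
    have := card_le_mul_card_image_of_maps_to (s := N) (t := range (l + 2)) (f := ε)
      (fun z _ => mem_range.2 (e1 z)) _ k
    rw [card_range, mul_comm] at this
    omega
  set N' := N.filter fun z => ε z = i with hN'
  have hm : ∀ z ∈ N', z ∈ G ∧ adj z x ∧ z ∉ Q ∧ ε z = i := by
    intro z hz
    rw [hN', mem_filter, hN, mem_sdiff, mem_filter] at hz
    exact ⟨hz.1.1.1, hz.1.1.2, hz.1.2, hz.2⟩
  have k1 := card_biUnion_le_card_mul R (fun c => N'.filter fun x => ¬ EndF adj col N' q c x) _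
    (fun c _ => nonendF h.pos (GR.lev h.gr) (h.ih q hq) N' c)
  obtain ⟨z, z1, z2⟩ := exists_mem_notMem_of_card_lt_card (lt_of_le_of_lt k1 hi)
  simp only [mem_biUnion, mem_filter, not_exists, not_and, not_not] at z2
  have hb := h1 x hx z (hm z z1).1 (hm z z1).2.1
  obtain ⟨s, P, B', q1, q2, q3, q4⟩ := z2 _ hb z1
  have hB' : B' ⊆ R := path_cols (N := N')
    (fun u hu v hv k => e2 u (hm u hu).1 v (hm v hv).1 k ((hm u hu).2.2.2.trans (hm v hv).2.2.2.symm))
    q1 q2
  have hd := hf.disj p1 p2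
  have hd' : Disjoint B' B := (hd.mono_right hB').symm
  have hb' : col z x ∉ B := fun k => disjoint_left.1 hd k hb
  refine hS ⟨s, t, _, _, RPath.append q1 (hm z z1).2.1 p1
    (disjoint_left.2 fun u hu => (hm u (q2 hu)).2.2.1) q4 hb' hd', ?_, ?_⟩
  · exact union_subset (fun u hu => h0 (hG (hm u (q2 hu)).1)) (p2.trans hL)
  · rw [card_insert_of_notMem (by simp [q4, hb']), card_union_of_disjoint hd', q3, p3]

theorem type_x {l K ρ : ℕ} (h : Ctx adj col l K) {S X : Finset V} (hS : ¬ HasP adj col S (ρ + 1))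
    (hX : X ⊆ S) (y : V → C) (h1 : ∀ u ∈ X, ∀ v ∈ X, adj u v → col u v = y u)
    (h2 : ∀ x ∈ X, End (flip adj) (flip col) S ρ x) : X.card ≤ 2 * (ρ * l + (ρ + 1)) + 1 := by
  classical
  apply tour_deg h.hT
  intro x hx
  obtain ⟨s, Q, B, p1, p2, p3⟩ := h2 x hx
  have k1 : ∀ b ∈ B, (X.filter fun u => y u = b).card ≤ l := by
    intro b _
    obtain ⟨f, f1, f2⟩ := GR.lev h.gr b
    rw [← card_range l]
    refine card_le_card_of_injOn f (fun u _ => by simpa using f1 u) ?_
    intro u hu v hv e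
    rw [mem_coe, mem_filter] at hu hv
    by_contra k
    rcases h.hT u v k with k | k
    · exact f2 u v k ((h1 u hu.1 v hv.1 k).trans hu.2) e
    · exact f2 v u k ((h1 v hv.1 u hu.1 k).trans hv.2) e.symm
  have k2 := card_biUnion_le_card_mul B _ _ k1
  have k3 : (X.filter fun u => adj u x) ⊆ (B.biUnion fun b => X.filter fun u => y u = b) ∪ Q := by
    intro u hu
    rw [mem_filter] at hu
    by_cases e : u ∈ Q
    · exact mem_union_right _ e
    refine mem_union_left _ (mem_biUnion.2 ⟨y u, ?_, mem_filter.2 ⟨hu.1, rfl⟩⟩)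
    rw [← h1 u hu.1 x hx hu.2]
    exact ext_col (adj := flip adj) (col := flip col) (fun k => hS k.of_reverse) p1 p2 p3
      (hX hu.1) hu.2 e
  have k4 := (card_le_card k3).trans (card_union_le _ _)
  have k5 := RPath.card p1
  rw [p3] at k2 k5
  omega

open Classical in
theorem core_of {l K q : ℕ} (h : Ctx adj col l K) (hq : q + 5 ≤ K) (hK : K ≤ l ^ 2)
    {S P G S' : Finset V} {R : Finset C} (hS : ¬ HasP adj col S (q + 6)) (hG : G ⊆ S \ P)
    (hP : P.card ≤ K) (hts : TS adj col (S \ P) G R) (hS' : S' ⊆ S)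
    (h1 : ∀ x ∈ S', End (flip adj) (flip col) S (q + 5) x)
    (h2 : ∀ x ∈ S', (l + 2) * (R.card * l ^ q) + 6 < (G.filter fun z => adj z x).card) :
    Core adj col S' R (l ^ 5) := by
  intro L hL hf
  set X := (L \ P).filter fun x => ∃ z ∈ G, adj z x ∧ col z x ∉ R with hX
  have hXL : X ⊆ L \ P := filter_subset _ _
  have hLP : L \ P ⊆ S \ P := sdiff_subset_sdiff (hL.trans hS') Subset.rfl
  let y : V → C := fun x => if k : ∃ z ∈ G, adj z x ∧ col z x ∉ R then col k.choose x else col x x
  have c1 := type_x h (ρ := q + 5) hS (X := X) (hXL.trans (hLP.trans sdiff_subset)) y (by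
      intro u hu v hv k
      have k1 := (mem_filter.1 hu).2
      obtain ⟨b1, b2, b3⟩ := k1.choose_spec
      simp only [y, dif_pos k1]
      exact hts _ b1 u (hLP (hXL hu)) v (hLP (hXL hv)) b2 k b3
        (hf u (mem_sdiff.1 (hXL hu)).1 v (mem_sdiff.1 (hXL hv)).1 k))
    (fun x hx => h1 x (hL (mem_sdiff.1 (hXL hx)).1))
  have hs : (L \ P) \ X ⊆ L := sdiff_subset.trans sdiff_subset
  have c2 := h.ih' (r := 4) (by omega) (no_five h (by omega) hS sdiff_subset hG hts
    (L := (L \ P) \ X) (hs.trans (hL.trans hS')) (hf.mono Subset.rfl hs) (by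
      intro x hx z hz k
      rw [mem_sdiff] at hx
      by_contra k'
      exact hx.2 (mem_filter.2 ⟨hx.1, z, hz, k, k'⟩))
    (fun x hx => h2 x (hL (hs hx))))
  have c3 := card_le_card_sdiff_add_card (s := L) (t := P)
  have c4 := card_le_card_sdiff_add_card (s := L \ P) (t := X)
  have hl := h.hl
  have c5 : (q + 5) * l ≤ l ^ 2 * l := Nat.mul_le_mul_right _ (hq.trans hK)
  have c6 : 8 * l ^ 2 ≤ l ^ 2 * l := by nlinarith
  have c7 : 8 * (l ^ 2 * l) ≤ l ^ 4 := by
    rw [show l ^ 4 = l ^ 2 * l * l by ring]; nlinarith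
  have c8 : 8 * l ^ 4 ≤ l ^ 5 := by
    rw [show l ^ 5 = l ^ 4 * l by ring]; nlinarith
  have c9 : 1 ≤ l ^ 2 := Nat.one_le_pow _ _ h.pos
  omega

open Classical in
theorem good_class {l K q M : ℕ} (h : Ctx adj col l K) (hq : q + 5 ≤ K) (hK : K ≤ M * l)
    (hM : M + 1 ≤ l) {S U : Finset V} (hS : ¬ HasP adj col S (q + 6)) (hU : U ⊆ S)
    (h1 : ∀ x ∈ U, End adj col S (q + 5) x ∧ End (flip adj) (flip col) S (q + 5) x)
    (hn : (4 * M + 5) * l ^ (q + 4) < U.card) :
    ∃ (P G : Finset V) (R : Finset C), P.card = q + 4 ∧ R.card = q + 4 ∧ G ⊆ U \ P ∧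
      l ^ (q + 3) < G.card + (q + 4) ∧ TS adj col (S \ P) G R := by
  have hl := h.hl
  set L' := l ^ (q + 3) with hL'
  have hL : l ^ (q + 4) = L' * l := pow_succ _ _
  rw [hL] at hn
  have hL1 : l ≤ L' := Nat.le_self_pow (by omega) _
  have a1 : (q + 5) * L' ≤ M * (L' * l) := by nlinarith
  have a2 : q + 6 ≤ L' * l := by nlinarith
  have hS' : ¬ HasP (flip adj) (flip col) S (q + 6) := fun k => hS k.of_reverse
  have hUne : U.Nonempty := card_pos.1 (by omega)
  let good : V → V → Prop := fun v z => adj v z ∧ EndF adj col S (q + 3) (col v z) v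
  have k0 : ∀ z ∈ U, (U.filter fun v => adj v z).card ≤
      (U.filter fun v => good v z).card + (M + 1) * (L' * l) := by
    intro z hz
    obtain ⟨s, Q, B, p1, p2, p3⟩ := (h1 z hz).2
    have k1 : (U.filter fun v => adj v z) ⊆ (U.filter fun v => good v z) ∪
        ((B.biUnion fun c => S.filter fun x => ¬ EndF adj col S (q + 3) c x) ∪ Q) := by
      intro v hv
      rw [mem_filter] at hv
      by_cases e : v ∈ Q
      · exact mem_union_right _ (mem_union_right _ e)
      by_cases e' : EndF adj col S (q + 3) (col v z) v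
      · exact mem_union_left _ (mem_filter.2 ⟨hv.1, hv.2, e'⟩)
      · exact mem_union_right _ (mem_union_left _ (mem_biUnion.2
          ⟨_, ext_col hS' p1 p2 p3 (hU hv.1) hv.2 e, mem_filter.2 ⟨hU hv.1, e'⟩⟩))
    have k2 := (card_le_card k1).trans (card_union_le _ _)
    have k3 := card_union_le (B.biUnion fun c => S.filter fun x => ¬ EndF adj col S (q + 3) c x) Q
    have k4 := card_biUnion_le_card_mul B (fun c => S.filter fun x => ¬ EndF adj col S (q + 3) c x)
      _ (fun c _ => nonendF h.pos (GR.lev h.gr) (h.ih (q + 3) (by omega)) S c)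
    have k5 := RPath.card p1
    rw [p3] at k4 k5
    rw [← hL'] at k4
    rw [add_mul]
    omega
  obtain ⟨v, hv, hv2⟩ : ∃ v ∈ U, U.card - 1 ≤
      2 * ((U.filter fun z => good v z).card + (M + 1) * (L' * l)) := by
    apply exists_le_of_sum_le hUne
    have k1 := tour_sum h.hT U
    have k2 := sum_le_sum k0
    have k3 := Finset.sum_card_bipartiteAbove_eq_sum_card_bipartiteBelow good (s := U) (t := U)
    simp only [bipartiteAbove, bipartiteBelow] at k3
    rw [sum_add_distrib, ← k3, ← sum_add_distrib] at k2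
    rw [sum_const, smul_eq_mul, ← mul_sum]
    exact k1.trans (Nat.mul_le_mul_left _ k2)
  obtain ⟨s, Q, B, p1, p2, p3⟩ := (h1 v hv).1
  set G := (U.filter fun z => good v z) \ Q with hGd
  have hGc : (U.filter fun z => good v z).card ≤ G.card + (q + 6) := by
    have k1 := le_card_sdiff Q (U.filter fun z => good v z)
    have k5 := RPath.card p1
    rw [← hGd] at k1
    omega
  have hGm : ∀ z ∈ G, z ∈ U ∧ good v z ∧ z ∉ Q := by
    intro z hz
    rw [hGd, mem_sdiff, mem_filter] at hz
    exact ⟨hz.1.1, hz.1.2, hz.2⟩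
  obtain ⟨c, _, hc⟩ : ∃ c ∈ B, L' < (G.filter fun z => col v z = c).card := by
    by_contra k
    push Not at k
    have k1 := card_le_mul_card_image_of_maps_to (s := G) (t := B) (f := fun z => col v z)
      (fun z hz => ext_col hS p1 p2 p3 (hU (hGm z hz).1) (hGm z hz).2.1.1 (hGm z hz).2.2) _ k
    rw [p3, mul_comm] at k1
    simp only [add_mul, mul_assoc] at hn hv2
    omega
  obtain ⟨z0, hz0⟩ : (G.filter fun z => col v z = c).Nonempty := card_pos.1 (by omega)
  rw [mem_filter] at hz0
  obtain ⟨s', P, B', q1, q2, q3, q4⟩ := (hGm z0 hz0.1).2.1.2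
  rw [hz0.2] at q4
  have hPc : P.card = q + 4 := by rw [RPath.card q1, q3]
  have hRc : (insert c B').card = q + 4 := by rw [card_insert_of_notMem q4, q3]
  refine ⟨P, (G.filter fun z => col v z = c) \ P, insert c B', hPc, hRc, ?_, ?_, ?_⟩
  · exact sdiff_subset_sdiff (fun z hz => (hGm z (mem_filter.1 hz).1).1) Subset.rfl
  · have := le_card_sdiff P (G.filter fun z => col v z = c)
    omega
  · intro x hx y hy z hz k1 k2 k3 k4
    rw [mem_sdiff, mem_filter] at hx
    rw [mem_sdiff] at hy hz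
    have q5 := q1.snoc (hGm x hx.1.1).2.1.1 hx.2 (hx.1.2 ▸ q4)
    rw [hx.1.2] at q5
    have q6 := q5.snoc k1 (by
      intro k
      rcases mem_insert.1 k with k | k
      · rw [k] at k1; exact h.irr _ k1
      · exact hy.2 k) k3
    have := ext_col hS q6 (insert_subset hy.1 (insert_subset (hU (hGm x hx.1.1).1) q2))
      (by rw [card_insert_of_notMem k3, hRc]) hz.1 k2 (by
        intro k
        rcases mem_insert.1 k with k | k
        · rw [k] at k2; exact h.irr _ k2
        rcases mem_insert.1 k with k | k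
        · rw [k] at k2; exact h.hA _ _ k1 k2
        · exact hz.2 k)
    exact (mem_insert.1 this).resolve_right k4

theorem core_extract {l K q M : ℕ} (h : Ctx adj col l K) (hq : q + 5 ≤ K) (hK : K ≤ M * l)
    (hM : 80 * M + 80 ≤ l) {S : Finset V} (hS : ¬ HasP adj col S (q + 6))
    (hn : (20 * M + 60) * l ^ (q + 4) < S.card) :
    ∃ S' ⊆ S, ∃ R : Finset C, S.card ≤ 4 * S'.card ∧ R.card = q + 4 ∧
      Core adj col S' R (l ^ 5) ∧
      ∀ x ∈ S', End adj col S (q + 5) x ∧ End (flip adj) (flip col) S (q + 5) x := by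
  classical
  set L := l ^ (q + 4) with hL
  have hL1 : 1 ≤ L := Nat.one_le_pow _ _ h.pos
  set U := S.filter fun x => End adj col S (q + 5) x ∧ End (flip adj) (flip col) S (q + 5) x
    with hU
  have hb : (S \ U).card ≤ 2 * L := by
    have h1 : (S.filter fun x => ¬ End adj col S (q + 5) x).card ≤ L :=
      nonend h.pos (h.ih (q + 4 + 1) hq) S
    have h2 : (S.filter fun x => ¬ End (flip adj) (flip col) S (q + 5) x).card ≤ L :=
      nonend h.pos (h.flip.ih (q + 4 + 1) hq) S
    have h3 : S \ U ⊆ (S.filter fun x => ¬ End adj col S (q + 5) x) ∪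
        S.filter fun x => ¬ End (flip adj) (flip col) S (q + 5) x := by
      intro x hx
      simp only [hU, mem_sdiff, mem_union, mem_filter] at hx ⊢
      tauto
    have h4 := (card_le_card h3).trans (card_union_le _ _)
    omega
  set D := S.filter fun x => 5 * (S.filter fun u => adj x u).card < 2 * S.card with hD
  have hDc : D.card ≤ 2 * ((2 * S.card - 1) / 5) + 1 := by
    apply tour_deg h.flip.hT
    intro x hx
    have k1 := (mem_filter.1 hx).2
    have k2 : (D.filter fun u => flip adj u x).card ≤ (S.filter fun u => adj x u).card :=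
      card_le_card fun u hu => mem_filter.2 ⟨(mem_filter.1 (mem_filter.1 hu).1).1,
        (mem_filter.1 hu).2⟩
    omega
  have c1 := card_le_card_sdiff_add_card (s := S) (t := S \ U)
  have hUS : U ⊆ S := filter_subset _ _
  rw [sdiff_sdiff_right_self, inf_eq_inter, inter_eq_right.2 hUS] at c1
  have c2 := card_le_card_sdiff_add_card (s := U) (t := D)
  obtain ⟨P, G, R, g1, g2, g3, g4, g5⟩ := good_class h hq hK (by omega) hS (U := U \ D)
    (sdiff_subset.trans (filter_subset _ _)) (fun x hx => (mem_filter.1 (mem_sdiff.1 hx).1).2) (by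
      rw [← hL]
      simp only [add_mul, mul_assoc] at hn ⊢
      omega)
  have hGU : ∀ z ∈ G, z ∈ U ∧ z ∉ D := fun z hz => mem_sdiff.1 (mem_sdiff.1 (g3 hz)).1
  set Sp := S.filter fun x => G.card ≤ 10 * (G.filter fun z => adj z x).card with hSp
  have a0 : l ^ (q + 3) = l ^ q * l * l * l := by ring
  have a1 : 1 ≤ l ^ q := Nat.one_le_pow _ _ h.pos
  have a2 : l ≤ l ^ q * l := Nat.le_mul_of_pos_left _ a1
  have a3 : 80 * (q + 4) ≤ l * l := by nlinarith
  have a4 : l * l * 8 ≤ l ^ q * l * l * l := by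
    have := h.hl
    calc l * l * 8 ≤ l * l * (l ^ q * l) := Nat.mul_le_mul_left _ (by omega)
      _ = _ := by ring
  have hGp : 0 < G.card := by omega
  have c3 : 3 * S.card ≤ 10 * Sp.card := by
    have k1 := Finset.sum_card_bipartiteAbove_eq_sum_card_bipartiteBelow adj (s := G) (t := S)
    simp only [bipartiteAbove, bipartiteBelow] at k1
    have k2 : ∑ _z ∈ G, 2 * S.card ≤ ∑ z ∈ G, 5 * (S.filter fun u => adj z u).card := by
      refine sum_le_sum fun z hz => ?_
      by_contra k
      exact (hGU z hz).2 (mem_filter.2 ⟨(mem_filter.1 (hGU z hz).1).1, not_le.1 k⟩)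
    have k3 : ∑ x ∈ S, 10 * (G.filter fun z => adj z x).card ≤
        ∑ x ∈ S, (G.card + if G.card ≤ 10 * (G.filter fun z => adj z x).card then 10 * G.card
          else 0) := by
      refine sum_le_sum fun x _ => ?_
      have := card_filter_le G fun z => adj z x
      split_ifs <;> omega
    rw [sum_add_distrib, ← sum_filter, ← hSp, sum_const, sum_const, smul_eq_mul, smul_eq_mul,
      ← mul_sum, ← k1] at k3
    rw [sum_const, smul_eq_mul, ← mul_sum] at k2
    apply Nat.le_of_mul_le_mul_right _ hGp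
    nlinarith
  have c4 : Sp.card ≤ (Sp ∩ U).card + (S \ U).card := by
    refine (card_le_card fun x hx => ?_).trans (card_union_le _ _)
    by_cases k : x ∈ U
    · exact mem_union_left _ (mem_inter.2 ⟨hx, k⟩)
    · exact mem_union_right _ (mem_sdiff.2 ⟨(mem_filter.1 hx).1, k⟩)
  refine ⟨Sp ∩ U, inter_subset_left.trans (filter_subset _ _), R, ?_, g2, ?_,
    fun x hx => (mem_filter.1 (mem_inter.1 hx).2).2⟩
  · simp only [add_mul, mul_assoc] at hn
    omega
  · refine core_of h hq (by nlinarith) hS (P := P) (G := G)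
      (g3.trans (sdiff_subset_sdiff (sdiff_subset.trans (filter_subset _ _)) Subset.rfl))
      (by omega) g5 (inter_subset_left.trans (filter_subset _ _))
      (fun x hx => (mem_filter.1 (mem_inter.1 hx).2).2.2) ?_
    intro x hx
    have k1 := (mem_filter.1 (mem_inter.1 hx).1).2
    have k2 : 80 * ((l + 2) * ((q + 4) * l ^ q)) ≤ 2 * (l ^ q * l * l * l) := by
      calc 80 * ((l + 2) * ((q + 4) * l ^ q)) = (80 * (q + 4)) * ((l + 2) * l ^ q) := by ring
        _ ≤ (l * l) * ((2 * l) * l ^ q) :=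
          Nat.mul_le_mul a3 (Nat.mul_le_mul_right _ (by omega))
        _ = _ := by ring
    rw [g2]
    have := h.hl
    omega

end Pool.Agent.H31Fed
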