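import Pool.Agent.Lib.MP_fed786_co.H31RP

set_option autoImplicit false

namespace Pool.Agent.H31Fed
open Finset Pool.Agent.H66Fed

variable {V C : Type} [DecidableEq V] [DecidableEq C]
variable {adj : V → V → Prop} {col : V → V → C}

theorem rt_class {lab : V → Option C} {c : ℕ} {N N' : Finset V} {a : C}
    (h : Rt adj col lab (c + 1) N) (h1 : N' ⊆ N) (h2 : Fr adj col a N')
    (h3 : (∀ s ∈ N', InA adj col a N s) ∨
      ∀ t ∈ N', lab t ≠ some a → ∃ v ∈ N, Arc adj col a t v ∧ lab v ≠ some a) :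
    ∃ lab' : V → Option C, Rt adj col lab' c N' := by
  rcases h3 with h3 | h3
  · refine ⟨fun t => if lab t = some a then none else lab t, fun s t S B p hS => ?_⟩
    have ha := h2.notMem p hS
    by_cases e : lab t = some a
    · simp only [if_pos e]
      exact (e ▸ h s t S B p (hS.trans h1)).own ha
    · simp only [if_neg e]
      obtain ⟨u, hu, k⟩ := h3 s (hS p.start_mem)
      have := p.cons k.1 (fun k' => h2 u (hS k') s (hS p.start_mem) k.1 k.2) (k.2 ▸ ha)
      rw [k.2] at this
      exact (h _ _ _ _ this (insert_subset hu (hS.trans h1))).drop ha e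
  · have : ∀ t, ∃ v, t ∈ N' → lab t ≠ some a → v ∈ N ∧ Arc adj col a t v ∧ lab v ≠ some a := by
      intro t
      by_cases k : t ∈ N' ∧ lab t ≠ some a
      · obtain ⟨v, k1⟩ := h3 t k.1 k.2
        exact ⟨v, fun _ _ => k1⟩
      · exact ⟨t, fun k1 k2 => absurd ⟨k1, k2⟩ k⟩
    choose σ hσ using this
    refine ⟨fun t => if lab t = some a then none else lab (σ t), fun s t S B p hS => ?_⟩
    have ha := h2.notMem p hS
    by_cases e : lab t = some a
    · simp only [if_pos e]
      exact (e ▸ h s t S B p (hS.trans h1)).own ha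
    · simp only [if_neg e]
      obtain ⟨k1, k, k2⟩ := hσ t (hS p.end_mem) e
      have := p.snoc k.1 (fun k' => h2 t (hS p.end_mem) _ (hS k') k.1 k.2) (k.2 ▸ ha)
      rw [k.2] at this
      exact (h _ _ _ _ this (insert_subset k1 (hS.trans h1))).drop ha k2

open Classical in
/-- Vertices lost in the covering step for the colour `a`. -/
noncomputable def ZA (adj : V → V → Prop) (col : V → V → C) (lab : V → Option C) (N : Finset V)
    (a : C) : Finset V :=
  N.filter fun x => lab x ≠ some a ∧ ¬ InA adj col a N x ∧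
    ∀ v ∈ N, Arc adj col a x v → lab v = some a

omit [DecidableEq V] in
theorem mem_ZA {lab : V → Option C} {N : Finset V} {a : C} {x : V} :
    x ∈ ZA adj col lab N a ↔ x ∈ N ∧ lab x ≠ some a ∧ ¬ InA adj col a N x ∧
      ∀ v ∈ N, Arc adj col a x v → lab v = some a := by
  classical
  rw [ZA, mem_filter]

theorem cover {l : ℕ} (hGR : GR adj col l) {lab : V → Option C} {c : ℕ} {N : Finset V} (a : C)
    (h : Rt adj col lab (c + 1) N) : ∃ Nc : ℕ → Finset V,
      (∀ i, Nc i ⊆ N ∧ Fr adj col a (Nc i) ∧ ∃ lab' : V → Option C, Rt adj col lab' c (Nc i)) ∧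
      N.card ≤ ∑ i ∈ range l, (Nc i).card + (ZA adj col lab N a).card := by
  classical
  let zl : V → Prop := fun x => lab x ≠ some a ∧ ∀ v ∈ N, Arc adj col a x v → lab v = some a
  let ρ : V → ℕ := fun x => if InA adj col a N x then (if zl x then 2 else 1) else 0
  obtain ⟨g, g1, g2, g3⟩ := hGR a ρ
  let f : V → ℕ := fun x => if InA adj col a N x then g x else 0
  refine ⟨fun i => (N \ ZA adj col lab N a).filter fun x => f x = i, fun i => ?_, ?_⟩
  · have c1 : ((N \ ZA adj col lab N a).filter fun x => f x = i) ⊆ N :=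
      (filter_subset _ _).trans sdiff_subset
    have c2 : Fr adj col a ((N \ ZA adj col lab N a).filter fun x => f x = i) := by
      intro u hu v hv k k'
      have e := ((mem_filter.1 hu).2).trans (mem_filter.1 hv).2.symm
      have k1 : InA adj col a N v := ⟨u, c1 hu, k, k'⟩
      have k2 := g2 u v k k'
      have k3 := g3 u v k k'
      simp only [f, ρ, k1, if_true] at e k3
      split_ifs at e k3 <;> omega
    refine ⟨c1, c2, rt_class h c1 c2 ?_⟩
    by_cases e : i = 0
    · refine Or.inr fun t ht k => ?_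
      rw [mem_filter, mem_sdiff, mem_ZA] at ht
      by_contra k'
      have z1 : zl t := ⟨k, fun v hv k1 => by
        by_contra k2
        exact k' ⟨v, hv, k1, k2⟩⟩
      by_cases k1 : InA adj col a N t
      · obtain ⟨u, hu, k2⟩ := id k1
        have z2 : ¬ zl u := fun k3 => k (k3.2 t ht.1.1 k2)
        have k3 := g3 u t k2.1 k2.2
        have k4 := ht.2
        simp only [f, ρ, k1, z1, z2, if_true, if_false] at k3 k4
        split_ifs at k3 <;> omega
      · exact ht.1.2 ⟨ht.1.1, k, k1, z1.2⟩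
    · refine Or.inl fun s hs => ?_
      by_contra k
      have := (mem_filter.1 hs).2
      simp only [f, k, if_false] at this
      exact e this.symm
  · rw [sum_fiber _ f (fun v _ => by have := g1 v; simp only [f]; split_ifs <;> omega)]
    exact card_le_card_sdiff_add_card

omit [DecidableEq V] in
theorem subset_avg {j : ℕ} {R : Finset C} (hR : R.card = 2 * (j + 1)) (Zs : C → Finset V)
    (lab : V → Option C) (h : ∀ a ∈ R, ∀ x ∈ Zs a, lab x ≠ some a) :
    ∃ I ⊆ R, I.card = j + 1 ∧ ∑ a ∈ R, (Zs a).card ≤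
      4 * ∑ a ∈ I, ((Zs a).filter fun x => ∀ b ∈ I, lab x ≠ some b).card := by
  classical
  set P := powersetCard (j + 1) R with hP
  have hPc : P.card ≤ 4 * j.centralBinom := by
    rw [hP, card_powersetCard, hR, ← Nat.centralBinom_eq_two_mul_choose]
    apply Nat.le_of_mul_le_mul_left _ (Nat.succ_pos j)
    rw [Nat.succ_eq_add_one, Nat.succ_mul_centralBinom_succ]
    nlinarith [Nat.zero_le j.centralBinom]
  have hne : P.Nonempty := powersetCard_nonempty.2 (by omega)
  have h1 : ∀ a ∈ R, ∀ x ∈ Zs a, j.centralBinom ≤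
      (P.filter fun I => a ∈ I ∧ ∀ b ∈ I, lab x ≠ some b).card := by
    intro a ha x hx
    set R' := (R.erase a).filter fun b => lab x ≠ some b with hR'
    have k1 : 2 * j ≤ R'.card := by
      have k2 : ((R.erase a).filter fun b => ¬ lab x ≠ some b).card ≤ 1 := by
        rw [card_le_one]
        intro u hu v hv
        have e1 := not_not.1 (mem_filter.1 hu).2
        have e2 := not_not.1 (mem_filter.1 hv).2
        exact Option.some.inj (e1.symm.trans e2)
      have k3 := card_filter_add_card_filter_not (s := R.erase a) (fun b => lab x ≠ some b)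
      rw [card_erase_of_mem ha, hR, ← hR'] at k3
      omega
    rw [Nat.centralBinom_eq_two_mul_choose]
    refine (Nat.choose_le_choose j k1).trans ?_
    rw [← card_powersetCard]
    have hm : ∀ I ∈ powersetCard j R', a ∉ I := fun I hI k =>
      notMem_erase a R (mem_filter.1 ((mem_powersetCard.1 hI).1 k)).1
    refine card_le_card_of_injOn (fun I => insert a I) ?_ ?_
    · intro I hI
      have hI' := mem_powersetCard.1 (mem_coe.1 hI)
      rw [mem_coe, mem_filter, hP, mem_powersetCard]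
      refine ⟨⟨insert_subset ha (hI'.1.trans ((filter_subset _ _).trans (erase_subset _ _))), ?_⟩,
        mem_insert_self _ _, ?_⟩
      · rw [card_insert_of_notMem (hm I hI), hI'.2]
      · intro b hb
        rcases mem_insert.1 hb with rfl | hb
        · exact h b ha x hx
        · exact (mem_filter.1 (hI'.1 hb)).2
    · intro I hI I' hI' e
      have := congrArg (fun s => erase s a) e
      simpa only [erase_insert (hm I hI), erase_insert (hm I' hI')] using this
  have h2 : ∑ I ∈ P, ∑ a ∈ I, ((Zs a).filter fun x => ∀ b ∈ I, lab x ≠ some b).card =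
      ∑ a ∈ R, ∑ x ∈ Zs a, (P.filter fun I => a ∈ I ∧ ∀ b ∈ I, lab x ≠ some b).card := by
    have k1 : ∀ I ∈ P, ∑ a ∈ I, ((Zs a).filter fun x => ∀ b ∈ I, lab x ≠ some b).card =
        ∑ a ∈ R, ∑ x ∈ Zs a, if a ∈ I ∧ ∀ b ∈ I, lab x ≠ some b then 1 else 0 := by
      intro I hI
      rw [← sum_subset (mem_powersetCard.1 hI).1]
      · refine sum_congr rfl fun a ha => ?_
        rw [card_filter]
        simp only [ha, true_and]
      · intro a _ ha
        simp [ha]
    rw [sum_congr rfl k1, sum_comm]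
    refine sum_congr rfl fun a _ => ?_
    rw [sum_comm]
    exact sum_congr rfl fun x _ => (card_filter _ _).symm
  obtain ⟨I, hI, h3⟩ := exists_le_of_sum_le hne (f := fun _ => ∑ a ∈ R, (Zs a).card)
    (g := fun I => 4 * ∑ a ∈ I, ((Zs a).filter fun x => ∀ b ∈ I, lab x ≠ some b).card) (by
      rw [← mul_sum, h2, sum_const, smul_eq_mul]
      refine (Nat.mul_le_mul_right _ hPc).trans ?_
      rw [mul_assoc, mul_sum]
      refine Nat.mul_le_mul_left _ (sum_le_sum fun a ha => ?_)
      rw [mul_comm, ← smul_eq_mul, ← sum_const]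
      exact sum_le_sum fun x hx => h1 a ha x hx)
  exact ⟨I, (mem_powersetCard.1 hI).1, (mem_powersetCard.1 hI).2, h3⟩

theorem small_loss {l K e T c : ℕ} {τ : ℝ} (hGR : GR adj col l) (hl : 8 ≤ l) (he : e ≤ 4)
    (hT : 1 ≤ T) (hTl : 2 * T ≤ l) (hτ : 0 ≤ τ) (hX : XB adj col l K e τ) (hc : c ≤ K)
    {N : Finset V} {lab : V → Option C} {R : Finset C} (hR : 30 * T ≤ R.card)
    (h1 : c + e + 1 = R.card + 5) (h2 : Core adj col N R (l ^ 5)) (h3 : Rt adj col lab c N) :
    ∃ a ∈ R, ((ZA adj col lab N a).card : ℝ) ≤ 240 * (τ + 1) / T * l ^ c := by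
  classical
  obtain ⟨R', r1, r2⟩ := exists_subset_card_eq hR
  obtain ⟨I, i1, i2, i3⟩ := subset_avg (j := 15 * T - 1) (R := R') (by omega)
    (ZA adj col lab N) lab (fun a _ x hx => (mem_ZA.1 hx).2.1)
  set U := I.biUnion fun a => (ZA adj col lab N a).filter fun x => ∀ b ∈ I, lab x ≠ some b
    with hU
  have hUm : ∀ x ∈ U, x ∈ N ∧ ∀ b ∈ I, lab x ≠ some b := by
    intro x hx
    obtain ⟨a, _, k⟩ := mem_biUnion.1 hx
    rw [mem_filter] at k
    exact ⟨(mem_ZA.1 k.1).1, k.2⟩
  have hUN : U ⊆ N := fun x hx => (hUm x hx).1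
  have hun : ∀ a ∈ I, ∀ x ∈ ZA adj col lab N a,
      ¬ InA adj col a U x ∧ ¬ OutA adj col a U x := by
    intro a ha x hx
    rw [mem_ZA] at hx
    exact ⟨fun ⟨u, k, k'⟩ => hx.2.2.1 ⟨u, hUN k, k'⟩,
      fun ⟨u, k, k'⟩ => (hUm u k).2 a ha (hx.2.2.2 u (hUN k) k')⟩
  obtain ⟨c', rfl⟩ : ∃ c', c = c' + T := ⟨c - T, by omega⟩
  have k1 := rp hGR hl he hT hc hτ hX T le_rfl U ∅ lab R I (i1.trans r1) (by omega) h1
    (by rw [union_empty]; exact h2.mono hUN) (disjoint_empty_right _) (h3.mono hUN).inv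
    (fun x hx => (hUm x (by simpa using hx)).2) (fun x hx => by
      obtain ⟨a, ha, k⟩ := mem_biUnion.1 hx
      rw [union_empty]
      exact ⟨a, ha, hun a ha x (mem_filter.1 k).1⟩)
  have k2 := kraft_avg (n := c' + T) hGR hl (i1.trans r1) (Subset.refl U) (h2.mono hUN)
    (by rw [← pow_add]; exact Nat.pow_le_pow_right (by omega) (by omega))
  have k3 : ∑ a ∈ I, ((ZA adj col lab N a).filter fun x => ∀ b ∈ I, lab x ≠ some b).card ≤
      ∑ a ∈ I, (Unt adj col a U U).card := by
    refine sum_le_sum fun a ha => card_le_card fun x hx => ?_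
    exact mem_unt.2 ⟨mem_biUnion.2 ⟨a, ha, hx⟩, hun a ha x (mem_filter.1 hx).1⟩
  have k4 : ∑ a ∈ R', ((ZA adj col lab N a).card : ℝ) ≤
      4 * ∑ a ∈ I, ((Unt adj col a U U).card : ℝ) := by
    exact_mod_cast i3.trans (Nat.mul_le_mul_left 4 k3)
  have hl' : (8 : ℝ) ≤ l := by exact_mod_cast hl
  have hT' : (1 : ℝ) ≤ T := by exact_mod_cast hT
  have hTl' : 2 * (T : ℝ) ≤ l := by exact_mod_cast hTl
  set L : ℝ := l ^ (c' + T) with hL
  have hL0 : 0 ≤ L := by positivity
  have k5 : (T : ℝ) / (30 * T) = 1 / 30 := by field_simp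
  have k6 : (T : ℝ) * (8 * τ + 1) / l ≤ 4 * τ + 1 := by
    rw [div_le_iff₀ (by linarith)]
    nlinarith
  have k7 : L / l ^ 2 ≤ L := div_le_self hL0 (by nlinarith)
  rw [k5, card_empty, Nat.cast_zero, mul_zero, add_zero] at k1
  obtain ⟨a, ha, k8⟩ := exists_le_of_sum_le (s := R') (card_pos.1 (by omega))
    (f := fun a => ((ZA adj col lab N a).card : ℝ)) (g := fun _ => 240 * (τ + 1) / T * L) (by
      rw [sum_const, r2, nsmul_eq_mul]
      have : ((30 * T : ℕ) : ℝ) * (240 * (τ + 1) / T * L) = 7200 * (τ + 1) * L := by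
        push_cast
        field_simp
        ring
      rw [this]
      nlinarith [mul_le_mul_of_nonneg_left k6 hL0, mul_nonneg hτ hL0])
  exact ⟨a, r1 ha, k8⟩

/-- The harmonic-type sum of the losses. -/
noncomputable def Hs (l n : ℕ) : ℝ := ∑ j ∈ range (n + 1), (60 / (j : ℝ) + 4 / l)

theorem Hs_mono (l : ℕ) {n n' : ℕ} (h : n ≤ n') : Hs l n ≤ Hs l n' :=
  sum_le_sum_of_subset_of_nonneg (range_subset_range.2 (by omega)) fun _ _ _ => by positivity

theorem Hs_nonneg (l n : ℕ) : 0 ≤ Hs l n := sum_nonneg fun _ _ => by positivity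

theorem XB.succ {l K e : ℕ} {τ b : ℝ} (hGR : GR adj col l) (hl : 8 ≤ l) (he : e ≤ 4)
    (hτ : 0 ≤ τ) (hX : XB adj col l K e τ)
    (hb : ∀ c ≤ 60, ∀ (N : Finset V) (lab : V → Option C), Rt adj col lab c N →
      (N.card : ℝ) ≤ b * l ^ c) :
    XB adj col l K (e + 1) (b + 240 * (τ + 1) * Hs l K) := by
  have hl' : (8 : ℝ) ≤ l := by exact_mod_cast hl
  have key : ∀ (n c : ℕ) (N : Finset V) (lab : V → Option C) (R : Finset C), R.card = n → c ≤ K →
      c + (e + 1) = n + 5 → Core adj col N R (l ^ 5) → Rt adj col lab c N →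
      (N.card : ℝ) ≤ (b + 240 * (τ + 1) * Hs l n) * l ^ c := by
    intro n
    have base : ∀ n < 30, ∀ (c : ℕ) (N : Finset V) (lab : V → Option C), c + (e + 1) = n + 5 →
        Rt adj col lab c N → (N.card : ℝ) ≤ (b + 240 * (τ + 1) * Hs l n) * l ^ c := by
      intro n hn c N lab h1 h2
      refine (hb c (by omega) N lab h2).trans (mul_le_mul_of_nonneg_right ?_ (by positivity))
      have := Hs_nonneg l n
      nlinarith
    induction n with
    | zero => exact fun c N lab R _ _ h1 _ h2 => base 0 (by omega) c N lab h1 h2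
    | succ n ih =>
      intro c N lab R hR hc h1 h2 h3
      by_cases hn : n + 1 < 30
      · exact base _ hn c N lab h1 h3
      obtain ⟨a, ha, k1⟩ := small_loss (T := min ((n + 1) / 30) (l / 2)) hGR hl he (by omega)
        (by omega) hτ hX hc (R := R) (by omega) (by omega) h2 h3
      obtain ⟨c, rfl⟩ : ∃ c', c = c' + 1 := ⟨c - 1, by omega⟩
      obtain ⟨Nc, c1, c2⟩ := cover hGR a h3
      have k2 : ∑ i ∈ range l, ((Nc i).card : ℝ) ≤
          ∑ _i ∈ range l, (b + 240 * (τ + 1) * Hs l n) * l ^ c := by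
        refine sum_le_sum fun i _ => ?_
        obtain ⟨q1, q2, lab', q3⟩ := c1 i
        exact ih c _ lab' (R.erase a) (by rw [card_erase_of_mem ha, hR]; rfl) (by omega)
          (by omega) (h2.erase q1 q2) q3
      rw [sum_const, card_range, nsmul_eq_mul] at k2
      have k3 : (N.card : ℝ) ≤ ∑ i ∈ range l, ((Nc i).card : ℝ) + (ZA adj col lab N a).card := by
        exact_mod_cast c2
      have k4 : 1 / ((min ((n + 1) / 30) (l / 2) : ℕ) : ℝ) ≤ 60 / ((n + 1 : ℕ) : ℝ) + 4 / l := by
        have q1 : (0 : ℝ) ≤ 60 / ((n + 1 : ℕ) : ℝ) := by positivity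
        have q2 : (0 : ℝ) ≤ 4 / l := by positivity
        rcases min_choice ((n + 1) / 30) (l / 2) with e | e <;> rw [e]
        · refine le_add_of_le_of_nonneg ?_ q2
          rw [div_le_div_iff₀ (by exact_mod_cast (show 0 < (n + 1) / 30 by omega)) (by positivity)]
          exact_mod_cast (show 1 * (n + 1) ≤ 60 * ((n + 1) / 30) by omega)
        · refine le_add_of_nonneg_of_le q1 ?_
          rw [div_le_div_iff₀ (by exact_mod_cast (show 0 < l / 2 by omega)) (by linarith)]
          exact_mod_cast (show 1 * l ≤ 4 * (l / 2) by omega)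
      have k5 : Hs l (n + 1) = Hs l n + (60 / ((n + 1 : ℕ) : ℝ) + 4 / l) := sum_range_succ _ _
      rw [div_eq_mul_one_div] at k1
      have k6 := mul_le_mul_of_nonneg_right (mul_le_mul_of_nonneg_left k4
        (show 0 ≤ 240 * (τ + 1) by positivity)) (show (0 : ℝ) ≤ l ^ (c + 1) by positivity)
      rw [k5]
      rw [pow_succ] at k1 k6 ⊢
      nlinarith
  intro c N lab R hc h1 h2 h3
  refine (key _ c N lab R rfl hc h1 h2 h3).trans (mul_le_mul_of_nonneg_right ?_ (by positivity))
  have := Hs_mono l (show R.card ≤ K by omega)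
  nlinarith

end Pool.Agent.H31Fed
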