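import Pool.Agent.Lib.MP_fed786_co.H31Cov

set_option autoImplicit false

namespace Pool.Agent.H31Fed
open Finset Pool.Agent.H66Fed

variable {V C : Type} [DecidableEq V] [DecidableEq C]
variable {adj : V → V → Prop} {col : V → V → C}

/-- The standing assumptions of the induction step. -/
structure Ctx (adj : V → V → Prop) (col : V → V → C) (l K : ℕ) : Prop where
  hT : ∀ u v, u ≠ v → adj u v ∨ adj v u
  hA : ∀ u v, adj u v → ¬ adj v u
  gr : GR adj col l
  gr' : GR (flip adj) (flip col) l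
  hl : 8 ≤ l
  ih : ∀ r ≤ K, ∀ U : Finset V, ¬ HasP adj col U r → l * U.card ≤ l ^ r

theorem Ctx.flip {l K : ℕ} (h : Ctx adj col l K) : Ctx (flip adj) (flip col) l K :=
  ⟨fun u v k => (h.hT u v k).symm, fun u v k => h.hA v u k, h.gr', h.gr, h.hl,
    fun r hr U k => h.ih r hr U fun k' => k k'.reverse⟩

theorem Ctx.irr {l K : ℕ} (h : Ctx adj col l K) (v : V) : ¬ adj v v := fun k => h.hA v v k k

theorem Ctx.pos {l K : ℕ} (h : Ctx adj col l K) : 0 < l := lt_of_lt_of_le (by norm_num) h.hl

theorem Ctx.ih' {l K r : ℕ} (h : Ctx adj col l K) (hr : r < K) {U : Finset V}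
    (k : ¬ HasP adj col U (r + 1)) : U.card ≤ l ^ r := by
  apply Nat.le_of_mul_le_mul_left _ h.pos
  rw [← pow_succ']
  exact h.ih (r + 1) hr U k

theorem Ctx.mono {l K K' : ℕ} (h : Ctx adj col l K) (hK : K' ≤ K) : Ctx adj col l K' :=
  ⟨h.hT, h.hA, h.gr, h.gr', h.hl, fun r hr => h.ih r (hr.trans hK)⟩

theorem path_cols {N S : Finset V} {A B : Finset C} {s t : V}
    (hc : ∀ u ∈ N, ∀ v ∈ N, adj u v → col u v ∈ A) (p : RPath adj col s t S B) (hS : S ⊆ N) :
    B ⊆ A := by
  intro c k
  obtain ⟨u, hu, v, hv, k1, k2⟩ := p.col_mem k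
  exact k2 ▸ hc u (hS hu) v (hS hv) k1

/-- `x` ends rainbow paths in `N` with `r + 1` arcs, and with `r` arcs avoiding any colour of `A`. -/
def Full (adj : V → V → Prop) (col : V → V → C) (N : Finset V) (r : ℕ) (A : Finset C) (x : V) :
    Prop :=
  End adj col N (r + 1) x ∧ ∀ c ∈ A, EndF adj col N r c x

open Classical in
theorem nonfull {l K r : ℕ} (h : Ctx adj col l K) (hr : r < K) (N : Finset V) (A : Finset C) :
    (N.filter fun x => ¬ Full adj col N r A x).card ≤ (A.card + 1) * l ^ r := by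
  have h1 := nonend h.pos (h.ih (r + 1) hr) N
  have h2 := card_biUnion_le_card_mul A (fun c => N.filter fun x => ¬ EndF adj col N r c x) _
    (fun c _ => nonendF h.pos (GR.lev h.gr) (h.ih r hr.le) N c)
  have h3 : (N.filter fun x => ¬ Full adj col N r A x) ⊆
      (N.filter fun x => ¬ End adj col N (r + 1) x) ∪
      A.biUnion fun c => N.filter fun x => ¬ EndF adj col N r c x := by
    intro x hx
    simp only [Full, mem_filter, mem_union, mem_biUnion, not_and_or, not_forall] at hx ⊢
    rcases hx.2 with k | ⟨c, k1, k2⟩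
    · exact Or.inl ⟨hx.1, k⟩
    · exact Or.inr ⟨c, k1, hx.1, k2⟩
  have h4 := (card_le_card h3).trans (card_union_le _ _)
  rw [add_mul]
  omega

theorem dense2 {l r : ℕ} (hT : ∀ u v, u ≠ v → adj u v ∨ adj v u) (hirr : ∀ v, ¬ adj v v)
    (hG : ∀ c : C, ∃ f : V → ℕ, (∀ v, f v < l) ∧ ∀ u v, adj u v → col u v = c → f u ≠ f v)
    (hl0 : 0 < l)
    (H1 : ∀ U : Finset V, ¬ HasP adj col U (r + 1) → l * U.card ≤ l ^ (r + 1))
    (H0 : ∀ U : Finset V, ¬ HasP adj col U r → l * U.card ≤ l ^ r) {W : Finset V}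
    (hW : ¬ HasP adj col W (r + 2)) (hn : 30 * (r + 1) ^ 2 * l ^ r < W.card) :
    ∃ A : Finset C, ∃ W' ⊆ W, A.card = r + 1 ∧ (∀ u ∈ W', ∀ v ∈ W', adj u v → col u v ∈ A) ∧
      2 * ((r + 2) * l ^ r) + 4 ≤ W'.card := by
  classical
  have hW' : ¬ HasP (flip adj) (flip col) W (r + 2) := fun h => hW h.of_reverse
  have H1' : ∀ U : Finset V, ¬ HasP (flip adj) (flip col) U (r + 1) → l * U.card ≤ l ^ (r + 1) :=
    fun U h => H1 U fun h' => h h'.reverse
  set L := l ^ r with hL
  have hL1 : 1 ≤ L := Nat.one_le_pow _ _ hl0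
  set U := W.filter fun x => End adj col W (r + 1) x ∧ End (flip adj) (flip col) W (r + 1) x
    with hU
  have hUc : W.card ≤ U.card + 2 * L := by
    have h1 := nonend hl0 H1 W
    have h2 := nonend hl0 H1' W
    have h3 : W ⊆ U ∪ ((W.filter fun x => ¬ End adj col W (r + 1) x) ∪
        W.filter fun x => ¬ End (flip adj) (flip col) W (r + 1) x) := by
      intro x hx
      simp only [hU, mem_union, mem_filter]
      tauto
    have h4 := (card_le_card h3).trans (card_union_le _ _)
    have h5 := card_union_le (W.filter fun x => ¬ End adj col W (r + 1) x)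
      (W.filter fun x => ¬ End (flip adj) (flip col) W (r + 1) x)
    omega
  have hUW : U ⊆ W := filter_subset _ _
  have hl3 : 30 * L ≤ 30 * (r + 1) ^ 2 * L :=
    Nat.mul_le_mul_right _ (Nat.le_mul_of_pos_right _ (by positivity))
  have hUne : U.Nonempty := by
    rw [← card_pos]
    omega
  let good : V → V → Prop := fun v z => adj v z ∧ EndF adj col W r (col v z) v
  have h1 : ∀ z ∈ U, (U.filter fun v => adj v z).card ≤
      (U.filter fun v => good v z).card + ((r + 1) * L + (r + 2)) := by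
    intro z hz
    obtain ⟨s, S, B, p1, p2, p3⟩ := (mem_filter.1 hz).2.2
    have k1 : (U.filter fun v => adj v z) ⊆ (U.filter fun v => good v z) ∪
        ((B.biUnion fun c => W.filter fun x => ¬ EndF adj col W r c x) ∪ S) := by
      intro v hv
      rw [mem_filter] at hv
      by_cases e : v ∈ S
      · exact mem_union_right _ (mem_union_right _ e)
      by_cases e' : EndF adj col W r (col v z) v
      · exact mem_union_left _ (mem_filter.2 ⟨hv.1, hv.2, e'⟩)
      · exact mem_union_right _ (mem_union_left _ (mem_biUnion.2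
          ⟨_, ext_col hW' p1 p2 p3 (hUW hv.1) hv.2 e, mem_filter.2 ⟨hUW hv.1, e'⟩⟩))
    have k2 := (card_le_card k1).trans (card_union_le _ _)
    have k3 := card_union_le (B.biUnion fun c => W.filter fun x => ¬ EndF adj col W r c x) S
    have k4 := card_biUnion_le_card_mul B (fun c => W.filter fun x => ¬ EndF adj col W r c x) _
      (fun c _ => nonendF hl0 hG H0 W c)
    have k5 := RPath.card p1
    rw [p3] at k4 k5
    rw [← hL] at k4
    omega
  obtain ⟨v, hv, hv2⟩ : ∃ v ∈ U, U.card - 1 ≤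
      2 * ((U.filter fun z => good v z).card + ((r + 1) * L + (r + 2))) := by
    apply exists_le_of_sum_le hUne
    have k1 := tour_sum hT U
    have k2 := sum_le_sum h1
    have k3 := Finset.sum_card_bipartiteAbove_eq_sum_card_bipartiteBelow good (s := U) (t := U)
    simp only [bipartiteAbove, bipartiteBelow] at k3
    rw [sum_add_distrib, ← k3, ← sum_add_distrib] at k2
    rw [sum_const, smul_eq_mul, ← mul_sum]
    exact k1.trans (Nat.mul_le_mul_left _ k2)
  obtain ⟨s, S, B, p1, p2, p3⟩ := (mem_filter.1 hv).2.1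
  set G := (U.filter fun z => good v z) \ S with hGd
  have hGc : (U.filter fun z => good v z).card ≤ G.card + (r + 2) := by
    have : (U.filter fun z => good v z).card - S.card ≤ G.card := by
      rw [hGd]
      exact le_card_sdiff _ _
    have k5 := RPath.card p1
    omega
  have hGm : ∀ z ∈ G, z ∈ W ∧ good v z ∧ z ∉ S := by
    intro z hz
    rw [hGd, mem_sdiff, mem_filter] at hz
    exact ⟨hUW hz.1.1, hz.1.2, hz.2⟩
  obtain ⟨c, _, hc⟩ : ∃ c ∈ B, 2 * ((r + 2) * L) + 4 + r < (G.filter fun z => col v z = c).card := by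
    by_contra k
    push Not at k
    have k1 := card_le_mul_card_image_of_maps_to (s := G) (t := B) (f := fun z => col v z)
      (fun z hz => ext_col hW p1 p2 p3 (hGm z hz).1 (hGm z hz).2.1.1 (hGm z hz).2.2) _ k
    rw [p3] at k1
    have k3 : U.card ≤ 2 * ((2 * ((r + 2) * L) + 4 + r) * (r + 1) + (r + 2) +
        ((r + 1) * L + (r + 2))) + 1 := by omega
    have k4 : r ≤ r * L := Nat.le_mul_of_pos_right _ hL1
    have k5 : r * r ≤ r * r * L := Nat.le_mul_of_pos_right _ hL1
    nlinarith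
  obtain ⟨z0, hz0⟩ : (G.filter fun z => col v z = c).Nonempty := card_pos.1 (by omega)
  rw [mem_filter] at hz0
  obtain ⟨s', S', B', q1, q2, q3, q4⟩ := (hGm z0 hz0.1).2.1.2
  rw [hz0.2] at q4
  refine ⟨insert c B', (G.filter fun z => col v z = c) \ S', ?_,
    by rw [card_insert_of_notMem q4, q3], ?_, ?_⟩
  · intro z hz
    exact (hGm z (mem_filter.1 (mem_sdiff.1 hz).1).1).1
  · intro u hu u' hu' huu
    rw [mem_sdiff, mem_filter] at hu hu'
    have q5 := q1.snoc (hGm u hu.1.1).2.1.1 hu.2 (hu.1.2 ▸ q4)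
    rw [hu.1.2] at q5
    refine ext_col hW q5 (insert_subset (hGm u hu.1.1).1 q2)
      (by rw [card_insert_of_notMem q4, q3]) (hGm u' hu'.1.1).1 huu ?_
    intro k
    rcases mem_insert.1 k with k | k
    · rw [k] at huu; exact hirr u huu
    · exact hu'.2 k
  · have := le_card_sdiff S' (G.filter fun z => col v z = c)
    have k5 := RPath.card q1
    omega

theorem Rt.noP {lab : V → Option C} {c : ℕ} {N : Finset V} (h : Rt adj col lab c N) :
    ¬ HasP adj col N (c + 2) := by
  rintro ⟨s, t, S, B, p, h1, h2⟩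
  have := (h s t S B p h1).2.2
  omega

theorem rooted_base {l c : ℕ} (h : Ctx adj col l (c + 1)) {N : Finset V} {lab : V → Option C}
    (hr : Rt adj col lab c N) : N.card ≤ 30 * (c + 1) ^ 2 * l ^ c := by
  classical
  by_contra k
  obtain ⟨A, W, w1, w2, w3, w4⟩ := dense2 h.hT h.irr (GR.lev h.gr) h.pos (h.ih (c + 1) le_rfl)
    (h.ih c (by omega)) hr.noP (not_le.1 k)
  have h1 := nonfull h (r := c) (by omega) W A
  rw [w2] at h1
  obtain ⟨v, v1, v2⟩ := exists_mem_notMem_of_card_lt_card
    (s := W.filter fun x => ¬ Full adj col W c A x) (t := W) (by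
      have : (c + 1 + 1) * l ^ c = (c + 2) * l ^ c := rfl
      omega)
  rw [mem_filter, not_and, not_not] at v2
  obtain ⟨⟨s, S, B, p1, p2, p3⟩, v3⟩ := v2 v1
  have q := hr _ _ _ _ p1 (p2.trans w1)
  rcases e : lab v with _ | x
  · have := q.2.1 e
    omega
  by_cases k' : x ∈ A
  · obtain ⟨s', S', B', q1, q2, q3, q4⟩ := v3 x k'
    have := (hr _ _ _ _ q1 (q2.trans w1)).1 x e q4
    omega
  · have := q.1 x e fun k2 => k' (path_cols w3 p1 p2 k2)
    omega

end Pool.Agent.H31Fed
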