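import Pool.Agent.Lib.MP_fed786_co.H31Step

set_option autoImplicit false

namespace Pool.Agent.H31Fed
open Finset Pool.Agent.H66Fed

variable {V C : Type} [DecidableEq V] [DecidableEq C]
variable {adj : V → V → Prop} {col : V → V → C}

omit [DecidableEq V] [DecidableEq C] in
theorem GR.flip [Fintype V] {l : ℕ} (h : GR adj col l) : GR (flip adj) (flip col) l := by
  intro a ρ
  obtain ⟨g, g1, g2, g3⟩ := h a (fun v => univ.sup ρ - ρ v)
  refine ⟨fun v => l - 1 - g v, fun v => by have := g1 v; simp only; omega,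
    fun u v k k' => ?_,
    fun u v k k' e => ?_⟩
  · have := g2 v u k k'
    have := g1 u
    have := g1 v
    simp only
    omega
  · have h1 : ρ v ≤ univ.sup ρ := le_sup (mem_univ v)
    have := g3 v u k k' (by omega)
    have := g1 u
    simp only
    omega

theorem Inv.congr {lab lab' : V → Option C} {c : ℕ} {zc : Prop} {W Z : Finset V}
    (h : Inv adj col lab c zc W Z) (e : ∀ x ∈ W ∪ Z, lab x = lab' x) :
    Inv adj col lab' c zc W Z := by
  intro s t S B p hS
  rw [← e t (hS p.end_mem)]
  exact h s t S B p hS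

theorem Child.inv_none {a : C} {c : ℕ} {zc : Prop} {W Z W' Z' : Finset V}
    (h : Child adj col a (fun _ => none) c zc W Z W' Z') :
    Inv adj col (fun _ => none) c zc W' Z' := by
  obtain ⟨lab', h1, h2⟩ := h.inv
  refine h1.congr fun x hx => ?_
  obtain ⟨y, _, e⟩ := h2 x hx
  exact e

theorem Inv.noP {c : ℕ} {zc : Prop} {W Z : Finset V}
    (h : Inv adj col (fun _ => none) c zc W Z) : ¬ HasP adj col W (c + 1) := by
  rintro ⟨s, t, S, B, p, h1, h2⟩
  have := ((h s t S B p (h1.trans subset_union_left)).1 (Or.inl (h1 p.start_mem))).2.1 rfl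
  omega

theorem RPath.shorten {s t : V} {S : Finset V} {B : Finset C} (p : RPath adj col s t S B) :
    ∀ j ≤ B.card, HasP adj col S j := by
  induction p with
  | single =>
    intro j hj
    obtain rfl : j = 0 := by simpa using hj
    exact ⟨s, s, _, _, RPath.single s, Subset.rfl, rfl⟩
  | @snoc t u S A p h1 h2 h3 ih =>
    intro j hj
    rcases hj.lt_or_eq with k | k
    · rw [card_insert_of_notMem h3] at k
      exact (ih j (by omega)).mono (subset_insert _ _)
    · exact ⟨_, _, _, _, p.snoc h1 h2 h3, Subset.rfl, k.symm⟩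

theorem le_of_noP {U S : Finset V} {s t : V} {B : Finset C} {c : ℕ}
    (h : ¬ HasP adj col U (c + 1)) (p : RPath adj col s t S B) (hS : S ⊆ U) : B.card ≤ c := by
  by_contra k
  exact h ((RPath.shorten p (c + 1) (by omega)).mono hS)

theorem inv_of_noP {c : ℕ} {zc : Prop} {W : Finset V} (h : ¬ HasP adj col W (c + 1)) :
    Inv adj col (fun _ => none) c zc W ∅ := by
  intro s t S B p hS
  rw [union_empty] at hS
  have := le_of_noP h p hS
  exact ⟨fun _ => ⟨by simp, fun _ => this, by omega⟩,
    fun _ => ⟨by simp, fun _ => by omega, by omega⟩⟩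

/-- No two consecutive arcs in `N` have colours outside `R`. -/
def NoTwo (adj : V → V → Prop) (col : V → V → C) (R : Finset C) (N : Finset V) : Prop :=
  ∀ x ∈ N, ∀ y ∈ N, ∀ z ∈ N, adj x y → adj y z → col x y ∉ R → col y z ∉ R → False

theorem pair_choice {l m : ℕ} (hm : 0 < m) (hl : 2 * m ≤ l) (L : ℕ → ℕ) :
    ∃ j < m, m * (L j + L (l - 1 - j)) ≤ ∑ i ∈ range l, L i := by
  have h1 : ∑ j ∈ range m, (L j + L (l - 1 - j)) ≤ ∑ i ∈ range l, L i := by
    rw [sum_add_distrib, ← sum_image (s := range m) (g := fun j => l - 1 - j) (f := L)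
      (fun x hx y hy e => by
        rw [mem_coe, mem_range] at hx hy
        simp only at e
        omega), ← sum_union]
    · apply sum_le_sum_of_subset
      intro i hi
      simp only [mem_union, mem_range, mem_image] at hi ⊢
      rcases hi with hi | ⟨j, hj, rfl⟩ <;> omega
    · rw [disjoint_left]
      intro i hi hi'
      simp only [mem_range, mem_image] at hi hi'
      obtain ⟨j, hj, rfl⟩ := hi'
      omega
  obtain ⟨j, hj, h2⟩ := exists_le_of_sum_le (s := range m) (nonempty_range_iff.2 hm.ne')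
    (f := fun j => m * (L j + L (l - 1 - j))) (g := fun _ => ∑ i ∈ range l, L i)
    (by rw [← mul_sum, sum_const, card_range, smul_eq_mul]; exact Nat.mul_le_mul_left _ h1)
  exact ⟨j, mem_range.1 hj, h2⟩

theorem eg2 {l m K : ℕ} (hT : ∀ u v, u ≠ v → adj u v ∨ adj v u) (hGR : GR adj col l)
    (hm : 0 < m) (hl : 2 * m ≤ l) (hν : 1 ≤ ((l : ℝ) - 2 * m) * (1 / 2 * (1 - 1 / (m : ℝ)) ^ K)) :
    ∀ r ≤ K, ∀ (R : Finset C) (W Z : Finset V), R.card = r → Disjoint W Z →
      Inv adj col (fun _ => none) r False W Z → NoTwo adj col R (W ∪ Z) →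
      (W.card : ℝ) + 1 / 2 * (1 - 1 / (m : ℝ)) ^ r * Z.card ≤ (l : ℝ) ^ r := by
  have hm1 : (1 : ℝ) ≤ m := by exact_mod_cast hm
  have hq0 : 0 ≤ 1 - 1 / (m : ℝ) := by
    rw [sub_nonneg, div_le_one (by linarith)]; exact hm1
  have hq1 : 1 - 1 / (m : ℝ) ≤ 1 := by
    have : 0 ≤ 1 / (m : ℝ) := by positivity
    linarith
  intro r
  induction r with
  | zero =>
    intro _ R W Z hR hd hinv hno
    obtain rfl := card_eq_zero.1 hR
    simp only [pow_zero, mul_one]
    have hW1 : W.card ≤ 1 := by
      rw [card_le_one]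
      intro u hu v hv
      by_contra e
      exact hinv.noP (hasP_one hT hu hv e)
    rcases W.eq_empty_or_nonempty with rfl | ⟨w, hw⟩
    · have : Z.card ≤ 2 := by
        by_contra e
        obtain ⟨x, y, z, hx, hy, hz, h1, h2, h3⟩ := two_lt_card_iff.1 (not_le.1 e)
        have k : ∀ x ∈ Z, ∀ w ∈ Z, ∀ y ∈ Z, adj x w → adj w y → False := fun x hx w hw y hy a b =>
          hno x (by simpa using hx) w (by simpa using hw) y (by simpa using hy) a b (by simp)
            (by simp)
        rcases hT x y h1 with a | a <;> rcases hT x z h2 with b | b <;>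
          rcases hT y z h3 with c | c
        · exact k x hx y hy z hz a c
        · exact k x hx z hz y hy b c
        · exact k x hx y hy z hz a c
        · exact k z hz x hx y hy b a
        · exact k y hy x hx z hz a b
        · exact k y hy x hx z hz a b
        · exact k y hy z hz x hx c b
        · exact k z hz y hy x hx c a
      have : (Z.card : ℝ) ≤ 2 := by exact_mod_cast this
      simp only [card_empty, Nat.cast_zero]
      linarith
    · have : Z = ∅ := by
        rw [eq_empty_iff_forall_notMem]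
        intro z hz
        have hne : z ≠ w := fun e => disjoint_left.1 hd hw (e ▸ hz)
        have key : ∀ u ∈ W ∪ Z, ∀ v ∈ W ∪ Z, u ≠ v → adj u v → (u ∈ W ∨ v ∈ W) → False := by
          intro u hu v hv e k k'
          have := ((hinv _ _ _ _ ((RPath.single u).snoc k (by simpa using e.symm) (by simp))
            (insert_subset hv (by simpa using hu))).1 k').2.1 rfl
          simp at this
        rcases hT z w hne with k | k
        · exact key z (mem_union_right _ hz) w (mem_union_left _ hw) hne k (Or.inr hw)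
        · exact key w (mem_union_left _ hw) z (mem_union_right _ hz) hne.symm k (Or.inl hw)
      subst this
      have : (W.card : ℝ) ≤ 1 := by exact_mod_cast hW1
      simpa using this
  | succ r ih =>
    intro hr R W Z hR hd hinv hno
    obtain ⟨a, ha⟩ : R.Nonempty := card_pos.1 (by omega)
    obtain ⟨f, f1, f2⟩ := step_main hGR (a := a) hd hinv (by simp)
    obtain ⟨j, j1, j2⟩ := pair_choice hm hl (fun i => (Lev adj col a (W ∪ Z) Z f i).card)
    obtain ⟨Wc, Zc, c1, -, -, c4, c5, -⟩ := f2 j (l - 1 - j) (by omega) (by omega)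
    have s3 := sum_lev (adj := adj) (col := col) (a := a) (N := W ∪ Z) (X := Z) f1
    set ν : ℝ := 1 / 2 * (1 - 1 / (m : ℝ)) ^ r with hνd
    have hν0 : 0 ≤ ν := by positivity
    have h1 : ∑ i ∈ range l, (((Wc i).card : ℝ) + ν * (Zc i).card) ≤ ∑ _i ∈ range l, (l : ℝ) ^ r := by
      refine sum_le_sum fun i hi => ?_
      have ci := c1 i (mem_range.1 hi)
      refine ih (by omega) (R.erase a) _ _ (by rw [card_erase_of_mem ha, hR]; rfl) ci.disj
        ci.inv_none ?_
      intro x hx y hy z hz k1 k2 k3 k4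
      exact hno x (ci.sub hx) y (ci.sub hy) z (ci.sub hz) k1 k2
        (fun k => k3 (mem_erase.2 ⟨ci.free x hx y hy k1, k⟩))
        (fun k => k4 (mem_erase.2 ⟨ci.free y hy z hz k2, k⟩))
    rw [sum_add_distrib, ← mul_sum, sum_const, card_range, nsmul_eq_mul, ← pow_succ',
      ← Nat.cast_sum, ← Nat.cast_sum] at h1
    rw [if_neg not_false] at c5
    set y := (Unt adj col a (W ∪ Z) W).card
    set z := (Unt adj col a (W ∪ Z) Z).card
    set d := (Lev adj col a (W ∪ Z) Z f j).card + (Lev adj col a (W ∪ Z) Z f (l - 1 - j)).card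
      with hdd
    set q := l - 1 - j - j - 1 with hq
    have hq2 : (l : ℝ) - 2 * m ≤ q := by
      have : l ≤ q + 2 * m := by omega
      have : (l : ℝ) ≤ q + 2 * m := by exact_mod_cast this
      linarith
    have hlm : (0 : ℝ) ≤ (l : ℝ) - 2 * m := by
      have : ((2 * m : ℕ) : ℝ) ≤ l := by exact_mod_cast hl
      push_cast at this
      linarith
    have hq3 : 1 ≤ ν * q := by
      have k1 : (1 - 1 / (m : ℝ)) ^ K ≤ (1 - 1 / (m : ℝ)) ^ r :=
        pow_le_pow_of_le_one hq0 hq1 (by omega)
      calc 1 ≤ ((l : ℝ) - 2 * m) * (1 / 2 * (1 - 1 / (m : ℝ)) ^ K) := hν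
        _ ≤ q * ν := mul_le_mul hq2 (by rw [hνd]; linarith) (by positivity) (by positivity)
        _ = ν * q := mul_comm _ _
    have hν1 : ν ≤ 1 := by
      have := pow_le_one₀ hq0 hq1 (n := r)
      rw [hνd]; linarith
    have e1 : ((∑ i ∈ range l, (Wc i).card : ℕ) : ℝ) + y = W.card := by exact_mod_cast c4
    have e2 : ((∑ i ∈ range l, (Zc i).card : ℕ) : ℝ) + d + z = Z.card + q * (y + z) := by
      have : ∑ i ∈ range l, (Zc i).card + d + z = Z.card + q * (y + z) := by omega
      exact_mod_cast this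
    have e3 : (d : ℝ) ≤ Z.card / m := by
      rw [le_div_iff₀ (by linarith)]
      have : d * m ≤ Z.card := by rw [mul_comm]; omega
      exact_mod_cast this
    have hy : (0 : ℝ) ≤ y := Nat.cast_nonneg _
    have hz : (0 : ℝ) ≤ z := Nat.cast_nonneg _
    have e4 : 1 / 2 * (1 - 1 / (m : ℝ)) ^ (r + 1) * Z.card = ν * (Z.card - Z.card / m) := by
      rw [hνd]; ring
    rw [e4]
    have e5 : ((∑ i ∈ range l, (Zc i).card : ℕ) : ℝ) = Z.card + q * (y + z) - d - z := by linarith
    rw [e5] at h1
    nlinarith [mul_le_mul_of_nonneg_left e3 hν0, mul_le_mul_of_nonneg_right hq3 hy,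
      mul_le_mul_of_nonneg_right hq3 hz, mul_le_mul_of_nonneg_right hν1 hz]

end Pool.Agent.H31Fed
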