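import Pool.Agent.Lib.MP_fed786_co.H31Sys

set_option autoImplicit false

namespace Pool.Agent.H31Fed
open Finset Pool.Agent.H66Fed

variable {V C : Type} [DecidableEq V] [DecidableEq C]

/-- Tournament with `K` main colours; the other arcs go from `E` to `F`. -/
structure Base (adj : V → V → Prop) (col : V → V → C) (W : Finset V) (a : ℕ → C) (K : ℕ)
    (E F : V → Prop) : Prop where
  hT : ∀ u v, u ≠ v → adj u v ∨ adj v u
  hA : ∀ u v, adj u v → ¬ adj v u
  inj : ∀ i < K, ∀ j < K, a i = a j → i = j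
  hc : ∀ u ∈ W, ∀ v ∈ W, adj u v →
    (∃ j < K, col u v = a j) ∨ (E u ∧ F v ∧ ∀ j < K, col u v ≠ a j)
  hEF : ∀ x, E x → F x → False
  no : ¬ HasP adj col W (K + 1)

variable {adj : V → V → Prop} {col : V → V → C} {W : Finset V} {a : ℕ → C} {K l T : ℕ}
  {E F : V → Prop} {g : ℕ → V → ℕ} {I O : ℕ → Finset V}

theorem Base.flip (h : Base adj col W a K E F) : Base (flip adj) (flip col) W a K F E := by
  refine ⟨fun u v k => (h.hT u v k).symm, fun u v k => h.hA v u k, h.inj, ?_,
    fun x k k' => h.hEF x k' k, fun k => h.no k.of_reverse⟩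
  intro u hu v hv k
  rcases h.hc v hv u hu k with k | k
  · exact Or.inl k
  · exact Or.inr ⟨k.2.1, k.1, k.2.2⟩

theorem Base.irr (h : Base adj col W a K E F) (v : V) : ¬ adj v v := fun k => h.hA v v k k

theorem Base.inj' (h : Base adj col W a K E F) : ∀ j < K, ∀ i < j, a i ≠ a j := by
  intro j hj i hi e
  have := h.inj i (by omega) j hj e
  omega

theorem Base.glue0 (h : Base adj col W a K E F) {s e f t : V} {S S' : Finset V} {Z : Finset ℕ}
    (hZ : Z ⊆ range K) (p : RPath adj col s e S (Z.image a)) (hS : S ⊆ W) (hef : adj e f)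
    (hex : ∀ j < K, col e f ≠ a j)
    (p' : RPath (_root_.flip adj) (_root_.flip col) t f S' ((range K \ Z).image a)) (hS' : S' ⊆ W)
    (hd : Disjoint S S') : False := by
  have q : RPath adj col f t S' ((range K \ Z).image a) := p'.reverse
  have n1 : ∀ Y ⊆ range K, col e f ∉ Y.image a := by
    intro Y hY k
    obtain ⟨i, hi, e⟩ := mem_image.1 k
    exact hex i (mem_range.1 (hY hi)) e.symm
  have hio : Set.InjOn a (range K : Finset ℕ) := fun i hi j hj e =>
    h.inj i (by simpa using hi) j (by simpa using hj) e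
  have h3 : Disjoint (Z.image a) ((range K \ Z).image a) := by
    rw [disjoint_left]
    intro c k k'
    obtain ⟨i, hi, e⟩ := mem_image.1 k
    obtain ⟨j, hj, e'⟩ := mem_image.1 k'
    rw [mem_sdiff] at hj
    have := hio (hZ hi) hj.1 (e.trans e'.symm)
    exact hj.2 (this ▸ hi)
  apply h.no
  refine ⟨s, t, _, _, RPath.append p hef q hd (n1 Z hZ) (n1 _ sdiff_subset) h3,
    union_subset hS hS', ?_⟩
  rw [← image_union, union_sdiff_of_subset hZ, card_insert_of_notMem (n1 _ Subset.rfl),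
    card_image_of_injOn hio, card_range]

omit [DecidableEq V] [DecidableEq C] in
theorem sep {Z Z' : Finset ℕ} (hZ : Disjoint Z Z') {e f v w : V}
    (hv : ∃ j ∈ Z, (∀ i < j, g i v = g i e) ∧ g j v ≠ g j f)
    (hw : ∃ j ∈ Z', (∀ i < j, g i w = g i f) ∧ g j w ≠ g j e) : v ≠ w := by
  rintro rfl
  obtain ⟨j, j1, j2, j3⟩ := hv
  obtain ⟨k, k1, k2, k3⟩ := hw
  rcases lt_trichotomy j k with h | h | h
  · exact j3 (k2 j h)
  · exact disjoint_left.1 hZ j1 (h ▸ k1)
  · exact k3 (j2 k h)

theorem Base.glue1 (h : Base adj col W a K E F) {e f y y' : V} {Z : Finset ℕ}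
    (hZ : Z ⊆ range K) (hef : adj e f) (hex : ∀ j < K, col e f ≠ a j)
    (p : InP adj col W a g e Z f y)
    (p' : InP (_root_.flip adj) (_root_.flip col) W a g f (range K \ Z) e y') : False := by
  obtain ⟨s, S, p1, p2, p3⟩ := p
  obtain ⟨t, S', q1, q2, q3⟩ := p'
  refine h.glue0 hZ p1 p2 hef hex q1 q2 ?_
  rw [disjoint_left]
  intro v hv hv'
  rcases p3 v hv with k | ⟨j, j1, j2, j3, j4, _⟩ <;>
    rcases q3 v hv' with k' | ⟨i, i1, i2, i3, i4, _⟩
  · rw [← k, ← k'] at hef; exact h.irr v hef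
  · rw [k] at i4; exact i4 rfl
  · rw [k'] at j4; exact j4 rfl
  · exact sep disjoint_sdiff ⟨j, j1, j2, j4⟩ ⟨i, i1, i2, i4⟩ rfl

theorem Base.glue2 (h : Base adj col W a K E F) {u x f y : V} {Z : Finset ℕ} {c : ℕ}
    (hZ : Z ⊆ range K) (hc : c ∈ Z) (hx : x ∈ W) (hux : adj u x) (hcol : col u x = a c)
    (hxf : adj x f) (hex : ∀ j < K, col x f ≠ a j) (hag : ∀ i ∈ Z, g i f = g i x)
    (p : InP adj col W a g u (Z.erase c) f y)
    (p' : InP (_root_.flip adj) (_root_.flip col) W a g f (range K \ Z) u x) : False := by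
  obtain ⟨s, S, p1, p2, p3⟩ := p
  obtain ⟨t, S', q1, q2, q3⟩ := p'
  have hxS : x ∉ S := by
    intro k
    rcases p3 x k with k | ⟨j, j1, _, _, j4, _⟩
    · rw [k] at hux; exact h.irr u hux
    · exact j4 (hag j (mem_of_mem_erase j1)).symm
  have hcS : col u x ∉ (Z.erase c).image a := by
    rw [hcol]
    intro k
    obtain ⟨i, hi, e⟩ := mem_image.1 k
    exact ne_of_mem_erase hi
      (h.inj i (mem_range.1 (hZ (mem_of_mem_erase hi))) c (mem_range.1 (hZ hc)) e)
  have p4 := p1.snoc hux hxS hcS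
  rw [hcol, ← image_insert, insert_erase hc] at p4
  refine h.glue0 hZ p4 (insert_subset hx p2) hxf hex q1 q2 ?_
  rw [disjoint_left]
  intro v hv hv'
  rcases mem_insert.1 hv with k | hv
  · rcases q3 v hv' with k' | ⟨i, _, _, _, _, i5⟩
    · rw [← k, ← k'] at hxf; exact h.irr v hxf
    · rw [k] at i5; exact i5 rfl
  rcases p3 v hv with k | ⟨j, j1, j2, j3, j4, _⟩ <;>
    rcases q3 v hv' with k' | ⟨i, i1, i2, i3, i4, _⟩
  · rw [← k] at hux; rw [← k'] at hxf; exact h.hA _ _ hux hxf
  · rw [k] at i4; exact i4 rfl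
  · rw [k'] at j4; exact j4 rfl
  · exact sep disjoint_sdiff ⟨j, mem_of_mem_erase j1, j2, j4⟩ ⟨i, i1, i2, i4⟩ rfl

theorem typ_in (h : Base adj col W a K E F) (s : Sys adj col W a K l T E F g I O) (y1 y2 : V) :
    ∀ j ≤ K, ∀ x ∈ I j, x ∈ W ∧ ∀ Y : Finset ℕ,
      (∀ i ∈ Y, i < j ∧ ¬ g i x < T) → InP adj col W a g x Y y1 y2 :=
  inP_typ (fun n => n < T) h.inj' s.prop s.I0 (fun j hj x hx => (s.Is j hj x).1 hx) y1 y2

theorem typ_out (h : Base adj col W a K E F) (s : Sys adj col W a K l T E F g I O) (y1 y2 : V) :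
    ∀ j ≤ K, ∀ x ∈ O j, x ∈ W ∧ ∀ Y : Finset ℕ,
      (∀ i ∈ Y, i < j ∧ ¬ l ≤ g i x + T) → InP (flip adj) (flip col) W a g x Y y1 y2 :=
  inP_typ (fun n => l ≤ n + T) h.inj' (fun j hj u v k k' => (s.prop j hj v u k k').symm) s.O0
    (fun j hj x hx => (s.Os j hj x).1 hx) y1 y2

omit [DecidableEq V] [DecidableEq C] in
theorem Sys.I_anti (s : Sys adj col W a K l T E F g I O) {j : ℕ} :
    ∀ k, j + k ≤ K → I (j + k) ⊆ I j := by
  intro k
  induction k with
  | zero => exact fun _ => Subset.rfl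
  | succ k ih =>
    intro hk x hx
    exact ih (by omega) ((s.Is (j + k) (by omega) x).1 hx).1

omit [DecidableEq V] [DecidableEq C] in
theorem Sys.IK (s : Sys adj col W a K l T E F g I O) {j : ℕ} (hj : j ≤ K) : I K ⊆ I j := by
  have := s.I_anti (j := j) (K - j) (by omega)
  rwa [show j + (K - j) = K by omega] at this

omit [DecidableEq V] [DecidableEq C] in
theorem Sys.OK (s : Sys adj col W a K l T E F g I O) {j : ℕ} (hj : j ≤ K) : O K ⊆ O j :=
  s.flip.IK hj

omit [DecidableEq V] [DecidableEq C] in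
theorem Sys.IW (s : Sys adj col W a K l T E F g I O) {j : ℕ} (hj : j ≤ K) : I j ⊆ W := by
  have := s.I_anti (j := 0) j (by omega)
  rwa [Nat.zero_add, s.I0] at this

omit [DecidableEq V] [DecidableEq C] in
theorem Sys.OW (s : Sys adj col W a K l T E F g I O) {j : ℕ} (hj : j ≤ K) : O j ⊆ W :=
  s.flip.IW hj

/-- A special arc between typical vertices with room in every colour is impossible. -/
theorem free_arc (h : Base adj col W a K E F) (s : Sys adj col W a K l T E F g I O) {e f : V}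
    (he : e ∈ I K) (hf : f ∈ O K) (hef : adj e f) (hex : ∀ j < K, col e f ≠ a j)
    (hroom : ∀ i < K, g i e < T → g i f + T < l) : False := by
  refine h.glue1 (g := g) (y := f) (y' := e) (Z := (range K).filter fun i => ¬ g i e < T)
    (filter_subset _ _) hef hex ?_ ?_
  · apply (typ_in h s f f K le_rfl e he).2
    intro i hi
    rw [mem_filter, mem_range] at hi
    exact hi
  · apply (typ_out h s e e K le_rfl f hf).2
    intro i hi
    simp only [mem_sdiff, mem_filter, mem_range, not_and, not_not] at hi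
    have := hroom i hi.1 (hi.2 hi.1)
    exact ⟨hi.1, by omega⟩

/-- The point of a vertex. -/
def pt (g : ℕ → V → ℕ) (K : ℕ) (x : V) : Fin K → ℕ := fun i => g i x

theorem pt_inj (h : Base adj col W a K E F) (s : Sys adj col W a K l T E F g I O)
    (hl : 2 * T ≤ l) : Set.InjOn (pt g K) (I K ∩ O K : Finset V) := by
  have key : ∀ u ∈ I K ∩ O K, ∀ v ∈ I K ∩ O K, pt g K u = pt g K v → ¬ adj u v := by
    intro u hu v hv e huv
    rw [mem_inter] at hu hv
    have e' : ∀ i < K, g i u = g i v := fun i hi => congrFun e ⟨i, hi⟩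
    rcases h.hc u (s.IW le_rfl hu.1) v (s.IW le_rfl hv.1) huv with ⟨j, hj, k⟩ | k
    · exact s.prop j hj u v huv k (e' j hj)
    · refine free_arc h s hu.1 hv.2 huv k.2.2 ?_
      intro i hi k'
      rw [← e' i hi]
      omega
  intro u hu v hv e
  by_contra k
  rcases h.hT u v k with k | k
  · exact key u hu v hv e k
  · exact key v hv u hu e.symm k

/-- High indices of `x`. -/
def High (g : ℕ → V → ℕ) (K l T : ℕ) (x : V) : Finset ℕ :=
  (range K).filter fun i => l ≤ g i x + T

/-- A typical in-neighbour in colour `a c` with room below on the high indices of `x`. -/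
def Broad (adj : V → V → Prop) (col : V → V → C) (a : ℕ → C) (g : ℕ → V → ℕ) (K l T : ℕ)
    (I : ℕ → Finset V) (x : V) (c : ℕ) : Prop :=
  ∃ u ∈ I K, adj u x ∧ col u x = a c ∧ ∀ i ∈ High g K l T x, i ≠ c → T ≤ g i u

open Classical in
/-- The doubly poor high indices of `x`. -/
noncomputable def DD (adj : V → V → Prop) (col : V → V → C) (a : ℕ → C) (g : ℕ → V → ℕ)
    (K l T : ℕ) (I : ℕ → Finset V) (x : V) : Finset ℕ :=
  (High g K l T x).filter fun c =>
    ¬ Rich adj col (a c) g c (I c) x ∧ ¬ Broad adj col a g K l T I x c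

theorem unb (h : Base adj col W a K E F) (s : Sys adj col W a K l T E F g I O) (hl : 2 * T ≤ l)
    {x u : V} (hx : x ∈ W) (hu : u ∈ O K) (hxu : adj x u) (hex : ∀ j < K, col x u ≠ a j)
    {Z : Finset ℕ} (hZ : Z ⊆ High g K l T x) (hag : ∀ i ∈ Z, g i u = g i x)
    (hroom : ∀ i < K, i ∉ Z → g i u + T < l) : ∃ c ∈ Z, c ∈ DD adj col a g K l T I x := by
  classical
  have hZK : Z ⊆ range K := hZ.trans (filter_subset _ _)
  have hout : ∀ y1 y2, InP (flip adj) (flip col) W a g u (range K \ Z) y1 y2 := by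
    intro y1 y2
    apply (typ_out h s y1 y2 K le_rfl u hu).2
    intro i hi
    rw [mem_sdiff, mem_range] at hi
    have := hroom i hi.1 hi.2
    exact ⟨hi.1, by omega⟩
  rcases Z.eq_empty_or_nonempty with rfl | hne
  · exact (h.glue1 (y := u) hZK hxu hex (inP_empty hx) (hout x x)).elim
  have hc := Z.max'_mem hne
  set c := Z.max' hne with hcdef
  have hcK : c < K := mem_range.1 (hZK hc)
  refine ⟨c, hc, ?_⟩
  rw [DD, mem_filter]
  refine ⟨hZ hc, ?_, ?_⟩
  · intro hr
    refine h.glue1 (y := u) hZK hxu hex ?_ (hout x x)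
    rw [← insert_erase hc]
    have hY : ∀ i ∈ Z.erase c, i < c := by
      intro i hi
      have := Z.le_max' i (mem_of_mem_erase hi)
      have := ne_of_mem_erase hi
      omega
    refine inP_step hx (h.inj' c hcK) (s.prop c hcK) hY hr ?_
    intro w hw hwx
    apply (typ_in h s u u c hcK.le w hw).2
    intro i hi
    refine ⟨hY i hi, ?_⟩
    rw [hwx i (hY i hi)]
    have := (mem_filter.1 (hZ (mem_of_mem_erase hi))).2
    omega
  · rintro ⟨w, w1, w2, w3, w4⟩
    refine h.glue2 (y := u) hZK hc hx w2 w3 hxu hex hag ?_ (hout w x)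
    apply (typ_in h s u u K le_rfl w w1).2
    intro i hi
    have := w4 i (hZ (mem_of_mem_erase hi)) (ne_of_mem_erase hi)
    exact ⟨mem_range.1 (hZK (mem_of_mem_erase hi)), by omega⟩

/-- Typical vertices of the box below `x` are poor at an index of `DD x`. -/
theorem box_poor (h : Base adj col W a K E F) (s : Sys adj col W a K l T E F g I O)
    (hl : 2 * T ≤ l) {x u : V} (hx : x ∈ W) (hE : E x) (hne : (DD adj col a g K l T I x).Nonempty)
    (hu : u ∈ I K ∩ O K)
    (h1 : ∀ i ∈ DD adj col a g K l T I x, T ≤ g i u ∧ g i u + T < l)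
    (h2 : ∀ i < K, i ∉ DD adj col a g K l T I x → g i u = g i x) :
    ∃ j ∈ DD adj col a g K l T I x, ¬ Rich adj col (a j) g j (I j) u := by
  classical
  set D := DD adj col a g K l T I x with hD
  have hDm : ∀ i ∈ D, i < K ∧ l ≤ g i x + T ∧ ¬ Rich adj col (a i) g i (I i) x ∧
      ¬ Broad adj col a g K l T I x i := by
    intro i hi
    rw [hD, DD, mem_filter, High, mem_filter, mem_range] at hi
    exact ⟨hi.1.1, hi.1.2, hi.2⟩
  rw [mem_inter] at hu
  have huW := s.IW le_rfl hu.1
  have hux : u ≠ x := by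
    rintro rfl
    obtain ⟨i, hi⟩ := hne
    have := h1 i hi
    have := (hDm i hi).2.1
    omega
  rcases h.hT u x hux with k | k
  · rcases h.hc u huW x hx k with ⟨j, hj, e⟩ | e
    · have hjD : j ∈ D := by
        by_contra k'
        exact s.prop j hj u x k e (h2 j hj k')
      refine ((hDm j hjD).2.2.2 ⟨u, hu.1, k, e, ?_⟩).elim
      intro i hi _
      rw [High, mem_filter, mem_range] at hi
      by_cases k' : i ∈ D
      · exact (h1 i k').1
      · rw [h2 i hi.1 k']; omega
    · exact (h.hEF x hE e.2.1).elim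
  · rcases h.hc x hx u huW k with ⟨j, hj, e⟩ | e
    · have hjD : j ∈ D := by
        by_contra k'
        exact s.prop j hj x u k e (h2 j hj k').symm
      have q1 := h1 j hjD
      have q2 := hDm j hjD
      rcases s.bin j hj x u k e (by omega) q2.2.2.1 with k' | k'
      · exact ⟨j, hjD, k'⟩
      · exact (k'.1 hE).elim
    · obtain ⟨c, c1, c2⟩ := unb h s hl hx hu.2 k e.2.2 (Z := High g K l T x \ D) sdiff_subset
        (fun i hi => by
          rw [mem_sdiff, High, mem_filter, mem_range] at hi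
          exact h2 i hi.1.1 hi.2)
        (fun i hi k' => by
          by_cases k2 : i ∈ D
          · exact (h1 i k2).2
          · rw [h2 i hi k2]
            rw [mem_sdiff, High, mem_filter, mem_range] at k'
            by_contra k3
            exact k' ⟨⟨hi, by omega⟩, k2⟩)
      exact ((mem_sdiff.1 c1).2 c2).elim

end Pool.Agent.H31Fed
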