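import Pool.Agent.Lib.MP_fed786_co.H31EG

set_option autoImplicit false

namespace Pool.Agent.H31Fed
open Finset Pool.Agent.H66Fed

variable {V C : Type} [DecidableEq V] [DecidableEq C]
variable {adj : V → V → Prop} {col : V → V → C}

/-- No arc inside `N` has its colour in `R`. -/
def FreeS (adj : V → V → Prop) (col : V → V → C) (R : Finset C) (N : Finset V) : Prop :=
  ∀ u ∈ N, ∀ v ∈ N, adj u v → col u v ∉ R

/-- Subsets of `T` that avoid the colours in `R` have at most `Φ` vertices. -/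
def Core (adj : V → V → Prop) (col : V → V → C) (T : Finset V) (R : Finset C) (Φ : ℕ) : Prop :=
  ∀ L ⊆ T, FreeS adj col R L → L.card ≤ Φ

omit [DecidableEq V] [DecidableEq C] in
theorem FreeS.mono {R R' : Finset C} {N N' : Finset V} (h : FreeS adj col R N) (h1 : R' ⊆ R)
    (h2 : N' ⊆ N) : FreeS adj col R' N' :=
  fun u hu v hv k k' => h u (h2 hu) v (h2 hv) k (h1 k')

omit [DecidableEq V] in
theorem FreeS.insert {R : Finset C} {a : C} {N N' : Finset V} (h : FreeS adj col R N)
    (h1 : Fr adj col a N') (h2 : N' ⊆ N) : FreeS adj col (insert a R) N' := by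
  intro u hu v hv k k'
  rcases mem_insert.1 k' with e | e
  · exact h1 u hu v hv k e
  · exact h u (h2 hu) v (h2 hv) k e

theorem FreeS.disj {R B : Finset C} {N S : Finset V} {s t : V} (h : FreeS adj col R N)
    (p : RPath adj col s t S B) (hS : S ⊆ N) : Disjoint B R := by
  rw [disjoint_left]
  intro a k k'
  obtain ⟨u, hu, v, hv, k1, k2⟩ := p.col_mem k
  exact h u (hS hu) v (hS hv) k1 (k2 ▸ k')

omit [DecidableEq V] [DecidableEq C] in
theorem FreeS.flip {R : Finset C} {N : Finset V} (h : FreeS adj col R N) :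
    FreeS (flip adj) (flip col) R N := fun u hu v hv k => h v hv u hu k

omit [DecidableEq V] [DecidableEq C] in
theorem Core.mono {T T' : Finset V} {R : Finset C} {Φ : ℕ} (h : Core adj col T R Φ)
    (h1 : T' ⊆ T) : Core adj col T' R Φ := fun L hL k => h L (hL.trans h1) k

omit [DecidableEq V] in
theorem Core.erase {T T' : Finset V} {R : Finset C} {Φ : ℕ} {a : C} (h : Core adj col T R Φ)
    (h1 : T' ⊆ T) (h2 : Fr adj col a T') : Core adj col T' (R.erase a) Φ := by
  intro L hL k
  refine h L (hL.trans h1) fun u hu v hv e e' => k u hu v hv e ?_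
  exact mem_erase.2 ⟨h2 u (hL hu) v (hL hv) e, e'⟩

omit [DecidableEq V] [DecidableEq C] in
theorem GR.lev {l : ℕ} (h : GR adj col l) (c : C) :
    ∃ f : V → ℕ, (∀ v, f v < l) ∧ ∀ u v, adj u v → col u v = c → f u ≠ f v := by
  obtain ⟨f, f1, f2, _⟩ := h c (fun _ => 0)
  exact ⟨f, f1, f2⟩

omit [DecidableEq V] in
theorem kraft_sum {l Φ : ℕ} (hGR : GR adj col l) (U : V → Finset C) (R : Finset C) :
    ∀ N : Finset V, Core adj col N R Φ →
      (∀ z ∈ N, ∀ a ∈ U z, ¬ InA adj col a N z ∧ ¬ OutA adj col a N z) →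
      ∑ z ∈ N, l ^ (U z ∩ R).card ≤ l ^ R.card * Φ := by
  induction R using Finset.induction_on with
  | empty =>
    intro N hc _
    simpa using hc N Subset.rfl (fun _ _ _ _ _ => notMem_empty _)
  | insert a R ha ih =>
    intro N hc hU
    obtain ⟨f, f1, f2⟩ := GR.lev hGR a
    have h1 : ∀ i ∈ range l, ∑ z ∈ N.filter (fun z => a ∈ U z ∨ f z = i), l ^ (U z ∩ R).card ≤
        l ^ R.card * Φ := by
      intro i _
      apply ih
      · have := hc.erase (a := a) (filter_subset (fun z => a ∈ U z ∨ f z = i) N) (by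
          intro u hu v hv k k'
          rw [mem_filter] at hu hv
          rcases hu.2 with e | e
          · exact (hU u hu.1 a e).2 ⟨v, hv.1, k, k'⟩
          rcases hv.2 with e' | e'
          · exact (hU v hv.1 a e').1 ⟨u, hu.1, k, k'⟩
          exact f2 u v k k' (e.trans e'.symm))
        rwa [erase_insert ha] at this
      · intro z hz b hb
        have := hU z (mem_filter.1 hz).1 b hb
        exact ⟨fun ⟨u, k1, k2⟩ => this.1 ⟨u, (mem_filter.1 k1).1, k2⟩,
          fun ⟨u, k1, k2⟩ => this.2 ⟨u, (mem_filter.1 k1).1, k2⟩⟩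
    have h2 := sum_le_sum h1
    rw [sum_const, card_range, smul_eq_mul, ← mul_assoc, ← pow_succ',
      ← card_insert_of_notMem ha] at h2
    refine le_trans ?_ h2
    simp only [sum_filter]
    rw [sum_comm]
    refine sum_le_sum fun z _ => ?_
    by_cases e : a ∈ U z
    · have : U z ∩ insert a R = insert a (U z ∩ R) := by
        ext x
        simp only [mem_inter, mem_insert]
        constructor
        · tauto
        · rintro (rfl | k)
          · exact ⟨e, Or.inl rfl⟩
          · exact ⟨k.1, Or.inr k.2⟩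
      rw [this, card_insert_of_notMem (fun k => ha (mem_inter.1 k).2), pow_succ']
      simp [e]
    · have : U z ∩ insert a R = U z ∩ R := by
        ext x
        simp only [mem_inter, mem_insert]
        constructor
        · rintro ⟨k, rfl | k'⟩
          · exact absurd k e
          · exact ⟨k, k'⟩
        · tauto
      rw [this]
      simp [e, f1 z]

theorem small_pow {l : ℕ} (hl : 8 ≤ l) (u : ℕ) : l ^ 7 * u ≤ 7 * l ^ 7 + l ^ u := by
  by_cases h : u ≤ 7
  · nlinarith [Nat.zero_le (l ^ u), Nat.zero_le (l ^ 7)]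
  obtain ⟨j, rfl⟩ : ∃ j, u = 7 + (j + 1) := ⟨u - 8, by omega⟩
  have h1 : j < 8 ^ j := Nat.lt_pow_self (by norm_num)
  have h2 : 8 ^ (j + 1) ≤ l ^ (j + 1) := Nat.pow_le_pow_left hl _
  have h3 : 7 + (j + 1) ≤ l ^ (j + 1) := by rw [pow_succ] at h2; omega
  rw [pow_add]
  nlinarith [Nat.mul_le_mul_left (l ^ 7) h3, Nat.zero_le (l ^ 7)]

omit [DecidableEq V] in
theorem kraft_avg {l Φ n : ℕ} (hGR : GR adj col l) (hl : 8 ≤ l) {I R : Finset C} (hI : I ⊆ R)
    {N Z : Finset V} (hZ : Z ⊆ N) (hc : Core adj col N R Φ) (hΦ : l ^ R.card * Φ ≤ l ^ (n + 5)) :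
    ∑ a ∈ I, ((Unt adj col a N Z).card : ℝ) ≤ 7 * Z.card + (l : ℝ) ^ n / l ^ 2 := by
  classical
  let U : V → Finset C := fun z => I.filter fun a => ¬ InA adj col a N z ∧ ¬ OutA adj col a N z
  have h1 := kraft_sum hGR U R N hc (fun z _ a ha => (mem_filter.1 ha).2)
  have h2 : ∀ z, U z ∩ R = U z := fun z => inter_eq_left.2 ((filter_subset _ _).trans hI)
  simp only [h2] at h1
  have h3 : ∑ a ∈ I, (Unt adj col a N Z).card = ∑ z ∈ Z, (U z).card := by
    have := Finset.sum_card_bipartiteAbove_eq_sum_card_bipartiteBelow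
      (fun (a : C) (z : V) => ¬ InA adj col a N z ∧ ¬ OutA adj col a N z) (s := I) (t := Z)
    simp only [bipartiteAbove, bipartiteBelow] at this
    rw [← this]
    refine sum_congr rfl fun a _ => congrArg card ?_
    ext x; simp [mem_unt]
  have h4 : l ^ 7 * ∑ z ∈ Z, (U z).card ≤ 7 * l ^ 7 * Z.card + l ^ (n + 5) := by
    rw [mul_sum]
    refine (sum_le_sum fun z _ => small_pow hl (U z).card).trans ?_
    rw [sum_add_distrib, sum_const, smul_eq_mul, mul_comm]
    exact Nat.add_le_add_left ((sum_le_sum_of_subset hZ).trans (h1.trans hΦ)) _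
  rw [← h3] at h4
  have hl0 : (0 : ℝ) < l := by
    have : 0 < l := by omega
    exact_mod_cast this
  have h5 : (l : ℝ) ^ 7 * ∑ a ∈ I, ((Unt adj col a N Z).card : ℝ) ≤
      7 * l ^ 7 * Z.card + l ^ (n + 5) := by exact_mod_cast h4
  have h6 : (l : ℝ) ^ 7 * (7 * Z.card + (l : ℝ) ^ n / l ^ 2) = 7 * l ^ 7 * Z.card + l ^ (n + 5) := by
    field_simp
    ring
  rw [← h6] at h5
  exact le_of_mul_le_mul_left h5 (by positivity)

end Pool.Agent.H31Fed
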