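import Pool.Agent.Lib.MP_fed786_co.H31Bot

set_option autoImplicit false

namespace Pool.Agent.H31Fed
open Finset Pool.Agent.H66Fed

theorem exp_le_pow {x : ℝ} (h0 : 0 ≤ x) (h1 : x ≤ 1 / 2) (n : ℕ) :
    Real.exp (-(2 * x * n)) ≤ (1 - x) ^ n := by
  have h2 : Real.exp (-(2 * x)) ≤ 1 - x := by
    rw [Real.exp_neg, inv_le_iff_one_le_mul₀ (Real.exp_pos _)]
    have := Real.add_one_le_exp (2 * x)
    nlinarith
  calc Real.exp (-(2 * x * n)) = Real.exp (-(2 * x)) ^ n := by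
        rw [← Real.exp_nat_mul]; congr 1; ring
    _ ≤ _ := pow_le_pow_left₀ (Real.exp_pos _).le h2 n

theorem Hs_le (l n : ℕ) : Hs l n ≤ 60 * (1 + Real.log n) + (n + 1) * (4 / l) := by
  have h1 := harmonic_le_one_add_log n
  rw [Hs, sum_add_distrib, sum_const, card_range, nsmul_eq_mul, sum_range_succ']
  have h2 : ∑ k ∈ range n, 60 / ((k + 1 : ℕ) : ℝ) = 60 * (harmonic n : ℝ) := by
    rw [harmonic, Rat.cast_sum, mul_sum]
    refine sum_congr rfl fun k _ => ?_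
    push_cast
    ring
  rw [h2]
  push_cast
  rw [div_zero]
  linarith

theorem xs_le {H : ℝ} (hH : 500 ≤ H) : ∀ e, xs H e + 1 ≤ 2 * (480 * H) ^ e
  | 0 => by norm_num [xs]
  | e + 1 => by
    have h1 := xs_le hH e
    have h2 := xs_nonneg (show 0 ≤ H by linarith) e
    simp only [xs]
    rw [pow_succ]
    nlinarith

theorem numerics {l K : ℕ} (hl : (10 ^ 18) ^ 60 ≤ l) (hK : 20 * (K : ℝ) ≤ l * Real.log l) :
    ∃ (M T : ℕ) (H F : ℝ), F = 111630 + (20 * M + 60) + 4 * xs H 5 ∧ K ≤ M * l ∧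
      80 * M + 120 ≤ l ∧ 1 ≤ T ∧ 60 * (225 * T) ^ 2 ≤ l ∧ Hs l K ≤ H ∧ 0 ≤ F ∧ 8 * F ≤ l ∧
      1 ≤ ((l : ℝ) - 2 * (l / 4 : ℕ)) * (1 / 2 * (1 - 1 / ((l / 4 : ℕ) : ℝ)) ^ K) ∧
      2 * (K * (4 * (2 * F + 1) / l + T / l ^ 2)) ≤ T * (1 - 2 / (l : ℝ)) ^ K := by
  have hl1 : 20 ≤ l := le_trans (le_trans (by norm_num) (Nat.le_self_pow (by norm_num) _)) hl
  have hl2 : (20 : ℝ) ≤ l := by exact_mod_cast hl1
  have hl0 : (0 : ℝ) < l := by linarith
  set L := Real.log l with hL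
  have hL0 : 0 ≤ L := Real.log_nonneg (by linarith)
  set y := Real.exp (L / 60) with hy
  have y0 : 0 < y := Real.exp_pos _
  have ypow : ∀ n : ℕ, y ^ n = Real.exp (n * (L / 60)) := fun n => (Real.exp_nat_mul _ n).symm
  have y60 : y ^ 60 = l := by
    rw [ypow, show ((60 : ℕ) : ℝ) * (L / 60) = L by push_cast; ring, hL, Real.exp_log hl0]
  have y1 : (10 : ℝ) ^ 18 ≤ y := by
    apply le_of_pow_le_pow_left₀ (n := 60) (by norm_num) y0.le
    rw [y60]
    exact_mod_cast hl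
  have yL : L ≤ 60 * y := by
    have := Real.add_one_le_exp (L / 60)
    linarith
  have y2 : (1 : ℝ) ≤ y := by linarith
  have ym : ∀ a b : ℕ, a ≤ b → y ^ a ≤ y ^ b := fun a b h => pow_le_pow_right₀ y2 h
  have hM : (⌈L / 20⌉₊ : ℝ) ≤ 4 * y := by
    have := (Nat.ceil_lt_add_one (show 0 ≤ L / 20 by positivity)).le
    linarith
  have hT1 : y ^ 20 ≤ ⌈y ^ 20⌉₊ := Nat.le_ceil _
  have hT2 : (⌈y ^ 20⌉₊ : ℝ) ≤ 2 * y ^ 20 := by
    have := (Nat.ceil_lt_add_one (show 0 ≤ y ^ 20 by positivity)).le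
    have := one_le_pow₀ y2 (n := 20)
    linarith
  have hKl : (K : ℝ) / l ≤ L / 20 := by
    rw [div_le_div_iff₀ hl0 (by norm_num)]; linarith
  have hx := xs_le (H := 7400 * y) (by linarith) 5
  have hx0 := xs_nonneg (H := 7400 * y) (by linarith) 5
  have y5 : y ≤ y ^ 5 := le_self_pow₀ y2 (by norm_num)
  set F := 111630 + (20 * (⌈L / 20⌉₊ : ℝ) + 60) + 4 * xs (7400 * y) 5 with hF
  have hF0 : 0 ≤ F := by positivity
  have hF1 : F ≤ 5 * 10 ^ 33 * y ^ 5 := by
    rw [← mul_assoc, mul_pow] at hx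
    rw [hF]
    nlinarith
  have yy : (10 : ℝ) ^ 36 ≤ y ^ 2 := by nlinarith
  refine ⟨⌈L / 20⌉₊, ⌈y ^ 20⌉₊, 7400 * y, F, hF, ?_, ?_, ?_, ?_, ?_, hF0, ?_, ?_, ?_⟩
  · have : (K : ℝ) ≤ ⌈L / 20⌉₊ * l := by
      rw [div_le_iff₀ hl0] at hKl
      exact hKl.trans (mul_le_mul_of_nonneg_right (Nat.le_ceil _) hl0.le)
    exact_mod_cast this
  · have : 80 * (⌈L / 20⌉₊ : ℝ) + 120 ≤ l := by
      have := ym 2 60 (by norm_num)
      nlinarith
    exact_mod_cast this
  · exact Nat.one_le_ceil_iff.2 (by positivity)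
  · have : 60 * (225 * (⌈y ^ 20⌉₊ : ℝ)) ^ 2 ≤ l := by
      have k1 : (225 * (⌈y ^ 20⌉₊ : ℝ)) ^ 2 ≤ (225 * (2 * y ^ 20)) ^ 2 :=
        pow_le_pow_left₀ (by positivity) (by linarith) 2
      have k2 := ym 42 60 (by norm_num)
      have k3 : y ^ 42 = y ^ 2 * y ^ 40 := by ring
      have k4 : (225 * (2 * y ^ 20)) ^ 2 = 202500 * y ^ 40 := by ring
      have k5 : 0 ≤ y ^ 40 := by positivity
      nlinarith
    exact_mod_cast this
  · refine (Hs_le l K).trans ?_
    have k1 : Real.log K ≤ 2 * L := by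
      rcases Nat.eq_zero_or_pos K with rfl | k
      · simpa using hL0
      have k2 : L ≤ l := by
        have := Real.log_le_sub_one_of_pos hl0
        linarith
      calc Real.log K ≤ Real.log (l ^ 2) :=
            Real.log_le_log (by exact_mod_cast k) (by nlinarith)
        _ = 2 * L := by rw [Real.log_pow, ← hL]; norm_num
    have k2 : ((K : ℝ) + 1) * (4 / l) = 4 * (K / l) + 4 / l := by ring
    have k3 : 4 / (l : ℝ) ≤ 1 := by rw [div_le_one hl0]; linarith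
    linarith
  · have k1 := ym 7 60 (by norm_num)
    have k2 : y ^ 7 = y ^ 2 * y ^ 5 := by ring
    have k3 : 0 ≤ y ^ 5 := by positivity
    nlinarith
  · have m1 : (l : ℝ) ≤ 5 * (l / 4 : ℕ) := by exact_mod_cast (show l ≤ 5 * (l / 4) by omega)
    have m2 : 4 * ((l / 4 : ℕ) : ℝ) ≤ l := by exact_mod_cast (show 4 * (l / 4) ≤ l by omega)
    set m : ℝ := ((l / 4 : ℕ) : ℝ) with hm
    have m0 : 0 < m := by linarith
    have k1 := exp_le_pow (x := 1 / m) (by positivity)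
      (by rw [div_le_div_iff₀ m0 (by norm_num)]; linarith) K
    have k2 : Real.exp (-(30 * (L / 60))) ≤ Real.exp (-(2 * (1 / m) * K)) := by
      rw [Real.exp_le_exp, neg_le_neg_iff, mul_one_div, div_mul_eq_mul_div, div_le_iff₀ m0]
      nlinarith
    have k3 : y ^ 30 * Real.exp (-(30 * (L / 60))) = 1 := by
      rw [ypow, ← Real.exp_add]; simp
    have k4 : 4 * y ^ 30 ≤ l := by
      have := ym 31 60 (by norm_num)
      have : y ^ 31 = y * y ^ 30 := by ring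
      have : 0 ≤ y ^ 30 := by positivity
      nlinarith
    have k5 := k2.trans k1
    have k6 := (Real.exp_pos (-(30 * (L / 60)))).le
    calc (1 : ℝ) = (2 * y ^ 30) * (1 / 2 * Real.exp (-(30 * (L / 60)))) := by linarith
      _ ≤ _ := mul_le_mul (by linarith) (by linarith) (by positivity) (by linarith)
  · have k1 := exp_le_pow (x := 2 / l) (by positivity)
      (by rw [div_le_div_iff₀ hl0 (by norm_num)]; linarith) K
    have k2 : Real.exp (-(12 * (L / 60))) ≤ Real.exp (-(2 * (2 / l) * K)) := by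
      rw [Real.exp_le_exp, neg_le_neg_iff]
      have : 2 * (2 / (l : ℝ)) * K = 4 * (K / l) := by ring
      linarith
    have k3 : y ^ 12 * Real.exp (-(12 * (L / 60))) = 1 := by
      rw [ypow, ← Real.exp_add]; simp
    have k5 := k2.trans k1
    have k6 := (Real.exp_pos (-(12 * (L / 60)))).le
    have k7 : y ^ 8 ≤ ⌈y ^ 20⌉₊ * (1 - 2 / (l : ℝ)) ^ K :=
      calc y ^ 8 = y ^ 20 * Real.exp (-(12 * (L / 60))) := by
            rw [show y ^ 20 = y ^ 8 * y ^ 12 by ring, mul_assoc, k3, mul_one]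
        _ ≤ _ := mul_le_mul hT1 k5 k6 (by positivity)
    refine le_trans ?_ k7
    have k8 : (⌈y ^ 20⌉₊ : ℝ) / l ≤ 1 := by
      rw [div_le_one hl0]
      have := ym 21 60 (by norm_num)
      have : y ^ 21 = y * y ^ 20 := by ring
      have : 0 ≤ y ^ 20 := by positivity
      nlinarith
    have k9 : 2 * (K * (4 * (2 * F + 1) / l + (⌈y ^ 20⌉₊ : ℝ) / l ^ 2)) =
        2 * ((K / l) * (4 * (2 * F + 1) + (⌈y ^ 20⌉₊ : ℝ) / l)) := by
      field_simp
    rw [k9]
    have q1 : (K : ℝ) / l * (4 * (2 * F + 1) + (⌈y ^ 20⌉₊ : ℝ) / l) ≤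
        (3 * y) * (5 * 10 ^ 34 * y ^ 5) :=
      mul_le_mul (by linarith) (by linarith) (by positivity) (by positivity)
    have q2 : y ^ 8 = y ^ 2 * (y * y ^ 5) := by ring
    have q3 : 0 ≤ y * y ^ 5 := by positivity
    nlinarith

variable {V C : Type} [DecidableEq V] [DecidableEq C]
variable {adj : V → V → Prop} {col : V → V → C}

theorem main2 {l : ℕ} (hT : ∀ u v, u ≠ v → adj u v ∨ adj v u) (hA : ∀ u v, adj u v → ¬ adj v u)
    (hGR : GR adj col l) (hGR' : GR (flip adj) (flip col) l) (hl : (10 ^ 18) ^ 60 ≤ l) :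
    ∀ k : ℕ, 20 * (k : ℝ) ≤ l * Real.log l → ∀ U : Finset V, ¬ HasP adj col U k →
      l * U.card ≤ l ^ k := by
  have hl1 : 360 * 62 ^ 2 ≤ l :=
    le_trans (le_trans (by norm_num) (Nat.le_self_pow (by norm_num) _)) hl
  intro k
  induction k using Nat.strong_induction_on with
  | _ k ih =>
    intro hk U hU
    by_cases h1 : k ≤ 62
    · exact main hT hA hGR k ((Nat.mul_le_mul_left 360 (Nat.pow_le_pow_left h1 2)).trans hl1) U hU
    obtain ⟨c, rfl⟩ : ∃ c, k = c + 1 + 1 := ⟨k - 2, by omega⟩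
    have hc : ∀ r ≤ c + 1, 20 * (r : ℝ) ≤ l * Real.log l := by
      intro r hr
      have : (r : ℝ) ≤ (c + 1 + 1 : ℕ) := by exact_mod_cast hr.trans (Nat.le_succ _)
      linarith
    have h : Ctx adj col l (c + 1) :=
      ⟨hT, hA, hGR, hGR', by omega, fun r hr => ih r (by omega) (hc r hr)⟩
    obtain ⟨M, T, H, F, e, n1, n2, n3, n4, n5, n6, n7, n8, n9⟩ := numerics hl (hc (c + 1) le_rfl)
    have := chain h n1 n2 n3 n4 n6 (e ▸ rooted_bound h (by omega) n1 (by omega) n5)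
      (e ▸ rooted_bound h.flip (by omega) n1 (by omega) n5) (by omega) (by omega) n8 ?_ n9 hU
    · rw [pow_succ' l (c + 1)]
      exact Nat.mul_le_mul_left _ this
    have k1 : 2 * (2 * (c + 2) ^ 2 + 7) ≤ l ^ (c + 1) := by
      have a1 : c + 2 ≤ l * l := by nlinarith
      have a2 := Nat.pow_le_pow_left a1 2
      have a3 : l ^ 5 ≤ l ^ (c + 1) := Nat.pow_le_pow_right (by omega) (by omega)
      have a4 : l ^ 5 = (l * l) ^ 2 * l := by ring
      have a5 : 1 ≤ (l * l) ^ 2 := Nat.one_le_pow _ _ (by omega)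
      nlinarith
    have k2 : 2 * (2 * ((c : ℝ) + 2) ^ 2 + 7) ≤ l ^ (c + 1) := by exact_mod_cast k1
    have k3 := mul_le_mul_of_nonneg_right n7 (show (0 : ℝ) ≤ l ^ c by positivity)
    rw [← pow_succ'] at k3
    linarith

theorem log_l (k : ℕ) (hk : 0 < k) (l : ℕ) (hl : (10 ^ 18) ^ 60 ≤ l)
    (hkl : 20 * (k : ℝ) ≤ l * Real.log l)
    (adj : Fin (l ^ (k - 1) + 1) → Fin (l ^ (k - 1) + 1) → Prop)
    (h1 : ∀ u, ¬ adj u u) (h2 : ∀ u v, u ≠ v → (adj u v ↔ ¬ adj v u))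
    (c : Fin (l ^ (k - 1) + 1) → Fin (l ^ (k - 1) + 1) → ℕ) :
    (∃ p : Fin (l + 1) → Fin (l ^ (k - 1) + 1), Function.Injective p ∧
      (∀ i : Fin l, adj (p i.castSucc) (p i.succ)) ∧
      (∀ i j : Fin l, c (p i.castSucc) (p i.succ) = c (p j.castSucc) (p j.succ))) ∨
    (∃ p : Fin (k + 1) → Fin (l ^ (k - 1) + 1), Function.Injective p ∧
      (∀ i : Fin k, adj (p i.castSucc) (p i.succ)) ∧
      Function.Injective (fun i : Fin k => c (p i.castSucc) (p i.succ))) := by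
  by_contra hcon
  rw [not_or] at hcon
  have hT : ∀ u v, u ≠ v → adj u v ∨ adj v u := by
    intro u v huv
    by_cases e : adj v u
    · exact Or.inr e
    · exact Or.inl ((h2 u v huv).2 e)
  have hA : ∀ u v, adj u v → ¬ adj v u := by
    intro u v huv
    by_cases e : u = v
    · subst e; exact absurd huv (h1 u)
    · exact (h2 u v e).1 huv
  have hl0 : 0 < l := lt_of_lt_of_le (by positivity) hl
  have hG := gallai_roy h1 hcon.1
  have := main2 hT hA hG (GR.flip hG) hl k hkl univ (fun h => hcon.2 h.fin)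
  rw [card_univ, Fintype.card_fin] at this
  obtain ⟨k, rfl⟩ : ∃ j, k = j + 1 := ⟨k - 1, by omega⟩
  simp only [Nat.add_sub_cancel, pow_succ] at this
  nlinarith

end Pool.Agent.H31Fed
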