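import Pool.Agent.Lib.MP_fed786_co.H31Glue

set_option autoImplicit false

namespace Pool.Agent.H31Fed
open Finset Pool.Agent.H66Fed

variable {V C : Type} [DecidableEq V] [DecidableEq C]
variable {adj : V → V → Prop} {col : V → V → C} {W : Finset V} {a : ℕ → C} {K l T : ℕ}
  {E F : V → Prop} {g : ℕ → V → ℕ} {I O : ℕ → Finset V}

omit [DecidableEq C] in
open Classical in
theorem tour_sum (hT : ∀ u v, u ≠ v → adj u v ∨ adj v u) (S : Finset V) :
    S.card * (S.card - 1) ≤ 2 * ∑ x ∈ S, (S.filter fun u => adj u x).card := by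
  have h1 := Finset.sum_card_bipartiteAbove_eq_sum_card_bipartiteBelow
    (fun (v u : V) => adj v u) (s := S) (t := S)
  simp only [bipartiteAbove, bipartiteBelow] at h1
  have h2 : ∑ _x ∈ S, (S.card - 1) ≤ ∑ x ∈ S, ((S.filter fun u => adj x u).card +
      (S.filter fun u => adj u x).card) := by
    apply sum_le_sum
    intro x hx
    rw [← card_erase_of_mem hx]
    refine le_trans (card_le_card ?_) (card_union_le _ _)
    intro u hu
    rw [mem_erase] at hu
    rcases hT u x hu.1 with k | k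
    · exact mem_union_right _ (mem_filter.2 ⟨hu.2, k⟩)
    · exact mem_union_left _ (mem_filter.2 ⟨hu.2, k⟩)
  rw [sum_add_distrib, h1, sum_const, smul_eq_mul] at h2
  omega

omit [DecidableEq C] in
open Classical in
theorem tour_deg (hT : ∀ u v, u ≠ v → adj u v ∨ adj v u) {S : Finset V} {d : ℕ}
    (hd : ∀ x ∈ S, (S.filter fun u => adj u x).card ≤ d) : S.card ≤ 2 * d + 1 := by
  have h1 := tour_sum hT S
  have h2 := sum_le_card_nsmul S _ d hd
  rw [smul_eq_mul] at h2
  by_contra k
  obtain ⟨n, hn⟩ : ∃ n, S.card = n + 1 := ⟨S.card - 1, by omega⟩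
  rw [hn] at h1 h2 k
  rw [Nat.add_sub_cancel] at h1
  nlinarith

/-- `u` and `x` lie on a common line in direction `j`. -/
def Ln (g : ℕ → V → ℕ) (K j : ℕ) (x u : V) : Prop := ∀ i < K, i ≠ j → g i u = g i x

theorem arc_ln (h : Base adj col W a K E F)
    (hp : ∀ j < K, ∀ u v, adj u v → col u v = a j → g j u ≠ g j v) {j : ℕ} {u v : V} (hu : u ∈ W)
    (hv : v ∈ W) (hl : Ln g K j u v) (huv : adj u v) :
    col u v = a j ∨ (E u ∧ F v ∧ ∀ j < K, col u v ≠ a j) := by
  rcases h.hc u hu v hv huv with ⟨i, hi, k⟩ | k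
  · by_cases e : i = j
    · exact Or.inl (e ▸ k)
    · exact (hp i hi u v huv k (hl i hi e).symm).elim
  · exact Or.inr k

theorem cadj_ln (h : Base adj col W a K E F)
    (hp : ∀ j < K, ∀ u v, adj u v → col u v = a j → g j u ≠ g j v) {j : ℕ} {x u v : V}
    (hu : u ∈ W) (hv : v ∈ W) (h1 : Ln g K j x u) (h2 : Ln g K j x v) (huv : u ≠ v)
    (hF : F u ↔ F v) : CAdj adj col (a j) u v := by
  rcases h.hT u v huv with k | k
  · rcases arc_ln h hp hu hv (fun i hi e => (h2 i hi e).trans (h1 i hi e).symm) k with e | e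
    · exact Or.inl ⟨k, e⟩
    · exact (h.hEF u e.1 (hF.2 e.2.1)).elim
  · rcases arc_ln h hp hv hu (fun i hi e => (h1 i hi e).trans (h2 i hi e).symm) k with e | e
    · exact Or.inr ⟨k, e⟩
    · exact (h.hEF v e.1 (hF.1 e.2.1)).elim

theorem nb_two (h : Base adj col W a K E F)
    (hp : ∀ j < K, ∀ u v, adj u v → col u v = a j → g j u ≠ g j v) {j : ℕ} (hj : j < K) {x : V}
    {U S : Finset V} (hU : U ⊆ W) (hr : ¬ Rich adj col (a j) g j U x) (hS : S ⊆ U)
    (hS' : ∀ u ∈ S, Ln g K j x u ∧ adj u x ∧ col u x = a j) (hF : ∀ u ∈ S, ∀ v ∈ S, F u → F v) :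
    S.card ≤ 2 := by
  by_contra k
  obtain ⟨u1, u2, u3, m1, m2, m3, n1, n2, n3⟩ := two_lt_card_iff.1 (not_le.1 k)
  have nb : ∀ u ∈ S, Nb adj col (a j) g j U x u := fun u hu =>
    ⟨hS hu, fun i hi => (hS' u hu).1 i (by omega) (by omega), (hS' u hu).2⟩
  have ca : ∀ u ∈ S, ∀ v ∈ S, u ≠ v → CAdj adj col (a j) u v := fun u hu v hv e =>
    cadj_ln h hp (hU (hS hu)) (hU (hS hv)) (hS' u hu).1 (hS' v hv).1 e ⟨hF u hu v hv, hF v hv u hu⟩
  exact hr ⟨u1, u2, u3, nb _ m1, nb _ m2, nb _ m3, ca _ m1 _ m2 n1, ca _ m1 _ m3 n2,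
    ca _ m2 _ m3 n3⟩

theorem nb_four (h : Base adj col W a K E F)
    (hp : ∀ j < K, ∀ u v, adj u v → col u v = a j → g j u ≠ g j v) {j : ℕ} (hj : j < K) {x : V}
    {U S : Finset V} (hU : U ⊆ W) (hr : ¬ Rich adj col (a j) g j U x) (hS : S ⊆ U)
    (hS' : ∀ u ∈ S, Ln g K j x u ∧ adj u x ∧ col u x = a j) : S.card ≤ 4 := by
  classical
  have h1 := nb_two h hp hj hU hr (S := S.filter F) ((filter_subset _ _).trans hS)
    (fun u hu => hS' u (mem_filter.1 hu).1) (fun u _ v hv _ => (mem_filter.1 hv).2)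
  have h2 := nb_two h hp hj hU hr (S := S.filter fun u => ¬ F u) ((filter_subset _ _).trans hS)
    (fun u hu => hS' u (mem_filter.1 hu).1) (fun u hu v _ k => ((mem_filter.1 hu).2 k).elim)
  have := card_filter_add_card_filter_not (s := S) F
  omega

theorem ln_ten (h : Base adj col W a K E F)
    (hp : ∀ j < K, ∀ u v, adj u v → col u v = a j → g j u ≠ g j v) {j : ℕ} (hj : j < K)
    {U S : Finset V} (hU : U ⊆ W) (hS : S ⊆ U) (hr : ∀ x ∈ S, ¬ Rich adj col (a j) g j U x)
    (hS' : ∀ u ∈ S, ∀ v ∈ S, Ln g K j u v) : S.card ≤ 10 := by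
  classical
  have key : ∀ S' ⊆ S, (∀ u ∈ S', ∀ v ∈ S', F u → F v) → S'.card ≤ 2 * 2 + 1 := by
    intro S' h1 h2
    apply tour_deg h.hT
    intro x hx
    refine nb_two h hp hj hU (hr x (h1 hx)) ((filter_subset _ _).trans (h1.trans hS)) ?_
      (fun u hu v hv => h2 u (mem_filter.1 hu).1 v (mem_filter.1 hv).1)
    intro u hu
    rw [mem_filter] at hu
    refine ⟨hS' x (h1 hx) u (h1 hu.1), hu.2, ?_⟩
    rcases arc_ln h hp (hU (hS (h1 hu.1))) (hU (hS (h1 hx))) (hS' u (h1 hu.1) x (h1 hx)) hu.2 with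
      k | k
    · exact k
    · exact (h.hEF u k.1 (h2 x hx u hu.1 k.2.1)).elim
  have h1 := key (S.filter F) (filter_subset _ _) (fun u _ v hv _ => (mem_filter.1 hv).2)
  have h2 := key (S.filter fun u => ¬ F u) (filter_subset _ _)
    (fun u hu v _ k => ((mem_filter.1 hu).2 k).elim)
  have := card_filter_add_card_filter_not (s := S) F
  omega

open Classical in
theorem window (h : Base adj col W a K E F) (s : Sys adj col W a K l T E F g I O) (hl : 3 * T ≤ l)
    {j : ℕ} (hj : j < K) {x : V} (hx : x ∈ I j) (hx' : x ∉ I (j + 1))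
    (hα : ¬ (F x ∧ x ∉ O K)) (hβ : ¬ (E x ∧ (DD adj col a g K l T I x).Nonempty)) :
    ((I K ∩ O K).filter fun u => Ln g K j x u ∧ min (g j x) (l - T) - T ≤ g j u ∧
      g j u < min (g j x) (l - T)).card ≤ 14 := by
  have hxW := s.IW hj.le hx
  have h0 : ¬ (g j x < T ∨ Rich adj col (a j) g j (I j) x) := fun k =>
    hx' ((s.Is j hj x).2 ⟨hx, k⟩)
  rw [not_or] at h0
  set S := (I K ∩ O K).filter fun u => Ln g K j x u ∧ min (g j x) (l - T) - T ≤ g j u ∧
      g j u < min (g j x) (l - T) with hS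
  have hm : ∀ u ∈ S, u ∈ I K ∧ u ∈ O K ∧ Ln g K j x u ∧ g j u < g j x ∧ g j u + T < l ∧
      (g j u < T → g j x + T < l) := by
    intro u hu
    rw [hS, mem_filter, mem_inter] at hu
    obtain ⟨⟨u1, u2⟩, u3, u4, u5⟩ := hu
    exact ⟨u1, u2, u3, by omega, by omega, by omega⟩
  have hin : ∀ u ∈ S, adj u x → col u x = a j := by
    intro u hu k
    obtain ⟨u1, u2, u3, u4, u5, u6⟩ := hm u hu
    rcases arc_ln h s.prop (s.IW le_rfl u1) hxW (fun i hi e => (u3 i hi e).symm) k with e | e
    · exact e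
    · refine (hα ⟨e.2.1, fun k' => free_arc h s u1 k' k e.2.2 ?_⟩).elim
      intro i hi k2
      by_cases e' : i = j
      · subst e'; exact u6 k2
      · rw [← u3 i hi e']; omega
  have hout : ∀ u ∈ S, adj x u → col x u = a j := by
    intro u hu k
    obtain ⟨u1, u2, u3, u4, u5, u6⟩ := hm u hu
    rcases arc_ln h s.prop hxW (s.IW le_rfl u1) u3 k with e | e
    · exact e
    · obtain ⟨c, _, c2⟩ := unb h s (by omega) hxW u2 k e.2.2 (Z := (High g K l T x).erase j)
        (erase_subset _ _)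
        (fun i hi => u3 i (mem_range.1 (mem_filter.1 (mem_of_mem_erase hi)).1)
          (ne_of_mem_erase hi))
        (fun i hi k' => by
          by_cases e' : i = j
          · subst e'; exact u5
          · rw [u3 i hi e']
            by_contra k3
            exact k' (mem_erase.2 ⟨e', mem_filter.2 ⟨mem_range.2 hi, by omega⟩⟩))
      exact (hβ ⟨e.1, c, c2⟩).elim
  have h1 : (S.filter fun u => adj u x).card ≤ 4 := by
    refine nb_four h s.prop hj (s.IW hj.le) h0.2
      (fun u hu => s.IK hj.le (hm u (mem_filter.1 hu).1).1) ?_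
    intro u hu
    rw [mem_filter] at hu
    exact ⟨(hm u hu.1).2.2.1, hu.2, hin u hu.1 hu.2⟩
  have h2 : (S.filter fun u => ¬ adj u x).card ≤ 10 := by
    have hadj : ∀ u ∈ S.filter fun u => ¬ adj u x, adj x u := by
      intro u hu
      rw [mem_filter] at hu
      refine (h.hT u x ?_).resolve_left hu.2
      rintro rfl
      exact lt_irrefl _ (hm u hu.1).2.2.2.1
    by_cases k : ¬ E x ∧ ¬ Rich (flip adj) (flip col) (a j) g j (O j) x
    · refine le_trans (nb_four h.flip (fun j hj u v k k' => (s.prop j hj v u k k').symm) hj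
        (s.OW hj.le) k.2 (fun u hu => s.OK hj.le (hm u (mem_filter.1 hu).1).2.1) ?_) (by omega)
      intro u hu
      exact ⟨(hm u (mem_filter.1 hu).1).2.2.1, hadj u hu, hout u (mem_filter.1 hu).1 (hadj u hu)⟩
    · refine ln_ten h s.prop hj (s.IW hj.le)
        (fun u hu => s.IK hj.le (hm u (mem_filter.1 hu).1).1) ?_ ?_
      · intro u hu
        exact (s.bin j hj x u (hadj u hu) (hout u (mem_filter.1 hu).1 (hadj u hu))
          (hm u (mem_filter.1 hu).1).2.2.2.1 h0.2).resolve_right k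
      · intro u hu v hv i hi e
        exact ((hm v (mem_filter.1 hv).1).2.2.1 i hi e).trans
          ((hm u (mem_filter.1 hu).1).2.2.1 i hi e).symm
  have := card_filter_add_card_filter_not (s := S) (fun u => adj u x)
  omega

/-- Points of the cube that carry no typical vertex. -/
def Bad (g : ℕ → V → ℕ) (K l : ℕ) (Y : Finset V) : Finset (Fin K → ℕ) :=
  Fintype.piFinset (fun _ : Fin K => range l) \ Y.image (pt g K)

open Classical in
theorem plain_count (h : Base adj col W a K E F) (s : Sys adj col W a K l T E F g I O)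
    (hl : 3 * T ≤ l) {j : ℕ} (hj : j < K) :
    ((I j).filter fun x => x ∉ I (j + 1) ∧ ¬ (F x ∧ x ∉ O K) ∧
      ¬ (E x ∧ (DD adj col a g K l T I x).Nonempty)).card * (T - 14) ≤
      (Bad g K l (I K ∩ O K)).card * 10 := by
  refine card_mul_le_card_mul (fun x q => ∀ i : Fin K, (i : ℕ) ≠ j → q i = g i x) ?_ ?_
  · intro x hx
    rw [mem_filter] at hx
    obtain ⟨x1, x2, x3, x4⟩ := hx
    have hw := window h s hl hj x1 x2 x3 x4
    have hT : T ≤ g j x := by
      by_contra k
      exact x2 ((s.Is j hj x).2 ⟨x1, Or.inl (by omega)⟩)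
    set m := min (g j x) (l - T) with hm
    set S := (I K ∩ O K).filter fun u => Ln g K j x u ∧ m - T ≤ g j u ∧ g j u < m with hS
    have c1 : T - 14 ≤ (Ico (m - T) m \ S.image (g j)).card := by
      have := le_card_sdiff (S.image (g j)) (Ico (m - T) m)
      have := card_image_le (s := S) (f := g j)
      rw [Nat.card_Ico] at *
      omega
    refine c1.trans (card_le_card_of_injOn (fun n => Function.update (pt g K x) ⟨j, hj⟩ n) ?_ ?_)
    · intro n hn
      rw [coe_sdiff, Set.mem_sdiff, mem_coe, mem_coe, mem_Ico] at hn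
      rw [mem_coe, mem_bipartiteAbove]
      refine ⟨mem_sdiff.2 ⟨Fintype.mem_piFinset.2 fun i => ?_, fun k => hn.2 ?_⟩, fun i hi => ?_⟩
      · rw [mem_range]
        by_cases e : i = ⟨j, hj⟩
        · subst e; simp only [Function.update_self]; omega
        · simp only [Function.update_of_ne e]; exact s.lt i i.2 x
      · obtain ⟨u, hu, e⟩ := mem_image.1 k
        have e1 : g j u = n := by
          have := congrFun e ⟨j, hj⟩
          simpa only [Function.update_self, pt] using this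
        refine mem_image.2 ⟨u, mem_filter.2 ⟨hu, fun i hi e' => ?_, by omega, by omega⟩, e1⟩
        have := congrFun e ⟨i, hi⟩
        simpa only [pt, Function.update_of_ne
          (show (⟨i, hi⟩ : Fin K) ≠ ⟨j, hj⟩ from fun k => e' (congrArg Fin.val k))] using this
      · have : i ≠ ⟨j, hj⟩ := fun k => hi (congrArg Fin.val k)
        simp only [Function.update_of_ne this]
        rfl
    · intro n _ n' _ e
      have := congrFun e ⟨j, hj⟩
      simpa only [Function.update_self] using this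
  · intro q _
    refine ln_ten h s.prop hj (s.IW hj.le)
      (fun x hx => (mem_filter.1 ((mem_bipartiteBelow _).1 hx).1).1) ?_ ?_
    · intro x hx k
      have := mem_filter.1 ((mem_bipartiteBelow _).1 hx).1
      exact this.2.1 ((s.Is j hj x).2 ⟨this.1, Or.inr k⟩)
    · intro u hu v hv i hi e
      exact (((mem_bipartiteBelow _).1 hv).2 ⟨i, hi⟩ e).symm.trans
        (((mem_bipartiteBelow _).1 hu).2 ⟨i, hi⟩ e)

end Pool.Agent.H31Fed
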