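import Pool.Agent.Lib.MP_fed786_co.H66Main

set_option autoImplicit false

namespace Pool.Agent.H66Fed
open Finset

variable {V C : Type} [DecidableEq V] [DecidableEq C]
variable {adj : V → V → Prop} {col : V → V → C}

/-- There is a walk with `n` arcs of the relation `D` ending at `v`. -/
def Wk (D : V → V → Prop) : ℕ → V → Prop
  | 0, _ => True
  | n + 1, v => ∃ u, D u v ∧ Wk D n u

omit [DecidableEq V] [DecidableEq C] in
theorem Wk.seq {D : V → V → Prop} : ∀ {n : ℕ} {v : V}, Wk D n v →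
    ∃ p : ℕ → V, p n = v ∧ ∀ i < n, D (p i) (p (i + 1))
  | 0, v, _ => ⟨fun _ => v, rfl, by simp⟩
  | n + 1, v, ⟨u, h1, h2⟩ => by
    obtain ⟨p, g1, g2⟩ := h2.seq
    refine ⟨Function.update p (n + 1) v, Function.update_self _ _ _, fun i hi => ?_⟩
    rw [Function.update_of_ne (by omega)]
    rcases Nat.lt_or_ge i n with h | h
    · rw [Function.update_of_ne (by omega)]; exact g2 i h
    · obtain rfl : i = n := by omega
      rw [Function.update_self, g1]; exact h1

theorem gallai_roy [Fintype V] {l : ℕ} (hirr : ∀ v, ¬ adj v v)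
    (hmono : ¬ ∃ p : Fin (l + 1) → V, Function.Injective p ∧
      (∀ i : Fin l, adj (p i.castSucc) (p i.succ)) ∧
      (∀ i j : Fin l, col (p i.castSucc) (p i.succ) = col (p j.castSucc) (p j.succ))) :
    GR adj col l := by
  classical
  intro a ρ
  let bad : (V → ℕ) → Finset (V × V) := fun h =>
    univ.filter fun e => adj e.1 e.2 ∧ col e.1 e.2 = a ∧ ¬ h e.1 < h e.2
  have hex : ∃ n, ∃ h : V → ℕ, (∀ u v, adj u v → col u v = a → ρ u < ρ v → h u < h v) ∧
      (bad h).card = n := ⟨_, ρ, fun _ _ _ _ h => h, rfl⟩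
  obtain ⟨h, hadm, hcard⟩ := Nat.find_spec hex
  let D : V → V → Prop := fun u v => adj u v ∧ col u v = a ∧ h u < h v
  have hno : ∀ v, ¬ Wk D l v := by
    intro v hv
    obtain ⟨p, _, g2⟩ := hv.seq
    apply hmono
    have hsm : StrictMono fun i : Fin (l + 1) => h (p i) := by
      rw [Fin.strictMono_iff_lt_succ]
      intro i
      exact (g2 i i.2).2.2
    refine ⟨fun i => p i, fun i j e => hsm.injective (by simp only at e ⊢; rw [e]),
      fun i => (g2 i i.2).1, fun i j => ?_⟩
    exact ((g2 i i.2).2.1).trans ((g2 j j.2).2.1).symm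
  let g : V → ℕ := fun v => Nat.findGreatest (fun n => Wk D n v) l
  have hgw : ∀ v, Wk D (g v) v := fun v =>
    Nat.findGreatest_spec (P := fun n => Wk D n v) (Nat.zero_le l) trivial
  have hgl : ∀ v, g v < l := by
    intro v
    have h1 : g v ≤ l := Nat.findGreatest_le l
    rcases h1.lt_or_eq with h2 | h2
    · exact h2
    · exact absurd (h2 ▸ hgw v) (hno v)
  have hgD : ∀ u v, D u v → g u < g v := fun u v huv =>
    Nat.le_findGreatest (P := fun n => Wk D n v) (hgl u) ⟨u, huv, hgw u⟩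
  refine ⟨g, hgl, ?_, fun u v h1 h2 h3 => hgD u v ⟨h1, h2, hadm u v h1 h2 h3⟩⟩
  intro u v huv hc e
  let h' : V → ℕ := fun w => 2 * g w + if w = v then 1 else 0
  have k1 : ∀ x y, D x y → h' x < h' y := by
    intro x y hxy
    have := hgD x y hxy
    simp only [h']
    split_ifs <;> omega
  have hne : u ≠ v := fun e' => hirr u (by rwa [← e'] at huv)
  have k2 : h' u < h' v := by
    simp only [h', if_neg hne, if_true]; omega
  have hss : bad h' ⊂ bad h := by
    refine ⟨?_, fun hh => ?_⟩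
    · intro x hx
      simp only [bad, mem_filter, mem_univ, true_and] at hx ⊢
      exact ⟨hx.1, hx.2.1, fun hh => hx.2.2 (k1 _ _ ⟨hx.1, hx.2.1, hh⟩)⟩
    · have : (u, v) ∈ bad h := by
        simp only [bad, mem_filter, mem_univ, true_and]
        refine ⟨huv, hc, fun hh => ?_⟩
        have := hgD u v ⟨huv, hc, hh⟩
        omega
      have := hh this
      simp only [bad, mem_filter, mem_univ, true_and] at this
      exact this.2.2 k2
  have := card_lt_card hss
  have k3 := Nat.find_min' hex ⟨h', fun x y h1 h2 h3 => k1 x y ⟨h1, h2, hadm x y h1 h2 h3⟩, rfl⟩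
  omega

theorem HasP.fin {U : Finset V} {k : ℕ} (h : HasP adj col U k) :
    ∃ p : Fin (k + 1) → V, Function.Injective p ∧
      (∀ i : Fin k, adj (p i.castSucc) (p i.succ)) ∧
      Function.Injective (fun i : Fin k => col (p i.castSucc) (p i.succ)) := by
  obtain ⟨s, t, S, A, h1, _, rfl⟩ := h
  obtain ⟨p, _, _, g2, g3, g4⟩ := h1.seq
  refine ⟨fun i => p i, fun i j e => Fin.ext (g2 i (by omega) j (by omega) e),
    fun i => (g3 i i.2).1, fun i j e => Fin.ext (g4 i i.2 j j.2 e)⟩

theorem large_l (k : ℕ) (hk : 0 < k) (l : ℕ) (hl : L0 k + 1 ≤ l)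
    (adj : Fin (l ^ (k - 1) + 1) → Fin (l ^ (k - 1) + 1) → Prop)
    (h1 : ∀ u, ¬ adj u u) (h2 : ∀ u v, u ≠ v → (adj u v ↔ ¬ adj v u))
    (c : Fin (l ^ (k - 1) + 1) → Fin (l ^ (k - 1) + 1) → ℕ) :
    (∃ p : Fin (l + 1) → Fin (l ^ (k - 1) + 1), Function.Injective p ∧
      (∀ i : Fin l, adj (p i.castSucc) (p i.succ)) ∧
      (∀ i j : Fin l, c (p i.castSucc) (p i.succ) = c (p j.castSucc) (p j.succ))) ∨
    (∃ p : Fin (k + 1) → Fin (l ^ (k - 1) + 1), Function.Injective p ∧
      (∀ i : Fin k, adj (p i.castSucc) (p i.succ)) ∧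
      Function.Injective (fun i : Fin k => c (p i.castSucc) (p i.succ))) := by
  by_contra hcon
  rw [not_or] at hcon
  have hT : ∀ u v, u ≠ v → adj u v ∨ adj v u := by
    intro u v huv
    by_cases e : adj v u
    · exact Or.inr e
    · exact Or.inl ((h2 u v huv).2 e)
  have hA : ∀ u v, adj u v → ¬ adj v u := by
    intro u v huv
    by_cases e : u = v
    · subst e; exact absurd huv (h1 u)
    · exact (h2 u v e).1 huv
  have := main hT hA (gallai_roy h1 hcon.1) k (by omega) univ (fun h => hcon.2 h.fin)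
  rw [card_univ, Fintype.card_fin] at this
  obtain ⟨k, rfl⟩ : ∃ j, k = j + 1 := ⟨k - 1, by omega⟩
  simp only [Nat.add_sub_cancel, pow_succ] at this
  nlinarith

end Pool.Agent.H66Fed
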