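import Pool.Agent.Lib.MP_fed786_co.H31Box
import Pool.Agent.Lib.MP_fed786_co.H66GR

set_option autoImplicit false

namespace Pool.Agent.H31Fed
open Finset Pool.Agent.H66Fed

variable {V C : Type} [DecidableEq V] [DecidableEq C]
variable {adj : V → V → Prop} {col : V → V → C} {l r : ℕ}

theorem RPath.card {s t : V} {S : Finset V} {A : Finset C} (h : RPath adj col s t S A) :
    S.card = A.card + 1 := by
  induction h with
  | single => simp
  | snoc _ _ h1 h2 ih => rw [card_insert_of_notMem h1, card_insert_of_notMem h2, ih]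

/-- `x` ends a rainbow path with `j` arcs inside `N`. -/
def End (adj : V → V → Prop) (col : V → V → C) (N : Finset V) (j : ℕ) (x : V) : Prop :=
  ∃ s S A, RPath adj col s x S A ∧ S ⊆ N ∧ A.card = j

/-- `x` ends a rainbow path with `j` arcs inside `N` that avoids the colour `c`. -/
def EndF (adj : V → V → Prop) (col : V → V → C) (N : Finset V) (j : ℕ) (c : C) (x : V) : Prop :=
  ∃ s S A, RPath adj col s x S A ∧ S ⊆ N ∧ A.card = j ∧ c ∉ A

open Classical in
theorem nonend (hl : 0 < l)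
    (H1 : ∀ U : Finset V, ¬ HasP adj col U (r + 1) → l * U.card ≤ l ^ (r + 1)) (N : Finset V) :
    (N.filter fun x => ¬ End adj col N (r + 1) x).card ≤ l ^ r := by
  apply Nat.le_of_mul_le_mul_left _ hl
  rw [← pow_succ']
  apply H1
  rintro ⟨s, t, S, A, p1, p2, p3⟩
  exact (mem_filter.1 (p2 p1.end_mem)).2 ⟨s, S, A, p1, p2.trans (filter_subset _ _), p3⟩

open Classical in
theorem nonendF (hl : 0 < l)
    (hG : ∀ c : C, ∃ f : V → ℕ, (∀ v, f v < l) ∧ ∀ u v, adj u v → col u v = c → f u ≠ f v)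
    (H0 : ∀ U : Finset V, ¬ HasP adj col U r → l * U.card ≤ l ^ r) (N : Finset V) (c : C) :
    (N.filter fun x => ¬ EndF adj col N r c x).card ≤ l ^ r := by
  obtain ⟨f, f1, f2⟩ := hG c
  apply Nat.le_of_mul_le_mul_left _ hl
  rw [← sum_fiber _ f (fun v _ => f1 v), mul_sum]
  calc _ ≤ ∑ _i ∈ range l, l ^ r := by
        apply sum_le_sum
        intro i _
        apply H0
        rintro ⟨s, t, S, A, p1, p2, p3⟩
        refine (mem_filter.1 (mem_filter.1 (p2 p1.end_mem)).1).2
          ⟨s, S, A, p1, p2.trans ((filter_subset _ _).trans (filter_subset _ _)), p3, fun k => ?_⟩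
        obtain ⟨u, hu, v, hv, k1, k2⟩ := p1.col_mem k
        exact f2 u v k1 k2 (((mem_filter.1 (p2 hu)).2).trans ((mem_filter.1 (p2 hv)).2).symm)
    _ = l * l ^ r := by simp

open Classical in
theorem out_mem (hl : 0 < l) (hirr : ∀ v, ¬ adj v v)
    (hG : ∀ c : C, ∃ f : V → ℕ, (∀ v, f v < l) ∧ ∀ u v, adj u v → col u v = c → f u ≠ f v)
    (H1 : ∀ U : Finset V, ¬ HasP adj col U (r + 1) → l * U.card ≤ l ^ (r + 1))
    (H0 : ∀ U : Finset V, ¬ HasP adj col U r → l * U.card ≤ l ^ r) {W W' : Finset V}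
    (hW : ¬ HasP adj col W (r + 2)) {A : Finset C} (hA : A.card = r + 1) (hW' : W' ⊆ W)
    (hc : ∀ u ∈ W', ∀ v ∈ W', adj u v → col u v ∈ A) {y z : V} (hy : y ∈ W) (hz : z ∈ W)
    (hyz : adj y z) (hN : (r + 2) * l ^ r + 1 < (W'.filter fun u => adj u y).card) :
    col y z ∈ A := by
  set N := (W'.filter fun u => adj u y).erase z with hNd
  have hN1 : (r + 2) * l ^ r < N.card := by
    have : (W'.filter fun u => adj u y).card - 1 ≤ N.card := by
      rw [hNd]
      exact pred_card_le_card_erase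
    omega
  have hNW : N ⊆ W' := (erase_subset _ _).trans (filter_subset _ _)
  have hyN : y ∉ N := fun k => hirr y (mem_filter.1 (mem_of_mem_erase k)).2
  have hsub : ∀ {s t : V} {S : Finset V} {B : Finset C}, RPath adj col s t S B → S ⊆ N → B ⊆ A := by
    intro s t S B p hS c k
    obtain ⟨u, hu, v, hv, k1, k2⟩ := p.col_mem k
    exact k2 ▸ hc u (hNW (hS hu)) v (hNW (hS hv)) k1
  obtain ⟨w, w1, w2⟩ : ∃ w ∈ N, w ∉ (N.filter fun x => ¬ End adj col N (r + 1) x) ∪
      A.biUnion fun c => N.filter fun x => ¬ EndF adj col N r c x := by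
    apply exists_mem_notMem_of_card_lt_card
    have h1 := nonend hl H1 N
    have h2 := card_biUnion_le_card_mul A (fun c => N.filter fun x => ¬ EndF adj col N r c x) _
      (fun c _ => nonendF hl hG H0 N c)
    have h3 := card_union_le (N.filter fun x => ¬ End adj col N (r + 1) x)
      (A.biUnion fun c => N.filter fun x => ¬ EndF adj col N r c x)
    rw [hA] at h2
    nlinarith
  simp only [mem_union, mem_filter, mem_biUnion, not_or, not_and, not_not, not_exists] at w2
  have hwy : adj w y := (mem_filter.1 (mem_of_mem_erase w1)).2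
  obtain ⟨s, S, B, p1, p2, p3⟩ := w2.1 w1
  have hcA : col w y ∈ A := hsub p1 p2
    (ext_col hW p1 (p2.trans (hNW.trans hW')) p3 hy hwy (fun k => hyN (p2 k)))
  obtain ⟨s', S', B', q1, q2, q3, q4⟩ := w2.2 _ hcA w1
  have q5 := q1.snoc hwy (fun k => hyN (q2 k)) q4
  have := ext_col hW q5 (insert_subset hy (q2.trans (hNW.trans hW')))
    (by rw [card_insert_of_notMem q4, q3]) hz hyz (by
      intro k
      rcases mem_insert.1 k with k | k
      · rw [k] at hyz; exact hirr y hyz
      · exact notMem_erase _ _ (q2 k))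
  exact insert_subset hcA (hsub q1 q2) this

theorem dense (hT : ∀ u v, u ≠ v → adj u v ∨ adj v u) (hirr : ∀ v, ¬ adj v v)
    (hG : ∀ c : C, ∃ f : V → ℕ, (∀ v, f v < l) ∧ ∀ u v, adj u v → col u v = c → f u ≠ f v)
    (hl : 30 * (r + 1) ^ 2 ≤ l)
    (H1 : ∀ U : Finset V, ¬ HasP adj col U (r + 1) → l * U.card ≤ l ^ (r + 1))
    (H0 : ∀ U : Finset V, ¬ HasP adj col U r → l * U.card ≤ l ^ r) {W : Finset V}
    (hW : ¬ HasP adj col W (r + 2)) (hn : l ^ (r + 1) < W.card) :
    ∃ A : Finset C, ∃ W' ⊆ W, A.card = r + 1 ∧ (∀ u ∈ W', ∀ v ∈ W', adj u v → col u v ∈ A) ∧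
      2 * ((r + 2) * l ^ r) + 4 ≤ W'.card := by
  classical
  have hl0 : 0 < l := lt_of_lt_of_le (by positivity) hl
  have hW' : ¬ HasP (flip adj) (flip col) W (r + 2) := fun h => hW h.of_reverse
  have H1' : ∀ U : Finset V, ¬ HasP (flip adj) (flip col) U (r + 1) → l * U.card ≤ l ^ (r + 1) :=
    fun U h => H1 U fun h' => h h'.reverse
  set L := l ^ r with hL
  have hL1 : 1 ≤ L := Nat.one_le_pow _ _ hl0
  rw [pow_succ, ← hL] at hn
  set U := W.filter fun x => End adj col W (r + 1) x ∧ End (flip adj) (flip col) W (r + 1) x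
    with hU
  have hUc : W.card ≤ U.card + 2 * L := by
    have h1 := nonend hl0 H1 W
    have h2 := nonend hl0 H1' W
    have h3 : W ⊆ U ∪ ((W.filter fun x => ¬ End adj col W (r + 1) x) ∪
        W.filter fun x => ¬ End (flip adj) (flip col) W (r + 1) x) := by
      intro x hx
      simp only [hU, mem_union, mem_filter]
      tauto
    have h4 := (card_le_card h3).trans (card_union_le _ _)
    have h5 := card_union_le (W.filter fun x => ¬ End adj col W (r + 1) x)
      (W.filter fun x => ¬ End (flip adj) (flip col) W (r + 1) x)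
    omega
  have hUW : U ⊆ W := filter_subset _ _
  have hl3 : 30 ≤ l := le_trans (Nat.le_mul_of_pos_right _ (by positivity)) hl
  have hUne : U.Nonempty := by
    rw [← card_pos]
    nlinarith
  let good : V → V → Prop := fun v z => adj v z ∧ EndF adj col W r (col v z) v
  have h1 : ∀ z ∈ U, (U.filter fun v => adj v z).card ≤
      (U.filter fun v => good v z).card + ((r + 1) * L + (r + 2)) := by
    intro z hz
    obtain ⟨s, S, B, p1, p2, p3⟩ := (mem_filter.1 hz).2.2
    have k1 : (U.filter fun v => adj v z) ⊆ (U.filter fun v => good v z) ∪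
        ((B.biUnion fun c => W.filter fun x => ¬ EndF adj col W r c x) ∪ S) := by
      intro v hv
      rw [mem_filter] at hv
      by_cases e : v ∈ S
      · exact mem_union_right _ (mem_union_right _ e)
      by_cases e' : EndF adj col W r (col v z) v
      · exact mem_union_left _ (mem_filter.2 ⟨hv.1, hv.2, e'⟩)
      · exact mem_union_right _ (mem_union_left _ (mem_biUnion.2
          ⟨_, ext_col hW' p1 p2 p3 (hUW hv.1) hv.2 e, mem_filter.2 ⟨hUW hv.1, e'⟩⟩))
    have k2 := (card_le_card k1).trans (card_union_le _ _)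
    have k3 := card_union_le (B.biUnion fun c => W.filter fun x => ¬ EndF adj col W r c x) S
    have k4 := card_biUnion_le_card_mul B (fun c => W.filter fun x => ¬ EndF adj col W r c x) _
      (fun c _ => nonendF hl0 hG H0 W c)
    have k5 := RPath.card p1
    rw [p3] at k4 k5
    rw [← hL] at k4
    omega
  obtain ⟨v, hv, hv2⟩ : ∃ v ∈ U, U.card - 1 ≤
      2 * ((U.filter fun z => good v z).card + ((r + 1) * L + (r + 2))) := by
    apply exists_le_of_sum_le hUne
    have k1 := tour_sum hT U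
    have k2 := sum_le_sum h1
    have k3 := Finset.sum_card_bipartiteAbove_eq_sum_card_bipartiteBelow good (s := U) (t := U)
    simp only [bipartiteAbove, bipartiteBelow] at k3
    rw [sum_add_distrib, ← k3, ← sum_add_distrib] at k2
    rw [sum_const, smul_eq_mul, ← mul_sum]
    exact k1.trans (Nat.mul_le_mul_left _ k2)
  obtain ⟨s, S, B, p1, p2, p3⟩ := (mem_filter.1 hv).2.1
  set G := (U.filter fun z => good v z) \ S with hGd
  have hGc : (U.filter fun z => good v z).card ≤ G.card + (r + 2) := by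
    have : (U.filter fun z => good v z).card - S.card ≤ G.card := by
      rw [hGd]
      exact le_card_sdiff _ _
    have k5 := RPath.card p1
    omega
  have hGm : ∀ z ∈ G, z ∈ W ∧ good v z ∧ z ∉ S := by
    intro z hz
    rw [hGd, mem_sdiff, mem_filter] at hz
    exact ⟨hUW hz.1.1, hz.1.2, hz.2⟩
  obtain ⟨c, _, hc⟩ : ∃ c ∈ B, 2 * ((r + 2) * L) + 4 + r < (G.filter fun z => col v z = c).card := by
    by_contra k
    push Not at k
    have k1 := card_le_mul_card_image_of_maps_to (s := G) (t := B) (f := fun z => col v z)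
      (fun z hz => ext_col hW p1 p2 p3 (hGm z hz).1 (hGm z hz).2.1.1 (hGm z hz).2.2) _ k
    rw [p3] at k1
    have k2 : L * (30 * (r + 1) ^ 2) ≤ L * l := Nat.mul_le_mul_left _ hl
    have k3 : U.card ≤ 2 * ((2 * ((r + 2) * L) + 4 + r) * (r + 1) + (r + 2) +
        ((r + 1) * L + (r + 2))) + 1 := by omega
    have k4 : r ≤ r * L := Nat.le_mul_of_pos_right _ hL1
    have k5 : r * r ≤ r * r * L := Nat.le_mul_of_pos_right _ hL1
    nlinarith
  obtain ⟨z0, hz0⟩ : (G.filter fun z => col v z = c).Nonempty := card_pos.1 (by omega)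
  rw [mem_filter] at hz0
  obtain ⟨s', S', B', q1, q2, q3, q4⟩ := (hGm z0 hz0.1).2.1.2
  rw [hz0.2] at q4
  refine ⟨insert c B', (G.filter fun z => col v z = c) \ S', ?_,
    by rw [card_insert_of_notMem q4, q3], ?_, ?_⟩
  · intro z hz
    exact (hGm z (mem_filter.1 (mem_sdiff.1 hz).1).1).1
  · intro u hu u' hu' huu
    rw [mem_sdiff, mem_filter] at hu hu'
    have q5 := q1.snoc (hGm u hu.1.1).2.1.1 hu.2 (hu.1.2 ▸ q4)
    rw [hu.1.2] at q5
    refine ext_col hW q5 (insert_subset (hGm u hu.1.1).1 q2)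
      (by rw [card_insert_of_notMem q4, q3]) (hGm u' hu'.1.1).1 huu ?_
    intro k
    rcases mem_insert.1 k with k | k
    · rw [k] at huu; exact hirr u huu
    · exact hu'.2 k
  · have := le_card_sdiff S' (G.filter fun z => col v z = c)
    have k5 := RPath.card q1
    omega

theorem step (hT : ∀ u v, u ≠ v → adj u v ∨ adj v u) (hA : ∀ u v, adj u v → ¬ adj v u)
    (hGR : GR adj col l) (hl : 360 * (r + 2) ^ 2 ≤ l)
    (H1 : ∀ U : Finset V, ¬ HasP adj col U (r + 1) → l * U.card ≤ l ^ (r + 1))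
    (H0 : ∀ U : Finset V, ¬ HasP adj col U r → l * U.card ≤ l ^ r)
    (W : Finset V) (hW : ¬ HasP adj col W (r + 2)) : W.card ≤ l ^ (r + 1) := by
  classical
  by_contra hn
  have hl0 : 0 < l := lt_of_lt_of_le (by positivity) hl
  have hirr : ∀ v, ¬ adj v v := fun v h => hA v v h h
  have hG : ∀ c : C, ∃ f : V → ℕ, (∀ v, f v < l) ∧
      ∀ u v, adj u v → col u v = c → f u ≠ f v := by
    intro c
    obtain ⟨f, f1, f2, _⟩ := hGR c (fun _ => 0)
    exact ⟨f, f1, f2⟩
  have hG' : ∀ c : C, ∃ f : V → ℕ, (∀ v, f v < l) ∧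
      ∀ u v, flip adj u v → flip col u v = c → f u ≠ f v := by
    intro c
    obtain ⟨f, f1, f2⟩ := hG c
    exact ⟨f, f1, fun u v k k' => (f2 v u k k').symm⟩
  obtain ⟨A, W', w1, w2, w3, w4⟩ := dense hT hirr hG (le_trans (by ring_nf; omega) hl) H1 H0 hW (not_le.1 hn)
  let e := (A.equivFinOfCardEq w2).symm
  let a : ℕ → C := fun i => if h : i < r + 1 then (e ⟨i, h⟩ : C) else (e ⟨0, by omega⟩ : C)
  have ha : ∀ c, c ∈ A ↔ ∃ j < r + 1, c = a j := by
    intro c
    constructor
    · intro hc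
      refine ⟨(e.symm ⟨c, hc⟩ : Fin (r + 1)), (e.symm ⟨c, hc⟩).2, ?_⟩
      simp only [a, dif_pos (e.symm ⟨c, hc⟩).2, Fin.eta, Equiv.apply_symm_apply]
    · rintro ⟨j, hj, rfl⟩
      simp only [a, dif_pos hj]
      exact (e ⟨j, hj⟩).2
  apply hn
  refine endgame (a := a) (E := fun x => x ∈ W ∧ ∃ u ∈ W, adj x u ∧ col x u ∉ A)
    (F := fun x => ∃ u ∈ W, adj u x ∧ col u x ∉ A) ⟨hT, hA, ?_, ?_, ?_, hW⟩ (by omega) hGR
    (by nlinarith)
  · intro i hi j hj k
    simp only [a, dif_pos hi, dif_pos hj] at k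
    exact congrArg Fin.val (e.injective (Subtype.ext k))
  · intro u hu v hv huv
    by_cases k : col u v ∈ A
    · exact Or.inl ((ha _).1 k)
    · exact Or.inr ⟨⟨hu, v, hv, huv, k⟩, ⟨u, hu, huv, k⟩, fun j hj k' => k ((ha _).2 ⟨j, hj, k'⟩)⟩
  · rintro x ⟨hx, z, hz, k1, k2⟩ ⟨u, hu, k3, k4⟩
    have h1 : W'.erase x ⊆ (W'.filter fun u => adj u x) ∪ W'.filter fun u => flip adj u x := by
      intro y hy
      rw [mem_erase] at hy
      rcases hT y x hy.1 with k | k
      · exact mem_union_left _ (mem_filter.2 ⟨hy.2, k⟩)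
      · exact mem_union_right _ (mem_filter.2 ⟨hy.2, k⟩)
    have h2 := (card_le_card h1).trans (card_union_le _ _)
    have h3 := pred_card_le_card_erase (s := W') (a := x)
    by_cases k : (r + 2) * l ^ r + 1 < (W'.filter fun u => adj u x).card
    · exact k2 (out_mem hl0 hirr hG H1 H0 hW w2 w1 w3 hx hz k1 k)
    · refine k4 (out_mem (adj := flip adj) (col := flip col) hl0 hirr hG'
        (fun U h => H1 U fun h' => h h'.reverse) (fun U h => H0 U fun h' => h h'.reverse)
        (fun h => hW h.of_reverse) w2 w1 (fun u hu v hv k => w3 v hv u hu k) hx hu k3 ?_)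
      convert (show (r + 2) * l ^ r + 1 < (W'.filter fun u => flip adj u x).card by omega)

theorem main (hT : ∀ u v, u ≠ v → adj u v ∨ adj v u) (hA : ∀ u v, adj u v → ¬ adj v u)
    (hGR : GR adj col l) : ∀ k, 360 * k ^ 2 ≤ l → ∀ U : Finset V, ¬ HasP adj col U k →
      l * U.card ≤ l ^ k
  | 0 => by
    intro _ U hU
    have : U = ∅ := by
      rw [eq_empty_iff_forall_notMem]
      intro v hv
      exact hU ⟨v, v, _, _, RPath.single v, by simpa using hv, rfl⟩
    simp [this]
  | 1 => by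
    intro _ U hU
    have : U.card ≤ 1 := by
      rw [card_le_one]
      intro u hu v hv
      by_contra e
      exact hU (hasP_one hT hu hv e)
    rw [pow_one]
    nlinarith
  | k + 2 => by
    intro hl U hU
    have := step hT hA hGR hl (main hT hA hGR (k + 1) (le_trans (by ring_nf; omega) hl))
      (main hT hA hGR k (le_trans (by ring_nf; omega) hl)) U hU
    rw [pow_succ' l (k + 1)]
    exact Nat.mul_le_mul_left _ this

theorem poly_l (k : ℕ) (hk : 0 < k) (l : ℕ) (hl : 360 * k ^ 2 ≤ l)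
    (adj : Fin (l ^ (k - 1) + 1) → Fin (l ^ (k - 1) + 1) → Prop)
    (h1 : ∀ u, ¬ adj u u) (h2 : ∀ u v, u ≠ v → (adj u v ↔ ¬ adj v u))
    (c : Fin (l ^ (k - 1) + 1) → Fin (l ^ (k - 1) + 1) → ℕ) :
    (∃ p : Fin (l + 1) → Fin (l ^ (k - 1) + 1), Function.Injective p ∧
      (∀ i : Fin l, adj (p i.castSucc) (p i.succ)) ∧
      (∀ i j : Fin l, c (p i.castSucc) (p i.succ) = c (p j.castSucc) (p j.succ))) ∨
    (∃ p : Fin (k + 1) → Fin (l ^ (k - 1) + 1), Function.Injective p ∧
      (∀ i : Fin k, adj (p i.castSucc) (p i.succ)) ∧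
      Function.Injective (fun i : Fin k => c (p i.castSucc) (p i.succ))) := by
  by_contra hcon
  rw [not_or] at hcon
  have hT : ∀ u v, u ≠ v → adj u v ∨ adj v u := by
    intro u v huv
    by_cases e : adj v u
    · exact Or.inr e
    · exact Or.inl ((h2 u v huv).2 e)
  have hA : ∀ u v, adj u v → ¬ adj v u := by
    intro u v huv
    by_cases e : u = v
    · subst e; exact absurd huv (h1 u)
    · exact (h2 u v e).1 huv
  have hl0 : 0 < l := lt_of_lt_of_le (by positivity) hl
  have := main hT hA (gallai_roy h1 hcon.1) k hl univ (fun h => hcon.2 h.fin)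
  rw [card_univ, Fintype.card_fin] at this
  obtain ⟨k, rfl⟩ : ∃ j, k = j + 1 := ⟨k - 1, by omega⟩
  simp only [Nat.add_sub_cancel, pow_succ] at this
  nlinarith

end Pool.Agent.H31Fed
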