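import Mathlib
import Pool.Agent.Lib.MP_fed786_co.H31Lin

/-! For all `l ≥ 10^1080` and all `k ≥ 1` with `20 k ≤ l log l`, every edge-coloured tournament on
`l^(k-1)+1` vertices has a monochromatic directed path with `l` arcs or a rainbow directed path
with `k` arcs. -/

set_option autoImplicit false

namespace Pool.Agent.H31Fed.OldLogRange

theorem result :
    ∀ k l : ℕ, 0 < k → 10 ^ 1080 ≤ l → 20 * (k : ℝ) ≤ (l : ℝ) * Real.log (l : ℝ) →
      ∀ adj : Fin (l ^ (k - 1) + 1) → Fin (l ^ (k - 1) + 1) → Prop,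
        (∀ u, ¬ adj u u) →
        (∀ u v, u ≠ v → (adj u v ↔ ¬ adj v u)) →
        ∀ c : Fin (l ^ (k - 1) + 1) → Fin (l ^ (k - 1) + 1) → ℕ,
          (∃ p : Fin (l + 1) → Fin (l ^ (k - 1) + 1),
              Function.Injective p ∧
              (∀ i : Fin l, adj (p i.castSucc) (p i.succ)) ∧
              (∀ i j : Fin l, c (p i.castSucc) (p i.succ) = c (p j.castSucc) (p j.succ))) ∨
          (∃ p : Fin (k + 1) → Fin (l ^ (k - 1) + 1),
              Function.Injective p ∧
              (∀ i : Fin k, adj (p i.castSucc) (p i.succ)) ∧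
              Function.Injective (fun i : Fin k => c (p i.castSucc) (p i.succ))) :=
  fun k l hk hl hkl adj h1 h2 c =>
    Pool.Agent.H31Fed.log_l k hk l (by rw [← pow_mul]; exact hl) hkl adj h1 h2 c

end Pool.Agent.H31Fed.OldLogRange
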