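import Pool.Agent.Lib.MP_fed786_co.H31XU

set_option autoImplicit false

namespace Pool.Agent.H31Fed
open Finset Pool.Agent.H66Fed

theorem harm_le (n : ℕ) : ∑ j ∈ range n, 1 / ((j + 1 : ℕ) : ℝ) ≤ 1 + Real.log n := by
  refine le_trans (le_of_eq ?_) (harmonic_le_one_add_log n)
  rw [harmonic, Rat.cast_sum]
  refine sum_congr rfl fun k _ => ?_
  push_cast
  ring

theorem Ht_le (n : ℕ) : Ht n ≤ 188 * (1 + Real.log n) := by
  have h1 := harm_le n
  rw [Ht, sum_range_succ', Nat.cast_zero, div_zero, add_zero,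
    sum_congr rfl fun j _ => div_eq_mul_one_div (188 : ℝ) ((j + 1 : ℕ) : ℝ), ← mul_sum]
  linarith

theorem xt_le {H : ℝ} (hH : 700 ≤ H) : ∀ e, xt H e + 1 ≤ 2 * (600 * H) ^ e
  | 0 => by norm_num [xt]
  | e + 1 => by
    have h1 := xt_le hH e
    have h2 := one_le_pow₀ (show 1 ≤ 600 * H by linarith) (n := e)
    simp only [xt]
    rw [pow_succ]
    nlinarith [mul_le_mul_of_nonneg_right h1 (show 0 ≤ H by linarith),
      mul_le_mul_of_nonneg_right h2 (show 0 ≤ H by linarith)]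

theorem numerics2 {l K : ℕ} (hl : (10 ^ 7) ^ 20 ≤ l) (hK1 : 1 ≤ K)
    (hK : 10 ^ 55 * (K : ℝ) * Real.log l ^ 9 ≤ (l : ℝ) ^ 2) :
    ∃ (μ : ℕ) (H F : ℝ), F = 369690 + 4 * xt H 9 ∧ K ≤ l ^ 2 ∧ Ht K ≤ H ∧ 100 * (F + 2) ≤ l ∧
      0 ≤ F ∧ 108 * (2 * F + 1) / l * Ht K + K * (40016 * F + 20009) / l ^ 2 ≤ 1 / 2 ∧ 8 ≤ μ ∧
      2 * μ ≤ l ∧ ∑ j ∈ range K, (8 / (μ * (j + 1 : ℕ)) + 64 * μ / l ^ 2 : ℝ) ≤ 1 / 2 := by
  have hl1 : 10 ^ 7 ≤ l := le_trans (Nat.le_self_pow (by norm_num) _) hl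
  have hl2 : (10 : ℝ) ^ 7 ≤ l := by exact_mod_cast hl1
  have hl0 : (0 : ℝ) < l := by linarith
  set L := Real.log l with hL
  have hL8 : 8 ≤ L := by
    rw [hL, Real.le_log_iff_exp_le hl0, show (8 : ℝ) = (8 : ℕ) * 1 by norm_num, Real.exp_nat_mul]
    exact le_trans (pow_le_pow_left₀ (Real.exp_pos 1).le
      (Real.exp_one_lt_d9.le.trans (show _ ≤ (3 : ℝ) by norm_num)) 8) (by linarith)
  have hbig : 10 ^ 55 * L ^ 10 ≤ l := by
    set y := Real.exp (L / 20) with hy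
    have y0 : 0 < y := Real.exp_pos _
    have y20 : y ^ 20 = l := by
      rw [← Real.exp_nat_mul, show ((20 : ℕ) : ℝ) * (L / 20) = L by push_cast; ring, hL,
        Real.exp_log hl0]
    have y1 : (10 : ℝ) ^ 7 ≤ y := by
      apply le_of_pow_le_pow_left₀ (n := 20) (by norm_num) y0.le
      rw [y20]
      exact_mod_cast hl
    have yL : L ≤ 20 * y := by
      have := Real.add_one_le_exp (L / 20)
      linarith
    have k1 := pow_le_pow_left₀ (by linarith) yL 10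
    have k2 := pow_le_pow_left₀ (by positivity) y1 10
    rw [mul_pow] at k1
    rw [← y20, show y ^ 20 = y ^ 10 * y ^ 10 by ring]
    nlinarith [pow_pos y0 10]
  have hK0 : (1 : ℝ) ≤ K := by exact_mod_cast hK1
  have L9 : L ≤ L ^ 9 := le_self_pow₀ (by linarith) (by norm_num)
  have L10 : L ^ 10 = L * L ^ 9 := by ring
  have hKl : (K : ℝ) ≤ l ^ 2 := by nlinarith
  have hlog : Real.log K ≤ 2 * L :=
    calc Real.log K ≤ Real.log (l ^ 2) := Real.log_le_log (by linarith) hKl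
      _ = 2 * L := by rw [Real.log_pow, ← hL]; norm_num
  have hH : Ht K ≤ 400 * L := by linarith [Ht_le K]
  have hx := xt_le (H := 400 * L) (by linarith) 9
  have hx0 := xt_nonneg (H := 400 * L) (by linarith) 9
  set F := 369690 + 4 * xt (400 * L) 9 with hF
  have hF0 : 0 ≤ F := by positivity
  have hF1 : F ≤ 22 * 10 ^ 48 * L ^ 9 := by
    rw [← mul_assoc, mul_pow] at hx
    rw [hF]
    linarith
  have m1 : 100 * L ≤ ⌈100 * L⌉₊ := Nat.le_ceil _
  have m2 : (⌈100 * L⌉₊ : ℝ) ≤ 101 * L := by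
    have := (Nat.ceil_lt_add_one (show 0 ≤ 100 * L by positivity)).le
    linarith
  refine ⟨⌈100 * L⌉₊, 400 * L, F, hF, by exact_mod_cast hKl, hH, by nlinarith, hF0, ?_,
    by exact_mod_cast (show (8 : ℝ) ≤ ⌈100 * L⌉₊ by linarith),
    by exact_mod_cast (show 2 * (⌈100 * L⌉₊ : ℝ) ≤ l by nlinarith), ?_⟩
  · have k1 : 108 * (2 * F + 1) / l * Ht K ≤ 1 / 4 := by
      rw [div_mul_eq_mul_div, div_le_div_iff₀ hl0 (by norm_num)]
      have : 108 * (2 * F + 1) * Ht K ≤ (5 * 10 ^ 51 * L ^ 9) * (400 * L) :=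
        mul_le_mul (by linarith) hH (Ht_nonneg K) (by positivity)
      nlinarith
    have k2 : K * (40016 * F + 20009) / l ^ 2 ≤ 1 / 4 := by
      rw [div_le_div_iff₀ (by positivity) (by norm_num)]
      have : K * (40016 * F + 20009) ≤ K * (10 ^ 54 * L ^ 9) :=
        mul_le_mul_of_nonneg_left (by linarith) (by linarith)
      nlinarith
    linarith
  · set μ : ℝ := ((⌈100 * L⌉₊ : ℕ) : ℝ) with hμ
    have μ0 : 0 < μ := by linarith
    rw [sum_add_distrib, sum_const, card_range, nsmul_eq_mul,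
      sum_congr rfl fun j _ => (show 8 / (μ * (j + 1 : ℕ)) = 8 / μ * (1 / ((j + 1 : ℕ) : ℝ)) by
        field_simp), ← mul_sum]
    have k1 : 8 / μ * ∑ j ∈ range K, 1 / ((j + 1 : ℕ) : ℝ) ≤ 1 / 4 := by
      rw [div_mul_eq_mul_div, div_le_div_iff₀ μ0 (by norm_num)]
      linarith [harm_le K]
    have k2 : K * (64 * μ / l ^ 2) ≤ 1 / 4 := by
      rw [← mul_div_assoc, div_le_div_iff₀ (by positivity) (by norm_num)]
      have : K * (64 * μ) ≤ K * (10 ^ 54 * L ^ 9) :=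
        mul_le_mul_of_nonneg_left (by linarith) (by linarith)
      nlinarith
    linarith

variable {V C : Type} [DecidableEq V] [DecidableEq C]
variable {adj : V → V → Prop} {col : V → V → C}

theorem main3 {l : ℕ} (hT : ∀ u v, u ≠ v → adj u v ∨ adj v u) (hA : ∀ u v, adj u v → ¬ adj v u)
    (hGR : GR adj col l) (hGR' : GR (flip adj) (flip col) l) (hl : (10 ^ 7) ^ 20 ≤ l) :
    ∀ k : ℕ, 10 ^ 55 * (k : ℝ) * Real.log l ^ 9 ≤ (l : ℝ) ^ 2 → ∀ U : Finset V,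
      ¬ HasP adj col U k → l * U.card ≤ l ^ k := by
  have hl1 : 10 ^ 9 ≤ l := le_trans (le_trans (by norm_num)
    (Nat.pow_le_pow_right (show 0 < 10 ^ 7 by norm_num) (show 2 ≤ 20 by norm_num))) hl
  have hL : 0 ≤ Real.log l ^ 9 := pow_nonneg (Real.log_natCast_nonneg l) 9
  intro k
  induction k using Nat.strong_induction_on with
  | _ k ih =>
    intro hk U hU
    by_cases h1 : k ≤ 112
    · exact main hT hA hGR k ((Nat.mul_le_mul_left 360 (Nat.pow_le_pow_left h1 2)).trans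
        (by omega)) U hU
    obtain ⟨c, rfl⟩ : ∃ c, k = c + 1 + 1 := ⟨k - 2, by omega⟩
    have hc : ∀ r ≤ c + 1, 10 ^ 55 * (r : ℝ) * Real.log l ^ 9 ≤ (l : ℝ) ^ 2 := by
      intro r hr
      have : (r : ℝ) ≤ (c + 1 + 1 : ℕ) := by exact_mod_cast hr.trans (Nat.le_succ _)
      exact le_trans (mul_le_mul_of_nonneg_right (by linarith) hL) hk
    have h : Ctx adj col l (c + 1) :=
      ⟨hT, hA, hGR, hGR', by omega, fun r hr => ih r (by omega) (hc r hr)⟩
    obtain ⟨μ, H, F, e, n1, n2, n3, n4, n5, n6, n7, n8⟩ :=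
      numerics2 hl (by omega) (hc (c + 1) le_rfl)
    rw [pow_succ' l (c + 1)]
    exact Nat.mul_le_mul_left _ (final2 h n1 (e ▸ rooted_bound2 h (by omega) n1 (by omega) n2)
      (e ▸ rooted_bound2 h.flip (by omega) n1 (by omega) n2) n3 n4 hl1 n5 n6 n7 n8 hU)

theorem square_l (k : ℕ) (hk : 0 < k) (l : ℕ) (hl : (10 ^ 7) ^ 20 ≤ l)
    (hkl : 10 ^ 55 * (k : ℝ) * Real.log l ^ 9 ≤ (l : ℝ) ^ 2)
    (adj : Fin (l ^ (k - 1) + 1) → Fin (l ^ (k - 1) + 1) → Prop)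
    (h1 : ∀ u, ¬ adj u u) (h2 : ∀ u v, u ≠ v → (adj u v ↔ ¬ adj v u))
    (c : Fin (l ^ (k - 1) + 1) → Fin (l ^ (k - 1) + 1) → ℕ) :
    (∃ p : Fin (l + 1) → Fin (l ^ (k - 1) + 1), Function.Injective p ∧
      (∀ i : Fin l, adj (p i.castSucc) (p i.succ)) ∧
      (∀ i j : Fin l, c (p i.castSucc) (p i.succ) = c (p j.castSucc) (p j.succ))) ∨
    (∃ p : Fin (k + 1) → Fin (l ^ (k - 1) + 1), Function.Injective p ∧
      (∀ i : Fin k, adj (p i.castSucc) (p i.succ)) ∧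
      Function.Injective (fun i : Fin k => c (p i.castSucc) (p i.succ))) := by
  by_contra hcon
  rw [not_or] at hcon
  have hT : ∀ u v, u ≠ v → adj u v ∨ adj v u := by
    intro u v huv
    by_cases e : adj v u
    · exact Or.inr e
    · exact Or.inl ((h2 u v huv).2 e)
  have hA : ∀ u v, adj u v → ¬ adj v u := by
    intro u v huv
    by_cases e : u = v
    · subst e; exact absurd huv (h1 u)
    · exact (h2 u v e).1 huv
  have hl0 : 0 < l := lt_of_lt_of_le (by positivity) hl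
  have hG := gallai_roy h1 hcon.1
  have := main3 hT hA hG (GR.flip hG) hl k hkl univ (fun h => hcon.2 h.fin)
  rw [card_univ, Fintype.card_fin] at this
  obtain ⟨k, rfl⟩ : ∃ j, k = j + 1 := ⟨k - 1, by omega⟩
  simp only [Nat.add_sub_cancel, pow_succ] at this
  nlinarith

end Pool.Agent.H31Fed
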