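import Pool.Agent.Lib.MP_fed786_co.H31Kr

set_option autoImplicit false

namespace Pool.Agent.H31Fed
open Finset Pool.Agent.H66Fed

variable {V C : Type} [DecidableEq V] [DecidableEq C]
variable {adj : V → V → Prop} {col : V → V → C}

/-- All rainbow paths in `N` obey the bounds given by the label of their end. -/
def Rt (adj : V → V → Prop) (col : V → V → C) (lab : V → Option C) (c : ℕ) (N : Finset V) :
    Prop :=
  ∀ s t S B, RPath adj col s t S B → S ⊆ N → Ok (lab t) c B

theorem Rt.mono {lab : V → Option C} {c : ℕ} {N N' : Finset V} (h : Rt adj col lab c N)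
    (h1 : N' ⊆ N) : Rt adj col lab c N' := fun s t S B p k => h s t S B p (k.trans h1)

theorem Rt.inv {lab : V → Option C} {c : ℕ} {N : Finset V} (h : Rt adj col lab c N) :
    Inv adj col lab c True N ∅ := by
  intro s t S B p k
  rw [union_empty] at k
  exact ⟨fun _ => h s t S B p k, fun _ => (h s t S B p k).mono⟩

theorem Inv.rtZ {lab : V → Option C} {c : ℕ} {W Z : Finset V} (h : Inv adj col lab c True W Z) :
    Rt adj col lab (c + 1) Z :=
  fun s t S B p k => (h s t S B p (k.trans subset_union_right)).2 trivial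

/-- The rooted bound for sets with a core. -/
def XB (adj : V → V → Prop) (col : V → V → C) (l K e : ℕ) (x : ℝ) : Prop :=
  ∀ (c : ℕ) (N : Finset V) (lab : V → Option C) (R : Finset C), c ≤ K → c + e = R.card + 5 →
    Core adj col N R (l ^ 5) → Rt adj col lab c N → (N.card : ℝ) ≤ x * l ^ c

theorem XB.zero {l K : ℕ} (hGR : GR adj col l) : XB adj col l K 0 1 := by
  intro c N lab R _ h1 h2 _
  have := kraft_sum hGR (fun _ => ∅) R N h2 (by simp)
  simp only [empty_inter, card_empty, pow_zero, sum_const, smul_eq_mul, mul_one] at this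
  rw [← pow_add, ← h1, add_zero] at this
  rw [one_mul]
  exact_mod_cast this

theorem rp_arith {l T t i τ w z L b sy sz : ℝ} (hl : 8 ≤ l) (hT : 1 ≤ T) (ht : 0 ≤ t)
    (htT : t + 1 ≤ T) (hi : i = 14 * T + t + 1) (hw : 0 ≤ w) (hz : 0 ≤ z) (hL : 0 ≤ L)
    (h1 : w ≤ sy) (h2 : sz ≤ 7 * z + L * l / l ^ 2)
    (h3 : i * (t / (30 * T) * w + 4 / l * (1 - t / (2 * T)) * z) + (1 - t / (30 * T)) * sy -
      4 / l * (1 - t / (2 * T)) * sz ≤ i * (b + 8 * τ * L)) :
    (t + 1) / (30 * T) * w + 4 / l * (1 - (t + 1) / (2 * T)) * z ≤ b + (8 * τ + 1) * L := by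
  have hT0 : 0 < T := by linarith
  have hl0 : 0 < l := by linarith
  have hi0 : 0 < i := by linarith
  have a1 : t / (30 * T) ≤ 1 / 2 := by
    rw [div_le_div_iff₀ (by linarith) (by norm_num)]; linarith
  have a2 : 0 ≤ t / (2 * T) := by positivity
  have a3 : t / (2 * T) ≤ 1 := by
    rw [div_le_one (by linarith)]; linarith
  set ω := 4 / l * (1 - t / (2 * T)) with hω
  have a4 : 0 ≤ ω := mul_nonneg (by positivity) (by linarith)
  have a5 : ω ≤ 4 / l := by
    have : 0 ≤ 4 / l := by positivity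
    nlinarith
  have b1 : i * (1 / (30 * T) * w) ≤ (1 - t / (30 * T)) * sy := by
    have : i * (1 / (30 * T)) ≤ 1 / 2 := by
      rw [mul_one_div, div_le_div_iff₀ (by linarith) (by norm_num)]; linarith
    nlinarith
  have b2 : ω * (7 * z) ≤ i * (4 / l * (1 / (2 * T)) * z) := by
    have k1 : 7 ≤ i * (1 / (2 * T)) := by
      rw [mul_one_div, le_div_iff₀ (by linarith)]; linarith
    have k2 : 0 ≤ 4 / l * z := by positivity
    nlinarith [mul_le_mul_of_nonneg_right a5 hz, mul_le_mul_of_nonneg_right k1 k2]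
  have b3 : ω * (L * l / l ^ 2) ≤ i * L := by
    have k1 : L * l / l ^ 2 ≤ L := by
      rw [div_le_iff₀ (by positivity)]
      nlinarith [mul_nonneg hL hl0.le]
    have k2 : 4 / l ≤ 1 := by rw [div_le_one hl0]; linarith
    have k3 : 0 ≤ L * l / l ^ 2 := by positivity
    nlinarith
  have b4 := mul_le_mul_of_nonneg_left h2 a4
  apply le_of_mul_le_mul_left _ hi0
  have e : i * ((t + 1) / (30 * T) * w + 4 / l * (1 - (t + 1) / (2 * T)) * z) =
      i * (t / (30 * T) * w + ω * z) + i * (1 / (30 * T) * w) - i * (4 / l * (1 / (2 * T)) * z) := by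
    rw [hω]; ring
  rw [e]
  nlinarith

theorem rp {l K e T c : ℕ} {τ : ℝ} (hGR : GR adj col l) (hl : 8 ≤ l) (he : e ≤ 4) (hT : 1 ≤ T)
    (hc : c + T ≤ K) (hτ : 0 ≤ τ) (hX : XB adj col l K e τ) :
    ∀ t ≤ T, ∀ (W Z : Finset V) (lab : V → Option C) (R I : Finset C), I ⊆ R →
      I.card = 14 * T + t → c + t + e + 1 = R.card + 5 → Core adj col (W ∪ Z) R (l ^ 5) →
      Disjoint W Z → Inv adj col lab (c + t) True W Z → (∀ x ∈ W ∪ Z, ∀ a ∈ I, lab x ≠ some a) →
      (∀ x ∈ W, ∃ a ∈ I, ¬ InA adj col a (W ∪ Z) x ∧ ¬ OutA adj col a (W ∪ Z) x) →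
      (t : ℝ) / (30 * T) * W.card + 4 / l * (1 - t / (2 * T)) * Z.card ≤
        l ^ (c + t) * (4 * τ + t * (8 * τ + 1) / l) := by
  have hl' : (8 : ℝ) ≤ l := by exact_mod_cast hl
  have hl0 : (0 : ℝ) < l := by linarith
  have hT' : (1 : ℝ) ≤ T := by exact_mod_cast hT
  intro t
  induction t with
  | zero =>
    intro _ W Z lab R I _ _ h3 h4 _ h6 _ _
    have := hX (c + 1) Z lab R (by omega) (by omega) (h4.mono subset_union_right) h6.rtZ
    simp only [Nat.cast_zero, zero_div, zero_mul, sub_zero, mul_one, zero_add, add_zero]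
    rw [div_mul_eq_mul_div, div_le_iff₀ hl0]
    rw [pow_succ] at this
    linarith
  | succ t ih =>
    intro ht W Z lab R I h1 h2 h3 h4 h5 h6 h7 h8
    have ht' : (t : ℝ) + 1 ≤ T := by exact_mod_cast ht
    have ht0 : (0 : ℝ) ≤ t := Nat.cast_nonneg _
    set ω : ℝ := 4 / l * (1 - t / (2 * T)) with hω
    have a3 : (t : ℝ) / (2 * T) ≤ 1 / 2 := by
      rw [div_le_div_iff₀ (by linarith) (by norm_num)]; linarith
    have a2 : 0 ≤ (t : ℝ) / (2 * T) := by positivity
    have a4 : 0 ≤ ω := mul_nonneg (by positivity) (by linarith)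
    have a5 : ω * l ≤ 4 := by
      rw [hω, mul_right_comm, div_mul_cancel₀ _ hl0.ne']; linarith
    have a6 : 1 ≤ ω * (l - 2) := by
      have : 2 ≤ ω * l := by rw [hω, mul_right_comm, div_mul_cancel₀ _ hl0.ne']; linarith
      nlinarith
    have key : ∀ a ∈ I, (t : ℝ) / (30 * T) * W.card + ω * Z.card +
        (1 - t / (30 * T)) * (Unt adj col a (W ∪ Z) W).card - ω * (Unt adj col a (W ∪ Z) Z).card ≤
        l * (l ^ (c + t) * (4 * τ + t * (8 * τ + 1) / l)) + 8 * τ * l ^ (c + t) := by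
      intro a ha
      obtain ⟨f, -, f2⟩ := step_main hGR (a := a) (c := c + t) h5 h6 (fun x hx => h7 x hx a ha)
      obtain ⟨Wc, Zc, c1, c2, c3, c4, c5, -, -, -, c9⟩ := f2 0 (l - 1) (by omega) (by omega)
      have hR : (R.erase a).card + 1 = R.card := card_erase_add_one (h1 ha)
      have s1 : ∑ i ∈ range l, ((t : ℝ) / (30 * T) * (Wc i).card + ω * (Zc i).card) ≤
          ∑ _i ∈ range l, (l : ℝ) ^ (c + t) * (4 * τ + t * (8 * τ + 1) / l) := by
        refine sum_le_sum fun i hi => ?_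
        have ci := c1 i (mem_range.1 hi)
        obtain ⟨lab', k1, k2⟩ := ci.inv
        refine ih (by omega) _ _ lab' (R.erase a) (I.erase a) (erase_subset_erase _ h1)
          (by rw [card_erase_of_mem ha, h2]; rfl) (by omega) (h4.erase ci.sub ci.free) ci.disj k1
          ?_ ?_
        · intro x hx b hb
          obtain ⟨y, hy, e⟩ := k2 x hx
          rw [e]
          exact h7 y hy b (mem_of_mem_erase hb)
        · intro x hx
          obtain ⟨b, b1, b2, b3⟩ := h8 x (ci.subW hx)
          refine ⟨b, mem_erase.2 ⟨?_, b1⟩, fun ⟨u, k, k'⟩ => b2 ⟨u, ci.sub k, k'⟩,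
            fun ⟨u, k, k'⟩ => b3 ⟨u, ci.sub k, k'⟩⟩
          rintro rfl
          exact not_or.2 ⟨b2, b3⟩ (c9 i x hx)
      have s2 : ∀ Y, Child adj col a lab (c + t) True W Z ∅ Y →
          ω * (Y.card : ℝ) ≤ 4 * τ * l ^ (c + t) := by
        intro Y ci
        obtain ⟨lab', k1, -⟩ := ci.inv
        have := hX (c + t + 1) Y lab' (R.erase a) (by omega) (by omega)
          ((h4.erase ci.sub ci.free).mono subset_union_right) k1.rtZ
        calc ω * (Y.card : ℝ) ≤ ω * (τ * l ^ (c + t + 1)) := mul_le_mul_of_nonneg_left this a4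
          _ = (ω * l) * (τ * l ^ (c + t)) := by ring
          _ ≤ 4 * (τ * l ^ (c + t)) := mul_le_mul_of_nonneg_right a5 (by positivity)
          _ = _ := by ring
      have s3 := s2 _ c2
      have s4 := s2 _ c3
      rw [sum_add_distrib, ← mul_sum, ← mul_sum, sum_const, card_range, nsmul_eq_mul,
        ← Nat.cast_sum, ← Nat.cast_sum] at s1
      rw [if_pos trivial, add_zero] at c5
      have e1 : ((∑ i ∈ range l, (Wc i).card : ℕ) : ℝ) =
          W.card - (Unt adj col a (W ∪ Z) W).card := by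
        rw [← c4]; push_cast; ring
      have e2 : ((∑ i ∈ range l, (Zc i).card : ℕ) : ℝ) = Z.card +
          (l - 2) * (Unt adj col a (W ∪ Z) W).card - (Lev adj col a (W ∪ Z) Z f 0).card -
          (Lev adj col a (W ∪ Z) Z f (l - 1)).card - (Unt adj col a (W ∪ Z) Z).card := by
        have k : ((l - 1 - 0 - 1 : ℕ) : ℝ) = l - 2 := by
          rw [show l - 1 - 0 - 1 = l - 2 by omega, Nat.cast_sub (by omega)]; rfl
        have := congrArg (Nat.cast : ℕ → ℝ) c5
        rw [Nat.cast_add, Nat.cast_add, Nat.cast_add, Nat.cast_add, Nat.cast_mul, k] at this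
        linarith
      rw [e1, e2] at s1
      have hy : (0 : ℝ) ≤ (Unt adj col a (W ∪ Z) W).card := Nat.cast_nonneg _
      nlinarith [mul_le_mul_of_nonneg_right a6 hy]
    have k1 := sum_le_sum key
    rw [sum_sub_distrib, sum_add_distrib, ← mul_sum, ← mul_sum, sum_const, sum_const, nsmul_eq_mul,
      nsmul_eq_mul] at k1
    have k2 := kraft_avg (n := c + t + 1) hGR hl h1 (subset_union_right (s₁ := W) (s₂ := Z)) h4
      (by rw [← pow_add]; exact Nat.pow_le_pow_right (by omega) (by omega))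
    have k3 : (W.card : ℝ) ≤ ∑ a ∈ I, ((Unt adj col a (W ∪ Z) W).card : ℝ) := by
      have : W.card ≤ ∑ a ∈ I, (Unt adj col a (W ∪ Z) W).card := by
        refine le_trans (card_le_card ?_) card_biUnion_le
        intro x hx
        obtain ⟨b, b1, b2⟩ := h8 x hx
        exact mem_biUnion.2 ⟨b, b1, mem_unt.2 ⟨hx, b2⟩⟩
      exact_mod_cast this
    rw [pow_succ] at k2
    have := rp_arith (i := I.card) hl' hT' ht0 ht' (by rw [h2]; push_cast; ring)
      (Nat.cast_nonneg _) (Nat.cast_nonneg _) (by positivity) k3 k2 k1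
    push_cast
    refine this.trans (le_of_eq ?_)
    rw [← add_assoc, pow_succ]
    field_simp
    ring

end Pool.Agent.H31Fed
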