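import Pool.Agent.Lib.MP_fed786_co.H31Core

set_option autoImplicit false

namespace Pool.Agent.H31Fed
open Finset Pool.Agent.H66Fed

variable {V C : Type} [DecidableEq V] [DecidableEq C]
variable {adj : V → V → Prop} {col : V → V → C}

/-- The rooted bound. -/
def RB (adj : V → V → Prop) (col : V → V → C) (l K : ℕ) (F : ℝ) : Prop :=
  ∀ c < K, ∀ (N : Finset V) (lab : V → Option C), Rt adj col lab c N → (N.card : ℝ) ≤ F * l ^ c

/-- The constants of the nested rooted bounds. -/
noncomputable def xs (H : ℝ) : ℕ → ℝ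
  | 0 => 1
  | e + 1 => 111630 + 240 * (xs H e + 1) * H

theorem xs_nonneg {H : ℝ} (hH : 0 ≤ H) : ∀ e, 0 ≤ xs H e
  | 0 => zero_le_one
  | e + 1 => by
    have := xs_nonneg hH e
    simp only [xs]
    positivity

theorem rooted_bound {l K M : ℕ} {H : ℝ} (h : Ctx adj col l K) (h61 : 61 ≤ K) (hK : K ≤ M * l)
    (hM : 80 * M + 80 ≤ l) (hH : Hs l K ≤ H) :
    RB adj col l K (111630 + (20 * M + 60) + 4 * xs H 5) := by
  have hH0 := (Hs_nonneg l K).trans hH
  have hb : ∀ c ≤ 60, ∀ (N : Finset V) (lab : V → Option C), Rt adj col lab c N →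
      (N.card : ℝ) ≤ 111630 * l ^ c := by
    intro c hc N lab hr
    have h1 := rooted_base (h.mono (show c + 1 ≤ K by omega)) hr
    have h2 : 30 * (c + 1) ^ 2 ≤ 111630 :=
      (Nat.mul_le_mul_left 30 (Nat.pow_le_pow_left (show c + 1 ≤ 61 by omega) 2)).trans
        (by norm_num)
    exact_mod_cast h1.trans (Nat.mul_le_mul_right _ h2)
  have hX : ∀ e ≤ 5, XB adj col l K e (xs H e) := by
    intro e
    induction e with
    | zero => exact fun _ => XB.zero h.gr
    | succ e ih =>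
      intro he c N lab R h1 h2 h3 h4
      have h0 := xs_nonneg hH0 e
      refine (XB.succ h.gr h.hl (by omega) h0 (ih (by omega)) hb c N lab R h1 h2 h3 h4).trans
        (mul_le_mul_of_nonneg_right ?_ (by positivity))
      simp only [xs]
      nlinarith
  intro c hc N lab hr
  have h0 := xs_nonneg hH0 5
  have hL : (0 : ℝ) ≤ l ^ c := by positivity
  have hM0 : (0 : ℝ) ≤ M := Nat.cast_nonneg _
  by_cases h1 : c ≤ 60
  · refine (hb c h1 N lab hr).trans (mul_le_mul_of_nonneg_right (by linarith) hL)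
  obtain ⟨q, rfl⟩ : ∃ q, c = q + 4 := ⟨c - 4, by omega⟩
  by_cases h2 : (20 * M + 60) * l ^ (q + 4) < N.card
  · obtain ⟨S', s1, R, s2, s3, s4, -⟩ := core_extract h hc hK hM hr.noP h2
    have h3 := hX 5 le_rfl (q + 4) S' lab R hc.le (by omega) s4 (hr.mono s1)
    have h4 : (N.card : ℝ) ≤ 4 * S'.card := by exact_mod_cast s2
    nlinarith
  · have h3 : (N.card : ℝ) ≤ (20 * M + 60) * l ^ (q + 4) := by exact_mod_cast not_lt.1 h2
    exact h3.trans (mul_le_mul_of_nonneg_right (by linarith) hL)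

/-- Every vertex of `N` ends a rainbow path for each subset of `I`, meeting `N` only there. -/
def Her (adj : V → V → Prop) (col : V → V → C) (V0 : Finset V) (I : Finset C) (N : Finset V) :
    Prop :=
  ∀ x ∈ N, ∀ Y ⊆ I, ∃ s S, RPath adj col s x S Y ∧ S ⊆ V0 ∧ ∀ v ∈ S, v ∈ N → v = x

theorem Her.step {V0 W W' : Finset V} {I : Finset C} {a : C} (h : Her adj col V0 I W)
    (h0 : W ⊆ V0) (h1 : W' ⊆ W) (h2 : Fr adj col a W') (h3 : ∀ x ∈ W', InA adj col a W x) :
    Her adj col V0 (insert a I) W' := by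
  intro x hx Y hY
  by_cases e : a ∈ Y
  · obtain ⟨u, hu, k⟩ := h3 x hx
    have hu' : u ∉ W' := fun k' => h2 u k' x hx k.1 k.2
    obtain ⟨s, S, p1, p2, p3⟩ := h u hu (Y.erase a) (subset_insert_iff.1 hY)
    have := p1.snoc k.1 (fun k' => hu' (p3 x k' (h1 hx) ▸ hx)) (k.2 ▸ notMem_erase a Y)
    rw [k.2, insert_erase e] at this
    refine ⟨s, _, this, insert_subset (h0 (h1 hx)) p2, fun v hv hv' => ?_⟩
    rcases mem_insert.1 hv with k' | k'
    · exact k'
    · exact absurd (p3 v k' (h1 hv') ▸ hv') hu'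
  · obtain ⟨s, S, p1, p2, p3⟩ := h x (h1 hx) Y ((subset_insert_iff_of_notMem e).1 hY)
    exact ⟨s, S, p1, p2, fun v hv hv' => p3 v hv (h1 hv')⟩

theorem Her.empty {V0 W : Finset V} (h : W ⊆ V0) : Her adj col V0 ∅ W := by
  intro x hx Y hY
  obtain rfl := subset_empty.1 hY
  exact ⟨x, _, RPath.single x, by simpa using h hx, by simp⟩

/-- A set reached from `V0` by removing the colours of `I` through middle classes. -/
structure Node (adj : V → V → Prop) (col : V → V → C) (V0 : Finset V) (K r : ℕ) (I : Finset C)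
    (W : Finset V) : Prop where
  sub : W ⊆ V0
  card : I.card + r = K
  free : FreeS adj col I W
  her : Her adj col V0 I W
  her' : Her (flip adj) (flip col) V0 I W
  no : ¬ HasP adj col W (r + 1)

theorem Node.child {V0 W W' : Finset V} {K r : ℕ} {I : Finset C} {a : C}
    (h : Node adj col V0 K (r + 1) I W) (ha : a ∉ I) (h1 : W' ⊆ W) (h2 : Fr adj col a W')
    (h3 : ∀ x ∈ W', InA adj col a W x ∧ OutA adj col a W x) (h4 : ¬ HasP adj col W' (r + 1)) :
    Node adj col V0 K r (insert a I) W' :=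
  ⟨h1.trans h.sub, by rw [card_insert_of_notMem ha, ← h.card]; ring, h.free.insert h2 h1,
    h.her.step h.sub h1 h2 fun x hx => (h3 x hx).1,
    h.her'.step h.sub h1 (fun u hu v hv k => h2 v hv u hu k) fun x hx => (h3 x hx).2, h4⟩

theorem Node.top {V0 W : Finset V} {K : ℕ} (h1 : W ⊆ V0) (h2 : ¬ HasP adj col W (K + 1)) :
    Node adj col V0 K K ∅ W :=
  ⟨h1, by simp, fun _ _ _ _ _ => notMem_empty _, Her.empty h1, Her.empty h1, h2⟩

omit [DecidableEq V] in
theorem Core.sdiff {T T' : Finset V} {R I : Finset C} {Φ : ℕ} (h : Core adj col T R Φ)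
    (h1 : T' ⊆ T) (h2 : FreeS adj col I T') : Core adj col T' (R \ I) Φ := by
  intro L hL k
  refine h L (hL.trans h1) fun u hu v hv e e' => k u hu v hv e ?_
  exact mem_sdiff.2 ⟨e', h2 u (hL hu) v (hL hv) e⟩

theorem sum_mid_le {l : ℕ} (hl : 2 ≤ l) (w : ℕ → ℝ) {A B : ℝ} (h1 : ∀ i, 0 < i → i < l - 1 → w i ≤ A)
    (h2 : w 0 ≤ B) (h3 : w (l - 1) ≤ B) : ∑ i ∈ range l, w i ≤ (l - 2) * A + 2 * B := by
  obtain ⟨n, rfl⟩ : ∃ n, l = n + 2 := ⟨l - 2, by omega⟩
  rw [sum_range_succ, sum_range_succ']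
  have := sum_le_sum (s := range n) (f := fun i => w (i + 1)) (g := fun _ => A)
    (fun i hi => h1 (i + 1) (by omega) (by have := mem_range.1 hi; omega))
  rw [sum_const, card_range, nsmul_eq_mul] at this
  have e : n + 2 - 1 = n + 1 := rfl
  rw [e] at h3
  push_cast
  linarith

theorem bproc_arith {l J t i D y w L : ℝ} (hl : 8 ≤ l) (hJ : 1 ≤ J)
    (hi : 14 * J ≤ i) (hL : 0 ≤ L) (hw : 0 ≤ w) (hD : 0 ≤ D) (ht : 0 ≤ t)
    (h1 : (1 / 8 * (1 - t / (2 * J)) - 3 * t / l) * (L * l) ≤ D)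
    (h2 : i * y ≤ 7 * D + L * l / l ^ 2) (h3 : D - y ≤ (l - 2) * w + 2 * L) :
    (1 / 8 * (1 - (t + 1) / (2 * J)) - 3 * (t + 1) / l) * L ≤ w := by
  have hl0 : 0 < l := by linarith
  have hJ0 : 0 < J := by linarith
  have a1 : L * l / l ^ 2 ≤ L := by
    rw [div_le_iff₀ (by positivity)]
    nlinarith [mul_nonneg hL hl0.le]
  have a2 : y ≤ D / (2 * J) + L := by
    apply le_of_mul_le_mul_left _ (show 0 < i by linarith)
    have : 7 * D ≤ i * (D / (2 * J)) := by
      rw [← mul_div_assoc, le_div_iff₀ (by linarith)]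
      nlinarith
    nlinarith
  set θ := 1 / 8 * (1 - t / (2 * J)) - 3 * t / l with hθ
  have a3 : θ ≤ 1 / 8 := by
    have : 0 ≤ t / (2 * J) := by positivity
    have : 0 ≤ 3 * t / l := by positivity
    rw [hθ]; linarith
  have a4 : 0 ≤ 1 / (2 * J) := by positivity
  have a5 : 1 / (2 * J) ≤ 1 := by rw [div_le_one (by linarith)]; linarith
  have a6 : D / (2 * J) = D * (1 / (2 * J)) := by ring
  have a7 : θ * (L * l) * (1 - 1 / (2 * J)) ≤ D * (1 - 1 / (2 * J)) :=
    mul_le_mul_of_nonneg_right h1 (by linarith)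
  have a8 : θ * (1 / (2 * J)) * (L * l) ≤ 1 / 8 * (1 / (2 * J)) * (L * l) :=
    mul_le_mul_of_nonneg_right (mul_le_mul_of_nonneg_right a3 a4) (by positivity)
  apply le_of_mul_le_mul_left _ hl0
  have e : l * ((1 / 8 * (1 - (t + 1) / (2 * J)) - 3 * (t + 1) / l) * L) =
      θ * (L * l) - 1 / 8 * (1 / (2 * J)) * (L * l) - 3 * L := by
    rw [hθ]; field_simp; ring
  rw [e]
  nlinarith

theorem bproc {l K r0 J : ℕ} (h : Ctx adj col l K) (hr : r0 ≤ K) (hJ : 1 ≤ J)
    (hJr : 15 * J + 1 ≤ r0) {S S' : Finset V} {R : Finset C} (hS' : S' ⊆ S)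
    (hS : ¬ HasP adj col S (r0 + 1)) (hn : l ^ r0 ≤ 8 * S'.card) (hR : R.card + 1 = r0)
    (hc : Core adj col S' R (l ^ 5)) :
    ∀ t ≤ J, ∃ n, ∃ I ⊆ R, ∃ D ⊆ S', n + t = r0 ∧ Node adj col S r0 n I D ∧
      (1 / 8 * (1 - (t : ℝ) / (2 * J)) - 3 * t / l) * l ^ n ≤ D.card := by
  have hl := h.hl
  have hl' : (8 : ℝ) ≤ l := by exact_mod_cast hl
  intro t
  induction t with
  | zero =>
    intro _
    refine ⟨r0, ∅, empty_subset _, S', Subset.rfl, rfl, Node.top hS' fun k => hS (k.mono hS'), ?_⟩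
    have : (l : ℝ) ^ r0 ≤ 8 * S'.card := by exact_mod_cast hn
    simp only [Nat.cast_zero, zero_div, mul_zero, sub_zero, mul_one]
    linarith
  | succ t ih =>
    intro ht
    obtain ⟨n, I, i1, D, d1, e1, nd, hD⟩ := ih (by omega)
    obtain ⟨n, rfl⟩ : ∃ n', n = n' + 1 := ⟨n - 1, by omega⟩
    have hI := nd.card
    have hRI : (R \ I).card + I.card = R.card := card_sdiff_add_card_eq_card i1
    have k1 := kraft_avg (n := n + 1) h.gr hl (Subset.refl (R \ I)) (Subset.refl D)
      (hc.sdiff d1 nd.free) (by rw [← pow_add]; exact Nat.pow_le_pow_right (by omega) (by omega))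
    obtain ⟨a, ha, k2⟩ := exists_le_of_sum_le (s := R \ I) (card_pos.1 (by omega))
      (f := fun a => ((R \ I).card : ℝ) * (Unt adj col a D D).card)
      (g := fun _ => 7 * (D.card : ℝ) + l ^ (n + 1) / l ^ 2) (by
        rw [← mul_sum, sum_const, nsmul_eq_mul]
        exact mul_le_mul_of_nonneg_left k1 (Nat.cast_nonneg _))
    rw [mem_sdiff] at ha
    obtain ⟨f, -, f2⟩ := step_main h.gr (a := a) (zc := True) (disjoint_empty_right D)
      (inv_of_noP nd.no) (by simp)
    obtain ⟨Wc, Zc, c1, -, -, c4, -, -, -, c8, -⟩ := f2 0 (l - 1) (by omega) (by omega)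
    rw [union_empty] at c4
    obtain ⟨j, j1, j2⟩ := exists_max_image (Ioo 0 (l - 1)) (fun i => (Wc i).card)
      ⟨1, mem_Ioo.2 (by omega)⟩
    rw [mem_Ioo] at j1
    have cj := c1 j (by omega)
    have hb : ∀ i < l, ((Wc i).card : ℝ) ≤ l ^ n := fun i hi => by
      exact_mod_cast h.ih' (by omega) (c1 i hi).inv_none.noP
    have k3 := sum_mid_le (by omega) (fun i => ((Wc i).card : ℝ)) (A := (Wc j).card)
      (fun i a b => by exact_mod_cast j2 i (mem_Ioo.2 ⟨a, b⟩)) (hb 0 (by omega))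
      (hb (l - 1) (by omega))
    refine ⟨n, insert a I, insert_subset ha.1 i1, Wc j, cj.subW.trans d1, by omega,
      nd.child ha.2 cj.subW (fun u hu v hv => cj.free u (mem_union_left _ hu) v (mem_union_left _ hv))
        (c8 j j1.1 j1.2) cj.inv_none.noP, ?_⟩
    have k4 : ∑ i ∈ range l, ((Wc i).card : ℝ) + (Unt adj col a D D).card = D.card := by
      exact_mod_cast c4
    rw [pow_succ] at hD k2
    push_cast
    refine bproc_arith hl' (by exact_mod_cast hJ) ?_ (by positivity) (Nat.cast_nonneg _)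
      (Nat.cast_nonneg _) (Nat.cast_nonneg _) hD k2 (by linarith)
    exact_mod_cast (show 14 * J ≤ (R \ I).card by omega)

theorem root_paths {S : Finset V} {w : V} {I : Finset C} {r0 : ℕ} (hS : ¬ HasP adj col S (r0 + 1))
    (h : ∀ Y ⊆ I, ∃ s Q, RPath (flip adj) (flip col) s w Q Y ∧ Q ⊆ S) :
    ∃ H : Finset V, H.card ≤ (I.card + 1) ^ 2 ∧ ∀ s t P B, RPath adj col s t P B → P ⊆ S →
      Disjoint P H → Disjoint B I → adj t w → (col t w ∈ I → B.card + I.card ≤ r0) ∧
      (col t w ∉ I → col t w ∉ B → B.card + 1 + I.card ≤ r0) := by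
  have : Nonempty V := ⟨w⟩
  choose! σ Q hQ using h
  have hc : ∀ Y ⊆ I, (Q Y).card ≤ I.card + 1 := fun Y hY => by
    rw [RPath.card (hQ Y hY).1]
    exact Nat.add_le_add_right (card_le_card hY) _
  refine ⟨Q I ∪ I.biUnion fun x => Q (I.erase x), ?_, ?_⟩
  · have h1 := card_biUnion_le_card_mul I (fun x => Q (I.erase x)) _
      (fun x _ => hc _ (erase_subset _ _))
    have h2 := hc I Subset.rfl
    have h3 := card_union_le (Q I) (I.biUnion fun x => Q (I.erase x))
    nlinarith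
  intro s t P B p h1 h2 h3 h4
  have key : ∀ Y ⊆ I, Disjoint P (Q Y) → col t w ∉ B → col t w ∉ Y → B.card + Y.card + 1 ≤ r0 := by
    intro Y hY k1 k2 k3
    have q : RPath adj col w (σ Y) (Q Y) Y := (hQ Y hY).1.reverse
    have := le_of_noP hS (RPath.append p h4 q k1 k2 k3 (h3.mono_right hY))
      (union_subset h1 (hQ Y hY).2)
    rwa [card_insert_of_notMem (by simp [k2, k3]),
      card_union_of_disjoint (h3.mono_right hY)] at this
  refine ⟨fun k => ?_, fun k k' => ?_⟩
  · have := key (I.erase (col t w)) (erase_subset _ _)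
      (h2.mono_right fun v hv => mem_union_right _ (mem_biUnion.2 ⟨_, k, hv⟩))
      (fun k' => disjoint_left.1 h3 k' k) (notMem_erase _ _)
    have := card_erase_add_one k
    omega
  · have := key I Subset.rfl (h2.mono_right subset_union_left) k' k
    omega

open Classical in
theorem zb_half {l K c : ℕ} {F : ℝ} (hF : RB adj col l K F) (hc : c < K) {S Z : Finset V} {w : V}
    {I : Finset C} (hS : ¬ HasP adj col S (c + I.card + 1))
    (h : ∀ Y ⊆ I, ∃ s Q, RPath (flip adj) (flip col) s w Q Y ∧ Q ⊆ S) (hZ : Z ⊆ S)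
    (hf : FreeS adj col I Z) (hZ' : ¬ HasP adj col Z (c + 2)) :
    ((Z.filter fun t => adj t w).card : ℝ) ≤ F * l ^ c + (I.card + 1) ^ 2 := by
  obtain ⟨H, h1, h2⟩ := root_paths hS h
  have h3 := hF c hc ((Z.filter fun t => adj t w) \ H)
    (fun t => if col t w ∈ I then none else some (col t w)) (by
      intro s t P B p hP
      have hPZ : P ⊆ Z := hP.trans (sdiff_subset.trans (filter_subset _ _))
      obtain ⟨k1, k2⟩ := h2 s t P B p (hPZ.trans hZ) (disjoint_left.2 fun v hv =>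
        (mem_sdiff.1 (hP hv)).2) (hf.disj p hPZ) (mem_filter.1 (mem_sdiff.1 (hP p.end_mem)).1).2
      refine ⟨fun x e e' => ?_, fun e => ?_, le_of_noP hZ' p hPZ⟩
      · simp only at e
        split_ifs at e with k
        obtain rfl := Option.some.inj e
        have := k2 k e'
        omega
      · simp only at e
        split_ifs at e with k
        have := k1 k
        omega)
  have h4 : ((Z.filter fun t => adj t w).card : ℝ) ≤
      ((Z.filter fun t => adj t w) \ H).card + (I.card + 1) ^ 2 := by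
    exact_mod_cast card_le_card_sdiff_add_card.trans (Nat.add_le_add_left h1 _)
  linarith

open Classical in
theorem core_half {l K c : ℕ} (hx : Ctx adj col l K) (hc : c < K) {S L : Finset V} {w : V}
    {I : Finset C} (hS : ¬ HasP adj col S (c + I.card + 1))
    (h : ∀ Y ⊆ I, ∃ s Q, RPath (flip adj) (flip col) s w Q Y ∧ Q ⊆ S)
    (hw : End (flip adj) (flip col) S (c + I.card) w) (hL : L ⊆ S) (hf : FreeS adj col I L) :
    (L.filter fun t => adj t w).card ≤
      (c + I.card + 1) * l ^ c + (I.card + 1) ^ 2 + (c + I.card + 1) := by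
  obtain ⟨H, h1, h2⟩ := root_paths hS h
  obtain ⟨s0, Q, O, p1, p2, p3⟩ := hw
  set N := ((L.filter fun t => adj t w) \ H) \ Q with hN
  have hm : ∀ t ∈ N, t ∈ L ∧ adj t w ∧ t ∉ H ∧ t ∉ Q := by
    intro t ht
    rw [hN, mem_sdiff, mem_sdiff, mem_filter] at ht
    exact ⟨ht.1.1.1, ht.1.1.2, ht.1.2, ht.2⟩
  have h3 := nonfull hx hc N O
  rw [filter_true_of_mem, p3] at h3
  · have h4 := card_le_card_sdiff_add_card (s := L.filter fun t => adj t w) (t := H)
    have h5 := card_le_card_sdiff_add_card (s := (L.filter fun t => adj t w) \ H) (t := Q)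
    have h6 := RPath.card p1
    rw [← hN] at h5
    omega
  rintro t ht ⟨⟨s, P, B, q1, q2, q3⟩, q4⟩
  have key : ∀ s P B, RPath adj col s t P B → P ⊆ N →
      (col t w ∈ I → B.card + I.card ≤ c + I.card) ∧
      (col t w ∉ I → col t w ∉ B → B.card + 1 + I.card ≤ c + I.card) := fun s P B p hP =>
    h2 s t P B p (fun v hv => hL (hm v (hP hv)).1) (disjoint_left.2 fun v hv => (hm v (hP hv)).2.2.1)
      (hf.disj p fun v hv => (hm v (hP hv)).1) (hm t ht).2.1
  by_cases k : col t w ∈ I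
  · have := (key s P B q1 q2).1 k
    omega
  · obtain ⟨s', P', B', r1, r2, r3, r4⟩ := q4 (col t w) (ext_col (adj := flip adj)
      (col := flip col) (fun k => hS k.of_reverse) p1 p2 p3 (hL (hm t ht).1) (hm t ht).2.1
      (hm t ht).2.2.2)
    have := (key s' P' B' r1 r2).2 k r4
    omega

open Classical in
theorem split_at (hT : ∀ u v, u ≠ v → adj u v ∨ adj v u) (Z : Finset V) (w : V) :
    Z.card ≤ (Z.filter fun t => adj t w).card + (Z.filter fun t => flip adj t w).card + 1 := by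
  have h1 : Z.erase w ⊆ (Z.filter fun u => adj u w) ∪ Z.filter fun u => flip adj u w := by
    intro y hy
    rw [mem_erase] at hy
    rcases hT y w hy.1 with k | k
    · exact mem_union_left _ (mem_filter.2 ⟨hy.2, k⟩)
    · exact mem_union_right _ (mem_filter.2 ⟨hy.2, k⟩)
  have h2 := (card_le_card h1).trans (card_union_le _ _)
  have h3 := pred_card_le_card_erase (s := Z) (a := w)
  omega

end Pool.Agent.H31Fed
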