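import Pool.Agent.Lib.MP_fed786_co.H31Main

set_option autoImplicit false

namespace Pool.Agent.H31Fed
open Finset Pool.Agent.H66Fed

variable {V C : Type} [DecidableEq V] [DecidableEq C]

/-- Length bounds for a rainbow path with colour set `B` whose end has label `o`. -/
def Ok (o : Option C) (c : ℕ) (B : Finset C) : Prop :=
  (∀ x, o = some x → x ∉ B → B.card + 1 ≤ c) ∧ (o = none → B.card ≤ c) ∧ B.card ≤ c + 1

omit [DecidableEq C] in
theorem Ok.mono {o : Option C} {c : ℕ} {B : Finset C} (h : Ok o c B) : Ok o (c + 1) B :=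
  ⟨fun x h1 h2 => (h.1 x h1 h2).trans (Nat.le_succ _), fun h1 => (h.2.1 h1).trans (Nat.le_succ _),
    h.2.2.trans (Nat.le_succ _)⟩

theorem Ok.drop {o : Option C} {c : ℕ} {B : Finset C} {a : C} (h : Ok o (c + 1) (insert a B))
    (ha : a ∉ B) (ho : o ≠ some a) : Ok o c B := by
  obtain ⟨h1, h2, h3⟩ := h
  rw [card_insert_of_notMem ha] at h1 h2 h3
  refine ⟨fun x k1 k2 => ?_, fun k => by have := h2 k; omega, by omega⟩
  have := h1 x k1 (by
    intro k
    rcases mem_insert.1 k with k | k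
    · exact ho (k ▸ k1)
    · exact k2 k)
  omega

omit [DecidableEq C] in
theorem Ok.own {c : ℕ} {B : Finset C} {a : C} (h : Ok (some a) (c + 1) B) (ha : a ∉ B) :
    Ok none c B := by
  have := h.1 a rfl ha
  exact ⟨by simp, fun _ => by omega, by omega⟩

/-- The invariant of a node. -/
def Inv (adj : V → V → Prop) (col : V → V → C) (lab : V → Option C) (c : ℕ) (zc : Prop)
    (W Z : Finset V) : Prop :=
  ∀ s t S B, RPath adj col s t S B → S ⊆ W ∪ Z →
    ((s ∈ W ∨ t ∈ W) → Ok (lab t) c B) ∧ (zc → Ok (lab t) (c + 1) B)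

/-- No arc of colour `a` inside `N`. -/
def Fr (adj : V → V → Prop) (col : V → V → C) (a : C) (N : Finset V) : Prop :=
  ∀ u ∈ N, ∀ v ∈ N, adj u v → col u v ≠ a

/-- An arc of colour `a`. -/
def Arc (adj : V → V → Prop) (col : V → V → C) (a : C) (u v : V) : Prop :=
  adj u v ∧ col u v = a

/-- A class obtained from the node `(W, Z)` by removing the colour `a`. -/
structure Child (adj : V → V → Prop) (col : V → V → C) (a : C) (lab : V → Option C) (c : ℕ)
    (zc : Prop) (W Z W' Z' : Finset V) : Prop where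
  subW : W' ⊆ W
  subZ : Z' ⊆ W ∪ Z
  disj : Disjoint W' Z'
  free : Fr adj col a (W' ∪ Z')
  inv : ∃ lab' : V → Option C, Inv adj col lab' c zc W' Z' ∧
    ∀ x ∈ W' ∪ Z', ∃ y ∈ W ∪ Z, lab' x = lab y

variable {adj : V → V → Prop} {col : V → V → C}

theorem Fr.notMem {a : C} {N S : Finset V} {s t : V} {B : Finset C} (h : Fr adj col a N)
    (p : RPath adj col s t S B) (hS : S ⊆ N) : a ∉ B := by
  intro k
  obtain ⟨u, hu, v, hv, k1, k2⟩ := p.col_mem k
  exact h u (hS hu) v (hS hv) k1 k2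

theorem Child.sub {a : C} {lab : V → Option C} {c : ℕ} {zc : Prop} {W Z W' Z' : Finset V}
    (h : Child adj col a lab c zc W Z W' Z') : W' ∪ Z' ⊆ W ∪ Z :=
  union_subset (h.subW.trans subset_union_left) h.subZ

theorem class_lem {a : C} {lab : V → Option C} {c : ℕ} {zc : Prop} {W Z W' Z' : Finset V}
    (hinv : Inv adj col lab (c + 1) zc W Z) (hlab : ∀ x ∈ W ∪ Z, lab x ≠ some a)
    (h1 : W' ⊆ W) (h2 : Z' ⊆ W ∪ Z) (h3 : Disjoint W' Z') (h4 : Fr adj col a (W' ∪ Z'))
    (σ : V → V) (hσ : ∀ t ∈ W' ∪ Z', σ t ∈ W ∪ Z)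
    (RW : ∀ s ∈ W' ∪ Z', ∀ t ∈ W' ∪ Z', (s ∈ W' ∨ t ∈ W') →
      (Arc adj col a t (σ t) ∧ (s ∈ W ∨ σ t ∈ W)) ∨
      (σ t = t ∧ ∃ u ∈ W ∪ Z, Arc adj col a u s ∧ (u ∈ W ∨ t ∈ W)))
    (RZ : zc → ∀ s ∈ W' ∪ Z', ∀ t ∈ W' ∪ Z', Arc adj col a t (σ t) ∨
      (σ t = t ∧ ((∃ u ∈ W ∪ Z, Arc adj col a u s) ∨ s ∈ W ∨ t ∈ W))) :
    Child adj col a lab c zc W Z W' Z' := by
  have hsub : W' ∪ Z' ⊆ W ∪ Z := union_subset (h1.trans subset_union_left) h2
  refine ⟨h1, h2, h3, h4, fun t => lab (σ t), ?_, fun x hx => ⟨σ x, hσ x hx, rfl⟩⟩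
  intro s t S B p hS
  have hs := hS p.start_mem
  have ht := hS p.end_mem
  have ha := h4.notMem p hS
  have app : Arc adj col a t (σ t) → RPath adj col s (σ t) (insert (σ t) S) (insert a B) := by
    intro k
    have := p.snoc k.1 (fun k' => h4 t ht _ (hS k') k.1 k.2) (k.2 ▸ ha)
    rwa [k.2] at this
  have pre : ∀ u, Arc adj col a u s → RPath adj col u t (insert u S) (insert a B) := by
    intro u k
    have := p.cons k.1 (fun k' => h4 u (hS k') s hs k.1 k.2) (k.2 ▸ ha)
    rwa [k.2] at this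
  have hS' := hS.trans hsub
  refine ⟨fun k => ?_, fun k => ?_⟩
  · rcases RW s hs t ht k with ⟨k1, k2⟩ | ⟨k1, u, k2, k3, k4⟩
    · exact ((hinv _ _ _ _ (app k1) (insert_subset (hσ t ht) hS')).1 k2).drop ha
        (hlab _ (hσ t ht))
    · simp only [k1]
      exact ((hinv _ _ _ _ (pre u k3) (insert_subset k2 hS')).1 k4).drop ha (hlab _ (hsub ht))
  · rcases RZ k s hs t ht with k1 | ⟨k1, ⟨u, k2, k3⟩ | k2⟩
    · exact ((hinv _ _ _ _ (app k1) (insert_subset (hσ t ht) hS')).2 k).drop ha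
        (hlab _ (hσ t ht))
    · simp only [k1]
      exact ((hinv _ _ _ _ (pre u k3) (insert_subset k2 hS')).2 k).drop ha (hlab _ (hsub ht))
    · simp only [k1]
      exact (hinv _ _ _ _ p hS').1 k2

/-- `x` has an in-arc of colour `a` from `N`. -/
def InA (adj : V → V → Prop) (col : V → V → C) (a : C) (N : Finset V) (x : V) : Prop :=
  ∃ u ∈ N, Arc adj col a u x

/-- `x` has an out-arc of colour `a` to `N`. -/
def OutA (adj : V → V → Prop) (col : V → V → C) (a : C) (N : Finset V) (x : V) : Prop :=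
  ∃ u ∈ N, Arc adj col a x u

open Classical in
/-- Vertices of `X` that meet no arc of colour `a` to or from `N`. -/
noncomputable def Unt (adj : V → V → Prop) (col : V → V → C) (a : C) (N X : Finset V) :
    Finset V :=
  X.filter fun x => ¬ InA adj col a N x ∧ ¬ OutA adj col a N x

open Classical in
/-- Vertices of `X` on level `i` that meet an arc of colour `a` to or from `N`. -/
noncomputable def Lev (adj : V → V → Prop) (col : V → V → C) (a : C) (N X : Finset V)
    (f : V → ℕ) (i : ℕ) : Finset V :=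
  X.filter fun x => (InA adj col a N x ∨ OutA adj col a N x) ∧ f x = i

omit [DecidableEq V] [DecidableEq C] in
theorem mem_unt {a : C} {N X : Finset V} {x : V} : x ∈ Unt adj col a N X ↔
    x ∈ X ∧ ¬ InA adj col a N x ∧ ¬ OutA adj col a N x := by
  classical
  simp [Unt]

omit [DecidableEq V] [DecidableEq C] in
theorem mem_lev {a : C} {N X : Finset V} {f : V → ℕ} {i : ℕ} {x : V} :
    x ∈ Lev adj col a N X f i ↔
    x ∈ X ∧ (InA adj col a N x ∨ OutA adj col a N x) ∧ f x = i := by
  classical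
  simp [Lev]

omit [DecidableEq V] [DecidableEq C] in
theorem sum_lev {a : C} {N X : Finset V} {f : V → ℕ} {l : ℕ} (hf : ∀ v, f v < l) :
    ∑ i ∈ range l, (Lev adj col a N X f i).card + (Unt adj col a N X).card = X.card := by
  classical
  have h1 := sum_fiber (X.filter fun x => InA adj col a N x ∨ OutA adj col a N x) f
    (fun v _ => hf v)
  have h2 := card_filter_add_card_filter_not (s := X)
    (fun x => InA adj col a N x ∨ OutA adj col a N x)
  have h3 : ∀ i, Lev adj col a N X f i =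
      (X.filter fun x => InA adj col a N x ∨ OutA adj col a N x).filter fun v => f v = i := by
    intro i; ext x; simp [mem_lev, and_assoc]
  have h4 : Unt adj col a N X = X.filter fun x => ¬ (InA adj col a N x ∨ OutA adj col a N x) := by
    ext x; simp [mem_unt]
  simp only [h3, h4]
  omega

theorem class_low {a : C} {lab : V → Option C} {c : ℕ} {zc : Prop} {W Z W' Z' : Finset V}
    (hinv : Inv adj col lab (c + 1) zc W Z) (hlab : ∀ x ∈ W ∪ Z, lab x ≠ some a)
    (h1 : W' ⊆ W) (h2 : Z' ⊆ W ∪ Z) (h3 : Disjoint W' Z') (h4 : Fr adj col a (W' ∪ Z'))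
    (h5 : ∀ t ∈ W' ∪ Z', OutA adj col a (W ∪ Z) t)
    (h6 : Z' = ∅ ∨ ∀ t ∈ W', OutA adj col a W t) : Child adj col a lab c zc W Z W' Z' := by
  have : ∀ t, ∃ v, t ∈ W' ∪ Z' → v ∈ W ∪ Z ∧ Arc adj col a t v ∧ (OutA adj col a W t → v ∈ W) := by
    intro t
    by_cases k : OutA adj col a W t
    · obtain ⟨v, k1, k2⟩ := k
      exact ⟨v, fun _ => ⟨mem_union_left _ k1, k2, fun _ => k1⟩⟩
    by_cases k' : t ∈ W' ∪ Z'
    · obtain ⟨v, k1, k2⟩ := h5 t k'
      exact ⟨v, fun _ => ⟨k1, k2, fun k3 => absurd k3 k⟩⟩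
    · exact ⟨t, fun k3 => absurd k3 k'⟩
  choose σ hσ using this
  refine class_lem hinv hlab h1 h2 h3 h4 σ (fun t ht => (hσ t ht).1) ?_
    (fun _ s _ t ht => Or.inl (hσ t ht).2.1)
  intro s hs t ht k
  refine Or.inl ⟨(hσ t ht).2.1, ?_⟩
  rcases k with k | k
  · exact Or.inl (h1 k)
  rcases h6 with e | e
  · rw [e, union_empty] at hs; exact Or.inl (h1 hs)
  · exact Or.inr ((hσ t ht).2.2 (e t k))

theorem class_high {a : C} {lab : V → Option C} {c : ℕ} {zc : Prop} {W Z W' Z' : Finset V}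
    (hinv : Inv adj col lab (c + 1) zc W Z) (hlab : ∀ x ∈ W ∪ Z, lab x ≠ some a)
    (h1 : W' ⊆ W) (h2 : Z' ⊆ W ∪ Z) (h3 : Disjoint W' Z') (h4 : Fr adj col a (W' ∪ Z'))
    (h5 : ∀ t ∈ W' ∪ Z', InA adj col a (W ∪ Z) t)
    (h6 : Z' = ∅ ∨ ∀ t ∈ W', InA adj col a W t) : Child adj col a lab c zc W Z W' Z' := by
  have hsub : W' ∪ Z' ⊆ W ∪ Z := union_subset (h1.trans subset_union_left) h2
  refine class_lem hinv hlab h1 h2 h3 h4 id (fun t ht => hsub ht) ?_
    (fun _ s hs t _ => Or.inr ⟨rfl, Or.inl (h5 s hs)⟩)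
  intro s hs t ht k
  refine Or.inr ⟨rfl, ?_⟩
  by_cases e : t ∈ W'
  · obtain ⟨u, k1, k2⟩ := h5 s hs
    exact ⟨u, k1, k2, Or.inr (h1 e)⟩
  rcases h6 with e' | e'
  · rw [e', union_empty] at ht; exact absurd ht e
  · obtain ⟨u, k1, k2⟩ := e' s (k.resolve_right e)
    exact ⟨u, mem_union_left _ k1, k2, Or.inl k1⟩

theorem class_mid {a : C} {lab : V → Option C} {c : ℕ} {zc : Prop} {W Z W' Z' : Finset V}
    (hinv : Inv adj col lab (c + 1) zc W Z) (hlab : ∀ x ∈ W ∪ Z, lab x ≠ some a)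
    (h1 : W' ⊆ W) (h2 : Z' ⊆ W ∪ Z) (h3 : Disjoint W' Z') (h4 : Fr adj col a (W' ∪ Z'))
    (h5 : ∀ t ∈ W', InA adj col a W t ∧ OutA adj col a W t)
    (h6 : zc → ∀ t ∈ Z', t ∈ W ∨ InA adj col a (W ∪ Z) t) :
    Child adj col a lab c zc W Z W' Z' := by
  have hsub : W' ∪ Z' ⊆ W ∪ Z := union_subset (h1.trans subset_union_left) h2
  have : ∀ t, ∃ v, (t ∈ W' → v ∈ W ∧ Arc adj col a t v) ∧ (t ∉ W' → v = t) := by
    intro t
    by_cases k : t ∈ W'
    · obtain ⟨v, k1, k2⟩ := (h5 t k).2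
      exact ⟨v, fun _ => ⟨k1, k2⟩, fun k' => absurd k k'⟩
    · exact ⟨t, fun k' => absurd k' k, fun _ => rfl⟩
  choose σ hσ using this
  refine class_lem hinv hlab h1 h2 h3 h4 σ ?_ ?_ ?_
  · intro t ht
    by_cases k : t ∈ W'
    · exact mem_union_left _ ((hσ t).1 k).1
    · rw [(hσ t).2 k]; exact hsub ht
  · intro s _ t _ k
    by_cases e : t ∈ W'
    · exact Or.inl ⟨((hσ t).1 e).2, Or.inr ((hσ t).1 e).1⟩
    · obtain ⟨u, k1, k2⟩ := (h5 s (k.resolve_right e)).1
      exact Or.inr ⟨(hσ t).2 e, u, mem_union_left _ k1, k2, Or.inl k1⟩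
  · intro hz s hs t _
    by_cases e : t ∈ W'
    · exact Or.inl ((hσ t).1 e).2
    refine Or.inr ⟨(hσ t).2 e, ?_⟩
    rcases mem_union.1 hs with k | k
    · exact Or.inr (Or.inl (h1 k))
    rcases h6 hz s k with k' | k'
    · exact Or.inr (Or.inl k')
    · exact Or.inl k'

omit [DecidableEq C] in
theorem InA.up {a : C} {W Z : Finset V} {x : V} (h : InA adj col a W x) :
    InA adj col a (W ∪ Z) x := by
  obtain ⟨u, k1, k2⟩ := h
  exact ⟨u, mem_union_left _ k1, k2⟩

omit [DecidableEq C] in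
theorem OutA.up {a : C} {W Z : Finset V} {x : V} (h : OutA adj col a W x) :
    OutA adj col a (W ∪ Z) x := by
  obtain ⟨u, k1, k2⟩ := h
  exact ⟨u, mem_union_left _ k1, k2⟩

omit [DecidableEq C] in
theorem levels {l : ℕ} (hGR : GR adj col l) (a : C) {W Z : Finset V} (hd : Disjoint W Z) :
    ∃ f : V → ℕ, (∀ v, f v < l) ∧
      (∀ x, InA adj col a (W ∪ Z) x ∨ OutA adj col a (W ∪ Z) x →
        (f x + 1 < l → OutA adj col a (W ∪ Z) x) ∧ (0 < f x → InA adj col a (W ∪ Z) x)) ∧
      (∀ x ∈ Z, ∀ y ∈ Z, Arc adj col a x y → f x ≠ f y) ∧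
      ∀ i' i'', i' < i'' → i'' < l → ∃ lev : V → ℕ, (∀ v, lev v < l) ∧
        (∀ x ∈ W, ∀ y ∈ W, Arc adj col a x y → lev x ≠ lev y) ∧
        (∀ x ∈ W, ∀ y ∈ Z, Arc adj col a x y → lev x = f y → f y = i' ∨ f y = i'') ∧
        (∀ x ∈ Z, ∀ y ∈ W, Arc adj col a x y → f x = lev y → f x = i' ∨ f x = i'') ∧
        ∀ x, InA adj col a (W ∪ Z) x ∨ OutA adj col a (W ∪ Z) x →
          (lev x < i'' → OutA adj col a (W ∪ Z) x) ∧ (i' < lev x → InA adj col a (W ∪ Z) x) ∧
          (lev x < i'' → lev x ≠ i' → OutA adj col a W x) ∧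
          (i' < lev x → lev x ≠ i'' → InA adj col a W x) := by
  classical
  let ρ : V → ℕ := fun x => if x ∈ W then
      (if InA adj col a W x then (if OutA adj col a W x then 2 else 3)
        else (if OutA adj col a W x then 1 else 2))
    else (if InA adj col a (W ∪ Z) x then (if OutA adj col a (W ∪ Z) x then 2 else 4) else 0)
  obtain ⟨g, g1, g2, g3⟩ := hGR a ρ
  let f : V → ℕ := fun x => if InA adj col a (W ∪ Z) x then
    (if OutA adj col a (W ∪ Z) x then g x else l - 1) else 0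
  have hZ : ∀ x ∈ Z, x ∉ W := fun x hx k => disjoint_left.1 hd k hx
  refine ⟨f, ?_, ?_, ?_, ?_⟩
  · intro v
    have := g1 v
    simp only [f]
    split_ifs <;> omega
  · intro x hx
    have := g1 x
    simp only [f]
    split_ifs with k1 k2
    · exact ⟨fun _ => k2, fun _ => k1⟩
    · exact ⟨fun k => by omega, fun _ => k1⟩
    · exact ⟨fun _ => hx.resolve_left k1, fun k => by omega⟩
  · intro x hx y hy k
    have h1 := g2 x y k.1 k.2
    have h2 := g3 x y k.1 k.2
    have h3 := g1 y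
    have k1 : OutA adj col a (W ∪ Z) x := ⟨y, mem_union_right _ hy, k⟩
    have k2 : InA adj col a (W ∪ Z) y := ⟨x, mem_union_right _ hx, k⟩
    simp only [ρ, f, hZ x hx, hZ y hy, k1, k2, if_true, if_false] at h2 ⊢
    split_ifs at h2 ⊢ <;> omega
  intro i' i'' h1 h2
  let lev : V → ℕ := fun x => if InA adj col a W x then
      (if OutA adj col a W x then g x else max (g x) i'')
    else (if OutA adj col a W x then min (g x) i' else
      (if OutA adj col a (W ∪ Z) x then i' else i''))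
  refine ⟨lev, ?_, ?_, ?_, ?_, ?_⟩
  · intro v
    have := g1 v
    simp only [lev]
    split_ifs <;> omega
  · intro x hx y hy k
    have h1 := g2 x y k.1 k.2
    have h2 := g3 x y k.1 k.2
    have k1 : OutA adj col a W x := ⟨y, hy, k⟩
    have k2 : InA adj col a W y := ⟨x, hx, k⟩
    simp only [ρ, lev, hx, hy, k1, k2, if_true] at h2 ⊢
    split_ifs at h2 ⊢ <;> omega
  · intro x hx y hy k
    have h1 := g2 x y k.1 k.2
    have h2 := g3 x y k.1 k.2
    have h3 := g1 y
    have k1 : OutA adj col a (W ∪ Z) x := ⟨y, mem_union_right _ hy, k⟩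
    have k2 : InA adj col a (W ∪ Z) y := ⟨x, mem_union_left _ hx, k⟩
    simp only [ρ, f, lev, hx, hZ y hy, k1, k2, if_true, if_false] at h2 ⊢
    split_ifs at h2 ⊢ <;> omega
  · intro x hx y hy k
    have h1 := g2 x y k.1 k.2
    have h2 := g3 x y k.1 k.2
    have h3 := g1 y
    have k1 : OutA adj col a (W ∪ Z) x := ⟨y, mem_union_left _ hy, k⟩
    have k2 : InA adj col a (W ∪ Z) y := ⟨x, mem_union_right _ hx, k⟩
    simp only [ρ, f, lev, hy, hZ x hx, k1, k2, if_true, if_false] at h2 ⊢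
    split_ifs at h2 ⊢ <;> omega
  · intro x hx
    simp only [lev]
    split_ifs with k1 k2 k3 k4
    · exact ⟨fun _ => k2.up, fun _ => k1.up, fun _ _ => k2, fun _ _ => k1⟩
    · exact ⟨fun k => by omega, fun _ => k1.up, fun k => by omega, fun _ _ => k1⟩
    · exact ⟨fun _ => k3.up, fun k => by omega, fun _ _ => k3, fun k => by omega⟩
    · exact ⟨fun _ => k4, fun k => by omega, fun _ k => by omega, fun k => by omega⟩
    · exact ⟨fun k => by omega, fun _ => hx.resolve_right k4, fun k => by omega,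
        fun _ k => by omega⟩

theorem sum_between {l i j y : ℕ} (hj : j < l) :
    ∑ n ∈ range l, (if i < n ∧ n < j then y else 0) = (j - i - 1) * y := by
  rw [← sum_filter]
  have : (range l).filter (fun n => i < n ∧ n < j) = Finset.Ioo i j := by
    ext n; simp only [mem_filter, mem_range, Finset.mem_Ioo]; omega
  rw [this]; simp

open Classical in
theorem step_main {l : ℕ} (hGR : GR adj col l) {a : C} {lab : V → Option C} {c : ℕ} {zc : Prop}
    {W Z : Finset V} (hd : Disjoint W Z) (hinv : Inv adj col lab (c + 1) zc W Z)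
    (hlab : ∀ x ∈ W ∪ Z, lab x ≠ some a) :
    ∃ f : V → ℕ, (∀ v, f v < l) ∧ ∀ i' i'', i' < i'' → i'' < l → ∃ Wc Zc : ℕ → Finset V,
      (∀ i < l, Child adj col a lab c zc W Z (Wc i) (Zc i)) ∧
      Child adj col a lab c zc W Z ∅ (Lev adj col a (W ∪ Z) Z f i') ∧
      Child adj col a lab c zc W Z ∅ (Lev adj col a (W ∪ Z) Z f i'') ∧
      ∑ i ∈ range l, (Wc i).card + (Unt adj col a (W ∪ Z) W).card = W.card ∧
      ∑ i ∈ range l, (Zc i).card + (Lev adj col a (W ∪ Z) Z f i').card +
        (Lev adj col a (W ∪ Z) Z f i'').card + (Unt adj col a (W ∪ Z) Z).card = Z.card +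
        (i'' - i' - 1) * ((Unt adj col a (W ∪ Z) W).card +
          if zc then 0 else (Unt adj col a (W ∪ Z) Z).card) ∧
      Zc i' = ∅ ∧ Zc i'' = ∅ ∧
      (∀ i, i' < i → i < i'' → ∀ x ∈ Wc i, InA adj col a W x ∧ OutA adj col a W x) ∧
      ∀ i, ∀ x ∈ Wc i, InA adj col a (W ∪ Z) x ∨ OutA adj col a (W ∪ Z) x := by
  obtain ⟨f, f1, f2, f3, f4⟩ := levels hGR a hd
  refine ⟨f, f1, fun i' i'' h1 h2 => ?_⟩
  obtain ⟨lev, l1, l2, l3, l4, l5⟩ := f4 i' i'' h1 h2
  set N := W ∪ Z with hN
  set X := Unt adj col a N W ∪ (if zc then ∅ else Unt adj col a N Z) with hX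
  have hXm : ∀ x ∈ X, x ∈ N ∧ (¬ InA adj col a N x ∧ ¬ OutA adj col a N x) ∧ (zc → x ∈ W) := by
    intro x hx
    rcases mem_union.1 hx with k | k
    · rw [mem_unt] at k
      exact ⟨mem_union_left _ k.1, k.2, fun _ => k.1⟩
    · split_ifs at k with e
      · simp at k
      · rw [mem_unt] at k
        exact ⟨mem_union_right _ k.1, k.2, fun k' => absurd k' e⟩
  have hXc : X.card = (Unt adj col a N W).card +
      if zc then 0 else (Unt adj col a N Z).card := by
    rw [hX, card_union_of_disjoint]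
    · split_ifs <;> simp
    · split_ifs
      · simp
      · exact hd.mono (fun x hx => (mem_unt.1 hx).1) (fun x hx => (mem_unt.1 hx).1)
  let Zc : ℕ → Finset V := fun i => (if i = i' ∨ i = i'' then ∅ else Lev adj col a N Z f i) ∪
    (if i' < i ∧ i < i'' then X else ∅)
  have hZm : ∀ i, ∀ x ∈ Zc i, (i ≠ i' ∧ i ≠ i'' ∧ x ∈ Lev adj col a N Z f i) ∨
      (i' < i ∧ i < i'' ∧ x ∈ X) := by
    intro i x hx
    rcases mem_union.1 hx with k | k
    · split_ifs at k with e
      · simp at k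
      · exact Or.inl ⟨by omega, by omega, k⟩
    · split_ifs at k with e
      · exact Or.inr ⟨e.1, e.2, k⟩
      · simp at k
  have hZf : ∀ i, Fr adj col a (∅ ∪ Lev adj col a N Z f i) := by
    intro i u hu v hv k k'
    rw [empty_union, mem_lev] at hu hv
    exact f3 u hu.1 v hv.1 ⟨k, k'⟩ (hu.2.2.trans hv.2.2.symm)
  have hZs : ∀ i, Lev adj col a N Z f i ⊆ N := fun i x hx => mem_union_right _ (mem_lev.1 hx).1
  have hlo : Zc i' = ∅ := by simp [Zc]
  have hhi : Zc i'' = ∅ := by simp [Zc]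
  refine ⟨Lev adj col a N W lev, Zc, ?_, ?_, ?_, sum_lev l1, ?_, hlo, hhi, ?_,
    fun i x hx => (mem_lev.1 hx).2.1⟩
  · intro i hi
    have c1 : Lev adj col a N W lev i ⊆ W := fun x hx => (mem_lev.1 hx).1
    have c2 : Zc i ⊆ N := by
      intro x hx
      rcases hZm i x hx with k | k
      · exact hZs i k.2.2
      · exact (hXm x k.2.2).1
    have c3 : Disjoint (Lev adj col a N W lev i) (Zc i) := by
      rw [disjoint_left]
      intro x hx hx'
      rw [mem_lev] at hx
      rcases hZm i x hx' with k | k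
      · exact disjoint_left.1 hd hx.1 (mem_lev.1 k.2.2).1
      · exact not_or.2 (hXm x k.2.2).2.1 hx.2.1
    have c4 : Fr adj col a (Lev adj col a N W lev i ∪ Zc i) := by
      have c5 := union_subset (c1.trans subset_union_left) c2
      intro u hu v hv k k'
      have ku : OutA adj col a N u := ⟨v, c5 hv, k, k'⟩
      have kv : InA adj col a N v := ⟨u, c5 hu, k, k'⟩
      rcases mem_union.1 hu with hu | hu <;> rcases mem_union.1 hv with hv | hv
      · rw [mem_lev] at hu hv
        exact l2 u hu.1 v hv.1 ⟨k, k'⟩ (hu.2.2.trans hv.2.2.symm)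
      · rcases hZm i v hv with e | e
        · rw [mem_lev] at hu e
          have := l3 u hu.1 v e.2.2.1 ⟨k, k'⟩ (hu.2.2.trans e.2.2.2.2.symm)
          omega
        · exact (hXm v e.2.2).2.1.1 kv
      · rcases hZm i u hu with e | e
        · rw [mem_lev] at hv e
          have := l4 u e.2.2.1 v hv.1 ⟨k, k'⟩ (e.2.2.2.2.trans hv.2.2.symm)
          omega
        · exact (hXm u e.2.2).2.1.2 ku
      · rcases hZm i u hu with e | e
        · rcases hZm i v hv with e' | e'
          · exact hZf i u (mem_union_right _ e.2.2) v (mem_union_right _ e'.2.2) k k'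
          · exact (hXm v e'.2.2).2.1.1 kv
        · exact (hXm u e.2.2).2.1.2 ku
    by_cases e1 : i ≤ i'
    · refine class_low hinv hlab c1 c2 c3 c4 ?_ ?_
      · intro t ht
        rcases mem_union.1 ht with k | k
        · rw [mem_lev] at k
          exact (l5 t k.2.1).1 (by omega)
        · rcases hZm i t k with e | e
          · rw [mem_lev] at e
            exact (f2 t e.2.2.2.1).1 (by omega)
          · omega
      · by_cases e : i = i'
        · exact Or.inl (e ▸ hlo)
        · refine Or.inr fun t k => ?_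
          rw [mem_lev] at k
          exact (l5 t k.2.1).2.2.1 (by omega) (by omega)
    by_cases e2 : i'' ≤ i
    · refine class_high hinv hlab c1 c2 c3 c4 ?_ ?_
      · intro t ht
        rcases mem_union.1 ht with k | k
        · rw [mem_lev] at k
          exact (l5 t k.2.1).2.1 (by omega)
        · rcases hZm i t k with e | e
          · rw [mem_lev] at e
            exact (f2 t e.2.2.2.1).2 (by omega)
          · omega
      · by_cases e : i = i''
        · exact Or.inl (e ▸ hhi)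
        · refine Or.inr fun t k => ?_
          rw [mem_lev] at k
          exact (l5 t k.2.1).2.2.2 (by omega) (by omega)
    · refine class_mid hinv hlab c1 c2 c3 c4 ?_ ?_
      · intro t k
        rw [mem_lev] at k
        exact ⟨(l5 t k.2.1).2.2.2 (by omega) (by omega), (l5 t k.2.1).2.2.1 (by omega) (by omega)⟩
      · intro hz t k
        rcases hZm i t k with e | e
        · rw [mem_lev] at e
          exact Or.inr ((f2 t e.2.2.2.1).2 (by omega))
        · exact Or.inl ((hXm t e.2.2).2.2 hz)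
  · refine class_low hinv hlab (empty_subset _) (hZs _) (disjoint_empty_left _) (hZf _) ?_
      (Or.inr (by simp))
    intro t ht
    rw [empty_union, mem_lev] at ht
    exact (f2 t ht.2.1).1 (by omega)
  · refine class_high hinv hlab (empty_subset _) (hZs _) (disjoint_empty_left _) (hZf _) ?_
      (Or.inr (by simp))
    intro t ht
    rw [empty_union, mem_lev] at ht
    exact (f2 t ht.2.1).2 (by omega)
  · have s1 : ∀ i, (Zc i).card + ((if i = i' then (Lev adj col a N Z f i).card else 0) +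
        (if i = i'' then (Lev adj col a N Z f i).card else 0)) =
        (Lev adj col a N Z f i).card + if i' < i ∧ i < i'' then X.card else 0 := by
      intro i
      simp only [Zc]
      rw [card_union_of_disjoint]
      · split_ifs <;> first | omega | simp
      · split_ifs
        · simp
        · simp
        · rw [disjoint_left]
          intro x hx hx'
          exact not_or.2 (hXm x hx').2.1 (mem_lev.1 hx).2.1
        · simp
    have s2 := sum_congr rfl fun i (_ : i ∈ range l) => s1 i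
    rw [sum_add_distrib, sum_add_distrib, sum_add_distrib, sum_ite_eq', sum_ite_eq',
      if_pos (mem_range.2 (by omega)), if_pos (mem_range.2 h2), sum_between h2, hXc] at s2
    have s3 := sum_lev (adj := adj) (col := col) (a := a) (N := N) (X := Z) f1
    omega
  · intro i k1 k2 x k
    rw [mem_lev] at k
    exact ⟨(l5 x k.2.1).2.2.2 (by omega) (by omega), (l5 x k.2.1).2.2.1 (by omega) (by omega)⟩

end Pool.Agent.H31Fed
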