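import Pool.Agent.Lib.MP_fed786_co.H66Q

set_option autoImplicit false

namespace Pool.Agent.H31Fed
open Finset Pool.Agent.H66Fed

variable {V C : Type} [DecidableEq V] [DecidableEq C]

/-- An arc of colour `c` joins `u` and `v`. -/
def CAdj (adj : V → V → Prop) (col : V → V → C) (c : C) (u v : V) : Prop :=
  (adj u v ∧ col u v = c) ∨ (adj v u ∧ col v u = c)

/-- `u` is an in-neighbour of colour `c` of `x` in `U` with the same first `j` levels. -/
def Nb (adj : V → V → Prop) (col : V → V → C) (c : C) (g : ℕ → V → ℕ) (j : ℕ) (U : Finset V)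
    (x u : V) : Prop :=
  u ∈ U ∧ (∀ i < j, g i u = g i x) ∧ adj u x ∧ col u x = c

/-- Three such in-neighbours, pairwise joined in colour `c`. -/
def Rich (adj : V → V → Prop) (col : V → V → C) (c : C) (g : ℕ → V → ℕ) (j : ℕ) (U : Finset V)
    (x : V) : Prop :=
  ∃ u1 u2 u3, Nb adj col c g j U x u1 ∧ Nb adj col c g j U x u2 ∧ Nb adj col c g j U x u3 ∧
    CAdj adj col c u1 u2 ∧ CAdj adj col c u1 u3 ∧ CAdj adj col c u2 u3

/-- The system of levels and typical sets. -/
structure Sys (adj : V → V → Prop) (col : V → V → C) (W : Finset V) (a : ℕ → C) (K l T : ℕ)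
    (E F : V → Prop) (g : ℕ → V → ℕ) (I O : ℕ → Finset V) : Prop where
  lt : ∀ j < K, ∀ v, g j v < l
  prop : ∀ j < K, ∀ u v, adj u v → col u v = a j → g j u ≠ g j v
  I0 : I 0 = W
  O0 : O 0 = W
  Is : ∀ j < K, ∀ x, x ∈ I (j + 1) ↔ x ∈ I j ∧ (g j x < T ∨ Rich adj col (a j) g j (I j) x)
  Os : ∀ j < K, ∀ x, x ∈ O (j + 1) ↔
    x ∈ O j ∧ (l ≤ g j x + T ∨ Rich (flip adj) (flip col) (a j) g j (O j) x)
  bin : ∀ j < K, ∀ x u, adj x u → col x u = a j → g j u < g j x →
    ¬ Rich adj col (a j) g j (I j) x → ¬ Rich adj col (a j) g j (I j) u ∨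
      (¬ E x ∧ ¬ Rich (flip adj) (flip col) (a j) g j (O j) x)
  bout : ∀ j < K, ∀ x u, adj u x → col u x = a j → g j x < g j u →
    ¬ Rich (flip adj) (flip col) (a j) g j (O j) x →
      ¬ Rich (flip adj) (flip col) (a j) g j (O j) u ∨
      (¬ F x ∧ ¬ Rich adj col (a j) g j (I j) x)

variable {adj : V → V → Prop} {col : V → V → C}

omit [DecidableEq V] [DecidableEq C] in
theorem Rich.congr {c : C} {g g' : ℕ → V → ℕ} {j : ℕ} {U : Finset V} {x : V}
    (h : ∀ i < j, ∀ u v, g i u = g i v → g' i u = g' i v) (hr : Rich adj col c g j U x) :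
    Rich adj col c g' j U x := by
  obtain ⟨u1, u2, u3, h1, h2, h3, h4⟩ := hr
  have k : ∀ u, Nb adj col c g j U x u → Nb adj col c g' j U x u := fun u hu =>
    ⟨hu.1, fun i hi => h i hi _ _ (hu.2.1 i hi), hu.2.2⟩
  exact ⟨u1, u2, u3, k _ h1, k _ h2, k _ h3, h4⟩

omit [DecidableEq V] [DecidableEq C] in
theorem rich_iff {c : C} {g g' : ℕ → V → ℕ} {j : ℕ} {U : Finset V} {x : V}
    (h : ∀ i < j, ∀ u v, g i u = g i v ↔ g' i u = g' i v) :
    Rich adj col c g j U x ↔ Rich adj col c g' j U x :=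
  ⟨Rich.congr fun i hi u v => (h i hi u v).1, Rich.congr fun i hi u v => (h i hi u v).2⟩

omit [DecidableEq V] [DecidableEq C] in
theorem Sys.flip {W : Finset V} {a : ℕ → C} {K l T : ℕ} {E F : V → Prop} {g : ℕ → V → ℕ}
    {I O : ℕ → Finset V} (h : Sys adj col W a K l T E F g I O) :
    Sys (flip adj) (flip col) W a K l T F E (fun j v => l - 1 - g j v) O I := by
  have hc : ∀ j < K, ∀ i < j, ∀ u v, g i u = g i v ↔ l - 1 - g i u = l - 1 - g i v := by
    intro j hj i hi u v
    have := h.lt i (by omega) u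
    have := h.lt i (by omega) v
    omega
  have r1 : ∀ j < K, ∀ U x, Rich adj col (a j) (fun j v => l - 1 - g j v) j U x ↔
      Rich adj col (a j) g j U x := fun j hj U x => (rich_iff (hc j hj)).symm
  have r2 : ∀ j < K, ∀ U x, Rich (_root_.flip adj) (_root_.flip col) (a j)
      (fun j v => l - 1 - g j v) j U x ↔
      Rich (_root_.flip adj) (_root_.flip col) (a j) g j U x :=
    fun j hj U x => (rich_iff (hc j hj)).symm
  refine ⟨?_, ?_, h.O0, h.I0, ?_, ?_, ?_, ?_⟩
  · intro j hj v
    have := h.lt j hj v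
    omega
  · intro j hj u v h1 h2
    have := h.prop j hj v u h1 h2
    have := h.lt j hj u
    have := h.lt j hj v
    omega
  · intro j hj x
    rw [h.Os j hj x, r2 j hj]
    have := h.lt j hj x
    have e : l - 1 - g j x < T ↔ l ≤ g j x + T := by omega
    rw [e]
  · intro j hj x
    rw [h.Is j hj x]
    have := h.lt j hj x
    have e : l ≤ l - 1 - g j x + T ↔ g j x < T := by omega
    rw [e]
    exact and_congr_right fun _ => or_congr_right (r1 j hj _ _).symm
  · intro j hj x u h1 h2 h3 h4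
    have := h.lt j hj u
    have := h.lt j hj x
    rw [r2 j hj] at h4 ⊢
    rcases h.bout j hj x u h1 h2 (by omega) h4 with k | k
    · exact Or.inl k
    · exact Or.inr ⟨k.1, fun k' => k.2 ((r1 j hj _ _).1 k')⟩
  · intro j hj x u h1 h2 h3 h4
    have := h.lt j hj u
    have := h.lt j hj x
    rw [r2 j hj]
    rcases h.bin j hj x u h1 h2 (by omega) (fun k => h4 ((r1 j hj _ _).2 k)) with k | k
    · exact Or.inl fun k' => k ((r1 j hj _ _).1 k')
    · exact Or.inr k

omit [DecidableEq V] [DecidableEq C] in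
theorem exists_sys {l : ℕ} (hGR : GR adj col l) (W : Finset V) (a : ℕ → C) (T : ℕ)
    {E F : V → Prop} (hEF : ∀ x, E x → F x → False) (K : ℕ) :
    ∃ g I O, Sys adj col W a K l T E F g I O := by
  classical
  induction K with
  | zero =>
    exact ⟨fun _ _ => 0, fun _ => W, fun _ => W, by simp, by simp, rfl, rfl, by simp, by simp,
      by simp, by simp⟩
  | succ K ih =>
    obtain ⟨g, I, O, h⟩ := ih
    let ri : V → Prop := Rich adj col (a K) g K (I K)
    let ro : V → Prop := Rich (flip adj) (flip col) (a K) g K (O K)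
    let ρ : V → ℕ := fun x => if ¬ ro x ∧ (F x ∨ ri x) then 2 else if ¬ ri x then 0 else 1
    obtain ⟨f, f1, f2, f3⟩ := hGR (a K) ρ
    let g' := Function.update g K f
    have e1 : ∀ j < K, g' j = g j := fun j hj => Function.update_of_ne (by omega) _ _
    have e2 : g' K = f := Function.update_self _ _ _
    have hc : ∀ j ≤ K, ∀ i < j, ∀ u v, g' i u = g' i v ↔ g i u = g i v := by
      intro j hj i hi u v
      rw [e1 i (by omega)]
    let I' := Function.update I (K + 1) ((I K).filter fun x => f x < T ∨ ri x)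
    let O' := Function.update O (K + 1) ((O K).filter fun x => l ≤ f x + T ∨ ro x)
    have i1 : ∀ j ≤ K, I' j = I j := fun j hj => Function.update_of_ne (by omega) _ _
    have o1 : ∀ j ≤ K, O' j = O j := fun j hj => Function.update_of_ne (by omega) _ _
    have i2 : I' (K + 1) = (I K).filter fun x => f x < T ∨ ri x := Function.update_self _ _ _
    have o2 : O' (K + 1) = (O K).filter fun x => l ≤ f x + T ∨ ro x := Function.update_self _ _ _
    have r1 : ∀ j ≤ K, ∀ x, Rich adj col (a j) g' j (I' j) x ↔ Rich adj col (a j) g j (I j) x := by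
      intro j hj x
      rw [i1 j hj]
      exact rich_iff (hc j hj)
    have r2 : ∀ j ≤ K, ∀ x, Rich (flip adj) (flip col) (a j) g' j (O' j) x ↔
        Rich (flip adj) (flip col) (a j) g j (O j) x := by
      intro j hj x
      rw [o1 j hj]
      exact rich_iff (hc j hj)
    refine ⟨g', I', O', ?_, ?_, (i1 0 (by omega)).trans h.I0, (o1 0 (by omega)).trans h.O0, ?_, ?_,
      ?_, ?_⟩
    · intro j hj v
      rcases Nat.lt_succ_iff_lt_or_eq.1 hj with k | rfl
      · rw [e1 j k]; exact h.lt j k v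
      · rw [e2]; exact f1 v
    · intro j hj u v
      rcases Nat.lt_succ_iff_lt_or_eq.1 hj with k | rfl
      · rw [e1 j k]; exact h.prop j k u v
      · rw [e2]; exact f2 u v
    · intro j hj x
      rw [r1 j (by omega), i1 j (by omega)]
      rcases Nat.lt_succ_iff_lt_or_eq.1 hj with k | rfl
      · rw [e1 j k, i1 (j + 1) (by omega)]; exact h.Is j k x
      · rw [e2, i2, mem_filter]
    · intro j hj x
      rw [r2 j (by omega), o1 j (by omega)]
      rcases Nat.lt_succ_iff_lt_or_eq.1 hj with k | rfl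
      · rw [e1 j k, o1 (j + 1) (by omega)]; exact h.Os j k x
      · rw [e2, o2, mem_filter]
    · intro j hj x u
      rw [r1 j (by omega), r1 j (by omega), r2 j (by omega)]
      rcases Nat.lt_succ_iff_lt_or_eq.1 hj with k | rfl
      · rw [e1 j k]; exact h.bin j k x u
      · rw [e2]
        intro h1 h2 h3 h4
        have h5 : ¬ ρ x < ρ u := fun k => by have := f3 x u h1 h2 k; omega
        change ¬ ri x at h4
        change ¬ ri u ∨ (¬ E x ∧ ¬ ro x)
        by_cases k : ¬ ro x ∧ (F x ∨ ri x)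
        · exact Or.inr ⟨fun k' => hEF x k' (k.2.resolve_right h4), k.1⟩
        · left
          intro k'
          apply h5
          simp only [ρ, if_neg k, if_pos h4, k', not_true_eq_false, if_false]
          split_ifs <;> omega
    · intro j hj x u
      rw [r2 j (by omega), r2 j (by omega), r1 j (by omega)]
      rcases Nat.lt_succ_iff_lt_or_eq.1 hj with k | rfl
      · rw [e1 j k]; exact h.bout j k x u
      · rw [e2]
        intro h1 h2 h3 h4
        have h5 : ¬ ρ u < ρ x := fun k => by have := f3 u x h1 h2 k; omega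
        change ¬ ro x at h4
        change ¬ ro u ∨ (¬ F x ∧ ¬ ri x)
        by_cases k : F x ∨ ri x
        · left
          intro k'
          apply h5
          have k2 : ¬ (¬ ro u ∧ (F u ∨ ri u)) := fun k3 => k3.1 k'
          simp only [ρ, if_pos (And.intro h4 k), if_neg k2]
          split_ifs <;> omega
        · exact Or.inr (not_or.1 k)

theorem RPath.append {s e f t : V} {S S' : Finset V} {A A' : Finset C}
    (h : RPath adj col s e S A) (hef : adj e f) (h' : RPath adj col f t S' A')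
    (hS : Disjoint S S') (h1 : col e f ∉ A) (h2 : col e f ∉ A') (h3 : Disjoint A A') :
    RPath adj col s t (S ∪ S') (insert (col e f) (A ∪ A')) := by
  induction h' with
  | single =>
    have := RPath.snoc h hef (fun k => disjoint_left.1 hS k (mem_singleton_self _)) h1
    rw [union_empty, union_comm, ← insert_eq]
    exact this
  | @snoc t u S' A' _ htu huS hcA ih =>
    have ih' := ih (hS.mono_right (subset_insert _ _)) (fun k => h2 (mem_insert_of_mem k))
      (h3.mono_right (subset_insert _ _))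
    have k1 : u ∉ S ∪ S' := by
      intro k
      rcases mem_union.1 k with k | k
      · exact disjoint_left.1 hS k (mem_insert_self _ _)
      · exact huS k
    have k2 : col t u ∉ insert (col e f) (A ∪ A') := by
      intro k
      rcases mem_insert.1 k with k | k
      · exact h2 (k ▸ mem_insert_self _ _)
      · rcases mem_union.1 k with k | k
        · exact disjoint_left.1 h3 k (mem_insert_self _ _)
        · exact hcA k
    have := RPath.snoc ih' htu k1 k2
    rwa [union_insert, union_insert, insert_comm]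

/-- A rainbow path into `x` with the colours of index in `Y`, with controlled levels. -/
def InP (adj : V → V → Prop) (col : V → V → C) (W : Finset V) (a : ℕ → C) (g : ℕ → V → ℕ) (x : V)
    (Y : Finset ℕ) (y1 y2 : V) : Prop :=
  ∃ s S, RPath adj col s x S (Y.image a) ∧ S ⊆ W ∧ ∀ v ∈ S, v = x ∨
    ∃ j ∈ Y, (∀ i < j, g i v = g i x) ∧ g j v ≠ g j x ∧ g j v ≠ g j y1 ∧ g j v ≠ g j y2

theorem inP_empty {W : Finset V} {a : ℕ → C} {g : ℕ → V → ℕ} {x y1 y2 : V} (hx : x ∈ W) :
    InP adj col W a g x ∅ y1 y2 :=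
  ⟨x, {x}, by simpa using RPath.single x, by simpa using hx, by simp⟩

theorem inP_step {W U : Finset V} {a : ℕ → C} {g : ℕ → V → ℕ} {x y1 y2 : V} {j : ℕ}
    {Y : Finset ℕ} (hx : x ∈ W) (hinj : ∀ i < j, a i ≠ a j)
    (hp : ∀ u v, adj u v → col u v = a j → g j u ≠ g j v) (hY : ∀ i ∈ Y, i < j)
    (hr : Rich adj col (a j) g j U x)
    (hU : ∀ u ∈ U, (∀ i < j, g i u = g i x) → InP adj col W a g u Y y1 y2) :
    InP adj col W a g x (insert j Y) y1 y2 := by
  have hp' : ∀ u v, CAdj adj col (a j) u v → g j u ≠ g j v := by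
    rintro u v (k | k)
    · exact hp u v k.1 k.2
    · exact (hp v u k.1 k.2).symm
  obtain ⟨u, hu, k1, k2⟩ : ∃ u, Nb adj col (a j) g j U x u ∧ g j u ≠ g j y1 ∧ g j u ≠ g j y2 := by
    obtain ⟨u1, u2, u3, h1, h2, h3, h4, h5, h6⟩ := hr
    have a4 := hp' _ _ h4
    have a5 := hp' _ _ h5
    have a6 := hp' _ _ h6
    by_cases b1 : g j u1 ≠ g j y1 ∧ g j u1 ≠ g j y2
    · exact ⟨u1, h1, b1⟩
    by_cases b2 : g j u2 ≠ g j y1 ∧ g j u2 ≠ g j y2
    · exact ⟨u2, h2, b2⟩
    exact ⟨u3, h3, by omega⟩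
  obtain ⟨hu1, hu2, hu3, hu4⟩ := hu
  obtain ⟨s, S, p1, p2, p3⟩ := hU u hu1 hu2
  have k0 : g j u ≠ g j x := hp u x hu3 hu4
  have hS : ∀ v ∈ S, ∃ j' ∈ insert j Y, (∀ i < j', g i v = g i x) ∧ g j' v ≠ g j' x ∧
      g j' v ≠ g j' y1 ∧ g j' v ≠ g j' y2 := by
    intro v hv
    rcases p3 v hv with rfl | ⟨j', q1, q2, q3, q4⟩
    · exact ⟨j, mem_insert_self _ _, hu2, k0, k1, k2⟩
    · have := hY j' q1
      exact ⟨j', mem_insert_of_mem q1, fun i hi => (q2 i hi).trans (hu2 i (by omega)),
        by rw [← hu2 j' this]; exact q3, q4⟩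
  have hxS : x ∉ S := fun k => by
    obtain ⟨_, _, _, q, _⟩ := hS x k
    exact q rfl
  have hc : col u x ∉ Y.image a := by
    rw [hu4]
    intro k
    obtain ⟨i, hi, e⟩ := mem_image.1 k
    exact hinj i (hY i hi) e
  refine ⟨s, insert x S, ?_, insert_subset hx p2, ?_⟩
  · rw [image_insert, ← hu4]
    exact p1.snoc hu3 hxS hc
  · intro v hv
    rcases mem_insert.1 hv with k | k
    · exact Or.inl k
    · exact Or.inr (hS v k)

theorem inP_typ {W : Finset V} {a : ℕ → C} {g : ℕ → V → ℕ} {K : ℕ} {I : ℕ → Finset V}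
    (Lw : ℕ → Prop) (hinj : ∀ j < K, ∀ i < j, a i ≠ a j)
    (hp : ∀ j < K, ∀ u v, adj u v → col u v = a j → g j u ≠ g j v) (h0 : I 0 = W)
    (hs : ∀ j < K, ∀ x, x ∈ I (j + 1) → x ∈ I j ∧ (Lw (g j x) ∨ Rich adj col (a j) g j (I j) x))
    (y1 y2 : V) : ∀ j ≤ K, ∀ x ∈ I j, x ∈ W ∧ ∀ Y : Finset ℕ,
      (∀ i ∈ Y, i < j ∧ ¬ Lw (g i x)) → InP adj col W a g x Y y1 y2 := by
  intro j
  induction j with
  | zero =>
    intro _ x hx
    rw [h0] at hx
    refine ⟨hx, fun Y hY => ?_⟩
    obtain rfl : Y = ∅ := eq_empty_of_forall_notMem fun i hi => by have := (hY i hi).1; omega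
    exact inP_empty hx
  | succ j ih =>
    intro hj x hx
    obtain ⟨h1, h2⟩ := hs j (by omega) x hx
    have ih' := ih (by omega)
    refine ⟨(ih' x h1).1, fun Y hY => ?_⟩
    by_cases hjY : j ∈ Y
    · rw [← insert_erase hjY]
      have hY' : ∀ i ∈ Y.erase j, i < j := by
        intro i hi
        have := (hY i (mem_of_mem_erase hi)).1
        have := ne_of_mem_erase hi
        omega
      refine inP_step (ih' x h1).1 (hinj j (by omega)) (hp j (by omega)) hY'
        (h2.resolve_left (hY j hjY).2) ?_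
      intro u hu hux
      apply (ih' u hu).2
      intro i hi
      refine ⟨hY' i hi, ?_⟩
      rw [hux i (hY' i hi)]
      exact (hY i (mem_of_mem_erase hi)).2
    · apply (ih' x h1).2
      intro i hi
      refine ⟨?_, (hY i hi).2⟩
      have := (hY i hi).1
      have : i ≠ j := fun e => hjY (e ▸ hi)
      omega

end Pool.Agent.H31Fed
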