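import Pool.Agent.Lib.MP_fed786_co.H31Root

set_option autoImplicit false

namespace Pool.Agent.H31Fed
open Finset Pool.Agent.H66Fed

variable {V C : Type} [DecidableEq V] [DecidableEq C]
variable {adj : V → V → Prop} {col : V → V → C}

theorem Inv.noPZ {c : ℕ} {W Z : Finset V} (h : Inv adj col (fun _ => none) c True W Z) :
    ¬ HasP adj col Z (c + 2) := by
  rintro ⟨s, t, S, B, p, h1, h2⟩
  have := ((h s t S B p (h1.trans subset_union_right)).2 trivial).2.1 rfl
  omega

theorem up_arith {l T t i w z y za Q X : ℝ} (hl : 8 ≤ l) (hT : 1 ≤ T) (ht : 0 ≤ t)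
    (htT : t + 1 ≤ T) (hi : i = 14 * T + t + 1) (hz : 0 ≤ z) (hy : 0 ≤ y) (hQ : 0 ≤ Q)
    (h1 : i * za ≤ 7 * z + Q)
    (h2 : w - y + 4 / l * (1 - t / (2 * T)) * (z - za + (l - 2) * y) ≤ X) :
    w + 4 / l * (1 - (t + 1) / (2 * T)) * z ≤ X + Q := by
  have hT0 : 0 < T := by linarith
  have hl0 : 0 < l := by linarith
  have a2 : 0 ≤ t / (2 * T) := by positivity
  have a3 : t / (2 * T) ≤ 1 / 2 := by
    rw [div_le_div_iff₀ (by linarith) (by norm_num)]; linarith
  set ω := 4 / l * (1 - t / (2 * T)) with hω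
  have a4 : 0 ≤ ω := mul_nonneg (by positivity) (by linarith)
  have a5 : ω ≤ 4 / l := by
    have : 0 ≤ 4 / l := by positivity
    nlinarith
  have a6 : 4 / l ≤ 1 := by rw [div_le_one hl0]; linarith
  have a7 : 1 ≤ ω * (l - 2) := by
    have : 2 ≤ ω * l := by rw [hω, mul_right_comm, div_mul_cancel₀ _ hl0.ne']; linarith
    have : ω * l ≤ 4 := by rw [hω, mul_right_comm, div_mul_cancel₀ _ hl0.ne']; linarith
    nlinarith
  have a8 : za ≤ z / (2 * T) + Q := by
    apply le_of_mul_le_mul_left _ (show 0 < i by linarith)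
    have : 7 * z ≤ i * (z / (2 * T)) := by
      rw [← mul_div_assoc, le_div_iff₀ (by linarith)]
      nlinarith
    nlinarith
  have a9 : 0 ≤ z / (2 * T) := by positivity
  have e : 4 / l * (1 - (t + 1) / (2 * T)) * z = ω * z - 4 / l * (z / (2 * T)) := by
    rw [hω]; ring
  rw [e]
  nlinarith [mul_le_mul_of_nonneg_left a8 a4, mul_le_mul_of_nonneg_right a5 a9,
    mul_le_mul_of_nonneg_right (a5.trans a6) hQ, mul_le_mul_of_nonneg_right a7 hy]

theorem up {l K r T d : ℕ} {G γ : ℝ} (h : Ctx adj col l K) (hT : 1 ≤ T) (hr : r + T ≤ K)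
    (hd : d + 14 * T = r) {V0 S : Finset V} {I I0 : Finset C} (hI : I.card = 15 * T)
    (hI0 : Disjoint I I0) (hc : Core adj col S I (l ^ (d + 5)))
    (hZ : ∀ I' ⊆ I, ∀ c < r + T, c + I'.card = r + T → ∀ Z ⊆ S, FreeS adj col I' Z →
      ¬ HasP adj col Z (c + 2) → (Z.card : ℝ) ≤ G * l ^ c)
    (hP : ∀ I' W, Node adj col V0 K r I' W → (W.card : ℝ) ≤ (1 - γ) * l ^ r) :
    ∀ t ≤ T, ∀ (W Z : Finset V) (I' : Finset C), I' ⊆ I → I'.card + t = T → W ∪ Z ⊆ S →
      FreeS adj col I' (W ∪ Z) → Disjoint W Z → Inv adj col (fun _ => none) (r + t) True W Z →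
      Node adj col V0 K (r + t) (I' ∪ I0) W →
      (W.card : ℝ) + 4 / l * (1 - t / (2 * T)) * Z.card ≤
        l ^ (r + t) * (1 - γ * (1 - 2 / l) ^ t + 4 * G / l + t / l ^ 2) := by
  have hl := h.hl
  have hl' : (8 : ℝ) ≤ l := by exact_mod_cast hl
  have hl0 : (0 : ℝ) < l := by linarith
  have hT' : (1 : ℝ) ≤ T := by exact_mod_cast hT
  intro t
  induction t with
  | zero =>
    intro _ W Z I' h1 h2 h3 h4 _ h6 h7
    have k1 := hP _ W h7
    have k2 := hZ I' h1 r (by omega) (by omega) Z (subset_union_right.trans h3)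
      (h4.mono Subset.rfl subset_union_right) h6.noPZ
    have k3 := mul_le_mul_of_nonneg_left k2 (show (0 : ℝ) ≤ 4 / l by positivity)
    simp only [Nat.cast_zero, zero_div, sub_zero, mul_one, add_zero, pow_zero]
    have e : (l : ℝ) ^ r * (1 - γ + 4 * G / l) = (1 - γ) * l ^ r + 4 / l * (G * l ^ r) := by ring
    linarith
  | succ t ih =>
    intro ht W Z I' h1 h2 h3 h4 h5 h6 h7
    have ht' : (t : ℝ) + 1 ≤ T := by exact_mod_cast ht
    have ht0 : (0 : ℝ) ≤ t := Nat.cast_nonneg _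
    have hII : (I \ I').card + I'.card = I.card := card_sdiff_add_card_eq_card h1
    have k1 := kraft_avg (n := r + t + 1) h.gr hl (Subset.refl (I \ I'))
      (subset_union_right (s₁ := W) (s₂ := Z)) (hc.sdiff h3 h4)
      (by rw [← pow_add]; exact Nat.pow_le_pow_right (by omega) (by omega))
    obtain ⟨a, ha, k2⟩ := exists_le_of_sum_le (s := I \ I') (card_pos.1 (by omega))
      (f := fun a => ((I \ I').card : ℝ) * (Unt adj col a (W ∪ Z) Z).card)
      (g := fun _ => 7 * (Z.card : ℝ) + l ^ (r + t + 1) / l ^ 2) (by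
        rw [← mul_sum, sum_const, nsmul_eq_mul]
        exact mul_le_mul_of_nonneg_left k1 (Nat.cast_nonneg _))
    rw [mem_sdiff] at ha
    obtain ⟨f, -, f2⟩ := step_main h.gr (a := a) (c := r + t) h5 h6 (by simp)
    obtain ⟨Wc, Zc, c1, c2, c3, c4, c5, c6, c7, c8, -⟩ := f2 0 (l - 1) (by omega) (by omega)
    set ω : ℝ := 4 / l * (1 - t / (2 * T)) with hω
    have a3 : (t : ℝ) / (2 * T) ≤ 1 / 2 := by
      rw [div_le_div_iff₀ (by linarith) (by norm_num)]; linarith
    have a2 : 0 ≤ (t : ℝ) / (2 * T) := by positivity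
    have a4 : 0 ≤ ω := mul_nonneg (by positivity) (by linarith)
    have a5 : ω ≤ 4 / l := by
      have : (0 : ℝ) ≤ 4 / l := by positivity
      nlinarith
    have hca : (insert a I').card = I'.card + 1 := card_insert_of_notMem ha.2
    have hb : ∀ i < l, Zc i = ∅ → ((Wc i).card : ℝ) + ω * (Zc i).card ≤ l ^ (r + t) := by
      intro i hi e
      rw [e, card_empty, Nat.cast_zero, mul_zero, add_zero]
      exact_mod_cast h.ih' (by omega) (c1 i hi).inv_none.noP
    have s1 := sum_mid_le (by omega) (fun i => ((Wc i).card : ℝ) + ω * (Zc i).card)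
      (A := l ^ (r + t) * (1 - γ * (1 - 2 / l) ^ t + 4 * G / l + t / l ^ 2)) (by
        intro i i1 i2
        have ci := c1 i (by omega)
        refine ih (by omega) _ _ (insert a I') (insert_subset ha.1 h1) (by omega)
          (ci.sub.trans h3) (h4.insert ci.free ci.sub) ci.disj ci.inv_none ?_
        rw [insert_union]
        refine h7.child ?_ ci.subW
          (fun u hu v hv => ci.free u (mem_union_left _ hu) v (mem_union_left _ hv))
          (c8 i i1 i2) ci.inv_none.noP
        intro k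
        rcases mem_union.1 k with k | k
        · exact ha.2 k
        · exact disjoint_left.1 hI0 ha.1 k)
      (hb 0 (by omega) c6) (hb (l - 1) (by omega) c7)
    have s2 : ∀ Y, Child adj col a (fun _ => none) (r + t) True W Z ∅ Y →
        ω * (Y.card : ℝ) ≤ l ^ (r + t) * (4 * G / l + t / l ^ 2) := by
      intro Y ci
      have q := hZ (insert a I') (insert_subset ha.1 h1) (r + t) (by omega) (by omega) Y
        (ci.subZ.trans h3) ((h4.insert ci.free ci.sub).mono Subset.rfl subset_union_right)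
        ci.inv_none.noPZ
      calc ω * (Y.card : ℝ) ≤ 4 / l * Y.card := mul_le_mul_of_nonneg_right a5 (Nat.cast_nonneg _)
        _ ≤ 4 / l * (G * l ^ (r + t)) := mul_le_mul_of_nonneg_left q (by positivity)
        _ = l ^ (r + t) * (4 * G / l) := by ring
        _ ≤ _ := mul_le_mul_of_nonneg_left (le_add_of_nonneg_right (by positivity)) (by positivity)
    have s3 := s2 _ c2
    have s4 := s2 _ c3
    rw [sum_add_distrib, ← mul_sum, ← Nat.cast_sum, ← Nat.cast_sum] at s1
    rw [if_pos trivial, add_zero] at c5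
    have e1 : ((∑ i ∈ range l, (Wc i).card : ℕ) : ℝ) =
        W.card - (Unt adj col a (W ∪ Z) W).card := by
      rw [← c4]; push_cast; ring
    have e2 : ((∑ i ∈ range l, (Zc i).card : ℕ) : ℝ) = Z.card +
        (l - 2) * (Unt adj col a (W ∪ Z) W).card - (Lev adj col a (W ∪ Z) Z f 0).card -
        (Lev adj col a (W ∪ Z) Z f (l - 1)).card - (Unt adj col a (W ∪ Z) Z).card := by
      have k : ((l - 1 - 0 - 1 : ℕ) : ℝ) = l - 2 := by
        rw [show l - 1 - 0 - 1 = l - 2 by omega, Nat.cast_sub (by omega)]; rfl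
      have := congrArg (Nat.cast : ℕ → ℝ) c5
      rw [Nat.cast_add, Nat.cast_add, Nat.cast_add, Nat.cast_add, Nat.cast_mul, k] at this
      linarith
    rw [e1, e2] at s1
    have := up_arith (i := (I \ I').card) (w := W.card) (y := (Unt adj col a (W ∪ Z) W).card)
      (X := (l - 2) * (l ^ (r + t) * (1 - γ * (1 - 2 / l) ^ t + 4 * G / l + t / l ^ 2)) +
        2 * l ^ (r + t) + 2 * (l ^ (r + t) * (4 * G / l + t / l ^ 2))) hl' hT' ht0 ht'
      (by exact_mod_cast (show (I \ I').card = 14 * T + t + 1 by omega)) (Nat.cast_nonneg _)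
      (Nat.cast_nonneg _) (by positivity) k2 (by rw [← hω]; nlinarith)
    push_cast
    refine this.trans (le_of_eq ?_)
    rw [← add_assoc, pow_succ, pow_succ (1 - 2 / (l : ℝ))]
    field_simp
    ring

theorem block {l K M r T : ℕ} {F γ : ℝ} (h : Ctx adj col l K) (hK : K ≤ M * l)
    (hM : 80 * M + 120 ≤ l) (hT : 1 ≤ T) (hr : r + T ≤ K) (hrT : 225 * T + 1 ≤ r + T)
    (hTl : 800 * T ^ 2 ≤ l) (hF : RB adj col l K F) (hF' : RB (flip adj) (flip col) l K F)
    {V0 S : Finset V} {I0 : Finset C} (nd : Node adj col V0 K (r + T) I0 S)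
    (hP : ∀ I' W, Node adj col V0 K r I' W → (W.card : ℝ) ≤ (1 - γ) * l ^ r)
    (hn : l ^ (r + T) < 2 * S.card) :
    (S.card : ℝ) ≤ l ^ (r + T) * (1 - γ * (1 - 2 / l) ^ T + 4 * (2 * F + 1) / l + T / l ^ 2) := by
  classical
  have hl := h.hl
  have hl' : (8 : ℝ) ≤ l := by exact_mod_cast hl
  obtain ⟨q, hq⟩ : ∃ q, r + T = q + 5 := ⟨r + T - 5, by omega⟩
  have hno := nd.no
  obtain ⟨S', s1, R, s2, s3, s4, s5⟩ := core_extract (q := q) h (by omega) hK (by omega)
    (S := S) (by rwa [hq] at hno) (by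
      rw [hq, pow_succ] at hn
      nlinarith [Nat.zero_le (l ^ (q + 4))])
  obtain ⟨n, I, -, D, d1, e1, dn, hD⟩ := bproc h hr (J := 15 * T) (by omega) (by omega) s1 hno
    (by omega) (by omega) s4 (15 * T) le_rfl
  have hTT : T ≤ T ^ 2 := Nat.le_self_pow (by omega) _
  obtain ⟨w, hw⟩ : D.Nonempty := by
    rw [← card_pos, ← Nat.cast_pos (α := ℝ)]
    refine lt_of_lt_of_le (mul_pos ?_ (by positivity)) hD
    have hT' : (1 : ℝ) ≤ T := by exact_mod_cast hT
    have k1 : ((15 * T : ℕ) : ℝ) / (2 * (15 * T : ℕ)) = 1 / 2 := by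
      push_cast; field_simp
    have k2 : 3 * ((15 * T : ℕ) : ℝ) / l < 1 / 16 := by
      rw [div_lt_div_iff₀ (by linarith) (by norm_num)]
      have : 720 * T < l := by omega
      have : ((720 * T : ℕ) : ℝ) < l := by exact_mod_cast this
      push_cast at this ⊢
      linarith
    rw [k1]; linarith
  have hI : I.card = 15 * T := by have := dn.card; omega
  have p1 : ∀ Y ⊆ I, ∃ s Q, RPath adj col s w Q Y ∧ Q ⊆ S := fun Y hY => by
    obtain ⟨s, Q, k1, k2, -⟩ := dn.her w hw Y hY
    exact ⟨s, Q, k1, k2⟩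
  have p2 : ∀ Y ⊆ I, ∃ s Q, RPath (flip adj) (flip col) s w Q Y ∧ Q ⊆ S := fun Y hY => by
    obtain ⟨s, Q, k1, k2, -⟩ := dn.her' w hw Y hY
    exact ⟨s, Q, k1, k2⟩
  have hno' : ¬ HasP (flip adj) (flip col) S (r + T + 1) := fun k => hno k.of_reverse
  have hJ : 2 * (15 * T + 1) ^ 2 + 1 ≤ l := by nlinarith
  have := up (d := n) (G := 2 * F + 1) h hT hr (by omega) hI (I0 := I0) (S := S) ?_ ?_ ?_ hP T
    le_rfl S ∅ ∅ (empty_subset _) (by simp) (by simp) (fun _ _ _ _ _ => notMem_empty _)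
    (disjoint_empty_right _) (inv_of_noP hno) (by rwa [empty_union])
  · simpa using this
  · obtain ⟨s, Q, k1, k2⟩ := p1 I Subset.rfl
    exact nd.free.disj k1 k2
  · intro L hL hf
    have e : n + I.card = r + T := by omega
    have k1 := core_half h (c := n) (by omega) (by rwa [e]) p2
      (by rw [e, hq]; exact (s5 w (d1 hw)).2) hL hf
    have k2 := core_half h.flip (c := n) (by omega) (by rwa [e]) p1
      (by rw [e, hq]; exact (s5 w (d1 hw)).1) hL hf.flip
    have k3 := split_at h.hT L w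
    rw [e, hI] at k1 k2
    have a1 : 1 ≤ l ^ n := Nat.one_le_pow _ _ h.pos
    have a2 : r + T + 1 ≤ l * l := by nlinarith
    have a3 : (r + T + 1) * l ^ n ≤ l * l * l ^ n := Nat.mul_le_mul_right _ a2
    have a4 : l * l ≤ l * l * l ^ n := Nat.le_mul_of_pos_right _ a1
    have a5 : l ≤ l * l := Nat.le_mul_self l
    have a6 : 8 * (l * l * l ^ n) ≤ l ^ (n + 5) := by
      have : 8 ≤ l ^ 3 := hl.trans (Nat.le_self_pow (by omega) _)
      calc 8 * (l * l * l ^ n) ≤ l ^ 3 * (l * l * l ^ n) := Nat.mul_le_mul_right _ this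
        _ = _ := by ring
    omega
  · intro I' hI' c hc e Z hZ hf hz
    have k1 := zb_half hF (by omega) (by rwa [e]) (fun Y hY => p2 Y (hY.trans hI')) hZ hf hz
    have k2 := zb_half hF' (by omega) (by rwa [e]) (fun Y hY => p1 Y (hY.trans hI')) hZ hf.flip
      (fun k => hz k.of_reverse)
    have k3 : (Z.card : ℝ) ≤ (Z.filter fun t => adj t w).card +
        (Z.filter fun t => flip adj t w).card + 1 := by exact_mod_cast split_at h.hT Z w
    have k4 := card_le_card hI'
    have k5 : 2 * (I'.card + 1) ^ 2 + 1 ≤ l ^ c := by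
      have := Nat.pow_le_pow_left (show I'.card + 1 ≤ 15 * T + 1 by omega) 2
      have := Nat.le_self_pow (show c ≠ 0 by omega) l
      omega
    have k6 : 2 * ((I'.card : ℝ) + 1) ^ 2 + 1 ≤ l ^ c := by exact_mod_cast k5
    linarith

end Pool.Agent.H31Fed
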