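import Pool.Agent.Lib.MP_fed786_co.H31XR

set_option autoImplicit false

namespace Pool.Agent.H31Fed
open Finset Pool.Agent.H66Fed

variable {V C : Type} [DecidableEq V] [DecidableEq C]
variable {adj : V → V → Prop} {col : V → V → C}

/-- Rainbow paths in `S` that start in `G` and avoid `R` have at most two arcs. -/
def PT (adj : V → V → Prop) (col : V → V → C) (S G : Finset V) (R : Finset C) : Prop :=
  ∀ s ∈ G, ∀ t Q B, RPath adj col s t Q B → Q ⊆ S → Disjoint B R → B.card ≤ 2

theorem PT.three {S G : Finset V} {R : Finset C} (h : PT adj col S G R)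
    (hA : ∀ u v, adj u v → ¬ adj v u) (hG : G ⊆ S) {x y z w : V} (hx : x ∈ G) (hy : y ∈ S)
    (hz : z ∈ S) (hw : w ∈ S) (a1 : adj x y) (a2 : adj y z) (a3 : adj z w) (hn : w ≠ x)
    (c1 : col x y ∉ R) (c2 : col y z ∉ R) (c3 : col z w ∉ R) (c4 : col y z ≠ col x y) :
    col z w = col x y ∨ col z w = col y z := by
  by_contra k
  rw [not_or] at k
  have n1 : y ≠ x := fun e => hA _ _ a1 (e ▸ a1)
  have n2 : z ≠ y := fun e => hA _ _ a2 (e ▸ a2)
  have n3 : w ≠ z := fun e => hA _ _ a3 (e ▸ a3)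
  have n4 : z ≠ x := fun e => hA _ _ a1 (e ▸ a2)
  have n5 : w ≠ y := fun e => hA _ _ a2 (e ▸ a3)
  have p := (((RPath.single (adj := adj) (col := col) x).snoc a1 (by simpa using n1)
    (by simp)).snoc a2 (by simp [n2, n4]) (by simpa using c4)).snoc a3 (by simp [n3, n5, hn])
    (by simp [k.1, k.2])
  have := h x hx _ _ _ p
    (insert_subset hw (insert_subset hz (insert_subset hy (by simpa using hG hx))))
    (by simp [c1, c2, c3])
  rw [card_insert_of_notMem (by simp [k.1, k.2]), card_insert_of_notMem (by simpa using c4)] at this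
  simp at this

omit [DecidableEq V] in
theorem ts_card {l Φ : ℕ} (hGR : GR adj col l) {N : Finset V} {R : Finset C}
    (h : TS adj col N N R)
    (hΦ : ∀ L ⊆ N, (∀ u ∈ L, ∀ v ∈ L, adj u v → col u v ∈ R) → L.card ≤ Φ) :
    N.card ≤ (l + 2) * Φ := by
  obtain ⟨ε, e1, e2⟩ := eps_levels hGR Subset.rfl h
  have := card_le_mul_card_image_of_maps_to (s := N) (t := range (l + 2)) (f := ε)
    (fun z _ => mem_range.2 (e1 z)) Φ fun i _ => hΦ _ (filter_subset _ _) fun u hu v hv k => by
      rw [mem_filter] at hu hv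
      exact e2 u hu.1 v hv.1 k (hu.2.trans hv.2.symm)
  rwa [card_range, mul_comm] at this

theorem rcol {l K Φ : ℕ} (h : Ctx adj col l K) {N : Finset V} {R : Finset C}
    (hp : PT adj col N N R)
    (hΦ : ∀ L ⊆ N, (∀ u ∈ L, ∀ v ∈ L, adj u v → col u v ∈ R) → L.card ≤ Φ) :
    N.card ≤ 10 * l ^ 4 * Φ := by
  classical
  let E : V → Prop := fun x => ∃ a ∈ N, ∃ b ∈ N, adj a b ∧ adj b x ∧ col a b ∉ R ∧ col b x ∉ R ∧
    col b x ≠ col a b
  let F : V → Prop := fun x => ∃ a ∈ N, ∃ b ∈ N, adj x a ∧ adj a b ∧ col x a ∉ R ∧ col a b ∉ R ∧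
    col a b ≠ col x a
  have h1 := ts_card h.gr (N := N.filter fun x => ¬ E x) (R := R) (by
    intro x hx y hy z hz k1 k2 k3 k4
    by_contra k
    exact (mem_filter.1 hz).2 ⟨x, (mem_filter.1 hx).1, y, (mem_filter.1 hy).1, k1, k2, k3, k4, k⟩)
    fun L hL => hΦ L (hL.trans (filter_subset _ _))
  have h2 := ts_card h.gr (N := N.filter fun x => ¬ F x) (R := R) (by
    intro x hx y hy z hz k1 k2 k3 k4
    by_contra k
    exact (mem_filter.1 hx).2 ⟨y, (mem_filter.1 hy).1, z, (mem_filter.1 hz).1, k1, k2, k3, k4, k⟩)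
    fun L hL => hΦ L (hL.trans (filter_subset _ _))
  have h3 : ∀ x, ∃ (X : Finset V) (O : Finset C), x ∈ N.filter (fun x => E x ∧ F x) → X.card ≤ 2 ∧
      O.card ≤ 4 ∧ ∀ w ∈ N, w ∉ X → (adj x w → col x w ∉ R → col x w ∈ O) ∧
        (adj w x → col w x ∉ R → col w x ∈ O) := by
    intro x
    by_cases hx : x ∈ N.filter (fun x => E x ∧ F x)
    swap
    · exact ⟨∅, ∅, fun k => absurd k hx⟩
    obtain ⟨hx, ⟨a, a1, b, b1, e1, e2, e3, e4, e5⟩, c, c1, d, d1, f1, f2, f3, f4, f5⟩ :=
      mem_filter.1 hx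
    refine ⟨{a, d}, {col a b, col b x, col x c, col c d}, fun _ => ⟨card_le_two, card_le_four,
      fun w hw hw' => ⟨fun k k' => ?_, fun k k' => ?_⟩⟩⟩
    · rcases hp.three h.hA Subset.rfl a1 b1 hx hw e1 e2 k (fun e => hw' (by simp [e])) e3 e4 k' e5
        with e | e <;> simp [e]
    · by_cases e : col x c = col w x
      · simp [e]
      rcases hp.three h.hA Subset.rfl hw hx c1 d1 k f1 f2 (fun e => hw' (by simp [e])) k' f3 f4 e
        with e' | e'
      · simp [e']
      · exact absurd e' f5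
  choose X O hXO using h3
  obtain ⟨I, i1, i2, i3⟩ := indep 2 X _ fun v hv => (hXO v hv).1
  have hIN : I ⊆ N := i1.trans (filter_subset _ _)
  set P := ((I ×ˢ I).image fun p => col p.1 p.2) \ R with hP
  have h4 := kraft_sum (Φ := Φ) h.gr (fun z => P \ O z) P I (by
    intro L hL hf
    refine hΦ L (hL.trans hIN) fun u hu v hv k => ?_
    by_contra k'
    exact hf u hu v hv k (mem_sdiff.2 ⟨mem_image.2 ⟨(u, v), mem_product.2 ⟨hL hu, hL hv⟩, rfl⟩, k'⟩))
    (by
      intro z hz a ha
      rw [mem_sdiff, hP, mem_sdiff] at ha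
      refine ⟨fun ⟨u, k1, k2, k3⟩ => ha.2 ?_, fun ⟨u, k1, k2, k3⟩ => ha.2 ?_⟩
      · exact k3 ▸ ((hXO z (i1 hz)).2.2 u (hIN k1) (i2 u k1 z hz fun e => h.irr z (e ▸ k2))).2 k2
          (k3 ▸ ha.1.2)
      · exact k3 ▸ ((hXO z (i1 hz)).2.2 u (hIN k1) (i2 u k1 z hz fun e => h.irr z (e ▸ k2))).1 k2
          (k3 ▸ ha.1.2))
  have h5 : I.card * l ^ P.card ≤ l ^ 4 * ∑ z ∈ I, l ^ (P \ O z ∩ P).card := by
    rw [mul_sum, ← smul_eq_mul, ← sum_const]
    refine sum_le_sum fun z hz => ?_
    rw [inter_eq_left.2 sdiff_subset, ← pow_add]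
    have := card_le_card_sdiff_add_card (s := P) (t := O z)
    have := (hXO z (i1 hz)).2.1
    exact Nat.pow_le_pow_right h.pos (by omega)
  have h6 : I.card ≤ l ^ 4 * Φ := by
    apply Nat.le_of_mul_le_mul_right _ (pow_pos h.pos P.card)
    nlinarith [Nat.mul_le_mul_left (l ^ 4) h4]
  have h7 : N ⊆ (N.filter fun x => ¬ E x) ∪ ((N.filter fun x => ¬ F x) ∪
      N.filter fun x => E x ∧ F x) := by
    intro x hx
    simp only [mem_union, mem_filter]
    by_cases e : E x
    · by_cases e' : F x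
      · exact Or.inr (Or.inr ⟨hx, e, e'⟩)
      · exact Or.inr (Or.inl ⟨hx, e'⟩)
    · exact Or.inl ⟨hx, e⟩
  have h8 := (card_le_card h7).trans ((card_union_le _ _).trans
    (Nat.add_le_add_left (card_union_le _ _) _))
  have h9 : 2 * (l + 2) ≤ 5 * l ^ 4 := by
    have := h.hl
    have := Nat.le_self_pow (show 4 ≠ 0 by omega) l
    omega
  nlinarith [Nat.mul_le_mul_right Φ h9]

theorem type_x2 {l K ρ : ℕ} (h : Ctx adj col l K) (hρ : ρ ≤ l ^ 2) {S X : Finset V}
    (hS : ¬ HasP adj col S (ρ + 1)) (hX : X ⊆ S) (y : V → C)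
    (h1 : ∀ u ∈ X, ∀ v ∈ X, ∀ w ∈ X, adj u v → adj v w → col u v ≠ y u →
      col v w = y u ∨ col v w = col u v)
    (h2 : ∀ x ∈ X, End (flip adj) (flip col) S ρ x) : X.card ≤ 8 * l ^ 6 := by
  classical
  let P : V → Prop := fun x => ∃ α β, ∀ w ∈ X, adj x w → col x w = α ∨ col x w = β
  have c1 := type_x h hS (X := X.filter fun x => ¬ P x) ((filter_subset _ _).trans hX) y (by
    intro u hu v hv k
    by_contra k'
    exact (mem_filter.1 hv).2 ⟨_, _, fun w hw k2 =>
      h1 u (mem_filter.1 hu).1 v (mem_filter.1 hv).1 w hw k k2 k'⟩)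
    fun x hx => h2 x (mem_filter.1 hx).1
  have h3 : ∀ x, ∃ α β, P x → ∀ w ∈ X, adj x w → col x w = α ∨ col x w = β := by
    intro x
    by_cases k : P x
    · obtain ⟨α, β, k⟩ := k
      exact ⟨α, β, fun _ => k⟩
    · exact ⟨y x, y x, fun k' => absurd k' k⟩
  choose α β hαβ using h3
  set τ := 2 * (ρ * l + (ρ + 1)) + 1 with hτ
  set Y := X.filter P with hY
  have c2 : Y.card ≤ 2 * (ρ * (τ * l) + (ρ + 1)) + 1 := by
    apply tour_deg h.hT
    intro x hx
    obtain ⟨s, Q, B, p1, p2, p3⟩ := h2 x (mem_filter.1 hx).1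
    have k1 : ∀ b ∈ B, (Y.filter fun u => α u = b ∨ β u = b).card ≤ τ * l := by
      intro b _
      obtain ⟨f, f1, f2⟩ := GR.lev h.gr b
      have := card_le_mul_card_image_of_maps_to (s := Y.filter fun u => α u = b ∨ β u = b)
        (t := range l) (f := f) (fun z _ => mem_range.2 (f1 z)) τ fun i _ =>
        type_x h hS (fun u hu => hX (mem_filter.1 (mem_filter.1 (mem_filter.1 hu).1).1).1)
          (fun u => if α u = b then β u else α u) (by
            intro u hu v hv k
            simp only [hY, mem_filter] at hu hv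
            have j1 := hαβ u hu.1.1.2 v hv.1.1.1 k
            have j2 : col u v ≠ b := fun e => f2 u v k e (hu.2.trans hv.2.symm)
            have j3 := hu.1.2
            split_ifs with e
            · exact j1.resolve_left fun e' => j2 (e'.trans e)
            · exact j1.resolve_right fun e' => j2 (e'.trans (j3.resolve_left e)))
          fun u hu => h2 u (mem_filter.1 (mem_filter.1 (mem_filter.1 hu).1).1).1
      rwa [card_range] at this
    have k2 := card_biUnion_le_card_mul B _ _ k1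
    have k3 : (Y.filter fun u => adj u x) ⊆
        (B.biUnion fun b => Y.filter fun u => α u = b ∨ β u = b) ∪ Q := by
      intro u hu
      rw [mem_filter] at hu
      by_cases e : u ∈ Q
      · exact mem_union_right _ e
      have hu' := mem_filter.1 hu.1
      refine mem_union_left _ (mem_biUnion.2 ⟨col u x, ?_, mem_filter.2 ⟨hu.1,
        (hαβ u hu'.2 x (mem_filter.1 hx).1 hu.2).imp Eq.symm Eq.symm⟩⟩)
      exact ext_col (adj := flip adj) (col := flip col) (fun k => hS k.of_reverse) p1 p2 p3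
        (hX hu'.1) hu.2 e
    have k4 := (card_le_card k3).trans (card_union_le _ _)
    have k5 := RPath.card p1
    rw [p3] at k2 k5
    omega
  have c3 := card_filter_add_card_filter_not (s := X) P
  have hl := h.hl
  have a1 : 8 * l ^ 2 ≤ l ^ 3 := by rw [pow_succ l 2]; nlinarith
  have a2 : 64 ≤ l ^ 2 := by nlinarith
  have a3 : τ ≤ 3 * l ^ 3 := by
    have : ρ * l ≤ l ^ 3 := Nat.mul_le_mul_right l hρ
    omega
  have a4 : ρ * (τ * l) ≤ 3 * l ^ 6 :=
    (Nat.mul_le_mul hρ (Nat.mul_le_mul_right l a3)).trans (le_of_eq (by ring))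
  have a5 : 8 * l ^ 3 ≤ l ^ 6 := by
    rw [show l ^ 6 = l ^ 3 * l ^ 3 by ring]
    exact Nat.mul_le_mul_right _ (by omega)
  rw [← hY] at c3
  omega

open Classical in
theorem no_ten {l K q : ℕ} (h : Ctx adj col l K) (hq : q ≤ K) {S S0 G L : Finset V}
    {R : Finset C} (hS : ¬ HasP adj col S (q + 11)) (h0 : S0 ⊆ S) (hG : G ⊆ S0)
    (hp : PT adj col S0 G R) (hL : L ⊆ S) (hd : Disjoint G L) (hf : FreeS adj col R L)
    (h1 : ∀ x ∈ L, ∀ z ∈ G, adj z x → col z x ∈ R)
    (h2 : ∀ x ∈ L, 10 * l ^ 4 * (R.card * l ^ q) < (G.filter fun z => adj z x).card) :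
    ¬ HasP adj col L 10 := by
  rintro ⟨x, t, Q, B, p1, p2, p3⟩
  have hx := p2 p1.start_mem
  refine not_le.2 (h2 x hx) (rcol h (fun s hs t Q B p k => hp s (mem_filter.1 hs).1 t Q B p
    (k.trans ((filter_subset _ _).trans hG))) fun N hN hc => ?_)
  by_contra hi
  have hm : ∀ z ∈ N, z ∈ G ∧ adj z x := fun z hz => mem_filter.1 (hN hz)
  have k1 := card_biUnion_le_card_mul R (fun c => N.filter fun x => ¬ EndF adj col N q c x) _
    (fun c _ => nonendF h.pos (GR.lev h.gr) (h.ih q hq) N c)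
  obtain ⟨z, z1, z2⟩ := exists_mem_notMem_of_card_lt_card (lt_of_le_of_lt k1 (not_le.1 hi))
  simp only [mem_biUnion, mem_filter, not_exists, not_and, not_not] at z2
  have hb := h1 x hx z (hm z z1).1 (hm z z1).2
  obtain ⟨s, P, B', q1, q2, q3, q4⟩ := z2 _ hb z1
  have hB' : B' ⊆ R := path_cols hc q1 q2
  have hd0 := hf.disj p1 p2
  have hd' : Disjoint B' B := (hd0.mono_right hB').symm
  have hb' : col z x ∉ B := fun k => disjoint_left.1 hd0 k hb
  refine hS ⟨s, t, _, _, RPath.append q1 (hm z z1).2 p1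
    (hd.mono (fun u hu => (hm u (q2 hu)).1) p2) q4 hb' hd', ?_, ?_⟩
  · exact union_subset (fun u hu => h0 (hG (hm u (q2 hu)).1)) (p2.trans hL)
  · rw [card_insert_of_notMem (by simp [q4, hb']), card_union_of_disjoint hd', q3, p3]

open Classical in
theorem core_of3 {l K q : ℕ} (h : Ctx adj col l K) (hq : q + 10 ≤ K) (hK : K ≤ l ^ 2)
    {S P G S' : Finset V} {R : Finset C} (hS : ¬ HasP adj col S (q + 11)) (hG : G ⊆ S \ P)
    (hP : P.card ≤ K) (hp : PT adj col (S \ P) G R) (hS' : S' ⊆ S)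
    (h1 : ∀ x ∈ S', End (flip adj) (flip col) S (q + 10) x)
    (h2 : ∀ x ∈ S', 10 * l ^ 4 * (R.card * l ^ q) < (G.filter fun z => adj z x).card) :
    Core adj col S' R (l ^ 10) := by
  intro L hL hf
  set M := (L \ P) \ G with hM
  set X := M.filter fun x => ∃ z ∈ G, adj z x ∧ col z x ∉ R with hX
  have hXM : X ⊆ M := filter_subset _ _
  have hML : M ⊆ L := sdiff_subset.trans sdiff_subset
  have hMS : M ⊆ S \ P := sdiff_subset.trans (sdiff_subset_sdiff (hL.trans hS') Subset.rfl)
  let y : V → C := fun x => if k : ∃ z ∈ G, adj z x ∧ col z x ∉ R then col k.choose x else col x x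
  have c1 := type_x2 h (ρ := q + 10) (hq.trans hK) hS (X := X)
    (hXM.trans (hMS.trans sdiff_subset)) y (by
      intro u hu v hv w hw k k' e
      have k1 := (mem_filter.1 hu).2
      obtain ⟨b1, b2, b3⟩ := k1.choose_spec
      simp only [y, dif_pos k1] at e ⊢
      exact hp.three h.hA hG b1 (hMS (hXM hu)) (hMS (hXM hv)) (hMS (hXM hw)) b2 k k'
        (fun e' => (mem_sdiff.1 (hXM hw)).2 (e' ▸ b1)) b3 (hf u (hML (hXM hu)) v (hML (hXM hv)) k)
        (hf v (hML (hXM hv)) w (hML (hXM hw)) k') e)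
    (fun x hx => h1 x (hL (hML (hXM hx))))
  have hs : M \ X ⊆ L := sdiff_subset.trans hML
  have c2 := h.ih' (r := 9) (by omega) (no_ten h (by omega) hS sdiff_subset hG hp
    (L := M \ X) (hs.trans (hL.trans hS'))
    (disjoint_right.2 fun x hx => (mem_sdiff.1 (mem_sdiff.1 hx).1).2) (hf.mono Subset.rfl hs) (by
      intro x hx z hz k
      rw [mem_sdiff] at hx
      by_contra k'
      exact hx.2 (mem_filter.2 ⟨hx.1, z, hz, k, k'⟩))
    (fun x hx => h2 x (hL (hs hx))))
  have c0 := h.ih' (r := 2) (by omega) (U := (L \ P) ∩ G) (by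
    rintro ⟨s, t, Q, B, p1, p2, p3⟩
    have := hp s (mem_inter.1 (p2 p1.start_mem)).2 t Q B p1 (p2.trans (inter_subset_right.trans hG))
      (hf.disj p1 (p2.trans (inter_subset_left.trans sdiff_subset)))
    omega)
  have c3 := card_le_card_sdiff_add_card (s := L) (t := P)
  have c4 := card_le_card_sdiff_add_card (s := M) (t := X)
  have c5 := card_sdiff_add_card_inter (L \ P) G
  rw [← hM] at c5
  have hl := h.hl
  have c6 : l ^ 2 ≤ l ^ 6 := Nat.pow_le_pow_right h.pos (by omega)
  have c7 : 8 * l ^ 6 ≤ l ^ 9 := by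
    rw [show l ^ 9 = l ^ 3 * l ^ 6 by ring]
    exact Nat.mul_le_mul_right _ (hl.trans (Nat.le_self_pow (by omega) _))
  have c8 : 8 * l ^ 9 ≤ l ^ 10 := by rw [pow_succ' l 9]; exact Nat.mul_le_mul_right _ hl
  omega

open Classical in
theorem good_class3 {l K q : ℕ} (h : Ctx adj col l K) (hq : q + 10 ≤ K) (hK : K ≤ l ^ 2)
    {S U : Finset V} (hS : ¬ HasP adj col S (q + 11)) (hU : U ⊆ S)
    (h1 : ∀ x ∈ U, End adj col S (q + 10) x ∧ End (flip adj) (flip col) S (q + 10) x)
    (hn : 9 * l ^ (q + 9) < U.card) :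
    ∃ (P G : Finset V) (R : Finset C), P.card = q + 8 ∧ R.card = q + 8 ∧ G ⊆ U \ P ∧
      l ^ (q + 7) < G.card + (q + 8) ∧ PT adj col (S \ P) G R := by
  have hl := h.hl
  set L' := l ^ (q + 7) with hL'
  set L := l ^ (q + 9) with hL
  have a1 : (q + 10) * L' ≤ L := by
    rw [hL, show l ^ (q + 9) = l ^ 2 * l ^ (q + 7) by ring]
    exact Nat.mul_le_mul_right _ (hq.trans hK)
  have a2 : q + 11 ≤ L := by
    have : 8 ≤ L' := hl.trans (Nat.le_self_pow (by omega) _)
    nlinarith
  have hS' : ¬ HasP (flip adj) (flip col) S (q + 11) := fun k => hS k.of_reverse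
  have hUne : U.Nonempty := card_pos.1 (by omega)
  let good : V → V → Prop := fun v z => adj v z ∧ EndF adj col S (q + 7) (col v z) v
  have k0 : ∀ z ∈ U, (U.filter fun v => adj v z).card ≤
      (U.filter fun v => good v z).card + 2 * L := by
    intro z hz
    obtain ⟨s, Q, B, p1, p2, p3⟩ := (h1 z hz).2
    have k1 : (U.filter fun v => adj v z) ⊆ (U.filter fun v => good v z) ∪
        ((B.biUnion fun c => S.filter fun x => ¬ EndF adj col S (q + 7) c x) ∪ Q) := by
      intro v hv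
      rw [mem_filter] at hv
      by_cases e : v ∈ Q
      · exact mem_union_right _ (mem_union_right _ e)
      by_cases e' : EndF adj col S (q + 7) (col v z) v
      · exact mem_union_left _ (mem_filter.2 ⟨hv.1, hv.2, e'⟩)
      · exact mem_union_right _ (mem_union_left _ (mem_biUnion.2
          ⟨_, ext_col hS' p1 p2 p3 (hU hv.1) hv.2 e, mem_filter.2 ⟨hU hv.1, e'⟩⟩))
    have k2 := (card_le_card k1).trans (card_union_le _ _)
    have k3 := card_union_le (B.biUnion fun c => S.filter fun x => ¬ EndF adj col S (q + 7) c x) Q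
    have k4 := card_biUnion_le_card_mul B (fun c => S.filter fun x => ¬ EndF adj col S (q + 7) c x)
      _ (fun c _ => nonendF h.pos (GR.lev h.gr) (h.ih (q + 7) (by omega)) S c)
    have k5 := RPath.card p1
    rw [p3] at k4 k5
    rw [← hL'] at k4
    omega
  obtain ⟨v, hv, hv2⟩ : ∃ v ∈ U, U.card - 1 ≤
      2 * ((U.filter fun z => good v z).card + 2 * L) := by
    apply exists_le_of_sum_le hUne
    have k1 := tour_sum h.hT U
    have k2 := sum_le_sum k0
    have k3 := Finset.sum_card_bipartiteAbove_eq_sum_card_bipartiteBelow good (s := U) (t := U)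
    simp only [bipartiteAbove, bipartiteBelow] at k3
    rw [sum_add_distrib, ← k3, ← sum_add_distrib] at k2
    rw [sum_const, smul_eq_mul, ← mul_sum]
    exact k1.trans (Nat.mul_le_mul_left _ k2)
  obtain ⟨s, Q, B, p1, p2, p3⟩ := (h1 v hv).1
  set G := (U.filter fun z => good v z) \ Q with hGd
  have hGc : (U.filter fun z => good v z).card ≤ G.card + (q + 11) := by
    have k1 := le_card_sdiff Q (U.filter fun z => good v z)
    have k5 := RPath.card p1
    rw [← hGd] at k1
    omega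
  have hGm : ∀ z ∈ G, z ∈ U ∧ good v z ∧ z ∉ Q := by
    intro z hz
    rw [hGd, mem_sdiff, mem_filter] at hz
    exact ⟨hz.1.1, hz.1.2, hz.2⟩
  obtain ⟨c, _, hc⟩ : ∃ c ∈ B, L' < (G.filter fun z => col v z = c).card := by
    by_contra k
    push Not at k
    have k1 := card_le_mul_card_image_of_maps_to (s := G) (t := B) (f := fun z => col v z)
      (fun z hz => ext_col hS p1 p2 p3 (hU (hGm z hz).1) (hGm z hz).2.1.1 (hGm z hz).2.2) _ k
    rw [p3, mul_comm] at k1
    omega
  obtain ⟨z0, hz0⟩ : (G.filter fun z => col v z = c).Nonempty := card_pos.1 (by omega)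
  rw [mem_filter] at hz0
  obtain ⟨s', P, B', q1, q2, q3, q4⟩ := (hGm z0 hz0.1).2.1.2
  rw [hz0.2] at q4
  have hPc : P.card = q + 8 := by rw [RPath.card q1, q3]
  have hRc : (insert c B').card = q + 8 := by rw [card_insert_of_notMem q4, q3]
  refine ⟨P, (G.filter fun z => col v z = c) \ P, insert c B', hPc, hRc, ?_, ?_, ?_⟩
  · exact sdiff_subset_sdiff (fun z hz => (hGm z (mem_filter.1 hz).1).1) Subset.rfl
  · have := le_card_sdiff P (G.filter fun z => col v z = c)
    omega
  · intro x hx t Q' B'' p k1 k2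
    rw [mem_sdiff, mem_filter] at hx
    have q5 := q1.snoc (hGm x hx.1.1).2.1.1 hx.2 (hx.1.2 ▸ q4)
    rw [hx.1.2] at q5
    have := le_of_noP hS (RPath.trans q5 p (fun w hw hw' =>
      (mem_insert.1 hw').resolve_right (mem_sdiff.1 (k1 hw)).2) k2.symm)
      (union_subset (insert_subset (hU (hGm x hx.1.1).1) q2) (k1.trans sdiff_subset))
    rw [card_union_of_disjoint k2.symm, hRc] at this
    omega

theorem core_extract3 {l K q : ℕ} (h : Ctx adj col l K) (hq : q + 10 ≤ K) (hK : K ≤ l ^ 2)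
    (hl : 200 ≤ l) {S : Finset V} (hS : ¬ HasP adj col S (q + 11))
    (hn : 60 * l ^ (q + 9) < S.card) :
    ∃ S' ⊆ S, ∃ R : Finset C, S.card ≤ 4 * S'.card ∧ R.card = q + 8 ∧
      Core adj col S' R (l ^ 10) ∧
      ∀ x ∈ S', End adj col S (q + 10) x ∧ End (flip adj) (flip col) S (q + 10) x := by
  classical
  set L := l ^ (q + 9) with hL
  have hL1 : 1 ≤ L := Nat.one_le_pow _ _ h.pos
  set U := S.filter fun x => End adj col S (q + 10) x ∧ End (flip adj) (flip col) S (q + 10) x
    with hU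
  have hb : (S \ U).card ≤ 2 * L := by
    have h1 : (S.filter fun x => ¬ End adj col S (q + 10) x).card ≤ L :=
      nonend h.pos (h.ih (q + 9 + 1) hq) S
    have h2 : (S.filter fun x => ¬ End (flip adj) (flip col) S (q + 10) x).card ≤ L :=
      nonend h.pos (h.flip.ih (q + 9 + 1) hq) S
    have h3 : S \ U ⊆ (S.filter fun x => ¬ End adj col S (q + 10) x) ∪
        S.filter fun x => ¬ End (flip adj) (flip col) S (q + 10) x := by
      intro x hx
      simp only [hU, mem_sdiff, mem_union, mem_filter] at hx ⊢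
      tauto
    have h4 := (card_le_card h3).trans (card_union_le _ _)
    omega
  set D := S.filter fun x => 5 * (S.filter fun u => adj x u).card < 2 * S.card with hD
  have hDc : D.card ≤ 2 * ((2 * S.card - 1) / 5) + 1 := by
    apply tour_deg h.flip.hT
    intro x hx
    have k1 := (mem_filter.1 hx).2
    have k2 : (D.filter fun u => flip adj u x).card ≤ (S.filter fun u => adj x u).card :=
      card_le_card fun u hu => mem_filter.2 ⟨(mem_filter.1 (mem_filter.1 hu).1).1,
        (mem_filter.1 hu).2⟩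
    omega
  have c1 := card_le_card_sdiff_add_card (s := S) (t := S \ U)
  have hUS : U ⊆ S := filter_subset _ _
  rw [sdiff_sdiff_right_self, inf_eq_inter, inter_eq_right.2 hUS] at c1
  have c2 := card_le_card_sdiff_add_card (s := U) (t := D)
  obtain ⟨P, G, R, g1, g2, g3, g4, g5⟩ := good_class3 h hq hK hS (U := U \ D)
    (sdiff_subset.trans (filter_subset _ _)) (fun x hx => (mem_filter.1 (mem_sdiff.1 hx).1).2) (by
      rw [← hL]
      omega)
  have hGU : ∀ z ∈ G, z ∈ U ∧ z ∉ D := fun z hz => mem_sdiff.1 (mem_sdiff.1 (g3 hz)).1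
  set Sp := S.filter fun x => G.card ≤ 10 * (G.filter fun z => adj z x).card with hSp
  have a0 : 200 * l ^ (q + 6) ≤ l ^ (q + 7) := by
    rw [pow_succ' l (q + 6)]; exact Nat.mul_le_mul_right _ hl
  have a1 : l ^ 2 ≤ l ^ (q + 6) := Nat.pow_le_pow_right h.pos (by omega)
  have hGp : 0 < G.card := by omega
  have c3 : 3 * S.card ≤ 10 * Sp.card := by
    have k1 := Finset.sum_card_bipartiteAbove_eq_sum_card_bipartiteBelow adj (s := G) (t := S)
    simp only [bipartiteAbove, bipartiteBelow] at k1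
    have k2 : ∑ _z ∈ G, 2 * S.card ≤ ∑ z ∈ G, 5 * (S.filter fun u => adj z u).card := by
      refine sum_le_sum fun z hz => ?_
      by_contra k
      exact (hGU z hz).2 (mem_filter.2 ⟨(mem_filter.1 (hGU z hz).1).1, not_le.1 k⟩)
    have k3 : ∑ x ∈ S, 10 * (G.filter fun z => adj z x).card ≤
        ∑ x ∈ S, (G.card + if G.card ≤ 10 * (G.filter fun z => adj z x).card then 10 * G.card
          else 0) := by
      refine sum_le_sum fun x _ => ?_
      have := card_filter_le G fun z => adj z x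
      split_ifs <;> omega
    rw [sum_add_distrib, ← sum_filter, ← hSp, sum_const, sum_const, smul_eq_mul, smul_eq_mul,
      ← mul_sum, ← k1] at k3
    rw [sum_const, smul_eq_mul, ← mul_sum] at k2
    apply Nat.le_of_mul_le_mul_right _ hGp
    nlinarith
  have c4 : Sp.card ≤ (Sp ∩ U).card + (S \ U).card := by
    refine (card_le_card fun x hx => ?_).trans (card_union_le _ _)
    by_cases k : x ∈ U
    · exact mem_union_left _ (mem_inter.2 ⟨hx, k⟩)
    · exact mem_union_right _ (mem_sdiff.2 ⟨(mem_filter.1 hx).1, k⟩)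
  refine ⟨Sp ∩ U, inter_subset_left.trans (filter_subset _ _), R, by omega, g2, ?_,
    fun x hx => (mem_filter.1 (mem_inter.1 hx).2).2⟩
  refine core_of3 h hq hK hS (P := P) (G := G)
    (g3.trans (sdiff_subset_sdiff (sdiff_subset.trans (filter_subset _ _)) Subset.rfl))
    (by omega) g5 (inter_subset_left.trans (filter_subset _ _))
    (fun x hx => (mem_filter.1 (mem_inter.1 hx).2).2.2) ?_
  intro x hx
  have k1 := (mem_filter.1 (mem_inter.1 hx).1).2
  have k2 : 10 * l ^ 4 * (R.card * l ^ q) ≤ 10 * l ^ (q + 6) :=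
    (Nat.mul_le_mul_left _ (Nat.mul_le_mul_right _ (show R.card ≤ l ^ 2 by omega))).trans
      (le_of_eq (by ring))
  omega

end Pool.Agent.H31Fed
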