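import Pool.Agent.Lib.MP_fed786_co.H31XK

set_option autoImplicit false

namespace Pool.Agent.H31Fed
open Finset Pool.Agent.H66Fed

variable {V C : Type} [DecidableEq V] [DecidableEq C]
variable {adj : V → V → Prop} {col : V → V → C}

omit [DecidableEq V] [DecidableEq C] in
theorem sum_lev_w {a : C} {N X : Finset V} {f : V → ℕ} {l : ℕ} (hf : ∀ v, f v < l) (w : V → ℝ) :
    ∑ i ∈ range l, ∑ x ∈ Lev adj col a N X f i, w x + ∑ x ∈ Unt adj col a N X, w x =
      ∑ x ∈ X, w x := by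
  classical
  have h1 := sum_fiberwise_of_maps_to
    (s := X.filter fun x => InA adj col a N x ∨ OutA adj col a N x) (t := range l) (g := f)
    (fun v _ => mem_range.2 (hf v)) w
  have h2 := sum_filter_add_sum_filter_not X (fun x => InA adj col a N x ∨ OutA adj col a N x) w
  have h3 : ∀ i, Lev adj col a N X f i =
      (X.filter fun x => InA adj col a N x ∨ OutA adj col a N x).filter fun v => f v = i := by
    intro i; ext x; simp [mem_lev, and_assoc]
  have h4 : Unt adj col a N X = X.filter fun x => ¬ (InA adj col a N x ∨ OutA adj col a N x) := by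
    ext x; simp [mem_unt]
  simp only [h3, h4]
  linarith

omit [DecidableEq V] in
theorem sum_ite_w {l : ℕ} {G : Finset ℕ} (hG : G ⊆ range l) (B : Finset V) (w : V → ℝ) :
    ∑ i ∈ range l, ∑ x ∈ (if i ∈ G then B else ∅), w x = G.card * ∑ x ∈ B, w x := by
  have : ∀ i, ∑ x ∈ (if i ∈ G then B else ∅), w x = if i ∈ G then ∑ x ∈ B, w x else 0 := by
    intro i; split_ifs <;> simp
  simp only [this]
  rw [sum_ite_mem, inter_eq_right.2 hG, sum_const, nsmul_eq_mul]

theorem small_subset (w : ℕ → ℕ) {μ : ℕ} (hμ : 0 < μ) : ∀ (n : ℕ) (s : Finset ℕ),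
    s.card = μ + n → ∃ G ⊆ s, G.card = μ ∧ s.card * ∑ i ∈ G, w i ≤ μ * ∑ i ∈ s, w i := by
  intro n
  induction n with
  | zero => exact fun s hs => ⟨s, Subset.rfl, hs, by rw [hs]; rfl⟩
  | succ n ih =>
    intro s hs
    obtain ⟨m, m1, m2⟩ := exists_max_image s w (card_pos.1 (by omega))
    have h1 : (s.erase m).card = μ + n := by rw [card_erase_of_mem m1, hs]; rfl
    obtain ⟨G, g1, g2, g3⟩ := ih _ h1
    refine ⟨G, g1.trans (erase_subset _ _), g2, ?_⟩
    have h2 := sum_le_card_nsmul (s.erase m) w (w m) fun i hi => m2 i (mem_of_mem_erase hi)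
    rw [h1] at g3 h2
    rw [smul_eq_mul] at h2
    rw [hs, ← add_sum_erase s w m1]
    apply Nat.le_of_mul_le_mul_left _ (show 0 < μ + n by omega)
    nlinarith [Nat.mul_le_mul_left (μ + (n + 1)) g3, Nat.mul_le_mul_left μ h2]

/-- The weighted endgame inequality on level `r`. -/
def EGS (adj : V → V → Prop) (col : V → V → C) (l μ r : ℕ) (ν : ℝ) : Prop :=
  ∀ (R : Finset C) (W Z : Finset V) (U : V → Finset C), R.card = r → Disjoint W Z →
    Inv adj col (fun _ => none) r False W Z → NoTwo adj col R (W ∪ Z) →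
    (∀ z ∈ Z, ∀ b ∈ U z, b ∈ R ∧ ¬ InA adj col b (W ∪ Z) z ∧ ¬ OutA adj col b (W ∪ Z) z) →
    (W.card : ℝ) + ν * ∑ z ∈ Z, (μ : ℝ) ^ (U z).card ≤ (l : ℝ) ^ r

theorem EGS.child {l μ r : ℕ} {ν : ℝ} (h : EGS adj col l μ r ν) {R : Finset C} {a : C}
    (ha : a ∈ R) (hR : R.card = r + 1) {N W' Z' : Finset V} (hno : NoTwo adj col R N)
    (h1 : W' ∪ Z' ⊆ N) (h2 : Disjoint W' Z') (h3 : Fr adj col a (W' ∪ Z'))
    (h4 : Inv adj col (fun _ => none) r False W' Z') (U : V → Finset C)
    (hU : ∀ z ∈ Z', ∀ b ∈ U z, b ∈ R ∧ ¬ InA adj col b N z ∧ ¬ OutA adj col b N z) :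
    (W'.card : ℝ) + ν * ∑ z ∈ Z', (μ : ℝ) ^ ((U z).erase a).card ≤ (l : ℝ) ^ r := by
  refine h (R.erase a) W' Z' (fun z => (U z).erase a) (by rw [card_erase_of_mem ha, hR]; rfl) h2 h4
    ?_ ?_
  · intro x hx y hy z hz k1 k2 k3 k4
    exact hno x (h1 hx) y (h1 hy) z (h1 hz) k1 k2
      (fun k => k3 (mem_erase.2 ⟨h3 x hx y hy k1, k⟩))
      (fun k => k4 (mem_erase.2 ⟨h3 y hy z hz k2, k⟩))
  · intro z hz b hb
    rw [mem_erase] at hb
    obtain ⟨k1, k2, k3⟩ := hU z hz b hb.2
    exact ⟨mem_erase.2 ⟨hb.1, k1⟩, fun ⟨u, k, k'⟩ => k2 ⟨u, h1 k, k'⟩,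
      fun ⟨u, k, k'⟩ => k3 ⟨u, h1 k, k'⟩⟩

theorem EGS.zero {l μ : ℕ} (hT : ∀ u v, u ≠ v → adj u v ∨ adj v u) (hGR : GR adj col l)
    (hl : 4 ≤ l) : EGS adj col l μ 0 (1 / 2) := by
  intro R W Z U h1 h2 h3 h4 h5
  have hl' : (4 : ℝ) ≤ l := by exact_mod_cast hl
  have := eg2 (K := 0) (m := 1) hT hGR (by omega) (by omega) (by simp; linarith) 0 le_rfl R W Z
    h1 h2 h3 h4
  rw [sum_congr rfl (g := fun _ => (1 : ℝ)) (fun z hz => by
    rw [eq_empty_of_forall_notMem (s := U z) fun b hb => by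
      have := (h5 z hz b hb).1
      rw [card_eq_zero.1 h1] at this
      exact notMem_empty _ this]
    simp)]
  simpa using this

theorem pool_x {l μ r : ℕ} {ν : ℝ} (hGR : GR adj col l) (h : EGS adj col l μ r ν) (hν : 0 ≤ ν)
    (hμ : 2 ≤ μ) (hμl : μ + 2 ≤ l) (hνμ : 2 ≤ ν * μ) {R : Finset C} (hR : R.card = r + 1)
    {W : Finset V} (hinv : Inv adj col (fun _ => none) (r + 1) False W ∅)
    (hno : NoTwo adj col R W) :
    (W.card : ℝ) + ν * μ / 2 * ∑ b ∈ R, ((Unt adj col b W W).card : ℝ) ≤ (l : ℝ) ^ (r + 1) := by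
  classical
  obtain ⟨a, ha⟩ : R.Nonempty := card_pos.1 (by omega)
  obtain ⟨f, f1, f2, f3, -⟩ := levels2 hGR a W ∅
  rw [union_empty] at f2 f3
  let U : V → Finset C := fun z => R.filter fun b => ¬ InA adj col b W z ∧ ¬ OutA adj col b W z
  set Y := Unt adj col a W W with hY
  let w : V → ℝ := fun z => (μ : ℝ) ^ ((U z).erase a).card
  have key : ∀ i ∈ range l, (∑ x ∈ Lev adj col a W W f i, if U x = ∅ then 1 else ν * w x) +
      ν * ∑ x ∈ (if i ∈ Ioo 0 (l - 1) then Y else ∅), w x ≤ (l : ℝ) ^ r := by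
    intro i hi
    rw [mem_range] at hi
    set P := (Lev adj col a W W f i).filter fun x => U x = ∅ with hP
    set Q := (Lev adj col a W W f i).filter fun x => ¬ U x = ∅ with hQ
    set Y' := if i ∈ Ioo 0 (l - 1) then Y else ∅ with hY'
    have hYm : ∀ x ∈ Y', x ∈ Y ∧ 0 < i ∧ i < l - 1 := by
      intro x hx
      rw [hY'] at hx
      split_ifs at hx with e
      · exact ⟨hx, mem_Ioo.1 e⟩
      · simp at hx
    have hm : ∀ x ∈ P ∪ (Q ∪ Y'), x ∈ Lev adj col a W W f i ∨ x ∈ Y' := by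
      intro x hx
      rcases mem_union.1 hx with k | k
      · exact Or.inl (mem_filter.1 k).1
      rcases mem_union.1 k with k | k
      · exact Or.inl (mem_filter.1 k).1
      · exact Or.inr k
    have c1 : P ∪ (Q ∪ Y') ⊆ W := fun x hx => by
      rcases hm x hx with k | k
      · exact (mem_lev.1 k).1
      · exact (mem_unt.1 (hYm x k).1).1
    have c0 : ∀ x ∈ Lev adj col a W W f i, x ∉ Y' := fun x hx k =>
      not_or.2 (mem_unt.1 (hYm x k).1).2 (mem_lev.1 hx).2.1
    have c2 : Disjoint P (Q ∪ Y') := by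
      rw [disjoint_left]
      intro x hx hx'
      rw [hP, mem_filter] at hx
      rcases mem_union.1 hx' with k | k
      · exact (mem_filter.1 k).2 hx.2
      · exact c0 x hx.1 k
    have c3 : Fr adj col a (P ∪ (Q ∪ Y')) := by
      intro u hu v hv k k'
      rcases hm u hu with e | e
      · rcases hm v hv with e' | e'
        · exact f3 u (c1 hu) v (c1 hv) ⟨k, k'⟩ ((mem_lev.1 e).2.2.trans (mem_lev.1 e').2.2.symm)
        · exact (mem_unt.1 (hYm v e').1).2.1 ⟨u, c1 hu, k, k'⟩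
      · exact (mem_unt.1 (hYm u e).1).2.2 ⟨v, c1 hv, k, k'⟩
    have c4 := class_free hinv (W' := P) (Z' := Q ∪ Y') (by rwa [union_empty]) c3 (by
      intro s hs t ht k
      have a1 : ∀ x ∈ Lev adj col a W W f i, (i + 1 < l → OutA adj col a W x) ∧
          (0 < i → InA adj col a W x) := fun x hx => by
        rw [mem_lev] at hx
        exact hx.2.2 ▸ f2 x hx.2.1
      refine Or.inr (Or.inr ?_)
      rcases hm s hs with e | e <;> rcases hm t ht with e' | e'
      · by_cases e0 : 0 < i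
        · exact Or.inr ((a1 s e).2 e0)
        · exact Or.inl ((a1 t e').1 (by omega))
      · exact Or.inr ((a1 s e).2 (hYm t e').2.1)
      · exact Or.inl ((a1 t e').1 (by have := (hYm s e).2.2; omega))
      · rcases k with k | k
        · exact absurd e (c0 s (mem_filter.1 k).1)
        · exact absurd e' (c0 t (mem_filter.1 k).1))
    have c5 := h.child ha hR hno c1 c2 c3 c4 U fun z _ b hb => mem_filter.1 hb
    rw [sum_union (disjoint_left.2 fun x hx => c0 x (mem_filter.1 hx).1)] at c5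
    rw [sum_ite, sum_const, nsmul_eq_mul, mul_one, ← mul_sum]
    linarith
  have k1 := sum_le_sum key
  rw [sum_add_distrib, ← mul_sum, sum_ite_w (fun i hi => by
    rw [mem_Ioo] at hi; rw [mem_range]; omega), sum_const, card_range, nsmul_eq_mul,
    ← pow_succ', Nat.card_Ioo] at k1
  have hμ' : (2 : ℝ) ≤ μ := by exact_mod_cast hμ
  have k2 : ∀ n : ℕ, 0 < n → 1 + ν * μ / 2 * n ≤ ν * μ ^ n := by
    intro n hn
    obtain ⟨n, rfl⟩ : ∃ m, n = m + 1 := ⟨n - 1, by omega⟩
    have a1 : ((n + 1 : ℕ) : ℝ) ≤ μ ^ n := by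
      have : n + 1 ≤ μ ^ n := Nat.succ_le_of_lt (Nat.lt_pow_self (by omega))
      exact_mod_cast this
    have a2 : (1 : ℝ) ≤ (n + 1 : ℕ) := by exact_mod_cast Nat.le_add_left 1 n
    rw [pow_succ]
    nlinarith [mul_le_mul_of_nonneg_left a1 (show 0 ≤ ν * μ by linarith)]
  have k3 := sum_lev_w (adj := adj) (col := col) (a := a) (N := W) (X := W) f1
    (fun x => 1 + ν * μ / 2 * ((U x).card : ℝ))
  have k4 : ∑ i ∈ range l, ∑ x ∈ Lev adj col a W W f i, (1 + ν * μ / 2 * ((U x).card : ℝ)) ≤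
      ∑ i ∈ range l, ∑ x ∈ Lev adj col a W W f i, if U x = ∅ then 1 else ν * w x := by
    refine sum_le_sum fun i _ => sum_le_sum fun x hx => ?_
    split_ifs with e
    · simp [e]
    · have : a ∉ U x := fun k => not_or.2 (mem_filter.1 k).2 (mem_lev.1 hx).2.1
      simp only [w, erase_eq_of_notMem this]
      exact k2 _ (card_pos.2 (nonempty_iff_ne_empty.2 e))
  have k5 : ∑ x ∈ Y, (1 + ν * μ / 2 * ((U x).card : ℝ)) ≤
      ν * (((l - 1 - 0 - 1 : ℕ) : ℝ) * ∑ x ∈ Y, w x) := by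
    rw [mul_sum, mul_sum]
    refine sum_le_sum fun x hx => ?_
    have a1 : a ∈ U x := mem_filter.2 ⟨ha, (mem_unt.1 hx).2⟩
    refine (k2 _ (card_pos.2 ⟨a, a1⟩)).trans (mul_le_mul_of_nonneg_left ?_ hν)
    rw [← card_erase_add_one a1, pow_succ']
    exact mul_le_mul_of_nonneg_right (by exact_mod_cast (show μ ≤ l - 1 - 0 - 1 by omega))
      (by positivity)
  have k6 : ∑ b ∈ R, ((Unt adj col b W W).card : ℝ) = ∑ z ∈ W, ((U z).card : ℝ) := by
    have := Finset.sum_card_bipartiteAbove_eq_sum_card_bipartiteBelow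
      (fun (a : C) (z : V) => ¬ InA adj col a W z ∧ ¬ OutA adj col a W z) (s := R) (t := W)
    simp only [bipartiteAbove, bipartiteBelow] at this
    rw [← Nat.cast_sum, ← Nat.cast_sum, ← this]
    refine congrArg _ (sum_congr rfl fun a _ => congrArg card ?_)
    ext x; simp [mem_unt]
  rw [sum_add_distrib (s := W), sum_const, nsmul_eq_mul, mul_one, ← mul_sum, ← k6] at k3
  linarith

open Classical in
/-- Level `i` of `W`, restricted to the two-sided vertices when `i ∈ G`. -/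
noncomputable def Wk (adj : V → V → Prop) (col : V → V → C) (a : C) (W : Finset V) (f : V → ℕ)
    (G : Finset ℕ) (i : ℕ) : Finset V :=
  (Lev adj col a W W f i).filter fun x => i ∈ G → InA adj col a W x ∧ OutA adj col a W x

open Classical in
/-- One-sided vertices of level `i` of `W`. -/
noncomputable def Tl (adj : V → V → Prop) (col : V → V → C) (a : C) (W : Finset V) (f : V → ℕ)
    (i : ℕ) : Finset V :=
  (Lev adj col a W W f i).filter fun x => ¬ (InA adj col a W x ∧ OutA adj col a W x)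

omit [DecidableEq V] [DecidableEq C] in
theorem mem_wk {a : C} {W : Finset V} {f : V → ℕ} {G : Finset ℕ} {i : ℕ} {x : V} :
    x ∈ Wk adj col a W f G i ↔ (x ∈ W ∧ (InA adj col a W x ∨ OutA adj col a W x) ∧ f x = i) ∧
      (i ∈ G → InA adj col a W x ∧ OutA adj col a W x) := by
  classical
  rw [Wk, mem_filter, mem_lev]

omit [DecidableEq V] [DecidableEq C] in
theorem mem_tl {a : C} {W : Finset V} {f : V → ℕ} {i : ℕ} {x : V} :
    x ∈ Tl adj col a W f i ↔ (x ∈ W ∧ (InA adj col a W x ∨ OutA adj col a W x) ∧ f x = i) ∧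
      ¬ (InA adj col a W x ∧ OutA adj col a W x) := by
  classical
  rw [Tl, mem_filter, mem_lev]

omit [DecidableEq V] [DecidableEq C] in
theorem sum_wk {a : C} {W : Finset V} {f : V → ℕ} {l : ℕ} (hf : ∀ v, f v < l) {G : Finset ℕ}
    (hG : G ⊆ range l) : ∑ i ∈ range l, ((Wk adj col a W f G i).card : ℝ) +
      ∑ i ∈ G, ((Tl adj col a W f i).card : ℝ) + (Unt adj col a W W).card = W.card := by
  classical
  have h1 := sum_lev (adj := adj) (col := col) (a := a) (N := W) (X := W) hf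
  have h2 : ∀ i, (Lev adj col a W W f i).card = (Wk adj col a W f G i).card +
      if i ∈ G then (Tl adj col a W f i).card else 0 := by
    intro i
    split_ifs with e
    · rw [← card_union_of_disjoint (disjoint_left.2 fun x hx k =>
        (mem_tl.1 k).2 ((mem_wk.1 hx).2 e))]
      refine congrArg card ?_
      ext x
      rw [mem_union, mem_wk, mem_tl, mem_lev]
      tauto
    · refine congrArg card ?_
      ext x
      rw [mem_wk, mem_lev]
      tauto
  simp only [h2] at h1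
  rw [sum_add_distrib, sum_ite_mem, inter_eq_right.2 hG] at h1
  exact_mod_cast h1

theorem tstar {l μ r q : ℕ} {ν : ℝ} (h : EGS adj col l μ r ν) (hq : 2 * q < l)
    (hνq : 1 ≤ ν * (l - 2 * q)) {R : Finset C} (hR : R.card = r + 1) {a : C} (ha : a ∈ R)
    {W Z : Finset V} (hinv : Inv adj col (fun _ => none) (r + 1) False W Z)
    (hno : NoTwo adj col R (W ∪ Z)) {f : V → ℕ} (f1 : ∀ v, f v < l)
    (f2 : ∀ x, InA adj col a (W ∪ Z) x ∨ OutA adj col a (W ∪ Z) x →
      (f x + 1 < l → OutA adj col a (W ∪ Z) x) ∧ (0 < f x → InA adj col a (W ∪ Z) x))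
    (f3 : ∀ x ∈ W ∪ Z, ∀ y ∈ W ∪ Z, Arc adj col a x y → f x ≠ f y)
    (f4 : ∀ x ∈ W, ∀ y ∈ W, Arc adj col a x y →
      (¬ InA adj col a W x ∨ ¬ OutA adj col a W y) → f x < f y) :
    (W.card : ℝ) + (ν * q - 1) * ∑ i ∈ Ico q (l - q), ((Tl adj col a W f i).card : ℝ) ≤
      (l : ℝ) ^ (r + 1) := by
  classical
  set G := Ico q (l - q) with hG
  set T := G.biUnion (Tl adj col a W f) with hT
  set O := T.filter fun x => ¬ InA adj col a W x with hO
  set I := T.filter fun x => InA adj col a W x with hI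
  set Y := Unt adj col a W W with hY
  have hTm : ∀ x ∈ T, x ∈ W ∧ (InA adj col a W x ∨ OutA adj col a W x) ∧ q ≤ f x ∧ f x < l - q ∧
      ¬ (InA adj col a W x ∧ OutA adj col a W x) := by
    intro x hx
    obtain ⟨i, k1, k2⟩ := mem_biUnion.1 hx
    rw [mem_tl] at k2
    rw [← k2.1.2.2, hG, mem_Ico] at k1
    exact ⟨k2.1.1, k2.1.2.1, k1.1, k1.2, k2.2⟩
  let Zc : ℕ → Finset V := fun i => if i < q then O else if i ∈ G then Y else I
  have key : ∀ i ∈ range l, ((Wk adj col a W f G i).card : ℝ) + ν * (Zc i).card ≤ (l : ℝ) ^ r := by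
    intro i hi
    rw [mem_range] at hi
    have hz : ∀ x ∈ Zc i, (i < q ∧ x ∈ T ∧ ¬ InA adj col a W x) ∨ (i ∈ G ∧ x ∈ Y) ∨
        (l - q ≤ i ∧ x ∈ T ∧ InA adj col a W x) := by
      intro x hx
      simp only [Zc] at hx
      split_ifs at hx with e e'
      · exact Or.inl ⟨e, mem_filter.1 hx⟩
      · exact Or.inr (Or.inl ⟨e', hx⟩)
      · rw [hG, mem_Ico] at e'
        exact Or.inr (Or.inr ⟨by omega, mem_filter.1 hx⟩)
    have c1 : Wk adj col a W f G i ∪ Zc i ⊆ W := union_subset (fun x hx => (mem_wk.1 hx).1.1)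
      fun x hx => by
        rcases hz x hx with k | k | k
        · exact (hTm x k.2.1).1
        · exact (mem_unt.1 k.2).1
        · exact (hTm x k.2.1).1
    have c2 : Disjoint (Wk adj col a W f G i) (Zc i) := by
      rw [disjoint_left]
      intro x hx hx'
      rw [mem_wk] at hx
      rcases hz x hx' with k | k | k
      · have := hTm x k.2.1
        omega
      · exact not_or.2 (mem_unt.1 k.2).2 hx.1.2.1
      · have := hTm x k.2.1
        omega
    have c3 : Fr adj col a (Wk adj col a W f G i ∪ Zc i) := by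
      intro u hu v hv k k'
      have k1 : OutA adj col a W u := ⟨v, c1 hv, k, k'⟩
      have k2 : InA adj col a W v := ⟨u, c1 hu, k, k'⟩
      have k3 := f4 u (c1 hu) v (c1 hv) ⟨k, k'⟩
      rcases mem_union.1 hu with e | e <;> rcases mem_union.1 hv with e' | e'
      · exact f3 u (mem_union_left _ (c1 hu)) v (mem_union_left _ (c1 hv)) ⟨k, k'⟩
          ((mem_wk.1 e).1.2.2.trans (mem_wk.1 e').1.2.2.symm)
      · have := (mem_wk.1 e).1.2.2
        rcases hz v e' with j | j | j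
        · exact j.2.2 k2
        · exact (mem_unt.1 j.2).2.1 k2
        · have j' := hTm v j.2.1
          have := k3 (Or.inr fun j2 => j'.2.2.2.2 ⟨k2, j2⟩)
          omega
      · have := (mem_wk.1 e').1.2.2
        rcases hz u e with j | j | j
        · have j' := hTm u j.2.1
          have := k3 (Or.inl j.2.2)
          omega
        · exact (mem_unt.1 j.2).2.2 k1
        · exact (hTm u j.2.1).2.2.2.2 ⟨j.2.2, k1⟩
      · rcases hz u e with j | j | j
        · rcases hz v e' with j' | j' | j'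
          · exact j'.2.2 k2
          · exact (mem_unt.1 j'.2).2.1 k2
          · omega
        · exact (mem_unt.1 j.2).2.2 k1
        · exact (hTm u j.2.1).2.2.2.2 ⟨j.2.2, k1⟩
    have a1 : ∀ x ∈ Wk adj col a W f G i, (i + 1 < l → OutA adj col a (W ∪ Z) x) ∧
        (0 < i → InA adj col a (W ∪ Z) x) := fun x hx => by
      rw [mem_wk] at hx
      exact hx.1.2.2 ▸ f2 x (hx.1.2.1.imp InA.up OutA.up)
    have c4 := class_free hinv (c1.trans subset_union_left) c3 (by
      intro s hs t ht k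
      by_cases e : i ∈ G
      · exact Or.inr (Or.inr (k.symm.imp (fun j => ((mem_wk.1 j).2 e).2)
          fun j => ((mem_wk.1 j).2 e).1))
      by_cases e' : i < q
      · refine Or.inl ⟨c1 hs, ?_⟩
        rcases mem_union.1 ht with j | j
        · exact (a1 t j).1 (by omega)
        rcases hz t j with j | j | j
        · exact ((hTm t j.2.1).2.1.resolve_left j.2.2).up
        · exact absurd j.1 e
        · omega
      · refine Or.inr (Or.inl ⟨c1 ht, ?_⟩)
        rw [hG, mem_Ico] at e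
        rcases mem_union.1 hs with j | j
        · exact (a1 s j).2 (by omega)
        rcases hz s j with j | j | j
        · omega
        · exact absurd (mem_Ico.1 j.1) e
        · exact j.2.2.up)
    have c5 := h.child ha hR hno (c1.trans subset_union_left) c2 c3 c4 (fun _ => ∅) (by simp)
    simpa using c5
  have k1 := sum_le_sum key
  have hGl : G ⊆ range l := fun i hi => by rw [hG, mem_Ico] at hi; rw [mem_range]; omega
  have k2 := sum_wk (adj := adj) (col := col) (a := a) (W := W) f1 hGl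
  have k3 : ∑ i ∈ range l, ((Zc i).card : ℝ) = q * O.card + (l - 2 * q) * Y.card + q * I.card := by
    have e1 : ∀ i ∈ Ico 0 q, ((Zc i).card : ℝ) = O.card := fun i hi => by
      simp only [Zc, if_pos (mem_Ico.1 hi).2]
    have e2 : ∀ i ∈ Ico q (l - q), ((Zc i).card : ℝ) = Y.card := fun i hi => by
      simp only [Zc, if_neg (not_lt.2 (mem_Ico.1 hi).1), hG, if_pos hi]
    have e3 : ∀ i ∈ Ico (l - q) l, ((Zc i).card : ℝ) = I.card := fun i hi => by
      rw [mem_Ico] at hi
      simp only [Zc, if_neg (show ¬ i < q by omega), hG,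
        if_neg (show i ∉ Ico q (l - q) by rw [mem_Ico]; omega)]
    rw [range_eq_Ico, ← sum_Ico_consecutive _ (Nat.zero_le q) (show q ≤ l by omega),
      ← sum_Ico_consecutive _ (show q ≤ l - q by omega) (Nat.sub_le l q), sum_congr rfl e1,
      sum_congr rfl e2, sum_congr rfl e3, sum_const, sum_const, sum_const, Nat.card_Ico,
      Nat.card_Ico, Nat.card_Ico, show l - q - q = l - 2 * q by omega,
      show l - (l - q) = q by omega]
    simp only [nsmul_eq_mul, Nat.sub_zero, Nat.cast_sub hq.le]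
    push_cast
    ring
  have k4 : ∑ i ∈ G, ((Tl adj col a W f i).card : ℝ) = I.card + O.card := by
    have e1 := card_filter_add_card_filter_not (s := T) fun x => InA adj col a W x
    rw [← hI, ← hO, hT, card_biUnion (t := Tl adj col a W f) (fun i _ j _ e =>
      disjoint_left.2 fun x hx hx' =>
        e ((mem_tl.1 hx).1.2.2.symm.trans (mem_tl.1 hx').1.2.2))] at e1
    exact_mod_cast e1.symm
  rw [sum_add_distrib, ← mul_sum, k3, sum_const, card_range, nsmul_eq_mul, ← pow_succ'] at k1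
  rw [k4] at k2 ⊢
  nlinarith [mul_le_mul_of_nonneg_right hνq (Nat.cast_nonneg (α := ℝ) Y.card)]

theorem egs_arith {l μ ν ν' q r w s y t g L : ℝ} (hl : 40 ≤ l) (hμ : 8 ≤ μ) (hν : 1 / 4 ≤ ν)
    (hr : 1 ≤ r) (hq : l ≤ 4 * q + 3) (hq' : 4 * q ≤ l) (hs : 0 ≤ s) (hy : 0 ≤ y) (ht : 0 ≤ t)
    (hν' : ν' * (1 + (8 / (μ * r) + 64 * μ / l ^ 2)) ≤ ν)
    (h1 : w + ν * μ / 2 * (r * y) ≤ L) (h2 : w + (ν * q - 1) * t ≤ L)
    (h3 : (l - 2 * q) * g ≤ μ * t) (h4 : w - y - g + ν * s ≤ L) : w + ν' * s ≤ L := by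
  have hl0 : 0 < l := by linarith
  have a0 : l / 32 ≤ ν * q - 1 := by nlinarith
  have a1 : l / 32 * t ≤ L - w := by nlinarith
  have a2 : 0 ≤ L - w := le_trans (by positivity) a1
  have a3 : y ≤ 8 / (μ * r) * (L - w) := by
    rw [div_mul_eq_mul_div, le_div_iff₀ (by positivity)]
    nlinarith [mul_le_mul_of_nonneg_right hν (show 0 ≤ μ * (r * y) by positivity)]
  have a4 : g ≤ 64 * μ / l ^ 2 * (L - w) := by
    rw [div_mul_eq_mul_div, le_div_iff₀ (by positivity)]
    by_cases k : g ≤ 0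
    · nlinarith [mul_nonneg (show 0 ≤ μ by linarith) a2, sq_nonneg l]
    have k1 : l / 2 * g ≤ μ * t := by nlinarith
    nlinarith [mul_le_mul_of_nonneg_left a1 (show 0 ≤ μ by linarith),
      mul_le_mul_of_nonneg_left k1 hl0.le]
  set δ := 8 / (μ * r) + 64 * μ / l ^ 2 with hδ
  have a5 : 0 < 1 + δ := by positivity
  have a6 : ν * s ≤ (1 + δ) * (L - w) := by rw [hδ]; linarith
  have a7 : ν' * s ≤ L - w := by
    apply le_of_mul_le_mul_left _ a5
    nlinarith [mul_le_mul_of_nonneg_right hν' hs]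
  linarith

theorem EGS.succ {l μ r : ℕ} {ν ν' : ℝ} (hGR : GR adj col l) (h : EGS adj col l μ r ν)
    (hν : 1 / 4 ≤ ν) (hμ : 8 ≤ μ) (hμl : 2 * μ ≤ l) (hl : 40 ≤ l)
    (hν' : ν' * (1 + (8 / (μ * (r + 1 : ℕ)) + 64 * μ / l ^ 2)) ≤ ν) :
    EGS adj col l μ (r + 1) ν' := by
  classical
  intro R W Z U hR hd hinv hno hU
  have hl' : (40 : ℝ) ≤ l := by exact_mod_cast hl
  have hμ' : (8 : ℝ) ≤ μ := by exact_mod_cast hμ
  have q1 : (l : ℝ) ≤ 4 * (l / 4 : ℕ) + 3 := by exact_mod_cast (show l ≤ 4 * (l / 4) + 3 by omega)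
  have q2 : 4 * ((l / 4 : ℕ) : ℝ) ≤ l := by exact_mod_cast (show 4 * (l / 4) ≤ l by omega)
  have k1 := pool_x hGR h (by linarith) (by omega) (by omega) (by nlinarith) hR
    (inv_of_noP hinv.noP) (fun x hx y hy z hz => hno x (mem_union_left _ hx) y (mem_union_left _ hy)
      z (mem_union_left _ hz))
  obtain ⟨a, ha, k2⟩ := exists_min_image R (fun b => ((Unt adj col b W W).card : ℝ))
    (card_pos.1 (by omega))
  have k3 := card_nsmul_le_sum R _ _ k2
  rw [hR, nsmul_eq_mul] at k3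
  obtain ⟨f, f1, f2, f3, f4⟩ := levels2 hGR a W Z
  have k4 := tstar (q := l / 4) h (by omega) (by nlinarith) hR ha hinv hno f1 f2 f3 f4
  obtain ⟨G, g1, g2, g3⟩ := small_subset (fun i => (Tl adj col a W f i).card) (μ := μ) (by omega)
    (l - 2 * (l / 4) - μ) (Ico (l / 4) (l - l / 4)) (by rw [Nat.card_Ico]; omega)
  have hGl : G ⊆ range l := fun i hi => by
    have := mem_Ico.1 (g1 hi)
    rw [mem_range]; omega
  set Y := Unt adj col a (W ∪ Z) Z with hY
  let w : V → ℝ := fun z => (μ : ℝ) ^ ((U z).erase a).card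
  have key : ∀ i ∈ range l, ((Wk adj col a W f G i).card : ℝ) +
      ν * (∑ x ∈ Lev adj col a (W ∪ Z) Z f i, w x + ∑ x ∈ (if i ∈ G then Y else ∅), w x) ≤
      (l : ℝ) ^ r := by
    intro i hi
    rw [mem_range] at hi
    set Y' := if i ∈ G then Y else ∅ with hY'
    have hYm : ∀ x ∈ Y', x ∈ Y ∧ i ∈ G := by
      intro x hx
      rw [hY'] at hx
      split_ifs at hx with e
      · exact ⟨hx, e⟩
      · simp at hx
    have c0 : Lev adj col a (W ∪ Z) Z f i ∪ Y' ⊆ Z := union_subset (fun x hx => (mem_lev.1 hx).1)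
      fun x hx => (mem_unt.1 (hYm x hx).1).1
    have c0' : Wk adj col a W f G i ⊆ W := fun x hx => (mem_wk.1 hx).1.1
    have c1 := union_subset_union c0' c0
    have hm : ∀ x ∈ Wk adj col a W f G i ∪ (Lev adj col a (W ∪ Z) Z f i ∪ Y'), x ∈ Y' ∨
        ((InA adj col a (W ∪ Z) x ∨ OutA adj col a (W ∪ Z) x) ∧ f x = i) := by
      intro x hx
      rcases mem_union.1 hx with k | k
      · rw [mem_wk] at k
        exact Or.inr ⟨k.1.2.1.imp InA.up OutA.up, k.1.2.2⟩
      · exact (mem_union.1 k).symm.imp id fun j => (mem_lev.1 j).2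
    have c3 : Fr adj col a (Wk adj col a W f G i ∪ (Lev adj col a (W ∪ Z) Z f i ∪ Y')) := by
      intro u hu v hv k k'
      rcases hm u hu with e | e
      · exact (mem_unt.1 (hYm u e).1).2.2 ⟨v, c1 hv, k, k'⟩
      rcases hm v hv with e' | e'
      · exact (mem_unt.1 (hYm v e').1).2.1 ⟨u, c1 hu, k, k'⟩
      · exact f3 u (c1 hu) v (c1 hv) ⟨k, k'⟩ (e.2.trans e'.2.symm)
    have c4 := class_free hinv c1 c3 (by
      intro s hs t ht k
      by_cases e : i ∈ G
      · exact Or.inr (Or.inr (k.symm.imp (fun j => ((mem_wk.1 j).2 e).2)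
          fun j => ((mem_wk.1 j).2 e).1))
      have s1 := (hm s hs).resolve_left fun j => e (hYm s j).2
      have t1 := (hm t ht).resolve_left fun j => e (hYm t j).2
      rcases k with k | k
      · by_cases e' : i + 1 < l
        · exact Or.inl ⟨c0' k, (f2 t t1.1).1 (t1.2 ▸ e')⟩
        · refine Or.inr (Or.inr (Or.inr ?_))
          by_contra j
          obtain ⟨y, y1, y2⟩ := (mem_wk.1 k).1.2.1.resolve_left j
          have := f4 s (c0' k) y y1 y2 (Or.inl j)
          have := f1 y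
          omega
      · by_cases e' : 0 < i
        · exact Or.inr (Or.inl ⟨c0' k, (f2 s s1.1).2 (s1.2 ▸ e')⟩)
        · refine Or.inr (Or.inr (Or.inl ?_))
          by_contra j
          obtain ⟨y, y1, y2⟩ := (mem_wk.1 k).1.2.1.resolve_right j
          have := f4 y y1 t (c0' k) y2 (Or.inr j)
          omega)
    have c5 := h.child ha hR hno c1 (hd.mono c0' c0) c3 c4 U fun z hz => hU z (c0 hz)
    rwa [sum_union (disjoint_left.2 fun x hx k =>
      not_or.2 (mem_unt.1 (hYm x k).1).2 (mem_lev.1 hx).2.1)] at c5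
  have k5 := sum_le_sum key
  rw [sum_add_distrib, ← mul_sum, sum_add_distrib, sum_ite_w hGl, g2, sum_const, card_range,
    nsmul_eq_mul, ← pow_succ'] at k5
  have k6 := sum_wk (adj := adj) (col := col) (a := a) (W := W) f1 hGl
  have k7 := sum_lev_w (adj := adj) (col := col) (a := a) (N := W ∪ Z) (X := Z) f1
    (fun z => (μ : ℝ) ^ (U z).card)
  have k8 : ∑ i ∈ range l, ∑ x ∈ Lev adj col a (W ∪ Z) Z f i, (μ : ℝ) ^ (U x).card =
      ∑ i ∈ range l, ∑ x ∈ Lev adj col a (W ∪ Z) Z f i, w x := by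
    refine sum_congr rfl fun i _ => sum_congr rfl fun x hx => ?_
    rw [mem_lev] at hx
    simp only [w, erase_eq_of_notMem fun k => not_or.2 (hU x hx.1 a k).2 hx.2.1]
  have k9 : ∑ x ∈ Y, (μ : ℝ) ^ (U x).card ≤ μ * ∑ x ∈ Y, w x := by
    rw [mul_sum]
    refine sum_le_sum fun x _ => ?_
    rw [← pow_succ']
    have := pred_card_le_card_erase (s := U x) (a := a)
    exact pow_le_pow_right₀ (by linarith) (by omega)
  rw [Nat.card_Ico, show l - l / 4 - l / 4 = l - 2 * (l / 4) by omega] at g3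
  refine egs_arith (q := (l / 4 : ℕ)) (y := (Unt adj col a W W).card)
    (g := ∑ i ∈ G, ((Tl adj col a W f i).card : ℝ)) hl' hμ' hν
    (by exact_mod_cast Nat.le_add_left 1 r) q1 q2 (sum_nonneg fun _ _ => by positivity)
    (Nat.cast_nonneg _) (sum_nonneg fun _ _ => Nat.cast_nonneg _) hν'
    (by linarith [mul_le_mul_of_nonneg_left k3 (show 0 ≤ ν * μ / 2 by positivity)]) k4 ?_ ?_
  · have : ((l - 2 * (l / 4) : ℕ) : ℝ) = l - 2 * (l / 4 : ℕ) := by
      rw [Nat.cast_sub (by omega)]; push_cast; ring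
    rw [← this]
    exact_mod_cast g3
  · rw [← hY] at k7
    nlinarith [mul_le_mul_of_nonneg_left k9 (show 0 ≤ ν by linarith)]

theorem eg3 {l μ K : ℕ} (hT : ∀ u v, u ≠ v → adj u v ∨ adj v u) (hGR : GR adj col l)
    (hμ : 8 ≤ μ) (hμl : 2 * μ ≤ l) (hl : 40 ≤ l)
    (hs : ∑ j ∈ range K, (8 / (μ * (j + 1 : ℕ)) + 64 * μ / l ^ 2 : ℝ) ≤ 1 / 2) {A : Finset C}
    (hA : A.card = K) {W : Finset V} (h0 : ¬ HasP adj col W (K + 1)) (hno : NoTwo adj col A W) :
    W.card ≤ l ^ K := by
  have key : ∀ r ≤ K, EGS adj col l μ r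
      (1 / 2 - (∑ j ∈ range r, (8 / (μ * (j + 1 : ℕ)) + 64 * μ / l ^ 2 : ℝ)) / 2) := by
    intro r
    induction r with
    | zero => intro _; simpa using EGS.zero (μ := μ) hT hGR (by omega)
    | succ r ih =>
      intro hr
      have h1 : ∑ j ∈ range r, (8 / (μ * (j + 1 : ℕ)) + 64 * μ / l ^ 2 : ℝ) ≤ 1 / 2 :=
        le_trans (sum_le_sum_of_subset_of_nonneg (range_subset_range.2 (by omega))
          fun _ _ _ => by positivity) hs
      have h2 : 0 ≤ ∑ j ∈ range r, (8 / (μ * (j + 1 : ℕ)) + 64 * μ / l ^ 2 : ℝ) := by positivity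
      refine EGS.succ hGR (ih (by omega)) (by linarith) hμ hμl hl ?_
      rw [sum_range_succ]
      have h3 : (0 : ℝ) ≤ 8 / (μ * (r + 1 : ℕ)) + 64 * μ / l ^ 2 := by positivity
      nlinarith [mul_nonneg h2 h3]
  have := key K le_rfl A W ∅ (fun _ => ∅) hA (disjoint_empty_right _) (inv_of_noP h0)
    (by rwa [union_empty]) (by simp)
  rw [sum_empty, mul_zero, add_zero] at this
  exact_mod_cast this

end Pool.Agent.H31Fed
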