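import Pool.Agent.Lib.MP_fed786_co.H31Bot

set_option autoImplicit false

namespace Pool.Agent.H31Fed
open Finset Pool.Agent.H66Fed

variable {V C : Type} [DecidableEq V] [DecidableEq C]
variable {adj : V → V → Prop} {col : V → V → C}

omit [DecidableEq V] in
theorem kraft_box {l Φ : ℕ} (Λ : C → V → Finset ℕ) (h1 : ∀ a x, Λ a x ⊆ range l) (R : Finset C) :
    ∀ N : Finset V, Core adj col N R Φ →
      (∀ a ∈ R, ∀ u ∈ N, ∀ v ∈ N, Arc adj col a u v → Disjoint (Λ a u) (Λ a v)) →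
      ∑ z ∈ N, ∏ a ∈ R, (Λ a z).card ≤ l ^ R.card * Φ := by
  induction R using Finset.induction_on with
  | empty =>
    intro N hc _
    simpa using hc N Subset.rfl (fun _ _ _ _ _ => notMem_empty _)
  | insert a R ha ih =>
    intro N hc hU
    have h2 : ∀ i ∈ range l, ∑ z ∈ N.filter (fun z => i ∈ Λ a z), ∏ b ∈ R, (Λ b z).card ≤
        l ^ R.card * Φ := by
      intro i _
      apply ih
      · have := hc.erase (a := a) (filter_subset (fun z => i ∈ Λ a z) N) (by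
          intro u hu v hv k k'
          rw [mem_filter] at hu hv
          exact disjoint_left.1 (hU a (mem_insert_self _ _) u hu.1 v hv.1 ⟨k, k'⟩) hu.2 hv.2)
        rwa [erase_insert ha] at this
      · intro b hb u hu v hv k
        exact hU b (mem_insert_of_mem hb) u (mem_filter.1 hu).1 v (mem_filter.1 hv).1 k
    have h3 := sum_le_sum h2
    rw [sum_const, card_range, smul_eq_mul, ← mul_assoc, ← pow_succ',
      ← card_insert_of_notMem ha] at h3
    refine le_trans (le_of_eq ?_) h3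
    simp only [sum_filter]
    rw [sum_comm]
    refine sum_congr rfl fun z _ => ?_
    rw [prod_insert ha, ← sum_filter, sum_const, smul_eq_mul, filter_mem_eq_inter,
      inter_eq_right.2 (h1 a z)]

theorem small_pow2 {l q : ℕ} (hq : 5 ≤ q) (hl : l ≤ q ^ 2) (u : ℕ) :
    l ^ 11 * u ≤ 23 * l ^ 11 + q ^ u := by
  by_cases h : u ≤ 23
  · nlinarith [Nat.zero_le (q ^ u), Nat.zero_le (l ^ 11)]
  obtain ⟨j, rfl⟩ : ∃ j, u = 22 + (j + 2) := ⟨u - 24, by omega⟩
  have h1 : j < 5 ^ j := Nat.lt_pow_self (by norm_num)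
  have h2 : 5 ^ (j + 2) ≤ q ^ (j + 2) := Nat.pow_le_pow_left hq _
  have h3 : 22 + (j + 2) ≤ q ^ (j + 2) := by rw [pow_add] at h2; omega
  have h4 : l ^ 11 ≤ q ^ 22 := by
    rw [show q ^ 22 = (q ^ 2) ^ 11 by ring]; exact Nat.pow_le_pow_left hl _
  rw [pow_add]
  exact (Nat.mul_le_mul h4 h3).trans (Nat.le_add_left _ _)

omit [DecidableEq V] in
/-- Vertices with `q` free levels are rare on average over the colours of a core. -/
theorem box_avg {l q Φ n : ℕ} (hGR : GR adj col l) (hl0 : 0 < l) (hq : 5 ≤ q) (hl : l ≤ q ^ 2)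
    {I R : Finset C}
    (hI : I ⊆ R) {N Z : Finset V} (hZ : Z ⊆ N) (hc : Core adj col N R Φ)
    (hΦ : l ^ R.card * Φ ≤ l ^ (n + 9)) (D : C → Finset V) (hD : ∀ a ∈ I, D a ⊆ Z)
    (h : ∀ a ∈ I, ∃ Λ : V → Finset ℕ, (∀ x, Λ x ⊆ range l) ∧ (∀ x, 1 ≤ (Λ x).card) ∧
      (∀ x ∈ D a, q ≤ (Λ x).card) ∧ ∀ u ∈ N, ∀ v ∈ N, Arc adj col a u v → Disjoint (Λ u) (Λ v)) :
    ∑ a ∈ I, ((D a).card : ℝ) ≤ 23 * Z.card + (l : ℝ) ^ n / l ^ 2 := by
  classical
  have h0 : ∀ a, ∃ Λ : V → Finset ℕ, (∀ x, Λ x ⊆ range l) ∧ (∀ x, 1 ≤ (Λ x).card) ∧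
      (a ∈ I → ∀ x ∈ D a, q ≤ (Λ x).card) ∧
      ∀ u ∈ N, ∀ v ∈ N, Arc adj col a u v → Disjoint (Λ u) (Λ v) := by
    intro a
    by_cases k : a ∈ I
    · obtain ⟨Λ, k1, k2, k3, k4⟩ := h a k
      exact ⟨Λ, k1, k2, fun _ => k3, k4⟩
    · obtain ⟨f, f1, f2⟩ := GR.lev hGR a
      exact ⟨fun x => {f x}, fun x => by simpa using f1 x, by simp, fun k' => absurd k' k,
        fun u _ v _ e => by simpa using f2 u v e.1 e.2⟩
  choose Λ l1 l2 l3 l4 using h0
  have h1 := kraft_box Λ l1 R N hc (fun a _ => l4 a)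
  have h2 : ∀ z, q ^ (I.filter fun a => z ∈ D a).card ≤ ∏ a ∈ R, (Λ a z).card := by
    intro z
    rw [← prod_const]
    refine le_trans (prod_le_prod' fun a ha => l3 a (mem_filter.1 ha).1 z (mem_filter.1 ha).2) ?_
    exact prod_le_prod_of_subset_of_one_le' ((filter_subset _ _).trans hI) fun a _ _ => l2 a z
  have h3 : ∑ a ∈ I, (D a).card = ∑ z ∈ Z, (I.filter fun a => z ∈ D a).card := by
    have := Finset.sum_card_bipartiteAbove_eq_sum_card_bipartiteBelow
      (fun (a : C) (z : V) => z ∈ D a) (s := I) (t := Z)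
    simp only [bipartiteAbove, bipartiteBelow] at this
    rw [← this]
    refine sum_congr rfl fun a ha => congrArg card ?_
    rw [filter_mem_eq_inter, inter_eq_right.2 (hD a ha)]
  have h4 : l ^ 11 * ∑ z ∈ Z, (I.filter fun a => z ∈ D a).card ≤
      23 * l ^ 11 * Z.card + l ^ (n + 9) := by
    rw [mul_sum]
    refine (sum_le_sum fun z _ => small_pow2 hq hl _).trans ?_
    rw [sum_add_distrib, sum_const, smul_eq_mul, mul_comm]
    exact Nat.add_le_add_left ((sum_le_sum fun z _ => h2 z).trans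
      ((sum_le_sum_of_subset hZ).trans (h1.trans hΦ))) _
  rw [← h3] at h4
  have hl0 : (0 : ℝ) < l := by exact_mod_cast hl0
  have h5 : (l : ℝ) ^ 11 * ∑ a ∈ I, ((D a).card : ℝ) ≤
      23 * l ^ 11 * Z.card + l ^ (n + 9) := by exact_mod_cast h4
  have h6 : (l : ℝ) ^ 11 * (23 * Z.card + (l : ℝ) ^ n / l ^ 2) =
      23 * l ^ 11 * Z.card + l ^ (n + 9) := by
    field_simp
    ring
  rw [← h6] at h5
  exact le_of_mul_le_mul_left h5 (by positivity)

omit [DecidableEq V] in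
theorem unt_avg {l Φ n : ℕ} (hGR : GR adj col l) (hl : 5 ≤ l) {I R : Finset C} (hI : I ⊆ R)
    {N Z : Finset V} (hZ : Z ⊆ N) (hc : Core adj col N R Φ) (hΦ : l ^ R.card * Φ ≤ l ^ (n + 9)) :
    ∑ a ∈ I, ((Unt adj col a N Z).card : ℝ) ≤ 23 * Z.card + (l : ℝ) ^ n / l ^ 2 := by
  classical
  refine box_avg hGR (by omega) hl (Nat.le_self_pow (by omega) _) hI hZ hc hΦ _
    (fun a _ x hx => (mem_unt.1 hx).1) fun a _ => ?_
  obtain ⟨f, f1, f2⟩ := GR.lev hGR a
  refine ⟨fun x => if x ∈ Unt adj col a N Z then range l else {f x}, fun x => ?_, fun x => ?_,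
    fun x hx => by simp [hx], fun u hu v hv e => ?_⟩
  · simp only
    split_ifs
    · exact Subset.rfl
    · simpa using f1 x
  · simp only
    split_ifs
    · rw [card_range]; omega
    · simp
  · have k1 : u ∉ Unt adj col a N Z := fun k => (mem_unt.1 k).2.2 ⟨v, hv, e⟩
    have k2 : v ∉ Unt adj col a N Z := fun k => (mem_unt.1 k).2.1 ⟨u, hu, e⟩
    simpa [k1, k2] using f2 u v e.1 e.2

omit [DecidableEq C] in
theorem levels2 {l : ℕ} (hGR : GR adj col l) (a : C) (W Z : Finset V) :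
    ∃ f : V → ℕ, (∀ v, f v < l) ∧
      (∀ x, InA adj col a (W ∪ Z) x ∨ OutA adj col a (W ∪ Z) x →
        (f x + 1 < l → OutA adj col a (W ∪ Z) x) ∧ (0 < f x → InA adj col a (W ∪ Z) x)) ∧
      (∀ x ∈ W ∪ Z, ∀ y ∈ W ∪ Z, Arc adj col a x y → f x ≠ f y) ∧
      ∀ x ∈ W, ∀ y ∈ W, Arc adj col a x y →
        (¬ InA adj col a W x ∨ ¬ OutA adj col a W y) → f x < f y := by
  classical
  let ρ : V → ℕ := fun x => if InA adj col a (W ∪ Z) x then (if OutA adj col a (W ∪ Z) x then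
    (if x ∈ W then (if InA adj col a W x then (if OutA adj col a W x then 2 else 3) else 1) else 2)
    else 4) else 0
  obtain ⟨g, g1, g2, g3⟩ := hGR a ρ
  let f : V → ℕ := fun x => if InA adj col a (W ∪ Z) x then
    (if OutA adj col a (W ∪ Z) x then g x else l - 1) else 0
  refine ⟨f, ?_, ?_, ?_, ?_⟩
  · intro v
    have := g1 v
    simp only [f]
    split_ifs <;> omega
  · intro x hx
    have := g1 x
    simp only [f]
    split_ifs with k1 k2
    · exact ⟨fun _ => k2, fun _ => k1⟩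
    · exact ⟨fun k => by omega, fun _ => k1⟩
    · exact ⟨fun _ => hx.resolve_left k1, fun k => by omega⟩
  · intro x hx y hy k
    have h1 := g2 x y k.1 k.2
    have h2 := g3 x y k.1 k.2
    have h3 := g1 y
    have k1 : OutA adj col a (W ∪ Z) x := ⟨y, hy, k⟩
    have k2 : InA adj col a (W ∪ Z) y := ⟨x, hx, k⟩
    simp only [ρ, f, k1, k2, if_true] at h2 ⊢
    split_ifs at h2 ⊢ <;> omega
  · intro x hx y hy k e
    have h2 := g3 x y k.1 k.2
    have h3 := g1 y
    have k1 : OutA adj col a W x := ⟨y, hy, k⟩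
    have k2 : InA adj col a W y := ⟨x, hx, k⟩
    simp only [ρ, f, k1, k2, k1.up, k2.up, hx, hy, if_true] at h2 ⊢
    rcases e with e | e
    · simp only [e, if_false] at h2
      split_ifs at h2 ⊢ <;> omega
    · simp only [e, if_false] at h2
      split_ifs at h2 ⊢ <;> omega

theorem class_free {a : C} {c : ℕ} {W Z W' Z' : Finset V}
    (hinv : Inv adj col (fun _ => none) (c + 1) False W Z) (h1 : W' ∪ Z' ⊆ W ∪ Z)
    (h4 : Fr adj col a (W' ∪ Z'))
    (h5 : ∀ s ∈ W' ∪ Z', ∀ t ∈ W' ∪ Z', (s ∈ W' ∨ t ∈ W') →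
      (s ∈ W ∧ OutA adj col a (W ∪ Z) t) ∨ (t ∈ W ∧ InA adj col a (W ∪ Z) s) ∨
      OutA adj col a W t ∨ InA adj col a W s) :
    Inv adj col (fun _ => none) c False W' Z' := by
  intro s t S B p hS
  have hs := hS p.start_mem
  have ht := hS p.end_mem
  have ha := h4.notMem p hS
  have app : ∀ v ∈ W ∪ Z, Arc adj col a t v → (s ∈ W ∨ v ∈ W) → Ok none c B := by
    intro v hv k e
    have := p.snoc k.1 (fun k' => h4 t ht _ (hS k') k.1 k.2) (k.2 ▸ ha)
    rw [k.2] at this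
    exact ((hinv _ _ _ _ this (insert_subset hv (hS.trans h1))).1 e).drop ha (by simp)
  have pre : ∀ u ∈ W ∪ Z, Arc adj col a u s → (u ∈ W ∨ t ∈ W) → Ok none c B := by
    intro u hu k e
    have := p.cons k.1 (fun k' => h4 u (hS k') s hs k.1 k.2) (k.2 ▸ ha)
    rw [k.2] at this
    exact ((hinv _ _ _ _ this (insert_subset hu (hS.trans h1))).1 e).drop ha (by simp)
  refine ⟨fun k => ?_, False.elim⟩
  rcases h5 s hs t ht k with ⟨k1, v, k2, k3⟩ | ⟨k1, u, k2, k3⟩ | ⟨v, k2, k3⟩ | ⟨u, k2, k3⟩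
  · exact app v k2 k3 (Or.inl k1)
  · exact pre u k2 k3 (Or.inr k1)
  · exact app v (mem_union_left _ k2) k3 (Or.inr k2)
  · exact pre u (mem_union_left _ k2) k3 (Or.inl k2)

end Pool.Agent.H31Fed
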