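import Pool.Agent.Lib.MP_fed786_co.H31XC

set_option autoImplicit false

namespace Pool.Agent.H31Fed
open Finset Pool.Agent.H66Fed

variable {V C : Type} [DecidableEq V] [DecidableEq C]
variable {adj : V → V → Prop} {col : V → V → C}

/-- The constants of the nested rooted bounds. -/
noncomputable def xt (H : ℝ) : ℕ → ℝ
  | 0 => 1
  | e + 1 => 369630 + 300 * (xt H e + 1) * H

theorem xt_nonneg {H : ℝ} (hH : 0 ≤ H) : ∀ e, 0 ≤ xt H e
  | 0 => zero_le_one
  | e + 1 => by
    have := xt_nonneg hH e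
    simp only [xt]
    positivity

theorem rooted_bound2 {l K : ℕ} {H : ℝ} (h : Ctx adj col l K) (h1 : 111 ≤ K) (hK : K ≤ l ^ 2)
    (hl : 200 ≤ l) (hH : Ht K ≤ H) : RB adj col l K (369690 + 4 * xt H 9) := by
  have hH0 := (Ht_nonneg K).trans hH
  have hb : ∀ c ≤ 110, ∀ (N : Finset V) (lab : V → Option C), Rt adj col lab c N →
      (N.card : ℝ) ≤ 369630 * l ^ c := by
    intro c hc N lab hr
    have h1 := rooted_base (h.mono (show c + 1 ≤ K by omega)) hr
    have h2 : 30 * (c + 1) ^ 2 ≤ 369630 :=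
      (Nat.mul_le_mul_left 30 (Nat.pow_le_pow_left (show c + 1 ≤ 111 by omega) 2)).trans
        (by norm_num)
    exact_mod_cast h1.trans (Nat.mul_le_mul_right _ h2)
  have hX : ∀ e ≤ 9, XC adj col l K e (xt H e) := by
    intro e
    induction e with
    | zero => exact fun _ => XC.zero h.gr
    | succ e ih =>
      intro he c N lab R h1 h2 h3 h4
      have h0 := xt_nonneg hH0 e
      refine (XC.succ h.gr (by omega) (by omega) h0 (ih (by omega)) hb c N lab R h1 h2 h3 h4).trans
        (mul_le_mul_of_nonneg_right ?_ (by positivity))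
      simp only [xt]
      nlinarith
  intro c hc N lab hr
  have h0 := xt_nonneg hH0 9
  have hL : (0 : ℝ) ≤ l ^ c := by positivity
  by_cases h1 : c ≤ 110
  · refine (hb c h1 N lab hr).trans (mul_le_mul_of_nonneg_right (by linarith) hL)
  obtain ⟨q, rfl⟩ : ∃ q, c = q + 9 := ⟨c - 9, by omega⟩
  by_cases h2 : 60 * l ^ (q + 9) < N.card
  · obtain ⟨S', s1, R, s2, s3, s4, -⟩ := core_extract3 h hc hK hl hr.noP h2
    have h3 := hX 9 le_rfl (q + 9) S' lab R hc.le (by omega) s4 (hr.mono s1)
    have h4 : (N.card : ℝ) ≤ 4 * S'.card := by exact_mod_cast s2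
    nlinarith
  · have h3 : (N.card : ℝ) ≤ 60 * l ^ (q + 9) := by exact_mod_cast not_lt.1 h2
    exact h3.trans (mul_le_mul_of_nonneg_right (by linarith) hL)

/-- `W` has a large subset all of whose arcs have colours in a set of `r` colours. -/
def Str (adj : V → V → Prop) (col : V → V → C) (l : ℕ) (W : Finset V) (r : ℕ) : Prop :=
  ∃ A : Finset C, ∃ U ⊆ W, A.card = r ∧ (∀ u ∈ U, ∀ v ∈ U, adj u v → col u v ∈ A) ∧
    l ^ r ≤ 16 * U.card

open Classical in
theorem prop_half {l K c : ℕ} {F : ℝ} (h : Ctx adj col l K) (hF : RB adj col l K F) (hc : c < K)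
    {W U : Finset V} {A : Finset C} {a : C} (hW : ¬ HasP adj col W (c + 2 + 1)) (hU : U ⊆ W)
    (hA : A.card = c + 1) (ha : a ∉ A) (hcol : ∀ u ∈ U, ∀ v ∈ U, adj u v → col u v ∈ A) {u v : V}
    (hu : u ∈ W) (hv : v ∈ W) (huv : adj u v)
    (hin : (F + 1) * l ^ c + 4 < (U.filter fun t => adj t u).card)
    (ou : OutA adj col a W u) (ov : OutA adj col a W v) : col u v ∈ insert a A := by
  by_contra hb
  rw [mem_insert, not_or] at hb
  set N := U.filter fun t => adj t u with hN
  have hp : ∀ (M : Finset V) (x : V), M.card ≤ ((M.erase v).erase x).card + 2 := fun M x => by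
    have := pred_card_le_card_erase (s := M) (a := v)
    have := pred_card_le_card_erase (s := M.erase v) (a := x)
    omega
  obtain ⟨x, x1, x2, x3⟩ := ov
  obtain ⟨y, y1, y2, y3⟩ := ou
  obtain ⟨N1, h1, hm⟩ : ∃ N1 : Finset V, (N.filter fun t => col t u ∈ A).card ≤ N1.card + 2 ∧
      ∀ t ∈ N1, t ∈ U ∧ adj t u ∧ col t u ∈ A ∧ t ≠ v ∧ t ≠ x := ⟨_, hp _ x, fun t ht => by
    rw [mem_erase, mem_erase, mem_filter, hN, mem_filter] at ht
    exact ⟨ht.2.2.1.1, ht.2.2.1.2, ht.2.2.2, ht.2.1, ht.1⟩⟩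
  obtain ⟨N2, h2, hm'⟩ : ∃ N2 : Finset V, (N.filter fun t => ¬ col t u ∈ A).card ≤ N2.card + 2 ∧
      ∀ t ∈ N2, t ∈ U ∧ adj t u ∧ col t u ∉ A ∧ t ≠ v ∧ t ≠ y := ⟨_, hp _ y, fun t ht => by
    rw [mem_erase, mem_erase, mem_filter, hN, mem_filter] at ht
    exact ⟨ht.2.2.1.1, ht.2.2.1.2, ht.2.2.2, ht.2.1, ht.1⟩⟩
  have k1 := hF c hc N1 (fun t => some (col t u)) (by
      intro s t P B p hP
      have hPU : P ⊆ U := fun w hw => (hm w (hP hw)).1
      have hB := path_cols hcol p hPU
      have ht := hm t (hP p.end_mem)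
      refine ⟨fun z e e' => ?_, by simp, hA ▸ card_le_card hB⟩
      obtain rfl := Option.some.inj e
      have n1 : col u v ∉ insert (col t u) B := fun k => hb.2 (insert_subset ht.2.2.1 hB k)
      have n2 : col v x ∉ insert (col u v) (insert (col t u) B) := fun k => by
        rw [x3] at k
        rcases mem_insert.1 k with k | k
        · exact hb.1 k.symm
        · exact ha (insert_subset ht.2.2.1 hB k)
      have := le_of_noP hW (((p.snoc ht.2.1 (fun k => h.irr u (hm u (hP k)).2.1) e').snoc huv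
        (fun k => by
          rcases mem_insert.1 k with k | k
          · exact h.irr u (k ▸ huv)
          · exact (hm v (hP k)).2.2.2.1 rfl) n1).snoc x2 (fun k => by
          rcases mem_insert.1 k with k | k
          · exact h.irr v (k ▸ x2)
          rcases mem_insert.1 k with k | k
          · exact h.hA _ _ huv (k ▸ x2)
          · exact (hm x (hP k)).2.2.2.2 rfl) n2)
        (insert_subset x1 (insert_subset hv (insert_subset hu (hPU.trans hU))))
      rw [card_insert_of_notMem n2, card_insert_of_notMem n1, card_insert_of_notMem e'] at this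
      omega)
  have k2 := h.ih' hc (U := N2) (by
    rintro ⟨s, t, P, B, p, hP, hB'⟩
    have hPU : P ⊆ U := fun w hw => (hm' w (hP hw)).1
    have hB := path_cols hcol p hPU
    have ht := hm' t (hP p.end_mem)
    have e' : col t u ∉ B := fun k => ht.2.2.1 (hB k)
    have q := p.snoc ht.2.1 (fun k => h.irr u (hm' u (hP k)).2.1) e'
    have q1 := insert_subset hu (hPU.trans hU)
    have q2 : (insert (col t u) B).card = c + 2 := by rw [card_insert_of_notMem e', hB']
    have j1 := ext_col hW q q1 q2 hv huv fun k => by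
      rcases mem_insert.1 k with k | k
      · exact h.irr u (k ▸ huv)
      · exact (hm' v (hP k)).2.2.2.1 rfl
    have j2 := ext_col hW q q1 q2 y1 y2 fun k => by
      rcases mem_insert.1 k with k | k
      · exact h.irr u (k ▸ y2)
      · exact (hm' y (hP k)).2.2.2.2 rfl
    rw [y3] at j2
    exact hb.1 (((mem_insert.1 j1).resolve_right fun k => hb.2 (hB k)).trans
      ((mem_insert.1 j2).resolve_right fun k => ha (hB k)).symm))
  have k3 := card_filter_add_card_filter_not (s := N) fun t => col t u ∈ A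
  have k4 : (N.card : ℝ) ≤ N1.card + l ^ c + 4 := by
    exact_mod_cast (show N.card ≤ N1.card + l ^ c + 4 by omega)
  linarith

open Classical in
theorem two_side {l K c : ℕ} (h : Ctx adj col l K) (hc : c < K) {W Z : Finset V} {a : C}
    (hinv : Inv adj col (fun _ => none) (c + 1) True W Z) :
    (W.filter fun x => ¬ (InA adj col a W x ∧ OutA adj col a W x)).card ≤
      2 * l ^ c + (Unt adj col a (W ∪ Z) W).card := by
  have h1 := h.ih' hc (class_low hinv (a := a) (by simp)
    (W' := W.filter fun x => OutA adj col a (W ∪ Z) x ∧ ¬ InA adj col a W x) (Z' := ∅)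
    (filter_subset _ _) (empty_subset _) (disjoint_empty_right _) (by
      rw [union_empty]
      exact fun u hu v hv k k' => (mem_filter.1 hv).2.2 ⟨u, (mem_filter.1 hu).1, k, k'⟩)
    (by rw [union_empty]; exact fun t ht => (mem_filter.1 ht).2.1) (Or.inl rfl)).inv_none.noP
  have h2 := h.ih' hc (class_high hinv (a := a) (by simp)
    (W' := W.filter fun x => InA adj col a (W ∪ Z) x ∧ ¬ OutA adj col a W x) (Z' := ∅)
    (filter_subset _ _) (empty_subset _) (disjoint_empty_right _) (by
      rw [union_empty]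
      exact fun u hu v hv k k' => (mem_filter.1 hu).2.2 ⟨v, (mem_filter.1 hv).1, k, k'⟩)
    (by rw [union_empty]; exact fun t ht => (mem_filter.1 ht).2.1) (Or.inl rfl)).inv_none.noP
  have h3 : (W.filter fun x => ¬ (InA adj col a W x ∧ OutA adj col a W x)) ⊆
      ((W.filter fun x => OutA adj col a (W ∪ Z) x ∧ ¬ InA adj col a W x) ∪
      W.filter fun x => InA adj col a (W ∪ Z) x ∧ ¬ OutA adj col a W x) ∪
      Unt adj col a (W ∪ Z) W := by
    intro x hx
    have j1 := InA.up (adj := adj) (col := col) (a := a) (W := W) (Z := Z) (x := x)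
    have j2 := OutA.up (adj := adj) (col := col) (a := a) (W := W) (Z := Z) (x := x)
    simp only [mem_union, mem_filter, mem_unt] at hx ⊢
    tauto
  have h4 := (card_le_card h3).trans ((card_union_le _ _).trans
    (Nat.add_le_add_right (card_union_le _ _) _))
  omega

theorem prop {l K c : ℕ} {F : ℝ} (h : Ctx adj col l K) (hF : RB adj col l K F)
    (hF' : RB (flip adj) (flip col) l K F) (hFl : 100 * (F + 2) ≤ l) (hF0 : 0 ≤ F) (hc : c + 1 < K)
    {W Z W' : Finset V} {a : C} (hinv : Inv adj col (fun _ => none) (c + 2) True W Z)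
    (h1 : W' ⊆ W) (h2 : Fr adj col a W') (hs : Str adj col l W' (c + 1))
    (hn : l ^ (c + 2) ≤ 2 * W.card) (hY : 8 * (Unt adj col a (W ∪ Z) W).card ≤ l ^ (c + 2)) :
    Str adj col l W (c + 2) := by
  classical
  obtain ⟨A, U, u1, u2, u3, u4⟩ := hs
  have hl : 200 ≤ l := by exact_mod_cast (show (200 : ℝ) ≤ l by linarith)
  have hL : 1 ≤ l ^ c := Nat.one_le_pow _ _ h.pos
  have ha : a ∉ A := by
    intro k
    have := h.ih' (r := c) (by omega) (U := U) (by
      rintro ⟨s, t, P, B, p, p1, p2⟩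
      have := card_le_card (subset_erase.2 ⟨path_cols u3 p p1, h2.notMem p (p1.trans u1)⟩)
      rw [card_erase_of_mem k] at this
      omega)
    rw [pow_succ] at u4
    nlinarith
  have k1 := two_side h hc hinv (a := a)
  have fin : ∀ P ⊆ W, W.card ≤ 2 * P.card → (∀ u ∈ P, ∀ v ∈ P, adj u v →
      InA adj col a W u ∧ OutA adj col a W u → InA adj col a W v ∧ OutA adj col a W v →
      col u v ∈ insert a A) → Str adj col l W (c + 2) := by
    intro P p1 p2 p3
    refine ⟨insert a A, P.filter fun x => InA adj col a W x ∧ OutA adj col a W x,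
      (filter_subset _ _).trans p1, by rw [card_insert_of_notMem ha, u2], fun u hu v hv k =>
        p3 u (mem_filter.1 hu).1 v (mem_filter.1 hv).1 k (mem_filter.1 hu).2 (mem_filter.1 hv).2,
      ?_⟩
    have j1 := card_filter_add_card_filter_not (s := P)
      fun x => InA adj col a W x ∧ OutA adj col a W x
    have j2 := card_le_card (filter_subset_filter
      (fun x => ¬ (InA adj col a W x ∧ OutA adj col a W x)) p1)
    have j3 : 200 * l ^ (c + 1) ≤ l ^ (c + 2) := by
      rw [pow_succ' l (c + 1)]; exact Nat.mul_le_mul_right _ hl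
    omega
  set P := W.filter fun u => (F + 1) * l ^ c + 4 < (U.filter fun t => adj t u).card with hP
  set P' := W.filter fun u => (F + 1) * l ^ c + 4 < (U.filter fun t => flip adj t u).card with hP'
  have k2 : W ⊆ P ∪ P' := by
    intro x hx
    by_contra k
    simp only [hP, hP', mem_union, mem_filter, hx, true_and, not_or, not_lt] at k
    have j1 : (U.card : ℝ) ≤ (U.filter fun t => adj t x).card +
        (U.filter fun t => flip adj t x).card + 1 := by exact_mod_cast split_at h.hT U x
    have j2 : (l : ℝ) ^ c * l ≤ 16 * U.card := by exact_mod_cast u4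
    have j3 : (1 : ℝ) ≤ l ^ c := by exact_mod_cast hL
    nlinarith [mul_le_mul_of_nonneg_left hFl (show (0 : ℝ) ≤ l ^ c by positivity),
      mul_nonneg hF0 (show (0 : ℝ) ≤ l ^ c by positivity)]
  have k3 := (card_le_card k2).trans (card_union_le _ _)
  by_cases e : P'.card ≤ P.card
  · refine fin P (filter_subset _ _) (by omega) fun u hu v hv k ju jv => ?_
    exact prop_half h hF (by omega) hinv.noP (u1.trans h1) u2 ha u3 (mem_filter.1 hu).1
      (mem_filter.1 hv).1 k (mem_filter.1 hu).2 ju.2 jv.2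
  · refine fin P' (filter_subset _ _) (by omega) fun u hu v hv k ju jv => ?_
    exact prop_half h.flip hF' (by omega) (fun j => hinv.noP j.of_reverse) (u1.trans h1) u2 ha
      (fun u hu v hv k => u3 v hv u hu k) (mem_filter.1 hv).1 (mem_filter.1 hu).1 k
      (mem_filter.1 hv).2 jv.1 ju.1

theorem bottom2 {l K r : ℕ} (h : Ctx adj col l K) (hr : r < K) {W : Finset V}
    (h0 : ¬ HasP adj col W (r + 1 + 1)) (hl : 60 * (r + 1) ^ 2 ≤ l)
    (hW : l ^ (r + 1) < 2 * W.card) : Str adj col l W (r + 1) := by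
  classical
  have h0' : ¬ HasP (flip adj) (flip col) W (r + 1 + 1) := fun k => h0 k.of_reverse
  obtain ⟨A, W', w1, w2, w3, w4⟩ := dense2 h.hT h.irr (GR.lev h.gr) h.pos
    (h.ih (r + 1) hr) (h.ih r hr.le) h0 (by
      rw [pow_succ] at hW
      nlinarith [Nat.mul_le_mul_left (l ^ r) hl])
  have n1 := nonfull h hr W' A
  have n2 := nonfull h.flip hr W' A
  rw [w2] at n1 n2
  obtain ⟨v, v1, v2⟩ := exists_mem_notMem_of_card_lt_card
    (s := (W'.filter fun x => ¬ Full adj col W' r A x) ∪
      W'.filter fun x => ¬ Full (flip adj) (flip col) W' r A x) (t := W')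
    ((card_union_le _ _).trans_lt (by
      have : (r + 1 + 1) * l ^ r = (r + 2) * l ^ r := rfl
      omega))
  simp only [mem_union, mem_filter, not_or, not_and, not_not] at v2
  have nd := Node.top (Subset.refl W) h0
  obtain ⟨-, H, a2, a3⟩ := half_col h.irr h0 nd.sub w1 nd.her nd.free w2 nd.card w3 (v2.1 v1)
  obtain ⟨-, H', b2, b3⟩ := half_col h.flip.irr h0' nd.sub w1 nd.her' nd.free.flip w2 nd.card
    (fun u hu v hv k => w3 v hv u hu k) (v2.2 v1)
  rw [empty_union] at a3 b3
  have k1 := split_at h.hT W v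
  have k2 := card_le_card_sdiff_add_card (s := W.filter fun t => adj t v) (t := H')
  have k3 := card_le_card_sdiff_add_card (s := W.filter fun t => flip adj t v) (t := H)
  have k4 : l ≤ l ^ (r + 1) := Nat.le_self_pow (by omega) _
  have k5 : (r + 1 + 1) ^ 2 ≤ 4 * (r + 1) ^ 2 := by nlinarith
  have k6 : 1 ≤ (r + 1) ^ 2 := Nat.one_le_pow _ _ (by omega)
  by_cases k : ((W.filter fun t => adj t v) \ H').card ≤
      ((W.filter fun t => flip adj t v) \ H).card
  · refine ⟨A, (W.filter fun t => flip adj t v) \ H, sdiff_subset.trans (filter_subset _ _), w2,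
      fun x hx y hy k' => ?_, by omega⟩
    rw [mem_sdiff, mem_filter] at hx hy
    exact a3 x (mem_sdiff.2 ⟨hx.1.1, hx.2⟩) y (mem_sdiff.2 ⟨hy.1.1, hy.2⟩) hx.1.2 k'
  · refine ⟨A, (W.filter fun t => adj t v) \ H', sdiff_subset.trans (filter_subset _ _), w2,
      fun x hx y hy k' => ?_, by omega⟩
    rw [mem_sdiff, mem_filter] at hx hy
    exact b3 y (mem_sdiff.2 ⟨hy.1.1, hy.2⟩) x (mem_sdiff.2 ⟨hx.1.1, hx.2⟩) hy.1.2 k'

theorem top_notwo {l c : ℕ} {F : ℝ} (h : Ctx adj col l (c + 1)) (hF : RB adj col l (c + 1) F)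
    (hF' : RB (flip adj) (flip col) l (c + 1) F) (hFl : 100 * (F + 2) ≤ l) (hF0 : 0 ≤ F)
    {W : Finset V} (h0 : ¬ HasP adj col W (c + 1 + 1)) (hs : Str adj col l W (c + 1)) :
    ∃ A : Finset C, A.card = c + 1 ∧ NoTwo adj col A W := by
  classical
  obtain ⟨A, U, u1, a1, u2, u3⟩ := hs
  refine ⟨A, a1, fun x hx y hy z hz k1 k2 k3 k4 => ?_⟩
  have k5 : (U.card : ℝ) ≤ (U.filter fun t => adj t y).card +
      (U.filter fun t => flip adj t y).card + 1 := by exact_mod_cast split_at h.hT U y
  have j2 : (l : ℝ) ^ c * l ≤ 16 * U.card := by exact_mod_cast u3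
  have j3 : (1 : ℝ) ≤ l ^ c := by exact_mod_cast Nat.one_le_pow _ _ h.pos
  by_cases k : F * l ^ c + 1 < (U.filter fun t => adj t y).card
  · exact k4 (out_mem2 h.irr hF h0 u1 a1 u2 hy hz k2 k)
  · exact k3 (out_mem2 h.flip.irr hF' (fun k => h0 k.of_reverse) u1 a1
      (fun u hu v hv k => u2 v hv u hu k) hy hx k1 (by
        nlinarith [mul_le_mul_of_nonneg_left hFl (show (0 : ℝ) ≤ l ^ c by positivity),
          mul_nonneg hF0 (show (0 : ℝ) ≤ l ^ c by positivity)]))

end Pool.Agent.H31Fed
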