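import Pool.Agent.Lib.MP_fed786_co.H31XE

set_option autoImplicit false

namespace Pool.Agent.H31Fed
open Finset Pool.Agent.H66Fed

variable {V C : Type} [DecidableEq V] [DecidableEq C]
variable {adj : V → V → Prop} {col : V → V → C}

theorem drop_step {l q : ℕ} (hGR : GR adj col l) (hq0 : 0 < q) (hq : 2 * q ≤ l) {a : C}
    {lab : V → Option C} {c : ℕ} {W Z : Finset V} (hd : Disjoint W Z)
    (hinv : Inv adj col lab (c + 1) True W Z) (hlab : ∀ x ∈ W ∪ Z, lab x ≠ some a) :
    ∃ (Wc Zc : ℕ → Finset V) (D : Finset V), D ⊆ W ∧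
      (∀ i < l, Child adj col a lab c True W Z (Wc i) (Zc i)) ∧
      (∀ i, ∀ x ∈ Wc i, InA adj col a (W ∪ Z) x ∨ OutA adj col a (W ∪ Z) x) ∧
      ∑ i ∈ range l, ((Wc i).card : ℝ) + D.card = W.card ∧
      ∑ i ∈ range l, ((Zc i).card : ℝ) + (Unt adj col a (W ∪ Z) Z).card =
        Z.card + (l - 2 * q) * (Unt adj col a (W ∪ Z) W).card ∧
      ∃ Λ : V → Finset ℕ, (∀ x, Λ x ⊆ range l) ∧ (∀ x, 1 ≤ (Λ x).card) ∧
        (∀ x ∈ D, q ≤ (Λ x).card) ∧
        ∀ u ∈ W, ∀ v ∈ W, Arc adj col a u v → Disjoint (Λ u) (Λ v) := by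
  classical
  obtain ⟨f, f1, f2, f3, f4⟩ := levels2 hGR a W Z
  let P : V → Prop := fun x => (¬ OutA adj col a W x ∧ f x < l - q) ∨ (¬ InA adj col a W x ∧ q ≤ f x)
  set Y := Unt adj col a (W ∪ Z) W with hY
  let Wc : ℕ → Finset V := fun i => (W.filter fun x => ¬ P x).filter fun x => f x = i
  let Yc : ℕ → Finset V := fun i => if i ∈ Ico q (l - q) then Y else ∅
  have hW : ∀ i, ∀ x ∈ Wc i, x ∈ W ∧ f x = i ∧ (i < l - q → OutA adj col a W x) ∧
      (q ≤ i → InA adj col a W x) := by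
    intro i x hx
    simp only [Wc, P, mem_filter, not_or, not_and] at hx
    obtain ⟨⟨k1, k2, k3⟩, rfl⟩ := hx
    exact ⟨k1, rfl, fun k => by_contra fun j => k2 j k, fun k => by_contra fun j => k3 j k⟩
  have hW' : ∀ i, ∀ x ∈ Wc i, InA adj col a (W ∪ Z) x ∨ OutA adj col a (W ∪ Z) x := by
    intro i x hx
    by_cases e : q ≤ i
    · exact Or.inl ((hW i x hx).2.2.2 e).up
    · exact Or.inr ((hW i x hx).2.2.1 (by omega)).up
  have hYm : ∀ i, ∀ x ∈ Yc i, x ∈ Y ∧ q ≤ i ∧ i < l - q := by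
    intro i x hx
    simp only [Yc] at hx
    split_ifs at hx with e
    · exact ⟨hx, mem_Ico.1 e⟩
    · simp at hx
  refine ⟨Wc, fun i => Lev adj col a (W ∪ Z) Z f i ∪ Yc i, W.filter P, filter_subset _ _, ?_, hW',
    ?_, ?_, ?_⟩
  · intro i hi
    have c1 : Wc i ⊆ W := fun x hx => (hW i x hx).1
    have c2 : Lev adj col a (W ∪ Z) Z f i ∪ Yc i ⊆ W ∪ Z := fun x hx => by
      rcases mem_union.1 hx with k | k
      · exact mem_union_right _ (mem_lev.1 k).1
      · exact mem_union_left _ (mem_unt.1 (hYm i x k).1).1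
    have c3 : Disjoint (Wc i) (Lev adj col a (W ∪ Z) Z f i ∪ Yc i) := by
      rw [disjoint_left]
      intro x hx hx'
      rcases mem_union.1 hx' with k | k
      · exact disjoint_left.1 hd (c1 hx) (mem_lev.1 k).1
      · exact not_or.2 (mem_unt.1 (hYm i x k).1).2 (hW' i x hx)
    have c0 := union_subset (c1.trans subset_union_left) c2
    have hm : ∀ x ∈ Wc i ∪ (Lev adj col a (W ∪ Z) Z f i ∪ Yc i), x ∈ Yc i ∨
        ((InA adj col a (W ∪ Z) x ∨ OutA adj col a (W ∪ Z) x) ∧ f x = i) := by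
      intro x hx
      rcases mem_union.1 hx with k | k
      · exact Or.inr ⟨hW' i x k, (hW i x k).2.1⟩
      · exact (mem_union.1 k).symm.imp id fun j => (mem_lev.1 j).2
    have c4 : Fr adj col a (Wc i ∪ (Lev adj col a (W ∪ Z) Z f i ∪ Yc i)) := by
      intro u hu v hv k k'
      rcases hm u hu with e | e
      · exact (mem_unt.1 (hYm i u e).1).2.2 ⟨v, c0 hv, k, k'⟩
      rcases hm v hv with e' | e'
      · exact (mem_unt.1 (hYm i v e').1).2.1 ⟨u, c0 hu, k, k'⟩
      · exact f3 u (c0 hu) v (c0 hv) ⟨k, k'⟩ (e.2.trans e'.2.symm)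
    by_cases e : i < q
    · refine class_low hinv hlab c1 c2 c3 c4 (fun t ht => ?_)
        (Or.inr fun t ht => (hW i t ht).2.2.1 (by omega))
      have := (hm t ht).resolve_left fun j => by have := hYm i t j; omega
      exact (f2 t this.1).1 (by omega)
    by_cases e' : l - q ≤ i
    · refine class_high hinv hlab c1 c2 c3 c4 (fun t ht => ?_)
        (Or.inr fun t ht => (hW i t ht).2.2.2 (by omega))
      have := (hm t ht).resolve_left fun j => by have := hYm i t j; omega
      exact (f2 t this.1).2 (by omega)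
    · refine class_mid hinv hlab c1 c2 c3 c4
        (fun t ht => ⟨(hW i t ht).2.2.2 (by omega), (hW i t ht).2.2.1 (by omega)⟩) fun _ t ht => ?_
      rcases hm t (mem_union_right _ ht) with j | j
      · exact Or.inl (mem_unt.1 (hYm i t j).1).1
      · exact Or.inr ((f2 t j.1).2 (by omega))
  · have h1 := sum_fiber (W.filter fun x => ¬ P x) f fun v _ => f1 v
    have h2 := card_filter_add_card_filter_not (s := W) P
    exact_mod_cast (show ∑ i ∈ range l, (Wc i).card + (W.filter P).card = W.card by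
      simp only [Wc]; omega)
  · have h1 := sum_lev (adj := adj) (col := col) (a := a) (N := W ∪ Z) (X := Z) f1
    have h2 := sum_ite_w (l := l) (G := Ico q (l - q)) (fun i hi => by
      rw [mem_Ico] at hi; rw [mem_range]; omega) Y fun _ => 1
    have h3 : ∀ i ∈ range l, ((Lev adj col a (W ∪ Z) Z f i ∪ Yc i).card : ℝ) =
        (Lev adj col a (W ∪ Z) Z f i).card + (Yc i).card := fun i _ => by
      rw [card_union_of_disjoint (disjoint_left.2 fun x hx k =>
        not_or.2 (mem_unt.1 (hYm i x k).1).2 (mem_lev.1 hx).2.1), Nat.cast_add]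
    simp only [sum_const, nsmul_eq_mul, mul_one] at h2
    rw [Nat.card_Ico, show l - q - q = l - 2 * q by omega, Nat.cast_sub hq] at h2
    have h4 : ∑ i ∈ range l, ((Lev adj col a (W ∪ Z) Z f i).card : ℝ) +
        (Unt adj col a (W ∪ Z) Z).card = Z.card := by exact_mod_cast h1
    rw [sum_congr rfl h3, sum_add_distrib, h2]
    push_cast
    linarith
  · refine ⟨fun x => if ¬ OutA adj col a W x ∧ f x < l - q then Ico (l - q) l else
      if ¬ InA adj col a W x ∧ q ≤ f x then range q else {f x}, fun x => ?_, fun x => ?_,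
      fun x hx => ?_, fun u hu v hv k => ?_⟩
    · simp only
      split_ifs
      · exact fun i hi => mem_range.2 (mem_Ico.1 hi).2
      · exact range_subset_range.2 (by omega)
      · simpa using f1 x
    · simp only
      split_ifs
      · rw [Nat.card_Ico]; omega
      · rwa [card_range]
      · simp
    · simp only
      split_ifs with e e'
      · rw [Nat.card_Ico]; omega
      · rw [card_range]
      · exact absurd (mem_filter.1 hx).2 (not_or.2 ⟨e, e'⟩)
    · have k1 : OutA adj col a W u := ⟨v, hv, k⟩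
      have k2 : InA adj col a W v := ⟨u, hu, k⟩
      have k3 := f4 u hu v hv k
      have k4 := f3 u (mem_union_left _ hu) v (mem_union_left _ hv) k
      simp only [k1, k2, not_true, false_and, if_false]
      rw [disjoint_left]
      intro i h1 h2
      split_ifs at h1 h2 with e e' e'
      · rw [mem_range] at h1; rw [mem_Ico] at h2; omega
      · have := k3 (Or.inl e.1)
        rw [mem_range] at h1; rw [mem_singleton] at h2; omega
      · have := k3 (Or.inr e'.1)
        rw [mem_singleton] at h1; rw [mem_Ico] at h2; omega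
      · rw [mem_singleton] at h1 h2; omega

/-- The rooted bound for sets with a core of size `l ^ 10`. -/
def XC (adj : V → V → Prop) (col : V → V → C) (l K e : ℕ) (x : ℝ) : Prop :=
  ∀ (c : ℕ) (N : Finset V) (lab : V → Option C) (R : Finset C), c ≤ K → c + e = R.card + 10 →
    Core adj col N R (l ^ 10) → Rt adj col lab c N → (N.card : ℝ) ≤ x * l ^ c

theorem XC.zero {l K : ℕ} (hGR : GR adj col l) : XC adj col l K 0 1 := by
  intro c N lab R _ h1 h2 _
  have := kraft_sum hGR (fun _ => ∅) R N h2 (by simp)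
  simp only [empty_inter, card_empty, pow_zero, sum_const, smul_eq_mul, mul_one] at this
  rw [← pow_add, ← h1, add_zero] at this
  rw [one_mul]
  exact_mod_cast this

theorem rq_arith {l T t i w z L b sy sz sd : ℝ} (hl : 8 ≤ l) (hT : 1 ≤ T) (ht : 0 ≤ t)
    (htT : t + 1 ≤ T) (hi : i = 46 * T + t + 1) (hw : 0 ≤ w) (hz : 0 ≤ z) (hL : 0 ≤ L)
    (h1 : w ≤ sy) (h2 : sz ≤ 23 * z + L / l ^ 2) (h4 : sd ≤ 23 * w + L / l ^ 2)
    (h3 : i * (t / (72 * T) * w + 4 / l * (1 - t / (2 * T)) * z) + sy - t / (72 * T) * sd -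
      4 / l * (1 - t / (2 * T)) * sz ≤ i * b) :
    (t + 1) / (72 * T) * w + 4 / l * (1 - (t + 1) / (2 * T)) * z ≤ b + L / T := by
  have hT0 : 0 < T := by linarith
  have hl0 : 0 < l := by linarith
  have hi0 : 0 < i := by linarith
  set α := t / (72 * T) with hα
  have a0 : 0 ≤ α := by positivity
  have a1 : α ≤ 1 / 72 := by
    rw [hα, div_le_div_iff₀ (by linarith) (by norm_num)]; linarith
  have a2 : 0 ≤ t / (2 * T) := by positivity
  have a3 : t / (2 * T) ≤ 1 := by
    rw [div_le_one (by linarith)]; linarith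
  set ω := 4 / l * (1 - t / (2 * T)) with hω
  have a4 : 0 ≤ ω := mul_nonneg (by positivity) (by linarith)
  have a5 : ω ≤ 4 / l := by
    have : 0 ≤ 4 / l := by positivity
    nlinarith
  have b1 : i * (1 / (72 * T) * w) ≤ (1 - 23 * α) * w := by
    have : i * (1 / (72 * T)) ≤ 47 / 72 := by
      rw [mul_one_div, div_le_div_iff₀ (by linarith) (by norm_num)]; linarith
    nlinarith
  have b2 : ω * (23 * z) ≤ i * (4 / l * (1 / (2 * T)) * z) := by
    have k1 : 23 ≤ i * (1 / (2 * T)) := by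
      rw [mul_one_div, le_div_iff₀ (by linarith)]; linarith
    have k2 : 0 ≤ 4 / l * z := by positivity
    nlinarith [mul_le_mul_of_nonneg_right a5 hz, mul_le_mul_of_nonneg_right k1 k2]
  have b3 : (α + ω) * (L / l ^ 2) ≤ i * (L / T) := by
    have k1 : L / l ^ 2 ≤ L := div_le_self hL (by nlinarith)
    have k2 : 4 / l ≤ 1 / 2 := by rw [div_le_div_iff₀ hl0 (by norm_num)]; linarith
    have k3 : 0 ≤ L / l ^ 2 := by positivity
    have k4 : L ≤ i * (L / T) := by
      rw [← mul_div_assoc, le_div_iff₀ hT0]; nlinarith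
    nlinarith
  have b4 := mul_le_mul_of_nonneg_left h2 a4
  have b5 := mul_le_mul_of_nonneg_left h4 a0
  apply le_of_mul_le_mul_left _ hi0
  have e : i * ((t + 1) / (72 * T) * w + 4 / l * (1 - (t + 1) / (2 * T)) * z) =
      i * (α * w + ω * z) + i * (1 / (72 * T) * w) - i * (4 / l * (1 / (2 * T)) * z) := by
    rw [hω, hα]; ring
  rw [e]
  nlinarith

theorem rq {l K e T c : ℕ} {τ : ℝ} (hGR : GR adj col l) (hl : 40 ≤ l) (he : e ≤ 8) (hT : 1 ≤ T)
    (hc : c + T ≤ K) (hX : XC adj col l K e τ) :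
    ∀ t ≤ T, ∀ (W Z : Finset V) (lab : V → Option C) (R I : Finset C), I ⊆ R →
      I.card = 46 * T + t → c + t + e + 1 = R.card + 10 → Core adj col (W ∪ Z) R (l ^ 10) →
      Disjoint W Z → Inv adj col lab (c + t) True W Z → (∀ x ∈ W ∪ Z, ∀ a ∈ I, lab x ≠ some a) →
      (∀ x ∈ W, ∃ a ∈ I, ¬ InA adj col a (W ∪ Z) x ∧ ¬ OutA adj col a (W ∪ Z) x) →
      (t : ℝ) / (72 * T) * W.card + 4 / l * (1 - t / (2 * T)) * Z.card ≤
        l ^ (c + t) * (4 * τ + t / T) := by
  have hl' : (40 : ℝ) ≤ l := by exact_mod_cast hl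
  have hl0 : (0 : ℝ) < l := by linarith
  have hT' : (1 : ℝ) ≤ T := by exact_mod_cast hT
  have q2 : 4 * ((l / 4 : ℕ) : ℝ) ≤ l := by exact_mod_cast (show 4 * (l / 4) ≤ l by omega)
  intro t
  induction t with
  | zero =>
    intro _ W Z lab R I _ _ h3 h4 _ h6 _ _
    have := hX (c + 1) Z lab R (by omega) (by omega) (h4.mono subset_union_right) h6.rtZ
    simp only [Nat.cast_zero, zero_div, zero_mul, sub_zero, mul_one, zero_add, add_zero]
    rw [div_mul_eq_mul_div, div_le_iff₀ hl0]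
    rw [pow_succ] at this
    linarith
  | succ t ih =>
    intro ht W Z lab R I h1 h2 h3 h4 h5 h6 h7 h8
    have ht' : (t : ℝ) + 1 ≤ T := by exact_mod_cast ht
    have ht0 : (0 : ℝ) ≤ t := Nat.cast_nonneg _
    set ω : ℝ := 4 / l * (1 - t / (2 * T)) with hω
    have a3 : (t : ℝ) / (2 * T) ≤ 1 / 2 := by
      rw [div_le_div_iff₀ (by linarith) (by norm_num)]; linarith
    have a4 : 0 ≤ ω := mul_nonneg (by positivity) (by linarith)
    have a6 : 1 ≤ ω * (l - 2 * (l / 4 : ℕ)) := by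
      have : 2 ≤ ω * l := by rw [hω, mul_right_comm, div_mul_cancel₀ _ hl0.ne']; linarith
      nlinarith
    have key : ∀ a, ∃ D : Finset V, a ∈ I → D ⊆ W ∧ (∃ Λ : V → Finset ℕ, (∀ x, Λ x ⊆ range l) ∧
        (∀ x, 1 ≤ (Λ x).card) ∧ (∀ x ∈ D, l / 4 ≤ (Λ x).card) ∧
        ∀ u ∈ W, ∀ v ∈ W, Arc adj col a u v → Disjoint (Λ u) (Λ v)) ∧
        (t : ℝ) / (72 * T) * W.card + ω * Z.card + (Unt adj col a (W ∪ Z) W).card -
        t / (72 * T) * D.card - ω * (Unt adj col a (W ∪ Z) Z).card ≤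
        l * (l ^ (c + t) * (4 * τ + t / T)) := by
      intro a
      by_cases ha : a ∈ I
      swap
      · exact ⟨∅, fun k => absurd k ha⟩
      obtain ⟨Wc, Zc, D, d1, c1, c9, c4, c5, d2⟩ := drop_step hGR (q := l / 4) (by omega) (by omega)
        (a := a) (c := c + t) h5 h6 (fun x hx => h7 x hx a ha)
      refine ⟨D, fun _ => ⟨d1, d2, ?_⟩⟩
      have hR : (R.erase a).card + 1 = R.card := card_erase_add_one (h1 ha)
      have s1 : ∑ i ∈ range l, ((t : ℝ) / (72 * T) * (Wc i).card + ω * (Zc i).card) ≤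
          ∑ _i ∈ range l, (l : ℝ) ^ (c + t) * (4 * τ + t / T) := by
        refine sum_le_sum fun i hi => ?_
        have ci := c1 i (mem_range.1 hi)
        obtain ⟨lab', k1, k2⟩ := ci.inv
        refine ih (by omega) _ _ lab' (R.erase a) (I.erase a) (erase_subset_erase _ h1)
          (by rw [card_erase_of_mem ha, h2]; rfl) (by omega) (h4.erase ci.sub ci.free) ci.disj k1
          ?_ ?_
        · intro x hx b hb
          obtain ⟨y, hy, e⟩ := k2 x hx
          rw [e]
          exact h7 y hy b (mem_of_mem_erase hb)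
        · intro x hx
          obtain ⟨b, b1, b2, b3⟩ := h8 x (ci.subW hx)
          refine ⟨b, mem_erase.2 ⟨?_, b1⟩, fun ⟨u, k, k'⟩ => b2 ⟨u, ci.sub k, k'⟩,
            fun ⟨u, k, k'⟩ => b3 ⟨u, ci.sub k, k'⟩⟩
          rintro rfl
          exact not_or.2 ⟨b2, b3⟩ (c9 i x hx)
      rw [sum_add_distrib, ← mul_sum, ← mul_sum, sum_const, card_range, nsmul_eq_mul,
        eq_sub_of_add_eq c4, eq_sub_of_add_eq c5] at s1
      have hy : (0 : ℝ) ≤ (Unt adj col a (W ∪ Z) W).card := Nat.cast_nonneg _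
      nlinarith [mul_le_mul_of_nonneg_right a6 hy]
    choose D hD using key
    have k1 := sum_le_sum fun a ha => (hD a ha).2.2
    rw [sum_sub_distrib, sum_sub_distrib, sum_add_distrib, ← mul_sum, ← mul_sum, sum_const,
      sum_const, nsmul_eq_mul, nsmul_eq_mul] at k1
    have hΦ : l ^ R.card * l ^ 10 ≤ l ^ (c + t + 1 + 9) := by
      rw [← pow_add]; exact Nat.pow_le_pow_right (by omega) (by omega)
    have k2 := unt_avg hGR (by omega) h1 (subset_union_right (s₁ := W) (s₂ := Z)) h4 hΦ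
    have k4 := box_avg hGR (q := l / 4) (by omega) (by omega)
      (by nlinarith [show l ≤ 4 * (l / 4) + 3 by omega, show 10 ≤ l / 4 by omega]) h1
      (Subset.refl W) (h4.mono subset_union_left) hΦ D (fun a ha => (hD a ha).1)
      fun a ha => (hD a ha).2.1
    have k3 : (W.card : ℝ) ≤ ∑ a ∈ I, ((Unt adj col a (W ∪ Z) W).card : ℝ) := by
      have : W.card ≤ ∑ a ∈ I, (Unt adj col a (W ∪ Z) W).card := by
        refine le_trans (card_le_card ?_) card_biUnion_le
        intro x hx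
        obtain ⟨b, b1, b2⟩ := h8 x hx
        exact mem_biUnion.2 ⟨b, b1, mem_unt.2 ⟨hx, b2⟩⟩
      exact_mod_cast this
    have := rq_arith (i := I.card) (by linarith) hT' ht0 ht' (by rw [h2]; push_cast; ring)
      (Nat.cast_nonneg _) (Nat.cast_nonneg _) (by positivity) k3 k2 k4 k1
    push_cast
    refine this.trans (le_of_eq ?_)
    rw [← add_assoc, pow_succ]
    ring

theorem small_loss2 {l K e T c : ℕ} {τ : ℝ} (hGR : GR adj col l) (hl : 40 ≤ l) (he : e ≤ 8)
    (hT : 1 ≤ T) (hτ : 0 ≤ τ) (hX : XC adj col l K e τ) (hc : c ≤ K)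
    {N : Finset V} {lab : V → Option C} {R : Finset C} (hR : 94 * T ≤ R.card)
    (h1 : c + e + 1 = R.card + 10) (h2 : Core adj col N R (l ^ 10)) (h3 : Rt adj col lab c N) :
    ∃ a ∈ R, ((ZA adj col lab N a).card : ℝ) ≤ 300 * (τ + 1) / T * l ^ c := by
  classical
  obtain ⟨R', r1, r2⟩ := exists_subset_card_eq hR
  obtain ⟨I, i1, i2, i3⟩ := subset_avg (j := 47 * T - 1) (R := R') (by omega)
    (ZA adj col lab N) lab (fun a _ x hx => (mem_ZA.1 hx).2.1)
  set U := I.biUnion fun a => (ZA adj col lab N a).filter fun x => ∀ b ∈ I, lab x ≠ some b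
    with hU
  have hUm : ∀ x ∈ U, x ∈ N ∧ ∀ b ∈ I, lab x ≠ some b := by
    intro x hx
    obtain ⟨a, _, k⟩ := mem_biUnion.1 hx
    rw [mem_filter] at k
    exact ⟨(mem_ZA.1 k.1).1, k.2⟩
  have hUN : U ⊆ N := fun x hx => (hUm x hx).1
  have hun : ∀ a ∈ I, ∀ x ∈ ZA adj col lab N a,
      ¬ InA adj col a U x ∧ ¬ OutA adj col a U x := by
    intro a ha x hx
    rw [mem_ZA] at hx
    exact ⟨fun ⟨u, k, k'⟩ => hx.2.2.1 ⟨u, hUN k, k'⟩,
      fun ⟨u, k, k'⟩ => (hUm u k).2 a ha (hx.2.2.2 u (hUN k) k')⟩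
  obtain ⟨c', rfl⟩ : ∃ c', c = c' + T := ⟨c - T, by omega⟩
  have k1 := rq hGR hl he hT hc hX T le_rfl U ∅ lab R I (i1.trans r1) (by omega) h1
    (by rw [union_empty]; exact h2.mono hUN) (disjoint_empty_right _) (h3.mono hUN).inv
    (fun x hx => (hUm x (by simpa using hx)).2) (fun x hx => by
      obtain ⟨a, ha, k⟩ := mem_biUnion.1 hx
      rw [union_empty]
      exact ⟨a, ha, hun a ha x (mem_filter.1 k).1⟩)
  have k2 := unt_avg (n := c' + T) hGR (by omega) (i1.trans r1) (Subset.refl U) (h2.mono hUN)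
    (by rw [← pow_add]; exact Nat.pow_le_pow_right (by omega) (by omega))
  have k3 : ∑ a ∈ I, ((ZA adj col lab N a).filter fun x => ∀ b ∈ I, lab x ≠ some b).card ≤
      ∑ a ∈ I, (Unt adj col a U U).card := by
    refine sum_le_sum fun a ha => card_le_card fun x hx => ?_
    exact mem_unt.2 ⟨mem_biUnion.2 ⟨a, ha, hx⟩, hun a ha x (mem_filter.1 hx).1⟩
  have k4 : ∑ a ∈ R', ((ZA adj col lab N a).card : ℝ) ≤
      4 * ∑ a ∈ I, ((Unt adj col a U U).card : ℝ) := by
    exact_mod_cast i3.trans (Nat.mul_le_mul_left 4 k3)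
  have hl' : (40 : ℝ) ≤ l := by exact_mod_cast hl
  have hT' : (1 : ℝ) ≤ T := by exact_mod_cast hT
  set L : ℝ := l ^ (c' + T) with hL
  have hL0 : 0 ≤ L := by positivity
  have k5 : (T : ℝ) / (72 * T) = 1 / 72 := by field_simp
  have k7 : L / l ^ 2 ≤ L := div_le_self hL0 (by nlinarith)
  rw [k5, card_empty, Nat.cast_zero, mul_zero, add_zero, div_self (by linarith)] at k1
  obtain ⟨a, ha, k8⟩ := exists_le_of_sum_le (s := R') (card_pos.1 (by omega))
    (f := fun a => ((ZA adj col lab N a).card : ℝ)) (g := fun _ => 300 * (τ + 1) / T * L) (by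
      rw [sum_const, r2, nsmul_eq_mul]
      have : ((94 * T : ℕ) : ℝ) * (300 * (τ + 1) / T * L) = 28200 * (τ + 1) * L := by
        push_cast
        field_simp
        ring
      rw [this]
      nlinarith [mul_nonneg hτ hL0])
  exact ⟨a, r1 ha, k8⟩

/-- The harmonic sum of the losses. -/
noncomputable def Ht (n : ℕ) : ℝ := ∑ j ∈ range (n + 1), 188 / (j : ℝ)

theorem Ht_mono {n n' : ℕ} (h : n ≤ n') : Ht n ≤ Ht n' :=
  sum_le_sum_of_subset_of_nonneg (range_subset_range.2 (by omega)) fun _ _ _ => by positivity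

theorem Ht_nonneg (n : ℕ) : 0 ≤ Ht n := sum_nonneg fun _ _ => by positivity

theorem XC.succ {l K e : ℕ} {τ b : ℝ} (hGR : GR adj col l) (hl : 40 ≤ l) (he : e ≤ 8)
    (hτ : 0 ≤ τ) (hX : XC adj col l K e τ)
    (hb : ∀ c ≤ 110, ∀ (N : Finset V) (lab : V → Option C), Rt adj col lab c N →
      (N.card : ℝ) ≤ b * l ^ c) :
    XC adj col l K (e + 1) (b + 300 * (τ + 1) * Ht K) := by
  have key : ∀ (n c : ℕ) (N : Finset V) (lab : V → Option C) (R : Finset C), R.card = n → c ≤ K →
      c + (e + 1) = n + 10 → Core adj col N R (l ^ 10) → Rt adj col lab c N →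
      (N.card : ℝ) ≤ (b + 300 * (τ + 1) * Ht n) * l ^ c := by
    intro n
    have base : ∀ n < 94, ∀ (c : ℕ) (N : Finset V) (lab : V → Option C), c + (e + 1) = n + 10 →
        Rt adj col lab c N → (N.card : ℝ) ≤ (b + 300 * (τ + 1) * Ht n) * l ^ c := by
      intro n hn c N lab h1 h2
      refine (hb c (by omega) N lab h2).trans (mul_le_mul_of_nonneg_right ?_ (by positivity))
      have := Ht_nonneg n
      nlinarith
    induction n with
    | zero => exact fun c N lab R _ _ h1 _ h2 => base 0 (by omega) c N lab h1 h2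
    | succ n ih =>
      intro c N lab R hR hc h1 h2 h3
      by_cases hn : n + 1 < 94
      · exact base _ hn c N lab h1 h3
      obtain ⟨a, ha, k1⟩ := small_loss2 (T := (n + 1) / 94) hGR hl he (by omega)
        hτ hX hc (R := R) (by omega) (by omega) h2 h3
      obtain ⟨c, rfl⟩ : ∃ c', c = c' + 1 := ⟨c - 1, by omega⟩
      obtain ⟨Nc, c1, c2⟩ := cover hGR a h3
      have k2 : ∑ i ∈ range l, ((Nc i).card : ℝ) ≤
          ∑ _i ∈ range l, (b + 300 * (τ + 1) * Ht n) * l ^ c := by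
        refine sum_le_sum fun i _ => ?_
        obtain ⟨q1, q2, lab', q3⟩ := c1 i
        exact ih c _ lab' (R.erase a) (by rw [card_erase_of_mem ha, hR]; rfl) (by omega)
          (by omega) (h2.erase q1 q2) q3
      rw [sum_const, card_range, nsmul_eq_mul] at k2
      have k3 : (N.card : ℝ) ≤ ∑ i ∈ range l, ((Nc i).card : ℝ) + (ZA adj col lab N a).card := by
        exact_mod_cast c2
      have k4 : 1 / (((n + 1) / 94 : ℕ) : ℝ) ≤ 188 / ((n + 1 : ℕ) : ℝ) := by
        rw [div_le_div_iff₀ (by exact_mod_cast (show 0 < (n + 1) / 94 by omega)) (by positivity)]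
        exact_mod_cast (show 1 * (n + 1) ≤ 188 * ((n + 1) / 94) by omega)
      have k5 : Ht (n + 1) = Ht n + 188 / ((n + 1 : ℕ) : ℝ) := sum_range_succ _ _
      rw [div_eq_mul_one_div] at k1
      have k6 := mul_le_mul_of_nonneg_right (mul_le_mul_of_nonneg_left k4
        (show 0 ≤ 300 * (τ + 1) by positivity)) (show (0 : ℝ) ≤ l ^ (c + 1) by positivity)
      rw [k5]
      rw [pow_succ] at k1 k6 ⊢
      nlinarith
  intro c N lab R hc h1 h2 h3
  refine (key _ c N lab R rfl hc h1 h2 h3).trans (mul_le_mul_of_nonneg_right ?_ (by positivity))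
  have := Ht_mono (show R.card ≤ K by omega)
  nlinarith

end Pool.Agent.H31Fed
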