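import Pool.Agent.Lib.MP_fed786_co.H31XP

set_option autoImplicit false

namespace Pool.Agent.H31Fed
open Finset Pool.Agent.H66Fed

variable {V C : Type} [DecidableEq V] [DecidableEq C]
variable {adj : V → V → Prop} {col : V → V → C}

theorem bproc2 {l K r0 J : ℕ} (h : Ctx adj col l K) (hr : r0 ≤ K) (hJ : 1 ≤ J)
    (hJr : 47 * J + 2 ≤ r0) {S S' : Finset V} {R : Finset C} (hS' : S' ⊆ S)
    (hS : ¬ HasP adj col S (r0 + 1)) (hn : l ^ r0 ≤ 8 * S'.card) (hR : R.card + 2 = r0)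
    (hc : Core adj col S' R (l ^ 10)) :
    ∀ t ≤ J, ∃ n, ∃ I ⊆ R, ∃ D ⊆ S', n + t = r0 ∧ Node adj col S r0 n I D ∧
      (1 / 8 * (1 - (t : ℝ) / (2 * J)) - 3 * t / l) * l ^ n ≤ D.card := by
  have hl := h.hl
  have hl' : (8 : ℝ) ≤ l := by exact_mod_cast hl
  intro t
  induction t with
  | zero =>
    intro _
    refine ⟨r0, ∅, empty_subset _, S', Subset.rfl, rfl, Node.top hS' fun k => hS (k.mono hS'), ?_⟩
    have : (l : ℝ) ^ r0 ≤ 8 * S'.card := by exact_mod_cast hn
    simp only [Nat.cast_zero, zero_div, mul_zero, sub_zero, mul_one]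
    linarith
  | succ t ih =>
    intro ht
    obtain ⟨n, I, i1, D, d1, e1, nd, hD⟩ := ih (by omega)
    obtain ⟨n, rfl⟩ : ∃ n', n = n' + 1 := ⟨n - 1, by omega⟩
    have hI := nd.card
    have hRI : (R \ I).card + I.card = R.card := card_sdiff_add_card_eq_card i1
    have k1 := unt_avg (n := n + 1) h.gr (by omega) (Subset.refl (R \ I)) (Subset.refl D)
      (hc.sdiff d1 nd.free) (by rw [← pow_add]; exact Nat.pow_le_pow_right (by omega) (by omega))
    obtain ⟨a, ha, k2⟩ := exists_le_of_sum_le (s := R \ I) (card_pos.1 (by omega))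
      (f := fun a => ((R \ I).card : ℝ) * (Unt adj col a D D).card)
      (g := fun _ => 23 * (D.card : ℝ) + l ^ (n + 1) / l ^ 2) (by
        rw [← mul_sum, sum_const, nsmul_eq_mul]
        exact mul_le_mul_of_nonneg_left k1 (Nat.cast_nonneg _))
    rw [mem_sdiff] at ha
    obtain ⟨f, -, f2⟩ := step_main h.gr (a := a) (zc := True) (disjoint_empty_right D)
      (inv_of_noP nd.no) (by simp)
    obtain ⟨Wc, Zc, c1, -, -, c4, -, -, -, c8, -⟩ := f2 0 (l - 1) (by omega) (by omega)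
    rw [union_empty] at c4
    obtain ⟨j, j1, j2⟩ := exists_max_image (Ioo 0 (l - 1)) (fun i => (Wc i).card)
      ⟨1, mem_Ioo.2 (by omega)⟩
    rw [mem_Ioo] at j1
    have cj := c1 j (by omega)
    have hb : ∀ i < l, ((Wc i).card : ℝ) ≤ l ^ n := fun i hi => by
      exact_mod_cast h.ih' (by omega) (c1 i hi).inv_none.noP
    have k3 := sum_mid_le (by omega) (fun i => ((Wc i).card : ℝ)) (A := (Wc j).card)
      (fun i a b => by exact_mod_cast j2 i (mem_Ioo.2 ⟨a, b⟩)) (hb 0 (by omega))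
      (hb (l - 1) (by omega))
    refine ⟨n, insert a I, insert_subset ha.1 i1, Wc j, cj.subW.trans d1, by omega,
      nd.child ha.2 cj.subW (fun u hu v hv => cj.free u (mem_union_left _ hu) v (mem_union_left _ hv))
        (c8 j j1.1 j1.2) cj.inv_none.noP, ?_⟩
    have k4 : ∑ i ∈ range l, ((Wc i).card : ℝ) + (Unt adj col a D D).card = D.card := by
      exact_mod_cast c4
    rw [pow_succ] at hD k2
    push_cast
    have k5 : 46 * (J : ℝ) ≤ (R \ I).card := by
      exact_mod_cast (show 46 * J ≤ (R \ I).card by omega)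
    have k6 : (0 : ℝ) ≤ l ^ n * l / l ^ 2 := by positivity
    exact bproc_arith (i := 7 / 23 * (R \ I).card) (y := (Unt adj col a D D).card) hl'
      (by exact_mod_cast hJ) (by linarith) (by positivity) (Nat.cast_nonneg _) (Nat.cast_nonneg _)
      (Nat.cast_nonneg _) hD (by linarith) (by linarith)

theorem up_arith2 {l T t i w z y za Q X : ℝ} (hl : 8 ≤ l) (hT : 1 ≤ T) (ht : 0 ≤ t)
    (htT : t + 1 ≤ T) (hi : 46 * T ≤ i) (hz : 0 ≤ z) (hy : 0 ≤ y) (hQ : 0 ≤ Q)
    (h1 : i * za ≤ 23 * z + Q)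
    (h2 : w - y + 4 / l * (1 - t / (2 * T)) * (z - za + (l - 2) * y) ≤ X) :
    w + 4 / l * (1 - (t + 1) / (2 * T)) * z ≤ X + Q := by
  have hT0 : 0 < T := by linarith
  have hl0 : 0 < l := by linarith
  have a2 : 0 ≤ t / (2 * T) := by positivity
  have a3 : t / (2 * T) ≤ 1 / 2 := by
    rw [div_le_div_iff₀ (by linarith) (by norm_num)]; linarith
  set ω := 4 / l * (1 - t / (2 * T)) with hω
  have a4 : 0 ≤ ω := mul_nonneg (by positivity) (by linarith)
  have a5 : ω ≤ 4 / l := by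
    have : 0 ≤ 4 / l := by positivity
    nlinarith
  have a6 : 4 / l ≤ 1 := by rw [div_le_one hl0]; linarith
  have a7 : 1 ≤ ω * (l - 2) := by
    have : 2 ≤ ω * l := by rw [hω, mul_right_comm, div_mul_cancel₀ _ hl0.ne']; linarith
    have : ω * l ≤ 4 := by rw [hω, mul_right_comm, div_mul_cancel₀ _ hl0.ne']; linarith
    nlinarith
  have a8 : za ≤ z / (2 * T) + Q := by
    apply le_of_mul_le_mul_left _ (show 0 < i by linarith)
    have : 23 * z ≤ i * (z / (2 * T)) := by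
      rw [← mul_div_assoc, le_div_iff₀ (by linarith)]
      nlinarith
    nlinarith
  have a9 : 0 ≤ z / (2 * T) := by positivity
  have e : 4 / l * (1 - (t + 1) / (2 * T)) * z = ω * z - 4 / l * (z / (2 * T)) := by
    rw [hω]; ring
  rw [e]
  nlinarith [mul_le_mul_of_nonneg_left a8 a4, mul_le_mul_of_nonneg_right a5 a9,
    mul_le_mul_of_nonneg_right (a5.trans a6) hQ, mul_le_mul_of_nonneg_right a7 hy]

theorem up2 {l K r T d : ℕ} {F θ : ℝ} (h : Ctx adj col l K) (hF : RB adj col l K F)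
    (hF' : RB (flip adj) (flip col) l K F) (hFl : 100 * (F + 2) ≤ l) (hF0 : 0 ≤ F)
    (hθ : 1 / 2 ≤ θ) (hT : 1 ≤ T) (hr : r + T ≤ K) (hd : d + 46 * T = r)
    {S : Finset V} {I : Finset C} (hI : I.card = 47 * T) (hc : Core adj col S I (l ^ (d + 5)))
    (hZ : ∀ I' ⊆ I, ∀ c < r + T, c + I'.card = r + T → ∀ Z ⊆ S, FreeS adj col I' Z →
      ¬ HasP adj col Z (c + 2) → (Z.card : ℝ) ≤ (2 * F + 1) * l ^ c)
    (hP : ∀ W, ¬ HasP adj col W (r + 1) → (W.card : ℝ) ≤ θ * l ^ r ∨ Str adj col l W r) :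
    ∀ t ≤ T, ∀ (W Z : Finset V) (I' : Finset C), I' ⊆ I → I'.card + t = T → W ∪ Z ⊆ S →
      FreeS adj col I' (W ∪ Z) → Disjoint W Z → Inv adj col (fun _ => none) (r + t) True W Z →
      (Z.card : ℝ) ≤ (2 * F + 1) * l ^ (r + t) →
      (W.card : ℝ) + 4 / l * (1 - t / (2 * T)) * Z.card ≤
        l ^ (r + t) * (θ + 4 * (2 * F + 1) / l + t * (16 * F + 9) / l ^ 2) ∨
      Str adj col l W (r + t) := by
  have hl := h.hl
  have hl' : (8 : ℝ) ≤ l := by exact_mod_cast hl
  have hl0 : (0 : ℝ) < l := by linarith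
  have hT' : (1 : ℝ) ≤ T := by exact_mod_cast hT
  have small : ∀ (t : ℕ) (W Z : Finset V), (W.card : ℝ) ≤ θ * l ^ (r + t) →
      (Z.card : ℝ) ≤ (2 * F + 1) * l ^ (r + t) →
      (W.card : ℝ) + 4 / l * (1 - t / (2 * T)) * Z.card ≤
        l ^ (r + t) * (θ + 4 * (2 * F + 1) / l + t * (16 * F + 9) / l ^ 2) := by
    intro t W Z k1 k2
    have k3 := mul_le_mul_of_nonneg_left k2 (show (0 : ℝ) ≤ 4 / l by positivity)
    have k4 : (0 : ℝ) ≤ 4 / l * (t / (2 * T)) * Z.card := by positivity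
    have k5 : (0 : ℝ) ≤ l ^ (r + t) * (t * (16 * F + 9) / l ^ 2) := by positivity
    have e : (l : ℝ) ^ (r + t) * (4 * (2 * F + 1) / l) = 4 / l * ((2 * F + 1) * l ^ (r + t)) := by
      ring
    linarith
  intro t
  induction t with
  | zero => exact fun _ W Z I' _ _ _ _ _ h6 h7 => (hP W h6.noP).imp (fun k => small 0 W Z k h7) id
  | succ t ih =>
    intro ht W Z I' h1 h2 h3 h4 h5 h6 h7
    by_cases hW : (W.card : ℝ) ≤ θ * l ^ (r + (t + 1))
    · exact Or.inl (small _ W Z hW h7)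
    have ht' : (t : ℝ) + 1 ≤ T := by exact_mod_cast ht
    have ht0 : (0 : ℝ) ≤ t := Nat.cast_nonneg _
    have hII : (I \ I').card + I'.card = I.card := card_sdiff_add_card_eq_card h1
    have k1 := unt_avg (n := r + t + 1) h.gr (by omega) (Subset.refl (I \ I'))
      (subset_union_right (s₁ := W) (s₂ := Z)) (hc.sdiff h3 h4)
      (by rw [← pow_add]; exact Nat.pow_le_pow_right (by omega) (by omega))
    obtain ⟨a, ha, k2⟩ := exists_le_of_sum_le (s := I \ I') (card_pos.1 (by omega))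
      (f := fun a => ((I \ I').card : ℝ) * (Unt adj col a (W ∪ Z) Z).card)
      (g := fun _ => 23 * (Z.card : ℝ) + l ^ (r + t + 1) / l ^ 2) (by
        rw [← mul_sum, sum_const, nsmul_eq_mul]
        exact mul_le_mul_of_nonneg_left k1 (Nat.cast_nonneg _))
    rw [mem_sdiff] at ha
    obtain ⟨f, -, f2⟩ := step_main h.gr (a := a) (c := r + t) h5 h6 (by simp)
    obtain ⟨Wc, Zc, c1, c2, c3, c4, c5, -⟩ := f2 0 (l - 1) (by omega) (by omega)
    have hca : (insert a I').card = I'.card + 1 := card_insert_of_notMem ha.2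
    have hz := hZ (insert a I') (insert_subset ha.1 h1) (r + t) (by omega) (by omega)
    have s0 : ∀ X Y, Child adj col a (fun _ => none) (r + t) True W Z X Y →
        (Y.card : ℝ) ≤ (2 * F + 1) * l ^ (r + t) := fun X Y ci => hz Y (ci.subZ.trans h3)
      ((h4.insert ci.free ci.sub).mono Subset.rfl subset_union_right) ci.inv_none.noPZ
    by_cases hs : ∃ i < l, Str adj col l (Wc i) (r + t)
    · obtain ⟨i, hi, hs⟩ := hs
      have ci := c1 i hi
      obtain ⟨c, e⟩ : ∃ c, r + t = c + 1 := ⟨r + t - 1, by omega⟩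
      have hYW : Unt adj col a (W ∪ Z) W ⊆ W := fun x hx => (mem_unt.1 hx).1
      have hY := hz (Unt adj col a (W ∪ Z) W) (hYW.trans (subset_union_left.trans h3))
        (h4.insert (fun u hu v hv k k' => (mem_unt.1 hu).2.2 ⟨v, mem_union_left _ (hYW hv), k, k'⟩)
          (hYW.trans subset_union_left)) fun k => h6.noP (k.mono hYW)
      rw [← add_assoc, e] at h6 hW ⊢
      rw [e] at hs hY
      have hL : (0 : ℝ) ≤ l ^ (c + 1) := by positivity
      refine Or.inr (prop h hF hF' hFl hF0 (by omega) h6 ci.subW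
        (fun u hu v hv => ci.free u (mem_union_left _ hu) v (mem_union_left _ hv)) hs ?_ ?_)
      · have : (l : ℝ) ^ (c + 2) ≤ 2 * W.card := by
          nlinarith [mul_le_mul_of_nonneg_right hθ (show (0 : ℝ) ≤ l ^ (c + 1 + 1) by positivity)]
        exact_mod_cast this
      · have : 8 * ((Unt adj col a (W ∪ Z) W).card : ℝ) ≤ l ^ (c + 2) := by
          rw [pow_succ]
          nlinarith [mul_le_mul_of_nonneg_left hFl hL, mul_nonneg hF0 hL]
        exact_mod_cast this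
    left
    set ω : ℝ := 4 / l * (1 - t / (2 * T)) with hω
    have a3 : (t : ℝ) / (2 * T) ≤ 1 / 2 := by
      rw [div_le_div_iff₀ (by linarith) (by norm_num)]; linarith
    have a2 : 0 ≤ (t : ℝ) / (2 * T) := by positivity
    have a4 : 0 ≤ ω := mul_nonneg (by positivity) (by linarith)
    have a5 : ω ≤ 4 / l := by
      have : (0 : ℝ) ≤ 4 / l := by positivity
      nlinarith
    have s1 : ∑ i ∈ range l, (((Wc i).card : ℝ) + ω * (Zc i).card) ≤ ∑ _i ∈ range l,
        (l : ℝ) ^ (r + t) * (θ + 4 * (2 * F + 1) / l + t * (16 * F + 9) / l ^ 2) := by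
      refine sum_le_sum fun i hi => ?_
      have ci := c1 i (mem_range.1 hi)
      exact (ih (by omega) _ _ (insert a I') (insert_subset ha.1 h1) (by omega)
        (ci.sub.trans h3) (h4.insert ci.free ci.sub) ci.disj ci.inv_none (s0 _ _ ci)).resolve_right
        fun k => hs ⟨i, mem_range.1 hi, k⟩
    have s3 := mul_le_mul a5 (s0 _ _ c2) (Nat.cast_nonneg _) (by positivity)
    have s4 := mul_le_mul a5 (s0 _ _ c3) (Nat.cast_nonneg _) (by positivity)
    rw [sum_add_distrib, ← mul_sum, ← Nat.cast_sum, ← Nat.cast_sum, sum_const, card_range,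
      nsmul_eq_mul] at s1
    rw [if_pos trivial, add_zero] at c5
    have e1 : ((∑ i ∈ range l, (Wc i).card : ℕ) : ℝ) =
        W.card - (Unt adj col a (W ∪ Z) W).card := by
      rw [← c4]; push_cast; ring
    have e2 : ((∑ i ∈ range l, (Zc i).card : ℕ) : ℝ) = Z.card +
        (l - 2) * (Unt adj col a (W ∪ Z) W).card - (Lev adj col a (W ∪ Z) Z f 0).card -
        (Lev adj col a (W ∪ Z) Z f (l - 1)).card - (Unt adj col a (W ∪ Z) Z).card := by
      have k : ((l - 1 - 0 - 1 : ℕ) : ℝ) = l - 2 := by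
        rw [show l - 1 - 0 - 1 = l - 2 by omega, Nat.cast_sub (by omega)]; rfl
      have := congrArg (Nat.cast : ℕ → ℝ) c5
      rw [Nat.cast_add, Nat.cast_add, Nat.cast_add, Nat.cast_add, Nat.cast_mul, k] at this
      linarith
    rw [e1, e2] at s1
    have := up_arith2 (i := (I \ I').card) (w := W.card) (y := (Unt adj col a (W ∪ Z) W).card)
      (X := l * (l ^ (r + t) * (θ + 4 * (2 * F + 1) / l + t * (16 * F + 9) / l ^ 2)) +
        2 * (4 / l * ((2 * F + 1) * l ^ (r + t)))) hl' hT' ht0 ht'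
      (by exact_mod_cast (show 46 * T ≤ (I \ I').card by omega)) (Nat.cast_nonneg _)
      (Nat.cast_nonneg _) (by positivity) k2 (by rw [← hω]; linarith)
    push_cast
    refine this.trans (le_of_eq ?_)
    rw [← add_assoc, pow_succ]
    field_simp
    ring

theorem block2 {l K r T : ℕ} {F θ : ℝ} (h : Ctx adj col l K) (hK : K ≤ l ^ 2)
    (hF : RB adj col l K F) (hF' : RB (flip adj) (flip col) l K F) (hFl : 100 * (F + 2) ≤ l)
    (hF0 : 0 ≤ F) (hθ : 1 / 2 ≤ θ) (hT : 1 ≤ T) (hr : r + T ≤ K) (hrT : 2209 * T + 2 ≤ r + T)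
    (hTl : 2300 * T ≤ l) {S : Finset V} (hno : ¬ HasP adj col S (r + T + 1))
    (hP : ∀ W, ¬ HasP adj col W (r + 1) → (W.card : ℝ) ≤ θ * l ^ r ∨ Str adj col l W r)
    (hn : l ^ (r + T) < 2 * S.card) :
    (S.card : ℝ) ≤ l ^ (r + T) * (θ + 4 * (2 * F + 1) / l + T * (16 * F + 9) / l ^ 2) ∨
      Str adj col l S (r + T) := by
  classical
  have hl : 2300 ≤ l := by omega
  have hl' : (2300 : ℝ) ≤ l := by exact_mod_cast hl
  obtain ⟨q, hq⟩ : ∃ q, r + T = q + 10 := ⟨r + T - 10, by omega⟩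
  obtain ⟨S', s1, R, s2, s3, s4, s5⟩ := core_extract3 (q := q) h (by omega) hK (by omega)
    (S := S) (by rwa [hq] at hno) (by
      rw [hq, pow_succ] at hn
      nlinarith [Nat.zero_le (l ^ (q + 9))])
  obtain ⟨n, I, -, D, d1, e1, dn, hD⟩ := bproc2 h hr (J := 47 * T) (by omega) (by omega) s1 hno
    (by omega) (by omega) s4 (47 * T) le_rfl
  obtain ⟨w, hw⟩ : D.Nonempty := by
    rw [← card_pos, ← Nat.cast_pos (α := ℝ)]
    refine lt_of_lt_of_le (mul_pos ?_ (by positivity)) hD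
    have hT' : (1 : ℝ) ≤ T := by exact_mod_cast hT
    have k1 : ((47 * T : ℕ) : ℝ) / (2 * (47 * T : ℕ)) = 1 / 2 := by
      push_cast; field_simp
    have k2 : 3 * ((47 * T : ℕ) : ℝ) / l < 1 / 16 := by
      rw [div_lt_div_iff₀ (by linarith) (by norm_num)]
      have : 2256 * T < l := by omega
      have : ((2256 * T : ℕ) : ℝ) < l := by exact_mod_cast this
      push_cast at this ⊢
      linarith
    rw [k1]; linarith
  have hI : I.card = 47 * T := by have := dn.card; omega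
  have p1 : ∀ Y ⊆ I, ∃ s Q, RPath adj col s w Q Y ∧ Q ⊆ S := fun Y hY => by
    obtain ⟨s, Q, k1, k2, -⟩ := dn.her w hw Y hY
    exact ⟨s, Q, k1, k2⟩
  have p2 : ∀ Y ⊆ I, ∃ s Q, RPath (flip adj) (flip col) s w Q Y ∧ Q ⊆ S := fun Y hY => by
    obtain ⟨s, Q, k1, k2, -⟩ := dn.her' w hw Y hY
    exact ⟨s, Q, k1, k2⟩
  have hno' : ¬ HasP (flip adj) (flip col) S (r + T + 1) := fun k => hno k.of_reverse
  have hJ : 2 * (47 * T + 1) ^ 2 + 1 ≤ l ^ 2 := by nlinarith
  have := up2 (d := n) h hF hF' hFl hF0 hθ hT hr (by omega) hI (S := S) ?_ ?_ hP T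
    le_rfl S ∅ ∅ (empty_subset _) (by simp) (by simp) (fun _ _ _ _ _ => notMem_empty _)
    (disjoint_empty_right _) (inv_of_noP hno) (by rw [card_empty, Nat.cast_zero]; positivity)
  · simpa using this
  · intro L hL hf
    have e : n + I.card = r + T := by omega
    have k1 := core_half h (c := n) (by omega) (by rwa [e]) p2
      (by rw [e, hq]; exact (s5 w (d1 hw)).2) hL hf
    have k2 := core_half h.flip (c := n) (by omega) (by rwa [e]) p1
      (by rw [e, hq]; exact (s5 w (d1 hw)).1) hL hf.flip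
    have k3 := split_at h.hT L w
    rw [e, hI] at k1 k2
    have a1 : 1 ≤ l ^ n := Nat.one_le_pow _ _ h.pos
    have a2 : r + T + 1 ≤ 2 * l ^ 2 := by omega
    have a3 : (r + T + 1) * l ^ n ≤ 2 * (l ^ 2 * l ^ n) :=
      (Nat.mul_le_mul_right _ a2).trans (le_of_eq (by ring))
    have a4 : l ^ 2 ≤ l ^ 2 * l ^ n := Nat.le_mul_of_pos_right _ a1
    have a6 : 20 * (l ^ 2 * l ^ n) ≤ l ^ (n + 5) := by
      have : 20 ≤ l ^ 3 := le_trans (by omega) (Nat.le_self_pow (by omega) l)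
      calc 20 * (l ^ 2 * l ^ n) ≤ l ^ 3 * (l ^ 2 * l ^ n) := Nat.mul_le_mul_right _ this
        _ = _ := by ring
    omega
  · intro I' hI' c hc e Z hZ hf hz
    have k1 := zb_half hF (by omega) (by rwa [e]) (fun Y hY => p2 Y (hY.trans hI')) hZ hf hz
    have k2 := zb_half hF' (by omega) (by rwa [e]) (fun Y hY => p1 Y (hY.trans hI')) hZ hf.flip
      (fun k => hz k.of_reverse)
    have k3 : (Z.card : ℝ) ≤ (Z.filter fun t => adj t w).card +
        (Z.filter fun t => flip adj t w).card + 1 := by exact_mod_cast split_at h.hT Z w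
    have k4 := card_le_card hI'
    have k5 : 2 * (I'.card + 1) ^ 2 + 1 ≤ l ^ c := by
      have := Nat.pow_le_pow_left (show I'.card + 1 ≤ 47 * T + 1 by omega) 2
      have := Nat.pow_le_pow_right h.pos (show 2 ≤ c by omega)
      omega
    have k6 : 2 * ((I'.card : ℝ) + 1) ^ 2 + 1 ≤ l ^ c := by exact_mod_cast k5
    linarith

theorem Ht_step (r n : ℕ) : ∀ T, r + T ≤ n → Ht r + T * (188 / (n : ℝ)) ≤ Ht (r + T)
  | 0, _ => by simp
  | T + 1, h => by
    have h1 := Ht_step r n T (by omega)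
    have h2 : Ht (r + (T + 1)) = Ht (r + T) + 188 / ((r + T + 1 : ℕ) : ℝ) := sum_range_succ _ _
    have h3 : 188 / (n : ℝ) ≤ 188 / ((r + T + 1 : ℕ) : ℝ) :=
      div_le_div_of_nonneg_left (by norm_num) (by positivity) (by exact_mod_cast h)
    push_cast at h2 h3 ⊢
    linarith

theorem chain2 {l K : ℕ} {F : ℝ} (h : Ctx adj col l K) (hK : K ≤ l ^ 2)
    (hF : RB adj col l K F) (hF' : RB (flip adj) (flip col) l K F) (hFl : 100 * (F + 2) ≤ l)
    (hF0 : 0 ≤ F) (hl : 10 ^ 9 ≤ l) : ∀ r, 1 ≤ r → r ≤ K → ∀ W, ¬ HasP adj col W (r + 1) →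
      (W.card : ℝ) ≤ (1 / 2 + 108 * (2 * F + 1) / l * Ht r + r * (40016 * F + 20009) / l ^ 2) *
        l ^ r ∨ Str adj col l W r := by
  have hl' : (10 : ℝ) ^ 9 ≤ l := by exact_mod_cast hl
  have hl0 : (0 : ℝ) < l := by linarith
  have h0 : ∀ r : ℕ, (1 : ℝ) / 2 ≤
      1 / 2 + 108 * (2 * F + 1) / l * Ht r + r * (40016 * F + 20009) / l ^ 2 := fun r => by
    have := Ht_nonneg r
    rw [add_assoc]
    exact le_add_of_nonneg_right (by positivity)
  intro r
  induction r using Nat.strong_induction_on with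
  | _ r ih =>
    intro h1 h2 W hno
    by_cases hW : l ^ r < 2 * W.card
    swap
    · have k1 : 2 * (W.card : ℝ) ≤ l ^ r := by exact_mod_cast not_lt.1 hW
      have k2 := mul_le_mul_of_nonneg_right (h0 r) (show (0 : ℝ) ≤ l ^ r by positivity)
      exact Or.inl (by linarith)
    by_cases hr : r ≤ 4000
    · obtain ⟨r, rfl⟩ : ∃ r', r = r' + 1 := ⟨r - 1, by omega⟩
      exact Or.inr (bottom2 h h2 hno
        ((Nat.mul_le_mul_left 60 (Nat.pow_le_pow_left hr 2)).trans (by omega)) hW)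
    obtain ⟨T, t1, t2, t3, t4⟩ : ∃ T, 1 ≤ T ∧ 2209 * T + 2 ≤ r ∧ 2300 * T ≤ l ∧
        (r ≤ 5000 * T ∨ l ≤ 5000 * T) := ⟨min ((r - 2) / 2209) (l / 2300), by omega⟩
    obtain ⟨r, rfl⟩ : ∃ r', r = r' + T := ⟨r - T, by omega⟩
    refine (block2 h hK hF hF' hFl hF0 (h0 r) t1 h2 t2 t3 hno
      (ih r (by omega) (by omega) (by omega)) hW).imp (fun k => k.trans ?_) id
    rw [mul_comm]
    refine mul_le_mul_of_nonneg_right ?_ (by positivity)
    have k1 := Ht_step r (r + T) T le_rfl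
    have k2 : (1 : ℝ) ≤ 27 * (T * (188 / ((r + T : ℕ) : ℝ))) + 5000 * T / l := by
      have q1 : (0 : ℝ) ≤ 27 * (T * (188 / ((r + T : ℕ) : ℝ))) := by positivity
      have q2 : (0 : ℝ) ≤ 5000 * T / l := by positivity
      rcases t4 with e | e
      · refine le_add_of_le_of_nonneg ?_ q2
        have e' : ((r + T : ℕ) : ℝ) ≤ 5000 * T := by exact_mod_cast e
        have : (0 : ℝ) < (r + T : ℕ) := by exact_mod_cast (show 0 < r + T by omega)
        rw [← mul_div_assoc, ← mul_div_assoc, le_div_iff₀ this]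
        linarith
      · refine le_add_of_nonneg_of_le q1 ?_
        rw [le_div_iff₀ hl0, one_mul]
        exact_mod_cast e
    have k3 : (0 : ℝ) ≤ 4 * (2 * F + 1) / l := by positivity
    have e : ((r + T : ℕ) : ℝ) * (40016 * F + 20009) / l ^ 2 = r * (40016 * F + 20009) / l ^ 2 +
        T * (16 * F + 9) / l ^ 2 + 4 * (2 * F + 1) / l * (5000 * T / l) := by
      push_cast
      field_simp
      ring
    have e' : 108 * (2 * F + 1) / (l : ℝ) = 27 * (4 * (2 * F + 1) / l) := by ring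
    rw [e, e']
    nlinarith [mul_le_mul_of_nonneg_left k1 k3, mul_le_mul_of_nonneg_left k2 k3]

theorem final2 {l c μ : ℕ} {F : ℝ} (h : Ctx adj col l (c + 1)) (hK : c + 1 ≤ l ^ 2)
    (hF : RB adj col l (c + 1) F) (hF' : RB (flip adj) (flip col) l (c + 1) F)
    (hFl : 100 * (F + 2) ≤ l) (hF0 : 0 ≤ F) (hl : 10 ^ 9 ≤ l)
    (hfin : 108 * (2 * F + 1) / l * Ht (c + 1) + (c + 1 : ℕ) * (40016 * F + 20009) / l ^ 2 ≤ 1 / 2)
    (hμ : 8 ≤ μ) (hμl : 2 * μ ≤ l)
    (hs : ∑ j ∈ range (c + 1), (8 / (μ * (j + 1 : ℕ)) + 64 * μ / l ^ 2 : ℝ) ≤ 1 / 2)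
    {W : Finset V} (h0 : ¬ HasP adj col W (c + 1 + 1)) : W.card ≤ l ^ (c + 1) := by
  rcases chain2 h hK hF hF' hFl hF0 hl (c + 1) (by omega) le_rfl W h0 with k | k
  · have : (W.card : ℝ) ≤ l ^ (c + 1) :=
      k.trans (mul_le_of_le_one_left (by positivity) (by linarith))
    exact_mod_cast this
  · obtain ⟨A, a1, a2⟩ := top_notwo h hF hF' hFl hF0 h0 k
    exact eg3 h.hT h.gr hμ hμl (by omega) hs a1 h0 a2

end Pool.Agent.H31Fed
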