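import Pool.Agent.Lib.MP_fed786_co.H31XN

set_option autoImplicit false

namespace Pool.Agent.H31Fed
open Finset Pool.Agent.H66Fed

variable {V C : Type} [DecidableEq V] [DecidableEq C]
variable {adj : V → V → Prop} {col : V → V → C}

theorem sel {ι : Type} {p : ℝ} (hp0 : 0 ≤ p) (hp1 : p ≤ 1) (γ : ι → C) (T : ι → Finset C)
    (O : Finset C) : ∀ Y : Finset ι, (∀ y ∈ Y, γ y ∉ T y) → ∃ J ⊆ O,
      ∑ y ∈ Y, (if γ y ∈ O then p else 1) * (1 - p) ^ (T y ∩ O).card ≤
        ((Y.filter fun y => (γ y ∈ O → γ y ∈ J) ∧ Disjoint (T y) J).card : ℝ) := by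
  induction O using Finset.induction_on with
  | empty => exact fun Y _ => ⟨∅, Subset.rfl, by simp⟩
  | insert a O ha ih =>
    intro Y hY
    obtain ⟨JA, a1, a2⟩ := ih (Y.filter fun y => a ∉ T y) fun y hy => hY y (mem_filter.1 hy).1
    obtain ⟨JB, b1, b2⟩ := ih (Y.filter fun y => γ y ≠ a) fun y hy => hY y (mem_filter.1 hy).1
    set π : ι → ℝ := fun y => (if γ y ∈ O then p else 1) * (1 - p) ^ (T y ∩ O).card with hπ
    have key : ∑ y ∈ Y, (if γ y ∈ insert a O then p else 1) * (1 - p) ^ (T y ∩ insert a O).card =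
        p * ∑ y ∈ Y.filter (fun y => a ∉ T y), π y +
          (1 - p) * ∑ y ∈ Y.filter (fun y => γ y ≠ a), π y := by
      rw [sum_filter, sum_filter, mul_sum, mul_sum, ← sum_add_distrib]
      refine sum_congr rfl fun y hy => ?_
      by_cases e : a ∈ T y
      · have e1 : γ y ≠ a := fun k => hY y hy (k ▸ e)
        rw [inter_insert_of_mem e, card_insert_of_notMem fun k => ha (mem_inter.1 k).2]
        simp only [mem_insert, e1, false_or, e, not_true, if_false, ne_eq, not_false_iff, if_true,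
          hπ]
        ring
      · rw [inter_insert_of_notMem e]
        by_cases e1 : γ y = a
        · simp [hπ, e1, e, ha]
        · simp only [mem_insert, e1, false_or, e, ne_eq, not_false_iff, if_true, hπ]
          ring
    rw [key]
    rcases le_total (∑ y ∈ Y.filter (fun y => γ y ≠ a), π y)
      (∑ y ∈ Y.filter (fun y => a ∉ T y), π y) with k | k
    · refine ⟨insert a JA, insert_subset_insert _ a1, le_trans (by nlinarith) (a2.trans ?_)⟩
      refine Nat.cast_le.2 (card_le_card fun y hy => ?_)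
      simp only [mem_filter, mem_insert, disjoint_insert_right] at hy ⊢
      tauto
    · refine ⟨JB, b1.trans (subset_insert _ _), le_trans (by nlinarith) (b2.trans ?_)⟩
      refine Nat.cast_le.2 (card_le_card fun y hy => ?_)
      simp only [mem_filter, mem_insert] at hy ⊢
      tauto

theorem sel' {ι : Type} {h : ℕ} (hh : 1 ≤ h) (γ : ι → C) (T : ι → Finset C) (O : Finset C)
    (Y : Finset ι) (h1 : ∀ y ∈ Y, γ y ∉ T y) (h2 : ∀ y ∈ Y, γ y ∈ O)
    (h3 : ∀ y ∈ Y, (T y).card ≤ h) : ∃ J ⊆ O,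
      Y.card ≤ 4 * h * (Y.filter fun y => γ y ∈ J ∧ Disjoint (T y) J).card := by
  have hh' : (1 : ℝ) ≤ h := by exact_mod_cast hh
  have hp0 : (0 : ℝ) ≤ 1 / (2 * h) := by positivity
  have hp1 : 1 / (2 * (h : ℝ)) ≤ 1 := by rw [div_le_one (by linarith)]; linarith
  obtain ⟨J, j1, j2⟩ := sel hp0 hp1 γ T O Y h1
  refine ⟨J, j1, ?_⟩
  have e : (Y.filter fun y => (γ y ∈ O → γ y ∈ J) ∧ Disjoint (T y) J) =
      Y.filter fun y => γ y ∈ J ∧ Disjoint (T y) J :=
    filter_congr fun y hy => by simp [h2 y hy]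
  rw [e] at j2
  have k : ∑ _y ∈ Y, 1 / (4 * (h : ℝ)) ≤
      ∑ y ∈ Y, (if γ y ∈ O then 1 / (2 * (h : ℝ)) else 1) *
        (1 - 1 / (2 * (h : ℝ))) ^ (T y ∩ O).card := by
    refine sum_le_sum fun y hy => ?_
    rw [if_pos (h2 y hy)]
    have k1 := one_add_mul_le_pow (a := -(1 / (2 * (h : ℝ)))) (by linarith) (T y ∩ O).card
    have k2 : ((T y ∩ O).card : ℝ) ≤ h := by
      exact_mod_cast (card_le_card inter_subset_left).trans (h3 y hy)
    have k3 : (h : ℝ) * (1 / (2 * h)) = 1 / 2 := by field_simp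
    have k4 : 1 / (4 * (h : ℝ)) = 1 / (2 * h) * (1 / 2) := by field_simp; norm_num
    rw [k4, sub_eq_add_neg]
    refine mul_le_mul_of_nonneg_left ?_ hp0
    nlinarith [mul_le_mul_of_nonneg_right k2 hp0]
  rw [sum_const, nsmul_eq_mul, mul_one_div] at k
  have := (div_le_iff₀ (by linarith)).1 (k.trans j2)
  rw [mul_comm] at this
  exact_mod_cast this

theorem small_pow3 {l : ℕ} (hl : 2 ≤ l) (e u : ℕ) :
    l ^ (e + 1) * u ≤ l ^ (e + 1) * e + l ^ u := by
  by_cases h : u ≤ e
  · exact (Nat.mul_le_mul_left _ h).trans (Nat.le_add_right _ _)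
  obtain ⟨j, rfl⟩ : ∃ j, u = e + 1 + j := ⟨u - (e + 1), by omega⟩
  have h1 : j < l ^ j := Nat.lt_pow_self (by omega)
  rw [pow_add l (e + 1) j]
  nlinarith [Nat.mul_le_mul_left (l ^ (e + 1)) (Nat.succ_le_of_lt h1)]

omit [DecidableEq V] in
theorem unt_e {l Φ X : ℕ} (hGR : GR adj col l) (hl : 2 ≤ l) (e : ℕ) {R : Finset C}
    {N Z : Finset V} (hZ : Z ⊆ N) (hc : Core adj col N R Φ)
    (hΦ : l ^ R.card * Φ ≤ l ^ (e + 1) * X) :
    ∑ a ∈ R, (Unt adj col a N Z).card ≤ e * Z.card + X := by
  classical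
  let U : V → Finset C := fun z => R.filter fun a => ¬ InA adj col a N z ∧ ¬ OutA adj col a N z
  have h1 := kraft_sum hGR U R N hc (fun z _ a ha => (mem_filter.1 ha).2)
  have h2 : ∀ z, U z ∩ R = U z := fun z => inter_eq_left.2 (filter_subset _ _)
  simp only [h2] at h1
  have h3 : ∑ a ∈ R, (Unt adj col a N Z).card = ∑ z ∈ Z, (U z).card := by
    have := Finset.sum_card_bipartiteAbove_eq_sum_card_bipartiteBelow
      (fun (a : C) (z : V) => ¬ InA adj col a N z ∧ ¬ OutA adj col a N z) (s := R) (t := Z)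
    simp only [bipartiteAbove, bipartiteBelow] at this
    rw [← this]
    refine sum_congr rfl fun a _ => congrArg card ?_
    ext x; simp [mem_unt]
  rw [h3]
  apply Nat.le_of_mul_le_mul_left _ (show 0 < l ^ (e + 1) by positivity)
  rw [mul_sum, mul_add]
  refine (sum_le_sum fun z _ => small_pow3 hl e (U z).card).trans ?_
  rw [sum_add_distrib, sum_const, smul_eq_mul, mul_comm, mul_assoc]
  exact Nat.add_le_add_left ((sum_le_sum_of_subset hZ).trans (h1.trans hΦ)) _

omit [DecidableEq V] in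
theorem Core.card_le {l Φ : ℕ} (hGR : GR adj col l) {R : Finset C} {N : Finset V}
    (hc : Core adj col N R Φ) : N.card ≤ l ^ R.card * Φ := by
  simpa using kraft_sum hGR (fun _ => ∅) R N hc (by simp)

omit [DecidableEq V] in
theorem Core.sub {l Φ : ℕ} (hGR : GR adj col l) {R I : Finset C} {N : Finset V}
    (hc : Core adj col N R Φ) : Core adj col N I (l ^ (R \ I).card * Φ) :=
  fun _ hL k => (hc.sdiff hL k).card_le hGR

omit [DecidableEq V] in
theorem free_sub {l : ℕ} (hGR : GR adj col l) (I : Finset C) (N : Finset V) :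
    ∃ L ⊆ N, FreeS adj col I L ∧ N.card ≤ l ^ I.card * L.card := by
  classical
  obtain ⟨L, h1, h2⟩ := exists_max_image (N.powerset.filter fun L => FreeS adj col I L) card
    ⟨∅, mem_filter.2 ⟨empty_mem_powerset _, fun u hu => absurd hu (notMem_empty _)⟩⟩
  rw [mem_filter, mem_powerset] at h1
  exact ⟨L, h1.1, h1.2, Core.card_le hGR fun L' k k' => h2 L' (mem_filter.2 ⟨mem_powerset.2 k, k'⟩)⟩

omit [DecidableEq V] [DecidableEq C] in
theorem Core.flip {N : Finset V} {R : Finset C} {Φ : ℕ} (h : Core adj col N R Φ) :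
    Core (flip adj) (flip col) N R Φ := fun L hL k => h L hL k.flip

/-- Labelled sets without a cap on the length of all paths. -/
def Rq (adj : V → V → Prop) (col : V → V → C) (lab : V → Option C) (c : ℕ) (N : Finset V) :
    Prop :=
  ∀ s t S B, RPath adj col s t S B → S ⊆ N →
    (∀ x, lab t = some x → x ∉ B → B.card + 1 ≤ c) ∧ (lab t = none → B.card ≤ c)

theorem Rq.mono {lab : V → Option C} {c : ℕ} {N N' : Finset V} (h : Rq adj col lab c N)
    (h1 : N' ⊆ N) : Rq adj col lab c N' := fun s t S B p k => h s t S B p (k.trans h1)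

theorem rq_class {lab : V → Option C} {c : ℕ} {N N' : Finset V} {a : C}
    (h : Rq adj col lab (c + 1) N) (h1 : N' ⊆ N) (h2 : Fr adj col a N') (σ : V → V)
    (h3 : ∀ t ∈ N', lab t ≠ some a → lab (σ t) ≠ some a ∧
      ((σ t ∈ N ∧ Arc adj col a t (σ t)) ∨ (σ t = t ∧ ∀ s ∈ N', InA adj col a N s))) :
    Rq adj col (fun t => if lab t = some a then none else lab (σ t)) c N' := by
  intro s t S B p hS
  have ha := h2.notMem p hS
  by_cases e : lab t = some a
  · simp only [if_pos e]
    have := (h s t S B p (hS.trans h1)).1 a e ha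
    exact ⟨by simp, fun _ => by omega⟩
  simp only [if_neg e]
  obtain ⟨k0, k⟩ := h3 t (hS p.end_mem) e
  have key : ∃ s' S', RPath adj col s' (σ t) S' (insert a B) ∧ S' ⊆ N := by
    rcases k with ⟨k1, k⟩ | ⟨k1, k⟩
    · have := p.snoc k.1 (fun k' => h2 t (hS p.end_mem) _ (hS k') k.1 k.2) (k.2 ▸ ha)
      rw [k.2] at this
      exact ⟨_, _, this, insert_subset k1 (hS.trans h1)⟩
    · obtain ⟨u, hu, k⟩ := k s (hS p.start_mem)
      have := p.cons k.1 (fun k' => h2 u (hS k') s (hS p.start_mem) k.1 k.2) (k.2 ▸ ha)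
      rw [k.2] at this
      exact ⟨_, _, k1.symm ▸ this, insert_subset hu (hS.trans h1)⟩
  obtain ⟨s', S', q, hq⟩ := key
  have := h _ _ _ _ q hq
  rw [card_insert_of_notMem ha] at this
  refine ⟨fun x k1 k2 => ?_, fun k1 => by have := this.2 k1; omega⟩
  have := this.1 x k1 (by
    intro k3
    rcases mem_insert.1 k3 with k3 | k3
    · exact k0 (k3 ▸ k1)
    · exact k2 k3)
  omega

open Classical in
/-- Vertices lost in the covering step that keeps unlabelled vertices unlabelled. -/
noncomputable def ZB (adj : V → V → Prop) (col : V → V → C) (lab : V → Option C) (N : Finset V)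
    (a : C) : Finset V :=
  N.filter fun x => ¬ InA adj col a N x ∧ lab x ≠ some a ∧
    ∀ v ∈ N, Arc adj col a x v → lab v = some a ∨ (lab x = none ∧ lab v ≠ none)

omit [DecidableEq V] in
theorem mem_ZB {lab : V → Option C} {N : Finset V} {a : C} {x : V} :
    x ∈ ZB adj col lab N a ↔ x ∈ N ∧ ¬ InA adj col a N x ∧ lab x ≠ some a ∧
      ∀ v ∈ N, Arc adj col a x v → lab v = some a ∨ (lab x = none ∧ lab v ≠ none) := by
  classical
  rw [ZB, mem_filter]

theorem cover2 {l : ℕ} (hGR : GR adj col l) {lab : V → Option C} {c : ℕ} {N : Finset V} (a : C)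
    (h : Rq adj col lab (c + 1) N) : ∃ (f : V → ℕ) (lb : ℕ → V → Option C), (∀ v, f v < l) ∧
      ∀ i, Fr adj col a ((N \ ZB adj col lab N a).filter fun x => f x = i) ∧
        Rq adj col (lb i) c ((N \ ZB adj col lab N a).filter fun x => f x = i) ∧
        ∀ x ∈ (N \ ZB adj col lab N a).filter fun x => f x = i,
          ((lab x = none ∨ lab x = some a) → lb i x = none) ∧
          ∀ b, lb i x = some b → b ≠ a ∧ ∃ y ∈ N, lab y = some b := by
  classical
  let zl : V → Prop := fun x => lab x ≠ some a ∧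
    ∀ v ∈ N, Arc adj col a x v → lab v = some a ∨ (lab x = none ∧ lab v ≠ none)
  let ρ : V → ℕ := fun x => if InA adj col a N x then
    (if zl x then (if lab x = none then 2 else 3) else 1) else 0
  obtain ⟨g, g1, g2, g3⟩ := hGR a ρ
  let f : V → ℕ := fun x => if InA adj col a N x then g x else 0
  have hσ : ∀ t, ∃ v, lab t ≠ some a → ¬ zl t →
      v ∈ N ∧ Arc adj col a t v ∧ lab v ≠ some a ∧ (lab t = none → lab v = none) := by
    intro t
    by_cases k : lab t ≠ some a ∧ ¬ zl t
    · obtain ⟨k1, k2⟩ := k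
      simp only [zl, not_and, not_forall, not_or, not_not] at k2
      obtain ⟨v, v1, v2, v3⟩ := k2 k1
      exact ⟨v, fun _ _ => ⟨v1, v2, v3⟩⟩
    · exact ⟨t, fun k1 k2 => absurd ⟨k1, k2⟩ k⟩
  choose σ hσ using hσ
  refine ⟨f, fun i t => if lab t = some a then none else lab (if i = 0 then σ t else t),
    fun v => by have := g1 v; simp only [f]; split_ifs <;> omega, fun i => ?_⟩
  have c1 : ((N \ ZB adj col lab N a).filter fun x => f x = i) ⊆ N :=
    (filter_subset _ _).trans sdiff_subset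
  have c2 : Fr adj col a ((N \ ZB adj col lab N a).filter fun x => f x = i) := by
    intro u hu v hv k k'
    have e := ((mem_filter.1 hu).2).trans (mem_filter.1 hv).2.symm
    have k1 : InA adj col a N v := ⟨u, c1 hu, k, k'⟩
    have k2 := g2 u v k k'
    have k3 := g3 u v k k'
    simp only [f, ρ, k1, if_true] at e k3
    split_ifs at e k3 <;> omega
  have c3 : i = 0 → ∀ t ∈ (N \ ZB adj col lab N a).filter fun x => f x = i, ¬ zl t := by
    intro e t ht z1
    rw [mem_filter, mem_sdiff, mem_ZB] at ht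
    by_cases k1 : InA adj col a N t
    · obtain ⟨u, hu, k2⟩ := id k1
      have k3 := g3 u t k2.1 k2.2
      have k4 := ht.2
      have z2 : zl u → lab u = none ∧ lab t ≠ none := fun k =>
        (k.2 t ht.1.1 k2).resolve_left z1.1
      simp only [f, ρ, k1, z1, if_true] at k3 k4
      by_cases z3 : zl u
      · simp only [z3, (z2 z3).1, (z2 z3).2, if_true, if_false] at k3
        split_ifs at k3 <;> omega
      · simp only [z3, if_false] at k3
        split_ifs at k3 <;> omega
    · exact ht.1.2 ⟨ht.1.1, k1, z1⟩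
  refine ⟨c2, rq_class h c1 c2 (fun t => if i = 0 then σ t else t) fun t ht k => ?_,
    fun x hx => ⟨fun k => ?_, fun b k => ?_⟩⟩
  · by_cases e : i = 0
    · simp only [if_pos e]
      obtain ⟨k1, k2, k3, -⟩ := hσ t k (c3 e t ht)
      exact ⟨k3, Or.inl ⟨k1, k2⟩⟩
    · simp only [if_neg e]
      refine ⟨k, Or.inr ⟨trivial, fun s hs => ?_⟩⟩
      by_contra k1
      have := (mem_filter.1 hs).2
      simp only [f, k1, if_false] at this
      exact e this.symm
  · by_cases e : lab x = some a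
    · simp only [if_pos e]
    · simp only [if_neg e]
      split_ifs with e'
      · exact (hσ x e (c3 e' x hx)).2.2.2 (k.resolve_right e)
      · exact k.resolve_right e
  · by_cases e : lab x = some a
    · simp [e] at k
    · simp only [if_neg e] at k
      split_ifs at k with e'
      · obtain ⟨k1, -, k3, -⟩ := hσ x e (c3 e' x hx)
        exact ⟨fun k4 => k3 (k4 ▸ k), _, k1, k⟩
      · exact ⟨fun k4 => e (k4 ▸ k), x, c1 hx, k⟩

theorem pool_loss {l Φ X : ℕ} (hGR : GR adj col l) (hl : 2 ≤ l) (e : ℕ) {R : Finset C}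
    {N : Finset V} (lab : V → Option C) (hc : Core adj col N R Φ)
    (hΦ : l ^ R.card * Φ ≤ l ^ (e + 1) * X) :
    ∑ a ∈ R, ((ZB adj col lab N a).filter fun x => lab x = none).card ≤
      e * (N.filter fun x => lab x = none).card + X ∧
    ∑ a ∈ R, ((ZB adj col lab N a).filter fun x => ¬ lab x = none).card ≤
      4 * (e * (N.filter fun x => ¬ lab x = none).card + X) := by
  classical
  constructor
  · refine le_trans (sum_le_sum fun a _ => card_le_card fun x hx => ?_)
      (unt_e hGR hl e (Subset.refl (N.filter fun x => lab x = none))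
        (hc.mono (filter_subset _ _)) hΦ)
    rw [mem_filter, mem_ZB] at hx
    refine mem_unt.2 ⟨mem_filter.2 ⟨hx.1.1, hx.2⟩,
      fun ⟨u, k, k'⟩ => hx.1.2.1 ⟨u, (mem_filter.1 k).1, k'⟩, fun ⟨u, k, k'⟩ => ?_⟩
    rw [mem_filter] at k
    rcases hx.1.2.2.2 u k.1 k' with j | j
    · rw [k.2] at j; cases j
    · exact j.2 k.2
  · obtain ⟨J, j1, j2⟩ := sel' (h := 1) le_rfl (fun y : (Σ _ : C, V) => y.1)
      (fun y => (lab y.2).toFinset) R
      (R.sigma fun a => (ZB adj col lab N a).filter fun x => ¬ lab x = none)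
      (fun y hy k => (mem_ZB.1 (mem_filter.1 (mem_sigma.1 hy).2).1).2.2.1
        (Option.mem_toFinset.1 k))
      (fun y hy => (mem_sigma.1 hy).1) (fun y _ => by cases lab y.2 <;> simp)
    rw [card_sigma] at j2
    set U := N.filter fun x => Disjoint (lab x).toFinset J with hU
    have k1 := unt_e hGR hl e (filter_subset (fun x => ¬ lab x = none) U)
      (hc.mono (filter_subset _ _)) hΦ
    rw [← card_sigma] at k1
    have k2 : (U.filter fun x => ¬ lab x = none).card ≤ (N.filter fun x => ¬ lab x = none).card :=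
      card_le_card (filter_subset_filter _ (filter_subset _ _))
    refine j2.trans (Nat.mul_le_mul_left _ (le_trans (card_le_card fun y hy => ?_)
      (k1.trans (Nat.add_le_add_right (Nat.mul_le_mul_left _ k2) _))))
    rw [mem_filter, mem_sigma, mem_filter, mem_ZB] at hy
    obtain ⟨⟨y1, y2, y3⟩, y4, y5⟩ := hy
    refine mem_sigma.2 ⟨y1, mem_unt.2 ⟨mem_filter.2 ⟨mem_filter.2 ⟨y2.1, y5⟩, y3⟩,
      fun ⟨u, k, k'⟩ => y2.2.1 ⟨u, (mem_filter.1 k).1, k'⟩, fun ⟨u, k, k'⟩ => ?_⟩⟩
    rw [hU, mem_filter] at k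
    rcases y2.2.2.2 u k.1 k' with j | j
    · exact disjoint_left.1 k.2 (Option.mem_toFinset.2 j) y4
    · exact y3 j.1

/-- The harmonic sum. -/
noncomputable def Hn (n : ℕ) : ℝ := ∑ j ∈ range n, 1 / ((j + 1 : ℕ) : ℝ)

theorem Hn_mono {n n' : ℕ} (h : n ≤ n') : Hn n ≤ Hn n' :=
  sum_le_sum_of_subset_of_nonneg (range_subset_range.2 h) fun _ _ _ => by positivity

theorem Hn_nonneg (n : ℕ) : 0 ≤ Hn n := sum_nonneg fun _ _ => by positivity

theorem pal_bound {l Φ : ℕ} (hGR : GR adj col l) (hl : 2 ≤ l) (hirr : ∀ v, ¬ adj v v) :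
    ∀ (c : ℕ) (N : Finset V) (lab : V → Option C) (R : Finset C), R.card = c + 1 →
      Core adj col N R Φ → Rq adj col lab c N →
      (N.card : ℝ) ≤ (1 + 5 * Hn (c + 1)) * (l ^ c * Φ) := by
  intro c
  induction c with
  | zero =>
    intro N lab R _ h2 h3
    have : N.card ≤ Φ := by
      refine h2 N Subset.rfl fun u hu v hv k _ => ?_
      have k1 := h3 v v _ _ (RPath.single v) (singleton_subset_iff.2 hv)
      have k2 := h3 u v _ _ ((RPath.single u).snoc k (by
        rw [mem_singleton]; rintro rfl; exact hirr _ k) (notMem_empty _))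
        (insert_subset hv (singleton_subset_iff.2 hu))
      cases e : lab v with
      | none => simpa using k2.2 e
      | some x => simpa using k1.1 x e (notMem_empty _)
    have k : (N.card : ℝ) ≤ Φ := by exact_mod_cast this
    have := Hn_nonneg (0 + 1)
    rw [pow_zero, one_mul]
    nlinarith [mul_nonneg this (Nat.cast_nonneg (α := ℝ) Φ)]
  | succ c ih =>
    intro N lab R h1 h2 h3
    obtain ⟨k1, k2⟩ := pool_loss hGR hl 0 lab h2 (X := l ^ (c + 1) * Φ)
      (by rw [h1]; exact le_of_eq (by ring))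
    have k3 : ∑ a ∈ R, (ZB adj col lab N a).card ≤ 5 * (l ^ (c + 1) * Φ) := by
      rw [sum_congr rfl fun a _ => (card_filter_add_card_filter_not
        (s := ZB adj col lab N a) (fun x => lab x = none)).symm, sum_add_distrib]
      omega
    obtain ⟨a, ha, k4⟩ := exists_min_image R (fun a => (ZB adj col lab N a).card)
      (card_pos.1 (by omega))
    have k5 := (card_nsmul_le_sum R _ _ k4).trans k3
    rw [h1, smul_eq_mul] at k5
    obtain ⟨f, lb, f1, f2⟩ := cover2 hGR a h3
    have k6 : ∑ i ∈ range l, (((N \ ZB adj col lab N a).filter fun x => f x = i).card : ℝ) ≤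
        ∑ _i ∈ range l, (1 + 5 * Hn (c + 1)) * (l ^ c * Φ) :=
      sum_le_sum fun i _ => ih _ (lb i) (R.erase a) (by rw [card_erase_of_mem ha, h1]; rfl)
        (h2.erase ((filter_subset _ _).trans sdiff_subset) (f2 i).1) (f2 i).2.1
    rw [← Nat.cast_sum, sum_fiber _ f fun v _ => f1 v, sum_const, card_range, nsmul_eq_mul] at k6
    have k7 : (N.card : ℝ) ≤ (N \ ZB adj col lab N a).card + (ZB adj col lab N a).card := by
      exact_mod_cast card_le_card_sdiff_add_card
    have k8 : ((ZB adj col lab N a).card : ℝ) ≤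
        1 / ((c + 1 + 1 : ℕ) : ℝ) * (5 * (l ^ (c + 1) * Φ)) := by
      rw [one_div_mul_eq_div, le_div_iff₀ (by positivity), mul_comm]
      exact_mod_cast k5
    have k9 : Hn (c + 1 + 1) = Hn (c + 1) + 1 / ((c + 1 + 1 : ℕ) : ℝ) := sum_range_succ _ _
    rw [k9]
    rw [pow_succ] at k8 ⊢
    nlinarith

theorem RPath.restrict {A : Finset C} {s t : V} {S : Finset V} {B : Finset C}
    (p : RPath (fun u v => adj u v ∧ col u v ∈ A) col s t S B) : RPath adj col s t S B ∧ B ⊆ A := by
  induction p with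
  | single => exact ⟨RPath.single _, empty_subset _⟩
  | snoc _ h1 h2 h3 ih => exact ⟨ih.1.snoc h1.1 h2 h3, insert_subset h1.2 ih.2⟩

/-- In a large set with a core, some vertex ends a path with all colours but its label. -/
theorem pal_path {l K Φ F c : ℕ} (h : Ctx adj col l K) (hF : 1 + 5 * Hn K ≤ F) (hc : c < K)
    {N : Finset V} {A : Finset C} (hA : A.card = c + 1) (hN : Core adj col N A Φ)
    (hn : F * (l ^ c * Φ) < N.card) (γ : V → C) :
    ∃ s t S B, RPath adj col s t S B ∧ S ⊆ N ∧ B ⊆ A ∧ γ t ∉ B ∧ A ⊆ insert (γ t) B := by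
  by_contra hcon
  have hGR : GR (fun u v => adj u v ∧ col u v ∈ A) col l := fun a ρ => by
    obtain ⟨g, g1, g2, g3⟩ := h.gr a ρ
    exact ⟨g, g1, fun u v k => g2 u v k.1, fun u v k => g3 u v k.1⟩
  have k := pal_bound (Φ := Φ) hGR (h.hl.trans' (by norm_num)) (fun v k => h.irr v k.1) c N
    (fun t => if γ t ∈ A then some (γ t) else none) A hA
    (fun L hL k => hN L hL fun u hu v hv e e' => k u hu v hv ⟨e, e'⟩ e') (by
      intro s t S B p hS
      obtain ⟨q, hB⟩ := RPath.restrict p
      have k1 : γ t ∉ B → (insert (γ t) B ∩ A).card ≤ c := fun e => by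
        by_contra k
        refine hcon ⟨s, t, S, B, q, hS, hB, e, ?_⟩
        have := eq_of_subset_of_card_le (inter_subset_right (s₁ := insert (γ t) B) (s₂ := A))
          (by omega)
        rw [← this]
        exact inter_subset_left
      dsimp only
      split_ifs with e
      · refine ⟨fun x k2 k3 => ?_, by simp⟩
        obtain rfl := Option.some.inj k2
        have := k1 k3
        rwa [inter_eq_left.2 (insert_subset e hB), card_insert_of_notMem k3] at this
      · refine ⟨by simp, fun _ => ?_⟩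
        have := k1 fun k => e (hB k)
        rwa [insert_inter_of_notMem e, inter_eq_left.2 hB] at this)
  have k1 : (F : ℝ) * (l ^ c * Φ) < N.card := by exact_mod_cast hn
  have k2 := Hn_mono (show c + 1 ≤ K by omega)
  nlinarith [mul_le_mul_of_nonneg_right (show 1 + 5 * Hn (c + 1) ≤ F by linarith)
    (show (0 : ℝ) ≤ l ^ c * Φ by positivity)]

end Pool.Agent.H31Fed
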