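import Pool.Agent.Lib.MP_fed786_co.H31YA

set_option autoImplicit false

namespace Pool.Agent.H31Fed
open Finset Pool.Agent.H66Fed

variable {V C : Type} [DecidableEq V] [DecidableEq C]
variable {adj : V → V → Prop} {col : V → V → C}

/-- A labelled set in which arcs coloured by a label join vertices with that label. -/
theorem lab_sep {l K c : ℕ} (h : Ctx adj col l K) (hc : c ≤ K) {N : Finset V} (γ : V → C)
    (hq : Rq adj col (fun x => some (γ x)) c N)
    (hs : ∀ t ∈ N, ∀ u ∈ N, ∀ v ∈ N, adj u v → col u v = γ t → γ u = γ t ∧ γ v = γ t) :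
    N.card ≤ l ^ c := by
  choose F F1 F2 using GR.lev h.gr
  apply Nat.le_of_mul_le_mul_left _ h.pos
  rw [← sum_fiber N (fun x => F (γ x) x) (fun v _ => F1 _ v), mul_sum]
  refine (sum_le_card_nsmul _ _ (l ^ c) fun i _ => h.ih c hc _ ?_).trans (by simp)
  rintro ⟨s, t, S, B, p, p1, p2⟩
  have ht := (mem_filter.1 (p1 p.end_mem)).1
  have := (hq s t S B p (p1.trans (filter_subset _ _))).1 _ rfl (by
    intro k
    obtain ⟨u, hu, v, hv, k1, k2⟩ := p.col_mem k
    have u1 := mem_filter.1 (p1 hu)
    have v1 := mem_filter.1 (p1 hv)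
    obtain ⟨e1, e2⟩ := hs t ht u u1.1 v v1.1 k1 k2
    refine F2 (γ t) u v k1 k2 ?_
    rw [← e1, u1.2, e1, ← e2, v1.2])
  omega

theorem ri_arith {n e τ n' L E X sL sE P : ℝ} (he : 1 ≤ e) (hτ : 0 ≤ τ)
    (h1 : 10 * e * (τ + 1) ≤ n) (h2 : n' ≤ n) (h3 : 9 * n ≤ 10 * n') (hL : 0 ≤ L) (hE : 0 ≤ E)
    (hX : 0 ≤ X) (k1 : sE ≤ e * E + X) (k2 : sL ≤ 4 * (e * L + X))
    (k3 : n' * (τ * L + (2 * n - 4 * e * τ) * E) - τ * sL - (2 * n - 4 * e * τ) * sE +
      (2 * n - 4 * e * τ - τ) * L ≤ n' * ((2 * n + 6 * τ) * X)) (hP : P = (τ + 1) * L +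
      (2 * n - 4 * e * (τ + 1)) * E) : P ≤ (2 * n + 6 * (τ + 1)) * X := by
  have a1 : τ ≤ e * τ := by nlinarith
  have a2 : 0 ≤ 2 * n - 4 * e * τ := by nlinarith
  have hn : 0 < n' := by nlinarith
  have b1 := mul_le_mul_of_nonneg_left k1 a2
  have b2 := mul_le_mul_of_nonneg_left k2 hτ
  have b3 : n' * L ≤ (2 * n - 4 * e * τ - τ - 4 * (e * τ)) * L :=
    mul_le_mul_of_nonneg_right (by nlinarith) hL
  have b4 : (2 * n - 4 * e * τ) * (e * E) ≤ 4 * n' * (e * E) :=
    mul_le_mul_of_nonneg_right (by nlinarith) (by positivity)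
  have b5 : (2 * n - 4 * e * τ + 4 * τ) * X ≤ 6 * n' * X :=
    mul_le_mul_of_nonneg_right (by nlinarith) hX
  apply le_of_mul_le_mul_left _ hn
  rw [hP]
  nlinarith

theorem ri_step {l K e n T Φ : ℕ} (h : Ctx adj col l K) (he : 1 ≤ e) (hT : 10 * e * T ≤ n) :
    ∀ τ ≤ T, ∀ (c : ℕ) (N : Finset V) (lab : V → Option C) (R : Finset C), c < K →
      n + τ ≤ R.card + T → R.card ≤ n → Core adj col N R Φ →
      l ^ R.card * Φ ≤ l ^ (e + 1) * l ^ c → Rq adj col lab c N →
      (∀ x ∈ N, ∀ b, lab x = some b → b ∈ R) →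
      (τ : ℝ) * (N.filter fun x => ¬ lab x = none).card +
        (2 * n - 4 * e * τ) * (N.filter fun x => lab x = none).card ≤ (2 * n + 6 * τ) * l ^ c := by
  have hE : ∀ (c : ℕ) (N : Finset V) (lab : V → Option C), c < K → Rq adj col lab c N →
      ((N.filter fun x => lab x = none).card : ℝ) ≤ l ^ c := by
    intro c N lab hc hq
    have := h.ih' hc (U := N.filter fun x => lab x = none) (by
      rintro ⟨s, t, S, B, p, p1, p2⟩
      have := (hq s t S B p (p1.trans (filter_subset _ _))).2 (mem_filter.1 (p1 p.end_mem)).2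
      omega)
    exact_mod_cast this
  intro τ
  induction τ with
  | zero =>
    intro _ c N lab R hc _ _ _ _ hq _
    have := hE c N lab hc hq
    simp only [Nat.cast_zero, zero_mul, mul_zero, sub_zero, zero_add, add_zero]
    exact mul_le_mul_of_nonneg_left this (by positivity)
  | succ τ ih =>
    intro hτ c N lab R hc h1 h2 h3 h4 hq h5
    have he' : (1 : ℝ) ≤ e := by exact_mod_cast he
    have hτ0 : (0 : ℝ) ≤ τ := Nat.cast_nonneg _
    have a0 : 10 * e * (τ + 1) ≤ n := (Nat.mul_le_mul_left _ hτ).trans hT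
    have a1 : 10 * (e : ℝ) * (τ + 1) ≤ n := by exact_mod_cast a0
    rcases c with _ | c
    · have k1 : (N.filter fun x => ¬ lab x = none) = ∅ := by
        refine filter_eq_empty_iff.2 fun x hx k => ?_
        obtain ⟨b, hb⟩ := Option.ne_none_iff_exists'.1 k
        simpa using (hq x x _ _ (RPath.single x) (singleton_subset_iff.2 hx)).1 b hb
          (notMem_empty _)
      have k2 := hE 0 N lab hc hq
      have k3 : (0 : ℝ) ≤ (N.filter fun x => lab x = none).card := Nat.cast_nonneg _
      rw [k1]
      push_cast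
      simp only [card_empty, Nat.cast_zero, mul_zero, zero_add, pow_zero, mul_one] at k2 ⊢
      nlinarith [mul_nonneg (mul_nonneg (show (0 : ℝ) ≤ e by linarith)
        (show (0 : ℝ) ≤ τ + 1 by linarith)) k3]
    set β : ℝ := 2 * n - 4 * e * τ with hβ
    have a2 : (τ : ℝ) ≤ β := by rw [hβ]; nlinarith
    set L := N.filter fun x => ¬ lab x = none with hL
    set E := N.filter fun x => lab x = none with hE'
    have key : ∀ a ∈ R, τ * (L.card : ℝ) + β * E.card -
        τ * ((ZB adj col lab N a).filter fun x => ¬ lab x = none).card -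
        β * ((ZB adj col lab N a).filter fun x => lab x = none).card +
        (β - τ) * (N.filter fun x => lab x = some a).card ≤ (2 * n + 6 * τ) * l ^ (c + 1) := by
      intro a ha
      obtain ⟨f, lb, f1, f2⟩ := cover2 h.gr a hq
      have hR : (R.erase a).card + 1 = R.card := card_erase_add_one ha
      let w : V → ℝ := fun x => if lab x = none ∨ lab x = some a then β else τ
      have s1 : ∀ i ∈ range l, ∑ x ∈ (N \ ZB adj col lab N a).filter fun x => f x = i, w x ≤
          (2 * n + 6 * τ) * l ^ c := by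
        intro i _
        obtain ⟨g1, g2, g3⟩ := f2 i
        refine le_trans ?_ (ih (by omega) c _ (lb i) (R.erase a) (by omega) (by omega) (by omega)
          (h3.erase ((filter_subset _ _).trans sdiff_subset) g1) ?_ g2 ?_)
        · rw [← sum_filter_add_sum_filter_not _ (fun x => lb i x = none), add_comm, mul_comm,
            mul_comm β, ← nsmul_eq_mul, ← nsmul_eq_mul]
          refine add_le_add (sum_le_card_nsmul _ _ _ fun x hx => ?_)
            (sum_le_card_nsmul _ _ _ fun x _ => ?_)
          · rw [mem_filter] at hx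
            simp only [w, if_neg fun k => hx.2 ((g3 x hx.1).1 k), le_refl]
          · simp only [w]
            split_ifs <;> linarith
        · apply Nat.le_of_mul_le_mul_left _ h.pos
          rw [← mul_assoc, ← pow_succ', hR, mul_left_comm, ← pow_succ']
          exact h4
        · intro x hx b hb
          obtain ⟨k1, y, k2, k3⟩ := (g3 x hx).2 b hb
          exact mem_erase.2 ⟨k1, h5 y k2 b k3⟩
      have s2 := sum_le_sum s1
      rw [sum_fiberwise_of_maps_to (fun v _ => mem_range.2 (f1 v)), sum_const, card_range,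
        nsmul_eq_mul, mul_left_comm, ← pow_succ'] at s2
      have s3 := sum_sdiff (f := w) (show ZB adj col lab N a ⊆ N from fun x hx => (mem_ZB.1 hx).1)
      have s4 : ∑ x ∈ ZB adj col lab N a, w x =
          τ * ((ZB adj col lab N a).filter fun x => ¬ lab x = none).card +
          β * ((ZB adj col lab N a).filter fun x => lab x = none).card := by
        rw [sum_congr rfl (g := fun x => if lab x = none then β else τ) fun x hx => by
          simp only [w, (mem_ZB.1 hx).2.2.1, or_false], sum_ite, sum_const, sum_const]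
        simp only [nsmul_eq_mul]
        ring
      have s5 : ∑ x ∈ N, w x = τ * (L.card : ℝ) + β * E.card +
          (β - τ) * (N.filter fun x => lab x = some a).card := by
        rw [sum_congr rfl (g := fun x => (if lab x = none then β else τ) +
          if lab x = some a then β - τ else 0) fun x _ => by
            simp only [w]
            cases lab x <;> simp
            split_ifs <;> simp, sum_add_distrib, sum_ite, ← sum_filter, sum_const, sum_const,
          sum_const]
        simp only [nsmul_eq_mul]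
        ring
      linarith
    have k1 := sum_le_sum key
    obtain ⟨k2, k3⟩ := pool_loss h.gr (h.hl.trans' (by norm_num)) e lab h3 h4
    have k4 : ∑ a ∈ R, (N.filter fun x => lab x = some a).card = L.card := by
      rw [← card_biUnion fun a _ b _ e => disjoint_left.2 fun x hx hx' =>
        e (Option.some.inj ((mem_filter.1 hx).2.symm.trans (mem_filter.1 hx').2))]
      refine congrArg card ?_
      ext x
      simp only [hL, mem_biUnion, mem_filter]
      constructor
      · rintro ⟨b, -, k, k'⟩
        exact ⟨k, by simp [k']⟩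
      · rintro ⟨k, k'⟩
        obtain ⟨b, hb⟩ := Option.ne_none_iff_exists'.1 k'
        exact ⟨b, h5 x k b hb, k, hb⟩
    rw [sum_add_distrib, sum_sub_distrib, sum_sub_distrib, ← mul_sum, ← mul_sum, ← mul_sum,
      sum_const, sum_const, nsmul_eq_mul, nsmul_eq_mul, ← Nat.cast_sum, ← Nat.cast_sum,
      ← Nat.cast_sum, k4] at k1
    push_cast
    refine ri_arith he' hτ0 a1 (by exact_mod_cast h2) ?_ (Nat.cast_nonneg _) (Nat.cast_nonneg _)
      (by positivity) (by exact_mod_cast k2) (by exact_mod_cast k3) k1 rfl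
    have : 9 * n ≤ 10 * R.card := by nlinarith
    exact_mod_cast this

/-- The rooted bound for labels inside a core. -/
theorem ri {l K e c Φ : ℕ} (h : Ctx adj col l K) (he : 1 ≤ e) (hc : c < K) {N : Finset V}
    {R : Finset C} (γ : V → C) (h1 : Core adj col N R Φ)
    (h2 : l ^ R.card * Φ ≤ l ^ (e + 1) * l ^ c) (hq : Rq adj col (fun x => some (γ x)) c N)
    (h3 : ∀ x ∈ N, γ x ∈ R) : N.card ≤ 60 * e * l ^ c := by
  by_cases k : R.card < 10 * e
  · have := card_le_mul_card_image_of_maps_to (s := N) (t := R) (f := γ) h3 (l ^ c) fun b _ =>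
      lab_sep h hc.le γ (hq.mono (filter_subset _ _)) fun t ht u hu v hv _ _ => by
        rw [mem_filter] at ht hu hv
        exact ⟨hu.2.trans ht.2.symm, hv.2.trans ht.2.symm⟩
    nlinarith [Nat.mul_le_mul_left (l ^ c) k.le]
  set n := R.card with hn
  set T := n / (10 * e) with hT
  have a1 : 10 * e * T ≤ n := Nat.mul_div_le _ _
  have a2 : n < 10 * e * (T + 1) := Nat.lt_mul_div_succ _ (by omega)
  have a3 : 1 ≤ T := (Nat.le_div_iff_mul_le (by omega)).2 (by omega)
  have := ri_step h he a1 T le_rfl c N _ R hc le_rfl le_rfl h1 h2 hq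
    fun x hx b hb => Option.some.inj hb ▸ h3 x hx
  simp only [reduceCtorEq, not_false_iff, filter_true, filter_false, card_empty, Nat.cast_zero,
    mul_zero, add_zero] at this
  have k1 : T * N.card ≤ (2 * n + 6 * T) * l ^ c := by exact_mod_cast this
  apply Nat.le_of_mul_le_mul_left _ a3
  refine k1.trans ?_
  rw [← mul_assoc]
  exact Nat.mul_le_mul_right _ (by nlinarith)

/-- The rooted bound for labels that are seen by few vertices. -/
theorem ro {l K c n : ℕ} (h : Ctx adj col l K) (hc : c ≤ K) (hn : 1 ≤ n) {N : Finset V}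
    (γ : V → C) (hq : Rq adj col (fun x => some (γ x)) c N) (T : V → Finset C)
    (h1 : ∀ x ∈ N, (T x).card ≤ n)
    (h2 : ∀ t ∈ N, ∀ u ∈ N, ∀ v ∈ N, adj u v → col u v = γ t → γ t ∈ T u ∧ γ t ∈ T v) :
    N.card ≤ 4 * n * l ^ c := by
  obtain ⟨J, -, j2⟩ := sel' hn γ (fun y => (T y).erase (γ y)) (N.image γ) N
    (fun y _ => notMem_erase _ _) (fun y hy => mem_image_of_mem _ hy)
    fun y hy => (card_erase_le).trans (h1 y hy)
  refine j2.trans (Nat.mul_le_mul_left _ (lab_sep h hc γ (hq.mono (filter_subset _ _)) ?_))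
  intro t ht u hu v hv k k'
  rw [mem_filter] at ht hu hv
  obtain ⟨e1, e2⟩ := h2 t ht.1 u hu.1 v hv.1 k k'
  constructor
  · by_contra j
    exact disjoint_left.1 hu.2.2 (mem_erase.2 ⟨Ne.symm j, e1⟩) ht.2.1
  · by_contra j
    exact disjoint_left.1 hv.2.2 (mem_erase.2 ⟨Ne.symm j, e2⟩) ht.2.1

omit [DecidableEq V] in
theorem loc_bound {l M : ℕ} (hT : ∀ u v, u ≠ v → adj u v ∨ adj v u) (hGR : GR adj col l)
    (I : V → Finset C) : ∀ (n : ℕ) (N : Finset V) (O : V → Finset C),
      (∀ x ∈ N, (O x).card ≤ n ∧ (I x).card ≤ M) →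
      (∀ u ∈ N, ∀ v ∈ N, adj u v → col u v ∈ O u ∧ col u v ∈ I v) →
      N.card ≤ (2 * (M * l) + 1) ^ n := by
  classical
  intro n
  induction n with
  | zero =>
    intro N O h1 h2
    have := tour_deg hT (S := N) (d := 0) fun x hx => by
      rw [Nat.le_zero, card_eq_zero, filter_eq_empty_iff]
      intro u hu k
      have := card_pos.2 ⟨_, (h2 u hu x hx k).1⟩
      have := (h1 u hu).1
      omega
    simpa using this
  | succ n ih =>
    intro N O h1 h2
    set g := (2 * (M * l) + 1) ^ n with hg
    have := tour_deg hT (S := N) (d := M * l * g) fun x hx => by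
      have k := card_le_mul_card_image_of_maps_to (s := N.filter fun u => adj u x) (t := I x)
        (f := fun u => col u x) (fun u hu => (h2 u (mem_filter.1 hu).1 x hx (mem_filter.1 hu).2).2)
        (g * l) fun b _ => by
          obtain ⟨f, f1, f2⟩ := GR.lev hGR b
          have := card_le_mul_card_image_of_maps_to
            (s := (N.filter fun u => adj u x).filter fun u => col u x = b) (t := range l) (f := f)
            (fun z _ => mem_range.2 (f1 z)) g fun i _ => ih _ (fun u => (O u).erase b) (by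
              intro u hu
              simp only [mem_filter] at hu
              have k1 := card_erase_add_one (hu.1.2 ▸ (h2 u hu.1.1.1 x hx hu.1.1.2).1)
              have k2 := h1 u hu.1.1.1
              exact ⟨by omega, k2.2⟩) (by
              intro u hu v hv k
              simp only [mem_filter] at hu hv
              have k1 := h2 u hu.1.1.1 v hv.1.1.1 k
              exact ⟨mem_erase.2 ⟨fun e => f2 u v k e (hu.2.trans hv.2.symm), k1.1⟩, k1.2⟩)
          rwa [card_range] at this
      refine k.trans ((Nat.mul_le_mul_left _ (h1 x hx).2).trans (le_of_eq (by ring)))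
    have k : 1 ≤ g := Nat.one_le_pow _ _ (by omega)
    rw [pow_succ]
    nlinarith

/-- Paths that have a long part in a reservoir and a short tail. -/
def Adm (adj : V → V → Prop) (col : V → V → C) (G N : Finset V) (R : Finset C)
    (Q : Finset C → Prop) (x : V) (d : ℕ) : Prop :=
  ∃ s P B, RPath adj col s x P B ∧ P ⊆ G ∪ N ∧ Q (B ∩ R) ∧ (P ∩ N).card ≤ d + 1 ∧ (B \ R).card = d

theorem strata {G N : Finset V} {R : Finset C} {Q : Finset C → Prop} {n : ℕ}
    (h1 : ∀ x ∈ N, ∃ d, Adm adj col G N R Q x d)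
    (h2 : ∀ x ∈ N, ∀ d, Adm adj col G N R Q x d → d ≤ n) :
    ∃ N' ⊆ N, ∃ O : V → Finset C, N.card ≤ (n + 1) * N'.card ∧ (∀ x, (O x).card ≤ 2 * n + 1) ∧
      ∀ u ∈ N', ∀ v ∈ N', adj u v → col u v ∉ R → col u v ∈ O u := by
  classical
  let d : V → ℕ := fun x => Nat.findGreatest (Adm adj col G N R Q x) n
  have d1 : ∀ x ∈ N, Adm adj col G N R Q x (d x) := fun x hx => by
    obtain ⟨e, he⟩ := h1 x hx
    exact Nat.findGreatest_spec (h2 x hx e he) he
  have d2 : ∀ x, ∃ O : Finset C, O.card ≤ 2 * n + 1 ∧ (x ∈ N → ∀ v ∈ N, d v = d x → adj x v →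
      col x v ∉ R → col x v ∈ O) := by
    intro x
    by_cases hx : x ∈ N
    swap
    · exact ⟨∅, by simp, fun k => absurd k hx⟩
    obtain ⟨s, P, B, p1, p2, p3, p4, p5⟩ := d1 x hx
    refine ⟨(B \ R) ∪ (P ∩ N).image (col x), ?_, fun _ v hv e k k' => ?_⟩
    · have k1 := card_union_le (B \ R) ((P ∩ N).image (col x))
      have k2 := card_image_le (s := P ∩ N) (f := col x)
      have k3 : d x ≤ n := Nat.findGreatest_le n
      omega
    by_contra j
    rw [mem_union, not_or, mem_sdiff] at j
    have j1 : v ∉ P := fun k1 => j.2 (mem_image_of_mem _ (mem_inter.2 ⟨k1, hv⟩))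
    have j2 : col x v ∉ B := fun k1 => j.1 ⟨k1, k'⟩
    have j3 : Adm adj col G N R Q v (d x + 1) := by
      refine ⟨s, _, _, p1.snoc k j1 j2, insert_subset (mem_union_right _ hv) p2, ?_, ?_, ?_⟩
      · rwa [insert_inter_of_notMem k']
      · rw [insert_inter_of_mem hv]
        exact (card_insert_le _ _).trans (by omega)
      · rw [insert_sdiff_of_notMem _ k', card_insert_of_notMem fun k1 => j2 (mem_sdiff.1 k1).1, p5]
    have := Nat.le_findGreatest (h2 v hv _ j3) j3
    simp only [d] at e this
    omega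
  choose O O1 O2 using d2
  obtain ⟨i, -, hi⟩ := exists_max_image (range (n + 1)) (fun i => (N.filter fun x => d x = i).card)
    ⟨0, by simp⟩
  refine ⟨N.filter fun x => d x = i, filter_subset _ _, O, ?_, O1, fun u hu v hv => ?_⟩
  · have := card_le_mul_card_image_of_maps_to (s := N) (t := range (n + 1)) (f := d)
      (fun x _ => mem_range.2 (Nat.lt_succ_of_le (Nat.findGreatest_le n))) _ hi
    rwa [card_range, mul_comm] at this
  · rw [mem_filter] at hu hv
    exact O2 u hu.1 v hv.1 (hv.2.trans hu.2.symm)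

end Pool.Agent.H31Fed
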