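import Pool.Agent.Lib.MP_fed786_co.H31YB

set_option autoImplicit false

namespace Pool.Agent.H31Fed
open Finset Pool.Agent.H66Fed

variable {V C : Type} [DecidableEq V] [DecidableEq C]
variable {adj : V → V → Prop} {col : V → V → C}

/-- In every quarter of `W` some vertex ends a path with all colours of `A \ I` but its label. -/
def Pal (adj : V → V → Prop) (col : V → V → C) (W : Finset V) (A : Finset C) : Prop :=
  ∀ W' ⊆ W, W.card ≤ 4 * W'.card → ∀ (I : Finset C) (γ : V → C), ∃ s t S B,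
    RPath adj col s t S B ∧ S ⊆ W' ∧ B ⊆ A \ I ∧ γ t ∉ B ∧ A \ I ⊆ insert (γ t) B

theorem pal_single (y : V) : Pal adj col {y} ∅ := by
  intro W' h1 h2 I γ
  have : W' = {y} := eq_of_subset_of_card_le h1 (by rw [card_singleton] at h2 ⊢; omega)
  exact ⟨y, y, _, _, RPath.single y, this.ge, by simp, by simp, by simp⟩

theorem pal_of_rich {l K Φ F c : ℕ} (h : Ctx adj col l K) (hF : 1 + 5 * Hn K ≤ F) (hc : c < K)
    {W : Finset V} {A : Finset C} (hA : A.card = c + 1) (hN : Core adj col W A Φ)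
    (hn : 4 * (F * (l ^ c * Φ)) < W.card) : Pal adj col W A := by
  intro W' h1 h2 I γ
  by_cases e : A \ I = ∅
  · obtain ⟨y, hy⟩ : W'.Nonempty := card_pos.1 (by omega)
    exact ⟨y, y, _, _, RPath.single y, singleton_subset_iff.2 hy, by simp, by simp, by simp [e]⟩
  obtain ⟨L, l1, l2, l3⟩ := free_sub h.gr (A ∩ I) W'
  obtain ⟨c', hc'⟩ : ∃ c', (A \ I).card = c' + 1 :=
    ⟨_, (Nat.succ_pred_eq_of_pos (card_pos.2 (nonempty_iff_ne_empty.2 e))).symm⟩
  have k1 := card_sdiff_add_card_inter A I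
  have k2 := hN.sdiff (l1.trans h1) l2
  rw [sdiff_inter_self_left] at k2
  obtain ⟨s, t, S, B, p, p1, p2⟩ := pal_path h hF (show c' < K by omega) hc' k2 (by
    apply Nat.lt_of_mul_lt_mul_left (a := l ^ (A ∩ I).card)
    have : l ^ (A ∩ I).card * (F * (l ^ c' * Φ)) = F * (l ^ c * Φ) := by
      rw [show c = (A ∩ I).card + c' by omega]; ring
    omega) γ
  exact ⟨s, t, S, B, p, p1.trans l1, p2⟩

open Classical in
theorem good_class4 {l K p j : ℕ} (h : Ctx adj col l K) (hq : p + j + 1 ≤ K) (hK : K + 1 ≤ l ^ j)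
    {S U : Finset V} (hS : ¬ HasP adj col S (p + j + 1 + 1)) (hU : U ⊆ S)
    (h1 : ∀ x ∈ U, End adj col S (p + j + 1) x ∧ End (flip adj) (flip col) S (p + j + 1) x)
    (hn : 9 * l ^ (p + j) < U.card) :
    ∃ (G : Finset V) (R : Finset C), R.card = p + 1 ∧ G ⊆ U ∧ l ^ p < G.card + (p + 1) ∧
      ∀ s t Q B, RPath adj col s t Q B → Q ⊆ G → Disjoint B R → B.card ≤ j := by
  have hl := h.hl
  set L' := l ^ p with hL'
  set L := l ^ (p + j) with hL
  have a1 : (p + j + 1) * L' ≤ L := by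
    rw [hL, pow_add, mul_comm]
    exact Nat.mul_le_mul_left _ (by omega)
  have a2 : p + j + 1 + 1 ≤ L :=
    (show _ ≤ l ^ j by omega).trans (Nat.pow_le_pow_right h.pos (by omega))
  have hS' : ¬ HasP (flip adj) (flip col) S (p + j + 1 + 1) := fun k => hS k.of_reverse
  have hUne : U.Nonempty := card_pos.1 (by omega)
  let good : V → V → Prop := fun v z => adj v z ∧ EndF adj col S p (col v z) v
  have k0 : ∀ z ∈ U, (U.filter fun v => adj v z).card ≤
      (U.filter fun v => good v z).card + 2 * L := by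
    intro z hz
    obtain ⟨s, Q, B, p1, p2, p3⟩ := (h1 z hz).2
    have k1 : (U.filter fun v => adj v z) ⊆ (U.filter fun v => good v z) ∪
        ((B.biUnion fun c => S.filter fun x => ¬ EndF adj col S p c x) ∪ Q) := by
      intro v hv
      rw [mem_filter] at hv
      by_cases e : v ∈ Q
      · exact mem_union_right _ (mem_union_right _ e)
      by_cases e' : EndF adj col S p (col v z) v
      · exact mem_union_left _ (mem_filter.2 ⟨hv.1, hv.2, e'⟩)
      · exact mem_union_right _ (mem_union_left _ (mem_biUnion.2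
          ⟨_, ext_col hS' p1 p2 p3 (hU hv.1) hv.2 e, mem_filter.2 ⟨hU hv.1, e'⟩⟩))
    have k2 := (card_le_card k1).trans (card_union_le _ _)
    have k3 := card_union_le (B.biUnion fun c => S.filter fun x => ¬ EndF adj col S p c x) Q
    have k4 := card_biUnion_le_card_mul B (fun c => S.filter fun x => ¬ EndF adj col S p c x)
      _ (fun c _ => nonendF h.pos (GR.lev h.gr) (h.ih p (by omega)) S c)
    have k5 := RPath.card p1
    rw [p3] at k4 k5
    rw [← hL'] at k4
    omega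
  obtain ⟨v, hv, hv2⟩ : ∃ v ∈ U, U.card - 1 ≤
      2 * ((U.filter fun z => good v z).card + 2 * L) := by
    apply exists_le_of_sum_le hUne
    have k1 := tour_sum h.hT U
    have k2 := sum_le_sum k0
    have k3 := Finset.sum_card_bipartiteAbove_eq_sum_card_bipartiteBelow good (s := U) (t := U)
    simp only [bipartiteAbove, bipartiteBelow] at k3
    rw [sum_add_distrib, ← k3, ← sum_add_distrib] at k2
    rw [sum_const, smul_eq_mul, ← mul_sum]
    exact k1.trans (Nat.mul_le_mul_left _ k2)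
  obtain ⟨s, Q, B, p1, p2, p3⟩ := (h1 v hv).1
  set G := (U.filter fun z => good v z) \ Q with hGd
  have hGc : (U.filter fun z => good v z).card ≤ G.card + (p + j + 1 + 1) := by
    have k1 := le_card_sdiff Q (U.filter fun z => good v z)
    have k5 := RPath.card p1
    rw [← hGd] at k1
    omega
  have hGm : ∀ z ∈ G, z ∈ U ∧ good v z ∧ z ∉ Q := by
    intro z hz
    rw [hGd, mem_sdiff, mem_filter] at hz
    exact ⟨hz.1.1, hz.1.2, hz.2⟩
  obtain ⟨c, _, hc⟩ : ∃ c ∈ B, L' < (G.filter fun z => col v z = c).card := by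
    by_contra k
    push Not at k
    have k1 := card_le_mul_card_image_of_maps_to (s := G) (t := B) (f := fun z => col v z)
      (fun z hz => ext_col hS p1 p2 p3 (hU (hGm z hz).1) (hGm z hz).2.1.1 (hGm z hz).2.2) _ k
    rw [p3, mul_comm] at k1
    omega
  obtain ⟨z0, hz0⟩ : (G.filter fun z => col v z = c).Nonempty := card_pos.1 (by omega)
  rw [mem_filter] at hz0
  obtain ⟨s', P, B', q1, q2, q3, q4⟩ := (hGm z0 hz0.1).2.1.2
  rw [hz0.2] at q4
  have hPc : P.card = p + 1 := by rw [RPath.card q1, q3]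
  have hRc : (insert c B').card = p + 1 := by rw [card_insert_of_notMem q4, q3]
  have hsub : (G.filter fun z => col v z = c) \ P ⊆ U :=
    fun z hz => (hGm z (mem_filter.1 (mem_sdiff.1 hz).1).1).1
  refine ⟨(G.filter fun z => col v z = c) \ P, insert c B', hRc, hsub, ?_, ?_⟩
  · have := le_card_sdiff P (G.filter fun z => col v z = c)
    omega
  · intro x t Q' B'' p k1 k2
    have hx := k1 p.start_mem
    rw [mem_sdiff, mem_filter] at hx
    have q5 := q1.snoc (hGm x hx.1.1).2.1.1 hx.2 (hx.1.2 ▸ q4)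
    rw [hx.1.2] at q5
    have := le_of_noP hS (RPath.trans q5 p (fun w hw hw' =>
      (mem_insert.1 hw').resolve_right (mem_sdiff.1 (k1 hw)).2) k2.symm)
      (union_subset (insert_subset (hU (hGm x hx.1.1).1) q2) (k1.trans (hsub.trans hU)))
    rw [card_union_of_disjoint k2.symm, hRc] at this
    omega

theorem strata0 {N : Finset V} {R : Finset C} {j : ℕ}
    (hp : ∀ s t Q B, RPath adj col s t Q B → Q ⊆ N → Disjoint B R → B.card ≤ j) :
    ∃ N' ⊆ N, ∃ O : V → Finset C, N.card ≤ (j + 1) * N'.card ∧ (∀ x, (O x).card ≤ 2 * j + 1) ∧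
      ∀ u ∈ N', ∀ v ∈ N', adj u v → col u v ∉ R → col u v ∈ O u := by
  refine strata (G := ∅) (Q := fun B => B = ∅) (fun x hx => ⟨0, x, _, _, RPath.single x, ?_⟩) ?_
  · simpa [card_le_one] using hx
  · rintro x - d ⟨s, P, B, p1, p2, p3, -, rfl⟩
    rw [empty_union] at p2
    exact (card_le_card sdiff_subset).trans
      (hp _ _ _ _ p1 p2 (disjoint_iff_inter_eq_empty.2 p3))

theorem rcol2 {l K Φ j : ℕ} (h : Ctx adj col l K) {N : Finset V} {R : Finset C}
    (hp : ∀ s t Q B, RPath adj col s t Q B → Q ⊆ N → Disjoint B R → B.card ≤ j)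
    (hΦ : ∀ L ⊆ N, (∀ u ∈ L, ∀ v ∈ L, adj u v → col u v ∈ R) → L.card ≤ Φ) :
    N.card ≤ (j + 1) ^ 2 * l ^ (4 * j + 2) * Φ := by
  obtain ⟨N1, n1, O, n2, n3, n4⟩ := strata0 hp
  obtain ⟨I, i1, O', i2, i3, i4⟩ := strata0 (adj := flip adj) (col := flip col) (N := N1) (R := R)
    fun s t Q B p k => hp t s Q B p.reverse (k.trans n1)
  set P := ((I ×ˢ I).image fun p => col p.1 p.2) \ R with hP
  have h4 := kraft_sum (Φ := Φ) h.gr (fun z => P \ (O z ∪ O' z)) P I (by
    intro L hL hf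
    refine hΦ L (hL.trans (i1.trans n1)) fun u hu v hv k => ?_
    by_contra k'
    exact hf u hu v hv k (mem_sdiff.2 ⟨mem_image.2 ⟨(u, v), mem_product.2 ⟨hL hu, hL hv⟩, rfl⟩, k'⟩))
    (by
      intro z hz a ha
      rw [mem_sdiff, hP, mem_sdiff, mem_union, not_or] at ha
      exact ⟨fun ⟨u, k1, k2, k3⟩ => ha.2.2
          (k3 ▸ (show col u z ∈ O' z from i4 z hz u k1 k2 (show col u z ∉ R from k3 ▸ ha.1.2))),
        fun ⟨u, k1, k2, k3⟩ => ha.2.1 (k3 ▸ n4 z (i1 hz) u (i1 k1) k2 (k3 ▸ ha.1.2))⟩)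
  have h5 : I.card * l ^ P.card ≤
      l ^ (4 * j + 2) * ∑ z ∈ I, l ^ (P \ (O z ∪ O' z) ∩ P).card := by
    rw [mul_sum, ← smul_eq_mul, ← sum_const]
    refine sum_le_sum fun z _ => ?_
    rw [inter_eq_left.2 sdiff_subset, ← pow_add]
    have := card_le_card_sdiff_add_card (s := P) (t := O z ∪ O' z)
    have := card_union_le (O z) (O' z)
    have := n3 z
    have := i3 z
    exact Nat.pow_le_pow_right h.pos (by omega)
  have h6 : I.card ≤ l ^ (4 * j + 2) * Φ := by
    apply Nat.le_of_mul_le_mul_right _ (pow_pos h.pos P.card)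
    nlinarith [Nat.mul_le_mul_left (l ^ (4 * j + 2)) h4]
  exact n2.trans ((Nat.mul_le_mul_left _ (i2.trans (Nat.mul_le_mul_left _ h6))).trans
    (le_of_eq (by ring)))

open Classical in
theorem pig {l K q : ℕ} (h : Ctx adj col l K) (hq : q ≤ K) {G : Finset V} {R : Finset C}
    (hc : ∀ u ∈ G, ∀ v ∈ G, adj u v → col u v ∈ R) (y : V)
    (hn : (R.card + 1) * l ^ q < (G.filter fun z => adj z y).card) :
    ∃ s z P B, RPath adj col s z P B ∧ P ⊆ G ∧ B ⊆ R ∧ B.card = q ∧ adj z y ∧ col z y ∉ B := by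
  set N := G.filter fun z => adj z y with hN
  have k1 := card_biUnion_le_card_mul (insert (col y y) R)
    (fun c => N.filter fun x => ¬ EndF adj col N q c x) _
    (fun c _ => nonendF h.pos (GR.lev h.gr) (h.ih q hq) N c)
  obtain ⟨z, z1, z2⟩ := exists_mem_notMem_of_card_lt_card (lt_of_le_of_lt
    (k1.trans (Nat.mul_le_mul_right _ (card_insert_le _ _))) hn)
  simp only [mem_biUnion, mem_filter (s := N), not_exists, not_and, not_not] at z2
  by_cases e : col z y ∈ R
  · obtain ⟨s, P, B, q1, q2, q3, q4⟩ := z2 _ (mem_insert_of_mem e) z1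
    have := q2.trans (filter_subset _ _)
    exact ⟨s, z, P, B, q1, this, path_cols hc q1 this, q3, (mem_filter.1 z1).2, q4⟩
  · obtain ⟨s, P, B, q1, q2, q3, -⟩ := z2 _ (mem_insert_self _ _) z1
    have := q2.trans (filter_subset _ _)
    exact ⟨s, z, P, B, q1, this, path_cols hc q1 this, q3, (mem_filter.1 z1).2,
      fun k => e (path_cols hc q1 this k)⟩

open Classical in
theorem ub_half {l K q n : ℕ} (h : Ctx adj col l K) (hq : q ≤ K) {S G W W' : Finset V}
    {R A : Finset C} (hS : ¬ HasP adj col S (q + n + 1)) (hG : G ⊆ S) (hW : W ⊆ S)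
    (hd : Disjoint W G) (hc : ∀ u ∈ G, ∀ v ∈ G, adj u v → col u v ∈ R)
    (hp : Pal (flip adj) (flip col) W A) (h1 : W' ⊆ W) (h2 : W.card ≤ 4 * W'.card)
    (hn : ∀ y ∈ W', (R.card + 1) * l ^ q < (G.filter fun z => adj z y).card) :
    (A \ R).card ≤ n := by
  have k : ∀ y, ∃ z, y ∈ W' → ∃ s P B, RPath adj col s z P B ∧ P ⊆ G ∧ B ⊆ R ∧ B.card = q ∧
      adj z y ∧ col z y ∉ B := by
    intro y
    by_cases e : y ∈ W'
    · obtain ⟨s, z, k⟩ := pig h hq hc y (hn y e)
      exact ⟨z, fun _ => ⟨s, k⟩⟩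
    · exact ⟨y, fun k => absurd k e⟩
  choose z hz using k
  obtain ⟨t, y, Q, B', p, p1, p2, p3, p4⟩ := hp W' h1 h2 R fun y => col (z y) y
  obtain ⟨s, P, B, q, q1, q2, q3, q4, q5⟩ := hz y (p1 p.end_mem)
  have hd' : Disjoint B B' := disjoint_left.2 fun a k k' => (mem_sdiff.1 (p2 k')).2 (q2 k)
  have k1 := le_of_noP hS (RPath.append q q4 p.reverse (hd.symm.mono q1 (p1.trans h1)) q5 p3 hd')
    (union_subset (q1.trans hG) (p1.trans (h1.trans hW)))
  rw [card_insert_of_notMem (by simp [q5, p3]), card_union_of_disjoint hd', q3] at k1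
  have k2 := (card_le_card p4).trans (card_insert_le _ _)
  omega

/-- Sets with long paths on any palette, away from `X`, have few colours outside `R`. -/
def UB (adj : V → V → Prop) (col : V → V → C) (m n : ℕ) (X : Finset V) (R : Finset C) : Prop :=
  ∀ (S W : Finset V) (A : Finset C), ¬ HasP adj col S (m + 1) → X ⊆ S → W ⊆ S → Disjoint W X →
    Pal adj col W A → Pal (flip adj) (flip col) W A → (A \ R).card ≤ n

theorem ex_part {l K j m : ℕ} (h : Ctx adj col l K) (hK : K + 1 ≤ l ^ j)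
    (hj : 20 * (j + 1) ^ 2 ≤ l) (hm : m ≤ K) {X : Finset V} (hX : ¬ HasP adj col X (m + 1))
    (hn : 60 * l ^ m < l * X.card) :
    ∃ X' ⊆ X, ∃ (R : Finset C) (O : V → Finset C), X.card ≤ 4 * (6 * j + 5) * X'.card ∧
      R.card ≤ m ∧ (∀ x, (O x).card ≤ 12 * j + 9) ∧
      (∀ u ∈ X', ∀ v ∈ X', adj u v → col u v ∉ R → col u v ∈ O u) ∧
      UB adj col m (6 * j + 4) X R := by
  classical
  by_cases hm' : m < 6 * j + 4
  · obtain ⟨X', x1, O, x2, x3, x4⟩ := strata0 (N := X) (R := ∅) (j := 6 * j + 4)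
      fun s t Q B p k _ => (le_of_noP hX p k).trans hm'.le
    refine ⟨X', x1, ∅, O, by nlinarith, by simp, fun x => (x3 x).trans (by omega), x4, ?_⟩
    intro S W A s1 _ s3 _ s5 _
    obtain ⟨s, t, Q, B, p, p1, -, -, p4⟩ := s5 W Subset.rfl (by omega) ∅ fun y => col y y
    have k1 := le_of_noP s1 p (p1.trans s3)
    have k2 := (card_le_card p4).trans (card_insert_le _ _)
    omega
  obtain ⟨q, rfl⟩ : ∃ q, m = q + 5 * j + 3 + j + 1 := ⟨m - (6 * j + 4), by omega⟩
  set p := q + 5 * j + 3 with hp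
  set L := l ^ (p + j) with hL
  have hn' : 60 * L < X.card := by
    apply Nat.lt_of_mul_lt_mul_left (a := l)
    rw [pow_succ, ← hL] at hn
    linarith
  have hL1 : 1 ≤ L := Nat.one_le_pow _ _ h.pos
  set U := X.filter fun x => End adj col X (p + j + 1) x ∧
    End (flip adj) (flip col) X (p + j + 1) x with hU
  have hb : (X \ U).card ≤ 2 * L := by
    have h1 : (X.filter fun x => ¬ End adj col X (p + j + 1) x).card ≤ L :=
      nonend h.pos (h.ih (p + j + 1) hm) X
    have h2 : (X.filter fun x => ¬ End (flip adj) (flip col) X (p + j + 1) x).card ≤ L :=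
      nonend h.pos (h.flip.ih (p + j + 1) hm) X
    have h3 : X \ U ⊆ (X.filter fun x => ¬ End adj col X (p + j + 1) x) ∪
        X.filter fun x => ¬ End (flip adj) (flip col) X (p + j + 1) x := by
      intro x hx
      simp only [hU, mem_sdiff, mem_union, mem_filter] at hx ⊢
      tauto
    have h4 := (card_le_card h3).trans (card_union_le _ _)
    omega
  set D := X.filter fun x => 5 * (X.filter fun u => adj x u).card < 2 * X.card with hD
  have hDc : D.card ≤ 2 * ((2 * X.card - 1) / 5) + 1 := by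
    apply tour_deg h.flip.hT
    intro x hx
    have k1 := (mem_filter.1 hx).2
    have k2 : (D.filter fun u => flip adj u x).card ≤ (X.filter fun u => adj x u).card :=
      card_le_card fun u hu => mem_filter.2 ⟨(mem_filter.1 (mem_filter.1 hu).1).1,
        (mem_filter.1 hu).2⟩
    omega
  have c1 := card_le_card_sdiff_add_card (s := X) (t := U)
  have hUS : U ⊆ X := filter_subset _ _
  have c2 := card_le_card_sdiff_add_card (s := U) (t := D)
  obtain ⟨G0, R, g2, g3, g4, g5⟩ := good_class4 h hm hK hX (U := U \ D)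
    (sdiff_subset.trans hUS) (fun x hx => (mem_filter.1 (mem_sdiff.1 hx).1).2) (by
      rw [← hL]
      omega)
  set g := 10 * ((p + j + 1 + 1) * l ^ q) with hg
  have a0 : 2 * ((j + 1) ^ 2 * l ^ (4 * j + 2) * g) ≤ l ^ p := by
    calc _ = 20 * (j + 1) ^ 2 * (l ^ (4 * j + 2) * l ^ q * (p + j + 1 + 1)) := by rw [hg]; ring
      _ ≤ l * (l ^ (4 * j + 2) * l ^ q * l ^ j) :=
        Nat.mul_le_mul hj (Nat.mul_le_mul_left _ (by omega))
      _ = l ^ p := by rw [hp]; ring
  have a1 : 2 * (p + 1) ≤ l ^ p := by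
    have k1 : l ^ (j + 1) ≤ l ^ p := Nat.pow_le_pow_right h.pos (by omega)
    have := h.hl
    rw [pow_succ] at k1
    nlinarith
  have a2 : g + 1 ≤ L := by
    have k1 : l ^ p ≤ L := Nat.pow_le_pow_right h.pos (by omega)
    have k2 : 1 * g ≤ (j + 1) ^ 2 * l ^ (4 * j + 2) * g :=
      Nat.mul_le_mul_right _ (Nat.mul_pos (by positivity) (pow_pos h.pos _))
    omega
  obtain ⟨G1, g6, g7, g8⟩ : ∃ G1 ⊆ G0, (∀ u ∈ G1, ∀ v ∈ G1, adj u v → col u v ∈ R) ∧
      g < G1.card := by
    by_contra k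
    push Not at k
    have := rcol2 h g5 k
    omega
  obtain ⟨G, g9, g10⟩ := exists_subset_card_eq (Nat.succ_le_of_lt g8)
  have hc : ∀ u ∈ G, ∀ v ∈ G, adj u v → col u v ∈ R := fun u hu v hv => g7 u (g9 hu) v (g9 hv)
  have hGU : ∀ z ∈ G, z ∈ U ∧ z ∉ D := fun z hz => mem_sdiff.1 (g3 (g6 (g9 hz)))
  have hGX : G ⊆ X := fun z hz => hUS (hGU z hz).1
  have a3 : ∀ n, G.card ≤ 10 * n → (R.card + 1) * l ^ q < n := fun n k => by
    have : (R.card + 1) * l ^ q ≤ (p + j + 1 + 1) * l ^ q := Nat.mul_le_mul_right _ (by omega)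
    omega
  set Sp := X.filter fun x => G.card ≤ 10 * (G.filter fun z => adj z x).card with hSp
  have hGp : 0 < G.card := by omega
  have c3 : 3 * X.card ≤ 10 * Sp.card := by
    have k1 := Finset.sum_card_bipartiteAbove_eq_sum_card_bipartiteBelow adj (s := G) (t := X)
    simp only [bipartiteAbove, bipartiteBelow] at k1
    have k2 : ∑ _z ∈ G, 2 * X.card ≤ ∑ z ∈ G, 5 * (X.filter fun u => adj z u).card := by
      refine sum_le_sum fun z hz => ?_
      by_contra k
      exact (hGU z hz).2 (mem_filter.2 ⟨hGX hz, not_le.1 k⟩)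
    have k3 : ∑ x ∈ X, 10 * (G.filter fun z => adj z x).card ≤
        ∑ x ∈ X, (G.card + if G.card ≤ 10 * (G.filter fun z => adj z x).card then 10 * G.card
          else 0) := by
      refine sum_le_sum fun x _ => ?_
      have := card_filter_le G fun z => adj z x
      split_ifs <;> omega
    rw [sum_add_distrib, ← sum_filter, ← hSp, sum_const, sum_const, smul_eq_mul, smul_eq_mul,
      ← mul_sum, ← k1] at k3
    rw [sum_const, smul_eq_mul, ← mul_sum] at k2
    apply Nat.le_of_mul_le_mul_right _ hGp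
    nlinarith
  have c4 := card_le_card_sdiff_add_card (s := Sp) (t := G)
  have c5 : Sp \ G ⊆ X := sdiff_subset.trans (filter_subset _ _)
  obtain ⟨X', x1, O, x2, x3, x4⟩ := strata (adj := adj) (col := col) (G := G) (N := Sp \ G)
    (R := R) (Q := fun B => q ≤ B.card) (n := 6 * j + 4) (by
      intro x hx
      have hx' := mem_sdiff.1 hx
      obtain ⟨s, z, P, B, q1, q2, q3, q4, q5, q6⟩ := pig h (by omega) hc x
        (a3 _ (mem_filter.1 hx'.1).2)
      refine ⟨_, s, _, _, q1.snoc q5 (fun k => hx'.2 (q2 k)) q6,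
        insert_subset (mem_union_right _ hx) (q2.trans subset_union_left), ?_, ?_, rfl⟩
      · exact q4 ▸ card_le_card (subset_inter (subset_insert _ _) q3)
      · refine le_trans (card_le_card (t := {x}) fun u hu => ?_) (by simp)
        rw [mem_inter, mem_insert, mem_sdiff] at hu
        exact mem_singleton.2 (hu.1.resolve_right fun k => hu.2.2 (q2 k))) (by
      rintro x - d ⟨s, P, B, p1, p2, p3, -, rfl⟩
      have k1 := le_of_noP hX p1 (p2.trans (union_subset hGX c5))
      have k2 := card_sdiff_add_card_inter B R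
      omega)
  refine ⟨X', x1.trans c5, R, O, ?_, by omega, fun x => (x3 x).trans (by omega), x4, ?_⟩
  · rw [mul_assoc]
    exact le_trans (by omega) (Nat.mul_le_mul_left 4 x2)
  intro S W A s1 s2 s3 s4 s5 s6
  have e1 : p + j + 1 + 1 = q + (6 * j + 4) + 1 := by omega
  rw [e1] at s1
  have c6 := card_filter_add_card_filter_not (s := W)
    fun x => G.card ≤ 10 * (G.filter fun z => adj z x).card
  by_cases k : W.card ≤
      4 * (W.filter fun x => G.card ≤ 10 * (G.filter fun z => adj z x).card).card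
  · exact ub_half h (by omega) s1 (hGX.trans s2) s3 (s4.mono_right hGX) hc s6 (filter_subset _ _) k
      fun y hy => a3 _ (mem_filter.1 hy).2
  · refine ub_half h.flip (by omega) (fun k => s1 k.of_reverse) (hGX.trans s2) s3
      (s4.mono_right hGX) (fun u hu v hv => hc v hv u hu) s5
      (filter_subset (fun x => ¬ G.card ≤ 10 * (G.filter fun z => adj z x).card) _) (by omega)
      fun y hy => a3 _ ?_
    have k1 := split_at h.hT G y
    have k2 := (mem_filter.1 hy).2
    have k3 : 10 ≤ g := Nat.le_mul_of_pos_right _ (Nat.mul_pos (by omega) (pow_pos h.pos _))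
    omega

/-- Labelled sets inside `X` that avoid the colours `A` are small. -/
def TB (adj : V → V → Prop) (col : V → V → C) (l F c : ℕ) (A : Finset C) (X : Finset V) : Prop :=
  ∀ N ⊆ X, ∀ γ : V → C, FreeS adj col A N → (∀ x ∈ N, γ x ∉ A) →
    Rq adj col (fun x => some (γ x)) c N → N.card ≤ F * l ^ c

/-- The constant of the rooted bound in one part. -/
def cF (j : ℕ) : ℕ := 120 * (6 * j + 4 + (j + 2) * (12 * j + 9)) + 8 * (12 * j + 9)

theorem core_loc {l K j : ℕ} (h : Ctx adj col l K) (hK : K + 1 ≤ l ^ j)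
    (hj : 20 * (j + 1) ^ 2 ≤ l) {X : Finset V} {R R' : Finset C} {O I : V → Finset C}
    (h1 : R'.card ≤ K) (h2 : ∀ x, (O x).card ≤ 12 * j + 9) (h3 : ∀ x, (I x).card ≤ 12 * j + 9)
    (h4 : ∀ u ∈ X, ∀ v ∈ X, adj u v → col u v ∉ R → col u v ∈ O u)
    (h5 : ∀ u ∈ X, ∀ v ∈ X, adj u v → col u v ∉ R' → col u v ∈ I v) :
    Core adj col X R (l ^ ((j + 2) * (12 * j + 9))) := by
  intro L hL hf
  refine (loc_bound (M := K + (12 * j + 9)) h.hT h.gr (fun v => R' ∪ I v) (12 * j + 9) L O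
    (fun x _ => ⟨h2 x, (card_union_le _ _).trans (Nat.add_le_add h1 (h3 x))⟩)
    fun u hu v hv k => ⟨h4 u (hL hu) v (hL hv) k (hf u hu v hv k), ?_⟩).trans ?_
  · by_cases e : col u v ∈ R'
    · exact mem_union_left _ e
    · exact mem_union_right _ (h5 u (hL hu) v (hL hv) k e)
  · rw [pow_mul]
    refine Nat.pow_le_pow_left ?_ _
    obtain ⟨n, rfl⟩ : ∃ n, l = 24 * j + 20 + n := ⟨l - (24 * j + 20), by
      have : 24 * j + 20 ≤ l := by nlinarith
      omega⟩
    rw [pow_add]
    nlinarith [Nat.mul_le_mul_right ((24 * j + 20 + n) ^ 2) hK, Nat.zero_le (K * n),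
      Nat.zero_le (K * j), Nat.zero_le (K * j * n), Nat.zero_le (K * j * j),
      Nat.zero_le (K * n * n), Nat.zero_le (j * n)]

theorem tb_of {l K j c : ℕ} (h : Ctx adj col l K) (hc : c < K) {X : Finset V} {R R' A : Finset C}
    {O I : V → Finset C} (h1 : R.card ≤ c + A.card) (h1' : R'.card ≤ c + A.card)
    (h2 : ∀ x, (O x).card ≤ 12 * j + 9) (h3 : ∀ x, (I x).card ≤ 12 * j + 9)
    (h4 : ∀ u ∈ X, ∀ v ∈ X, adj u v → col u v ∉ R → col u v ∈ O u)
    (h5 : ∀ u ∈ X, ∀ v ∈ X, adj u v → col u v ∉ R' → col u v ∈ I v)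
    (h6 : Core adj col X R (l ^ ((j + 2) * (12 * j + 9))))
    (h6' : Core adj col X R' (l ^ ((j + 2) * (12 * j + 9))))
    (h7 : (A \ R).card ≤ 6 * j + 5) (h7' : (A \ R').card ≤ 6 * j + 5) :
    TB adj col l (cF j) c A X := by
  intro N hN γ hf hγ hq
  have key : ∀ R : Finset C, R.card ≤ c + A.card →
      Core adj col X R (l ^ ((j + 2) * (12 * j + 9))) → (A \ R).card ≤ 6 * j + 5 →
      (N.filter fun x => γ x ∈ R).card ≤ 60 * (6 * j + 4 + (j + 2) * (12 * j + 9)) * l ^ c := by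
    intro R k1 k2 k3
    refine ri h (by omega) hc γ (k2.sdiff ((filter_subset _ _).trans hN)
      (hf.mono Subset.rfl (filter_subset _ _))) ?_ (hq.mono (filter_subset _ _))
      fun x hx => mem_sdiff.2 ⟨(mem_filter.1 hx).2, hγ x (mem_filter.1 hx).1⟩
    rw [← pow_add, ← pow_add]
    have := card_sdiff_add_card_inter R A
    have := card_sdiff_add_card_inter A R
    rw [inter_comm] at this
    exact Nat.pow_le_pow_right h.pos (by omega)
  have k1 := key R h1 h6 h7
  have k2 := key R' h1' h6' h7'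
  have k3 := ro h hc.le (n := 2 * (12 * j + 9)) (by omega) γ
    (hq.mono (filter_subset (fun x => γ x ∉ R ∧ γ x ∉ R') N)) (fun x => O x ∪ I x)
    (fun x _ => (card_union_le _ _).trans (by have := h2 x; have := h3 x; omega)) (by
      intro t ht u hu v hv k k'
      rw [mem_filter] at ht hu hv
      exact ⟨mem_union_left _ (k' ▸ h4 u (hN hu.1) v (hN hv.1) k (k' ▸ ht.2.1)),
        mem_union_right _ (k' ▸ h5 u (hN hu.1) v (hN hv.1) k (k' ▸ ht.2.2))⟩)
  have k4 : N ⊆ (N.filter fun x => γ x ∈ R) ∪ ((N.filter fun x => γ x ∈ R') ∪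
      N.filter fun x => γ x ∉ R ∧ γ x ∉ R') := by
    intro x hx
    simp only [mem_union, mem_filter]
    tauto
  have k5 := (card_le_card k4).trans ((card_union_le _ _).trans
    (Nat.add_le_add_left (card_union_le _ _) _))
  rw [cF]
  linarith

theorem part {l K j c : ℕ} (h : Ctx adj col l K) (hK : K + 1 ≤ l ^ j)
    (hj : 20 * (j + 1) ^ 2 ≤ l) {A A' : Finset C} (hm : c + A.card ≤ K) (hc : c < K)
    (hA : (A \ A').card ≤ 1) {S W X : Finset V} (hS : ¬ HasP adj col S (c + A.card + 1))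
    (hX : X ⊆ S) (hW : W ⊆ S) (hd : Disjoint W X) (p1 : Pal adj col W A')
    (p2 : Pal (flip adj) (flip col) W A')
    (hn : 240 * (6 * j + 5) * l ^ (c + A.card) < l * X.card) :
    ∃ X' ⊆ X, X.card ≤ 16 * (6 * j + 5) ^ 2 * X'.card ∧ TB adj col l (cF j) c A X' ∧
      TB (flip adj) (flip col) l (cF j) c A X' := by
  have hS' : ¬ HasP (flip adj) (flip col) S (c + A.card + 1) := fun k => hS k.of_reverse
  obtain ⟨X1, x1, R, O, r1, r2, r3, r4, r5⟩ := ex_part h hK hj hm (X := X)
    (fun k => hS (k.mono hX)) (lt_of_le_of_lt (Nat.mul_le_mul_right _ (by omega)) hn)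
  obtain ⟨X2, x2, R', I, s1, s2, s3, s4, s5⟩ := ex_part h.flip hK hj hm (X := X1)
    (fun k => hS' (k.mono (x1.trans hX))) (by
      apply Nat.lt_of_mul_lt_mul_left (a := 4 * (6 * j + 5))
      nlinarith [Nat.mul_le_mul_left l r1])
  have u1 := r5 S W A' hS hX hW hd p1 p2
  have u2 := s5 S W A' hS' (x1.trans hX) hW (hd.mono_right x1) p2 p1
  have key : ∀ R : Finset C, (A' \ R).card ≤ 6 * j + 4 → (A \ R).card ≤ 6 * j + 5 := by
    intro R k
    have k1 := (card_le_card (sdiff_triangle (a := A) (b := A') (c := R))).trans (card_union_le _ _)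
    omega
  have r4' : ∀ u ∈ X2, ∀ v ∈ X2, adj u v → col u v ∉ R → col u v ∈ O u :=
    fun u hu v hv => r4 u (x2 hu) v (x2 hv)
  have s4' : ∀ u ∈ X2, ∀ v ∈ X2, adj u v → col u v ∉ R' → col u v ∈ I v :=
    fun u hu v hv => s4 v hv u hu
  have c1 := core_loc h hK hj (s2.trans hm) r3 s3 r4' s4'
  have c2 := core_loc h.flip hK hj (r2.trans hm) s3 r3 s4 fun u hu v hv => r4' v hv u hu
  refine ⟨X2, x2.trans x1, (r1.trans (Nat.mul_le_mul_left _ s1)).trans (le_of_eq (by ring)),
    tb_of h hc r2 s2 r3 s3 r4' s4' c1 c2.flip (key R u1) (key R' u2),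
    tb_of h.flip hc s2 r2 s3 r3 s4 (fun u hu v hv => r4' v hv u hu) c2 c1.flip (key R' u2)
      (key R u1)⟩

theorem TB.union {l F F' c : ℕ} {A : Finset C} {X X' Y : Finset V} (h : TB adj col l F c A X)
    (h' : TB adj col l F' c A X') (hY : Y ⊆ X ∪ X') : TB adj col l (F + F') c A Y := by
  intro N hN γ hf hγ hq
  have k1 := h (N ∩ X) inter_subset_right γ (hf.mono Subset.rfl inter_subset_left)
    (fun x hx => hγ x (mem_inter.1 hx).1) (hq.mono inter_subset_left)
  have k2 := h' (N \ X) (fun x hx => (mem_union.1 (hY (hN (mem_sdiff.1 hx).1))).resolve_left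
    (mem_sdiff.1 hx).2) γ (hf.mono Subset.rfl sdiff_subset)
    (fun x hx => hγ x (mem_sdiff.1 hx).1) (hq.mono sdiff_subset)
  have k3 := card_sdiff_add_card_inter N X
  rw [add_mul]
  omega

theorem TB.empty {l F c : ℕ} {A : Finset C} : TB adj col l F c A ∅ := fun N hN _ _ _ _ => by
  simp [subset_empty.1 hN]

theorem tame {l K j w c : ℕ} (h : Ctx adj col l K) (hK : K + 1 ≤ l ^ j)
    (hj : 20 * (j + 1) ^ 2 ≤ l) (hw : l ≤ 2 ^ w) {A A' : Finset C} (hm : c + A.card ≤ K)
    (hc : c < K) (hA : (A \ A').card ≤ 1) {S W X : Finset V}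
    (hS : ¬ HasP adj col S (c + A.card + 1)) (hX : X ⊆ S) (hW : W ⊆ S) (hd : Disjoint W X)
    (p1 : Pal adj col W A') (p2 : Pal (flip adj) (flip col) W A')
    (hn : X.card ≤ 2 * l ^ (c + A.card)) :
    ∃ Z ⊆ X, l * Z.card ≤ 240 * (6 * j + 5) * l ^ (c + A.card) ∧
      TB adj col l (16 * (6 * j + 5) ^ 2 * w * cF j) c A (X \ Z) ∧
      TB (flip adj) (flip col) l (16 * (6 * j + 5) ^ 2 * w * cF j) c A (X \ Z) := by
  obtain ⟨a, ha⟩ : ∃ a, 16 * (6 * j + 5) ^ 2 = a + 1 :=
    ⟨_, (Nat.succ_pred_eq_of_pos (by positivity)).symm⟩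
  have key : ∀ n, ∃ Z ⊆ X, (l * Z.card ≤ 240 * (6 * j + 5) * l ^ (c + A.card) ∨
      (a + 1) ^ n * Z.card ≤ a ^ n * X.card) ∧ TB adj col l (n * cF j) c A (X \ Z) ∧
      TB (flip adj) (flip col) l (n * cF j) c A (X \ Z) := by
    intro n
    induction n with
    | zero => exact ⟨X, Subset.rfl, Or.inr le_rfl, by rw [sdiff_self]; exact TB.empty,
        by rw [sdiff_self]; exact TB.empty⟩
    | succ n ih =>
      obtain ⟨Z, z1, z2, z3, z4⟩ := ih
      rw [add_one_mul n]
      by_cases k : l * Z.card ≤ 240 * (6 * j + 5) * l ^ (c + A.card)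
      · exact ⟨Z, z1, Or.inl k, z3.union TB.empty subset_union_left,
          z4.union TB.empty subset_union_left⟩
      obtain ⟨X', x1, x2, x3, x4⟩ := part h hK hj hm hc hA hS (z1.trans hX) hW (hd.mono_right z1)
        p1 p2 (not_le.1 k)
      have k1 : X \ (Z \ X') ⊆ (X \ Z) ∪ X' := by
        intro x hx
        simp only [mem_union, mem_sdiff] at hx ⊢
        tauto
      refine ⟨Z \ X', sdiff_subset.trans z1, Or.inr ?_, z3.union x3 k1, z4.union x4 k1⟩
      have k2 := card_sdiff_add_card_eq_card x1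
      have k3 : (a + 1) * (Z \ X').card ≤ a * Z.card := by
        rw [ha] at x2
        nlinarith
      rw [pow_succ, pow_succ]
      nlinarith [Nat.mul_le_mul_left ((a + 1) ^ n) k3, Nat.mul_le_mul_left a (z2.resolve_left k)]
  rw [ha]
  obtain ⟨Z, z1, z2, z3⟩ := key ((a + 1) * w)
  refine ⟨Z, z1, z2.elim id fun k => ?_, z3⟩
  have k1 : 2 * a ^ (a + 1) ≤ (a + 1) ^ (a + 1) := by
    have := pow_add_mul_le_add_pow (a := a) (b := 1) (Nat.zero_le _) (Nat.zero_le _) (a + 1)
    simp only [Nat.add_sub_cancel, Nat.cast_id, mul_one] at this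
    rw [pow_succ a] at this ⊢
    nlinarith [Nat.zero_le (a ^ a)]
  have k2 := Nat.pow_le_pow_left k1 w
  rw [mul_pow, ← pow_mul, ← pow_mul] at k2
  have k3 : 0 < a ^ ((a + 1) * w) := pow_pos (by
    have : 0 < (6 * j + 5) ^ 2 := by positivity
    omega) _
  have k4 : 2 ^ w * Z.card ≤ X.card := by
    apply Nat.le_of_mul_le_mul_left _ k3
    nlinarith [Nat.mul_le_mul_right Z.card k2]
  nlinarith [Nat.mul_le_mul_right Z.card hw, Nat.zero_le (j * l ^ (c + A.card))]

end Pool.Agent.H31Fed
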