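import Pool.Agent.Lib.MP_fed786_co.H31YC

set_option autoImplicit false

namespace Pool.Agent.H31Fed
open Finset Pool.Agent.H66Fed

variable {V C : Type} [DecidableEq V] [DecidableEq C]
variable {adj : V → V → Prop} {col : V → V → C}

theorem tp_root (hT : ∀ u v, u ≠ v → adj u v ∨ adj v u) (hirr : ∀ v, ¬ adj v v) {S : Finset V}
    (hno : ∀ x ∈ S, ∀ y ∈ S, ∀ z ∈ S, adj x y → adj y z → col x y ≠ col y z) :
    ∀ (r : ℕ) (N : Finset V) (γ : V → C), N ⊆ S → (∀ u ∈ N, ∀ v ∈ N, adj u v → col u v ≠ γ v) →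
      Rq adj col (fun x => some (γ x)) r N → 3 * N.card + 1 ≤ 4 ^ r := by
  classical
  intro r
  induction r with
  | zero =>
    intro N γ _ _ hq
    have : N = ∅ := eq_empty_of_forall_notMem fun x hx => by
      simpa using (hq x x _ _ (RPath.single x) (singleton_subset_iff.2 hx)).1 _ rfl (notMem_empty _)
    simp [this]
  | succ r ih =>
    intro N γ h1 h2 hq
    have k0 : 1 ≤ 4 ^ r := Nat.one_le_pow _ _ (by omega)
    have := tour_deg hT (S := N) (d := 2 * ((4 ^ r - 1) / 3)) fun x hx => by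
      have key : ∀ M ⊆ N.filter fun u => adj u x, Fr adj col (γ x) M → 3 * M.card + 1 ≤ 4 ^ r := by
        intro M hM hf
        have hN := hM.trans (filter_subset _ _)
        refine ih M (fun u => col u x) (hN.trans h1) (fun u hu v hv k =>
          hno u (h1 (hN hu)) v (h1 (hN hv)) x (h1 hx) k (mem_filter.1 (hM hv)).2) ?_
        intro s t P B p hP
        refine ⟨fun b e k => ?_, by simp⟩
        obtain rfl := Option.some.inj e
        have k1 := mem_filter.1 (hM (hP p.end_mem))
        have := (hq _ _ _ _ (p.snoc k1.2 (fun j => hirr x (mem_filter.1 (hM (hP j))).2) k)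
          (insert_subset hx (hP.trans hN))).1 _ rfl (by
            rw [mem_insert, not_or]
            exact ⟨(h2 t k1.1 x hx k1.2).symm, hf.notMem p hP⟩)
        rw [card_insert_of_notMem k] at this
        omega
      have k1 := key _ (filter_subset (fun u => OutA adj col (γ x) S u) _) fun u hu v hv k e => by
        simp only [mem_filter] at hu hv
        obtain ⟨w, w1, w2⟩ := hv.2
        exact hno u (h1 hu.1.1) v (h1 hv.1.1) w w1 k w2.1 (e.trans w2.2.symm)
      have k2 := key _ (filter_subset (fun u => ¬ OutA adj col (γ x) S u) _) fun u hu v hv k e => by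
        simp only [mem_filter] at hu hv
        exact hu.2 ⟨v, h1 hv.1.1, k, e⟩
      have k3 := card_filter_add_card_filter_not (s := N.filter fun u => adj u x)
        fun u => OutA adj col (γ x) S u
      omega
    rw [pow_succ]
    omega

theorem two_path (hT : ∀ u v, u ≠ v → adj u v ∨ adj v u) (hirr : ∀ v, ¬ adj v v) {S : Finset V}
    {m : ℕ} (hS : ¬ HasP adj col S (m + 1))
    (hno : ∀ x ∈ S, ∀ y ∈ S, ∀ z ∈ S, adj x y → adj y z → col x y ≠ col y z) : S.card ≤ 4 ^ m := by
  classical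
  have k0 : 1 ≤ 4 ^ m := Nat.one_le_pow _ _ (by omega)
  have := tour_deg hT (S := S) (d := (4 ^ m - 1) / 3) fun x hx => by
    have := tp_root hT hirr hno m (S.filter fun u => adj u x) (fun u => col u x) (filter_subset _ _)
      (fun u hu v hv k => hno u (mem_filter.1 hu).1 v (mem_filter.1 hv).1 x hx k
        (mem_filter.1 hv).2) (by
        intro s t P B p hP
        refine ⟨fun b e k => ?_, by simp⟩
        obtain rfl := Option.some.inj e
        have := le_of_noP hS (p.snoc (mem_filter.1 (hP p.end_mem)).2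
          (fun j => hirr x (mem_filter.1 (hP j)).2) k)
          (insert_subset hx (hP.trans (filter_subset _ _)))
        rwa [card_insert_of_notMem k] at this)
    omega
  omega

theorem fr_out {l K c : ℕ} (h : Ctx adj col l K) (hc : c < K) {S L : Finset V} {a : C}
    (hS : ¬ HasP adj col S (c + 1 + 1)) (hL : L ⊆ S) (hf : Fr adj col a L)
    (ho : ∀ x ∈ L, OutA adj col a S x) : L.card ≤ l ^ c := by
  refine h.ih' hc ?_
  rintro ⟨s, t, P, B, p, p1, p2⟩
  obtain ⟨v, v1, v2, v3⟩ := ho t (p1 p.end_mem)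
  have k : col t v ∉ B := v3 ▸ hf.notMem p p1
  exact hS ⟨s, v, _, _, p.snoc v2 (fun j => hf t (p1 p.end_mem) v (p1 j) v2 v3) k,
    insert_subset v1 (p1.trans hL), by rw [card_insert_of_notMem k, p2]⟩

theorem fr_card {l K c : ℕ} (h : Ctx adj col l K) (hc : c < K) {S L : Finset V} {a : C}
    (hS : ¬ HasP adj col S (c + 1 + 1)) (hL : L ⊆ S \ Unt adj col a S S) (hf : Fr adj col a L) :
    L.card ≤ 2 * l ^ c := by
  classical
  have k0 := hL.trans sdiff_subset
  have k1 := fr_out h hc hS ((filter_subset (fun x => OutA adj col a S x) L).trans k0)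
    (fun u hu v hv => hf u (mem_filter.1 hu).1 v (mem_filter.1 hv).1) fun x hx => (mem_filter.1 hx).2
  have k2 := fr_out h.flip hc (a := a) (fun k => hS k.of_reverse)
    ((filter_subset (fun x => ¬ OutA adj col a S x) L).trans k0)
    (fun u hu v hv => hf v (mem_filter.1 hv).1 u (mem_filter.1 hu).1) fun x hx => by
      rw [mem_filter] at hx
      by_contra k
      exact (mem_sdiff.1 (hL hx.1)).2 (mem_unt.2 ⟨k0 hx.1, k, hx.2⟩)
  have k3 := card_filter_add_card_filter_not (s := L) fun x => OutA adj col a S x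
  omega

open Classical in
theorem unt_half {l F c : ℕ} (hirr : ∀ v, ¬ adj v v) {S X : Finset V} {a : C} {y z : V}
    (hS : ¬ HasP adj col S (c + 1 + 1)) (hb : TB adj col l F c {a} X)
    (hX : ∀ u ∈ X, u ∈ S ∧ ¬ InA adj col a S u ∧ ¬ OutA adj col a S u) (hy : y ∈ S) (hz : z ∈ S)
    (k : Arc adj col a y z) : (X.filter fun u => adj u y).card ≤ F * l ^ c := by
  have hf : Fr adj col a (X.filter fun u => adj u y) := fun u hu v hv k k' =>
    (hX u (mem_filter.1 hu).1).2.2 ⟨v, (hX v (mem_filter.1 hv).1).1, k, k'⟩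
  have hγ : ∀ u ∈ X.filter fun u => adj u y, col u y ≠ a := fun u hu e =>
    (hX u (mem_filter.1 hu).1).2.2 ⟨y, hy, (mem_filter.1 hu).2, e⟩
  refine hb _ (filter_subset _ _) (fun u => col u y)
    (fun u hu v hv k k' => hf u hu v hv k (mem_singleton.1 k'))
    (fun u hu e => hγ u hu (mem_singleton.1 e)) ?_
  intro s t P B p hP
  refine ⟨fun b e j => ?_, by simp⟩
  obtain rfl := Option.some.inj e
  have j1 : col y z ∉ insert (col t y) B := by
    rw [k.2, mem_insert, not_or]
    exact ⟨(hγ t (hP p.end_mem)).symm, hf.notMem p hP⟩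
  have := le_of_noP hS ((p.snoc (mem_filter.1 (hP p.end_mem)).2
    (fun j => hirr y (mem_filter.1 (hP j)).2) j).snoc k.1 (by
      rw [mem_insert, not_or]
      exact ⟨fun e => hirr y (e ▸ k.1), fun j => (hX z (mem_filter.1 (hP j)).1).2.1 ⟨y, hy, k⟩⟩) j1)
    (insert_subset hz (insert_subset hy fun u hu => (hX u (mem_filter.1 (hP hu)).1).1))
  rw [card_insert_of_notMem j1, card_insert_of_notMem j] at this
  omega

/-- Numerical side conditions. -/
structure Nm (l K j w : ℕ) : Prop where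
  hK : K + 1 ≤ l ^ j
  hj : 20 * (j + 1) ^ 2 ≤ l
  hw : l ≤ 2 ^ w

/-- The constant of the cores. -/
def cC (j w : ℕ) : ℕ := 2 * (1 + 16 * (6 * j + 5) ^ 2 * w * cF j)

/-- The constant of the exceptional sets. -/
def cD (j w : ℕ) : ℕ := 5 + 480 * (6 * j + 5) + cC j w

theorem unt_bound {l K j w c : ℕ} (h : Ctx adj col l K) (hn : Nm l K j w) (hc : c < K)
    {S : Finset V} (hS : ¬ HasP adj col S (c + 1 + 1)) (h2 : S.card ≤ 2 * l ^ (c + 1)) {a : C}
    {x y z : V} (hx : x ∈ S) (hy : y ∈ S) (hz : z ∈ S) (k1 : Arc adj col a x y)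
    (k2 : Arc adj col a y z) :
    (Unt adj col a S S).card ≤ (240 * (6 * j + 5) + cC j w) * l ^ c := by
  classical
  have k0 : Unt adj col a S S ⊆ S := fun u hu => (mem_unt.1 hu).1
  obtain ⟨Z, z1, z2, z3, z4⟩ := tame h hn.hK hn.hj hn.hw (c := c) (A := {a}) (A' := ∅) hc hc
    (by simp) hS k0 (singleton_subset_iff.2 hy)
    (disjoint_singleton_left.2 fun k => (mem_unt.1 k).2.2 ⟨z, hz, k2⟩) (pal_single y)
    (pal_single y) ((card_le_card k0).trans h2)
  have k3 := unt_half h.irr hS z3 (fun u hu => mem_unt.1 (mem_sdiff.1 hu).1) hy hz k2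
  have k4 := unt_half h.flip.irr (fun k => hS k.of_reverse) z4
    (fun u hu => (mem_unt.1 (mem_sdiff.1 hu).1).imp_right And.symm) hy hx k1
  have k5 := split_at h.hT (Unt adj col a S S \ Z) y
  have k6 := card_le_card_sdiff_add_card (s := Unt adj col a S S) (t := Z)
  have k7 : Z.card ≤ 240 * (6 * j + 5) * l ^ c := by
    apply Nat.le_of_mul_le_mul_left _ h.pos
    rw [card_singleton, pow_succ] at z2
    linarith
  have k8 : 1 ≤ l ^ c := Nat.one_le_pow _ _ h.pos
  rw [cC]
  linarith

open Classical in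
theorem lift_half {l K F c : ℕ} (h : Ctx adj col l K) (hc : c < K) {S W X L : Finset V}
    {A : Finset C} {a : C} (ha : a ∉ A) (hS : ¬ HasP adj col S (c + (A.card + 1) + 1))
    (hW : W ⊆ S) (hp : Pal (flip adj) (flip col) W A) (hb : TB adj col l F c (insert a A) X)
    (hL : L ⊆ X) (hf : FreeS adj col (insert a A) L)
    (h1 : ∀ x ∈ L, x ∈ S \ W ∧ InA adj col a (S \ W) x ∧
      W.card ≤ 4 * (W.filter fun t => adj x t).card) : L.card ≤ (1 + F) * l ^ c := by
  have k : ∀ x, ∃ t, x ∈ L → ∀ s P B, RPath adj col s x P B → P ⊆ L → col x t ∉ B →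
      B.card ≤ c ∧ (col x t ∉ insert a A → B.card + 1 ≤ c) := by
    intro x
    by_cases hx : x ∈ L
    swap
    · exact ⟨x, fun k => absurd k hx⟩
    obtain ⟨y, t, Q, B', q, q1, q2, q3, q4⟩ := hp _ (filter_subset _ _) (h1 x hx).2.2 ∅
      fun t => col x t
    rw [sdiff_empty] at q2 q4
    refine ⟨t, fun _ s P B p p1 p2 => ?_⟩
    have hQ := q1.trans (filter_subset _ _)
    have d0 := hf.disj p p1
    have d1 : Disjoint B B' := d0.mono_right (q2.trans (subset_insert _ _))
    have r := RPath.append p (mem_filter.1 (q1 q.end_mem)).2 q.reverse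
      (disjoint_left.2 fun u hu k => (mem_sdiff.1 (h1 u (p1 hu)).1).2 (hQ k)) p2 q3 d1
    have r1 : P ∪ Q ⊆ S := union_subset (fun u hu => (mem_sdiff.1 (h1 u (p1 hu)).1).1)
      (hQ.trans hW)
    have r2 : (insert (col x t) (B ∪ B')).card = B.card + B'.card + 1 := by
      rw [card_insert_of_notMem (by simp [p2, q3]), card_union_of_disjoint d1]
    have r3 : col x t ∉ A → A.card ≤ B'.card := fun e =>
      card_le_card ((subset_insert_iff_of_notMem e).1 q4)
    have r4 := (card_le_card q4).trans (card_insert_le _ _)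
    by_cases e : col x t = a
    · have := le_of_noP hS r r1
      have := r3 (e ▸ ha)
      exact ⟨by omega, fun k => absurd (e ▸ mem_insert_self _ _) k⟩
    obtain ⟨u, u1, u2, u3⟩ := (h1 s (p1 p.start_mem)).2.1
    have r5 : col u s ∉ insert (col x t) (B ∪ B') := by
      rw [u3, mem_insert, mem_union, not_or, not_or]
      exact ⟨Ne.symm e, disjoint_right.1 d0 (mem_insert_self _ _), fun k => ha (q2 k)⟩
    have := le_of_noP hS (r.cons u2 (by
      rw [mem_union, not_or]
      exact ⟨fun k => hf u (p1 k) s (p1 p.start_mem) u2 (u3 ▸ mem_insert_self _ _),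
        fun k => (mem_sdiff.1 u1).2 (hQ k)⟩) r5) (insert_subset (mem_sdiff.1 u1).1 r1)
    rw [card_insert_of_notMem r5] at this
    exact ⟨by omega, fun k => by
      have := r3 fun k' => k (mem_insert_of_mem k')
      omega⟩
  choose t ht using k
  have k1 := h.ih' hc (U := L.filter fun x => col x (t x) ∈ insert a A) (by
    rintro ⟨s, x, P, B, p, p1, p2⟩
    have j1 := mem_filter.1 (p1 p.end_mem)
    have j2 := p1.trans (filter_subset _ _)
    have := (ht x j1.1 s P B p j2 (disjoint_right.1 (hf.disj p j2) j1.2)).1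
    omega)
  have k2 := hb (L.filter fun x => ¬ col x (t x) ∈ insert a A) ((filter_subset _ _).trans hL)
    (fun x => col x (t x)) (hf.mono Subset.rfl (filter_subset _ _))
    (fun x hx => (mem_filter.1 hx).2) (by
      intro s x P B p p1
      refine ⟨fun b e j => ?_, by simp⟩
      obtain rfl := Option.some.inj e
      have j1 := mem_filter.1 (p1 p.end_mem)
      exact (ht x j1.1 s P B p (p1.trans (filter_subset _ _)) j).2 j1.2)
  have k3 := card_filter_add_card_filter_not (s := L) fun x => col x (t x) ∈ insert a A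
  rw [add_mul]
  omega

theorem lift {l K j w c n : ℕ} (h : Ctx adj col l K) (hn : Nm l K j w) {S W : Finset V}
    {A : Finset C} {a : C} (ha : a ∉ A) (hA : c + A.card = n) (hc : n < K)
    (hS : ¬ HasP adj col S (n + 1 + 1)) (h2 : S.card ≤ 2 * l ^ (n + 1)) (hW : W ⊆ S)
    (h3 : W.card ≤ l ^ n) (p1 : Pal adj col W A) (p2 : Pal (flip adj) (flip col) W A)
    (hU : (Unt adj col a S S).card ≤ (240 * (6 * j + 5) + cC j w) * l ^ n) :
    ∃ S' ⊆ S, S.card ≤ S'.card + cD j w * l ^ n ∧
      Core adj col S' (insert a A) (cC j w * l ^ c) := by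
  classical
  subst hA
  set X := (S \ W).filter fun x => InA adj col a (S \ W) x ∧ OutA adj col a (S \ W) x with hX
  have k0 : X ⊆ S := (filter_subset _ _).trans sdiff_subset
  have e := card_insert_of_notMem ha
  obtain ⟨Z, z1, z2, z3, z4⟩ := tame h hn.hK hn.hj hn.hw (c := c) (A := insert a A) (A' := A)
    (by omega) (by omega) (by rw [insert_sdiff_of_notMem _ ha]; simp) (S := S) (e ▸ hS) k0 hW
    (disjoint_left.2 fun u hu k => (mem_sdiff.1 (mem_filter.1 k).1).2 hu) p1 p2
    ((card_le_card k0).trans (e ▸ h2))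
  refine ⟨X \ Z, sdiff_subset.trans k0, ?_, fun L hL hf => ?_⟩
  · have k1 := fr_card h hc hS (a := a)
      (L := ((S \ W).filter fun x => ¬ InA adj col a (S \ W) x) \ Unt adj col a S S)
      (sdiff_subset_sdiff ((filter_subset _ _).trans sdiff_subset) Subset.rfl) fun u hu v hv k k' =>
        (mem_filter.1 (mem_sdiff.1 hv).1).2 ⟨u, (mem_filter.1 (mem_sdiff.1 hu).1).1, k, k'⟩
    have k2 := fr_card h hc hS (a := a)
      (L := ((S \ W).filter fun x => ¬ OutA adj col a (S \ W) x) \ Unt adj col a S S)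
      (sdiff_subset_sdiff ((filter_subset _ _).trans sdiff_subset) Subset.rfl) fun u hu v hv k k' =>
        (mem_filter.1 (mem_sdiff.1 hu).1).2 ⟨v, (mem_filter.1 (mem_sdiff.1 hv).1).1, k, k'⟩
    have k3 : S ⊆ X ∪ (W ∪ (Unt adj col a S S ∪
        ((((S \ W).filter fun x => ¬ InA adj col a (S \ W) x) \ Unt adj col a S S) ∪
        (((S \ W).filter fun x => ¬ OutA adj col a (S \ W) x) \ Unt adj col a S S)))) := by
      intro x hx
      simp only [hX, mem_union, mem_filter, mem_sdiff (a := x)]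
      tauto
    have k4 := (card_le_card k3).trans ((card_union_le _ _).trans (Nat.add_le_add_left
      ((card_union_le _ _).trans (Nat.add_le_add_left ((card_union_le _ _).trans
      (Nat.add_le_add_left (card_union_le _ _) _)) _)) _))
    have k6 := card_le_card_sdiff_add_card (s := X) (t := Z)
    have k7 : Z.card ≤ 240 * (6 * j + 5) * l ^ (c + A.card) := by
      apply Nat.le_of_mul_le_mul_left _ h.pos
      rw [e, ← add_assoc, pow_succ] at z2
      linarith
    rw [cD]
    linarith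
  · have hm : ∀ x ∈ L, x ∈ S \ W ∧ InA adj col a (S \ W) x ∧ OutA adj col a (S \ W) x :=
      fun x hx => mem_filter.1 (mem_sdiff.1 (hL hx)).1
    have k1 := lift_half h (by omega) ha hS hW p2 z3
      ((filter_subset (fun x => W.card ≤ 4 * (W.filter fun t => adj x t).card) L).trans hL)
      (hf.mono Subset.rfl (filter_subset _ _)) fun x hx => by
        rw [mem_filter] at hx
        exact ⟨(hm x hx.1).1, (hm x hx.1).2.1, hx.2⟩
    have k2 := lift_half h.flip (by omega) ha (fun k => hS k.of_reverse) hW p1 z4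
      ((filter_subset (fun x => ¬ W.card ≤ 4 * (W.filter fun t => adj x t).card) L).trans hL)
      (hf.flip.mono Subset.rfl (filter_subset _ _)) fun x hx => by
        rw [mem_filter] at hx
        refine ⟨(hm x hx.1).1, (hm x hx.1).2.2, ?_⟩
        have j1 : W ⊆ (W.filter fun t => adj x t) ∪ W.filter fun t => flip adj x t := by
          intro t ht
          rw [mem_union, mem_filter, mem_filter]
          exact (h.hT x t fun e => (mem_sdiff.1 (hm x hx.1).1).2 (e ▸ ht)).imp
            (fun k => ⟨ht, k⟩) fun k => ⟨ht, k⟩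
        have := (card_le_card j1).trans (card_union_le _ _)
        omega
    have k3 := card_filter_add_card_filter_not (s := L)
      fun x => W.card ≤ 4 * (W.filter fun t => adj x t).card
    rw [cC]
    linarith

/-- All but few vertices of `S` have a core with `t` colours. -/
def Cc (adj : V → V → Prop) (col : V → V → C) (l j w c t : ℕ) (S : Finset V) : Prop :=
  ∃ A : Finset C, ∃ S' ⊆ S, A.card = t ∧ l * S.card ≤ l * S'.card + cD j w * l ^ (c + t) ∧
    Core adj col S' A (cC j w * l ^ c)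

/-- Dense sets have cores with `t` colours. -/
def EE (adj : V → V → Prop) (col : V → V → C) (l K j w t : ℕ) (x : ℝ) : Prop :=
  ∀ (c : ℕ) (S : Finset V), c + t ≤ K → ¬ HasP adj col S (c + t + 1) →
    S.card ≤ 2 * l ^ (c + t) → x * l ^ (c + t) < l * S.card → Cc adj col l j w c t S

theorem EE.mono {l K j w t : ℕ} {x x' : ℝ} (h : EE adj col l K j w t x) (hx : x ≤ x') :
    EE adj col l K j w t x' := fun c S h1 h2 h3 h4 =>
  h c S h1 h2 h3 (lt_of_le_of_lt (mul_le_mul_of_nonneg_right hx (by positivity)) h4)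

theorem EE.one {l K j w : ℕ} (h : Ctx adj col l K) (hn : Nm l K j w) :
    EE adj col l K j w 1 4 := by
  intro c S h1 h2 h3 h4
  have k1 : 4 * l ^ (c + 1) < l * S.card := by exact_mod_cast h4
  have k2 : 4 ^ c ≤ l ^ c := Nat.pow_le_pow_left (h.hl.trans' (by norm_num)) _
  obtain ⟨x, hx, y, hy, z, hz, a1, a2, a3⟩ : ∃ x ∈ S, ∃ y ∈ S, ∃ z ∈ S, adj x y ∧ adj y z ∧
      col x y = col y z := by
    by_contra k
    push Not at k
    have := two_path h.hT h.irr h2 k
    rw [pow_succ] at k1 this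
    nlinarith [Nat.mul_le_mul_left l this, Nat.mul_le_mul_left l k2]
  have k3 := unt_bound h hn h1 h2 h3 hx hy hz ⟨a1, a3⟩ ⟨a2, rfl⟩
  refine ⟨{col y z}, S \ Unt adj col (col y z) S S, sdiff_subset, card_singleton _, ?_,
    fun L hL hf => (fr_card h h1 h2 hL fun u hu v hv k e =>
      hf u hu v hv k (mem_singleton.2 e)).trans (Nat.mul_le_mul_right _ (by rw [cC]; omega))⟩
  have k4 := card_le_card_sdiff_add_card (s := S) (t := Unt adj col (col y z) S S)
  have k5 : (240 * (6 * j + 5) + cC j w) * l ^ c ≤ cD j w * l ^ c :=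
    Nat.mul_le_mul_right _ (by rw [cD]; omega)
  rw [pow_succ]
  nlinarith [Nat.mul_le_mul_left l (k4.trans (Nat.add_le_add_left (k3.trans k5) _))]

theorem up_step {l K j w t F i c : ℕ} {x : ℝ} (h : Ctx adj col l K) (hn : Nm l K j w)
    (hF : 1 + 5 * Hn K ≤ F) (ht : 1 ≤ t) (hx : ((cD j w + 4 * F * cC j w : ℕ) : ℝ) ≤ x)
    (ih : ∀ (W : Finset V) (A : Finset C), ¬ HasP adj col W (c + (t + i) + 1) →
      W.card ≤ 2 * l ^ (c + (t + i)) → A.card = i → Core adj col W A (cC j w * l ^ (c + t)) →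
      (x + cC j w * Hn i) * l ^ (c + (t + i)) < l * W.card → Cc adj col l j w c (t + i) W)
    (hc : c + (t + i) < K) {S W : Finset V} {A : Finset C} (hW : W ⊆ S)
    (hS : ¬ HasP adj col S (c + (t + i) + 1 + 1)) (h2 : S.card ≤ 2 * l ^ (c + (t + i) + 1))
    (hA : A.card = i + 1) (h3 : Core adj col W A (cC j w * l ^ (c + t)))
    (h4 : (x + cC j w * Hn (i + 1)) * l ^ (c + (t + i) + 1) < l * W.card) :
    Cc adj col l j w c (t + (i + 1)) S := by
  classical
  set n := c + (t + i) with hn'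
  have hl0 : (0 : ℝ) < l := by exact_mod_cast h.pos
  have hF1 : 1 ≤ F := by
    have := Hn_nonneg K
    exact_mod_cast (show (1 : ℝ) ≤ F by linarith)
  have hWS : ¬ HasP adj col W (n + 1 + 1) := fun k => hS (k.mono hW)
  have k1 := unt_e h.gr (h.hl.trans' (by norm_num)) 0 (Subset.refl W) h3 (X := cC j w * l ^ n)
    (by rw [hA, hn']; exact le_of_eq (by ring))
  obtain ⟨a, ha, k2⟩ := exists_min_image A (fun a => (Unt adj col a W W).card)
    (card_pos.1 (by omega))
  have k3 := (card_nsmul_le_sum A _ _ k2).trans k1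
  rw [hA, smul_eq_mul, zero_mul, zero_add] at k3
  have k4 : ((Unt adj col a W W).card : ℝ) ≤ 1 / ((i + 1 : ℕ) : ℝ) * (cC j w * l ^ n) := by
    rw [one_div_mul_eq_div, le_div_iff₀ (by positivity), mul_comm]
    exact_mod_cast k3
  have k5 : (x + cC j w * Hn i) * l ^ n < (W \ Unt adj col a W W).card := by
    have j1 : (W.card : ℝ) ≤ (W \ Unt adj col a W W).card + (Unt adj col a W W).card := by
      exact_mod_cast card_le_card_sdiff_add_card
    have j2 : Hn (i + 1) = Hn i + 1 / ((i + 1 : ℕ) : ℝ) := sum_range_succ _ _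
    rw [j2, pow_succ, ← mul_assoc, mul_comm (l : ℝ)] at h4
    have := lt_of_mul_lt_mul_right h4 hl0.le
    linarith
  have k6 : (cD j w + 4 * F * cC j w) * l ^ n < (W \ Unt adj col a W W).card := by
    have j1 := mul_nonneg (Nat.cast_nonneg (α := ℝ) (cC j w)) (Hn_nonneg i)
    have := lt_of_le_of_lt (mul_le_mul_of_nonneg_right (hx.trans (le_add_of_nonneg_right j1))
      (by positivity)) k5
    exact_mod_cast this
  obtain ⟨f, lb, f1, f2⟩ := cover2 h.gr (lab := fun _ => none) (c := n) (N := W) a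
    fun s t P B p k => ⟨by simp, fun _ => le_of_noP hWS p k⟩
  have e : ZB adj col (fun _ => none) W a = Unt adj col a W W := by
    ext u
    simp [mem_ZB, mem_unt, OutA]
  rw [e] at f2
  obtain ⟨i0, -, k7⟩ := exists_max_image (range l)
    (fun i => ((W \ Unt adj col a W W).filter fun x => f x = i).card) ⟨0, mem_range.2 h.pos⟩
  have k8 := card_le_mul_card_image_of_maps_to (s := W \ Unt adj col a W W) (t := range l) (f := f)
    (fun v _ => mem_range.2 (f1 v)) _ k7
  rw [card_range, mul_comm] at k8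
  obtain ⟨g1, g2, g3⟩ := f2 i0
  set W1 := (W \ Unt adj col a W W).filter fun x => f x = i0 with hW1
  have w1 : W1 ⊆ W := (filter_subset _ _).trans sdiff_subset
  have w2 : ¬ HasP adj col W1 (n + 1) := by
    rintro ⟨s, t, P, B, p, p1, p2⟩
    have := (g2 s t P B p p1).2 ((g3 t (p1 p.end_mem)).1 (Or.inl rfl))
    omega
  have w3 := h.ih' hc w2
  obtain ⟨A', W', v1, v2, v3, v4⟩ := ih W1 (A.erase a) w2 (by omega)
    (by rw [card_erase_of_mem ha, hA]; rfl) (h3.erase w1 g1) (k5.trans_le (by exact_mod_cast k8))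
  obtain ⟨c', hc'⟩ : ∃ c', t + i = c' + 1 := ⟨t + i - 1, by omega⟩
  have v5 : 4 * (F * (l ^ c' * (cC j w * l ^ c))) < W'.card := by
    apply Nat.lt_of_mul_lt_mul_left (a := l)
    have : l * (4 * (F * (l ^ c' * (cC j w * l ^ c)))) = 4 * F * cC j w * l ^ n := by
      rw [hn', hc']; ring
    rw [← hn'] at v3
    rw [add_mul] at k6
    omega
  have v6 : a ∉ A' := fun k => by
    have := (v4.erase Subset.rfl fun u hu v hv => g1 u (v1 hu) v (v1 hv)).card_le h.gr
    rw [card_erase_of_mem k, v2, hc', Nat.add_sub_cancel] at this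
    nlinarith [Nat.mul_le_mul_right (l ^ c' * (cC j w * l ^ c)) hF1]
  obtain ⟨y, hy, ⟨u, hu, y1⟩, z, hz, y2⟩ : ∃ y ∈ W, InA adj col a W y ∧ OutA adj col a W y := by
    by_contra k
    push Not at k
    have j1 := fr_card h hc hWS (a := a)
      (filter_subset (fun x => InA adj col a W x) (W \ Unt adj col a W W)) fun u hu v hv j j' => by
        simp only [mem_filter, mem_sdiff] at hu hv
        exact k u hu.1.1 hu.2 ⟨v, hv.1.1, j, j'⟩
    have j2 := fr_card h hc hWS (a := a)
      (filter_subset (fun x => ¬ InA adj col a W x) (W \ Unt adj col a W W))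
      fun u hu v hv j j' => by
        simp only [mem_filter, mem_sdiff] at hu hv
        exact hv.2 ⟨u, hu.1.1, j, j'⟩
    have j3 := card_filter_add_card_filter_not (s := W \ Unt adj col a W W)
      fun x => InA adj col a W x
    have j4 : 4 * l ^ n ≤ (cD j w + 4 * F * cC j w) * l ^ n :=
      Nat.mul_le_mul_right _ (by rw [cD]; omega)
    omega
  obtain ⟨S', s1, s2, s3⟩ := lift h hn v6 (by rw [v2]) hc hS h2 (v1.trans (w1.trans hW))
    ((card_le_card v1).trans w3) (pal_of_rich h hF (by omega) (v2.trans hc') v4 v5)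
    (pal_of_rich h.flip hF (by omega) (v2.trans hc') v4.flip v5)
    (unt_bound h hn hc hS h2 (hW hu) (hW hy) (hW hz) y1 y2)
  refine ⟨_, S', s1, by rw [card_insert_of_notMem v6, v2]; rfl, ?_, s3⟩
  rw [show c + (t + (i + 1)) = n + 1 from rfl, pow_succ]
  nlinarith [Nat.mul_le_mul_left l s2]

theorem EE.add {l K j w t F i : ℕ} {x : ℝ} (h : Ctx adj col l K) (hn : Nm l K j w)
    (hF : 1 + 5 * Hn K ≤ F) (hx : ((cD j w + 4 * F * cC j w : ℕ) : ℝ) ≤ x)
    (hE : EE adj col l K j w t x) (hi : i + 1 ≤ t) :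
    EE adj col l K j w (t + (i + 1)) (x + (cD j w + cC j w * Hn K)) := by
  intro c S h1 h2 h3 h4
  have key : ∀ i, c + (t + i) ≤ K → ∀ (W : Finset V) (A : Finset C),
      ¬ HasP adj col W (c + (t + i) + 1) → W.card ≤ 2 * l ^ (c + (t + i)) → A.card = i →
      Core adj col W A (cC j w * l ^ (c + t)) →
      (x + cC j w * Hn i) * l ^ (c + (t + i)) < l * W.card → Cc adj col l j w c (t + i) W := by
    intro i
    induction i with
    | zero => exact fun k1 W A k2 k3 _ _ k4 => hE c W k1 k2 k3 (by simpa [Hn] using k4)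
    | succ i ih => exact fun k1 W A => up_step h hn hF (by omega) hx (ih (by omega)) k1 Subset.rfl
  have a1 := mul_nonneg (Nat.cast_nonneg (α := ℝ) (cC j w)) (Hn_nonneg K)
  have a2 : (0 : ℝ) ≤ cD j w := Nat.cast_nonneg _
  have e : c + (i + 1) + t = c + (t + (i + 1)) := by omega
  obtain ⟨A, S', s1, s2, s3, s4⟩ := (hE.mono (x' := x + (cD j w + cC j w * Hn K)) (by linarith))
    (c + (i + 1)) S (by omega) (e ▸ h2) (e ▸ h3) (e ▸ h4)
  obtain ⟨I, i1, i2⟩ := exists_subset_card_eq (s := A) (n := i + 1) (by omega)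
  have k1 := s4.sub h.gr (I := I)
  have k2 : l ^ (A \ I).card * (cC j w * l ^ (c + (i + 1))) = cC j w * l ^ (c + t) := by
    rw [card_sdiff_of_subset i1, s2, i2, show c + t = t - (i + 1) + (c + (i + 1)) by omega]
    ring
  refine up_step h hn hF (by omega) hx (key i (by omega)) h1 s1 h2 h3 i2 (k2 ▸ k1) ?_
  have k3 : (l : ℝ) * S.card ≤ l * S'.card + cD j w * l ^ (c + (t + (i + 1))) := by
    exact_mod_cast e ▸ s3
  have k4 := mul_le_mul_of_nonneg_left (Hn_mono (show i + 1 ≤ K by omega))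
    (Nat.cast_nonneg (α := ℝ) (cC j w))
  rw [show c + (t + i) + 1 = c + (t + (i + 1)) from rfl]
  nlinarith [mul_le_mul_of_nonneg_right k4 (show (0 : ℝ) ≤ l ^ (c + (t + (i + 1))) by positivity)]

theorem EE.all {l K j w F : ℕ} (h : Ctx adj col l K) (hn : Nm l K j w)
    (hF : 1 + 5 * Hn K ≤ F) : ∀ s t : ℕ, 1 ≤ t → t ≤ 2 ^ s → EE adj col l K j w t
      ((cD j w + 4 * F * cC j w : ℕ) + s * (cD j w + cC j w * Hn K)) := by
  have a1 : (0 : ℝ) ≤ cD j w + cC j w * Hn K :=
    add_nonneg (Nat.cast_nonneg _) (mul_nonneg (Nat.cast_nonneg _) (Hn_nonneg K))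
  intro s
  induction s with
  | zero =>
    intro t h1 h2
    obtain rfl : t = 1 := by omega
    refine (EE.one h hn).mono ?_
    rw [Nat.cast_zero, zero_mul, add_zero]
    exact_mod_cast (show 4 ≤ cD j w + 4 * F * cC j w by rw [cD]; omega)
  | succ s ih =>
    intro t h1 h2
    rw [Nat.cast_succ, add_one_mul, ← add_assoc]
    by_cases k : t ≤ 2 ^ s
    · exact (ih t h1 k).mono (by linarith)
    obtain ⟨i, rfl⟩ : ∃ i, t = 2 ^ s + (i + 1) := ⟨t - 2 ^ s - 1, by omega⟩
    exact EE.add h hn hF (le_add_of_nonneg_right (by positivity))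
      (ih _ Nat.one_le_two_pow le_rfl) (by omega)

theorem top_half (hirr : ∀ v, ¬ adj v v) {S W W' : Finset V} {A : Finset C} {y z : V}
    (hS : ¬ HasP adj col S (A.card + 1)) (hW : W ⊆ S) (hp : Pal adj col W A) (h1 : W' ⊆ W)
    (h2 : W.card ≤ 4 * W'.card) (h3 : ∀ u ∈ W', adj u y ∧ u ≠ z) (hy : y ∈ S) (hz : z ∈ S)
    (k1 : adj y z) (k2 : col y z ∉ A) : False := by
  obtain ⟨s, t, P, B, p, p1, p2, p3, p4⟩ := hp W' h1 h2 ∅ fun t => col t y
  rw [sdiff_empty] at p2 p4
  have q := p.snoc (h3 t (p1 p.end_mem)).1 (fun k => hirr y (h3 y (p1 k)).1) p3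
  have q1 := insert_subset hy (p1.trans (h1.trans hW))
  by_cases e : col y z = col t y
  · have j1 := le_of_noP hS q q1
    have j2 := card_le_card ((subset_insert_iff_of_notMem (e ▸ k2)).1 p4)
    rw [card_insert_of_notMem p3] at j1
    omega
  · have j0 : col y z ∉ insert (col t y) B := by
      rw [mem_insert, not_or]
      exact ⟨e, fun k => k2 (p2 k)⟩
    have j1 := le_of_noP hS (q.snoc k1 (by
      rw [mem_insert, not_or]
      exact ⟨fun k => hirr y (k ▸ k1), fun k => (h3 z (p1 k)).2 rfl⟩) j0) (insert_subset hz q1)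
    have j2 := card_le_card p4
    rw [card_insert_of_notMem j0] at j1
    omega

theorem top2 {l c j w F s : ℕ} (h : Ctx adj col l (c + 1)) (hn : Nm l (c + 1) j w)
    (hF : 1 + 5 * Hn (c + 1) ≤ F) (hs : c + 1 ≤ 2 ^ s)
    (hl : ((cD j w + 4 * F * cC j w : ℕ) : ℝ) + s * (cD j w + cC j w * Hn (c + 1)) ≤ l)
    {S : Finset V} (hS : ¬ HasP adj col S (c + 1 + 1)) (h1 : l ^ (c + 1) < S.card)
    (h2 : S.card ≤ 2 * l ^ (c + 1)) : ∃ A : Finset C, A.card = c + 1 ∧ NoTwo adj col A S := by
  classical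
  have hl0 : (0 : ℝ) < l := by exact_mod_cast h.pos
  obtain ⟨A, W, w1, w2, w3, w4⟩ := ((EE.all h hn hF s (c + 1) (by omega) hs).mono hl) 0 S
    (by omega) (by rwa [zero_add]) (by rwa [zero_add])
    (by rw [zero_add]; exact mul_lt_mul_of_pos_left (by exact_mod_cast h1) hl0)
  have a1 : cD j w + 4 * F * cC j w ≤ l := by
    have := mul_nonneg (Nat.cast_nonneg (α := ℝ) s) (add_nonneg (Nat.cast_nonneg (cD j w))
      (mul_nonneg (Nat.cast_nonneg (cC j w)) (Hn_nonneg (c + 1))))
    exact_mod_cast (show ((cD j w + 4 * F * cC j w : ℕ) : ℝ) ≤ l by linarith)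
  have hF1 : 1 ≤ F := by
    have := Hn_nonneg (c + 1)
    exact_mod_cast (show (1 : ℝ) ≤ F by linarith)
  have a2 : 4 * (F * (l ^ c * (cC j w * l ^ 0))) < W.card := by
    apply Nat.lt_of_mul_lt_mul_left (a := l)
    have k1 := Nat.mul_le_mul_right (l ^ (c + 1)) a1
    have k2 := Nat.mul_lt_mul_of_pos_left h1 h.pos
    rw [zero_add] at w3
    rw [pow_succ] at k1 k2 w3
    nlinarith
  have a3 : 6 ≤ W.card := by
    have k1 : 2 ≤ cC j w := by rw [cC]; omega
    have k2 : 1 * (1 * (2 * 1)) ≤ F * (l ^ c * (cC j w * l ^ 0)) :=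
      Nat.mul_le_mul hF1 (Nat.mul_le_mul (Nat.one_le_pow _ _ h.pos) (Nat.mul_le_mul k1 (by simp)))
    omega
  refine ⟨A, w2, fun x hx y hy z hz k1 k2 k3 k4 => ?_⟩
  have j1 := split_at h.hT ((W.erase x).erase z) y
  have j2 := pred_card_le_card_erase (s := W) (a := x)
  have j3 := pred_card_le_card_erase (s := W.erase x) (a := z)
  have j4 : (W.erase x).erase z ⊆ W := (erase_subset _ _).trans (erase_subset _ _)
  rw [← w2] at hS
  by_cases k : W.card ≤ 4 * (((W.erase x).erase z).filter fun t => adj t y).card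
  · exact top_half h.irr hS w1 (pal_of_rich h hF (by omega) w2 w4 a2)
      ((filter_subset _ _).trans j4) k
      (fun u hu => ⟨(mem_filter.1 hu).2, (mem_erase.1 (mem_filter.1 hu).1).1⟩) hy hz k2 k4
  · exact top_half h.flip.irr (fun k => hS k.of_reverse) w1
      (pal_of_rich h.flip hF (by omega) w2 w4.flip a2)
      ((filter_subset (fun t => flip adj t y) _).trans j4) (by omega)
      (fun u hu => ⟨(mem_filter.1 hu).2, (mem_erase.1 (mem_erase.1 (mem_filter.1 hu).1).2).1⟩)
      hy hx k1 k3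

end Pool.Agent.H31Fed
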