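import Pool.Agent.Lib.MP_fed786_co.H31YD

set_option autoImplicit false

namespace Pool.Agent.H31Fed
open Finset Pool.Agent.H66Fed

variable {V C : Type} [DecidableEq V] [DecidableEq C]
variable {adj : V → V → Prop} {col : V → V → C}

/-- `w` is a source or a sink of the colour `b` in `N`, with a witness outside `N`. -/
def Mk (adj : V → V → Prop) (col : V → V → C) (b : C) (N : Finset V) (w : V) : Prop :=
  (¬ InA adj col b N w ∧ ∃ z ∉ N, Arc adj col b z w) ∨
    (¬ OutA adj col b N w ∧ ∃ z ∉ N, Arc adj col b w z)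

omit [DecidableEq V] [DecidableEq C] in
theorem Mk.mono {b : C} {N N' : Finset V} {w : V} (h : Mk adj col b N w) (h1 : N' ⊆ N) :
    Mk adj col b N' w :=
  h.imp (fun ⟨k, z, z1, z2⟩ => ⟨fun ⟨u, j, j'⟩ => k ⟨u, h1 j, j'⟩, z, fun j => z1 (h1 j), z2⟩)
    fun ⟨k, z, z1, z2⟩ => ⟨fun ⟨u, j, j'⟩ => k ⟨u, h1 j, j'⟩, z, fun j => z1 (h1 j), z2⟩

/-- The weight of a vertex with `u` marks. -/
noncomputable def wt (ν : ℝ) (u : ℕ) : ℝ := 1 + ν * ((5 / 4) ^ u - 1)

theorem one_le_wt {ν : ℝ} (hν : 0 ≤ ν) (u : ℕ) : 1 ≤ wt ν u := by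
  have := one_le_pow₀ (show (1 : ℝ) ≤ 5 / 4 by norm_num) (n := u)
  rw [wt]
  nlinarith

theorem wt_le {ν : ℝ} (hν : ν ≤ 1) (u : ℕ) : wt ν u ≤ (5 / 4) ^ u := by
  have := one_le_pow₀ (show (1 : ℝ) ≤ 5 / 4 by norm_num) (n := u)
  rw [wt]
  nlinarith

theorem pv1 {ν μ : ℝ} (h0 : 1 / 4 ≤ ν) (h1 : ν ≤ 1) (hμ : 16 ≤ μ) (m u : ℕ) :
    0 ≤ m * (ν * μ ^ m - wt ν u) + u * (wt ν u / 5) := by
  have a1 := one_le_wt (show 0 ≤ ν by linarith) u
  have a2 : (0 : ℝ) ≤ m := Nat.cast_nonneg _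
  have a3 : (0 : ℝ) ≤ u := Nat.cast_nonneg _
  by_cases k : 5 * m ≤ u
  · have k1 : 5 * (m : ℝ) ≤ u := by exact_mod_cast k
    have k2 : 0 ≤ m * (ν * μ ^ m) := by positivity
    nlinarith
  obtain ⟨n, rfl⟩ : ∃ n, m = n + 1 := ⟨m - 1, by omega⟩
  have k1 : wt ν u ≤ 4 ^ (n + 1) := (wt_le h1 u).trans
    ((pow_le_pow_right₀ (by norm_num) (show u ≤ 5 * (n + 1) by omega)).trans (by
      rw [pow_mul]; exact pow_le_pow_left₀ (by positivity) (by norm_num) _))
  have k2 : (4 : ℝ) ^ n ≤ μ ^ n := pow_le_pow_left₀ (by norm_num) (by linarith) _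
  have k3 : wt ν u ≤ ν * μ ^ (n + 1) := by
    rw [pow_succ] at k1 ⊢
    have : 4 ≤ ν * μ := by nlinarith
    nlinarith [mul_le_mul this k2 (by positivity) (by linarith)]
  exact add_nonneg (mul_nonneg a2 (by linarith)) (by positivity)

theorem pv2 {ν μ η : ℝ} (h0 : 0 ≤ ν) (h1 : ν ≤ 1) (hμ : 30 ≤ μ) (hη : 0 ≤ η) (hη' : η ≤ 1 / 20)
    {m u u' k : ℕ} (hk : u ≤ k + m) :
    wt ν u * (m + η * u' - k / 5) ≤
      36 / μ * (if m = 0 then 0 else μ ^ m) + 16 * η * ((5 / 4) ^ u' - 1) := by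
  have a1 := one_le_wt h0 u
  have a2 : (0 : ℝ) ≤ m := Nat.cast_nonneg _
  have a3 : (0 : ℝ) ≤ u := Nat.cast_nonneg _
  have a4 : (0 : ℝ) ≤ u' := Nat.cast_nonneg _
  have a5 : (u : ℝ) ≤ k + m := by exact_mod_cast hk
  have a6 : 0 ≤ 36 / μ * (if m = 0 then 0 else μ ^ m) := by split_ifs <;> positivity
  have a7 : 0 ≤ 16 * η * ((5 / 4) ^ u' - 1) :=
    mul_nonneg (by positivity) (sub_nonneg.2 (one_le_pow₀ (by norm_num)))
  have a8 := wt_le h1 u
  by_cases e : 6 * m + 5 * (η * u') ≤ u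
  · exact (mul_nonpos_of_nonneg_of_nonpos (by linarith) (by linarith)).trans (add_nonneg a6 a7)
  by_cases e' : 5 * (η * u') ≤ 6 * m
  · have k1 : u < 12 * m := by exact_mod_cast (show (u : ℝ) < 12 * m by linarith)
    obtain ⟨n, rfl⟩ : ∃ n, m = n + 1 := ⟨m - 1, by omega⟩
    have k2 : wt ν u ≤ 15 ^ (n + 1) := a8.trans
      ((pow_le_pow_right₀ (by norm_num) k1.le).trans (by
        rw [pow_mul]; exact pow_le_pow_left₀ (by positivity) (by norm_num) _))
    have k3 : ((n + 1 : ℕ) : ℝ) ≤ 2 ^ n := by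
      exact_mod_cast Nat.succ_le_of_lt (Nat.lt_pow_self (show 1 < 2 by omega))
    have k4 : (15 : ℝ) ^ n * 2 ^ n ≤ μ ^ n := by
      rw [← mul_pow]; exact pow_le_pow_left₀ (by norm_num) (by linarith) _
    have k5 : 36 / μ * μ ^ (n + 1) = 36 * μ ^ n := by field_simp; ring
    rw [if_neg (by omega), k5]
    refine le_trans ?_ (le_add_of_nonneg_right a7)
    refine (mul_le_mul_of_nonneg_left (show _ ≤ 12 / 5 * (2 : ℝ) ^ n by linarith)
      (by linarith)).trans ((mul_le_mul_of_nonneg_right k2 (by positivity)).trans ?_)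
    rw [pow_succ]
    linarith
  · have k1 : 2 * (u : ℝ) ≤ u' := by nlinarith
    obtain ⟨n, rfl⟩ : ∃ n, u' = u + n := Nat.exists_eq_add_of_le (by
      have : 2 * u ≤ u' := by exact_mod_cast k1
      omega)
    have k2 := one_add_mul_le_pow (a := (1 / 4 : ℝ)) (by norm_num) n
    have k3 := one_le_pow₀ (show (1 : ℝ) ≤ 5 / 4 by norm_num) (n := u)
    rw [show (1 + 1 / 4 : ℝ) = 5 / 4 by norm_num] at k2
    refine le_trans ?_ (le_add_of_nonneg_left a6)
    refine (mul_le_mul_of_nonneg_left (show _ ≤ 2 * (η * ((u + n : ℕ) : ℝ)) by linarith)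
      (by linarith)).trans ((mul_le_mul_of_nonneg_right a8 (by positivity)).trans ?_)
    have k4 : (5 / 4 : ℝ) ^ u * ((u + n : ℕ) : ℝ) ≤ 8 * ((5 / 4) ^ (u + n) - 1) := by
      rw [pow_add]
      push_cast at k1 ⊢
      nlinarith [mul_le_mul_of_nonneg_left k2 (show (0 : ℝ) ≤ (5 / 4) ^ u by positivity),
        mul_le_mul_of_nonneg_left (show (u : ℝ) ≤ n by linarith)
          (show (0 : ℝ) ≤ (5 / 4) ^ u by positivity)]
    nlinarith [mul_le_mul_of_nonneg_left k4 hη]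

theorem small_subset' (w : ℕ → ℝ) {μ : ℕ} (hμ : 0 < μ) : ∀ (n : ℕ) (s : Finset ℕ),
    s.card = μ + n → ∃ G ⊆ s, G.card = μ ∧ s.card * ∑ i ∈ G, w i ≤ μ * ∑ i ∈ s, w i := by
  intro n
  induction n with
  | zero => exact fun s hs => ⟨s, Subset.rfl, hs, by rw [hs]; rfl⟩
  | succ n ih =>
    intro s hs
    obtain ⟨m, m1, m2⟩ := exists_max_image s w (card_pos.1 (by omega))
    have h1 : (s.erase m).card = μ + n := by rw [card_erase_of_mem m1, hs]; rfl
    obtain ⟨G, g1, g2, g3⟩ := ih _ h1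
    refine ⟨G, g1.trans (erase_subset _ _), g2, ?_⟩
    have h2 := sum_le_card_nsmul (s.erase m) w (w m) fun i hi => m2 i (mem_of_mem_erase hi)
    rw [h1] at g3 h2
    rw [nsmul_eq_mul] at h2
    rw [hs, ← add_sum_erase s w m1]
    have k0 : (0 : ℝ) < μ := by exact_mod_cast hμ
    have k1 : (0 : ℝ) ≤ n := Nat.cast_nonneg _
    push_cast at g3 h2 ⊢
    apply le_of_mul_le_mul_left _ (show (0 : ℝ) < μ + n by linarith)
    nlinarith [mul_le_mul_of_nonneg_left g3 (show (0 : ℝ) ≤ μ + (n + 1) by linarith),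
      mul_le_mul_of_nonneg_left h2 k0.le]

omit [DecidableEq V] [DecidableEq C] in
theorem sum_wk_w {a : C} {W : Finset V} {f : V → ℕ} {l : ℕ} (hf : ∀ v, f v < l) {G : Finset ℕ}
    (hG : G ⊆ range l) (φ : V → ℝ) : ∑ i ∈ range l, ∑ x ∈ Wk adj col a W f G i, φ x +
      ∑ i ∈ G, ∑ x ∈ Tl adj col a W f i, φ x + ∑ x ∈ Unt adj col a W W, φ x = ∑ x ∈ W, φ x := by
  classical
  have h1 := sum_lev_w (adj := adj) (col := col) (a := a) (N := W) (X := W) hf φ
  have h2 : ∀ i, ∑ x ∈ Lev adj col a W W f i, φ x = ∑ x ∈ Wk adj col a W f G i, φ x +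
      if i ∈ G then ∑ x ∈ Tl adj col a W f i, φ x else 0 := by
    intro i
    split_ifs with e
    · rw [← sum_union (disjoint_left.2 fun x hx k => (mem_tl.1 k).2 ((mem_wk.1 hx).2 e))]
      refine sum_congr ?_ fun _ _ => rfl
      ext x
      rw [mem_union, mem_wk, mem_tl, mem_lev]
      tauto
    · rw [add_zero]
      refine sum_congr ?_ fun _ _ => rfl
      ext x
      rw [mem_wk, mem_lev]
      tauto
  simp only [h2] at h1
  rwa [sum_add_distrib, sum_ite_mem, inter_eq_right.2 hG] at h1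

omit [DecidableEq C] in
theorem levels3 {l : ℕ} (hGR : GR adj col l) (hl : 3 ≤ l) (a : C) (W Z : Finset V) :
    ∃ f : V → ℕ, (∀ v, f v < l) ∧
      (∀ x, InA adj col a (W ∪ Z) x ∨ OutA adj col a (W ∪ Z) x →
        (f x + 1 < l → OutA adj col a (W ∪ Z) x) ∧ (0 < f x → InA adj col a (W ∪ Z) x)) ∧
      (∀ x ∈ W ∪ Z, ∀ y ∈ W ∪ Z, Arc adj col a x y → f x ≠ f y) ∧
      (∀ x ∈ W, ∀ y ∈ W, Arc adj col a x y →
        (¬ InA adj col a W x ∨ ¬ OutA adj col a W y) → f x < f y) ∧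
      ∀ x ∈ W ∪ Z, ∀ y ∈ W ∪ Z, Arc adj col a x y → ¬ InA adj col a (W ∪ Z) x →
        (∃ z ∉ W ∪ Z, Arc adj col a z x) → 2 ≤ f y := by
  classical
  let ρ : V → ℕ := fun x => if x ∈ W ∪ Z then (if InA adj col a (W ∪ Z) x then
    (if OutA adj col a (W ∪ Z) x then
    (if x ∈ W then (if InA adj col a W x then (if OutA adj col a W x then 3 else 4) else 2) else 3)
    else 5) else 1) else 0
  obtain ⟨g, g1, g2, g3⟩ := hGR a ρ
  let f : V → ℕ := fun x => if InA adj col a (W ∪ Z) x then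
    (if OutA adj col a (W ∪ Z) x then g x else l - 1) else 0
  refine ⟨f, ?_, ?_, ?_, ?_, ?_⟩
  · intro v
    have := g1 v
    simp only [f]
    split_ifs <;> omega
  · intro x hx
    have := g1 x
    simp only [f]
    split_ifs with k1 k2
    · exact ⟨fun _ => k2, fun _ => k1⟩
    · exact ⟨fun k => by omega, fun _ => k1⟩
    · exact ⟨fun _ => hx.resolve_left k1, fun k => by omega⟩
  · intro x hx y hy k
    have h1 := g2 x y k.1 k.2
    have h2 := g3 x y k.1 k.2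
    have h3 := g1 y
    have k1 : OutA adj col a (W ∪ Z) x := ⟨y, hy, k⟩
    have k2 : InA adj col a (W ∪ Z) y := ⟨x, hx, k⟩
    simp only [ρ, f, k1, k2, hx, hy, if_true] at h2 ⊢
    split_ifs at h2 ⊢ <;> omega
  · intro x hx y hy k e
    have h2 := g3 x y k.1 k.2
    have h3 := g1 y
    have k1 : OutA adj col a W x := ⟨y, hy, k⟩
    have k2 : InA adj col a W y := ⟨x, hx, k⟩
    simp only [ρ, f, k1, k2, k1.up, k2.up, hx, hy, mem_union_left Z hx, mem_union_left Z hy,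
      if_true] at h2 ⊢
    rcases e with e | e
    · simp only [e, if_false] at h2
      split_ifs at h2 ⊢ <;> omega
    · simp only [e, if_false] at h2
      split_ifs at h2 ⊢ <;> omega
  · rintro x hx y hy k e ⟨z, z1, z2⟩
    have h1 := g3 z x z2.1 z2.2
    have h2 := g3 x y k.1 k.2
    have k2 : InA adj col a (W ∪ Z) y := ⟨x, hx, k⟩
    simp only [ρ, f, k2, e, z1, hx, hy, if_true, if_false] at h1 h2 ⊢
    split_ifs at h2 ⊢ <;> omega

/-- The weighted endgame inequality with marks on level `r`. -/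
def EGM (adj : V → V → Prop) (col : V → V → C) (l μ r : ℕ) (ν : ℝ) : Prop :=
  ∀ (R : Finset C) (W Z : Finset V) (M U : V → Finset C), R.card = r → Disjoint W Z →
    Inv adj col (fun _ => none) r False W Z → NoTwo adj col R (W ∪ Z) →
    (∀ w ∈ W, ∀ b ∈ M w, b ∈ R ∧ Mk adj col b (W ∪ Z) w) →
    (∀ z ∈ Z, ∀ b ∈ U z, b ∈ R ∧ ¬ InA adj col b (W ∪ Z) z ∧ ¬ OutA adj col b (W ∪ Z) z) →
    ∑ w ∈ W, wt ν (M w).card + ν * ∑ z ∈ Z, (μ : ℝ) ^ (U z).card ≤ (l : ℝ) ^ r

theorem EGM.egs {l μ r : ℕ} {ν : ℝ} (h : EGM adj col l μ r ν) : EGS adj col l μ r ν := by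
  intro R W Z U h1 h2 h3 h4 h5
  simpa [wt] using h R W Z (fun _ => ∅) U h1 h2 h3 h4 (by simp) h5

theorem Inv.flip0 {c : ℕ} {W Z : Finset V} (h : Inv adj col (fun _ => none) c False W Z) :
    Inv (flip adj) (flip col) (fun _ => none) c False W Z :=
  fun s t S B p k => ⟨fun e => (h t s S B p.reverse k).1 e.symm, False.elim⟩

omit [DecidableEq V] [DecidableEq C] in
theorem NoTwo.flip {R : Finset C} {N : Finset V} (h : NoTwo adj col R N) :
    NoTwo (flip adj) (flip col) R N :=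
  fun x hx y hy z hz k1 k2 k3 k4 => h z hz y hy x hx k2 k1 k4 k3

theorem EGM.flip {l μ r : ℕ} {ν : ℝ} (h : EGM adj col l μ r ν) :
    EGM (flip adj) (flip col) l μ r ν := fun R W Z M U h1 h2 h3 h4 h5 h6 =>
  h R W Z M U h1 h2 h3.flip0 h4.flip (fun w hw b hb => (h5 w hw b hb).imp_right Or.symm)
    fun z hz b hb => (h6 z hz b hb).imp_right And.symm

theorem EGM.zero {l μ : ℕ} (hT : ∀ u v, u ≠ v → adj u v ∨ adj v u) (hGR : GR adj col l)
    (hl : 4 ≤ l) : EGM adj col l μ 0 (1 / 2) := by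
  intro R W Z M U h1 h2 h3 h4 h5 h6
  rw [sum_congr rfl (g := fun _ => (1 : ℝ)) (fun z hz => by
    rw [eq_empty_of_forall_notMem (s := M z) fun b hb => by
      have := (h5 z hz b hb).1
      rw [card_eq_zero.1 h1] at this
      exact notMem_empty _ this]
    simp [wt])]
  simpa using EGS.zero hT hGR hl R W Z U h1 h2 h3 h4 h6

theorem EGM.child {l μ r : ℕ} {ν : ℝ} (h : EGM adj col l μ r ν) {R : Finset C} {a : C}
    (ha : a ∈ R) (hR : R.card = r + 1) {N W' Z' : Finset V} (hno : NoTwo adj col R N)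
    (h1 : W' ∪ Z' ⊆ N) (h2 : Disjoint W' Z') (h3 : Fr adj col a (W' ∪ Z'))
    (h4 : Inv adj col (fun _ => none) r False W' Z') (M U : V → Finset C)
    (hM : ∀ w ∈ W', ∀ b ∈ M w, b ∈ R ∧ Mk adj col b N w)
    (hU : ∀ z ∈ Z', ∀ b ∈ U z, b ∈ R ∧ ¬ InA adj col b N z ∧ ¬ OutA adj col b N z) :
    ∑ w ∈ W', wt ν ((M w).erase a).card + ν * ∑ z ∈ Z', (μ : ℝ) ^ ((U z).erase a).card ≤
      (l : ℝ) ^ r := by
  refine h (R.erase a) W' Z' (fun z => (M z).erase a) (fun z => (U z).erase a)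
    (by rw [card_erase_of_mem ha, hR]; rfl) h2 h4 ?_ ?_ ?_
  · intro x hx y hy z hz k1 k2 k3 k4
    exact hno x (h1 hx) y (h1 hy) z (h1 hz) k1 k2
      (fun k => k3 (mem_erase.2 ⟨h3 x hx y hy k1, k⟩))
      (fun k => k4 (mem_erase.2 ⟨h3 y hy z hz k2, k⟩))
  · intro z hz b hb
    rw [mem_erase] at hb
    exact ⟨mem_erase.2 ⟨hb.1, (hM z hz b hb.2).1⟩, (hM z hz b hb.2).2.mono h1⟩
  · intro z hz b hb
    rw [mem_erase] at hb
    obtain ⟨k1, k2, k3⟩ := hU z hz b hb.2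
    exact ⟨mem_erase.2 ⟨hb.1, k1⟩, fun ⟨u, k, k'⟩ => k2 ⟨u, h1 k, k'⟩,
      fun ⟨u, k, k'⟩ => k3 ⟨u, h1 k, k'⟩⟩

/-- `x` is one-sided in `W` and two-sided in `W ∪ Z`. -/
def Ta (adj : V → V → Prop) (col : V → V → C) (a : C) (W Z : Finset V) (x : V) : Prop :=
  (InA adj col a W x ∨ OutA adj col a W x) ∧ ¬ (InA adj col a W x ∧ OutA adj col a W x) ∧
    InA adj col a (W ∪ Z) x ∧ OutA adj col a (W ∪ Z) x

/-- `x` is a marked source with an out-neighbour in `W`. -/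
def Sg (adj : V → V → Prop) (col : V → V → C) (a : C) (W Z : Finset V) (x : V) : Prop :=
  OutA adj col a W x ∧ ¬ InA adj col a (W ∪ Z) x ∧ ∃ z ∉ W ∪ Z, Arc adj col a z x

open Classical in
theorem step_sig {l μ r : ℕ} {ν η : ℝ} (hGR : GR adj col l) (h : EGM adj col l μ r ν)
    (hν : 0 ≤ ν) (hμ : 1 ≤ μ) (hμl : μ + 3 ≤ l) (hη : μ ≤ η * (l - 3)) {R : Finset C}
    {W Z : Finset V} {M U : V → Finset C} (hR : R.card = r + 1) (hd : Disjoint W Z)
    (hinv : Inv adj col (fun _ => none) (r + 1) False W Z) (hno : NoTwo adj col R (W ∪ Z))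
    (hM : ∀ w ∈ W, ∀ b ∈ M w, b ∈ R ∧ Mk adj col b (W ∪ Z) w)
    (hU : ∀ z ∈ Z, ∀ b ∈ U z, b ∈ R ∧ ¬ InA adj col b (W ∪ Z) z ∧ ¬ OutA adj col b (W ∪ Z) z)
    {a : C} (ha : a ∈ R) :
    ∑ w ∈ W, wt ν ((M w).erase a).card - ∑ w ∈ Unt adj col a W W, wt ν ((M w).erase a).card -
      η * ∑ w ∈ W.filter (Ta adj col a W Z), wt ν ((M w).erase a).card +
      ∑ w ∈ W.filter (Sg adj col a W Z), wt ν ((M w).erase a).card +
      ν * ∑ z ∈ Z, (μ : ℝ) ^ (U z).card ≤ (l : ℝ) ^ (r + 1) := by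
  set φ : V → ℝ := fun w => wt ν ((M w).erase a).card with hφ
  have φ0 : ∀ w, 0 ≤ φ w := fun w => zero_le_one.trans (one_le_wt hν _)
  obtain ⟨f, f1, f2, f3, f4, f5⟩ := levels3 hGR (by omega) a W Z
  obtain ⟨G, g1, g2, g3⟩ := small_subset' (fun i => ∑ x ∈ Tl adj col a W f i, φ x) (μ := μ) hμ
    (l - 3 - μ) (Ico 2 (l - 1)) (by rw [Nat.card_Ico]; omega)
  have hG2 : ∀ i ∈ G, 2 ≤ i ∧ i < l - 1 := fun i hi => mem_Ico.1 (g1 hi)
  have hGl : G ⊆ range l := fun i hi => by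
    have := hG2 i hi
    rw [mem_range]; omega
  set Y := Unt adj col a (W ∪ Z) Z with hY
  set P := W.filter (Sg adj col a W Z) with hP
  let w : V → ℝ := fun z => (μ : ℝ) ^ ((U z).erase a).card
  have key : ∀ i ∈ range l, (∑ x ∈ Wk adj col a W f G i, φ x +
      ∑ x ∈ (if i ∈ ({1} : Finset ℕ) then P else ∅), φ x) +
      ν * (∑ x ∈ Lev adj col a (W ∪ Z) Z f i, w x + ∑ x ∈ (if i ∈ G then Y else ∅), w x) ≤
      (l : ℝ) ^ r := by
    intro i hi
    rw [mem_range] at hi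
    set Y' := if i ∈ G then Y else ∅ with hY'
    set P' := if i ∈ ({1} : Finset ℕ) then P else ∅ with hP'
    have hYm : ∀ x ∈ Y', x ∈ Y ∧ i ∈ G := by
      intro x hx
      rw [hY'] at hx
      split_ifs at hx with e
      · exact ⟨hx, e⟩
      · simp at hx
    have hPm : ∀ x ∈ P', (x ∈ W ∧ Sg adj col a W Z x) ∧ i = 1 := by
      intro x hx
      rw [hP'] at hx
      split_ifs at hx with e
      · exact ⟨mem_filter.1 hx, mem_singleton.1 e⟩
      · simp at hx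
    have c0 : Lev adj col a (W ∪ Z) Z f i ∪ Y' ⊆ Z := union_subset (fun x hx => (mem_lev.1 hx).1)
      fun x hx => (mem_unt.1 (hYm x hx).1).1
    have c0' : Wk adj col a W f G i ∪ P' ⊆ W := union_subset (fun x hx => (mem_wk.1 hx).1.1)
      fun x hx => (hPm x hx).1.1
    have c1 := union_subset_union c0' c0
    have hm : ∀ x ∈ (Wk adj col a W f G i ∪ P') ∪ (Lev adj col a (W ∪ Z) Z f i ∪ Y'), x ∈ Y' ∨
        x ∈ P' ∨ ((InA adj col a (W ∪ Z) x ∨ OutA adj col a (W ∪ Z) x) ∧ f x = i) := by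
      intro x hx
      rcases mem_union.1 hx with k | k
      · refine Or.inr ((mem_union.1 k).symm.imp id fun k => ?_)
        rw [mem_wk] at k
        exact ⟨k.1.2.1.imp InA.up OutA.up, k.1.2.2⟩
      · exact (mem_union.1 k).symm.imp id fun j => Or.inr (mem_lev.1 j).2
    have c3 : Fr adj col a ((Wk adj col a W f G i ∪ P') ∪
        (Lev adj col a (W ∪ Z) Z f i ∪ Y')) := by
      intro u hu v hv k k'
      rcases hm v hv with e' | e' | e'
      · exact (mem_unt.1 (hYm v e').1).2.1 ⟨u, c1 hu, k, k'⟩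
      · exact (hPm v e').1.2.2.1 ⟨u, c1 hu, k, k'⟩
      rcases hm u hu with e | e | e
      · exact (mem_unt.1 (hYm u e).1).2.2 ⟨v, c1 hv, k, k'⟩
      · have j := hPm u e
        have := f5 u (c1 hu) v (c1 hv) ⟨k, k'⟩ j.1.2.2.1 j.1.2.2.2
        omega
      · exact f3 u (c1 hu) v (c1 hv) ⟨k, k'⟩ (e.2.trans e'.2.symm)
    have c4 := class_free hinv c1 c3 (by
      intro s hs t ht k
      by_cases e : i ∈ G
      · have j0 : ∀ x ∈ Wk adj col a W f G i ∪ P', InA adj col a W x ∧ OutA adj col a W x :=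
          fun x hx => (mem_wk.1 ((mem_union.1 hx).resolve_right fun j => by
            have := (hPm x j).2
            have := hG2 i e
            omega)).2 e
        exact Or.inr (Or.inr (k.symm.imp (fun j => (j0 _ j).2) fun j => (j0 _ j).1))
      have s1 := (hm s hs).resolve_left fun j => e (hYm s j).2
      have t1 := (hm t ht).resolve_left fun j => e (hYm t j).2
      by_cases k' : s ∈ Wk adj col a W f G i ∪ P'
      · by_cases e' : i + 1 < l
        · refine Or.inl ⟨c0' k', ?_⟩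
          rcases t1 with t1 | t1
          · exact (hPm t t1).1.2.1.up
          · exact (f2 t t1.1).1 (t1.2 ▸ e')
        · refine Or.inr (Or.inr (Or.inr ?_))
          have k1 := mem_wk.1 ((mem_union.1 k').resolve_right fun j => by
            have := (hPm s j).2
            omega)
          by_contra j
          obtain ⟨y, y1, y2⟩ := k1.1.2.1.resolve_left j
          have := f4 s k1.1.1 y y1 y2 (Or.inl j)
          have := f1 y
          omega
      · replace k := k.resolve_left k'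
        replace s1 := s1.resolve_left fun j => k' (mem_union_right _ j)
        by_cases e' : 0 < i
        · exact Or.inr (Or.inl ⟨c0' k, (f2 s s1.1).2 (s1.2 ▸ e')⟩)
        · refine Or.inr (Or.inr (Or.inl ?_))
          have k1 := mem_wk.1 ((mem_union.1 k).resolve_right fun j => by
            have := (hPm t j).2
            omega)
          by_contra j
          obtain ⟨y, y1, y2⟩ := k1.1.2.1.resolve_right j
          have := f4 y y1 t k1.1.1 y2 (Or.inr j)
          omega)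
    have c5 := h.child ha hR hno c1 (hd.mono c0' c0) c3 c4 M U (fun z hz => hM z (c0' hz))
      fun z hz => hU z (c0 hz)
    rwa [sum_union (disjoint_left.2 fun x hx k =>
      not_or.2 (mem_unt.1 (hYm x k).1).2 (mem_lev.1 hx).2.1),
      sum_union (disjoint_left.2 fun x hx k => by
        rw [mem_wk] at hx
        exact (hPm x k).1.2.2.1 ((f2 x (hx.1.2.1.imp InA.up OutA.up)).2 (by
          have := (hPm x k).2
          omega)))] at c5
  have k5 := sum_le_sum key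
  rw [sum_add_distrib, ← mul_sum, sum_add_distrib, sum_add_distrib, sum_ite_w hGl,
    sum_ite_w (singleton_subset_iff.2 (mem_range.2 (by omega))), g2, sum_const, card_range,
    nsmul_eq_mul, ← pow_succ', card_singleton, Nat.cast_one, one_mul] at k5
  have k6 := sum_wk_w (adj := adj) (col := col) (a := a) (W := W) f1 hGl φ
  have k7 := sum_lev_w (adj := adj) (col := col) (a := a) (N := W ∪ Z) (X := Z) f1
    (fun z => (μ : ℝ) ^ (U z).card)
  have k8 : ∑ i ∈ range l, ∑ x ∈ Lev adj col a (W ∪ Z) Z f i, (μ : ℝ) ^ (U x).card =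
      ∑ i ∈ range l, ∑ x ∈ Lev adj col a (W ∪ Z) Z f i, w x := by
    refine sum_congr rfl fun i _ => sum_congr rfl fun x hx => ?_
    rw [mem_lev] at hx
    simp only [w, erase_eq_of_notMem fun k => not_or.2 (hU x hx.1 a k).2 hx.2.1]
  have hμ' : (1 : ℝ) ≤ μ := by exact_mod_cast hμ
  have k9 : ∑ x ∈ Y, (μ : ℝ) ^ (U x).card ≤ μ * ∑ x ∈ Y, w x := by
    rw [mul_sum]
    refine sum_le_sum fun x _ => ?_
    rw [← pow_succ']
    have := pred_card_le_card_erase (s := U x) (a := a)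
    exact pow_le_pow_right₀ hμ' (by omega)
  have k1 : ∑ i ∈ Ico 2 (l - 1), ∑ x ∈ Tl adj col a W f i, φ x ≤
      ∑ w ∈ W.filter (Ta adj col a W Z), φ w := by
    rw [← sum_biUnion (t := Tl adj col a W f) fun i _ j _ e => disjoint_left.2 fun x hx hx' =>
      e ((mem_tl.1 hx).1.2.2.symm.trans (mem_tl.1 hx').1.2.2)]
    refine sum_le_sum_of_subset_of_nonneg (fun x hx => ?_) fun x _ _ => φ0 x
    obtain ⟨i, i1, i2⟩ := mem_biUnion.1 hx
    rw [mem_tl] at i2
    rw [← i2.1.2.2, mem_Ico] at i1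
    have := f2 x (i2.1.2.1.imp InA.up OutA.up)
    exact mem_filter.2 ⟨i2.1.1, i2.1.2.1, i2.2, this.2 (by omega), this.1 (by omega)⟩
  have k2 : ((Ico 2 (l - 1)).card : ℝ) = l - 3 := by
    rw [Nat.card_Ico, show l - 1 - 2 = l - 3 by omega, Nat.cast_sub (by omega)]; rfl
  have k3 : (0 : ℝ) < l - 3 := by
    have : ((μ + 3 : ℕ) : ℝ) ≤ l := by exact_mod_cast hμl
    push_cast at this
    linarith
  have k4 : ∑ i ∈ G, ∑ x ∈ Tl adj col a W f i, φ x ≤
      η * ∑ w ∈ W.filter (Ta adj col a W Z), φ w := by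
    apply le_of_mul_le_mul_left _ k3
    rw [k2] at g3
    nlinarith [mul_le_mul_of_nonneg_left k1 (show (0 : ℝ) ≤ μ by linarith),
      mul_le_mul_of_nonneg_right hη (sum_nonneg (s := W.filter (Ta adj col a W Z)) fun x _ => φ0 x)]
  rw [← hY] at k7
  nlinarith [mul_le_mul_of_nonneg_left k9 hν]

end Pool.Agent.H31Fed
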