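import Pool.Agent.Lib.MP_fed786_co.H31YE

set_option autoImplicit false

namespace Pool.Agent.H31Fed
open Finset Pool.Agent.H66Fed

variable {V C : Type} [DecidableEq V] [DecidableEq C]
variable {adj : V → V → Prop} {col : V → V → C}

open Classical in
theorem step_both {l μ r : ℕ} {ν η : ℝ} (hGR : GR adj col l) (hGR' : GR (flip adj) (flip col) l)
    (h : EGM adj col l μ r ν) (hν : 0 ≤ ν) (hν1 : ν ≤ 1) (hμ : 1 ≤ μ) (hμl : μ + 3 ≤ l)
    (hη : μ ≤ η * (l - 3)) {R : Finset C} {W Z : Finset V} {M U : V → Finset C}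
    (hR : R.card = r + 1) (hd : Disjoint W Z)
    (hinv : Inv adj col (fun _ => none) (r + 1) False W Z) (hno : NoTwo adj col R (W ∪ Z))
    (hM : ∀ w ∈ W, ∀ b ∈ M w, b ∈ R ∧ Mk adj col b (W ∪ Z) w)
    (hU : ∀ z ∈ Z, ∀ b ∈ U z, b ∈ R ∧ ¬ InA adj col b (W ∪ Z) z ∧ ¬ OutA adj col b (W ∪ Z) z)
    {a : C} (ha : a ∈ R) :
    ∑ w ∈ W, wt ν (M w).card * (1 - ((if w ∈ Unt adj col a W W then 1 else 0) +
      η * (if Ta adj col a W Z w then 1 else 0) -
      (if a ∈ M w ∧ w ∉ Unt adj col a W W then 1 else 0) / 5)) +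
      ν * ∑ z ∈ Z, (μ : ℝ) ^ (U z).card ≤ (l : ℝ) ^ (r + 1) := by
  have k1 := step_sig hGR h hν hμ hμl hη hR hd hinv hno hM hU ha
  have k2 := step_sig hGR' h.flip hν hμ hμl hη hR hd hinv.flip0 hno.flip
    (fun w hw b hb => (hM w hw b hb).imp_right Or.symm)
    (fun z hz b hb => (hU z hz b hb).imp_right And.symm) ha
  have e1 : Unt (flip adj) (flip col) a W W = Unt adj col a W W := by
    ext x
    rw [mem_unt, mem_unt]
    exact and_congr_right' and_comm
  have e2 : W.filter (Ta (flip adj) (flip col) a W Z) = W.filter (Ta adj col a W Z) :=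
    filter_congr fun x _ => and_congr or_comm (and_congr (not_congr and_comm) and_comm)
  have e3 : ∀ φ : V → ℝ, ∑ w ∈ Unt adj col a W W, φ w =
      ∑ w ∈ W, if w ∈ Unt adj col a W W then φ w else 0 := fun φ => by
    rw [sum_ite_mem, inter_eq_right.2 fun x hx => (mem_unt.1 hx).1]
  rw [e1, e2] at k2
  rw [e3, sum_filter, sum_filter, mul_sum, ← sum_sub_distrib, ← sum_sub_distrib,
    ← sum_add_distrib] at k1 k2
  have k3 := add_le_add k1 k2
  rw [add_add_add_comm, ← sum_add_distrib] at k3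
  refine le_of_mul_le_mul_left (le_trans ?_ (k3.trans_eq (two_mul _).symm)) two_pos
  rw [mul_add, ← two_mul, mul_sum]
  refine add_le_add_left (sum_le_sum fun w hw => ?_) _
  have a1 := one_le_wt hν ((M w).erase a).card
  have a2 : 0 ≤ if Sg adj col a W Z w then wt ν ((M w).erase a).card else 0 := by
    split_ifs <;> linarith
  have a3 : 0 ≤ if Sg (flip adj) (flip col) a W Z w then wt ν ((M w).erase a).card else 0 := by
    split_ifs <;> linarith
  by_cases e : w ∈ Unt adj col a W W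
  · have j : ¬ Ta adj col a W Z w := fun k => not_or.2 (mem_unt.1 e).2 k.1
    simp only [e, j, if_true, if_false, not_true, and_false]
    linarith
  by_cases e' : a ∈ M w
  · have j0 : InA adj col a W w ∨ OutA adj col a W w := by
      by_contra k
      exact e (mem_unt.2 ⟨hw, not_or.1 k⟩)
    have j1 := (hM w hw a e').2
    have j : ¬ Ta adj col a W Z w := fun k => j1.elim (fun j => j.1 k.2.2.1) fun j => j.1 k.2.2.2
    have j2 : 4 * wt ν (M w).card ≤ 5 * wt ν ((M w).erase a).card := by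
      rw [← card_erase_add_one e', wt, wt, pow_succ]
      linarith
    simp only [e, e', j, if_true, if_false, not_false_iff, and_self]
    rcases j1 with j1 | j1
    · rw [if_pos (show Sg adj col a W Z w from ⟨j0.resolve_left fun k => j1.1 k.up, j1⟩)]
      linarith
    · rw [if_pos (show Sg (flip adj) (flip col) a W Z w from
        ⟨j0.resolve_right fun k => j1.1 k.up, j1⟩)]
      linarith
  · rw [erase_eq_of_notMem e'] at a2 a3 ⊢
    simp only [e, e', if_false, false_and]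
    split_ifs at a2 a3 ⊢ <;> linarith

theorem pool_p {l μ r : ℕ} {ν η : ℝ} (hGR : GR adj col l) (hGR' : GR (flip adj) (flip col) l)
    (h : EGM adj col l μ r ν) (hν : 1 / 4 ≤ ν) (hν1 : ν ≤ 1) (hμ : 16 ≤ μ) (hμl : μ + 3 ≤ l)
    (hη : μ ≤ η * (l - 3)) {R : Finset C} {W : Finset V} {M : V → Finset C}
    (hR : R.card = r + 1) (h0 : ¬ HasP adj col W (r + 1 + 1)) (hno : NoTwo adj col R W)
    (hM : ∀ w ∈ W, ∀ b ∈ M w, b ∈ R ∧ Mk adj col b W w ∧ w ∉ Unt adj col b W W) :
    ∑ w ∈ W, wt ν (M w).card ≤ (l : ℝ) ^ (r + 1) := by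
  classical
  let U : V → Finset C := fun z => R.filter fun b => z ∈ Unt adj col b W W
  have key : ∀ a ∈ R, ∑ w ∈ W, (wt ν (M w).card +
      ((if w ∈ Unt adj col a W W then ν * μ ^ (U w).card - wt ν (M w).card else 0) +
      if a ∈ M w then wt ν (M w).card / 5 else 0)) ≤ (l : ℝ) ^ (r + 1) := by
    intro a ha
    set Y := Unt adj col a W W with hY
    have y1 : Y ⊆ W := fun x hx => (mem_unt.1 hx).1
    have e := sdiff_union_of_subset y1
    have k1 := step_both hGR hGR' h (by linarith) hν1 (by omega) hμl hη (W := W \ Y) (Z := Y)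
      (M := M) (U := U) hR sdiff_disjoint (fun s t S B p k => by
        have := le_of_noP h0 p (e ▸ k)
        exact ⟨fun _ => ⟨by simp, fun _ => this, by omega⟩, False.elim⟩) (e.symm ▸ hno)
      (fun w hw b hb => by
        rw [e]
        exact (hM w (mem_sdiff.1 hw).1 b hb).imp_right And.left)
      (fun z _ b hb => by
        rw [e]
        exact (mem_filter.1 hb).imp_right fun k => (mem_unt.1 k).2) ha
    have i1 : ∀ w ∈ W, InA adj col a W w → InA adj col a (W \ Y) w := fun w hw ⟨u, u1, u2⟩ =>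
      ⟨u, mem_sdiff.2 ⟨u1, fun k => (mem_unt.1 k).2.2 ⟨w, hw, u2⟩⟩, u2⟩
    have i2 : ∀ w ∈ W, OutA adj col a W w → OutA adj col a (W \ Y) w := fun w hw ⟨u, u1, u2⟩ =>
      ⟨u, mem_sdiff.2 ⟨u1, fun k => (mem_unt.1 k).2.1 ⟨w, hw, u2⟩⟩, u2⟩
    refine le_trans (le_of_eq ?_) k1
    rw [← sum_sdiff y1, mul_sum]
    refine congrArg₂ _ (sum_congr rfl fun w hw => ?_) (sum_congr rfl fun w hw => ?_)
    · obtain ⟨w1, w2⟩ := mem_sdiff.1 hw
      have j1 : w ∉ Unt adj col a (W \ Y) (W \ Y) := fun k => w2 (mem_unt.2 ⟨w1,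
        fun j => (mem_unt.1 k).2.1 (i1 w w1 j), fun j => (mem_unt.1 k).2.2 (i2 w w1 j)⟩)
      have j2 : ¬ Ta adj col a (W \ Y) Y w := fun k =>
        k.2.1 ⟨i1 w w1 (e ▸ k.2.2.1), i2 w w1 (e ▸ k.2.2.2)⟩
      simp only [w2, j1, j2, if_false, not_false_iff, and_true]
      split_ifs <;> ring
    · rw [if_pos hw, if_neg fun k => (hM w (y1 hw) a k).2.2 hw]
      ring
  have k1 := sum_le_sum key
  rw [sum_comm, sum_const, hR, nsmul_eq_mul] at k1
  refine le_of_mul_le_mul_left (le_trans ?_ k1) (by positivity)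
  rw [mul_sum]
  refine sum_le_sum fun w hw => ?_
  rw [sum_add_distrib, sum_add_distrib, sum_const, hR, ← sum_filter, sum_const, sum_ite_mem,
    inter_eq_right.2 fun b hb => (hM w hw b hb).1, sum_const]
  simp only [nsmul_eq_mul]
  exact le_add_of_nonneg_right (pv1 hν hν1 (by exact_mod_cast hμ) _ _)

open Classical in
theorem pool_0 {l μ r : ℕ} {ν : ℝ} (hGR : GR adj col l) (h : EGS adj col l μ r ν) (hν : 0 ≤ ν)
    (hμl : μ + 2 ≤ l) {R : Finset C} (hR : R.card = r + 1)
    {W : Finset V} (hinv : Inv adj col (fun _ => none) (r + 1) False W ∅)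
    (hno : NoTwo adj col R W) :
    ∑ x ∈ W, (if (R.filter fun b => x ∈ Unt adj col b W W) = ∅ then 1 else
      ν * μ ^ (R.filter fun b => x ∈ Unt adj col b W W).card) ≤ (l : ℝ) ^ (r + 1) := by
  obtain ⟨a, ha⟩ : R.Nonempty := card_pos.1 (by omega)
  obtain ⟨f, f1, f2, f3, -⟩ := levels2 hGR a W ∅
  rw [union_empty] at f2 f3
  let U : V → Finset C := fun z => R.filter fun b => z ∈ Unt adj col b W W
  set Y := Unt adj col a W W with hY
  let w : V → ℝ := fun z => (μ : ℝ) ^ ((U z).erase a).card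
  have key : ∀ i ∈ range l, (∑ x ∈ Lev adj col a W W f i, if U x = ∅ then 1 else ν * w x) +
      ν * ∑ x ∈ (if i ∈ Ioo 0 (l - 1) then Y else ∅), w x ≤ (l : ℝ) ^ r := by
    intro i hi
    rw [mem_range] at hi
    set P := (Lev adj col a W W f i).filter fun x => U x = ∅ with hP
    set Q := (Lev adj col a W W f i).filter fun x => ¬ U x = ∅ with hQ
    set Y' := if i ∈ Ioo 0 (l - 1) then Y else ∅ with hY'
    have hYm : ∀ x ∈ Y', x ∈ Y ∧ 0 < i ∧ i < l - 1 := by
      intro x hx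
      rw [hY'] at hx
      split_ifs at hx with e
      · exact ⟨hx, mem_Ioo.1 e⟩
      · simp at hx
    have hm : ∀ x ∈ P ∪ (Q ∪ Y'), x ∈ Lev adj col a W W f i ∨ x ∈ Y' := by
      intro x hx
      rcases mem_union.1 hx with k | k
      · exact Or.inl (mem_filter.1 k).1
      rcases mem_union.1 k with k | k
      · exact Or.inl (mem_filter.1 k).1
      · exact Or.inr k
    have c1 : P ∪ (Q ∪ Y') ⊆ W := fun x hx => by
      rcases hm x hx with k | k
      · exact (mem_lev.1 k).1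
      · exact (mem_unt.1 (hYm x k).1).1
    have c0 : ∀ x ∈ Lev adj col a W W f i, x ∉ Y' := fun x hx k =>
      not_or.2 (mem_unt.1 (hYm x k).1).2 (mem_lev.1 hx).2.1
    have c2 : Disjoint P (Q ∪ Y') := by
      rw [disjoint_left]
      intro x hx hx'
      rw [hP, mem_filter] at hx
      rcases mem_union.1 hx' with k | k
      · exact (mem_filter.1 k).2 hx.2
      · exact c0 x hx.1 k
    have c3 : Fr adj col a (P ∪ (Q ∪ Y')) := by
      intro u hu v hv k k'
      rcases hm u hu with e | e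
      · rcases hm v hv with e' | e'
        · exact f3 u (c1 hu) v (c1 hv) ⟨k, k'⟩ ((mem_lev.1 e).2.2.trans (mem_lev.1 e').2.2.symm)
        · exact (mem_unt.1 (hYm v e').1).2.1 ⟨u, c1 hu, k, k'⟩
      · exact (mem_unt.1 (hYm u e).1).2.2 ⟨v, c1 hv, k, k'⟩
    have c4 := class_free hinv (W' := P) (Z' := Q ∪ Y') (by rwa [union_empty]) c3 (by
      intro s hs t ht k
      have a1 : ∀ x ∈ Lev adj col a W W f i, (i + 1 < l → OutA adj col a W x) ∧
          (0 < i → InA adj col a W x) := fun x hx => by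
        rw [mem_lev] at hx
        exact hx.2.2 ▸ f2 x hx.2.1
      refine Or.inr (Or.inr ?_)
      rcases hm s hs with e | e <;> rcases hm t ht with e' | e'
      · by_cases e0 : 0 < i
        · exact Or.inr ((a1 s e).2 e0)
        · exact Or.inl ((a1 t e').1 (by omega))
      · exact Or.inr ((a1 s e).2 (hYm t e').2.1)
      · exact Or.inl ((a1 t e').1 (by have := (hYm s e).2.2; omega))
      · rcases k with k | k
        · exact absurd e (c0 s (mem_filter.1 k).1)
        · exact absurd e' (c0 t (mem_filter.1 k).1))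
    have c5 := h.child ha hR hno c1 c2 c3 c4 U fun z _ b hb =>
      (mem_filter.1 hb).imp_right fun k => (mem_unt.1 k).2
    rw [sum_union (disjoint_left.2 fun x hx => c0 x (mem_filter.1 hx).1)] at c5
    rw [sum_ite, sum_const, nsmul_eq_mul, mul_one, ← mul_sum]
    linarith
  have k1 := sum_le_sum key
  rw [sum_add_distrib, ← mul_sum, sum_ite_w (fun i hi => by
    rw [mem_Ioo] at hi; rw [mem_range]; omega), sum_const, card_range, nsmul_eq_mul,
    ← pow_succ', Nat.card_Ioo] at k1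
  rw [← sum_lev_w (adj := adj) (col := col) (a := a) (N := W) (X := W) f1]
  refine le_trans (add_le_add (le_of_eq (sum_congr rfl fun i _ => sum_congr rfl fun x hx => ?_))
    ?_) k1
  · have : a ∉ U x := fun k => not_or.2 (mem_unt.1 (mem_filter.1 k).2).2 (mem_lev.1 hx).2.1
    simp only [w, erase_eq_of_notMem this, U]
  · rw [mul_sum, mul_sum]
    refine sum_le_sum fun x hx => ?_
    have a1 : a ∈ U x := mem_filter.2 ⟨ha, hx⟩
    rw [if_neg (ne_empty_of_mem a1)]
    refine mul_le_mul_of_nonneg_left ?_ hν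
    rw [← card_erase_add_one a1, pow_succ']
    exact mul_le_mul_of_nonneg_right (by exact_mod_cast (show μ ≤ l - 1 - 0 - 1 by omega))
      (by positivity)

theorem egm_succ {l μ r : ℕ} {ν ν' η : ℝ} (hGR : GR adj col l)
    (hGR' : GR (flip adj) (flip col) l) (h : EGM adj col l μ r ν) (hν : 1 / 4 ≤ ν) (hν1 : ν ≤ 1)
    (hμ : 30 ≤ μ) (hμl : μ + 3 ≤ l) (hη : μ ≤ η * (l - 3)) (hη0 : 0 ≤ η) (hη1 : η ≤ 1 / 20)
    (hν' : ν' * (1 + (288 / μ + 64 * η) / (r + 1 : ℕ)) ≤ ν) : EGM adj col l μ (r + 1) ν' := by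
  classical
  intro R W Z M U hR hd hinv hno hM hU
  have hμ' : (30 : ℝ) ≤ μ := by exact_mod_cast hμ
  have hno' : NoTwo adj col R W := fun x hx y hy z hz =>
    hno x (mem_union_left _ hx) y (mem_union_left _ hy) z (mem_union_left _ hz)
  set L := (l : ℝ) ^ (r + 1) with hL
  let m : V → ℕ := fun x => (R.filter fun b => x ∈ Unt adj col b W W).card
  let T : V → Finset C := fun x => R.filter fun b => Ta adj col b W Z x
  have k1 := pool_0 hGR h.egs (by linarith) (by omega) hR (inv_of_noP hinv.noP) hno'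
  have k2 := pool_p hGR hGR' h hν hν1 (by omega) hμl hη (M := T) hR hinv.noP hno' (by
    intro w _ b hb
    obtain ⟨b1, b2, b3, ⟨u, u1, u2⟩, v, v1, v2⟩ := mem_filter.1 hb
    refine ⟨b1, ?_, fun k => not_or.2 (mem_unt.1 k).2 b2⟩
    rcases not_and_or.1 b3 with k | k
    · exact Or.inl ⟨k, u, fun j => k ⟨u, j, u2⟩, u2⟩
    · exact Or.inr ⟨k, v, fun j => k ⟨v, j, v2⟩, v2⟩)
  have k3 : W.card + 1 / 8 * ∑ x ∈ W, (if m x = 0 then 0 else (μ : ℝ) ^ m x) ≤ L := by
    refine le_trans ?_ k1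
    rw [card_eq_sum_ones, Nat.cast_sum, mul_sum, ← sum_add_distrib]
    refine sum_le_sum fun x _ => ?_
    simp only [m, card_eq_zero]
    split_ifs with e
    · simp
    · have := le_self_pow₀ (show (1 : ℝ) ≤ μ by linarith) (card_ne_zero.2
        (nonempty_iff_ne_empty.2 e))
      rw [Nat.cast_one]
      nlinarith
  have e0 : ∀ (x : ℝ) (M : V → Finset C), ∑ w ∈ W, wt x (M w).card =
      W.card + x * ∑ w ∈ W, ((5 / 4 : ℝ) ^ (M w).card - 1) := fun x M => by
    simp only [wt]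
    rw [sum_add_distrib, mul_sum, sum_const, nsmul_eq_mul, mul_one]
  have e1 : ∀ M : V → Finset C, 0 ≤ ∑ w ∈ W, ((5 / 4 : ℝ) ^ (M w).card - 1) := fun M =>
    sum_nonneg fun _ _ => sub_nonneg.2 (one_le_pow₀ (by norm_num))
  have k4 := sum_le_sum fun a ha => step_both hGR hGR' h (by linarith) hν1 (by omega) hμl hη hR hd
    hinv hno hM hU (a := a) ha
  rw [sum_add_distrib, sum_comm, sum_const, sum_const, hR, nsmul_eq_mul, nsmul_eq_mul] at k4
  have k5 : (r + 1 : ℕ) * ∑ w ∈ W, wt ν (M w).card -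
      (36 / μ * ∑ x ∈ W, (if m x = 0 then 0 else (μ : ℝ) ^ m x) +
      16 * η * ∑ w ∈ W, ((5 / 4 : ℝ) ^ (T w).card - 1)) +
      (r + 1 : ℕ) * (ν * ∑ z ∈ Z, (μ : ℝ) ^ (U z).card) ≤ (r + 1 : ℕ) * L := by
    refine le_trans (add_le_add_left ?_ _) k4
    rw [mul_sum, mul_sum, mul_sum, ← sum_add_distrib, ← sum_sub_distrib]
    refine sum_le_sum fun w hw => ?_
    rw [← mul_sum, sum_sub_distrib, sum_sub_distrib, sum_add_distrib, ← mul_sum, ← sum_div,
      sum_boole, sum_boole, sum_boole, sum_const, hR, nsmul_eq_mul, mul_one]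
    have := pv2 (show 0 ≤ ν by linarith) hν1 hμ' hη0 hη1 (m := m w) (u := (M w).card)
      (u' := (T w).card) (k := (R.filter fun a => a ∈ M w ∧ w ∉ Unt adj col a W W).card)
      ((card_le_card fun b hb => by
        rw [mem_union, mem_filter, mem_filter]
        have := (hM w hw b hb).1
        tauto).trans (card_union_le _ _))
    linarith
  rw [e0] at k2 k5 ⊢
  have a0 := e1 M
  have a1 := e1 T
  have a2 : 0 ≤ ∑ z ∈ Z, (μ : ℝ) ^ (U z).card := sum_nonneg fun _ _ => by positivity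
  set g := L - W.card with hg
  have a3 : 36 / μ * ∑ x ∈ W, (if m x = 0 then 0 else (μ : ℝ) ^ m x) ≤ 288 / μ * g := by
    rw [show 288 / μ * g = 36 / μ * (8 * g) by ring]
    exact mul_le_mul_of_nonneg_left (by linarith) (by positivity)
  have a4 : 16 * η * ∑ w ∈ W, ((5 / 4 : ℝ) ^ (T w).card - 1) ≤ 64 * η * g := by
    rw [show 64 * η * g = 16 * η * (4 * g) by ring]
    exact mul_le_mul_of_nonneg_left (by nlinarith) (by positivity)
  have a5 : (0 : ℝ) < (r + 1 : ℕ) := by positivity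
  set δ := (288 / μ + 64 * η) / (r + 1 : ℕ) with hδ
  have a6 : 0 < 1 + δ := by positivity
  have a7 : (r + 1 : ℕ) * δ = 288 / μ + 64 * η := mul_div_cancel₀ _ a5.ne'
  set s := ∑ w ∈ W, ((5 / 4 : ℝ) ^ (M w).card - 1) + ∑ z ∈ Z, (μ : ℝ) ^ (U z).card with hs
  have a8 : ν * s ≤ (1 + δ) * g := by
    apply le_of_mul_le_mul_left _ a5
    rw [← mul_assoc _ (1 + δ), mul_add _ 1, a7, hs]
    linarith
  have a9 : ν' * s ≤ g := by
    apply le_of_mul_le_mul_left _ a6
    nlinarith [mul_le_mul_of_nonneg_right hν' (add_nonneg a0 a2)]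
  linarith

theorem eg4 {l μ K : ℕ} {η : ℝ} (hT : ∀ u v, u ≠ v → adj u v ∨ adj v u) (hGR : GR adj col l)
    (hGR' : GR (flip adj) (flip col) l) (hμ : 30 ≤ μ) (hμl : μ + 3 ≤ l) (hη : μ ≤ η * (l - 3))
    (hη0 : 0 ≤ η) (hη1 : η ≤ 1 / 20) (hs : (288 / μ + 64 * η) * Hn K ≤ 1 / 2) {A : Finset C}
    (hA : A.card = K) {W : Finset V} (h0 : ¬ HasP adj col W (K + 1)) (hno : NoTwo adj col A W) :
    W.card ≤ l ^ K := by
  have a0 : 0 ≤ 288 / μ + 64 * η := by positivity
  set β := 288 / μ + 64 * η with hβ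
  have key : ∀ r ≤ K, EGM adj col l μ r (1 / 2 - β * Hn r / 2) := by
    intro r
    induction r with
    | zero => intro _; simpa [Hn] using EGM.zero (μ := μ) hT hGR (by omega)
    | succ r ih =>
      intro hr
      have h1 := (mul_le_mul_of_nonneg_left (Hn_mono (show r ≤ K by omega)) a0).trans hs
      have h2 := mul_nonneg a0 (Hn_nonneg r)
      refine egm_succ hGR hGR' (ih (by omega)) (by linarith) (by linarith) hμ hμl hη hη0 hη1 ?_
      rw [show Hn (r + 1) = Hn r + 1 / ((r + 1 : ℕ) : ℝ) from sum_range_succ _ _, mul_add β,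
        mul_one_div, ← hβ]
      have h3 : (0 : ℝ) ≤ β / (r + 1 : ℕ) := by positivity
      nlinarith [mul_nonneg h2 h3]
  have := (key K le_rfl).egs A W ∅ (fun _ => ∅) hA (disjoint_empty_right _) (inv_of_noP h0)
    (by rwa [union_empty]) (by simp)
  rw [sum_empty, mul_zero, add_zero] at this
  exact_mod_cast this

end Pool.Agent.H31Fed
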