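import Pool.Agent.Lib.MP_fed786_co.H31YF

set_option autoImplicit false

namespace Pool.Agent.H31Fed
open Finset Pool.Agent.H66Fed

theorem clog_le {b x : ℕ} (hb : 1 < b) (hx : 1 < x) :
    ((Nat.clog b x : ℝ) - 1) * Real.log b ≤ Real.log x := by
  have h1 := Nat.pow_pred_clog_lt_self hb hx
  have h2 := Nat.clog_pos hb hx
  obtain ⟨n, hn⟩ : ∃ n, Nat.clog b x = n + 1 := ⟨Nat.clog b x - 1, by omega⟩
  rw [hn] at h1 ⊢
  rw [Nat.cast_succ, add_sub_cancel_right, ← Real.log_pow]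
  exact Real.log_le_log (by positivity) (by exact_mod_cast h1.le)

theorem cC_le {j w : ℕ} (hj : 1 ≤ j) (hw : 1 ≤ w) :
    cC j w ≤ 4 * 10 ^ 7 * (j ^ 4 * w) ∧ cD j w ≤ 5 * 10 ^ 7 * (j ^ 4 * w) := by
  have h1 : cF j ≤ 8928 * j ^ 2 := by rw [cF]; nlinarith
  have h2 : (6 * j + 5) ^ 2 ≤ 121 * j ^ 2 := by nlinarith
  have h3 : j ≤ j ^ 4 * w :=
    (Nat.le_self_pow (by omega) _).trans (Nat.le_mul_of_pos_right _ hw)
  have h4 : 16 * (6 * j + 5) ^ 2 * w * cF j ≤ 16 * 121 * 8928 * (j ^ 4 * w) :=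
    (Nat.mul_le_mul (Nat.mul_le_mul_right w (Nat.mul_le_mul_left 16 h2)) h1).trans
      (le_of_eq (by ring))
  rw [cD, cC]
  omega

theorem numerics3 {l K : ℕ} (hK : 1 < K) (hl : 10 ^ 10 * (1 + Real.log (K + 1 : ℕ)) ^ 6 ≤ l)
    (hk : l < 360 * (K + 1) ^ 2) : ∃ (j w F s μ : ℕ) (η : ℝ), Nm l K j w ∧ 1 + 5 * Hn K ≤ F ∧
      K ≤ 2 ^ s ∧ ((cD j w + 4 * F * cC j w : ℕ) : ℝ) + s * (cD j w + cC j w * Hn K) ≤ l ∧
      30 ≤ μ ∧ μ + 3 ≤ l ∧ μ ≤ η * (l - 3) ∧ 0 ≤ η ∧ η ≤ 1 / 20 ∧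
      (288 / μ + 64 * η) * Hn K ≤ 1 / 2 := by
  have a0 := Real.log_natCast_nonneg (K + 1)
  set L := 1 + Real.log (K + 1 : ℕ) with hL
  have L1 : 1 ≤ L := by linarith
  have L2 : L ^ 2 ≤ L ^ 6 := pow_le_pow_right₀ L1 (by norm_num)
  have L3 : L ≤ L ^ 2 := le_self_pow₀ L1 (by norm_num)
  have hl0 : (10 : ℝ) ^ 10 ≤ l := by nlinarith
  have hl1 : 10 ^ 10 ≤ l := by exact_mod_cast hl0
  have g2 := Real.log_two_gt_d9
  set x := Real.log l with hx
  have x1 : 20 ≤ x := by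
    have : Real.log (2 ^ 30) ≤ x := Real.log_le_log (by norm_num) (by linarith)
    rw [Real.log_pow] at this
    push_cast at this
    linarith
  have x2 : x ≤ 7 * L := by
    have k1 : (l : ℝ) ≤ 2 ^ 9 * ((K + 1 : ℕ) : ℝ) ^ 2 := by
      exact_mod_cast (show l ≤ 2 ^ 9 * (K + 1) ^ 2 by omega)
    have := Real.log_le_log (by linarith) k1
    rw [Real.log_mul (by norm_num) (by positivity), Real.log_pow, Real.log_pow] at this
    push_cast at this a0 hL
    linarith [Real.log_two_lt_d9]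
  have hK' : Real.log K ≤ Real.log (K + 1 : ℕ) :=
    Real.log_le_log (by positivity) (by exact_mod_cast Nat.le_succ K)
  have hH : Hn K ≤ L := (harm_le K).trans (by linarith)
  have hH0 := Hn_nonneg K
  set j := Nat.clog l (K + 1) with hj
  set w := Nat.clog 2 l with hw
  set s := Nat.clog 2 K with hs
  have j1 : j * x ≤ 8 * L := by linarith [clog_le (show 1 < l by omega) (show 1 < K + 1 by omega)]
  have w1 : (w : ℝ) ≤ 2 * x := by
    have := clog_le (show 1 < 2 by omega) (show 1 < l by omega)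
    rw [Nat.cast_ofNat] at this
    by_contra k
    nlinarith
  have s1 : (s : ℝ) ≤ 2 * L := by
    have := clog_le (show 1 < 2 by omega) hK
    rw [Nat.cast_ofNat] at this
    by_contra k
    nlinarith
  have j0 : (0 : ℝ) ≤ j := Nat.cast_nonneg _
  have j2 : (j : ℝ) ≤ L := by nlinarith
  have j3 : (j : ℝ) ^ 4 * w ≤ 2 * L ^ 4 := by
    have k1 := pow_le_pow_left₀ (by positivity) j1 4
    have k2 := pow_le_pow_left₀ (by norm_num) x1 3
    have k3 : (j : ℝ) ^ 4 * x * 20 ^ 3 ≤ j ^ 4 * x * x ^ 3 :=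
      mul_le_mul_of_nonneg_left k2 (by positivity)
    nlinarith [mul_le_mul_of_nonneg_left w1 (show (0 : ℝ) ≤ j ^ 4 by positivity)]
  obtain ⟨c1, c2⟩ := cC_le (j := j) (w := w) (Nat.clog_pos (by omega) (by omega))
    (Nat.clog_pos (by omega) (by omega))
  have c3 : (cC j w : ℝ) ≤ 8 * 10 ^ 7 * L ^ 4 := by
    have : (cC j w : ℝ) ≤ 4 * 10 ^ 7 * (j ^ 4 * w) := by exact_mod_cast c1
    linarith
  have c4 : (cD j w : ℝ) ≤ 10 ^ 8 * L ^ 4 := by
    have : (cD j w : ℝ) ≤ 5 * 10 ^ 7 * (j ^ 4 * w) := by exact_mod_cast c2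
    linarith
  have f1 : 1 + 5 * Hn K ≤ ⌈1 + 5 * Hn K⌉₊ := Nat.le_ceil _
  have f2 : (⌈1 + 5 * Hn K⌉₊ : ℝ) ≤ 7 * L := by
    linarith [(Nat.ceil_lt_add_one (show 0 ≤ 1 + 5 * Hn K by positivity)).le]
  have m1 : 1152 * L ≤ ⌈1152 * L⌉₊ := Nat.le_ceil _
  have m2 : (⌈1152 * L⌉₊ : ℝ) ≤ 1153 * L := by
    linarith [(Nat.ceil_lt_add_one (show 0 ≤ 1152 * L by positivity)).le]
  refine ⟨j, w, ⌈1 + 5 * Hn K⌉₊, s, ⌈1152 * L⌉₊, 1 / (256 * L),
    ⟨Nat.le_pow_clog (by omega) _, ?_, Nat.le_pow_clog (by omega) _⟩, f1,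
    Nat.le_pow_clog (by omega) _, ?_,
    by exact_mod_cast (show (30 : ℝ) ≤ ⌈1152 * L⌉₊ by linarith),
    by exact_mod_cast (show (⌈1152 * L⌉₊ : ℝ) + 3 ≤ l by linarith), ?_, by positivity,
    one_div_le_one_div_of_le (by norm_num) (by linarith), ?_⟩
  · have : 20 * ((j : ℝ) + 1) ^ 2 ≤ l := by nlinarith
    exact_mod_cast this
  · push_cast
    have k0 : 0 ≤ L ^ 4 := by positivity
    have k1 := mul_le_mul f2 c3 (Nat.cast_nonneg _) (by positivity)
    have k2 := mul_le_mul s1 (add_le_add c4 (mul_le_mul c3 hH hH0 (by positivity)))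
      (by positivity) (by positivity)
    have k3 : L ^ 4 ≤ L ^ 6 := pow_le_pow_right₀ L1 (by norm_num)
    have k4 : L ^ 5 ≤ L ^ 6 := pow_le_pow_right₀ L1 (by norm_num)
    nlinarith
  · rw [one_div_mul_eq_div, le_div_iff₀ (by positivity)]
    nlinarith
  · have k1 : 288 / (⌈1152 * L⌉₊ : ℝ) ≤ 1 / (4 * L) := by
      rw [div_le_div_iff₀ (by linarith) (by linarith)]; linarith
    have k2 : (1 / (4 * L) + 64 * (1 / (256 * L))) * L = 1 / 2 := by field_simp; norm_num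
    rw [← k2]
    exact mul_le_mul (by linarith) hH hH0 (by positivity)

variable {V C : Type} [DecidableEq V] [DecidableEq C]
variable {adj : V → V → Prop} {col : V → V → C}

theorem main4 {l : ℕ} (hT : ∀ u v, u ≠ v → adj u v ∨ adj v u) (hA : ∀ u v, adj u v → ¬ adj v u)
    (hGR : GR adj col l) (hGR' : GR (flip adj) (flip col) l) :
    ∀ k : ℕ, 10 ^ 10 * (1 + Real.log k) ^ 6 ≤ l → ∀ U : Finset V,
      ¬ HasP adj col U k → l * U.card ≤ l ^ k := by
  intro k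
  induction k using Nat.strong_induction_on with
  | _ k ih =>
    intro hk U hU
    by_cases h1 : 360 * k ^ 2 ≤ l
    · exact main hT hA hGR k h1 U hU
    have hl : 10 ^ 10 ≤ l := by
      have := one_le_pow₀ (show 1 ≤ 1 + Real.log k by linarith [Real.log_natCast_nonneg k]) (n := 6)
      exact_mod_cast (show (10 : ℝ) ^ 10 ≤ l by linarith)
    obtain ⟨c, rfl⟩ : ∃ c, k = c + 1 + 1 := ⟨k - 2, by
      by_contra e
      have : k ≤ 1 := by omega
      nlinarith⟩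
    have h : Ctx adj col l (c + 1) := ⟨hT, hA, hGR, hGR', by omega, fun r hr => ih r (by omega) (by
      refine le_trans (mul_le_mul_of_nonneg_left (pow_le_pow_left₀
        (by linarith [Real.log_natCast_nonneg r]) (add_le_add_right ?_ 1) 6) (by norm_num)) hk
      rcases r with _ | r
      · simpa using Real.log_natCast_nonneg (c + 1 + 1)
      · exact Real.log_le_log (by positivity) (by exact_mod_cast hr.trans (Nat.le_succ _)))⟩
    obtain ⟨j, w, F, s, μ, η, n1, n2, n3, n4, n5, n6, n7, n8, n9, n10⟩ :=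
      numerics3 (K := c + 1) (by nlinarith) hk (not_le.1 h1)
    rw [pow_succ' l (c + 1)]
    refine Nat.mul_le_mul_left _ (not_lt.1 fun k => ?_)
    obtain ⟨S, s1, s2⟩ := exists_subset_card_eq (Nat.succ_le_of_lt k)
    have hS : ¬ HasP adj col S (c + 1 + 1) := fun k => hU (k.mono s1)
    have k0 : 1 ≤ l ^ (c + 1) := Nat.one_le_pow _ _ h.pos
    obtain ⟨A, a1, a2⟩ := top2 h n1 n2 n3 n4 hS (by omega) (by omega)
    have := eg4 hT hGR hGR' n5 n6 n7 n8 n9 n10 a1 hS a2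
    omega

theorem polylog_l (k : ℕ) (hk : 0 < k) (l : ℕ) (hkl : 10 ^ 10 * (1 + Real.log k) ^ 6 ≤ l)
    (adj : Fin (l ^ (k - 1) + 1) → Fin (l ^ (k - 1) + 1) → Prop)
    (h1 : ∀ u, ¬ adj u u) (h2 : ∀ u v, u ≠ v → (adj u v ↔ ¬ adj v u))
    (c : Fin (l ^ (k - 1) + 1) → Fin (l ^ (k - 1) + 1) → ℕ) :
    (∃ p : Fin (l + 1) → Fin (l ^ (k - 1) + 1), Function.Injective p ∧
      (∀ i : Fin l, adj (p i.castSucc) (p i.succ)) ∧
      (∀ i j : Fin l, c (p i.castSucc) (p i.succ) = c (p j.castSucc) (p j.succ))) ∨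
    (∃ p : Fin (k + 1) → Fin (l ^ (k - 1) + 1), Function.Injective p ∧
      (∀ i : Fin k, adj (p i.castSucc) (p i.succ)) ∧
      Function.Injective (fun i : Fin k => c (p i.castSucc) (p i.succ))) := by
  by_contra hcon
  rw [not_or] at hcon
  have hT : ∀ u v, u ≠ v → adj u v ∨ adj v u := by
    intro u v huv
    by_cases e : adj v u
    · exact Or.inr e
    · exact Or.inl ((h2 u v huv).2 e)
  have hA : ∀ u v, adj u v → ¬ adj v u := by
    intro u v huv
    by_cases e : u = v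
    · subst e; exact absurd huv (h1 u)
    · exact (h2 u v e).1 huv
  have hl0 : 0 < l := by
    have := Real.log_natCast_nonneg k
    exact_mod_cast (lt_of_lt_of_le (by positivity) hkl : (0 : ℝ) < l)
  have hG := gallai_roy h1 hcon.1
  have := main4 hT hA hG (GR.flip hG) k hkl univ (fun h => hcon.2 h.fin)
  rw [card_univ, Fintype.card_fin] at this
  obtain ⟨k, rfl⟩ : ∃ j, k = j + 1 := ⟨k - 1, by omega⟩
  simp only [Nat.add_sub_cancel, pow_succ] at this
  nlinarith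

end Pool.Agent.H31Fed
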