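import Pool.Agent.Lib.MP_fed786_co.H66Path

set_option autoImplicit false

namespace Pool.Agent.H66Fed
open Finset

variable {V C : Type} [DecidableEq V] [DecidableEq C]
variable {adj : V → V → Prop} {col : V → V → C}

/-- Constant of the counting lemma. -/
def kC : ℕ → ℕ
  | 0 => 1
  | n + 1 => 1 + 3 * (n + 1) * kC n

theorem kraft {l : ℕ} (hl : 0 < l) (hT : ∀ u v, u ≠ v → adj u v ∨ adj v u)
    (f : C → V → ℕ) (hf : ∀ a v, f a v < l)
    (hp : ∀ u v, adj u v → f (col u v) u ≠ f (col u v) v) (n : ℕ) :
    ∀ (p : ℕ) (I : Finset V) (Rb Sr Sk : V → Finset C),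
      (∀ v ∈ I, (Rb v).card ≤ p ∧ (Rb v).card + (Sr v).card + (Sk v).card ≤ n ∧
        Disjoint (Sr v) (Sk v)) →
      (∀ u ∈ I, ∀ v ∈ I, adj u v → (col u v ∈ Rb u ∨ col u v ∈ Sr u) ∧
        (col u v ∈ Rb v ∨ col u v ∈ Sk v)) →
      I.card ≤ kC n * l ^ p := by
  induction n with
  | zero =>
    intro p I Rb Sr Sk h1 h2
    have : I.card ≤ 1 := by
      rw [card_le_one]
      intro u hu v hv
      by_contra e
      have key : ∀ u ∈ I, ∀ v ∈ I, ¬ adj u v := by
        intro u hu v hv h
        have h3 := (h1 u hu).2.1
        have h4 : Rb u = ∅ := card_eq_zero.1 (by omega)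
        have h5 : Sr u = ∅ := card_eq_zero.1 (by omega)
        have := (h2 u hu v hv h).1
        simp [h4, h5] at this
      rcases hT u v e with h | h
      · exact key u hu v hv h
      · exact key v hv u hu h
    have h3 : 0 < l ^ p := pow_pos hl _
    simp only [kC]; omega
  | succ n ih =>
    intro p I Rb Sr Sk h1 h2
    have hlp : 0 < l ^ p := pow_pos hl _
    rcases I.eq_empty_or_nonempty with rfl | ⟨v0, hv0⟩
    · simp
    -- the classes for a fixed colour
    have hcl : ∀ a : C, (I.filter fun u => a ∈ Rb u ∨ a ∈ Sr u ∨ a ∈ Sk u).card ≤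
        3 * (kC n * l ^ p) := by
      intro a
      have hA : (I.filter fun u => a ∈ Rb u).card ≤ kC n * l ^ p := by
        rcases p with _ | p
        · have : (I.filter fun u => a ∈ Rb u) = ∅ := by
            rw [filter_eq_empty_iff]
            intro u hu h
            have := (h1 u hu).1
            have := card_pos.2 ⟨a, h⟩
            omega
          simp [this]
        · rw [card_eq_sum_card_fiberwise (f := f a) (t := range l)
            (fun u _ => by simpa using hf a u)]
          have : ∀ i ∈ range l, ((I.filter fun u => a ∈ Rb u).filter fun u => f a u = i).card ≤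
              kC n * l ^ p := by
            intro i _
            apply ih p _ (fun u => (Rb u).erase a) Sr Sk
            · intro v hv
              simp only [mem_filter] at hv
              obtain ⟨g1, g2, g3⟩ := h1 v hv.1.1
              have := card_erase_add_one hv.1.2
              exact ⟨by omega, by omega, g3⟩
            · intro u hu v hv huv
              simp only [mem_filter] at hu hv
              have hne : col u v ≠ a := by
                intro e
                have := hp u v huv
                rw [e, hu.2, hv.2] at this
                exact this rfl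
              have := h2 u hu.1.1 v hv.1.1 huv
              simp only [mem_erase]
              tauto
          calc _ ≤ ∑ _i ∈ range l, kC n * l ^ p := sum_le_sum this
            _ = kC n * l ^ (p + 1) := by simp; ring
      have hB : (I.filter fun u => a ∉ Rb u ∧ a ∈ Sr u).card ≤ kC n * l ^ p := by
        apply ih p _ Rb (fun u => (Sr u).erase a) Sk
        · intro v hv
          simp only [mem_filter] at hv
          obtain ⟨g1, g2, g3⟩ := h1 v hv.1
          have := card_erase_add_one hv.2.2
          exact ⟨g1, by omega, g3.mono_left (erase_subset _ _)⟩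
        · intro u hu v hv huv
          simp only [mem_filter] at hu hv
          have h3 := h2 u hu.1 v hv.1 huv
          have hne : col u v ≠ a := by
            intro e
            rw [e] at h3
            rcases h3.2 with h | h
            · exact hv.2.1 h
            · exact disjoint_left.1 (h1 v hv.1).2.2 hv.2.2 h
          simp only [mem_erase]
          tauto
      have hC : (I.filter fun u => a ∉ Rb u ∧ a ∈ Sk u).card ≤ kC n * l ^ p := by
        apply ih p _ Rb Sr (fun u => (Sk u).erase a)
        · intro v hv
          simp only [mem_filter] at hv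
          obtain ⟨g1, g2, g3⟩ := h1 v hv.1
          have := card_erase_add_one hv.2.2
          exact ⟨g1, by omega, g3.mono_right (erase_subset _ _)⟩
        · intro u hu v hv huv
          simp only [mem_filter] at hu hv
          have h3 := h2 u hu.1 v hv.1 huv
          have hne : col u v ≠ a := by
            intro e
            rw [e] at h3
            rcases h3.1 with h | h
            · exact hu.2.1 h
            · exact disjoint_left.1 (h1 u hu.1).2.2 h hu.2.2
          simp only [mem_erase]
          tauto
      have hsub : (I.filter fun u => a ∈ Rb u ∨ a ∈ Sr u ∨ a ∈ Sk u) ⊆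
          (I.filter fun u => a ∈ Rb u) ∪ ((I.filter fun u => a ∉ Rb u ∧ a ∈ Sr u) ∪
            (I.filter fun u => a ∉ Rb u ∧ a ∈ Sk u)) := by
        intro u hu
        simp only [mem_filter, mem_union] at hu ⊢
        tauto
      have := card_le_card hsub
      have := card_union_le (I.filter fun u => a ∈ Rb u)
        ((I.filter fun u => a ∉ Rb u ∧ a ∈ Sr u) ∪ (I.filter fun u => a ∉ Rb u ∧ a ∈ Sk u))
      have := card_union_le (I.filter fun u => a ∉ Rb u ∧ a ∈ Sr u)
        (I.filter fun u => a ∉ Rb u ∧ a ∈ Sk u)
      omega
    set A := Rb v0 ∪ Sr v0 ∪ Sk v0 with hA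
    have hAc : A.card ≤ n + 1 := by
      have := card_union_le (Rb v0 ∪ Sr v0) (Sk v0)
      have := card_union_le (Rb v0) (Sr v0)
      have := (h1 v0 hv0).2.1
      rw [hA]
      omega
    have hsub : I ⊆ insert v0
        (A.biUnion fun a => I.filter fun u => a ∈ Rb u ∨ a ∈ Sr u ∨ a ∈ Sk u) := by
      intro u hu
      by_cases e : u = v0
      · rw [e]; exact mem_insert_self _ _
      apply mem_insert_of_mem
      simp only [mem_biUnion, mem_filter, hA, mem_union]
      rcases hT u v0 e with h | h
      · have := h2 u hu v0 hv0 h
        exact ⟨col u v0, by tauto, hu, by tauto⟩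
      · have := h2 v0 hv0 u hu h
        exact ⟨col v0 u, by tauto, hu, by tauto⟩
    have h3 := card_le_card hsub
    have h4 := card_insert_le v0
      (A.biUnion fun a => I.filter fun u => a ∈ Rb u ∨ a ∈ Sr u ∨ a ∈ Sk u)
    have h5 := card_biUnion_le_card_mul A
      (fun a => I.filter fun u => a ∈ Rb u ∨ a ∈ Sr u ∨ a ∈ Sk u) _ (fun a _ => hcl a)
    have h6 : A.card * (3 * (kC n * l ^ p)) ≤ (n + 1) * (3 * (kC n * l ^ p)) :=
      Nat.mul_le_mul_right _ hAc
    simp only [kC]
    nlinarith

end Pool.Agent.H66Fed
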