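import Pool.Agent.Lib.MP_fed786_co.H66Path

set_option autoImplicit false

namespace Pool.Agent.H66Fed
open Finset

variable {V C : Type} [DecidableEq V] [DecidableEq C]
variable {adj : V → V → Prop} {col : V → V → C}

/-- Weight constant. -/
def QN : ℕ → ℕ
  | 0 => 2
  | r + 1 => 6 * (QN r ^ 2 + QN r)

theorem QN_le_succ (r : ℕ) : QN r ≤ QN (r + 1) := by
  simp only [QN]; nlinarith [Nat.zero_le (QN r ^ 2)]

/-- Level functions in the sense of Gallai and Roy, extending a prescribed ranking. -/
def GR (adj : V → V → Prop) (col : V → V → C) (l : ℕ) : Prop :=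
  ∀ (a : C) (ρ : V → ℕ), ∃ g : V → ℕ, (∀ v, g v < l) ∧
    (∀ u v, adj u v → col u v = a → g u ≠ g v) ∧
    (∀ u v, adj u v → col u v = a → ρ u < ρ v → g u < g v)

theorem hasP_one (hT : ∀ u v, u ≠ v → adj u v ∨ adj v u) {U : Finset V} {u v : V} (hu : u ∈ U)
    (hv : v ∈ U) (huv : u ≠ v) : HasP adj col U 1 := by
  have key : ∀ u v, u ∈ U → v ∈ U → u ≠ v → adj u v → HasP adj col U 1 := by
    intro u v hu hv huv h
    refine ⟨u, v, _, _, RPath.snoc (RPath.single u) h (by simpa using huv.symm) (by simp), ?_,
      by simp⟩
    intro x hx
    simp only [mem_insert, mem_singleton] at hx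
    rcases hx with rfl | rfl <;> assumption
  rcases hT u v huv with h | h
  · exact key u v hu hv huv h
  · exact key v u hv hu huv.symm h

theorem ext_path {W T T' : Finset V} (a : C) (r : ℕ)
    (hfree : ∀ u ∈ T, ∀ v ∈ T, adj u v → col u v ≠ a) (hTT : T ⊆ T') (hW : W ⊆ T')
    (h : ∀ s ∈ T, ∀ t ∈ T, s ≠ t →
      (∃ u ∈ W, adj u s ∧ col u s = a) ∨ (∃ u ∈ W, adj t u ∧ col t u = a))
    (hP : HasP adj col T (r + 1)) : HasP adj col T' (r + 2) := by
  obtain ⟨s, t, S, A, h1, h2, h3⟩ := hP
  have haA : a ∉ A := by
    intro ha
    obtain ⟨u, hu, v, hv, g1, g2⟩ := h1.col_mem ha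
    exact hfree u (h2 hu) v (h2 hv) g1 g2
  have hs := h2 h1.start_mem
  have ht := h2 h1.end_mem
  rcases h s hs t ht (h1.ne (by omega)) with ⟨u, hu, g1, g2⟩ | ⟨u, hu, g1, g2⟩
  · have huS : u ∉ S := fun hh => hfree u (h2 hh) s hs g1 g2
    refine ⟨u, t, _, _, h1.cons g1 huS (g2 ▸ haA), ?_, ?_⟩
    · exact insert_subset (hW hu) (h2.trans hTT)
    · rw [card_insert_of_notMem (g2 ▸ haA), h3]
  · have huS : u ∉ S := fun hh => hfree t ht u (h2 hh) g1 g2
    refine ⟨s, u, _, _, h1.snoc g1 huS (g2 ▸ haA), ?_, ?_⟩
    · exact insert_subset (hW hu) (h2.trans hTT)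
    · rw [card_insert_of_notMem (g2 ▸ haA), h3]

omit [DecidableEq V] [DecidableEq C] in
theorem sum_classes {l N B : ℕ} (M Sg : ℕ → Finset V)
    (h : ∀ i < l, N * (M i).card + (Sg i).card ≤ B) :
    N * ∑ i ∈ range l, (M i).card + ∑ i ∈ range l, (Sg i).card ≤ l * B := by
  rw [mul_sum, ← sum_add_distrib]
  calc _ ≤ ∑ _i ∈ range l, B := sum_le_sum fun i hi => h i (mem_range.1 hi)
    _ = l * B := by simp

omit [DecidableEq V] [DecidableEq C] in
theorem sum_fiber {l : ℕ} (A : Finset V) (g : V → ℕ) (hg : ∀ v ∈ A, g v < l) :
    ∑ i ∈ range l, (A.filter fun v => g v = i).card = A.card :=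
  (card_eq_sum_card_fiberwise (f := g) (t := range l)
    (fun u hu => by simpa using hg u (by simpa using hu))).symm

theorem sum_mid {l y : ℕ} (hl : 2 ≤ l) :
    ∑ i ∈ range l, (if 0 < i ∧ i + 1 < l then y else 0) = (l - 2) * y := by
  rw [← sum_filter]
  have : (range l).filter (fun i => 0 < i ∧ i + 1 < l) = Finset.Ioo 0 (l - 1) := by
    ext i; simp only [mem_filter, mem_range, Finset.mem_Ioo]; omega
  rw [this]; simp; left; omega

theorem Qlem {l : ℕ} (hT : ∀ u v, u ≠ v → adj u v ∨ adj v u) (hGR : GR adj col l)
    (ex : C → Prop) (r : ℕ) :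
    ∀ (R : Finset C) (W Z : Finset V), R.card = r → QN r + 3 ≤ l → Disjoint W Z →
      (∀ u ∈ W ∪ Z, ∀ v ∈ W ∪ Z, adj u v → col u v ∈ R ∨ ex (col u v)) →
      (∀ x ∈ W ∪ Z, ∀ w ∈ W ∪ Z, ∀ y ∈ W ∪ Z, adj x w → adj w y → ex (col x w) → ex (col w y) →
        False) →
      ¬ HasP adj col W (r + 1) → (∀ z ∈ Z, ¬ HasP adj col (insert z W) (r + 1)) →
      QN r * W.card + Z.card ≤ QN r * l ^ r := by
  classical
  induction r with
  | zero =>
    intro R W Z hR _ hd hc hex hW hZ
    obtain rfl := card_eq_zero.1 hR
    simp only [QN, pow_zero]
    have hW1 : W.card ≤ 1 := by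
      rw [card_le_one]
      intro u hu v hv
      by_contra e
      exact hW (hasP_one hT hu hv e)
    rcases W.eq_empty_or_nonempty with rfl | ⟨w, hw⟩
    · have : Z.card ≤ 2 := by
        by_contra e
        obtain ⟨x, y, z, hx, hy, hz, h1, h2, h3⟩ := two_lt_card_iff.1 (not_le.1 e)
        simp only [empty_union, notMem_empty, false_or] at hc hex
        have k : ∀ x ∈ Z, ∀ w ∈ Z, ∀ y ∈ Z, adj x w → adj w y → False := fun x hx w hw y hy a b =>
          hex x hx w hw y hy a b (hc x hx w hw a) (hc w hw y hy b)
        rcases hT x y h1 with a | a <;> rcases hT x z h2 with b | b <;>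
          rcases hT y z h3 with c | c
        · exact k x hx y hy z hz a c
        · exact k x hx z hz y hy b c
        · exact k x hx y hy z hz a c
        · exact k z hz x hx y hy b a
        · exact k y hy x hx z hz a b
        · exact k y hy x hx z hz a b
        · exact k y hy z hz x hx c b
        · exact k z hz y hy x hx c a
      simpa using this
    · have : Z = ∅ := by
        rw [eq_empty_iff_forall_notMem]
        intro z hz
        have hne : z ≠ w := fun e => disjoint_left.1 hd hw (e ▸ hz)
        exact hZ z hz (hasP_one hT (mem_insert_self _ _) (mem_insert_of_mem hw) hne)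
      subst this
      simp; omega
  | succ r ih =>
    intro R W Z hR hl hd hc hex hW hZ
    obtain ⟨a, ha⟩ : R.Nonempty := card_pos.1 (by omega)
    have hl' : QN r + 3 ≤ l := le_trans (by have := QN_le_succ r; omega) hl
    set N := QN r with hN
    let hin : V → Prop := fun w => ∃ u ∈ W, adj u w ∧ col u w = a
    let hout : V → Prop := fun w => ∃ u ∈ W, adj w u ∧ col w u = a
    -- the class lemma
    have CL : ∀ M Sg : Finset V, M ⊆ W → Sg ⊆ W ∪ Z → Disjoint M Sg →
        (∀ u ∈ M ∪ Sg, ∀ v ∈ M ∪ Sg, adj u v → col u v ≠ a) →
        ((∀ v ∈ M ∪ Sg, hout v) ∨ (∀ v ∈ M ∪ Sg, hin v) ∨ (∀ v ∈ M, hin v ∧ hout v)) →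
        N * M.card + Sg.card ≤ N * l ^ r := by
      intro M Sg hM hS hdis hfree hty
      have hsub : M ∪ Sg ⊆ W ∪ Z := union_subset (hM.trans subset_union_left) hS
      apply ih (R.erase a) M Sg (by rw [card_erase_of_mem ha, hR]; rfl) hl' hdis
      · intro u hu v hv huv
        rcases hc u (hsub hu) v (hsub hv) huv with h | h
        · exact Or.inl (mem_erase.2 ⟨hfree u hu v hv huv, h⟩)
        · exact Or.inr h
      · intro x hx w hw y hy
        exact hex x (hsub hx) w (hsub hw) y (hsub hy)
      · intro hP
        apply hW
        refine ext_path (W := W) a r (fun u hu v hv => hfree u (mem_union_left _ hu) v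
          (mem_union_left _ hv)) hM Subset.rfl ?_ hP
        intro s hs t ht _
        rcases hty with h | h | h
        · exact Or.inr (h t (mem_union_left _ ht))
        · exact Or.inl (h s (mem_union_left _ hs))
        · exact Or.inl (h s hs).1
      · intro z hz hP
        have hi : insert z M ⊆ M ∪ Sg :=
          insert_subset (mem_union_right _ hz) subset_union_left
        have hP' : HasP adj col (insert z W) (r + 2) := by
          refine ext_path (W := W) a r (fun u hu v hv => hfree u (hi hu) v (hi hv))
            (insert_subset_insert _ hM) (subset_insert _ _) ?_ hP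
          intro s hs t ht hst
          rcases hty with h | h | h
          · exact Or.inr (h t (hi ht))
          · exact Or.inl (h s (hi hs))
          · rcases mem_insert.1 hs with e | hs'
            · rcases mem_insert.1 ht with e' | ht'
              · exact absurd (e.trans e'.symm) hst
              · exact Or.inr (h t ht').2
            · exact Or.inl (h s hs').1
        rcases mem_union.1 (hS hz) with h | h
        · rw [insert_eq_of_mem h] at hP'; exact hW hP'
        · exact hZ z h hP'
    let ρ : V → ℕ := fun v =>
      if v ∈ W then (if hout v ∧ ¬ hin v then 1 else if hin v ∧ ¬ hout v then 3 else 2)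
      else (if hout v ∧ ¬ hin v then 0 else if hin v ∧ ¬ hout v then 4 else 2)
    obtain ⟨g, hg1, hg2, hg3⟩ := hGR a ρ
    -- sources lie strictly below the top, sinks strictly above the bottom
    have hsrc : ∀ u, ¬ hin u → ∀ v ∈ W, adj u v → col u v = a → (u ∈ W → hin v) →
        g u < g v := by
      intro u hu v hv huv e hv'
      apply hg3 u v huv e
      have h1 : hout u := ⟨v, hv, huv, e⟩
      by_cases huW : u ∈ W
      · have := hv' huW
        simp only [ρ, if_pos huW, if_pos hv, h1, hu, this]
        simp only [not_false_eq_true, and_self, if_true, not_true_eq_false, and_false, if_false,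
          true_and]
        split_ifs <;> omega
      · simp only [ρ, if_neg huW, if_pos hv, h1, hu]
        simp only [not_false_eq_true, and_self, if_true]
        split_ifs <;> omega
    have hsnk : ∀ v, ¬ hout v → ∀ u ∈ W, adj u v → col u v = a → (v ∈ W → hout u) →
        g u < g v := by
      intro v hv u hu huv e hu'
      apply hg3 u v huv e
      have h1 : hin v := ⟨u, hu, huv, e⟩
      by_cases hvW : v ∈ W
      · have := hu' hvW
        simp only [ρ, if_pos hvW, if_pos hu, h1, hv, this]
        simp only [not_false_eq_true, and_self, if_true, not_true_eq_false, and_false, if_false,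
          true_and]
        split_ifs <;> omega
      · simp only [ρ, if_neg hvW, if_pos hu, h1, hv]
        simp only [not_false_eq_true, and_self, if_true, not_true_eq_false, if_false]
        split_ifs <;> omega
    have hbot : ∀ v, (hin v ∨ hout v) → g v = 0 → hout v := by
      intro v hv h0
      by_contra e
      obtain ⟨u, hu, h1, h2⟩ := hv.resolve_right e
      have := hsnk v e u hu h1 h2 (fun hvW => ⟨v, hvW, h1, h2⟩)
      omega
    have htop : ∀ v, (hin v ∨ hout v) → g v + 1 = l → hin v := by
      intro v hv h0
      by_contra e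
      obtain ⟨u, hu, h1, h2⟩ := hv.resolve_left e
      have := hsrc v e u hu h1 h2 (fun hvW => ⟨v, hvW, h1, h2⟩)
      have := hg1 u
      omega
    set Tc := W.filter (fun w => hin w ∨ hout w) with hTc
    set Y := W.filter (fun w => ¬ (hin w ∨ hout w)) with hY
    have hWc : Tc.card + Y.card = W.card := card_filter_add_card_filter_not _
    set B0 := Tc.filter (fun w => ¬ (hin w ∧ hout w) ∧ 0 < g w ∧ g w + 1 < l) with hB0
    set M0 := Tc.filter (fun w => ¬ (¬ (hin w ∧ hout w) ∧ 0 < g w ∧ g w + 1 < l)) with hM0
    have hTcc : B0.card + M0.card = Tc.card := card_filter_add_card_filter_not _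
    -- first decomposition
    have I1 : N * Tc.card + (B0.card + (l - 2) * Y.card) ≤ l * (N * l ^ r) := by
      let lev : V → ℕ := fun w => if ¬ hin w then 0 else if ¬ hout w then l - 1 else g w
      have hlev : ∀ v ∈ Tc, lev v < l := by
        intro v _
        have := hg1 v
        simp only [lev]; split_ifs <;> omega
      have := sum_classes (l := l) (N := N) (B := N * l ^ r)
        (fun i => Tc.filter fun w => lev w = i)
        (fun i => (B0.filter fun w => g w = i) ∪ (if 0 < i ∧ i + 1 < l then Y else ∅)) ?_
      · rw [sum_fiber Tc lev hlev] at this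
        refine le_trans ?_ this
        apply Nat.add_le_add_left
        rw [← sum_fiber B0 g (fun v _ => hg1 v), ← sum_mid (by omega), ← sum_add_distrib]
        apply sum_le_sum
        intro i _
        rw [card_union_of_disjoint]
        · split_ifs <;> simp
        · split_ifs
          · rw [disjoint_left]
            intro v hv hv'
            simp only [hB0, hTc, hY, mem_filter] at hv hv'
            exact hv'.2 hv.1.1.2
          · simp
      · intro i hi
        have hmem : ∀ v, v ∈ (B0.filter fun w => g w = i) ∪ (if 0 < i ∧ i + 1 < l then Y else ∅) →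
            v ∈ W ∧ 0 < i ∧ i + 1 < l ∧ ¬ (hin v ∧ hout v) ∧ ((hin v ∨ hout v) → g v = i) := by
          intro v hv
          rcases mem_union.1 hv with h | h
          · simp only [hB0, hTc, mem_filter] at h
            obtain ⟨⟨⟨h1, _⟩, h3, h4, h5⟩, h6⟩ := h
            exact ⟨h1, by omega, by omega, h3, fun _ => h6⟩
          · split_ifs at h with h'
            · simp only [hY, mem_filter] at h
              exact ⟨h.1, h'.1, h'.2, fun k => h.2 (Or.inl k.1), fun k => absurd k h.2⟩
            · simp at h
        have hmid : ∀ v ∈ Tc.filter (fun w => lev w = i), 0 < i → i + 1 < l →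
            hin v ∧ hout v ∧ g v = i := by
          intro v hv h1 h2
          have h3 := (mem_filter.1 hv).2
          simp only [lev] at h3
          split_ifs at h3 with h4 h5
          · exact ⟨h4, h5, h3⟩
          · omega
          · omega
        apply CL
        · exact (filter_subset _ _).trans (filter_subset _ _)
        · intro v hv; exact mem_union_left _ (hmem v hv).1
        · rw [disjoint_left]
          intro v hv hv'
          obtain ⟨_, h2, h3, h4, _⟩ := hmem v hv'
          have := hmid v hv h2 h3
          exact h4 ⟨this.1, this.2.1⟩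
        · intro u hu v hv huv e
          have hW' : ∀ v ∈ Tc.filter (fun w => lev w = i) ∪
              ((B0.filter fun w => g w = i) ∪ (if 0 < i ∧ i + 1 < l then Y else ∅)), v ∈ W := by
            intro v hv
            rcases mem_union.1 hv with h | h
            · exact (mem_filter.1 (mem_filter.1 h).1).1
            · exact (hmem v h).1
          have huo : hout u := ⟨v, hW' v hv, huv, e⟩
          have hvi : hin v := ⟨u, hW' u hu, huv, e⟩
          by_cases hm : 0 < i ∧ i + 1 < l
          · have k : ∀ v ∈ Tc.filter (fun w => lev w = i) ∪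
                ((B0.filter fun w => g w = i) ∪ (if 0 < i ∧ i + 1 < l then Y else ∅)),
                (hin v ∨ hout v) → g v = i := by
              intro v hv h
              rcases mem_union.1 hv with h' | h'
              · exact (hmid v h' hm.1 hm.2).2.2
              · exact (hmem v h').2.2.2.2 h
            exact hg2 u v huv e ((k u hu (Or.inr huo)).trans (k v hv (Or.inl hvi)).symm)
          · have k : ∀ v ∈ Tc.filter (fun w => lev w = i) ∪
                ((B0.filter fun w => g w = i) ∪ (if 0 < i ∧ i + 1 < l then Y else ∅)),
                lev v = i := by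
              intro v hv
              rcases mem_union.1 hv with h' | h'
              · exact (mem_filter.1 h').2
              · exact absurd ⟨(hmem v h').2.1, (hmem v h').2.2.1⟩ hm
            have k1 := k u hu
            have k2 := k v hv
            have k3 := hg2 u v huv e
            have k4 := hg1 v
            simp only [lev, huo, hvi, not_true_eq_false, if_false] at k1 k2
            split_ifs at k1 k2 with h4 h5 h5
            · omega
            · have := hsnk v h5 u (hW' u hu) huv e (fun _ => huo)
              omega
            · have := hsrc u h4 v (hW' v hv) huv e (fun _ => hvi)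
              omega
            · omega
        · by_cases hm : 0 < i ∧ i + 1 < l
          · right; right
            intro v hv
            have := hmid v hv hm.1 hm.2
            exact ⟨this.1, this.2.1⟩
          · have k : ∀ v ∈ Tc.filter (fun w => lev w = i) ∪
                ((B0.filter fun w => g w = i) ∪ (if 0 < i ∧ i + 1 < l then Y else ∅)),
                (hin v ∨ hout v) ∧ lev v = i := by
              intro v hv
              rcases mem_union.1 hv with h' | h'
              · exact ⟨(mem_filter.1 (mem_filter.1 h').1).2, (mem_filter.1 h').2⟩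
              · exact absurd ⟨(hmem v h').2.1, (hmem v h').2.2.1⟩ hm
            by_cases h0 : i = 0
            · left
              intro v hv
              obtain ⟨k1, k2⟩ := k v hv
              by_contra e
              have k3 := k1.resolve_right e
              simp only [lev, k3, e, not_true_eq_false, if_false, not_false_eq_true,
                if_true] at k2
              omega
            · right; left
              intro v hv
              obtain ⟨_, k2⟩ := k v hv
              by_contra e
              simp only [lev, e, not_false_eq_true, if_true] at k2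
              omega
    -- second decomposition, for any admissible family of special vertices
    have I2 : ∀ Sg : ℕ → Finset V, (∀ i < l, Sg i ⊆ Z ∧
        (∀ z ∈ Sg i, (hin z ∨ hout z) → g z = i) ∧
        (∀ z ∈ Sg i, ∀ z' ∈ Sg i, g z = g z') ∧
        (¬ (0 < i ∧ i + 1 < l) → ∀ z ∈ Sg i, hin z ∨ hout z)) →
        N * M0.card + ∑ i ∈ range l, (Sg i).card ≤ l * (N * l ^ r) := by
      intro Sg hSg
      have := sum_classes (l := l) (N := N) (B := N * l ^ r)
        (fun i => M0.filter fun w => g w = i) Sg ?_
      · rwa [sum_fiber M0 g (fun v _ => hg1 v)] at this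
      · intro i hi
        obtain ⟨s1, s2, s3, s4⟩ := hSg i hi
        have hM : ∀ v ∈ M0.filter (fun w => g w = i), v ∈ W ∧ (hin v ∨ hout v) ∧ g v = i ∧
            (0 < i ∧ i + 1 < l → hin v ∧ hout v) := by
          intro v hv
          simp only [hM0, hTc, mem_filter] at hv
          obtain ⟨⟨⟨h1, h2⟩, h3⟩, h4⟩ := hv
          refine ⟨h1, h2, h4, fun h => ?_⟩
          by_contra e
          exact h3 ⟨e, by omega, by omega⟩
        apply CL
        · intro v hv; exact (hM v hv).1
        · exact s1.trans subset_union_right
        · rw [disjoint_left]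
          intro v hv hv'
          exact disjoint_left.1 hd (hM v hv).1 (s1 hv')
        · intro u hu v hv huv e
          apply hg2 u v huv e
          rcases mem_union.1 hu with hu | hu <;> rcases mem_union.1 hv with hv | hv
          · rw [(hM u hu).2.2.1, (hM v hv).2.2.1]
          · rw [(hM u hu).2.2.1, s2 v hv (Or.inl ⟨u, (hM u hu).1, huv, e⟩)]
          · rw [(hM v hv).2.2.1, s2 u hu (Or.inr ⟨v, (hM v hv).1, huv, e⟩)]
          · exact s3 u hu v hv
        · by_cases hm : 0 < i ∧ i + 1 < l
          · right; right
            intro v hv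
            exact (hM v hv).2.2.2 hm
          · have k : ∀ v ∈ M0.filter (fun w => g w = i) ∪ Sg i, (hin v ∨ hout v) ∧ g v = i := by
              intro v hv
              rcases mem_union.1 hv with h' | h'
              · exact ⟨(hM v h').2.1, (hM v h').2.2.1⟩
              · exact ⟨s4 hm v h', s2 v h' (s4 hm v h')⟩
            by_cases h0 : i = 0
            · left
              intro v hv
              exact hbot v (k v hv).1 ((k v hv).2.trans h0)
            · right; left
              intro v hv
              exact htop v (k v hv).1 (by have := (k v hv).2; omega)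
    set Z1 := Z.filter (fun w => hin w ∨ hout w) with hZ1
    set Z2 := Z.filter (fun w => ¬ (hin w ∨ hout w)) with hZ2
    have hZc : Z1.card + Z2.card = Z.card := card_filter_add_card_filter_not _
    have I2a : N * M0.card + Z1.card ≤ l * (N * l ^ r) := by
      have := I2 (fun i => Z1.filter fun w => g w = i) ?_
      · rwa [sum_fiber Z1 g (fun v _ => hg1 v)] at this
      · intro i _
        refine ⟨(filter_subset _ _).trans (filter_subset _ _), fun z hz _ => (mem_filter.1 hz).2,
          fun z hz z' hz' => ((mem_filter.1 hz).2).trans ((mem_filter.1 hz').2).symm,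
          fun _ z hz => (mem_filter.1 (mem_filter.1 hz).1).2⟩
    obtain ⟨j, _, hj⟩ : ∃ j ∈ range l, Z2.card ≤ l * (Z2.filter fun w => g w = j).card := by
      apply Finset.exists_le_of_sum_le (by rw [nonempty_range_iff]; omega)
      rw [← mul_sum, sum_fiber Z2 g (fun v _ => hg1 v)]
      simp
    have I2b : N * M0.card + (l - 2) * (Z2.filter fun w => g w = j).card ≤ l * (N * l ^ r) := by
      have := I2 (fun i => if 0 < i ∧ i + 1 < l then Z2.filter fun w => g w = j else ∅) ?_
      · rw [← sum_mid (by omega)]
        refine le_trans (le_of_eq ?_) this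
        congr 1
        apply sum_congr rfl
        intro i _
        split_ifs <;> simp
      · intro i _
        by_cases hm : 0 < i ∧ i + 1 < l
        · simp only [if_pos hm]
          refine ⟨(filter_subset _ _).trans (filter_subset _ _),
            fun z hz h => absurd h (mem_filter.1 (mem_filter.1 hz).1).2,
            fun z hz z' hz' => ((mem_filter.1 hz).2).trans ((mem_filter.1 hz').2).symm,
            fun h => absurd hm h⟩
        · simp [if_neg hm]
    -- arithmetic
    obtain ⟨σ, hσ1, hσ2⟩ : ∃ σ, N * M0.card + σ ≤ l * (N * l ^ r) ∧ Z.card ≤ 6 * σ := by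
      rcases le_total Z1.card Z2.card with h | h
      · refine ⟨_, I2b, ?_⟩
        have h1 : l * (Z2.filter fun w => g w = j).card ≤
            (3 * (l - 2)) * (Z2.filter fun w => g w = j).card :=
          Nat.mul_le_mul_right _ (by omega)
        nlinarith
      · exact ⟨_, I2a, by omega⟩
    have h1 : (N + 1) * Y.card ≤ (l - 2) * Y.card := Nat.mul_le_mul_right _ (by omega)
    have hP : l * (N * l ^ r) = N * l ^ (r + 1) := by ring
    rw [hP] at I1 hσ1
    have J1 : N * W.card + (B0.card + Y.card) ≤ N * l ^ (r + 1) := by
      rw [← hWc]; nlinarith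
    have J2 : N * W.card + σ ≤ N * l ^ (r + 1) + N * (B0.card + Y.card) := by
      rw [← hWc, ← hTcc]; nlinarith
    have J3 := Nat.mul_le_mul_left N J1
    simp only [QN, ← hN]
    nlinarith

end Pool.Agent.H66Fed
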