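import Pool.Agent.Lib.MP_fed786_co.H66Kraft
import Pool.Agent.Lib.MP_fed786_co.H66Q

set_option autoImplicit false

namespace Pool.Agent.H66Fed
open Finset

variable {V C : Type} [DecidableEq V] [DecidableEq C]
variable {adj : V → V → Prop} {col : V → V → C}

theorem ext_col {W S : Finset V} {A : Finset C} {r : ℕ} {s v y : V}
    (hW : ¬ HasP adj col W (r + 1)) (h : RPath adj col s v S A) (hS : S ⊆ W) (hA : A.card = r)
    (hy : y ∈ W) (hvy : adj v y) (hyS : y ∉ S) : col v y ∈ A := by
  by_contra e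
  exact hW ⟨s, y, _, _, h.snoc hvy hyS e, insert_subset hy hS,
    by rw [card_insert_of_notMem e, hA]⟩

open Classical in
/-- Colours of arcs from `v` into `W`. -/
noncomputable def outc (adj : V → V → Prop) (col : V → V → C) (W : Finset V) (v : V) : Finset C :=
  (W.filter (adj v)).image (col v)

open Classical in
/-- Colours of at least two arcs from `v` into `W`. -/
noncomputable def out2 (adj : V → V → Prop) (col : V → V → C) (W : Finset V) (v : V) : Finset C :=
  (outc adj col W v).filter fun a =>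
    ∃ y1 ∈ W, ∃ y2 ∈ W, y1 ≠ y2 ∧ adj v y1 ∧ adj v y2 ∧ col v y1 = a ∧ col v y2 = a

omit [DecidableEq V] in
theorem mem_outc {W : Finset V} {v : V} {a : C} :
    a ∈ outc adj col W v ↔ ∃ y ∈ W, adj v y ∧ col v y = a := by
  simp only [outc, mem_image, mem_filter, and_assoc]

theorem mem_out2 {W : Finset V} {v : V} {a : C} :
    a ∈ out2 adj col W v ↔
      ∃ y1 ∈ W, ∃ y2 ∈ W, y1 ≠ y2 ∧ adj v y1 ∧ adj v y2 ∧ col v y1 = a ∧ col v y2 = a := by
  simp only [out2, mem_filter, mem_outc]
  constructor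
  · exact fun h => h.2
  · rintro ⟨y1, h1, y2, h2, h3, h4, h5, h6, h7⟩
    exact ⟨⟨y1, h1, h4, h6⟩, y1, h1, y2, h2, h3, h4, h5, h6, h7⟩

theorem out2_subset {W : Finset V} {v : V} : out2 adj col W v ⊆ outc adj col W v := by
  intro a ha
  obtain ⟨y1, h1, _, _, _, h4, _, h6, _⟩ := mem_out2.1 ha
  exact mem_outc.2 ⟨y1, h1, h4, h6⟩

theorem outc_card (hirr : ∀ v, ¬ adj v v) {W : Finset V} {r K : ℕ} {v : V}
    (hW : ¬ HasP adj col W (r + 1)) (hK : r + 1 ≤ K) (hv : RobEnd adj col K W r v) :
    (outc adj col W v).card ≤ r := by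
  by_contra e
  obtain ⟨T, hT, hTc⟩ := exists_subset_card_eq (show r + 1 ≤ (outc adj col W v).card by omega)
  have h1 : ∀ a, ∃ y, a ∈ T → y ∈ W ∧ adj v y ∧ col v y = a := by
    intro a
    by_cases ha : a ∈ T
    · obtain ⟨y, h⟩ := mem_outc.1 (hT ha)
      exact ⟨y, fun _ => h⟩
    · exact ⟨v, fun h => absurd h ha⟩
  choose wit hwit using h1
  obtain ⟨s, S, A, a1, a2, a3, a4⟩ := hv (T.image wit) (card_image_le.trans (by omega)) (by
    intro h
    obtain ⟨a, ha, e⟩ := mem_image.1 h
    have := (hwit a ha).2.1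
    rw [e] at this
    exact hirr v this)
  have : T ⊆ A := by
    intro a ha
    obtain ⟨b1, b2, b3⟩ := hwit a ha
    rw [← b3]
    exact ext_col hW a1 a2 a3 b1 b2 (fun h => disjoint_left.1 a4 h (mem_image_of_mem _ ha))
  have := card_le_card this
  omega

open Classical in
theorem rare_card {W : Finset V} {v : V} :
    (W.filter fun y => adj v y ∧ col v y ∉ out2 adj col W v).card ≤ (outc adj col W v).card := by
  apply card_le_card_of_injOn (col v)
  · intro y hy
    simp only [coe_filter, Set.mem_ofPred_eq] at hy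
    exact mem_coe.2 (mem_outc.2 ⟨y, hy.1, hy.2.1, rfl⟩)
  · intro y hy y' hy' e
    simp only [coe_filter, Set.mem_ofPred_eq] at hy hy'
    by_contra e'
    exact hy.2.2 (mem_out2.2 ⟨y, hy.1, y', hy'.1, e', hy.2.1, hy'.2.1, rfl, e.symm⟩)

/-- Properties of the set of full vertices. -/
structure Full (adj : V → V → Prop) (col : V → V → C) (W F : Finset V) (Rb : V → Finset C)
    (r : ℕ) : Prop where
  sub : F ⊆ W
  card : ∀ v ∈ F, (Rb v).card = r
  hout : ∀ v ∈ F, ∀ y ∈ W, adj v y → col v y ∈ Rb v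
  hin : ∀ v ∈ F, ∀ y ∈ W, adj y v → col y v ∈ Rb v
  hout2 : ∀ v ∈ F, ∀ d ∈ Rb v,
    ∃ y1 ∈ W, ∃ y2 ∈ W, y1 ≠ y2 ∧ adj v y1 ∧ adj v y2 ∧ col v y1 = d ∧ col v y2 = d
  hin2 : ∀ v ∈ F, ∀ d ∈ Rb v,
    ∃ y1 ∈ W, ∃ y2 ∈ W, y1 ≠ y2 ∧ adj y1 v ∧ adj y2 v ∧ col y1 v = d ∧ col y2 v = d

omit [DecidableEq V] [DecidableEq C] in
theorem Full.flip {W F : Finset V} {Rb : V → Finset C} {r : ℕ} (h : Full adj col W F Rb r) :
    Full (flip adj) (flip col) W F Rb r :=
  ⟨h.sub, h.card, h.hin, h.hout, h.hin2, h.hout2⟩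

/-- Level set of colour `c` among full vertices. -/
def Lv (f : C → V → ℕ) (F : Finset V) (Rb : V → Finset C) (c : C) (i : ℕ) : Finset V :=
  F.filter fun w => c ∈ Rb w ∧ f c w = i

theorem goodIn (hirr : ∀ v, ¬ adj v v) {f : C → V → ℕ}
    (hp : ∀ u v, adj u v → f (col u v) u ≠ f (col u v) v)
    {W F : Finset V} {Rb : V → Finset C} {r K : ℕ} (hF : Full adj col W F Rb (r + 1))
    (hW : ¬ HasP adj col W (r + 2)) {u : V} (hu : u ∈ F) {c : C}
    (hrob : RobEnd adj col K (Lv f F Rb c (f c u)) r u) (X : Finset V)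
    (hX : X.card + 2 * (r + 1) ≤ K) (huX : u ∉ X) :
    ∃ s S, RPath adj col s u S ((Rb u).erase c) ∧ S ⊆ W ∧ Disjoint S X ∧ c ∈ Rb u := by
  have h1 : ∀ d, ∃ y1 y2, d ∈ Rb u → y1 ∈ W ∧ y2 ∈ W ∧ y1 ≠ y2 ∧ adj u y1 ∧ adj u y2 ∧
      col u y1 = d ∧ col u y2 = d := by
    intro d
    by_cases hd : d ∈ Rb u
    · obtain ⟨y1, a1, y2, a2, a3⟩ := hF.hout2 u hu d hd
      exact ⟨y1, y2, fun _ => ⟨a1, a2, a3⟩⟩
    · exact ⟨u, u, fun h => absurd h hd⟩
  choose w1 w2 hw using h1
  have hc1 : ((Rb u).image w1).card ≤ r + 1 := card_image_le.trans (hF.card u hu).le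
  have hc2 : ((Rb u).image w2).card ≤ r + 1 := card_image_le.trans (hF.card u hu).le
  obtain ⟨s, S, A, a1, a2, a3, a4⟩ := hrob (X ∪ ((Rb u).image w1 ∪ (Rb u).image w2)) (by
    have := card_union_le X ((Rb u).image w1 ∪ (Rb u).image w2)
    have := card_union_le ((Rb u).image w1) ((Rb u).image w2)
    omega) (by
    simp only [mem_union, mem_image, not_or]
    refine ⟨huX, ?_, ?_⟩
    · rintro ⟨d, hd, e⟩
      have := (hw d hd).2.2.2.1
      rw [e] at this; exact hirr u this
    · rintro ⟨d, hd, e⟩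
      have := (hw d hd).2.2.2.2.1
      rw [e] at this; exact hirr u this)
  have hlev : ∀ x ∈ S, x ∈ F ∧ c ∈ Rb x ∧ f c x = f c u := fun x hx => mem_filter.1 (a2 hx)
  have hSW : S ⊆ W := fun x hx => hF.sub (hlev x hx).1
  have hfree : ∀ x ∈ S, ∀ y ∈ S, adj x y → col x y ≠ c := by
    intro x hx y hy hxy e
    have := hp x y hxy
    rw [e, (hlev x hx).2.2, (hlev y hy).2.2] at this
    exact this rfl
  have hcA : c ∉ A := by
    intro h
    obtain ⟨x, hx, y, hy, g1, g2⟩ := a1.col_mem h
    exact hfree x hx y hy g1 g2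
  have hs := hlev s a1.start_mem
  obtain ⟨x, hxW, _, _, _, hxs, _, hxc, _⟩ := hF.hin2 s hs.1 c hs.2.1
  have hxS : x ∉ S := fun h => hfree x h s a1.start_mem hxs hxc
  have b1 := a1.cons hxs hxS (hxc ▸ hcA)
  rw [hxc] at b1
  have b3 : (insert c A).card = r + 1 := by rw [card_insert_of_notMem hcA, a3]
  have hsub : Rb u ⊆ insert c A := by
    intro d hd
    obtain ⟨g1, g2, g3, g4, g5, g6, g7⟩ := hw d hd
    have n1 : w1 d ∉ S := fun h => disjoint_left.1 a4 h
      (mem_union_right _ (mem_union_left _ (mem_image_of_mem _ hd)))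
    have n2 : w2 d ∉ S := fun h => disjoint_left.1 a4 h
      (mem_union_right _ (mem_union_right _ (mem_image_of_mem _ hd)))
    by_cases e : w1 d = x
    · rw [← g7]
      refine ext_col hW b1 (insert_subset hxW hSW) b3 g2 g5 ?_
      simp only [mem_insert, not_or]
      exact ⟨fun e' => g3 (e.trans e'.symm), n2⟩
    · rw [← g6]
      refine ext_col hW b1 (insert_subset hxW hSW) b3 g1 g4 ?_
      simp only [mem_insert, not_or]
      exact ⟨e, n1⟩
  have heq : Rb u = insert c A := eq_of_subset_of_card_le hsub (by rw [b3, hF.card u hu])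
  refine ⟨s, S, ?_, hSW, a4.mono_right subset_union_left, (hlev u a1.end_mem).2.1⟩
  rw [heq, erase_insert hcA]
  exact a1

theorem dom (hA : ∀ u v, adj u v → ¬ adj v u) {f : C → V → ℕ}
    (hp : ∀ u v, adj u v → f (col u v) u ≠ f (col u v) v)
    {W F : Finset V} {Rb : V → Finset C} {r K : ℕ} (hF : Full adj col W F Rb (r + 1))
    (hW : ¬ HasP adj col W (r + 2)) (hK : 3 * (r + 1) + 1 ≤ K) {u v : V} (hu : u ∈ F) (hv : v ∈ F)
    (huv : adj u v)
    (hrob : RobEnd adj col K (Lv f F Rb (col u v) (f (col u v) u)) r u) : Rb u = Rb v := by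
  have hirr : ∀ v, ¬ adj v v := fun v h => hA v v h h
  have h1 : ∀ d, ∃ y, d ∈ Rb v → y ∈ W ∧ adj v y ∧ col v y = d := by
    intro d
    by_cases hd : d ∈ Rb v
    · obtain ⟨y1, a1, _, _, _, a2, _, a3, _⟩ := hF.hout2 v hv d hd
      exact ⟨y1, fun _ => ⟨a1, a2, a3⟩⟩
    · exact ⟨u, fun h => absurd h hd⟩
  choose w hw using h1
  have hc1 : ((Rb v).image w).card ≤ r + 1 := card_image_le.trans (hF.card v hv).le
  obtain ⟨s, S, a1, a2, a3, a4⟩ := goodIn hirr hp hF hW hu hrob (insert v ((Rb v).image w)) (by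
    have := card_insert_le v ((Rb v).image w)
    omega) (by
    simp only [mem_insert, mem_image, not_or]
    refine ⟨fun e => hirr u (by rwa [← e] at huv), ?_⟩
    rintro ⟨d, hd, e⟩
    have := (hw d hd).2.1
    rw [e] at this
    exact hA u v huv this)
  have hvS : v ∉ S := fun h => disjoint_left.1 a3 h (mem_insert_self _ _)
  have b1 := a1.snoc huv hvS (notMem_erase _ _)
  rw [insert_erase a4] at b1
  symm
  apply eq_of_subset_of_card_le _ (by rw [hF.card u hu, hF.card v hv])
  intro d hd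
  obtain ⟨g1, g2, g3⟩ := hw d hd
  rw [← g3]
  refine ext_col hW b1 (insert_subset (hF.sub hv) a2) (hF.card u hu) g1 g2 ?_
  simp only [mem_insert, not_or]
  exact ⟨fun e => hirr v (by rwa [e] at g2), fun h =>
    disjoint_left.1 a3 h (mem_insert_of_mem (mem_image_of_mem _ hd))⟩

theorem noex (hirr : ∀ v, ¬ adj v v) {f : C → V → ℕ}
    (hp : ∀ u v, adj u v → f (col u v) u ≠ f (col u v) v)
    {W F : Finset V} {Rb : V → Finset C} {r K : ℕ} (hF : Full adj col W F Rb (r + 1))
    (hW : ¬ HasP adj col W (r + 2)) (hK : 3 * (r + 1) + 1 ≤ K) {u : V} (hu : u ∈ F)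
    (hrob : ∀ c ∈ Rb u, RobEnd adj col K (Lv f F Rb c (f c u)) r u) {w y : V} (hw : w ∈ W)
    (hy : y ∈ W) (huw : adj u w) (hwy : adj w y) (hex : col w y ∉ Rb u) : False := by
  have hc := hF.hout u hu w hw huw
  have hyu : u ≠ y := by
    rintro rfl
    exact hex (hF.hin u hu w hw hwy)
  have hwu : u ≠ w := by
    rintro rfl
    exact hirr u huw
  obtain ⟨s, S, a1, a2, a3, a4⟩ := goodIn hirr hp hF hW hu (hrob _ hc) {w, y} (by
    have := card_le_two (a := w) (b := y)
    omega) (by simp [hyu, hwu])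
  have hwS : w ∉ S := fun h => disjoint_left.1 a3 h (by simp)
  have hyS : y ∉ S := fun h => disjoint_left.1 a3 h (by simp)
  have b1 := a1.snoc huw hwS (notMem_erase _ _)
  rw [insert_erase a4] at b1
  apply hex
  refine ext_col hW b1 (insert_subset hw a2) (hF.card u hu) hy hwy ?_
  simp only [mem_insert, not_or]
  exact ⟨fun e => hirr w (by rwa [e] at hwy), hyS⟩

open Classical in
theorem bad_card {l r K : ℕ} (hl : 0 < l) {f : C → V → ℕ} (hf : ∀ a v, f a v < l)
    (H0 : ∀ U : Finset V, ¬ HasP adj col U r → l * U.card ≤ l ^ r) (F : Finset V)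
    (Rb : V → Finset C) (c : C) :
    (F.filter fun u => c ∈ Rb u ∧ ¬ RobEnd adj col K (Lv f F Rb c (f c u)) r u).card ≤
      (2 * K + 1) * l ^ r := by
  apply Nat.le_of_mul_le_mul_left _ hl
  rw [← sum_fiber _ (f c) (fun v _ => hf c v), mul_sum]
  calc _ ≤ ∑ _i ∈ range l, (2 * K + 1) * l ^ r := by
        apply sum_le_sum
        intro i _
        apply rob_count (adj := adj) (col := col) (U := Lv f F Rb c i) _ (fun U _ => H0 U)
        · intro v hv
          simp only [mem_filter] at hv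
          rw [← hv.2]; exact hv.1.2.2
        · intro v hv
          simp only [mem_filter, Lv] at hv ⊢
          exact ⟨hv.1.1, hv.1.2.1, hv.2⟩
    _ = _ := by simp

/-- Threshold constant for one step. -/
def cS (r : ℕ) : ℕ :=
  2 * (2 * (3 * (r + 1) + 1) + 1) + (2 * (2 * (r + 1)) + 1) * kC (2 * (r + 1)) +
    (r + 1) * (2 * (2 * (3 * (r + 1) + 1) + 1))

theorem QN_pos (r : ℕ) : 0 < QN r := by
  induction r with
  | zero => simp [QN]
  | succ r ih => exact lt_of_lt_of_le ih (QN_le_succ r)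

theorem step {l r : ℕ} (hT : ∀ u v, u ≠ v → adj u v ∨ adj v u) (hA : ∀ u v, adj u v → ¬ adj v u)
    (hGR : GR adj col l) (hl1 : QN (r + 1) + 3 ≤ l) (hl2 : cS r ≤ l)
    (H1 : ∀ U : Finset V, ¬ HasP adj col U (r + 1) → l * U.card ≤ l ^ (r + 1))
    (H0 : ∀ U : Finset V, ¬ HasP adj col U r → l * U.card ≤ l ^ r)
    (W : Finset V) (hW : ¬ HasP adj col W (r + 2)) : W.card ≤ l ^ (r + 1) := by
  classical
  have hl : 0 < l := by omega
  have hirr : ∀ v, ¬ adj v v := fun v h => hA v v h h
  have hirr' : ∀ v, ¬ flip adj v v := hirr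
  have hA' : ∀ u v, flip adj u v → ¬ flip adj v u := fun u v h => hA v u h
  have hW' : ¬ HasP (flip adj) (flip col) W (r + 2) := fun h => hW h.of_reverse
  have H1' : ∀ U : Finset V, ¬ HasP (flip adj) (flip col) U (r + 1) → l * U.card ≤ l ^ (r + 1) :=
    fun U h => H1 U fun h' => h h'.reverse
  have H0' : ∀ U : Finset V, ¬ HasP (flip adj) (flip col) U r → l * U.card ≤ l ^ r :=
    fun U h => H0 U fun h' => h h'.reverse
  choose f hf hf2 _ using fun a => hGR a (fun _ => 0)
  have hp : ∀ u v, adj u v → f (col u v) u ≠ f (col u v) v := fun u v h => hf2 _ u v h rfl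
  have hp' : ∀ u v, flip adj u v → f (flip col u v) u ≠ f (flip col u v) v :=
    fun u v h => (hp v u h).symm
  set K := 3 * (r + 1) + 1 with hK
  by_contra hcon
  let Rb : V → Finset C := fun v => out2 adj col W v ∩ out2 (flip adj) (flip col) W v
  set nE := W.filter (fun v => ¬ RobEnd adj col K W (r + 1) v) with hnE
  set nS := W.filter (fun v => ¬ RobEnd (flip adj) (flip col) K W (r + 1) v) with hnS
  set Hs := W.filter (fun v => RobEnd adj col K W (r + 1) v ∧
    RobEnd (flip adj) (flip col) K W (r + 1) v ∧ (Rb v).card ≤ r) with hHs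
  set F := W.filter (fun v => RobEnd adj col K W (r + 1) v ∧
    RobEnd (flip adj) (flip col) K W (r + 1) v ∧ r + 1 ≤ (Rb v).card) with hFd
  have c1 : nE.card ≤ (2 * K + 1) * l ^ r := by
    apply Nat.le_of_mul_le_mul_left _ hl
    have := rob_count (K := K) (filter_subset _ W : nE ⊆ W) (fun U _ => H1 U)
      (fun v hv => (mem_filter.1 hv).2)
    calc _ ≤ _ := this
      _ = _ := by ring
  have c2 : nS.card ≤ (2 * K + 1) * l ^ r := by
    apply Nat.le_of_mul_le_mul_left _ hl
    have := rob_count (K := K) (filter_subset _ W : nS ⊆ W) (fun U _ => H1' U)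
      (fun v hv => (mem_filter.1 hv).2)
    calc _ ≤ _ := this
      _ = _ := by ring
  have c3 : Hs.card ≤ (2 * (2 * (r + 1)) + 1) * kC (2 * (r + 1)) * l ^ r := by
    have hoc : ∀ v ∈ Hs, (outc adj col W v).card ≤ r + 1 ∧
        (outc (flip adj) (flip col) W v).card ≤ r + 1 := fun v hv =>
      ⟨outc_card hirr hW (by omega) (mem_filter.1 hv).2.1,
        outc_card hirr' hW' (by omega) (mem_filter.1 hv).2.2.1⟩
    obtain ⟨I, hI, hI1, hI2⟩ := indep (2 * (r + 1)) (fun v =>
      (W.filter fun y => adj v y ∧ col v y ∉ out2 adj col W v) ∪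
      (W.filter fun y => flip adj v y ∧ flip col v y ∉ out2 (flip adj) (flip col) W v)) Hs (by
        intro v hv
        refine (card_union_le _ _).trans ?_
        have k1 := rare_card (adj := adj) (col := col) (W := W) (v := v)
        have k2 := rare_card (adj := flip adj) (col := flip col) (W := W) (v := v)
        have := hoc v hv
        omega)
    have := kraft hl hT f hf hp (2 * (r + 1)) r I Rb
      (fun v => out2 adj col W v \ out2 (flip adj) (flip col) W v)
      (fun v => out2 (flip adj) (flip col) W v \ out2 adj col W v) (by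
        intro v hv
        refine ⟨(mem_filter.1 (hI hv)).2.2.2, ?_, disjoint_sdiff_sdiff⟩
        have k1 := card_sdiff_add_card_inter (out2 adj col W v) (out2 (flip adj) (flip col) W v)
        have k2 := card_le_card
          (sdiff_subset (s := out2 (flip adj) (flip col) W v) (t := out2 adj col W v))
        have k3 := card_le_card (out2_subset (adj := adj) (col := col) (W := W) (v := v))
        have k4 := card_le_card
          (out2_subset (adj := flip adj) (col := flip col) (W := W) (v := v))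
        have := hoc v (hI hv)
        simp only [Rb]
        omega) (by
        intro u hu v hv huv
        have hne : u ≠ v := fun e => hirr u (by rwa [← e] at huv)
        have k1 := hI1 u hu v hv hne
        have k2 := hI1 v hv u hu hne.symm
        have huW : u ∈ W := (mem_filter.1 (hI hu)).1
        have hvW : v ∈ W := (mem_filter.1 (hI hv)).1
        simp only [mem_union, mem_filter, not_or, not_and, not_not] at k1 k2
        have k3 : col u v ∈ out2 adj col W u := k2.1 hvW huv
        have k4 : col u v ∈ out2 (flip adj) (flip col) W v := k1.2 huW huv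
        simp only [Rb, mem_inter, mem_sdiff]
        tauto)
    calc Hs.card ≤ _ := hI2
      _ ≤ (2 * (2 * (r + 1)) + 1) * (kC (2 * (r + 1)) * l ^ r) := Nat.mul_le_mul_left _ this
      _ = _ := by ring
  have c4 : W.card ≤ F.card + (Hs.card + (nE.card + nS.card)) := by
    have : W ⊆ F ∪ (Hs ∪ (nE ∪ nS)) := by
      intro v hv
      simp only [hFd, hHs, hnE, hnS, mem_union, mem_filter, hv, true_and]
      by_cases a1 : RobEnd adj col K W (r + 1) v
      · by_cases a2 : RobEnd (flip adj) (flip col) K W (r + 1) v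
        · rcases Nat.lt_or_ge r (Rb v).card with h | h
          · exact Or.inl ⟨a1, a2, h⟩
          · exact Or.inr (Or.inl ⟨a1, a2, h⟩)
        · exact Or.inr (Or.inr (Or.inr a2))
      · exact Or.inr (Or.inr (Or.inl a1))
    have k1 := card_le_card this
    have k2 := card_union_le F (Hs ∪ (nE ∪ nS))
    have k3 := card_union_le Hs (nE ∪ nS)
    have k4 := card_union_le nE nS
    omega
  have hFull : Full adj col W F Rb (r + 1) := by
    have e1 : ∀ v ∈ F, Rb v = outc adj col W v := fun v hv =>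
      eq_of_subset_of_card_le (inter_subset_left.trans out2_subset)
        ((outc_card hirr hW (by omega) (mem_filter.1 hv).2.1).trans (mem_filter.1 hv).2.2.2)
    have e2 : ∀ v ∈ F, Rb v = outc (flip adj) (flip col) W v := fun v hv =>
      eq_of_subset_of_card_le (inter_subset_right.trans out2_subset)
        ((outc_card hirr' hW' (by omega) (mem_filter.1 hv).2.2.1).trans (mem_filter.1 hv).2.2.2)
    refine ⟨filter_subset _ _, ?_, ?_, ?_, ?_, ?_⟩
    · intro v hv
      apply le_antisymm _ (mem_filter.1 hv).2.2.2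
      rw [e1 v hv]
      exact outc_card hirr hW (by omega) (mem_filter.1 hv).2.1
    · intro v hv y hy h
      rw [e1 v hv]; exact mem_outc.2 ⟨y, hy, h, rfl⟩
    · intro v hv y hy h
      rw [e2 v hv]; exact mem_outc.2 ⟨y, hy, h, rfl⟩
    · intro v _ d hd
      exact mem_out2.1 (mem_inter.1 hd).1
    · intro v _ d hd
      exact mem_out2.1 (mem_inter.1 hd).2
  have hpow : l ^ (r + 1) = l * l ^ r := by ring
  have hcS : cS r * l ^ r ≤ l * l ^ r := Nat.mul_le_mul_right _ hl2
  have hcS' : cS r * l ^ r = 2 * ((2 * K + 1) * l ^ r) +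
      (2 * (2 * (r + 1)) + 1) * kC (2 * (r + 1)) * l ^ r +
      (r + 1) * (2 * ((2 * K + 1) * l ^ r)) := by
    simp only [cS, hK]; ring
  obtain ⟨v0, hv0⟩ : F.Nonempty := by
    rw [← card_pos]
    omega
  set Bad := (Rb v0).biUnion (fun c =>
    (F.filter fun u => c ∈ Rb u ∧ ¬ RobEnd adj col K (Lv f F Rb c (f c u)) r u) ∪
    (F.filter fun u => c ∈ Rb u ∧ ¬ RobEnd (flip adj) (flip col) K (Lv f F Rb c (f c u)) r u))
    with hBad
  have c5 : Bad.card ≤ (r + 1) * (2 * ((2 * K + 1) * l ^ r)) := by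
    rw [← hFull.card v0 hv0]
    apply card_biUnion_le_card_mul
    intro c _
    refine (card_union_le _ _).trans ?_
    have k1 := bad_card (K := K) hl hf H0 F Rb c
    have k2 := bad_card (K := K) hl hf H0' F Rb c
    omega
  obtain ⟨u, hu, huB⟩ : ∃ u ∈ F, u ∉ Bad := by
    apply exists_mem_notMem_of_card_lt_card
    omega
  have hgood : ∀ c ∈ Rb v0, c ∈ Rb u → RobEnd adj col K (Lv f F Rb c (f c u)) r u ∧
      RobEnd (flip adj) (flip col) K (Lv f F Rb c (f c u)) r u := by
    intro c hc hcu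
    simp only [hBad, mem_biUnion, mem_union, mem_filter, not_exists, not_and, not_or,
      not_not] at huB
    exact ⟨(huB c hc).1 hu hcu, (huB c hc).2 hu hcu⟩
  have hRu : Rb u = Rb v0 := by
    by_cases e : u = v0
    · rw [e]
    rcases hT u v0 e with h | h
    · exact dom hA hp hFull hW le_rfl hu hv0 h (hgood _ (hFull.hin v0 hv0 u (hFull.sub hu) h)
        (hFull.hout u hu v0 (hFull.sub hv0) h)).1
    · exact dom hA' hp' hFull.flip hW' le_rfl hu hv0 h
        (hgood _ (hFull.hout v0 hv0 u (hFull.sub hu) h) (hFull.hin u hu v0 (hFull.sub hv0) h)).2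
  rw [← hRu] at hgood
  have hQ := Qlem hT hGR (fun a => a ∉ Rb u) (r + 1) (Rb u) W ∅ (hFull.card u hu) hl1
    (disjoint_empty_right _) (fun _ _ _ _ _ => em _) (by
      simp only [union_empty]
      intro x hx w hw y hy hxw hwy e1 e2
      by_cases e : u = w
      · subst e
        exact e2 (hFull.hout u hu y hy hwy)
      rcases hT u w e with h | h
      · exact noex hirr hp hFull hW le_rfl hu (fun c hc => (hgood c hc hc).1) hw hy h hwy e2
      · exact noex hirr' hp' hFull.flip hW' le_rfl hu (fun c hc => (hgood c hc hc).2) hw hx h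
          hxw e1) hW (by simp)
  simp only [card_empty, add_zero] at hQ
  exact hcon (Nat.le_of_mul_le_mul_left hQ (QN_pos _))

/-- Threshold for the main theorem. -/
def L0 : ℕ → ℕ
  | 0 => 1
  | 1 => 1
  | k + 2 => L0 (k + 1) + L0 k + (QN (k + 1) + 3) + cS k

theorem main {l : ℕ} (hT : ∀ u v, u ≠ v → adj u v ∨ adj v u) (hA : ∀ u v, adj u v → ¬ adj v u)
    (hGR : GR adj col l) : ∀ k, L0 k ≤ l → ∀ U : Finset V, ¬ HasP adj col U k →
      l * U.card ≤ l ^ k
  | 0 => by
    intro _ U hU
    have : U = ∅ := by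
      rw [eq_empty_iff_forall_notMem]
      intro v hv
      exact hU ⟨v, v, _, _, RPath.single v, by simpa using hv, rfl⟩
    simp [this]
  | 1 => by
    intro _ U hU
    have : U.card ≤ 1 := by
      rw [card_le_one]
      intro u hu v hv
      by_contra e
      exact hU (hasP_one hT hu hv e)
    calc l * U.card ≤ l * 1 := Nat.mul_le_mul_left _ this
      _ = _ := by ring
  | k + 2 => by
    intro hl U hU
    simp only [L0] at hl
    have := step hT hA hGR (by omega) (by omega) (main hT hA hGR (k + 1) (by omega))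
      (main hT hA hGR k (by omega)) U hU
    calc l * U.card ≤ l * l ^ (k + 1) := Nat.mul_le_mul_left _ this
      _ = _ := by ring

end Pool.Agent.H66Fed
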