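import Mathlib

set_option autoImplicit false

namespace Pool.Agent.H66Fed
open Finset

variable {V C : Type} [DecidableEq V] [DecidableEq C]

/-- Rainbow directed path with start, end, vertex set and colour set. -/
inductive RPath (adj : V → V → Prop) (col : V → V → C) : V → V → Finset V → Finset C → Prop
  | single (v : V) : RPath adj col v v {v} ∅
  | snoc {s t u : V} {S : Finset V} {A : Finset C} : RPath adj col s t S A → adj t u → u ∉ S →
      col t u ∉ A → RPath adj col s u (insert u S) (insert (col t u) A)

variable {adj : V → V → Prop} {col : V → V → C}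

theorem RPath.start_mem {s t : V} {S : Finset V} {A : Finset C} (h : RPath adj col s t S A) :
    s ∈ S := by
  induction h with
  | single => simp
  | snoc _ _ _ _ ih => exact mem_insert_of_mem ih

theorem RPath.end_mem {s t : V} {S : Finset V} {A : Finset C} (h : RPath adj col s t S A) :
    t ∈ S := by
  cases h with
  | single => simp
  | snoc _ _ _ _ => exact mem_insert_self _ _

theorem RPath.cons {s t : V} {S : Finset V} {A : Finset C} (h : RPath adj col s t S A) {x : V}
    (hx : adj x s) (hxS : x ∉ S) (hc : col x s ∉ A) :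
    RPath adj col x t (insert x S) (insert (col x s) A) := by
  induction h with
  | single =>
    have h1 : s ∉ ({x} : Finset V) := by
      intro h; rw [mem_singleton] at h; apply hxS; rw [h]; simp
    have := RPath.snoc (RPath.single (adj := adj) (col := col) x) hx h1 (by simp)
    rwa [Finset.pair_comm] at this
  | @snoc t u S A _ htu huS hcA ih =>
    have hxS' : x ∉ S := fun h => hxS (mem_insert_of_mem h)
    have hc' : col x s ∉ A := fun h => hc (mem_insert_of_mem h)
    have h1 : u ∉ insert x S := by
      intro h; rcases mem_insert.1 h with h | h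
      · apply hxS; rw [← h]; exact mem_insert_self _ _
      · exact huS h
    have h2 : col t u ∉ insert (col x s) A := by
      intro h; rcases mem_insert.1 h with h | h
      · apply hc; rw [← h]; exact mem_insert_self _ _
      · exact hcA h
    have := RPath.snoc (ih hxS' hc') htu h1 h2
    rwa [Finset.insert_comm u x, Finset.insert_comm (col t u)] at this

theorem RPath.col_mem {s t : V} {S : Finset V} {A : Finset C} (h : RPath adj col s t S A) {a : C}
    (ha : a ∈ A) : ∃ u ∈ S, ∃ v ∈ S, adj u v ∧ col u v = a := by
  induction h with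
  | single => simp at ha
  | @snoc t u S A hp htu _ _ ih =>
    rcases mem_insert.1 ha with h | h
    · exact ⟨t, mem_insert_of_mem hp.end_mem, u, mem_insert_self _ _, htu, h.symm⟩
    · obtain ⟨x, hx, y, hy, h1, h2⟩ := ih h
      exact ⟨x, mem_insert_of_mem hx, y, mem_insert_of_mem hy, h1, h2⟩

theorem RPath.reverse {s t : V} {S : Finset V} {A : Finset C} (h : RPath adj col s t S A) :
    RPath (flip adj) (flip col) t s S A := by
  induction h with
  | single => exact RPath.single _
  | @snoc t u S A _ htu huS hcA ih => exact ih.cons (x := u) htu huS hcA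

theorem RPath.ne {s t : V} {S : Finset V} {A : Finset C} (h : RPath adj col s t S A)
    (hA : 0 < A.card) : s ≠ t := by
  cases h with
  | single => simp at hA
  | snoc hp _ huS _ => intro e; apply huS; rw [← e]; exact hp.start_mem

theorem RPath.seq {s t : V} {S : Finset V} {A : Finset C} (h : RPath adj col s t S A) :
    ∃ p : ℕ → V, p A.card = t ∧ (∀ i ≤ A.card, p i ∈ S) ∧
      (∀ i ≤ A.card, ∀ j ≤ A.card, p i = p j → i = j) ∧
      (∀ i < A.card, adj (p i) (p (i + 1)) ∧ col (p i) (p (i + 1)) ∈ A) ∧
      (∀ i < A.card, ∀ j < A.card, col (p i) (p (i + 1)) = col (p j) (p (j + 1)) → i = j) := by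
  induction h with
  | single =>
    refine ⟨fun _ => s, rfl, by simp, ?_, by simp, by simp⟩
    intro i hi j hj _; simp at hi hj; omega
  | @snoc t u S A _ htu huS hcA ih =>
    obtain ⟨p, h0, h1, h2, h3, h4⟩ := ih
    rw [card_insert_of_notMem hcA]
    set n := A.card with hn
    have hq : ∀ i ≤ n, Function.update p (n + 1) u i = p i := fun i hi =>
      Function.update_of_ne (by omega) _ _
    have hq' : Function.update p (n + 1) u (n + 1) = u := Function.update_self _ _ _
    refine ⟨Function.update p (n + 1) u, hq', ?_, ?_, ?_, ?_⟩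
    · intro i hi
      rcases Nat.lt_or_ge n i with h | h
      · obtain rfl : i = n + 1 := by omega
        rw [hq']; exact mem_insert_self _ _
      · rw [hq i h]; exact mem_insert_of_mem (h1 i h)
    · intro i hi j hj e
      rcases Nat.lt_or_ge n i with h | h <;> rcases Nat.lt_or_ge n j with h' | h'
      · omega
      · obtain rfl : i = n + 1 := by omega
        rw [hq', hq j h'] at e; exact absurd (e ▸ h1 j h') huS
      · obtain rfl : j = n + 1 := by omega
        rw [hq', hq i h] at e; exact absurd (e ▸ h1 i h) huS
      · rw [hq i h, hq j h'] at e; exact h2 i h j h' e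
    · intro i hi
      rcases Nat.lt_or_ge i n with h | h
      · rw [hq i (by omega), hq (i + 1) (by omega)]
        exact ⟨(h3 i h).1, mem_insert_of_mem (h3 i h).2⟩
      · obtain rfl : i = n := by omega
        rw [hq', hq n le_rfl, h0]; exact ⟨htu, mem_insert_self _ _⟩
    · intro i hi j hj e
      rcases Nat.lt_or_ge i n with h | h <;> rcases Nat.lt_or_ge j n with h' | h'
      · rw [hq i (by omega), hq (i + 1) (by omega), hq j (by omega), hq (j + 1) (by omega)] at e
        exact h4 i h j h' e
      · obtain rfl : j = n := by omega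
        rw [hq i (by omega), hq (i + 1) (by omega), hq', hq n le_rfl, h0] at e
        exact absurd (e ▸ (h3 i h).2) hcA
      · obtain rfl : i = n := by omega
        rw [hq j (by omega), hq (j + 1) (by omega), hq', hq n le_rfl, h0] at e
        exact absurd (e ▸ (h3 j h').2) hcA
      · omega

/-- There is a rainbow path with `j` arcs inside `U`. -/
def HasP (adj : V → V → Prop) (col : V → V → C) (U : Finset V) (j : ℕ) : Prop :=
  ∃ s t S A, RPath adj col s t S A ∧ S ⊆ U ∧ A.card = j

theorem HasP.mono {U U' : Finset V} {j : ℕ} (h : HasP adj col U j) (hU : U ⊆ U') :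
    HasP adj col U' j := by
  obtain ⟨s, t, S, A, h1, h2, h3⟩ := h
  exact ⟨s, t, S, A, h1, h2.trans hU, h3⟩

theorem HasP.reverse {U : Finset V} {j : ℕ} (h : HasP adj col U j) :
    HasP (flip adj) (flip col) U j := by
  obtain ⟨s, t, S, A, h1, h2, h3⟩ := h
  exact ⟨t, s, S, A, h1.reverse, h2, h3⟩

theorem HasP.of_reverse {U : Finset V} {j : ℕ} (h : HasP (flip adj) (flip col) U j) :
    HasP adj col U j := h.reverse

omit [DecidableEq C] in
theorem indep (K : ℕ) (X : V → Finset V) (B : Finset V) (hX : ∀ v ∈ B, (X v).card ≤ K) :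
    ∃ I ⊆ B, (∀ u ∈ I, ∀ v ∈ I, u ≠ v → u ∉ X v) ∧ B.card ≤ (2 * K + 1) * I.card := by
  induction B using Finset.strongInduction with
  | H B ih =>
    rcases B.eq_empty_or_nonempty with rfl | hB
    · exact ⟨∅, by simp, by simp, by simp⟩
    have hsum : ∑ v ∈ B, (B.filter fun u => v ∈ X u).card ≤ ∑ _v ∈ B, K := by
      have := Finset.sum_card_bipartiteAbove_eq_sum_card_bipartiteBelow
        (fun (v u : V) => v ∈ X u) (s := B) (t := B)
      simp only [bipartiteAbove, bipartiteBelow] at this
      rw [this]
      apply sum_le_sum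
      intro u hu
      refine le_trans (card_le_card ?_) (hX u hu)
      intro v hv; exact (mem_filter.1 hv).2
    obtain ⟨v, hv, hvK⟩ := Finset.exists_le_of_sum_le hB hsum
    set Y := insert v (X v ∪ B.filter fun u => v ∈ X u) with hY
    have hYc : Y.card ≤ 2 * K + 1 := by
      refine le_trans (card_insert_le _ _) ?_
      have := card_union_le (X v) (B.filter fun u => v ∈ X u)
      have := hX v hv
      omega
    have hss : B \ Y ⊂ B := by
      refine ⟨sdiff_subset, fun h => ?_⟩
      have := h hv
      simp [hY] at this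
    obtain ⟨I, hI, hI1, hI2⟩ := ih (B \ Y) hss (fun u hu => hX u (mem_sdiff.1 hu).1)
    have hvI : v ∉ I := fun h => by
      have := hI h
      simp [hY] at this
    refine ⟨insert v I, ?_, ?_, ?_⟩
    · intro u hu
      rcases mem_insert.1 hu with rfl | hu
      · exact hv
      · exact (mem_sdiff.1 (hI hu)).1
    · intro u hu w hw huw
      rcases mem_insert.1 hu with rfl | hu' <;> rcases mem_insert.1 hw with rfl | hw'
      · exact absurd rfl huw
      · intro h
        have := hI hw'
        simp only [hY, mem_sdiff, mem_insert, mem_union, mem_filter, not_or] at this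
        exact this.2.2.2 ⟨this.1, h⟩
      · intro h
        have := hI hu'
        simp only [hY, mem_sdiff, mem_insert, mem_union, mem_filter, not_or] at this
        exact this.2.2.1 h
      · exact hI1 u hu' w hw' huw
    · rw [card_insert_of_notMem hvI]
      have := Finset.le_card_sdiff Y B
      have h3 : B.card ≤ (B \ Y).card + (2 * K + 1) := by omega
      nlinarith

/-- `v` is the end of a rainbow path with `j` arcs inside `U` avoiding any small set. -/
def RobEnd (adj : V → V → Prop) (col : V → V → C) (K : ℕ) (U : Finset V) (j : ℕ) (v : V) : Prop :=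
  ∀ X : Finset V, X.card ≤ K → v ∉ X →
    ∃ s S A, RPath adj col s v S A ∧ S ⊆ U ∧ A.card = j ∧ Disjoint S X

theorem rob_count {l j K : ℕ} {U B : Finset V} (hBU : B ⊆ U)
    (H : ∀ U' ⊆ U, ¬ HasP adj col U' j → l * U'.card ≤ l ^ j)
    (hB : ∀ v ∈ B, ¬ RobEnd adj col K U j v) : l * B.card ≤ (2 * K + 1) * l ^ j := by
  classical
  have h1 : ∀ v, ∃ X : Finset V, v ∈ B → X.card ≤ K ∧ v ∉ X ∧
      ¬ ∃ s S A, RPath adj col s v S A ∧ S ⊆ U ∧ A.card = j ∧ Disjoint S X := by
    intro v
    by_cases hv : v ∈ B
    · have := hB v hv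
      unfold RobEnd at this
      push Not at this
      obtain ⟨X, h1, h2, h3⟩ := this
      refine ⟨X, fun _ => ⟨h1, h2, ?_⟩⟩
      rintro ⟨s, S, A, a1, a2, a3, a4⟩
      exact h3 s S A a1 a2 a3 a4
    · exact ⟨∅, fun h => absurd h hv⟩
  choose X hX using h1
  obtain ⟨I, hI, hI1, hI2⟩ := indep K X B (fun v hv => (hX v hv).1)
  have h2 : l * I.card ≤ l ^ j := by
    apply H I (hI.trans hBU)
    rintro ⟨s, t, S, A, a1, a2, a3⟩
    have ht : t ∈ I := a2 a1.end_mem
    apply (hX t (hI ht)).2.2
    refine ⟨s, S, A, a1, a2.trans (hI.trans hBU), a3, ?_⟩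
    rw [Finset.disjoint_left]
    intro u hu
    by_cases e : u = t
    · rw [e]; exact (hX t (hI ht)).2.1
    · exact hI1 u (a2 hu) t ht e
  calc l * B.card ≤ l * ((2 * K + 1) * I.card) := Nat.mul_le_mul_left _ hI2
    _ = (2 * K + 1) * (l * I.card) := by ring
    _ ≤ _ := Nat.mul_le_mul_left _ h2

end Pool.Agent.H66Fed
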