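import Mathlib

set_option autoImplicit false

namespace Pool.Agent.FedTour

open Relation

variable {V : Type*}

theorem transGen_insert {D : V → V → Prop} {u v x y : V}
    (h : TransGen (fun a b => D a b ∨ (a = u ∧ b = v)) x y) :
    TransGen D x y ∨ (ReflTransGen D x u ∧ ReflTransGen D v y) := by
  induction h with
  | single h =>
    rcases h with h | ⟨rfl, rfl⟩
    · exact Or.inl (TransGen.single h)
    · exact Or.inr ⟨ReflTransGen.refl, ReflTransGen.refl⟩
  | tail _ h ih =>
    rcases h with h | ⟨rfl, rfl⟩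
    · rcases ih with ih | ⟨i1, i2⟩
      · exact Or.inl (ih.tail h)
      · exact Or.inr ⟨i1, i2.tail h⟩
    · rcases ih with ih | ⟨i1, _⟩
      · exact Or.inr ⟨ih.to_reflTransGen, ReflTransGen.refl⟩
      · exact Or.inr ⟨i1, ReflTransGen.refl⟩

/-- A maximal acyclic subrelation. -/
theorem exists_max_acyclic [Fintype V] (R : V → V → Prop) :
    ∃ D : V → V → Prop, (∀ a b, D a b → R a b) ∧ (∀ a, ¬ TransGen D a a) ∧
      ∀ u v, R u v → D u v ∨ ReflTransGen D v u := by
  classical
  let S : Finset (Finset (V × V)) := Finset.univ.filter fun E =>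
    (∀ p ∈ E, R p.1 p.2) ∧ ∀ a, ¬ TransGen (fun a b => (a, b) ∈ E) a a
  have hS : S.Nonempty := by
    refine ⟨∅, ?_⟩
    simp only [S, Finset.mem_filter, Finset.mem_univ, true_and]
    refine ⟨by simp, fun a h => ?_⟩
    obtain ⟨b, hb, -⟩ := TransGen.head'_iff.1 h
    simp at hb
  obtain ⟨E, hE, hmax⟩ := S.exists_max_image Finset.card hS
  simp only [S, Finset.mem_filter, Finset.mem_univ, true_and] at hE hmax
  refine ⟨fun a b => (a, b) ∈ E, fun a b h => hE.1 _ h, hE.2, fun u v huv => ?_⟩
  by_cases hm : (u, v) ∈ E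
  · exact Or.inl hm
  right
  by_contra hn
  have := hmax (insert (u, v) E) ⟨?_, ?_⟩
  · rw [Finset.card_insert_of_notMem hm] at this
    omega
  · intro p hp
    rcases Finset.mem_insert.1 hp with rfl | hp
    · exact huv
    · exact hE.1 p hp
  · intro a ha
    have ha' : TransGen (fun a b => (a, b) ∈ E ∨ (a = u ∧ b = v)) a a := by
      have e : (fun a b => (a, b) ∈ insert (u, v) E) =
          fun a b => (a, b) ∈ E ∨ (a = u ∧ b = v) := by
        funext x y
        simp [Finset.mem_insert, or_comm]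
      rw [← e]
      exact ha
    rcases transGen_insert ha' with h | ⟨h1, h2⟩
    · exact hE.2 a h
    · exact hn (h2.trans h1)

theorem nodup_of_chain {D : V → V → Prop} (hD : ∀ a, ¬ TransGen D a a) {L : List V}
    (h : L.IsChain D) : L.Nodup := by
  have h1 : L.IsChain (TransGen D) := h.imp fun _ _ h => TransGen.single h
  have : Trans (TransGen D) (TransGen D) (TransGen D) := ⟨fun h1 h2 => h1.trans h2⟩
  have h2 : L.Pairwise (TransGen D) := List.isChain_iff_pairwise.1 h1
  exact h2.imp fun {a b} h (e : a = b) => hD a (by subst e; exact h)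

/-- Gallai–Roy with handles. -/
theorem gallai_roy [Fintype V] (R : V → V → Prop) (l : ℕ) (hirr : ∀ v, ¬ R v v)
    (hno : ∀ L : List V, L.Nodup → L.IsChain R → L.length ≤ l) :
    ∃ φ : V → ℕ, (∀ v, φ v < l) ∧ (∀ u v, R u v → φ u ≠ φ v) ∧ (∀ v, 0 < φ v → ∃ u, R u v) ∧
      (∀ u v, R u v → φ v = 0 → ∃ w, R v w) := by
  classical
  obtain ⟨D, hDR, hac, hmax⟩ := exists_max_acyclic R
  let P : V → ℕ → Prop := fun v n => ∃ L : List V, L.length = n ∧ (L ++ [v]).IsChain D
  have hP : ∀ v n, P v n → n < l := by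
    rintro v n ⟨L, rfl, hL⟩
    have := hno _ (nodup_of_chain hac hL) (hL.imp fun a b h => hDR a b h)
    simp at this
    omega
  have hP0 : ∀ v, P v 0 := fun v => ⟨[], rfl, by simp⟩
  let φ : V → ℕ := fun v => Nat.findGreatest (P v) l
  have hφ : ∀ v, P v (φ v) := fun v => Nat.findGreatest_spec (Nat.zero_le l) (hP0 v)
  have hstep : ∀ u v, D u v → φ u < φ v := by
    intro u v h
    obtain ⟨L, hL, hc⟩ := hφ u
    have : P v (φ u + 1) := ⟨L ++ [u], by simp [hL], by
      rw [List.isChain_append]
      refine ⟨hc, by simp, ?_⟩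
      simpa using h⟩
    exact Nat.le_findGreatest (hP _ _ this).le this
  have htr : ∀ u v, TransGen D u v → φ u < φ v := by
    intro u v h
    induction h with
    | single h => exact hstep _ _ h
    | tail _ h ih => exact ih.trans (hstep _ _ h)
  have hback : ∀ u v, R u v → D u v ∨ TransGen D v u := by
    intro u v h
    rcases hmax u v h with h1 | h1
    · exact Or.inl h1
    · rcases reflTransGen_iff_eq_or_transGen.1 h1 with e | e
      · subst e; exact absurd h (hirr _)
      · exact Or.inr e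
  refine ⟨φ, fun v => hP _ _ (hφ v), fun u v h => ?_, fun v hv => ?_, fun u v h h0 => ?_⟩
  · rcases hback u v h with h1 | h1
    · exact (hstep _ _ h1).ne
    · exact (htr _ _ h1).ne'
  · obtain ⟨L, hL, hc⟩ := hφ v
    rcases List.eq_nil_or_concat L with rfl | ⟨L', u, rfl⟩
    · simp at hL; omega
    · refine ⟨u, hDR _ _ ?_⟩
      rw [List.isChain_append] at hc
      simpa using hc.2.2
  · rcases hback u v h with h1 | h1
    · have := hstep _ _ h1; omega
    · obtain ⟨w, hw, -⟩ := TransGen.head'_iff.1 h1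
      exact ⟨w, hDR _ _ hw⟩

theorem redei_insert (adj : V → V → Prop) (htot : ∀ u v, u = v ∨ adj u v ∨ adj v u) (v : V) :
    ∀ L : List V, v ∉ L → L.IsChain adj →
      ∃ M : List V, M.Perm (v :: L) ∧ M.IsChain adj ∧ (M.head? = some v ∨ M.head? = L.head?)
  | [], _, _ => ⟨[v], List.Perm.refl _, by simp, Or.inl rfl⟩
  | a :: L, hv, hc => by
    have hva : v ≠ a := fun e => hv (by simp [e])
    rcases htot v a with e | h | h
    · exact absurd e hva
    · exact ⟨v :: a :: L, List.Perm.refl _, List.IsChain.cons_cons h hc, Or.inl rfl⟩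
    · obtain ⟨M, hM, hMc, hh⟩ := redei_insert adj htot v L (fun m => hv (by simp [m])) hc.tail
      refine ⟨a :: M, (hM.cons a).trans (List.Perm.swap _ _ _), ?_, Or.inr rfl⟩
      rw [List.isChain_cons]
      refine ⟨fun y hy => ?_, hMc⟩
      rcases hh with hh | hh
      · rw [hh] at hy
        simp at hy
        exact hy ▸ h
      · rw [hh] at hy
        exact (List.isChain_cons.1 hc).1 y hy

/-- Rédei's theorem for a finite set of vertices. -/
theorem redei [DecidableEq V] (adj : V → V → Prop) (htot : ∀ u v, u = v ∨ adj u v ∨ adj v u)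
    (S : Finset V) : ∃ L : List V, L.Nodup ∧ L.IsChain adj ∧ L.toFinset = S := by
  induction S using Finset.induction_on with
  | empty => exact ⟨[], by simp, by simp, by simp⟩
  | insert v S hv ih =>
    obtain ⟨L, h1, h2, h3⟩ := ih
    have hvL : v ∉ L := fun m => hv (h3 ▸ List.mem_toFinset.2 m)
    obtain ⟨M, hM, hc, -⟩ := redei_insert adj htot v L hvL h2
    refine ⟨M, hM.nodup_iff.2 (List.nodup_cons.2 ⟨hvL, h1⟩), hc, ?_⟩
    rw [List.toFinset_eq_of_perm _ _ hM, List.toFinset_cons, h3]

end Pool.Agent.FedTour
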