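import Pool.Agent.Lib.MP_fed786_co.Bad
import Pool.Agent.Lib.MP_fed786_co.Roy

set_option autoImplicit false

namespace Pool.Agent.FedTour

variable {V C : Type*}

theorem mono_chain (adj : V → V → Prop) (c : V → V → C) (S : Finset V)
    (hS : ∀ u ∈ S, ∀ v ∈ S, ∀ w ∈ S, adj u v → adj v w → c u v = c v w) :
    ∀ (L : List V) (u v : V), (∀ x ∈ u :: v :: L, x ∈ S) → (u :: v :: L).IsChain adj →
      (u :: v :: L).IsChain fun a b => adj a b ∧ c a b = c u v
  | [], u, v, _, h => by simpa using h
  | w :: L, u, v, hm, h => by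
    have h1 : adj u v := (List.isChain_cons_cons.1 h).1
    have h2 := (List.isChain_cons_cons.1 h).2
    have h3 : adj v w := (List.isChain_cons_cons.1 h2).1
    have e : c u v = c v w := hS u (hm _ (by simp)) v (hm _ (by simp)) w (hm _ (by simp)) h1 h3
    have ih := mono_chain adj c S hS L v w (fun x hx => hm x (List.mem_cons_of_mem _ hx)) h2
    rw [← e] at ih
    exact List.IsChain.cons_cons ⟨h1, rfl⟩ ih

theorem card_le_of_mono [DecidableEq V] (adj : V → V → Prop) (c : V → V → C) (l : ℕ) (hl : 0 < l)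
    (htot : ∀ u v, u = v ∨ adj u v ∨ adj v u)
    (hmono : ∀ (a : C) (L : List V), L.Nodup → (L.IsChain fun u v => adj u v ∧ c u v = a) →
      L.length ≤ l)
    (S : Finset V)
    (hS : ∀ u ∈ S, ∀ v ∈ S, ∀ w ∈ S, adj u v → adj v w → c u v = c v w) : S.card ≤ l := by
  obtain ⟨L, h1, h2, h3⟩ := redei adj htot S
  have hc : S.card = L.length := by rw [← h3, List.toFinset_card_of_nodup h1]
  rw [hc]
  match L, h1, h2, h3 with
  | [], _, _, _ => simp
  | [_], _, _, _ => exact hl
  | u :: v :: L, h1, h2, h3 =>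
    exact hmono (c u v) _ h1
      (mono_chain adj c S hS L u v (fun x hx => h3 ▸ List.mem_toFinset.2 hx) h2)

theorem card_le_sq [Fintype V] (adj : V → V → Prop) (c : V → V → C) (l : ℕ) (hl : 2 ≤ l)
    (hirr : ∀ u, ¬ adj u u)
    (has : ∀ u v, adj u v → ¬ adj v u)
    (htot : ∀ u v, u = v ∨ adj u v ∨ adj v u)
    (hmono : ∀ (a : C) (L : List V), L.Nodup → (L.IsChain fun u v => adj u v ∧ c u v = a) →
      L.length ≤ l)
    (hR : ∀ a b d e, adj a b → adj b d → adj d e → a = e ∨
      c a b = c b d ∨ c b d = c d e ∨ c a b = c d e) (a0 : C) :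
    Fintype.card V ≤ l * l := by
  classical
  obtain ⟨a, ha⟩ := exists_good adj c hirr has htot hR a0
  obtain ⟨φ, hφl, hφne, hφin, hφout⟩ :=
    gallai_roy (fun u v => adj u v ∧ c u v = a) l (fun v h => hirr v h.1) (hmono a)
  let T : V → Prop := fun v => ∃ u, (adj u v ∧ c u v = a) ∨ (adj v u ∧ c v u = a)
  let St : V → Prop := fun z => ∃ r s, adj z r ∧ adj r s ∧ c z r ≠ c r s ∧ c r s ≠ a
  let ψ : V → ℕ := fun v => if T v then φ v else if St v then 0 else 1
  have hψl : ∀ v, ψ v < l := by
    intro v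
    simp only [ψ]
    split_ifs
    · exact hφl v
    · omega
    · omega
  have hfree : ∀ u v, adj u v → ψ u = ψ v → c u v ≠ a := by
    intro u v h e hc
    have tu : T u := ⟨v, Or.inr ⟨h, hc⟩⟩
    have tv : T v := ⟨u, Or.inl ⟨h, hc⟩⟩
    simp only [ψ, if_pos tu, if_pos tv] at e
    exact hφne u v ⟨h, hc⟩ e
  have key : ∀ u v w, ψ u = ψ v → ψ v = ψ w → adj u v → adj v w → c u v = c v w := by
    intro u v w e1 e2 h1 h2
    by_contra hne
    have n1 := hfree u v h1 e1
    have n2 := hfree v w h2 e2
    rcases Nat.eq_zero_or_pos (ψ w) with h0 | h0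
    · by_cases tw : T w
      · have : ∃ t, adj w t ∧ c w t = a := by
          have h0' : φ w = 0 := by simpa only [ψ, if_pos tw] using h0
          obtain ⟨t, ht | ht⟩ := tw
          · exact hφout t w ht h0'
          · exact ⟨t, ht⟩
        obtain ⟨t, ht, hc⟩ := this
        rcases hR u v w t h1 h2 ht with e | e | e | e
        · subst e
          exact hfree w u ht (e1.trans e2).symm hc
        · exact hne e
        · exact n2 (e.trans hc)
        · exact n1 (e.trans hc)
      · have hs : St w := by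
          by_contra hs
          simp [ψ, tw, hs] at h0
        refine ha w ⟨fun t ht hc => tw ⟨t, Or.inl ⟨ht, hc⟩⟩, fun t ht hc => tw ⟨t, Or.inr ⟨ht, hc⟩⟩,
          ⟨u, v, h1, h2, hne, n1⟩, hs⟩
    · have h0u : 0 < ψ u := by omega
      by_cases tu : T u
      · obtain ⟨t, ht, hc⟩ := hφin u (by simpa [ψ, if_pos tu] using h0u)
        rcases hR t u v w ht h1 h2 with e | e | e | e
        · subst e
          exact hfree t u ht (e1.trans e2).symm hc
        · exact n1 (e.symm.trans hc)
        · exact hne e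
        · exact n2 (e.symm.trans hc)
      · have hs : St u := ⟨v, w, h1, h2, hne, n2⟩
        simp [ψ, tu, hs] at h0u
  have := Finset.card_le_mul_card_image_of_maps_to (s := (Finset.univ : Finset V))
    (t := Finset.range l) (f := ψ) (fun v _ => Finset.mem_range.2 (hψl v)) l (by
      intro b _
      refine card_le_of_mono adj c l (by omega) htot hmono _ ?_
      intro u hu v hv w hw h1 h2
      simp only [Finset.mem_filter] at hu hv hw
      exact key u v w (hu.2.trans hv.2.symm) (hv.2.trans hw.2.symm) h1 h2)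
  simpa using this

end Pool.Agent.FedTour
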